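import Pool.Agent.H1.LD.Defs

/-!
Energy condition (definition).
-/

set_option autoImplicit false

open MeasureTheory Filter Topology Metric Set
open scoped RealInnerProductSpace ENNReal

namespace Pool.Agent.H1.LD

open Pool.Agent.RZ

variable {d : ℕ}

/-- uniform bound of the regularised Riesz transforms of the measure -/
def En (n : ℕ) (μ : Measure (X d)) : Prop :=
  ∃ B : ℝ, ∀ ε : ℝ, 0 < ε → ∀ e : X d, ‖e‖ ≤ 1 →
    ∫ x, (∫ y, ⟪e, x - y⟫ * kr n ε (x - y) ∂μ) ^ 2 ∂μ ≤ B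

end Pool.Agent.H1.LD
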