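import Pool.Agent.H1.LD.Gau2

/-!
Completing the square.
ga_square: b₁|u-x|^2 + b₂|x-p|^2 = (b₁+b₂)|x-m|^2 + (b₁b₂/(b₁+b₂))|u-p|^2 with m = (b₁u+b₂p)/(b₁+b₂); translate x = m + w (integral_add_left_eq_self / integral_sub_right_eq_self), pull out the constant.
No integrability is needed (equality of Bochner integrals).
ga_first_repr: |v-w|^2+|w|^2 = 2|w-v/2|^2+|v|^2/2; w = v/2 + w': v-w = v/2-w'; the odd part vanishes.
ga_hess_repr: same substitution: ⟪v/2-w',c⟫⟪v/2+w',a⟫ = ⟪v,c⟫⟪v,a⟫/4 - ⟪w',c⟫⟪w',a⟫ + odd; ga_second with b = 2.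
-/

set_option autoImplicit false

open MeasureTheory Filter Topology Metric Set
open scoped RealInnerProductSpace ENNReal

namespace Pool.Agent.H1.LD

open Pool.Agent.RZ

variable {d : ℕ}

private theorem Gau3_sq {b₁ b₂ : ℝ} (h1 : 0 < b₁) (h2 : 0 < b₂) (u p w : X d) :
    ga b₁ (u - ((b₁ + b₂)⁻¹ • (b₁ • u + b₂ • p) + w)) * ga b₂ ((b₁ + b₂)⁻¹ • (b₁ • u + b₂ • p) + w - p) =
      ga (b₁ * b₂ / (b₁ + b₂)) (u - p) * ga (b₁ + b₂) w := by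
  have hs : b₁ + b₂ ≠ 0 := by positivity
  have e1 : u - ((b₁ + b₂)⁻¹ • (b₁ • u + b₂ • p) + w) = (b₂ / (b₁ + b₂)) • (u - p) - w := by
    have h3 : u = ((b₁ + b₂)⁻¹ * (b₁ + b₂)) • u := by rw [inv_mul_cancel₀ hs, one_smul]
    have h4 : u - ((b₁ + b₂)⁻¹ • (b₁ • u + b₂ • p) + w) =
        ((b₁ + b₂)⁻¹ * (b₁ + b₂)) • u - ((b₁ + b₂)⁻¹ • (b₁ • u + b₂ • p) + w) := by rw [← h3]
    rw [h4, div_eq_inv_mul]
    module
  have e2 : (b₁ + b₂)⁻¹ • (b₁ • u + b₂ • p) + w - p = (b₁ / (b₁ + b₂)) • (u - p) + w := by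
    have h3 : p = ((b₁ + b₂)⁻¹ * (b₁ + b₂)) • p := by rw [inv_mul_cancel₀ hs, one_smul]
    have h4 : (b₁ + b₂)⁻¹ • (b₁ • u + b₂ • p) + w - p =
        (b₁ + b₂)⁻¹ • (b₁ • u + b₂ • p) + w - ((b₁ + b₂)⁻¹ * (b₁ + b₂)) • p := by rw [← h3]
    rw [h4, div_eq_inv_mul]
    module
  rw [e1, e2]
  unfold ga
  rw [← Real.exp_add, ← Real.exp_add]
  congr 1
  rw [norm_sub_sq_real, norm_add_sq_real, norm_smul, norm_smul, real_inner_smul_left, real_inner_smul_left,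
    mul_pow, mul_pow, Real.norm_eq_abs, Real.norm_eq_abs, sq_abs, sq_abs]
  field_simp
  ring

/-- completing the square -/
theorem ga_square {E : Type*} [NormedAddCommGroup E] [NormedSpace ℝ E] {b₁ b₂ : ℝ} (h1 : 0 < b₁)
    (h2 : 0 < b₂) (u p : X d) (f : X d → E) :
    ∫ x, (ga b₁ (u - x) * ga b₂ (x - p)) • f x =
      ga (b₁ * b₂ / (b₁ + b₂)) (u - p) •
        ∫ w, ga (b₁ + b₂) w • f ((b₁ + b₂)⁻¹ • (b₁ • u + b₂ • p) + w) := by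
  rw [← integral_add_left_eq_self (fun x => (ga b₁ (u - x) * ga b₂ (x - p)) • f x)
    ((b₁ + b₂)⁻¹ • (b₁ • u + b₂ • p)), ← integral_smul]
  refine integral_congr_ae (Eventually.of_forall fun w => ?_)
  simp only
  rw [Gau3_sq h1 h2 u p w, mul_smul]

private theorem Gau3_int0 : Integrable (fun w : X d => ga 2 w) := by
  have h := ga_integrable (d := d) (b := 2) (by norm_num) 0
  simpa using h

private theorem Gau3_int1 (a : X d) : Integrable (fun w : X d => ga 2 w * ⟪w, a⟫) := by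
  have h := (ga_integrable (d := d) (b := 2) (by norm_num) 1).mul_const ‖a‖
  refine h.mono' ?_ (Eventually.of_forall fun w => ?_)
  · exact ((ga_continuous 2).mul (by fun_prop)).aestronglyMeasurable
  · rw [Real.norm_eq_abs, abs_mul, abs_of_pos (ga_pos 2 w), pow_one]
    have h1 : |⟪w, a⟫| ≤ ‖w‖ * ‖a‖ := abs_real_inner_le_norm w a
    have h2 := ga_pos (d := d) 2 w
    calc ga 2 w * |⟪w, a⟫| ≤ ga 2 w * (‖w‖ * ‖a‖) := mul_le_mul_of_nonneg_left h1 h2.le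
      _ ≤ (1 + ‖w‖) * ga 2 w * ‖a‖ := by
          have h3 : 0 ≤ ga 2 w * ‖a‖ := by positivity
          nlinarith

private theorem Gau3_int2 (a c : X d) : Integrable (fun w : X d => ga 2 w * (⟪w, a⟫ * ⟪w, c⟫)) := by
  have h := (ga_integrable (d := d) (b := 2) (by norm_num) 2).mul_const (‖a‖ * ‖c‖)
  refine h.mono' ?_ (Eventually.of_forall fun w => ?_)
  · exact ((ga_continuous 2).mul (by fun_prop)).aestronglyMeasurable
  · rw [Real.norm_eq_abs, abs_mul, abs_of_pos (ga_pos 2 w), abs_mul]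
    have h1 : |⟪w, a⟫| ≤ ‖w‖ * ‖a‖ := abs_real_inner_le_norm w a
    have h1' : |⟪w, c⟫| ≤ ‖w‖ * ‖c‖ := abs_real_inner_le_norm w c
    have h2 := ga_pos (d := d) 2 w
    have h3 : |⟪w, a⟫| * |⟪w, c⟫| ≤ (‖w‖ * ‖a‖) * (‖w‖ * ‖c‖) :=
      mul_le_mul h1 h1' (abs_nonneg _) (by positivity)
    have h4 : (‖w‖ * ‖a‖) * (‖w‖ * ‖c‖) ≤ (1 + ‖w‖) ^ 2 * (‖a‖ * ‖c‖) := by
      have h5 : ‖w‖ ^ 2 ≤ (1 + ‖w‖) ^ 2 := pow_le_pow_left₀ (norm_nonneg w) (by linarith) 2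
      calc (‖w‖ * ‖a‖) * (‖w‖ * ‖c‖) = ‖w‖ ^ 2 * (‖a‖ * ‖c‖) := by ring
        _ ≤ _ := mul_le_mul_of_nonneg_right h5 (by positivity)
    calc ga 2 w * (|⟪w, a⟫| * |⟪w, c⟫|) ≤ ga 2 w * ((1 + ‖w‖) ^ 2 * (‖a‖ * ‖c‖)) :=
          mul_le_mul_of_nonneg_left (h3.trans h4) h2.le
      _ = (1 + ‖w‖) ^ 2 * ga 2 w * (‖a‖ * ‖c‖) := by ring

/-- the first moment at unit scale is a Gaussian average of the narrow first moment -/
theorem ga_first_repr (v a : X d) :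
    ∫ w : X d, (ga 1 (v - w) * ga 1 w) * ⟪v - w, a⟫ = gc d 2 / 2 * (ga (1 / 2) v * ⟪v, a⟫) := by
  have h := ga_square (d := d) (b₁ := 1) (b₂ := 1) one_pos one_pos v 0 (fun x => ⟪v - x, a⟫)
  simp only [smul_eq_mul, sub_zero] at h
  rw [h]
  have e1 : ∀ w : X d, ga (1 + 1) w * ⟪v - ((1 + 1 : ℝ)⁻¹ • ((1 : ℝ) • v + (1 : ℝ) • (0 : X d)) + w), a⟫ =
      ga 2 w * (⟪v, a⟫ / 2) - ga 2 w * ⟪w, a⟫ := by
    intro w
    have e2 : v - ((1 + 1 : ℝ)⁻¹ • ((1 : ℝ) • v + (1 : ℝ) • (0 : X d)) + w) = (1 / 2 : ℝ) • v - w := by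
      have h3 : v = (1 / 2 + 1 / 2 : ℝ) • v := by norm_num
      have h4 : v - ((1 + 1 : ℝ)⁻¹ • ((1 : ℝ) • v + (1 : ℝ) • (0 : X d)) + w) =
          (1 / 2 + 1 / 2 : ℝ) • v - ((1 / 2 : ℝ) • v + w) := by
        rw [← h3, smul_zero, add_zero, one_smul]
        norm_num
      rw [h4]
      module
    rw [e2, inner_sub_left, real_inner_smul_left, show (1 + 1 : ℝ) = 2 by norm_num]
    ring
  rw [integral_congr_ae (Eventually.of_forall e1), integral_sub (Gau3_int0.mul_const _) (Gau3_int1 a),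
    integral_mul_const, ga_odd, show (1 * 1 / (1 + 1) : ℝ) = 1 / 2 by norm_num]
  unfold gc
  ring

/-- the Hessian kernel at unit scale is a Gaussian average of the narrow first moment -/
theorem ga_hess_repr (v a c : X d) :
    ∫ w : X d, (ga 1 (v - w) * ga 1 w) * (⟪v - w, c⟫ * ⟪w, a⟫) =
      gc d 2 / 4 * (ga (1 / 2) v * (⟪v, a⟫ * ⟪v, c⟫ - ⟪a, c⟫)) := by
  have h := ga_square (d := d) (b₁ := 1) (b₂ := 1) one_pos one_pos v 0 (fun x => ⟪v - x, c⟫ * ⟪x, a⟫)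
  simp only [smul_eq_mul, sub_zero] at h
  rw [h]
  have e1 : ∀ w : X d, ga (1 + 1) w *
      (⟪v - ((1 + 1 : ℝ)⁻¹ • ((1 : ℝ) • v + (1 : ℝ) • (0 : X d)) + w), c⟫ *
        ⟪(1 + 1 : ℝ)⁻¹ • ((1 : ℝ) • v + (1 : ℝ) • (0 : X d)) + w, a⟫) =
      (ga 2 w * (⟪v, c⟫ * ⟪v, a⟫ / 4) + (ga 2 w * ⟪w, a⟫) * (⟪v, c⟫ / 2) - (ga 2 w * ⟪w, c⟫) * (⟪v, a⟫ / 2)) -
        ga 2 w * (⟪w, a⟫ * ⟪w, c⟫) := by
    intro w
    have e2 : (1 + 1 : ℝ)⁻¹ • ((1 : ℝ) • v + (1 : ℝ) • (0 : X d)) + w = (1 / 2 : ℝ) • v + w := by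
      rw [smul_zero, add_zero, one_smul]
      norm_num
    have e3 : v - ((1 / 2 : ℝ) • v + w) = (1 / 2 : ℝ) • v - w := by
      have h3 : v = (1 / 2 + 1 / 2 : ℝ) • v := by norm_num
      have h4 : v - ((1 / 2 : ℝ) • v + w) = (1 / 2 + 1 / 2 : ℝ) • v - ((1 / 2 : ℝ) • v + w) := by
        rw [← h3]
      rw [h4]
      module
    rw [e2, e3, inner_sub_left, inner_add_left, real_inner_smul_left, real_inner_smul_left,
      show (1 + 1 : ℝ) = 2 by norm_num]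
    ring
  have i0 : Integrable (fun w : X d => ga 2 w * (⟪v, c⟫ * ⟪v, a⟫ / 4)) := Gau3_int0.mul_const _
  have i1 : Integrable (fun w : X d => (ga 2 w * ⟪w, a⟫) * (⟪v, c⟫ / 2)) := (Gau3_int1 a).mul_const _
  have i2 : Integrable (fun w : X d => (ga 2 w * ⟪w, c⟫) * (⟪v, a⟫ / 2)) := (Gau3_int1 c).mul_const _
  have i3 : Integrable (fun w : X d => ga 2 w * (⟪v, c⟫ * ⟪v, a⟫ / 4) + (ga 2 w * ⟪w, a⟫) * (⟪v, c⟫ / 2)) := i0.add i1
  have i4 : Integrable (fun w : X d => ga 2 w * (⟪v, c⟫ * ⟪v, a⟫ / 4) + (ga 2 w * ⟪w, a⟫) * (⟪v, c⟫ / 2) -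
    (ga 2 w * ⟪w, c⟫) * (⟪v, a⟫ / 2)) := i3.sub i2
  rw [integral_congr_ae (Eventually.of_forall e1), integral_sub i4 (Gau3_int2 a c),
    integral_sub i3 i2, integral_add i0 i1, integral_mul_const, integral_mul_const, integral_mul_const,
    ga_odd, ga_odd, ga_second (by norm_num : (0 : ℝ) < 2), show (1 * 1 / (1 + 1) : ℝ) = 1 / 2 by norm_num]
  unfold gc
  ring

end Pool.Agent.H1.LD
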