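import Pool.Agent.H1.LD.Defs

/-!
ivt_limit (pure real analysis).  Suppose f does not tend to 0: there is η > 0 with f r ≥ η for arbitrarily small r (frequently).  Claim: a = η/2 works.  Otherwise f r < η/2 for arbitrarily small r as well;
by the intermediate value theorem f takes both values η/2 and (3/4)η at arbitrarily small r (between a point with f < η/2 and a point with f ≥ η; intervals in (0, δ), for every δ).
Along such points s(s^2-c) → 0 with s = η/2 and s = (3/4)η, so c = (η/2)^2 and c = ((3/4)η)^2, a contradiction.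
-/

set_option autoImplicit false

open MeasureTheory Filter Topology Metric Set
open scoped RealInnerProductSpace ENNReal

namespace Pool.Agent.H1.LD

open Pool.Agent.RZ

variable {d : ℕ}

theorem DicB_freq {p : ℝ → Prop} :
    (∃ᶠ r in 𝓝[>] (0 : ℝ), p r) ↔ ∀ δ : ℝ, 0 < δ → ∃ r, 0 < r ∧ r < δ ∧ p r := by
  constructor
  · intro h δ hδ
    by_contra hcon
    apply h
    have h1 : Ioo (0 : ℝ) δ ∈ 𝓝[>] (0 : ℝ) := Ioo_mem_nhdsGT hδ
    filter_upwards [h1] with r hr hp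
    exact hcon ⟨r, hr.1, hr.2, hp⟩
  · intro h hcon
    have h1 : {r : ℝ | ¬ p r} ∈ 𝓝[>] (0 : ℝ) := hcon
    rw [mem_nhdsGT_iff_exists_Ioo_subset] at h1
    obtain ⟨u, hu, hs⟩ := h1
    obtain ⟨r, h2, h3, h4⟩ := h u hu
    exact hs ⟨h2, h3⟩ h4

/-- a continuous nonnegative bounded function whose limit points are zeros of `s (s^2 - c)` -/
theorem ivt_limit {f : ℝ → ℝ} (hf : ContinuousOn f (Ioi 0)) (h0 : ∀ r, 0 < r → 0 ≤ f r) {c : ℝ}
    (hc : Tendsto (fun r : ℝ => f r * (f r ^ 2 - c)) (𝓝[>] 0) (𝓝 0))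
    (hn : ¬ Tendsto f (𝓝[>] 0) (𝓝 0)) : ∃ a : ℝ, 0 < a ∧ ∀ᶠ r in 𝓝[>] (0 : ℝ), a ≤ f r := by
  -- large values
  have h1 : ∃ η : ℝ, 0 < η ∧ ∀ δ : ℝ, 0 < δ → ∃ r, 0 < r ∧ r < δ ∧ η ≤ f r := by
    by_contra hcon
    apply hn
    rw [Metric.tendsto_nhds]
    intro ε hε
    by_contra hev
    apply hcon
    refine ⟨ε, hε, fun δ hδ => ?_⟩
    have h2 : ∃ᶠ r in 𝓝[>] (0 : ℝ), ¬ dist (f r) 0 < ε := Filter.not_eventually.mp hev
    obtain ⟨r, h3, h4, h5⟩ := DicB_freq.mp h2 δ hδ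
    refine ⟨r, h3, h4, ?_⟩
    rw [dist_zero_right, Real.norm_of_nonneg (h0 r h3)] at h5
    exact not_lt.mp h5
  obtain ⟨η, hη, h1⟩ := h1
  refine ⟨η / 2, by positivity, ?_⟩
  by_contra hev
  have h2 : ∃ᶠ r in 𝓝[>] (0 : ℝ), ¬ η / 2 ≤ f r := Filter.not_eventually.mp hev
  -- all values between
  have h3 : ∀ v : ℝ, η / 2 ≤ v → v ≤ η → v * (v ^ 2 - c) = 0 := by
    intro v hv1 hv2
    have h4 : ∃ᶠ r in 𝓝[>] (0 : ℝ), f r = v := by
      rw [DicB_freq]
      intro δ hδ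
      obtain ⟨a, ha0, haδ, ha⟩ := h1 δ hδ
      obtain ⟨b, hb0, hbδ, hb⟩ := DicB_freq.mp h2 δ hδ
      have hsub : uIcc b a ⊆ Ioo 0 δ := by
        intro t ht
        rw [mem_uIcc] at ht
        rcases ht with ht | ht
        · exact ⟨hb0.trans_le ht.1, ht.2.trans_lt haδ⟩
        · exact ⟨ha0.trans_le ht.1, ht.2.trans_lt hbδ⟩
      have hcont : ContinuousOn f (uIcc b a) := hf.mono fun t ht => (hsub ht).1
      have h5 := intermediate_value_uIcc hcont
      have h6 : v ∈ uIcc (f b) (f a) := by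
        rw [mem_uIcc]
        left
        exact ⟨(not_le.mp hb).le.trans hv1, hv2.trans ha⟩
      obtain ⟨t, ht, htv⟩ := h5 h6
      exact ⟨t, (hsub ht).1, (hsub ht).2, htv⟩
    have h5 : ∃ᶠ r in 𝓝[>] (0 : ℝ), f r * (f r ^ 2 - c) = v * (v ^ 2 - c) :=
      h4.mono fun r hr => by rw [hr]
    exact (tendsto_nhds_unique_of_frequently_eq hc tendsto_const_nhds h5).symm
  have h4 := h3 (η / 2) le_rfl (by linarith)
  have h5 := h3 η (by linarith) le_rfl
  have h6 : (η / 2) ^ 2 - c = 0 := by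
    rcases mul_eq_zero.mp h4 with h | h
    · linarith
    · exact h
  have h7 : η ^ 2 - c = 0 := by
    rcases mul_eq_zero.mp h5 with h | h
    · linarith
    · exact h
  nlinarith [mul_pos hη hη]

end Pool.Agent.H1.LD
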