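import Pool.Agent.H1.LD.DicA
import Pool.Agent.H1.LD.DicB

/-!
dich_of_Dy.  For a.e. z: cubic_limit.  tT n μ r z = r⁻¹^n ∫ ga (1/2)(r⁻¹•(x-z)) dμ (tT_eq).  (i) exp(-1/2) r⁻¹^n μ(closedBall z r) ≤ tT n μ r z, so if r⁻¹^n μ.real(closedBall z r) does not tend to 0 then tT does not tend to 0.
ivt_limit (tT_continuous_scale): a ≤ tT n μ r z eventually.  (ii) For M ≥ 1: tT n μ r z ≤ r⁻¹^n μ(closedBall z (M r)) + r⁻¹^n ∫_{|x-z| > M r} ga (1/2)(r⁻¹•(x-z)) ≤ M^n ((Mr)⁻¹^n μ(closedBall z (M r))) + exp(-M^2/4) * C(C₀)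
(ga (1/2) ≤ exp(-M^2/4) ga (1/4) off the ball, th_growth for blow n 0 r μ).  Choose M with exp(-M^2/4) C ≤ a/2; put ρ = M r: ρ⁻¹^n μ.real(closedBall z ρ) ≥ a/(2 M^n) eventually.
-/

set_option autoImplicit false

open MeasureTheory Filter Topology Metric Set
open scoped RealInnerProductSpace ENNReal

namespace Pool.Agent.H1.LD

open Pool.Agent.RZ

variable {d : ℕ}

/-- the dichotomy property of a measure, in terms of balls -/
def Dich (n : ℕ) (μ : Measure (X d)) : Prop :=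
  ∀ᵐ z ∂μ, ¬ Tendsto (fun r : ℝ => r⁻¹ ^ n * μ.real (closedBall z r)) (𝓝[>] 0) (𝓝 0) →
    ∃ a : ℝ, 0 < a ∧ ∀ᶠ r in 𝓝[>] (0 : ℝ), a ≤ r⁻¹ ^ n * μ.real (closedBall z r)

private theorem Dic_th_eq (n : ℕ) (μ : Measure (X d)) (b : ℝ) {t : ℝ} (ht : 0 < t) (y : X d) :
    th (blow n 0 t μ) b (t⁻¹ • y) = t⁻¹ ^ n * ∫ x, ga b (t⁻¹ • (x - y)) ∂μ := by
  unfold th
  rw [integral_blow n 0 ht μ]
  congr 1
  refine integral_congr_ae (Filter.Eventually.of_forall fun x => ?_)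
  change ga b (t⁻¹ • (x - 0) - t⁻¹ • y) = ga b (t⁻¹ • (x - y))
  rw [sub_zero, ← smul_sub]

private theorem Dic_int (μ : Measure (X d)) [IsFiniteMeasure μ] {b : ℝ} (hb : 0 ≤ b) (t : ℝ)
    (z : X d) : Integrable (fun x => ga b (t⁻¹ • (x - z))) μ := by
  refine Integrable.of_bound (C := 1) ?_ (Filter.Eventually.of_forall fun x => ?_)
  · exact ((ga_continuous b).comp ((continuous_id.sub continuous_const).const_smul t⁻¹)
      ).aestronglyMeasurable
  · rw [Real.norm_of_nonneg (ga_nonneg _ _)]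
    exact ga_le_one hb _

private theorem Dic_lower (n : ℕ) (μ : Measure (X d)) [IsFiniteMeasure μ] {r : ℝ} (hr : 0 < r)
    (z : X d) : Real.exp (-(1 / 2)) * (r⁻¹ ^ n * μ.real (closedBall z r)) ≤ tT n μ r z := by
  rw [tT_eq n μ hr z]
  have h1 : Real.exp (-(1 / 2)) * μ.real (closedBall z r) ≤
      ∫ x, ga (1 / 2) (r⁻¹ • (x - z)) ∂μ := by
    calc Real.exp (-(1 / 2)) * μ.real (closedBall z r) =
        ∫ _ in closedBall z r, Real.exp (-(1 / 2)) ∂μ := by
          rw [setIntegral_const, smul_eq_mul, mul_comm]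
      _ ≤ ∫ x in closedBall z r, ga (1 / 2) (r⁻¹ • (x - z)) ∂μ := by
          refine setIntegral_mono_on (integrableOn_const (measure_ne_top _ _))
            (Dic_int μ (by norm_num) r z).integrableOn isClosed_closedBall.measurableSet ?_
          intro x hx
          unfold ga
          refine Real.exp_le_exp.2 ?_
          have h2 : ‖r⁻¹ • (x - z)‖ ≤ 1 := by
            rw [norm_smul, Real.norm_of_nonneg (inv_nonneg.2 hr.le), inv_mul_le_iff₀ hr, mul_one]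
            exact mem_closedBall_iff_norm.1 hx
          have h3 : ‖r⁻¹ • (x - z)‖ ^ 2 ≤ 1 := by
            have := pow_le_pow_left₀ (norm_nonneg _) h2 2
            rwa [one_pow] at this
          linarith
      _ ≤ _ := setIntegral_le_integral (Dic_int μ (by norm_num) r z)
          (Filter.Eventually.of_forall fun x => ga_nonneg _ _)
  have h2 : 0 ≤ r⁻¹ ^ n := pow_nonneg (inv_nonneg.2 hr.le) n
  calc Real.exp (-(1 / 2)) * (r⁻¹ ^ n * μ.real (closedBall z r)) =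
      r⁻¹ ^ n * (Real.exp (-(1 / 2)) * μ.real (closedBall z r)) := by ring
    _ ≤ _ := mul_le_mul_of_nonneg_left h1 h2

private theorem Dic_upper (n : ℕ) (μ : Measure (X d)) [IsFiniteMeasure μ] {r M : ℝ} (hr : 0 < r)
    (hM : 0 < M) (z : X d) : tT n μ r z ≤ r⁻¹ ^ n * μ.real (closedBall z (M * r)) +
      Real.exp (-(M ^ 2 / 4)) * th (blow n 0 r μ) (1 / 4) (r⁻¹ • z) := by
  rw [tT_eq n μ hr z, Dic_th_eq n μ (1 / 4) hr z]
  have hi : Integrable (fun x => (closedBall z (M * r)).indicator (fun _ => (1 : ℝ)) x) μ :=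
    (integrable_const (1 : ℝ)).indicator isClosed_closedBall.measurableSet
  have h1 : ∫ x, ga (1 / 2) (r⁻¹ • (x - z)) ∂μ ≤
      ∫ x, ((closedBall z (M * r)).indicator (fun _ => (1 : ℝ)) x +
        Real.exp (-(M ^ 2 / 4)) * ga (1 / 4) (r⁻¹ • (x - z))) ∂μ := by
    refine integral_mono (Dic_int μ (by norm_num) r z)
      (hi.add ((Dic_int μ (by norm_num) r z).const_mul _)) fun x => ?_
    by_cases hx : x ∈ closedBall z (M * r)
    · have h2 : ga (1 / 2) (r⁻¹ • (x - z)) ≤ 1 := ga_le_one (by norm_num) _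
      have h3 : 0 ≤ Real.exp (-(M ^ 2 / 4)) * ga (1 / 4) (r⁻¹ • (x - z)) :=
        mul_nonneg (Real.exp_pos _).le (ga_nonneg _ _)
      simp only [Set.indicator_of_mem hx]
      linarith
    · simp only [Set.indicator_of_notMem hx, zero_add]
      unfold ga
      rw [← Real.exp_add]
      refine Real.exp_le_exp.2 ?_
      have h2 : M ≤ ‖r⁻¹ • (x - z)‖ := by
        rw [norm_smul, Real.norm_of_nonneg (inv_nonneg.2 hr.le), le_inv_mul_iff₀ hr, mul_comm]
        rw [mem_closedBall_iff_norm, not_le] at hx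
        exact hx.le
      have h3 : M ^ 2 ≤ ‖r⁻¹ • (x - z)‖ ^ 2 := pow_le_pow_left₀ hM.le h2 2
      linarith
  have h2 : ∫ x, ((closedBall z (M * r)).indicator (fun _ => (1 : ℝ)) x +
        Real.exp (-(M ^ 2 / 4)) * ga (1 / 4) (r⁻¹ • (x - z))) ∂μ =
      μ.real (closedBall z (M * r)) +
        Real.exp (-(M ^ 2 / 4)) * ∫ x, ga (1 / 4) (r⁻¹ • (x - z)) ∂μ := by
    rw [integral_add hi ((Dic_int μ (by norm_num) r z).const_mul _), integral_const_mul,
      integral_indicator isClosed_closedBall.measurableSet, setIntegral_const, smul_eq_mul, mul_one]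
  rw [h2] at h1
  have h3 : 0 ≤ r⁻¹ ^ n := pow_nonneg (inv_nonneg.2 hr.le) n
  calc r⁻¹ ^ n * ∫ x, ga (1 / 2) (r⁻¹ • (x - z)) ∂μ ≤ r⁻¹ ^ n * (μ.real (closedBall z (M * r)) +
        Real.exp (-(M ^ 2 / 4)) * ∫ x, ga (1 / 4) (r⁻¹ • (x - z)) ∂μ) :=
        mul_le_mul_of_nonneg_left h1 h3
    _ = _ := by ring

/-- Theorem A -/
theorem dich_of_Dy {n K : ℕ} {μ : Measure (X d)} {C : ℝ} (hC : 0 ≤ C) (hg : Gr n C μ)
    {S : Set (X d)} {D Ds : X d → ℝ → ℝ} (h : Dy n K μ S D Ds) : Dich n μ := by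
  have hfin := h.fin
  filter_upwards [cubic_limit hC hg h] with z hz
  obtain ⟨c, hc⟩ := hz
  intro hn
  -- the density does not tend to zero
  have h1 : ¬ Tendsto (fun r : ℝ => tT n μ r z) (𝓝[>] 0) (𝓝 0) := by
    intro hcon
    apply hn
    have h2 : Tendsto (fun r : ℝ => Real.exp (1 / 2) * tT n μ r z) (𝓝[>] 0) (𝓝 0) := by
      have := hcon.const_mul (Real.exp (1 / 2))
      rwa [mul_zero] at this
    refine squeeze_zero' ?_ ?_ h2
    · filter_upwards [self_mem_nhdsWithin] with r hr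
      exact mul_nonneg (pow_nonneg (inv_nonneg.2 (le_of_lt hr)) n) measureReal_nonneg
    · filter_upwards [self_mem_nhdsWithin] with r hr
      have h3 := Dic_lower n μ (r := r) hr z
      have h4 := mul_le_mul_of_nonneg_left h3 (Real.exp_pos (1 / 2)).le
      have h5 : Real.exp (1 / 2) * (Real.exp (-(1 / 2)) * (r⁻¹ ^ n * μ.real (closedBall z r))) =
          r⁻¹ ^ n * μ.real (closedBall z r) := by
        rw [← mul_assoc, ← Real.exp_add, add_neg_cancel, Real.exp_zero, one_mul]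
      rwa [h5] at h4
  obtain ⟨a, ha, hev⟩ := ivt_limit (f := fun r => tT n μ r z) (tT_continuous_scale n μ z)
    (fun r _ => integral_nonneg fun _ => ga_nonneg _ _) hc h1
  obtain ⟨C₁, hC₁, hth⟩ := th_growth d n (b := 1 / 4) (by norm_num) C hC
  -- the radius
  obtain ⟨M, hM1, hM⟩ : ∃ M : ℝ, 1 ≤ M ∧ Real.exp (-(M ^ 2 / 4)) * C₁ ≤ a / 2 := by
    have h2 : Tendsto (fun M : ℝ => Real.exp (-(M ^ 2 / 4)) * C₁) atTop (𝓝 0) := by
      have h3 : Tendsto (fun M : ℝ => M ^ 2 / 4) atTop atTop :=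
        (tendsto_pow_atTop two_ne_zero).atTop_div_const (by norm_num)
      have h4 := (Real.tendsto_exp_neg_atTop_nhds_zero.comp h3).mul_const C₁
      rw [zero_mul] at h4
      exact h4
    have h3 := (h2.eventually (gt_mem_nhds (half_pos ha))).and (eventually_ge_atTop (1 : ℝ))
    obtain ⟨M, h4, h5⟩ := h3.exists
    exact ⟨M, h5, h4.le⟩
  have hM0 : 0 < M := by linarith
  have hMn : 0 < M ^ n := pow_pos hM0 n
  refine ⟨a / 2 / M ^ n, div_pos (half_pos ha) hMn, ?_⟩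
  have h2 : Tendsto (fun ρ : ℝ => ρ / M) (𝓝[>] 0) (𝓝[>] 0) := by
    refine tendsto_nhdsWithin_iff.2 ⟨?_, ?_⟩
    · have h3 : Tendsto (fun ρ : ℝ => ρ / M) (𝓝 0) (𝓝 (0 / M)) :=
        tendsto_id.div_const M
      rw [zero_div] at h3
      exact h3.mono_left nhdsWithin_le_nhds
    · filter_upwards [self_mem_nhdsWithin] with ρ hρ
      exact div_pos hρ hM0
  filter_upwards [h2.eventually hev, self_mem_nhdsWithin] with ρ h3 hρ
  have hρ0 : 0 < ρ := hρ
  have hr : 0 < ρ / M := div_pos hρ0 hM0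
  have h4 := Dic_upper n μ hr hM0 z
  have h5 := hth _ (hg.blow 0 hr) ((ρ / M)⁻¹ • z)
  have h6 : Real.exp (-(M ^ 2 / 4)) * th (blow n 0 (ρ / M) μ) (1 / 4) ((ρ / M)⁻¹ • z) ≤ a / 2 :=
    (mul_le_mul_of_nonneg_left h5 (Real.exp_pos _).le).trans hM
  have h7 : M * (ρ / M) = ρ := by field_simp
  rw [h7] at h4
  have h8 : (ρ / M)⁻¹ ^ n = M ^ n * ρ⁻¹ ^ n := by
    rw [inv_div, div_eq_mul_inv, mul_pow]
  rw [h8] at h4
  rw [div_le_iff₀ hMn]
  have h9 : a ≤ tT n μ (ρ / M) z := h3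
  have h10 : M ^ n * ρ⁻¹ ^ n * μ.real (closedBall z ρ) =
      ρ⁻¹ ^ n * μ.real (closedBall z ρ) * M ^ n := by ring
  linarith

end Pool.Agent.H1.LD
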