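import Pool.Agent.H1.LD.EnD
import Pool.Agent.H1.LD.Dic

/-!
Embedding R^d in R^m by zero padding (d ≤ m).  pad is linear and isometric: ‖pad x‖ = ‖x‖, ⟪pad x, pad y⟫ = ⟪x,y⟫; μ' = μ.map pad.
pad_growth: closedBall y r meets the range in a set contained in the pull back of closedBall: if some pad x0 lies in it then it is contained in closedBall (pad x0) (2r): constant C₀ 2^n.
pad_energy: ⟪e, pad x - pad y⟫ = ⟪P e, x - y⟫ with ‖P e‖ ≤ ‖e‖ (P = restriction to the first coordinates), kr n ε (pad z) = kr n ε z; change of variables.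
pad_dich: μ'.real (closedBall (pad z) r) = μ.real (closedBall z r); ae transfer (ae_of_ae_map).
-/

set_option autoImplicit false

open MeasureTheory Filter Topology Metric Set
open scoped RealInnerProductSpace ENNReal

namespace Pool.Agent.H1.LD

open Pool.Agent.RZ

variable {d : ℕ}

/-- zero padding -/
noncomputable def pad (m : ℕ) (x : X d) : X m :=
  (WithLp.equiv 2 (Fin m → ℝ)).symm fun i => if h : (i : ℕ) < d then x ⟨i, h⟩ else 0

theorem pad_apply {m : ℕ} (x : X d) (i : Fin m) :
    pad m x i = if h : (i : ℕ) < d then x ⟨i, h⟩ else 0 := rfl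

theorem pad_sub {m : ℕ} (x y : X d) : pad m x - pad m y = pad m (x - y) := by
  ext i
  rw [PiLp.sub_apply, pad_apply, pad_apply, pad_apply]
  split_ifs with h
  · rfl
  · rw [sub_zero]

/-- restriction to the first coordinates -/
noncomputable def pad_res {m : ℕ} (hm : d ≤ m) (e : X m) : X d :=
  (WithLp.equiv 2 (Fin d → ℝ)).symm fun i => e (Fin.castLE hm i)

theorem pad_res_apply {m : ℕ} (hm : d ≤ m) (e : X m) (i : Fin d) :
    pad_res hm e i = e (Fin.castLE hm i) := rfl

theorem pad_res_pad {m : ℕ} (hm : d ≤ m) (x : X d) : pad_res hm (pad m x) = x := by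
  ext i
  rw [pad_res_apply, pad_apply, dif_pos (by rw [Fin.val_castLE]; exact i.2)]
  rfl

theorem pad_inner_res {m : ℕ} (hm : d ≤ m) (e : X m) (x : X d) :
    ⟪e, pad m x⟫ = ⟪pad_res hm e, x⟫ := by
  rw [PiLp.inner_apply, PiLp.inner_apply]
  symm
  apply Fintype.sum_of_injective (Fin.castLE hm) (Fin.castLE_injective hm)
  · intro i hi
    have h : ¬ (i : ℕ) < d := by
      intro h
      exact hi ⟨⟨i, h⟩, rfl⟩
    rw [pad_apply, dif_neg h, inner_zero_right]
  · intro i
    rw [pad_res_apply, pad_apply, dif_pos (by rw [Fin.val_castLE]; exact i.2)]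
    rfl

theorem pad_norm {m : ℕ} (hm : d ≤ m) (x : X d) : ‖pad m x‖ = ‖x‖ := by
  have h := pad_inner_res hm (pad m x) x
  rw [pad_res_pad, real_inner_self_eq_norm_sq, real_inner_self_eq_norm_sq] at h
  exact (sq_eq_sq₀ (norm_nonneg _) (norm_nonneg _)).mp h

theorem pad_continuous (m : ℕ) : Continuous (pad m : X d → X m) := by
  refine (PiLp.continuous_toLp 2 _).comp (continuous_pi fun i => ?_)
  by_cases h : (i : ℕ) < d
  · simp only [dif_pos h]
    fun_prop
  · simp only [dif_neg h]
    exact continuous_const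

theorem pad_isometry {m : ℕ} (hm : d ≤ m) : Isometry (pad m : X d → X m) := by
  refine Isometry.of_dist_eq fun x y => ?_
  rw [dist_eq_norm, dist_eq_norm, pad_sub, pad_norm hm]

theorem pad_emb {m : ℕ} (hm : d ≤ m) : MeasurableEmbedding (pad m : X d → X m) :=
  (pad_isometry hm).isClosedEmbedding.measurableEmbedding

theorem pad_inner {m : ℕ} (hm : d ≤ m) (e : X m) : ∃ e' : X d, ‖e'‖ ≤ ‖e‖ ∧
    ∀ x : X d, ⟪e, pad m x⟫ = ⟪e', x⟫ := by
  refine ⟨pad_res hm e, ?_, pad_inner_res hm e⟩
  have h1 := pad_inner_res hm e (pad_res hm e)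
  rw [real_inner_self_eq_norm_sq] at h1
  have h2 := real_inner_le_norm e (pad m (pad_res hm e))
  rw [pad_norm hm, h1] at h2
  rcases eq_or_lt_of_le (norm_nonneg (pad_res hm e)) with h3 | h3
  · rw [← h3]
    exact norm_nonneg _
  · rw [sq] at h2
    exact le_of_mul_le_mul_right h2 h3

theorem pad_growth {m n : ℕ} (hm : d ≤ m) {μ : Measure (X d)} {C₀ : ℝ} (hC₀ : 0 ≤ C₀)
    (hg : Gr n C₀ μ) : Gr n (C₀ * 2 ^ n) (μ.map (pad m)) := by
  intro y r hr
  rw [(pad_emb hm).map_apply]
  rcases Set.eq_empty_or_nonempty (pad m ⁻¹' closedBall y r : Set (X d)) with h0 | ⟨x0, hx0⟩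
  · rw [h0, measure_empty]
    exact zero_le
  · have h1 : (pad m ⁻¹' closedBall y r : Set (X d)) ⊆ closedBall x0 (2 * r) := by
      intro x hx
      rw [mem_closedBall, ← (pad_isometry hm).dist_eq]
      have h2 := mem_closedBall.mp hx
      have h3 := mem_closedBall.mp hx0
      have h4 := dist_triangle_right (pad m x) (pad m x0) y
      linarith
    refine (measure_mono h1).trans ((hg x0 (2 * r) (by linarith)).trans (le_of_eq ?_))
    congr 1
    rw [mul_pow]
    ring

theorem pad_energy {m n : ℕ} (hm : d ≤ m) {μ : Measure (X d)} [IsFiniteMeasure μ]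
    (hE : En n μ) : En n (μ.map (pad m)) := by
  obtain ⟨B, hB⟩ := hE
  refine ⟨B, fun ε hε e he => ?_⟩
  obtain ⟨e', he', h1⟩ := pad_inner hm e
  have h2 := hB ε hε e' (he'.trans he)
  rw [(pad_emb hm).integral_map]
  simp_rw [(pad_emb hm).integral_map]
  have h3 : ∀ x y : X d, ⟪e, pad m x - pad m y⟫ * kr n ε (pad m x - pad m y)
      = ⟪e', x - y⟫ * kr n ε (x - y) := by
    intro x y
    rw [pad_sub, h1]
    unfold kr
    rw [pad_norm hm]
  simp_rw [h3]
  exact h2

theorem pad_dich {m n : ℕ} (hm : d ≤ m) {μ : Measure (X d)} [IsFiniteMeasure μ]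
    (h : Dich n (μ.map (pad m))) : Dich n μ := by
  unfold Dich at h ⊢
  rw [(pad_emb hm).ae_map_iff] at h
  have h1 : ∀ (z : X d) (r : ℝ), (μ.map (pad m)).real (closedBall (pad m z) r)
      = μ.real (closedBall z r) := by
    intro z r
    rw [measureReal_def, measureReal_def, (pad_emb hm).map_apply,
      (pad_isometry hm).preimage_closedBall]
  simp_rw [h1] at h
  exact h

end Pool.Agent.H1.LD
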