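import Pool.Agent.H1.LD.Qd

/-!
Kz_scale: vector valued change of variables in blow 3 0 t μ (as in RZ.Bl1 integral_blow; Bl1_hom is a measurable embedding): x' = t⁻¹ • x; ‖x'-z'‖⁻¹^4 = t^4 ‖x-z‖⁻¹^4, ⟪x'-z',x'-Y'⟫ = t⁻² ⟪x-z,x-Y⟫, t²β, ga (t²β)(x'-Y') = ga β (x-Y), x'-z' = t⁻¹•(x-z), and the factor t⁻¹^3: total t^{4-2+2-1-3} = 1.
Qz_scale: 2/s² = t² * (2/(t s)²); Y = t • Y' (Measure.addHaar / lintegral_comp_smul: ∫⁻ f(t⁻¹•Y) dY = t^d ∫⁻ f).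
-/

set_option autoImplicit false

open MeasureTheory Filter Topology Metric Set
open scoped RealInnerProductSpace ENNReal

namespace Pool.Agent.H1.LD

open Pool.Agent.RZ

variable {d : ℕ}

private theorem QdA_integral_blow (n : ℕ) (x : X d) {r : ℝ} (hr : 0 < r) (ν : Measure (X d))
    (f : X d → X d) :
    ∫ z, f z ∂(blow n x r ν) = r⁻¹ ^ n • ∫ y, f (r⁻¹ • (y - x)) ∂ν := by
  unfold blow
  rw [integral_smul_measure, ENNReal.toReal_ofReal (by positivity)]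
  congr 1
  have h := (Bl1_hom x hr).measurableEmbedding.integral_map (μ := ν) f
  rw [Bl1_hom_apply x hr] at h
  exact h

private theorem QdA_ga {t : ℝ} (ht : 0 < t) (β : ℝ) (v : X d) :
    ga (t ^ 2 * β) (t⁻¹ • v) = ga β v := by
  unfold ga
  rw [norm_smul, Real.norm_of_nonneg (inv_nonneg.2 ht.le)]
  congr 2
  field_simp

theorem Kz_scale (μ : Measure (X d)) {t : ℝ} (ht : 0 < t) (z : X d) {β : ℝ} (Y : X d) :
    Kz (blow 3 0 t μ) (t⁻¹ • z) (t ^ 2 * β) (t⁻¹ • Y) = Kz μ z β Y := by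
  unfold Kz
  rw [QdA_integral_blow 3 0 ht, ← integral_smul]
  congr 1
  funext x
  have h1 : t⁻¹ • (x - 0) - t⁻¹ • z = t⁻¹ • (x - z) := by
    rw [sub_zero, ← smul_sub]
  have h2 : t⁻¹ • (x - 0) - t⁻¹ • Y = t⁻¹ • (x - Y) := by
    rw [sub_zero, ← smul_sub]
  rw [h1, h2, QdA_ga ht, norm_smul, Real.norm_of_nonneg (inv_nonneg.2 ht.le), inner_smul_left,
    inner_smul_right, smul_smul, smul_smul]
  congr 1
  simp only [conj_trivial]
  rw [mul_inv, inv_inv]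
  have ht' : t ≠ 0 := ht.ne'
  field_simp

theorem Qz_scale (μ : Measure (X d)) {t : ℝ} (ht : 0 < t) (z : X d) {s : ℝ} (hs : 0 < s) :
    Qz (blow 3 0 t μ) (t⁻¹ • z) s = Qz μ z (t * s) := by
  unfold Qz
  have h1 : (2 : ℝ) / s ^ 2 = t ^ 2 * (2 / (t * s) ^ 2) := by
    field_simp
  have h2 : ∀ Y : X d, ‖Kz (blow 3 0 t μ) (t⁻¹ • z) (2 / s ^ 2) Y‖ₑ ^ 2
      = ‖Kz μ z (2 / (t * s) ^ 2) (t • Y)‖ₑ ^ 2 := by
    intro Y
    rw [h1]
    have := Kz_scale μ ht z (β := 2 / (t * s) ^ 2) (t • Y)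
    rw [smul_smul, inv_mul_cancel₀ ht.ne', one_smul] at this
    rw [this]
  simp_rw [h2]
  have h3 : ∫⁻ Y : X d, ‖Kz μ z (2 / (t * s) ^ 2) (t • Y)‖ₑ ^ 2
      = ENNReal.ofReal ((t ^ d)⁻¹) * ∫⁻ Y : X d, ‖Kz μ z (2 / (t * s) ^ 2) Y‖ₑ ^ 2 := by
    have e := (Homeomorph.smulOfNeZero (α := X d) t ht.ne').measurableEmbedding.lintegral_map
      (μ := volume) (fun Y : X d => ‖Kz μ z (2 / (t * s) ^ 2) Y‖ₑ ^ 2)
    have e2 : (Homeomorph.smulOfNeZero (α := X d) t ht.ne' : X d → X d) = (t • ·) := rfl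
    rw [e2] at e
    rw [← e, Measure.map_addHaar_smul volume ht.ne', lintegral_smul_measure, smul_eq_mul]
    congr 2
    rw [finrank_euclideanSpace_fin, abs_of_nonneg (by positivity)]
  rw [h3, ← mul_assoc, ← ENNReal.ofReal_mul (by
    have : 0 ≤ gc d 4 := integral_nonneg fun w => (Real.exp_pos _).le
    positivity)]
  congr 2
  rw [mul_pow]
  rw [mul_inv, mul_inv, mul_inv]
  ring

end Pool.Agent.H1.LD
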