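import Pool.Agent.H1.LD.Qd

/-!
Qz_measurable: (z,t,Y,x) ↦ integrand is measurable jointly (it is continuous where z ≠ x, t ≠ 0; measurable as a composition of measurable functions), StronglyMeasurable.integral_prod_right, Measurable.lintegral_prod_right.
-/

set_option autoImplicit false

open MeasureTheory Filter Topology Metric Set
open scoped RealInnerProductSpace ENNReal

namespace Pool.Agent.H1.LD

open Pool.Agent.RZ

variable {d : ℕ}

private theorem QdB_integrand :
    Measurable fun q : ((X d × ℝ) × X d) × X d =>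
      (‖q.2 - q.1.1.1‖⁻¹ ^ 4 * (-(2 * (2 / q.1.1.2 ^ 2)) * ⟪q.2 - q.1.1.1, q.2 - q.1.2⟫) *
        ga (2 / q.1.1.2 ^ 2) (q.2 - q.1.2)) • (q.2 - q.1.1.1) := by
  unfold ga
  have hz : Measurable fun q : ((X d × ℝ) × X d) × X d => q.1.1.1 :=
    measurable_fst.comp (measurable_fst.comp measurable_fst)
  have ht : Measurable fun q : ((X d × ℝ) × X d) × X d => q.1.1.2 :=
    measurable_snd.comp (measurable_fst.comp measurable_fst)
  have hY : Measurable fun q : ((X d × ℝ) × X d) × X d => q.1.2 :=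
    measurable_snd.comp measurable_fst
  have hx : Measurable fun q : ((X d × ℝ) × X d) × X d => q.2 := measurable_snd
  have h1 : Measurable fun q : ((X d × ℝ) × X d) × X d => q.2 - q.1.1.1 := hx.sub hz
  have h2 : Measurable fun q : ((X d × ℝ) × X d) × X d => q.2 - q.1.2 := hx.sub hY
  have h3 : Measurable fun q : ((X d × ℝ) × X d) × X d => 2 / q.1.1.2 ^ 2 :=
    measurable_const.div (ht.pow_const 2)
  suffices h4 : Measurable fun q : ((X d × ℝ) × X d) × X d =>
      ‖q.2 - q.1.1.1‖⁻¹ ^ 4 * (-(2 * (2 / q.1.1.2 ^ 2)) * ⟪q.2 - q.1.1.1, q.2 - q.1.2⟫) *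
        Real.exp (-(2 / q.1.1.2 ^ 2 * ‖q.2 - q.1.2‖ ^ 2)) from h4.smul h1
  refine Measurable.mul (Measurable.mul ?_ ?_) ?_
  · exact (h1.norm.inv).pow_const 4
  · exact (measurable_const.mul h3).neg.mul (h1.inner h2)
  · exact Real.measurable_exp.comp (h3.mul (h2.norm.pow_const 2)).neg

theorem Qz_measurable (μ : Measure (X d)) [IsFiniteMeasure μ] :
    Measurable fun p : X d × ℝ => Qz μ p.1 p.2 := by
  unfold Qz Kz
  refine Measurable.mul ?_ ?_
  · exact ENNReal.measurable_ofReal.comp ((measurable_snd.pow_const d).mul_const _).inv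
  · refine Measurable.lintegral_prod_right' (f := fun q : (X d × ℝ) × X d =>
      ‖∫ x, (‖x - q.1.1‖⁻¹ ^ 4 * (-(2 * (2 / q.1.2 ^ 2)) * ⟪x - q.1.1, x - q.2⟫) *
        ga (2 / q.1.2 ^ 2) (x - q.2)) • (x - q.1.1) ∂μ‖ₑ ^ 2) ?_
    exact ((QdB_integrand.stronglyMeasurable.integral_prod_right').measurable.enorm).pow_const 2

end Pool.Agent.H1.LD
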