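import Pool.Agent.H1.LD.Qd

/-!
J_le_Q.  β = 2/s² in [8,32], b' = 4β/(β-4) in [32/7, 8], so βb'/(β+b') = 4.  p = y - z, u = x - z.  Put q(X) = ((β+b')X - b'p)/β and
 m(X) = (1/gc(β+b')) (‖q(X)‖² - (d+2)σ²) ga b' (X-p) • q(X),   σ² = (β+b')/(2β²).
Then for every u:  ∫ ga β (u-X) m(X) dX = ‖u‖² ga 4 (u-p) • u   (ga_square with b₁=β, b₂=b': X = (βu+b'p)/(β+b') + w, q(X) = u + ((β+b')/β) w; ga_third after rescaling w, or ga_third applied with e and w' = ((β+b')/β)w;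
 also ∫ ga (β+b') w ⟪u + κw, e⟫ = gc ⟪u,e⟫).  Euler operator E_u f = ⟪u,∇f⟫ (differentiate under the integral, or verify the identity directly by moments):
 ∫ (-2β⟪u,u-X⟫) ga β (u-X) m(X) dX = E_u[‖u‖²ga 4 (u-p) • u] = (3 - 8⟪u,u-p⟫) ‖u‖² ga 4 (u-p) • u.
Hence for u ≠ 0: (3-8⟪u,u-p⟫) ga 4 (u-p) = ‖u‖⁻⁴ ⟪u, ∫ (-2β⟪u,u-X⟫) ga β (u-X) m(X) dX⟫.  Integrate dμ(x) (points have measure 0: Gr.singleton; Fubini: the integrand is ≤ C‖u‖⁻²|u-X| ga β (u-X) ‖m(X)‖, ∫‖x-z‖⁻² dμ < ∞ because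
 n = 3 > 2 growth (Gr.near_lintegral and finiteness)):
 Jf 3 μ 4 z y = ∫ ⟪m(X), Kz μ z β (z+X)⟫ dX.   Cauchy-Schwarz: Jf² ≤ (∫‖m‖²)(∫‖Kz‖²) = (∫‖m‖²) s^d gc d 4 * Qz, and ∫‖m‖² ≤ C(1+‖p‖)^6 uniformly for β in [8,32].
 If Qz = ⊤ the claim is trivial (C > 0).
-/

set_option autoImplicit false

open MeasureTheory Filter Topology Metric Set
open scoped RealInnerProductSpace ENNReal

namespace Pool.Agent.H1.LD

open Pool.Agent.RZ

variable {d : ℕ}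

private noncomputable def Qj_b (β : ℝ) : ℝ := 4 * β / (β - 4)

private noncomputable def Qj_q (β : ℝ) (p Y : X d) : X d :=
  β⁻¹ • ((β + Qj_b β) • Y - Qj_b β • p)

private noncomputable def Qj_s (β : ℝ) : ℝ := (β + Qj_b β) / (2 * β ^ 2)

private noncomputable def Qj_f (β : ℝ) (p Y : X d) : ℝ :=
  (gc d (β + Qj_b β))⁻¹ * (‖Qj_q β p Y‖ ^ 2 - (d + 2) * Qj_s β)

private noncomputable def Qj_m (β : ℝ) (p Y : X d) : X d :=
  (Qj_f β p Y * ga (Qj_b β) (Y - p)) • Qj_q β p Y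

private theorem Qj_b_ge {β : ℝ} (h : 8 ≤ β) : 4 ≤ Qj_b β := by
  unfold Qj_b
  rw [le_div_iff₀ (by linarith)]
  linarith

private theorem Qj_b_le {β : ℝ} (h : 8 ≤ β) : Qj_b β ≤ 8 := by
  unfold Qj_b
  rw [div_le_iff₀ (by linarith)]
  linarith

private theorem Qj_b_eq {β : ℝ} (h : 8 ≤ β) : β * Qj_b β / (β + Qj_b β) = 4 := by
  have h1 : Qj_b β * (β - 4) = 4 * β := by
    unfold Qj_b
    rw [div_mul_cancel₀]
    linarith
  have h2 := Qj_b_ge h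
  rw [div_eq_iff (by linarith)]
  linarith

private theorem Qj_int {b : ℝ} (hb : 0 < b) (m : ℕ) (K : ℝ) (f : X d → ℝ) (hf : Continuous f)
    (h : ∀ w, |f w| ≤ K * (1 + ‖w‖) ^ m) : Integrable (fun w : X d => ga b w * f w) := by
  refine Integrable.mono' ((ga_integrable (d := d) hb m).const_mul K) ?_ ?_
  · exact ((ga_continuous b).mul hf).aestronglyMeasurable
  · refine Eventually.of_forall fun w => ?_
    rw [Real.norm_eq_abs, abs_mul, abs_of_pos (ga_pos b w)]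
    calc ga b w * |f w| ≤ ga b w * (K * (1 + ‖w‖) ^ m) :=
          mul_le_mul_of_nonneg_left (h w) (ga_nonneg b w)
      _ = K * ((1 + ‖w‖) ^ m * ga b w) := by ring

private theorem Qj_add_le (c w : X d) : ‖c + w‖ ≤ (1 + ‖c‖) * (1 + ‖w‖) := by
  have h1 := norm_add_le c w
  nlinarith [norm_nonneg c, norm_nonneg w]

/-- the moment computation for a Gaussian of parameter `b` -/
private theorem Qj_gauss {b κ : ℝ} (hb : 0 < b) (hκ : 0 < κ) (v u : X d) :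
    ∫ w : X d, ga b w * ((‖v + κ • w‖ ^ 2 - (d + 2) * (κ ^ 2 / (2 * b))) * ⟪v + κ • w, u⟫) =
      gc d b * (‖v‖ ^ 2 * ⟪v, u⟫) := by
  set v' : X d := κ⁻¹ • v with hv'
  have hv : v = κ • v' := by rw [hv', smul_smul, mul_inv_cancel₀ hκ.ne', one_smul]
  have hi : ∀ w : X d, v + κ • w = κ • (v' + w) := by
    intro w; rw [smul_add, ← hv]
  have h3 := ga_third (d := d) hb v' u
  have h0 := ga_odd (d := d) (b := b) u
  have e : ∀ w : X d, ga b w * ((‖v + κ • w‖ ^ 2 - (d + 2) * (κ ^ 2 / (2 * b))) *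
      ⟪v + κ • w, u⟫) = κ ^ 3 * (ga b w * (⟪v' + w, u⟫ * ‖v' + w‖ ^ 2))
        - ((d + 2) * (κ ^ 2 / (2 * b)) * κ) * (ga b w * ⟪v', u⟫ + ga b w * ⟪w, u⟫) := by
    intro w
    rw [hi w, norm_smul, inner_smul_left, inner_add_left, Real.norm_eq_abs, abs_of_pos hκ]
    simp only [conj_trivial]
    ring
  have i1 : Integrable (fun w : X d => ga b w * (⟪v' + w, u⟫ * ‖v' + w‖ ^ 2)) := by
    refine Qj_int hb 3 ((1 + ‖v'‖) ^ 3 * ‖u‖) _ (by fun_prop) fun w => ?_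
    rw [abs_mul, abs_of_nonneg (by positivity : (0 : ℝ) ≤ ‖v' + w‖ ^ 2)]
    have h1 := abs_real_inner_le_norm (v' + w) u
    have h2 := Qj_add_le v' w
    calc |⟪v' + w, u⟫| * ‖v' + w‖ ^ 2 ≤ (‖v' + w‖ * ‖u‖) * ‖v' + w‖ ^ 2 :=
          mul_le_mul_of_nonneg_right h1 (by positivity)
      _ = ‖v' + w‖ ^ 3 * ‖u‖ := by ring
      _ ≤ ((1 + ‖v'‖) * (1 + ‖w‖)) ^ 3 * ‖u‖ :=
          mul_le_mul_of_nonneg_right (pow_le_pow_left₀ (norm_nonneg _) h2 3) (norm_nonneg _)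
      _ = (1 + ‖v'‖) ^ 3 * ‖u‖ * (1 + ‖w‖) ^ 3 := by ring
  have i2 : Integrable (fun w : X d => ga b w * ⟪v', u⟫) := by
    refine Qj_int hb 0 |⟪v', u⟫| _ continuous_const fun w => ?_
    simp
  have i3 : Integrable (fun w : X d => ga b w * ⟪w, u⟫) := by
    refine Qj_int hb 1 ‖u‖ _ (by fun_prop) fun w => ?_
    have h1 := abs_real_inner_le_norm w u
    calc |⟪w, u⟫| ≤ ‖w‖ * ‖u‖ := h1
      _ ≤ ‖u‖ * (1 + ‖w‖) ^ 1 := by nlinarith [norm_nonneg u, norm_nonneg w]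
  have i4 : Integrable (fun w : X d => ga b w * ⟪v', u⟫ + ga b w * ⟪w, u⟫) := i2.add i3
  rw [integral_congr_ae (Eventually.of_forall e), integral_sub (i1.const_mul _)
    (i4.const_mul _), integral_const_mul, integral_const_mul, integral_add i2 i3, h3, h0,
    integral_mul_const]
  have hg : ∫ w : X d, ga b w = gc d b := rfl
  rw [hg]
  have e1 : ‖v‖ ^ 2 = κ ^ 2 * ‖v'‖ ^ 2 := by
    rw [hv, norm_smul, mul_pow, Real.norm_eq_abs, sq_abs]
  have e2 : ⟪v, u⟫ = κ * ⟪v', u⟫ := by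
    rw [hv, inner_smul_left]; simp
  rw [e1, e2]
  field_simp
  ring

private theorem Qj_mean {β : ℝ} (h : 8 ≤ β) (v p w : X d) :
    Qj_q β p ((β + Qj_b β)⁻¹ • (β • v + Qj_b β • p) + w) =
      v + (β⁻¹ * (β + Qj_b β)) • w := by
  have h1 := Qj_b_ge h
  have h2 : β + Qj_b β ≠ 0 := by linarith
  have h3 : β ≠ 0 := by linarith
  unfold Qj_q
  rw [smul_add (β + Qj_b β), smul_smul, mul_inv_cancel₀ h2, one_smul]
  have : β • v + Qj_b β • p + (β + Qj_b β) • w - Qj_b β • p = β • v + (β + Qj_b β) • w := by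
    abel
  rw [this, smul_add, smul_smul, smul_smul, inv_mul_cancel₀ h3, one_smul]

private theorem Qj_mom {β : ℝ} (h : 8 ≤ β) (v u p : X d) :
    ∫ Y : X d, ga β (v - Y) * ⟪u, Qj_m β p Y⟫ = ‖v‖ ^ 2 * ga 4 (v - p) * ⟪v, u⟫ := by
  have h1 := Qj_b_ge h
  have hβ : 0 < β := by linarith
  have hb : 0 < Qj_b β := by linarith
  have hs : 0 < β + Qj_b β := by linarith
  have e : ∀ Y : X d, ga β (v - Y) * ⟪u, Qj_m β p Y⟫ =
      (ga β (v - Y) * ga (Qj_b β) (Y - p)) • (Qj_f β p Y * ⟪Qj_q β p Y, u⟫) := by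
    intro Y
    unfold Qj_m
    rw [inner_smul_right, real_inner_comm, smul_eq_mul]
    ring
  rw [integral_congr_ae (Eventually.of_forall e),
    ga_square hβ hb v p (fun Y => Qj_f β p Y * ⟪Qj_q β p Y, u⟫), Qj_b_eq h]
  have hκ : 0 < β⁻¹ * (β + Qj_b β) := by positivity
  have hg := gc_pos (d := d) hs
  have e2 : ∀ w : X d, ga (β + Qj_b β) w •
      (Qj_f β p ((β + Qj_b β)⁻¹ • (β • v + Qj_b β • p) + w) *
        ⟪Qj_q β p ((β + Qj_b β)⁻¹ • (β • v + Qj_b β • p) + w), u⟫) =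
      (gc d (β + Qj_b β))⁻¹ * (ga (β + Qj_b β) w *
        ((‖v + (β⁻¹ * (β + Qj_b β)) • w‖ ^ 2 - (d + 2) *
          ((β⁻¹ * (β + Qj_b β)) ^ 2 / (2 * (β + Qj_b β)))) *
          ⟪v + (β⁻¹ * (β + Qj_b β)) • w, u⟫)) := by
    intro w
    have hσ : Qj_s β = (β⁻¹ * (β + Qj_b β)) ^ 2 / (2 * (β + Qj_b β)) := by
      unfold Qj_s
      field_simp
    unfold Qj_f
    rw [Qj_mean h, hσ, smul_eq_mul]
    ring
  rw [integral_congr_ae (Eventually.of_forall e2), integral_const_mul,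
    Qj_gauss hs hκ v u, smul_eq_mul]
  field_simp

/-- bound for the polynomial factor, centred at `p` -/
private theorem Qj_q_le {β : ℝ} (h : 8 ≤ β) (p w : X d) :
    ‖Qj_q β p (p + w)‖ ≤ 2 * ((1 + ‖p‖) * (1 + ‖w‖)) := by
  have h1 := Qj_b_ge h
  have h2 := Qj_b_le h
  have h3 : β ≠ 0 := by linarith
  have e : Qj_q β p (p + w) = p + (β⁻¹ * (β + Qj_b β)) • w := by
    unfold Qj_q
    have : (β + Qj_b β) • (p + w) - Qj_b β • p = β • p + (β + Qj_b β) • w := by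
      rw [smul_add, add_smul, add_smul]; abel
    rw [this, smul_add, smul_smul, smul_smul, inv_mul_cancel₀ h3, one_smul]
  have hκ : β⁻¹ * (β + Qj_b β) ≤ 2 := by
    rw [inv_mul_le_iff₀ (by linarith)]
    linarith
  have hκ0 : 0 ≤ β⁻¹ * (β + Qj_b β) := by positivity
  rw [e]
  have h4 := norm_add_le p ((β⁻¹ * (β + Qj_b β)) • w)
  rw [norm_smul, Real.norm_eq_abs, abs_of_nonneg hκ0] at h4
  have h5 : β⁻¹ * (β + Qj_b β) * ‖w‖ ≤ 2 * ‖w‖ := mul_le_mul_of_nonneg_right hκ (norm_nonneg w)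
  nlinarith [norm_nonneg p, norm_nonneg w]

private theorem Qj_s_le {β : ℝ} (h : 8 ≤ β) : Qj_s β ≤ 1 := by
  have h2 := Qj_b_le h
  unfold Qj_s
  rw [div_le_one (by positivity)]
  nlinarith

private theorem Qj_s_nonneg {β : ℝ} (h : 8 ≤ β) : 0 ≤ Qj_s β := by
  have h1 := Qj_b_ge h
  unfold Qj_s
  positivity

/-- constant of the bound of `m` -/
private noncomputable def Qj_K (d : ℕ) : ℝ := (gc d 40)⁻¹ * (4 + (d + 2)) * 2

private theorem Qj_K_pos (d : ℕ) : 0 < Qj_K d := by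
  have := gc_pos (d := d) (b := 40) (by norm_num)
  unfold Qj_K
  positivity

private theorem Qj_m_le {β : ℝ} (h : 8 ≤ β) (h' : β ≤ 32) (p w : X d) :
    ‖Qj_m β p (p + w)‖ ≤ Qj_K d * ((1 + ‖p‖) ^ 3 * ((1 + ‖w‖) ^ 3 * ga 4 w)) := by
  have h1 := Qj_b_ge h
  have h2 := Qj_b_le h
  have hq := Qj_q_le h p w
  have hs := Qj_s_le h
  have hs0 := Qj_s_nonneg h
  have hg40 := gc_pos (d := d) (b := 40) (by norm_num)
  have hg : gc d 40 ≤ gc d (β + Qj_b β) := by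
    unfold gc
    refine integral_mono ?_ ?_ fun w => ga_anti (by linarith) w
    · simpa using ga_integrable (d := d) (b := 40) (by norm_num) 0
    · simpa using ga_integrable (d := d) (b := β + Qj_b β) (by linarith) 0
  have hgi : (gc d (β + Qj_b β))⁻¹ ≤ (gc d 40)⁻¹ := inv_anti₀ hg40 hg
  have hgp : 0 < gc d (β + Qj_b β) := lt_of_lt_of_le hg40 hg
  set A : ℝ := (1 + ‖p‖) * (1 + ‖w‖) with hA
  have hA1 : 1 ≤ A := by
    rw [hA]; nlinarith [norm_nonneg p, norm_nonneg w, mul_nonneg (norm_nonneg p) (norm_nonneg w)]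
  have hf : |Qj_f β p (p + w)| ≤ (gc d 40)⁻¹ * ((4 + (d + 2)) * A ^ 2) := by
    unfold Qj_f
    rw [abs_mul, abs_of_pos (inv_pos.2 hgp)]
    refine mul_le_mul hgi ?_ (abs_nonneg _) (by positivity)
    have h3 : ‖Qj_q β p (p + w)‖ ^ 2 ≤ 4 * A ^ 2 := by
      calc ‖Qj_q β p (p + w)‖ ^ 2 ≤ (2 * A) ^ 2 := pow_le_pow_left₀ (norm_nonneg _) hq 2
        _ = 4 * A ^ 2 := by ring
    have h4 : ((d : ℝ) + 2) * Qj_s β ≤ (d + 2) * A ^ 2 := by
      refine mul_le_mul_of_nonneg_left ?_ (by positivity)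
      nlinarith
    have h5 : (0 : ℝ) ≤ (d + 2) * Qj_s β := by positivity
    rw [abs_le]
    constructor <;> nlinarith [sq_nonneg ‖Qj_q β p (p + w)‖]
  unfold Qj_m
  rw [norm_smul, Real.norm_eq_abs, abs_mul, abs_of_pos (ga_pos _ _), add_sub_cancel_left]
  have hga : ga (Qj_b β) w ≤ ga 4 w := ga_anti h1 w
  calc |Qj_f β p (p + w)| * ga (Qj_b β) w * ‖Qj_q β p (p + w)‖
      ≤ ((gc d 40)⁻¹ * ((4 + (d + 2)) * A ^ 2)) * ga 4 w * (2 * A) := by
        refine mul_le_mul (mul_le_mul hf hga (ga_nonneg _ _) (by positivity)) hq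
          (norm_nonneg _) ?_
        have := ga_nonneg 4 w
        positivity
    _ = Qj_K d * ((1 + ‖p‖) ^ 3 * ((1 + ‖w‖) ^ 3 * ga 4 w)) := by
        rw [hA]; unfold Qj_K; ring

private theorem Qj_q_cont (β : ℝ) (p : X d) : Continuous (Qj_q β p) := by
  unfold Qj_q; fun_prop

private theorem Qj_m_cont (β : ℝ) (p : X d) : Continuous (Qj_m β p) := by
  have h1 := Qj_q_cont β p
  unfold Qj_m Qj_f
  have h2 : Continuous fun Y : X d => ga (Qj_b β) (Y - p) :=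
    (ga_continuous _).comp (continuous_id.sub continuous_const)
  fun_prop

private theorem Qj_m_int {β : ℝ} (h : 8 ≤ β) (h' : β ≤ 32) (p : X d) :
    Integrable (fun Y : X d => Qj_m β p Y) := by
  have h1 : Integrable (fun w : X d => Qj_m β p (p + w)) := by
    refine Integrable.mono' (((ga_integrable (d := d) (b := 4) (by norm_num) 3).const_mul
      ((1 + ‖p‖) ^ 3)).const_mul (Qj_K d)) ?_ (Eventually.of_forall fun w => Qj_m_le h h' p w)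
    exact ((Qj_m_cont β p).comp (by fun_prop)).aestronglyMeasurable
  have h2 := h1.comp_add_left (-p)
  simpa only [add_neg_cancel_left] using h2

/-- the constant of the theorem -/
private noncomputable def Qj_I (d : ℕ) : ℝ := ∫ w : X d, (1 + ‖w‖) ^ 6 * ga 8 w

private theorem Qj_m_sq {β : ℝ} (h : 8 ≤ β) (h' : β ≤ 32) (p : X d) :
    ∫⁻ Y : X d, ‖Qj_m β p Y‖ₑ ^ 2 ≤
      ENNReal.ofReal (Qj_K d ^ 2 * Qj_I d * (1 + ‖p‖) ^ 6) := by
  have hI := ga_integrable (d := d) (b := 8) (by norm_num) 6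
  have hpt : ∀ w : X d, ‖Qj_m β p (p + w)‖ₑ ^ 2 ≤
      ENNReal.ofReal (Qj_K d ^ 2 * (1 + ‖p‖) ^ 6 * ((1 + ‖w‖) ^ 6 * ga 8 w)) := by
    intro w
    rw [← ofReal_norm, ← ENNReal.ofReal_pow (norm_nonneg _)]
    refine ENNReal.ofReal_le_ofReal ?_
    calc ‖Qj_m β p (p + w)‖ ^ 2
        ≤ (Qj_K d * ((1 + ‖p‖) ^ 3 * ((1 + ‖w‖) ^ 3 * ga 4 w))) ^ 2 :=
          pow_le_pow_left₀ (norm_nonneg _) (Qj_m_le h h' p w) 2
      _ = Qj_K d ^ 2 * (1 + ‖p‖) ^ 6 * ((1 + ‖w‖) ^ 6 * (ga 4 w * ga 4 w)) := by ring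
      _ = _ := by rw [ga_mul]; norm_num
  calc ∫⁻ Y : X d, ‖Qj_m β p Y‖ₑ ^ 2 = ∫⁻ w : X d, ‖Qj_m β p (p + w)‖ₑ ^ 2 :=
        (lintegral_add_left_eq_self (μ := (volume : Measure (X d)))
          (fun Y => ‖Qj_m β p Y‖ₑ ^ 2) p).symm
    _ ≤ ∫⁻ w : X d, ENNReal.ofReal (Qj_K d ^ 2 * (1 + ‖p‖) ^ 6 * ((1 + ‖w‖) ^ 6 * ga 8 w)) :=
        lintegral_mono hpt
    _ = ENNReal.ofReal (∫ w : X d, Qj_K d ^ 2 * (1 + ‖p‖) ^ 6 * ((1 + ‖w‖) ^ 6 * ga 8 w)) := by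
        rw [ofReal_integral_eq_lintegral_ofReal (hI.const_mul _)]
        refine Eventually.of_forall fun w => ?_
        have := ga_nonneg 8 w
        have := Qj_K_pos d
        simp only [Pi.zero_apply]
        positivity
    _ = _ := by
        rw [integral_const_mul]
        congr 1
        unfold Qj_I
        ring

/-- the Gaussian absorbs one power -/
private theorem Qj_one {β : ℝ} (h : 8 ≤ β) (v : X d) : ‖v‖ * ga β v ≤ 1 := by
  unfold ga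
  have h1 : β * ‖v‖ ^ 2 + 1 ≤ Real.exp (β * ‖v‖ ^ 2) := Real.add_one_le_exp _
  have h2 : ‖v‖ ≤ β * ‖v‖ ^ 2 + 1 := by nlinarith [sq_nonneg (‖v‖ - 1), sq_nonneg ‖v‖]
  rw [Real.exp_neg, ← div_eq_mul_inv, div_le_one (Real.exp_pos _)]
  exact h2.trans h1

/-- the kernel identity -/
private theorem Qj_ker {β : ℝ} (h : 8 ≤ β) (h' : β ≤ 32) (u p : X d) :
    ∫ Y : X d, (-(2 * β) * ⟪u, u - Y⟫) * ga β (u - Y) * ⟪u, Qj_m β p Y⟫ =
      (3 - 8 * ⟪u, u - p⟫) * ga 4 (u - p) * ‖u‖ ^ 4 := by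
  have hm := Qj_m_int h h' p
  have hmc := Qj_m_cont β p
  have hder : ∀ (Y : X d) (t : ℝ), HasDerivAt (fun t : ℝ => ga β (t • u - Y) * ⟪u, Qj_m β p Y⟫)
      ((-(2 * β) * ⟪u, t • u - Y⟫) * ga β (t • u - Y) * ⟪u, Qj_m β p Y⟫) t := by
    intro Y t
    have h1 : HasDerivAt (fun t : ℝ => t • u - Y) u t := by
      simpa using ((hasDerivAt_id t).smul_const u).sub_const Y
    have h2 : HasDerivAt (fun t : ℝ => ‖t • u - Y‖ ^ 2) (2 * ⟪t • u - Y, u⟫) t := h1.norm_sq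
    have h3 : HasDerivAt (fun t : ℝ => ga β (t • u - Y))
        (Real.exp (-(β * ‖t • u - Y‖ ^ 2)) * (-(β * (2 * ⟪t • u - Y, u⟫)))) t :=
      ((h2.const_mul β).neg).exp
    have h4 := h3.mul_const ⟪u, Qj_m β p Y⟫
    refine h4.congr_deriv ?_
    unfold ga
    rw [real_inner_comm u (t • u - Y)]
    ring
  have key := hasDerivAt_integral_of_dominated_loc_of_deriv_le (μ := (volume : Measure (X d)))
    (F := fun (t : ℝ) (Y : X d) => ga β (t • u - Y) * ⟪u, Qj_m β p Y⟫)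
    (F' := fun (t : ℝ) (Y : X d) => (-(2 * β) * ⟪u, t • u - Y⟫) * ga β (t • u - Y) *
      ⟪u, Qj_m β p Y⟫) (x₀ := (1 : ℝ)) (s := univ)
    (bound := fun Y : X d => (2 * β * ‖u‖) * (‖u‖ * ‖Qj_m β p Y‖)) univ_mem
    (Eventually.of_forall fun t => by
      have : Continuous fun Y : X d => ga β (t • u - Y) :=
        (ga_continuous _).comp (by fun_prop)
      exact Continuous.aestronglyMeasurable (by fun_prop))
    (by
      refine Integrable.mono' (hm.norm.const_mul ‖u‖) ?_ (Eventually.of_forall fun Y => ?_)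
      · have : Continuous fun Y : X d => ga β ((1 : ℝ) • u - Y) :=
          (ga_continuous _).comp (by fun_prop)
        exact Continuous.aestronglyMeasurable (by fun_prop)
      · rw [Real.norm_eq_abs, abs_mul, abs_of_pos (ga_pos _ _)]
        calc ga β ((1 : ℝ) • u - Y) * |⟪u, Qj_m β p Y⟫| ≤ 1 * (‖u‖ * ‖Qj_m β p Y‖) :=
              mul_le_mul (ga_le_one (by linarith) _) (abs_real_inner_le_norm _ _)
                (abs_nonneg _) zero_le_one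
          _ = ‖u‖ * ‖Qj_m β p Y‖ := one_mul _)
    (by
      have : Continuous fun Y : X d => ga β ((1 : ℝ) • u - Y) :=
        (ga_continuous _).comp (by fun_prop)
      exact Continuous.aestronglyMeasurable (by fun_prop))
    (Eventually.of_forall fun Y t _ => by
      rw [Real.norm_eq_abs, abs_mul, abs_mul, abs_mul, abs_of_pos (ga_pos _ _), abs_neg,
        abs_of_pos (by linarith : (0 : ℝ) < 2 * β)]
      refine mul_le_mul ?_ (abs_real_inner_le_norm _ _) (abs_nonneg _) (by positivity)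
      have h1 := abs_real_inner_le_norm u (t • u - Y)
      have h2 := Qj_one h (t • u - Y)
      calc 2 * β * |⟪u, t • u - Y⟫| * ga β (t • u - Y)
          ≤ 2 * β * (‖u‖ * ‖t • u - Y‖) * ga β (t • u - Y) := by
            refine mul_le_mul_of_nonneg_right ?_ (ga_nonneg _ _)
            exact mul_le_mul_of_nonneg_left h1 (by linarith)
        _ = 2 * β * ‖u‖ * (‖t • u - Y‖ * ga β (t • u - Y)) := by ring
        _ ≤ 2 * β * ‖u‖ * 1 := mul_le_mul_of_nonneg_left h2 (by positivity)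
        _ = 2 * β * ‖u‖ := mul_one _)
    ((hm.norm.const_mul ‖u‖).const_mul (2 * β * ‖u‖))
    (Eventually.of_forall fun Y t _ => hder Y t)
  have h1 := key.2
  simp only [one_smul] at h1
  have h2 : (fun t : ℝ => ∫ Y : X d, ga β (t • u - Y) * ⟪u, Qj_m β p Y⟫) =
      fun t : ℝ => (t ^ 3 * ‖u‖ ^ 4) * ga 4 (t • u - p) := by
    funext t
    rw [Qj_mom h (t • u) u p, norm_smul, inner_smul_left, real_inner_self_eq_norm_sq,
      Real.norm_eq_abs, mul_pow, sq_abs]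
    simp only [conj_trivial]
    ring
  rw [h2] at h1
  have h3 : HasDerivAt (fun t : ℝ => (t ^ 3 * ‖u‖ ^ 4) * ga 4 (t • u - p))
      ((3 * 1 ^ 2 * ‖u‖ ^ 4) * ga 4 ((1 : ℝ) • u - p) + (1 ^ 3 * ‖u‖ ^ 4) *
        (Real.exp (-(4 * ‖(1 : ℝ) • u - p‖ ^ 2)) * (-(4 * (2 * ⟪(1 : ℝ) • u - p, u⟫))))) 1 := by
    have h4 : HasDerivAt (fun t : ℝ => t • u - p) u 1 := by
      simpa using ((hasDerivAt_id (1 : ℝ)).smul_const u).sub_const p
    have h5 : HasDerivAt (fun t : ℝ => ‖t • u - p‖ ^ 2) (2 * ⟪(1 : ℝ) • u - p, u⟫) 1 :=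
      h4.norm_sq
    have h6 : HasDerivAt (fun t : ℝ => ga 4 (t • u - p))
        (Real.exp (-(4 * ‖(1 : ℝ) • u - p‖ ^ 2)) * (-(4 * (2 * ⟪(1 : ℝ) • u - p, u⟫)))) 1 :=
      ((h5.const_mul 4).neg).exp
    have h7 : HasDerivAt (fun t : ℝ => t ^ 3 * ‖u‖ ^ 4) (3 * 1 ^ 2 * ‖u‖ ^ 4) 1 := by
      simpa using (hasDerivAt_pow 3 (1 : ℝ)).mul_const (‖u‖ ^ 4)
    exact h7.mul h6
  rw [h1.unique h3]
  unfold ga
  rw [one_smul, real_inner_comm u (u - p)]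
  ring

/-- the weight `|x - z|^{-2}` -/
private noncomputable def Qj_r (z x : X d) : ℝ := ‖x - z‖ * ‖x - z‖⁻¹ ^ 3

private theorem Qj_r_nonneg (z x : X d) : 0 ≤ Qj_r z x := by
  unfold Qj_r; positivity

private theorem Qj_r_eq (z x : X d) : ‖x - z‖⁻¹ ^ 4 * ‖x - z‖ ^ 2 = Qj_r z x := by
  unfold Qj_r
  rcases eq_or_ne ‖x - z‖ 0 with h | h
  · rw [h]; norm_num
  · field_simp

private theorem Qj_r_meas (z : X d) : Measurable (Qj_r z) := by
  unfold Qj_r; fun_prop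

private theorem Qj_r_int {μ : Measure (X d)} [IsFiniteMeasure μ] {C₀ : ℝ} (hC : 0 ≤ C₀)
    (h : Gr 3 C₀ μ) (z : X d) : Integrable (Qj_r z) μ := by
  refine ⟨(Qj_r_meas z).aestronglyMeasurable, ?_⟩
  obtain ⟨A, hA, hn⟩ := Gr.near_lintegral (d := d) 3 (by norm_num)
  have h1 := hn C₀ hC μ h z 1 one_pos
  have e : ∀ x, ‖Qj_r z x‖ₑ = ENNReal.ofReal (Qj_r z x) := fun x =>
    Real.enorm_of_nonneg (Qj_r_nonneg z x)
  have hB : MeasurableSet (closedBall z (1 : ℝ)) := isClosed_closedBall.measurableSet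
  have h2 : ∫⁻ x in (closedBall z (1 : ℝ))ᶜ, ENNReal.ofReal (Qj_r z x) ∂μ ≤ μ univ := by
    calc ∫⁻ x in (closedBall z (1 : ℝ))ᶜ, ENNReal.ofReal (Qj_r z x) ∂μ
        ≤ ∫⁻ _ in (closedBall z (1 : ℝ))ᶜ, 1 ∂μ := by
          refine setLIntegral_mono' hB.compl fun x hx => ?_
          rw [mem_compl_iff, mem_closedBall, not_le, dist_eq_norm] at hx
          rw [← ENNReal.ofReal_one]
          refine ENNReal.ofReal_le_ofReal ?_
          unfold Qj_r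
          have h3 : ‖x - z‖⁻¹ ≤ 1 := inv_le_one_of_one_le₀ hx.le
          have h4 : ‖x - z‖ * ‖x - z‖⁻¹ = 1 := mul_inv_cancel₀ (by linarith)
          have h5 : 0 ≤ ‖x - z‖⁻¹ := by positivity
          calc ‖x - z‖ * ‖x - z‖⁻¹ ^ 3 = (‖x - z‖ * ‖x - z‖⁻¹) * ‖x - z‖⁻¹ ^ 2 := by ring
            _ = ‖x - z‖⁻¹ ^ 2 := by rw [h4, one_mul]
            _ ≤ 1 := pow_le_one₀ h5 h3
      _ = μ (closedBall z (1 : ℝ))ᶜ := by simp
      _ ≤ μ univ := measure_mono (subset_univ _)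
  unfold HasFiniteIntegral
  rw [lintegral_congr e, ← lintegral_add_compl _ hB]
  exact ENNReal.add_lt_top.2 ⟨h1.trans_lt ENNReal.ofReal_lt_top,
    h2.trans_lt (measure_lt_top μ univ)⟩

/-- the integrand of the kernel -/
private noncomputable def Qj_g (β : ℝ) (z Y x : X d) : ℝ :=
  ‖x - z‖⁻¹ ^ 4 * (-(2 * β) * ⟪x - z, x - (z + Y)⟫) * ga β (x - (z + Y))

private theorem Qj_g_le {β : ℝ} (h : 8 ≤ β) (z Y x : X d) :
    |Qj_g β z Y x| * ‖x - z‖ ≤ 2 * β * Qj_r z x := by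
  unfold Qj_g
  rw [abs_mul, abs_mul, abs_mul, abs_neg, abs_of_pos (by linarith : (0 : ℝ) < 2 * β),
    abs_of_pos (ga_pos _ _), abs_of_nonneg (by positivity : (0 : ℝ) ≤ ‖x - z‖⁻¹ ^ 4)]
  have h1 := abs_real_inner_le_norm (x - z) (x - (z + Y))
  have h2 := Qj_one h (x - (z + Y))
  have hg := ga_nonneg β (x - (z + Y))
  calc ‖x - z‖⁻¹ ^ 4 * (2 * β * |⟪x - z, x - (z + Y)⟫|) * ga β (x - (z + Y)) * ‖x - z‖
      ≤ ‖x - z‖⁻¹ ^ 4 * (2 * β * (‖x - z‖ * ‖x - (z + Y)‖)) * ga β (x - (z + Y)) * ‖x - z‖ := by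
        gcongr
    _ = 2 * β * (‖x - z‖⁻¹ ^ 4 * ‖x - z‖ ^ 2) * (‖x - (z + Y)‖ * ga β (x - (z + Y))) := by ring
    _ ≤ 2 * β * (‖x - z‖⁻¹ ^ 4 * ‖x - z‖ ^ 2) * 1 := by
        refine mul_le_mul_of_nonneg_left h2 ?_
        positivity
    _ = 2 * β * Qj_r z x := by rw [mul_one, Qj_r_eq]

private theorem Qj_g_meas (β : ℝ) (z : X d) :
    Measurable fun q : X d × X d => Qj_g β z q.1 q.2 := by
  unfold Qj_g ga
  fun_prop

private theorem Qj_Kz_int {μ : Measure (X d)} [IsFiniteMeasure μ] {C₀ : ℝ} (hC : 0 ≤ C₀)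
    (hG : Gr 3 C₀ μ) {β : ℝ} (h : 8 ≤ β) (z Y : X d) :
    Integrable (fun x => Qj_g β z Y x • (x - z)) μ := by
  refine Integrable.mono' ((Qj_r_int hC hG z).const_mul (2 * β)) ?_
    (Eventually.of_forall fun x => ?_)
  · have h1 : Measurable fun x : X d => Qj_g β z Y x := by
      unfold Qj_g ga
      fun_prop
    have h2 : Measurable fun x : X d => x - z := by fun_prop
    exact (h1.smul h2).aestronglyMeasurable
  · rw [norm_smul, Real.norm_eq_abs]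
    exact Qj_g_le h z Y x

private theorem Qj_Kz_inner {μ : Measure (X d)} [IsFiniteMeasure μ] {C₀ : ℝ} (hC : 0 ≤ C₀)
    (hG : Gr 3 C₀ μ) {β : ℝ} (h : 8 ≤ β) (z Y a : X d) :
    ⟪a, Kz μ z β (z + Y)⟫ = ∫ x, Qj_g β z Y x * ⟪x - z, a⟫ ∂μ := by
  have h1 : Kz μ z β (z + Y) = ∫ x, Qj_g β z Y x • (x - z) ∂μ := rfl
  rw [h1, ← integral_inner (Qj_Kz_int hC hG h z Y) a]
  refine integral_congr_ae (Eventually.of_forall fun x => ?_)
  simp only [inner_smul_right]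
  rw [real_inner_comm]

private theorem Qj_Kz_meas (μ : Measure (X d)) [IsFiniteMeasure μ] (β : ℝ) (z : X d) :
    StronglyMeasurable fun Y : X d => Kz μ z β (z + Y) := by
  have h2 : Measurable fun q : X d × X d => q.2 - z := by fun_prop
  have h1 : Measurable fun q : X d × X d => Qj_g β z q.1 q.2 • (q.2 - z) :=
    (Qj_g_meas β z).smul h2
  exact (h1.stronglyMeasurable).integral_prod_right' (ν := μ)

/-- the representation of the defect -/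
private theorem Qj_rep {μ : Measure (X d)} [IsFiniteMeasure μ] {C₀ : ℝ} (hC : 0 ≤ C₀)
    (hG : Gr 3 C₀ μ) {β : ℝ} (h : 8 ≤ β) (h' : β ≤ 32) (z y : X d) :
    Jf 3 μ 4 z y = ∫ Y : X d, ⟪Qj_m β (y - z) Y, Kz μ z β (z + Y)⟫ := by
  have hmi := Qj_m_int h h' (y - z)
  have hmc := Qj_m_cont β (y - z)
  have hint : Integrable (Function.uncurry fun (x Y : X d) =>
      Qj_g β z Y x * ⟪x - z, Qj_m β (y - z) Y⟫) (μ.prod volume) := by
    refine Integrable.mono' (((Qj_r_int hC hG z).const_mul (2 * β)).mul_prod hmi.norm) ?_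
      (Eventually.of_forall fun q => ?_)
    · have h1 : Measurable fun q : X d × X d => Qj_g β z q.2 q.1 := by
        unfold Qj_g ga
        fun_prop
      have h2 : Continuous fun q : X d × X d => ⟪q.1 - z, Qj_m β (y - z) q.2⟫ := by
        fun_prop
      exact (h1.mul h2.measurable).aestronglyMeasurable
    · obtain ⟨x, Y⟩ := q
      simp only [Function.uncurry_apply_pair]
      rw [Real.norm_eq_abs, abs_mul]
      have h1 := Qj_g_le h z Y x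
      have h2 := abs_real_inner_le_norm (x - z) (Qj_m β (y - z) Y)
      calc |Qj_g β z Y x| * |⟪x - z, Qj_m β (y - z) Y⟫|
          ≤ |Qj_g β z Y x| * (‖x - z‖ * ‖Qj_m β (y - z) Y‖) :=
            mul_le_mul_of_nonneg_left h2 (abs_nonneg _)
        _ = (|Qj_g β z Y x| * ‖x - z‖) * ‖Qj_m β (y - z) Y‖ := by ring
        _ ≤ 2 * β * Qj_r z x * ‖Qj_m β (y - z) Y‖ :=
            mul_le_mul_of_nonneg_right h1 (norm_nonneg _)
  have hsw := integral_integral_swap hint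
  have e1 : ∀ᵐ x ∂μ, ((3 : ℕ) - 2 * 4 * ⟪x - z, x - y⟫) * ga 4 (x - y) =
      ∫ Y : X d, Qj_g β z Y x * ⟪x - z, Qj_m β (y - z) Y⟫ := by
    have h0 : μ {z} = 0 := hG.singleton (by norm_num) z
    have h1 : ∀ᵐ x ∂μ, x ≠ z := by
      rw [ae_iff]
      simpa using h0
    filter_upwards [h1] with x hx
    have hn : ‖x - z‖ ≠ 0 := norm_ne_zero_iff.2 (sub_ne_zero.2 hx)
    have hk := Qj_ker h h' (x - z) (y - z)
    have e2 : x - z - (y - z) = x - y := by abel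
    rw [e2] at hk
    have e3 : ∀ Y : X d, Qj_g β z Y x * ⟪x - z, Qj_m β (y - z) Y⟫ =
        ‖x - z‖⁻¹ ^ 4 * ((-(2 * β) * ⟪x - z, x - z - Y⟫) * ga β (x - z - Y) *
          ⟪x - z, Qj_m β (y - z) Y⟫) := by
      intro Y
      unfold Qj_g
      rw [sub_add_eq_sub_sub]
      ring
    rw [integral_congr_ae (Eventually.of_forall e3), integral_const_mul, hk]
    push_cast
    field_simp
    ring
  have e4 : ∀ Y : X d, ⟪Qj_m β (y - z) Y, Kz μ z β (z + Y)⟫ =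
      ∫ x, Qj_g β z Y x * ⟪x - z, Qj_m β (y - z) Y⟫ ∂μ := fun Y =>
    Qj_Kz_inner hC hG h z Y _
  unfold Jf
  rw [integral_congr_ae e1, hsw]
  exact integral_congr_ae (Eventually.of_forall fun Y => (e4 Y).symm)

theorem J_le_Q (d : ℕ) : ∃ C : ℝ, 0 < C ∧ ∀ (μ : Measure (X d)) (C₀ : ℝ), IsFiniteMeasure μ →
    0 ≤ C₀ → Gr 3 C₀ μ → ∀ z y : X d, ∀ s : ℝ, 1 / 4 ≤ s → s ≤ 1 / 2 →
      ENNReal.ofReal (Jf 3 μ 4 z y ^ 2) ≤ ENNReal.ofReal (C * (1 + ‖y - z‖) ^ 6) * Qz μ z s := by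
  have hg := gc_pos (d := d) (b := 4) (by norm_num)
  have hI : 0 ≤ Qj_I d := by
    unfold Qj_I
    refine integral_nonneg fun w => ?_
    have := ga_nonneg 8 w
    positivity
  have hK := Qj_K_pos d
  refine ⟨(Qj_K d ^ 2 * Qj_I d + 1) * gc d 4, by positivity, ?_⟩
  intro μ C₀ hfin hC hG z y s hs1 hs2
  have := hfin
  have hs0 : 0 < s := by linarith
  have h8 : 8 ≤ 2 / s ^ 2 := by
    rw [le_div_iff₀ (by positivity)]
    nlinarith
  have h32 : 2 / s ^ 2 ≤ 32 := by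
    rw [div_le_iff₀ (by positivity)]
    nlinarith
  have hrep := Qj_rep hC hG h8 h32 z y
  set β : ℝ := 2 / s ^ 2 with hβ
  have hmc := Qj_m_cont β (y - z)
  have hKm := Qj_Kz_meas μ β z
  -- Cauchy-Schwarz
  have h1 : ‖Jf 3 μ 4 z y‖ₑ ≤ (∫⁻ Y : X d, ‖Qj_m β (y - z) Y‖ₑ ^ 2) ^ (1 / 2 : ℝ) *
      (∫⁻ Y : X d, ‖Kz μ z β (z + Y)‖ₑ ^ 2) ^ (1 / 2 : ℝ) := by
    rw [hrep]
    have h2 : ∫⁻ Y : X d, ‖⟪Qj_m β (y - z) Y, Kz μ z β (z + Y)⟫‖ₑ ≤
        ∫⁻ Y : X d, ((fun Y : X d => ‖Qj_m β (y - z) Y‖ₑ) *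
          (fun Y : X d => ‖Kz μ z β (z + Y)‖ₑ)) Y := by
      refine lintegral_mono fun Y => ?_
      simp only [Pi.mul_apply]
      rw [← ofReal_norm, ← ofReal_norm, ← ofReal_norm, ← ENNReal.ofReal_mul (norm_nonneg _)]
      exact ENNReal.ofReal_le_ofReal (norm_inner_le_norm _ _)
    have h3 := ENNReal.lintegral_mul_le_Lp_mul_Lq (volume : Measure (X d))
      (Real.HolderConjugate.two_two) (f := fun Y : X d => ‖Qj_m β (y - z) Y‖ₑ)
      (g := fun Y : X d => ‖Kz μ z β (z + Y)‖ₑ)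
      hmc.measurable.enorm.aemeasurable hKm.measurable.enorm.aemeasurable
    simp only [ENNReal.rpow_two] at h3
    exact (enorm_integral_le_lintegral_enorm _).trans (h2.trans h3)
  have h4 : ENNReal.ofReal (Jf 3 μ 4 z y ^ 2) = ‖Jf 3 μ 4 z y‖ₑ ^ 2 := by
    rw [← ofReal_norm, ← ENNReal.ofReal_pow (norm_nonneg _), Real.norm_eq_abs, sq_abs]
  have h5 : ‖Jf 3 μ 4 z y‖ₑ ^ 2 ≤ (∫⁻ Y : X d, ‖Qj_m β (y - z) Y‖ₑ ^ 2) *
      (∫⁻ Y : X d, ‖Kz μ z β (z + Y)‖ₑ ^ 2) := by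
    refine (pow_le_pow_left' h1 2).trans (le_of_eq ?_)
    rw [mul_pow, ← ENNReal.rpow_natCast, ← ENNReal.rpow_natCast, ← ENNReal.rpow_mul,
      ← ENNReal.rpow_mul]
    norm_num
  have h6 : ∫⁻ Y : X d, ‖Kz μ z β (z + Y)‖ₑ ^ 2 = ∫⁻ Y : X d, ‖Kz μ z β Y‖ₑ ^ 2 :=
    lintegral_add_left_eq_self (μ := (volume : Measure (X d))) (fun Y => ‖Kz μ z β Y‖ₑ ^ 2) z
  have hsd : 0 < s ^ d * gc d 4 := by positivity
  have h7 : ∫⁻ Y : X d, ‖Kz μ z β Y‖ₑ ^ 2 = ENNReal.ofReal (s ^ d * gc d 4) * Qz μ z s := by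
    unfold Qz
    rw [← mul_assoc, ← ENNReal.ofReal_mul hsd.le, mul_inv_cancel₀ hsd.ne', ENNReal.ofReal_one,
      one_mul]
  have h8' : ENNReal.ofReal (s ^ d * gc d 4) ≤ ENNReal.ofReal (gc d 4) := by
    refine ENNReal.ofReal_le_ofReal ?_
    have : s ^ d ≤ 1 := pow_le_one₀ hs0.le (by linarith)
    nlinarith
  rw [h4]
  refine h5.trans ?_
  rw [h6, h7]
  calc (∫⁻ Y : X d, ‖Qj_m β (y - z) Y‖ₑ ^ 2) * (ENNReal.ofReal (s ^ d * gc d 4) * Qz μ z s)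
      ≤ ENNReal.ofReal (Qj_K d ^ 2 * Qj_I d * (1 + ‖y - z‖) ^ 6) *
          (ENNReal.ofReal (gc d 4) * Qz μ z s) :=
        mul_le_mul' (Qj_m_sq h8 h32 (y - z)) (mul_le_mul' h8' le_rfl)
    _ = ENNReal.ofReal (Qj_K d ^ 2 * Qj_I d * (1 + ‖y - z‖) ^ 6 * gc d 4) * Qz μ z s := by
        rw [← mul_assoc, ← ENNReal.ofReal_mul (by positivity)]
    _ ≤ ENNReal.ofReal ((Qj_K d ^ 2 * Qj_I d + 1) * gc d 4 * (1 + ‖y - z‖) ^ 6) *
          Qz μ z s := by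
        refine mul_le_mul' (ENNReal.ofReal_le_ofReal ?_) le_rfl
        have h9 : 0 ≤ gc d 4 * (1 + ‖y - z‖) ^ 6 := by positivity
        nlinarith

end Pool.Agent.H1.LD
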