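import Pool.Agent.H1.LD.Dyn

/-!
window.  Put q(z,r) = ∫⁻ t in Ioc 0 r, Q z t * ofReal t⁻¹, S = {z | q(z,1) < ⊤} (measurable, full measure).  L = log 2.
 D z t = (C/L) * (∫⁻ s in Ioc (t/4) (t/2), Q z s * ofReal s⁻¹).toReal (for z in S, t ≤ 1 finite),  Ds z r = (C/L + C) * (q(z,r)).toReal  for r ≤ 1 (for r > 1 anything measurable, e.g. use min r 1).
 j: for all s in [t/4,t/2] ofReal(Jf^2) ≤ ofReal(C(1+..)^(2K)) Q z s; integrate ds/s over Ioc (t/4)(t/2) (∫ ds/s = log 2): L Jf^2 ≤ C(1+..)^(2K) ∫⁻ Q ds/s, take the square root ((1+..)^(2K) = ((1+..)^K)^2).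
 le: window inside (0, r].  int: ∫_0^r D z t dt/t ≤ (C/L) ∫_0^r ∫_{t/4}^{t/2} Q ds/s dt/t ≤ (C/L) ∫_0^r Q(s) (∫_{2s}^{4s} dt/t) ds/s = C ∫_0^r Q ds/s (Tonelli).
 tend: q(z,r) → 0 as r → 0+ (dominated convergence / continuity of the measure Q ds/s on decreasing sets).  Measurability: Measurable.lintegral_prod_right and the like.
-/

set_option autoImplicit false

open MeasureTheory Filter Topology Metric Set
open scoped RealInnerProductSpace ENNReal

namespace Pool.Agent.H1.LD

open Pool.Agent.RZ

variable {d : ℕ}

/-- the log integral over a half open interval -/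
private theorem Win_log {a : ℝ} (ha : 0 < a) :
    ∫⁻ s in Ioc a (2 * a), ENNReal.ofReal s⁻¹ = ENNReal.ofReal (Real.log 2) := by
  have h1 : IntegrableOn (fun s : ℝ => s⁻¹) (Ioc a (2 * a)) := by
    have : IntervalIntegrable (fun s : ℝ => s⁻¹) volume a (2 * a) := by
      apply intervalIntegral.intervalIntegrable_inv
      · intro x hx
        rw [uIcc_of_le (by linarith)] at hx
        exact (lt_of_lt_of_le ha hx.1).ne'
      · exact continuousOn_id
    exact (intervalIntegrable_iff_integrableOn_Ioc_of_le (by linarith)).1 this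
  rw [← ofReal_integral_eq_lintegral_ofReal h1]
  · congr 1
    rw [← intervalIntegral.integral_of_le (by linarith), integral_inv_of_pos ha (by linarith)]
    congr 1
    field_simp
  · filter_upwards [ae_restrict_mem measurableSet_Ioc] with s hs
    exact inv_nonneg.2 (ha.trans hs.1).le

private theorem Win_log' {a : ℝ} (ha : 0 < a) :
    ∫⁻ s in Ico a (2 * a), ENNReal.ofReal s⁻¹ = ENNReal.ofReal (Real.log 2) := by
  rw [← Win_log ha]
  exact (setLIntegral_congr (Ioc_ae_eq_Icc.trans Ico_ae_eq_Icc.symm)).symm

/-- windows: dynamic data from a square function which controls the defect at the comparable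
smaller scales -/
theorem window {n K : ℕ} {μ : Measure (X d)} [IsFiniteMeasure μ] (Q : X d → ℝ → ℝ≥0∞)
    (hQ : Measurable (Function.uncurry Q))
    (hfin : ∫⁻ z, (∫⁻ t in Ioc (0 : ℝ) 1, Q z t * ENNReal.ofReal t⁻¹) ∂μ < ⊤) {C : ℝ} (hC : 0 < C)
    (hJ : ∀ z : X d, ∀ t : ℝ, 0 < t → t ≤ 1 → ∀ y : X d, ∀ s : ℝ, t / 4 ≤ s → s ≤ t / 2 →
      ENNReal.ofReal (Jf n (blow n 0 t μ) 4 (t⁻¹ • z) y ^ 2) ≤
        ENNReal.ofReal (C * (1 + ‖y - t⁻¹ • z‖) ^ (2 * K)) * Q z s) :
    ∃ (S : Set (X d)) (D Ds : X d → ℝ → ℝ), Dy n K μ S D Ds := by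
  set L : ℝ := Real.log 2 with hL
  have hL0 : 0 < L := Real.log_pos (by norm_num)
  set F : X d → ℝ → ℝ≥0∞ := fun z s => Q z s * ENNReal.ofReal s⁻¹ with hF
  have hFm : Measurable (Function.uncurry F) := by
    have : Function.uncurry F = fun p : X d × ℝ => Function.uncurry Q p * ENNReal.ofReal p.2⁻¹ := by
      ext p; rfl
    rw [this]
    exact hQ.mul (measurable_snd.inv.ennreal_ofReal)
  have hFz : ∀ z, Measurable (F z) := fun z => hFm.comp measurable_prodMk_left
  -- windows with measurable end points
  have hwin : ∀ {α : Type} [MeasurableSpace α] (g : α → X d) (a b : α → ℝ), Measurable g →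
      Measurable a → Measurable b → Measurable fun p => ∫⁻ s in Ioc (a p) (b p), F (g p) s := by
    intro α _ g a b hg ha hb
    have h1 : ∀ p, ∫⁻ s in Ioc (a p) (b p), F (g p) s =
        ∫⁻ s, ({x : α × ℝ | a x.1 < x.2 ∧ x.2 ≤ b x.1}.indicator
          (fun x : α × ℝ => Function.uncurry F (g x.1, x.2))) (p, s) := by
      intro p
      rw [← lintegral_indicator measurableSet_Ioc]
      apply lintegral_congr
      intro s
      by_cases hs : s ∈ Ioc (a p) (b p)
      · rw [indicator_of_mem hs, indicator_of_mem (show (p, s) ∈ {x : α × ℝ | a x.1 < x.2 ∧ x.2 ≤ b x.1} from hs)]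
        rfl
      · rw [indicator_of_notMem hs, indicator_of_notMem (show (p, s) ∉ {x : α × ℝ | a x.1 < x.2 ∧ x.2 ≤ b x.1} from hs)]
    simp_rw [h1]
    apply Measurable.lintegral_prod_right'
    apply Measurable.indicator
    · exact hFm.comp ((hg.comp measurable_fst).prodMk measurable_snd)
    · exact (measurableSet_lt (ha.comp measurable_fst) measurable_snd).inter
        (measurableSet_le measurable_snd (hb.comp measurable_fst))
  set q : X d → ℝ → ℝ≥0∞ := fun z r => ∫⁻ t in Ioc (0 : ℝ) r, F z t with hq
  have hqm : ∀ r, Measurable fun z => q z r := fun r =>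
    hwin (fun z => z) (fun _ => 0) (fun _ => r) measurable_id measurable_const measurable_const
  have hqmono : ∀ z {r r' : ℝ}, r ≤ r' → q z r ≤ q z r' := fun z r r' h =>
    lintegral_mono_set (Ioc_subset_Ioc_right h)
  set W : X d → ℝ → ℝ≥0∞ := fun z t => ∫⁻ s in Ioc (t / 4) (t / 2), F z s with hW
  have hWle : ∀ z {t r : ℝ}, 0 < t → t ≤ r → W z t ≤ q z r := by
    intro z t r h0 h1
    apply lintegral_mono_set
    intro s hs
    exact ⟨lt_of_le_of_lt (by positivity) hs.1, hs.2.trans (by linarith)⟩
  set S : Set (X d) := {z | q z 1 < ⊤} with hS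
  have hqfin : ∀ z ∈ S, ∀ {r : ℝ}, r ≤ 1 → q z r ≠ ⊤ := fun z hz r hr =>
    (lt_of_le_of_lt (hqmono z hr) hz).ne
  refine ⟨S, fun z t => C / L * (W z t).toReal, fun z r => (C / L + C) * (q z (min r 1)).toReal,
    ?_⟩
  have hCL : 0 < C / L := div_pos hC hL0
  refine ⟨inferInstance, ?_, ?_, ?_, ?_, ?_, ?_, ?_, ?_, ?_, ?_, ?_, ?_⟩
  · -- measurability of D
    have := hwin (fun p : X d × ℝ => p.1) (fun p => p.2 / 4) (fun p => p.2 / 2) measurable_fst
      (measurable_snd.div_const 4) (measurable_snd.div_const 2)
    exact this.ennreal_toReal.const_mul _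
  · intro z t
    positivity
  · exact measurableSet_lt (hqm 1) measurable_const
  · exact ae_lt_top (hqm 1) hfin.ne
  · -- j
    intro z hz t ht0 ht1 y
    set J := Jf n (blow n 0 t μ) 4 (t⁻¹ • z) y with hJdef
    set R : ℝ := 1 + ‖y - t⁻¹ • z‖ with hR
    have hR0 : 0 < R := by positivity
    have hWfin : W z t ≠ ⊤ := (lt_of_le_of_lt (hWle z ht0 ht1) hz).ne
    have h1 : ENNReal.ofReal (J ^ 2) * ENNReal.ofReal L ≤
        ENNReal.ofReal (C * R ^ (2 * K)) * W z t := by
      have e1 : ∫⁻ s in Ioc (t / 4) (t / 2), ENNReal.ofReal s⁻¹ = ENNReal.ofReal L := by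
        have := Win_log (a := t / 4) (by positivity)
        rwa [show 2 * (t / 4) = t / 2 by ring] at this
      rw [← e1, ← lintegral_const_mul _ (by fun_prop), hW]
      simp only
      rw [← lintegral_const_mul _ (hFz z)]
      apply setLIntegral_mono' measurableSet_Ioc
      intro s hs
      have := hJ z t ht0 ht1 y s hs.1.le hs.2
      rw [hF]
      simp only
      rw [← mul_assoc]
      gcongr
    have h2 : J ^ 2 * L ≤ C * R ^ (2 * K) * (W z t).toReal := by
      rw [← ENNReal.ofReal_mul (by positivity)] at h1
      have h3 : ENNReal.ofReal (C * R ^ (2 * K)) * W z t =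
          ENNReal.ofReal (C * R ^ (2 * K) * (W z t).toReal) := by
        rw [ENNReal.ofReal_mul (p := C * R ^ (2 * K)) (by positivity), ENNReal.ofReal_toReal hWfin]
      rw [h3] at h1
      exact (ENNReal.ofReal_le_ofReal_iff (by positivity)).1 h1
    have h4 : J ^ 2 ≤ (R ^ K) ^ 2 * (C / L * (W z t).toReal) := by
      have : J ^ 2 ≤ C * R ^ (2 * K) * (W z t).toReal / L := (le_div_iff₀ hL0).2 h2
      calc J ^ 2 ≤ C * R ^ (2 * K) * (W z t).toReal / L := this
        _ = (R ^ K) ^ 2 * (C / L * (W z t).toReal) := by
          rw [← pow_mul, mul_comm K 2]; ring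
    have h5 := Real.sqrt_le_sqrt h4
    rw [Real.sqrt_sq_eq_abs, Real.sqrt_mul (by positivity), Real.sqrt_sq (by positivity)] at h5
    exact h5
  · intro r
    exact (hqm _).ennreal_toReal.const_mul _
  · intro z r
    positivity
  · -- le
    intro z hz t r ht htr hr
    rw [min_eq_left hr]
    have h1 : (W z t).toReal ≤ (q z r).toReal :=
      ENNReal.toReal_mono (hqfin z hz hr) (hWle z ht htr)
    have h2 : (0 : ℝ) ≤ (W z t).toReal := ENNReal.toReal_nonneg
    nlinarith
  · -- int
    intro z hz r hr0 hr1
    have hq1 := hqfin z hz hr1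
    have hWm : Measurable fun t => W z t :=
      hwin (fun _ : ℝ => z) (fun t => t / 4) (fun t => t / 2) measurable_const
        (measurable_id.div_const 4) (measurable_id.div_const 2)
    have key : ∫⁻ t in Ioc (0 : ℝ) r, ENNReal.ofReal (C / L * (W z t).toReal / t) ≤
        ENNReal.ofReal (C * (q z r).toReal) := by
      calc ∫⁻ t in Ioc (0 : ℝ) r, ENNReal.ofReal (C / L * (W z t).toReal / t)
          ≤ ∫⁻ t in Ioc (0 : ℝ) r, ENNReal.ofReal (C / L) *
              ∫⁻ s, (Ioc (t / 4) (t / 2)).indicator (fun s => F z s * ENNReal.ofReal t⁻¹) s := by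
            apply setLIntegral_mono' measurableSet_Ioc
            intro t ht
            rw [div_eq_mul_inv _ t, mul_assoc, ENNReal.ofReal_mul hCL.le]
            gcongr
            rw [ENNReal.ofReal_mul ENNReal.toReal_nonneg, lintegral_indicator measurableSet_Ioc,
              lintegral_mul_const _ (hFz z)]
            gcongr
            exact ENNReal.ofReal_toReal_le
        _ = ENNReal.ofReal (C / L) * ∫⁻ t in Ioc (0 : ℝ) r,
              ∫⁻ s, (Ioc (t / 4) (t / 2)).indicator (fun s => F z s * ENNReal.ofReal t⁻¹) s := by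
            rw [lintegral_const_mul']
            exact ENNReal.ofReal_ne_top
        _ = ENNReal.ofReal (C / L) * ∫⁻ s, ∫⁻ t in Ioc (0 : ℝ) r,
              (Ioc (t / 4) (t / 2)).indicator (fun s => F z s * ENNReal.ofReal t⁻¹) s := by
            rw [lintegral_lintegral_swap]
            apply Measurable.aemeasurable
            have : (Function.uncurry fun (t s : ℝ) =>
                (Ioc (t / 4) (t / 2)).indicator (fun s => F z s * ENNReal.ofReal t⁻¹) s) =
                ({x : ℝ × ℝ | x.1 / 4 < x.2 ∧ x.2 ≤ x.1 / 2}.indicator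
                  (fun x : ℝ × ℝ => F z x.2 * ENNReal.ofReal x.1⁻¹)) := by
              ext ⟨t, s⟩
              by_cases hs : s ∈ Ioc (t / 4) (t / 2)
              · rw [indicator_of_mem (show (t, s) ∈ {x : ℝ × ℝ | x.1 / 4 < x.2 ∧ x.2 ≤ x.1 / 2} from hs)]
                simp only [Function.uncurry]
                rw [indicator_of_mem hs]
              · rw [indicator_of_notMem (show (t, s) ∉ {x : ℝ × ℝ | x.1 / 4 < x.2 ∧ x.2 ≤ x.1 / 2} from hs)]
                simp only [Function.uncurry]
                rw [indicator_of_notMem hs]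
            rw [this]
            apply Measurable.indicator
            · exact ((hFz z).comp measurable_snd).mul (measurable_fst.inv.ennreal_ofReal)
            · exact (measurableSet_lt (measurable_fst.div_const 4) measurable_snd).inter
                (measurableSet_le measurable_snd (measurable_fst.div_const 2))
        _ ≤ ENNReal.ofReal (C / L) * ∫⁻ s, (Ioc (0 : ℝ) r).indicator
              (fun s => F z s * ENNReal.ofReal L) s := by
            gcongr with s
            by_cases hs : s ∈ Ioc (0 : ℝ) r
            · rw [indicator_of_mem hs]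
              have h1 := Win_log' (a := 2 * s) (by linarith [hs.1])
              rw [← h1, ← lintegral_const_mul _ (by fun_prop),
                ← lintegral_indicator measurableSet_Ioc, ← lintegral_indicator measurableSet_Ico]
              gcongr with t
              by_cases ht : t ∈ Ioc (0 : ℝ) r
              · rw [indicator_of_mem ht]
                by_cases hts : s ∈ Ioc (t / 4) (t / 2)
                · rw [indicator_of_mem hts]
                  rw [indicator_of_mem (show t ∈ Ico (2 * s) (2 * (2 * s)) from
                    ⟨by linarith [hts.2], by linarith [hts.1]⟩)]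
                · rw [indicator_of_notMem hts]
                  exact bot_le
              · rw [indicator_of_notMem ht]
                exact bot_le
            · rw [indicator_of_notMem hs]
              apply le_of_eq
              rw [← lintegral_indicator measurableSet_Ioc]
              rw [lintegral_eq_zero_iff' ?_]
              · refine Eventually.of_forall fun t => ?_
                by_cases ht : t ∈ Ioc (0 : ℝ) r
                · simp only [Pi.zero_apply]
                  rw [indicator_of_mem ht, indicator_of_notMem]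
                  intro hts
                  exact hs ⟨by linarith [hts.1, ht.1], by linarith [hts.2, ht.2, ht.1]⟩
                · rw [indicator_of_notMem ht]; rfl
              · apply Measurable.aemeasurable
                apply Measurable.indicator _ measurableSet_Ioc
                have : (fun t : ℝ => (Ioc (t / 4) (t / 2)).indicator
                    (fun s => F z s * ENNReal.ofReal t⁻¹) s) =
                    ({t : ℝ | t / 4 < s ∧ s ≤ t / 2}.indicator
                      (fun t : ℝ => F z s * ENNReal.ofReal t⁻¹)) := by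
                  ext t
                  by_cases hts : s ∈ Ioc (t / 4) (t / 2)
                  · rw [indicator_of_mem hts, indicator_of_mem (show t ∈ {t : ℝ | t / 4 < s ∧ s ≤ t / 2} from hts)]
                  · rw [indicator_of_notMem hts, indicator_of_notMem (show t ∉ {t : ℝ | t / 4 < s ∧ s ≤ t / 2} from hts)]
                rw [this]
                apply Measurable.indicator
                · fun_prop
                · exact (measurableSet_lt (measurable_id.div_const 4) measurable_const).inter
                    (measurableSet_le measurable_const (measurable_id.div_const 2))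
        _ = ENNReal.ofReal (C / L) * (q z r * ENNReal.ofReal L) := by
            rw [lintegral_indicator measurableSet_Ioc, lintegral_mul_const _ (hFz z)]
        _ = ENNReal.ofReal (C * (q z r).toReal) := by
            rw [ENNReal.ofReal_mul hC.le, ENNReal.ofReal_toReal hq1, mul_comm (q z r), ← mul_assoc,
              ← ENNReal.ofReal_mul hCL.le, div_mul_cancel₀ _ hL0.ne']
    have hnn : ∀ᵐ t ∂(volume.restrict (Ioc (0 : ℝ) r)), 0 ≤ C / L * (W z t).toReal / t := by
      filter_upwards [ae_restrict_mem measurableSet_Ioc] with t ht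
      have := ht.1
      positivity
    have hmeas : AEStronglyMeasurable (fun t => C / L * (W z t).toReal / t)
        (volume.restrict (Ioc (0 : ℝ) r)) := by
      apply Measurable.aestronglyMeasurable
      exact (hWm.ennreal_toReal.const_mul _).div measurable_id
    constructor
    · refine ⟨hmeas, ?_⟩
      rw [hasFiniteIntegral_iff_ofReal hnn]
      exact lt_of_le_of_lt key ENNReal.ofReal_lt_top
    · rw [integral_eq_lintegral_of_nonneg_ae hnn hmeas, min_eq_left hr1]
      have h1 := ENNReal.toReal_mono ENNReal.ofReal_ne_top key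
      rw [ENNReal.toReal_ofReal (by positivity)] at h1
      refine h1.trans ?_
      have h2 : (0 : ℝ) ≤ (q z r).toReal := ENNReal.toReal_nonneg
      nlinarith
  · -- mono
    intro z hz r r' hr0 hrr hr1
    rw [min_eq_left hr1, min_eq_left (hrr.trans hr1)]
    have := ENNReal.toReal_mono (hqfin z hz hr1) (hqmono z hrr)
    gcongr
  · -- tend
    intro z hz
    have h1 : Tendsto (fun r : ℝ => ∫⁻ t in Ioc (0 : ℝ) (min r 1), (Ioc (0 : ℝ) 1).indicator (F z) t)
        (𝓝[>] 0) (𝓝 0) := by
      apply tendsto_setLIntegral_zero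
      · rw [lintegral_indicator measurableSet_Ioc]
        exact (show q z 1 < ⊤ from hz).ne
      · have : (volume ∘ fun r : ℝ => Ioc (0 : ℝ) (min r 1)) =
            fun r : ℝ => ENNReal.ofReal (min r 1) := by
          ext r
          simp [Real.volume_Ioc]
        rw [this]
        have h2 : Tendsto (fun r : ℝ => ENNReal.ofReal (min r 1)) (𝓝 0) (𝓝 (ENNReal.ofReal (min 0 1))) := by
          apply ENNReal.tendsto_ofReal
          exact (continuous_id.min continuous_const).tendsto 0
        rw [min_eq_left (by norm_num : (0 : ℝ) ≤ 1), ENNReal.ofReal_zero] at h2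
        exact h2.mono_left nhdsWithin_le_nhds
    have h2 : ∀ r : ℝ, ∫⁻ t in Ioc (0 : ℝ) (min r 1), (Ioc (0 : ℝ) 1).indicator (F z) t =
        q z (min r 1) := by
      intro r
      apply setLIntegral_congr_fun measurableSet_Ioc
      intro t ht
      have ht' : t ∈ Ioc (0 : ℝ) 1 := ⟨ht.1, ht.2.trans (min_le_right _ _)⟩
      exact indicator_of_mem ht' _
    simp_rw [h2] at h1
    have h3 := (ENNReal.tendsto_toReal ENNReal.zero_ne_top).comp h1
    simp only [ENNReal.toReal_zero] at h3
    have h4 := h3.const_mul (C / L + C)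
    simpa using h4
  · -- fin1
    simp only [min_self]
    apply Integrable.const_mul
    exact integrable_toReal_of_lintegral_ne_top (hqm 1).aemeasurable hfin.ne

end Pool.Agent.H1.LD
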