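import Pool.Agent.H1.LD.Fat
import Pool.Agent.H1.LD.Qj
import Pool.Agent.H1.LD.QdA
import Pool.Agent.H1.LD.QdB
import Pool.Agent.H1.LD.Win
import Pool.Agent.H1.LD.Dic

/-!
dich_three.  window with Q = Qz μ, K = 3 (Qz_measurable, carleson_three restricted to Ioc 0 1); hJ: J_le_Q for blow 3 0 t μ (Gr.blow, finite) at the point t⁻¹•z with s' = s/t in [1/4,1/2], Qz_scale: Qz (blow 3 0 t μ)(t⁻¹•z)(s/t) = Qz μ z s.  Then dich_of_Dy.
-/

set_option autoImplicit false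

open MeasureTheory Filter Topology Metric Set
open scoped RealInnerProductSpace ENNReal

namespace Pool.Agent.H1.LD

open Pool.Agent.RZ

variable {d : ℕ}

theorem blow_finite {n : ℕ} {μ : Measure (X d)} [IsFiniteMeasure μ] {t : ℝ} (_ht : 0 < t) :
    IsFiniteMeasure (blow n 0 t μ) := by
  refine ⟨?_⟩
  unfold blow
  rw [Measure.smul_apply, smul_eq_mul, Measure.map_apply (Bl1_meas 0 t) MeasurableSet.univ,
    preimage_univ]
  exact ENNReal.mul_lt_top ENNReal.ofReal_lt_top (measure_lt_top _ _)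

theorem dich_three (hd : 4 ≤ d) {μ : Measure (X d)} [IsFiniteMeasure μ] {C₀ : ℝ}
    (hC₀ : 0 ≤ C₀) (hg : Gr 3 C₀ μ) (hE : En 3 μ) : Dich 3 μ := by
  obtain ⟨C, hC, hJ⟩ := J_le_Q d
  have hfin := carleson_three hd hC₀ hg hE
  have hfin1 : ∫⁻ z, (∫⁻ t in Ioc (0 : ℝ) 1, Qz μ z t * ENNReal.ofReal t⁻¹) ∂μ < ⊤ :=
    lt_of_le_of_lt (lintegral_mono fun z => lintegral_mono_set Ioc_subset_Ioi_self) hfin
  have hJ' : ∀ z : X d, ∀ t : ℝ, 0 < t → t ≤ 1 → ∀ y : X d, ∀ s : ℝ, t / 4 ≤ s → s ≤ t / 2 →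
      ENNReal.ofReal (Jf 3 (blow 3 0 t μ) 4 (t⁻¹ • z) y ^ 2) ≤
        ENNReal.ofReal (C * (1 + ‖y - t⁻¹ • z‖) ^ (2 * 3)) * Qz μ z s := by
    intro z t ht _ y s hs1 hs2
    have hs : 0 < s := by linarith
    have h1 := hJ (blow 3 0 t μ) C₀ (blow_finite ht) hC₀ (hg.blow 0 ht) (t⁻¹ • z) y (s / t)
      (by rw [div_le_div_iff₀ (by norm_num) ht]; linarith)
      (by rw [div_le_div_iff₀ ht (by norm_num)]; linarith)
    rw [Qz_scale μ ht z (by positivity), mul_div_cancel₀ s ht.ne'] at h1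
    exact h1
  obtain ⟨S, D, Ds, h⟩ := window (n := 3) (K := 3) (μ := μ) (Qz μ) (Qz_measurable μ) hfin1 hC hJ'
  exact dich_of_Dy hC₀ hg h

end Pool.Agent.H1.LD
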