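import Pool.Agent.H1.LD.Gau0

/-!
time_int: substitute u = t^{-2} (or: antiderivatives: t⁻³ e^{-c²/t²} is the derivative of e^{-c²/t²}/(2c²); t⁻⁵ e^{-c²/t²} is the derivative of (1/(2c⁴))(1 + c²/t²) e^{-c²/t²}; integrateOn_Ioi_deriv_of_nonneg, limits at 0+ and ∞; or integral_comp_inv_Ioi).
mt_int: mt a b t * t⁻¹ = 2⟪a,b⟫ t⁻³ e^{..} + 4⟪a,a-b⟫⟪b,b-a⟫ t⁻⁵ e^{..} with c = ‖a-b‖ > 0; for the last bound |⟪a,a-b⟫| ≤ ‖a‖ c etc.
-/

set_option autoImplicit false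

open MeasureTheory Filter Topology Metric Set
open scoped RealInnerProductSpace ENNReal

namespace Pool.Agent.H1.LD

open Pool.Agent.RZ

variable {d : ℕ}

/-- generic: `t ↦ Φ (c^2 / t^2)` is an antiderivative on `(0, ∞)` -/
private theorem KerA_gen {c : ℝ} (hc : 0 < c) {Φ Φ' f : ℝ → ℝ} (hΦ : ∀ s, HasDerivAt Φ (Φ' s) s)
    (h0 : Tendsto Φ atTop (𝓝 0))
    (hf : ∀ t : ℝ, 0 < t → f t = Φ' (c ^ 2 / t ^ 2) * (-2 * c ^ 2 / t ^ 3))
    (hn : ∀ t : ℝ, 0 < t → 0 ≤ f t) :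
    IntegrableOn f (Ioi 0) ∧ ∫ t in Ioi (0 : ℝ), f t = Φ 0 := by
  set g : ℝ → ℝ := fun t => if t ≤ 0 then 0 else Φ (c ^ 2 / t ^ 2) with hg
  have hd : ∀ t ∈ Ioi (0 : ℝ), HasDerivAt g (f t) t := by
    intro t ht
    have ht' : 0 < t := ht
    have ht0 : t ≠ 0 := ht'.ne'
    have h1 : HasDerivAt (fun t : ℝ => c ^ 2 / t ^ 2) (-2 * c ^ 2 / t ^ 3) t := by
      have h2 : HasDerivAt (fun t : ℝ => t ^ 2) (2 * t) t := by
        simpa using hasDerivAt_pow 2 t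
      have h3 : HasDerivAt (fun t : ℝ => c ^ 2 / t ^ 2)
          ((0 * t ^ 2 - c ^ 2 * (2 * t)) / (t ^ 2) ^ 2) t :=
        (hasDerivAt_const t (c ^ 2)).div h2 (by positivity)
      refine h3.congr_deriv ?_
      field_simp
      ring
    have h4 : HasDerivAt (fun t : ℝ => Φ (c ^ 2 / t ^ 2)) (Φ' (c ^ 2 / t ^ 2) * (-2 * c ^ 2 / t ^ 3)) t :=
      (hΦ _).comp t h1
    rw [← hf t ht'] at h4
    refine h4.congr_of_eventuallyEq ?_
    filter_upwards [Ioi_mem_nhds ht'] with s hs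
    have hs' : ¬ s ≤ 0 := not_le.2 hs
    simp only [hg, hs', if_false]
  have hcont : ContinuousWithinAt g (Ici 0) 0 := by
    have h5 : ContinuousWithinAt g (Ioi 0) 0 := by
      have h6 : Tendsto (fun t : ℝ => c ^ 2 / t ^ 2) (𝓝[>] 0) atTop := by
        have h7 : Tendsto (fun t : ℝ => t⁻¹) (𝓝[>] 0) atTop := tendsto_inv_nhdsGT_zero
        have h8 : Tendsto (fun t : ℝ => c ^ 2 * (t⁻¹) ^ 2) (𝓝[>] 0) atTop :=
          ((tendsto_pow_atTop (two_ne_zero)).comp h7).const_mul_atTop (by positivity)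
        refine h8.congr (fun t => ?_)
        rw [inv_pow, div_eq_mul_inv]
      have h9 : Tendsto (fun t : ℝ => Φ (c ^ 2 / t ^ 2)) (𝓝[>] 0) (𝓝 (g 0)) := by
        have : g 0 = 0 := by simp [hg]
        rw [this]
        exact h0.comp h6
      refine h9.congr' ?_
      filter_upwards [self_mem_nhdsWithin] with s hs
      have hs' : ¬ s ≤ 0 := not_le.2 hs
      simp only [hg, hs', if_false]
    exact continuousWithinAt_Ioi_iff_Ici.1 h5
  have hlim : Tendsto g atTop (𝓝 (Φ 0)) := by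
    have h6 : Tendsto (fun t : ℝ => c ^ 2 / t ^ 2) atTop (𝓝 0) :=
      (tendsto_pow_atTop (two_ne_zero)).const_div_atTop (c ^ 2)
    have h9 : Tendsto (fun t : ℝ => Φ (c ^ 2 / t ^ 2)) atTop (𝓝 (Φ 0)) :=
      ((hΦ 0).continuousAt.tendsto).comp h6
    refine h9.congr' ?_
    filter_upwards [Ioi_mem_atTop 0] with s hs
    have hs' : ¬ s ≤ 0 := not_le.2 hs
    simp only [hg, hs', if_false]
  refine ⟨integrableOn_Ioi_deriv_of_nonneg hcont hd (fun t ht => hn t ht) hlim, ?_⟩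
  rw [integral_Ioi_of_hasDerivAt_of_nonneg hcont hd (fun t ht => hn t ht) hlim]
  simp [hg]

/-- the time integrals -/
theorem time_int {c : ℝ} (hc : 0 < c) :
    IntegrableOn (fun t : ℝ => t⁻¹ ^ 3 * Real.exp (-(c ^ 2 / t ^ 2))) (Ioi 0) ∧
    ∫ t in Ioi (0 : ℝ), t⁻¹ ^ 3 * Real.exp (-(c ^ 2 / t ^ 2)) = 1 / (2 * c ^ 2) ∧
    IntegrableOn (fun t : ℝ => t⁻¹ ^ 5 * Real.exp (-(c ^ 2 / t ^ 2))) (Ioi 0) ∧
    ∫ t in Ioi (0 : ℝ), t⁻¹ ^ 5 * Real.exp (-(c ^ 2 / t ^ 2)) = 1 / (2 * c ^ 4) := by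
  have hc0 : c ≠ 0 := hc.ne'
  have A := KerA_gen (c := c) hc (Φ := fun s => Real.exp (-s) / (2 * c ^ 2))
    (Φ' := fun s => -Real.exp (-s) / (2 * c ^ 2)) (f := fun t => t⁻¹ ^ 3 * Real.exp (-(c ^ 2 / t ^ 2)))
    (fun s => by
      have h1 : HasDerivAt (fun s : ℝ => Real.exp (-s)) (Real.exp (-s) * (-1)) s :=
        (hasDerivAt_neg s).exp
      have h2 : HasDerivAt (fun s : ℝ => Real.exp (-s) / (2 * c ^ 2))
          (Real.exp (-s) * (-1) / (2 * c ^ 2)) s := h1.div_const (2 * c ^ 2)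
      refine h2.congr_deriv ?_
      ring)
    (by
      have h1 : Tendsto (fun s : ℝ => Real.exp (-s)) atTop (𝓝 0) :=
        Real.tendsto_exp_neg_atTop_nhds_zero
      simpa using h1.div_const (2 * c ^ 2))
    (fun t ht => by
      have ht0 : t ≠ 0 := ht.ne'
      field_simp)
    (fun t ht => by positivity)
  have B := KerA_gen (c := c) hc (Φ := fun s => (1 + s) * Real.exp (-s) / (2 * c ^ 4))
    (Φ' := fun s => -(s * Real.exp (-s)) / (2 * c ^ 4))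
    (f := fun t => t⁻¹ ^ 5 * Real.exp (-(c ^ 2 / t ^ 2)))
    (fun s => by
      have h1 : HasDerivAt (fun s : ℝ => Real.exp (-s)) (Real.exp (-s) * (-1)) s :=
        (hasDerivAt_neg s).exp
      have h0 : HasDerivAt (fun s : ℝ => 1 + s) 1 s := (hasDerivAt_id s).const_add 1
      have h2 : HasDerivAt (fun s : ℝ => (1 + s) * Real.exp (-s) / (2 * c ^ 4))
          ((1 * Real.exp (-s) + (1 + s) * (Real.exp (-s) * (-1))) / (2 * c ^ 4)) s :=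
        (h0.mul h1).div_const (2 * c ^ 4)
      refine h2.congr_deriv ?_
      ring)
    (by
      have h1 : Tendsto (fun s : ℝ => Real.exp (-s)) atTop (𝓝 0) :=
        Real.tendsto_exp_neg_atTop_nhds_zero
      have h3 : Tendsto (fun s : ℝ => s ^ 1 * Real.exp (-s)) atTop (𝓝 0) :=
        Real.tendsto_pow_mul_exp_neg_atTop_nhds_zero 1
      have h4 := (h1.add h3).div_const (2 * c ^ 4)
      simp only [add_zero, zero_div] at h4
      refine h4.congr (fun s => ?_)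
      simp only [pow_one]
      ring)
    (fun t ht => by
      have ht0 : t ≠ 0 := ht.ne'
      field_simp)
    (fun t ht => by positivity)
  refine ⟨A.1, ?_, B.1, ?_⟩
  · rw [A.2]
    simp
  · rw [B.2]
    simp

/-- the weight of the pair `(a, b)` at scale `t`: `E_a E_b exp (-|a - b|^2 / t^2)` -/
noncomputable def mt (a b : X d) (t : ℝ) : ℝ :=
  (2 * ⟪a, b⟫ / t ^ 2 + 4 * (⟪a, a - b⟫ * ⟪b, b - a⟫) / t ^ 4) * Real.exp (-(‖a - b‖ ^ 2 / t ^ 2))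

/-- the integral over all scales -/
noncomputable def mi (a b : X d) : ℝ :=
  ⟪a, b⟫ / ‖a - b‖ ^ 2 + 2 * (⟪a, a - b⟫ * ⟪b, b - a⟫) / ‖a - b‖ ^ 4

theorem mt_int {a b : X d} (h : a ≠ b) :
    IntegrableOn (fun t : ℝ => mt a b t * t⁻¹) (Ioi 0) ∧
    ∫ t in Ioi (0 : ℝ), mt a b t * t⁻¹ = mi a b ∧
    ∫ t in Ioi (0 : ℝ), |mt a b t * t⁻¹| ≤ 3 * (‖a‖ * ‖b‖) / ‖a - b‖ ^ 2 := by
  have hc : 0 < ‖a - b‖ := norm_pos_iff.2 (sub_ne_zero.2 h)
  obtain ⟨i3, e3, i5, e5⟩ := time_int hc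
  set c := ‖a - b‖ with hcd
  set p : ℝ := ⟪a, b⟫ with hp
  set q : ℝ := ⟪a, a - b⟫ * ⟪b, b - a⟫ with hq
  have hpb : |p| ≤ ‖a‖ * ‖b‖ := abs_real_inner_le_norm a b
  have hqb : |q| ≤ (‖a‖ * ‖b‖) * c ^ 2 := by
    have h1 : |⟪a, a - b⟫| ≤ ‖a‖ * c := abs_real_inner_le_norm a (a - b)
    have h2 : |⟪b, b - a⟫| ≤ ‖b‖ * c := by
      have := abs_real_inner_le_norm b (b - a)
      rwa [norm_sub_rev b a] at this
    rw [hq, abs_mul]
    calc |⟪a, a - b⟫| * |⟪b, b - a⟫| ≤ (‖a‖ * c) * (‖b‖ * c) := by gcongr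
      _ = (‖a‖ * ‖b‖) * c ^ 2 := by ring
  have key : ∀ t : ℝ, mt a b t * t⁻¹ = (2 * p) * (t⁻¹ ^ 3 * Real.exp (-(c ^ 2 / t ^ 2)))
      + (4 * q) * (t⁻¹ ^ 5 * Real.exp (-(c ^ 2 / t ^ 2))) := by
    intro t
    simp only [mt, ← hcd, ← hp, ← hq]
    simp only [div_eq_mul_inv, inv_pow]
    ring
  have I : IntegrableOn (fun t : ℝ => (2 * p) * (t⁻¹ ^ 3 * Real.exp (-(c ^ 2 / t ^ 2)))
      + (4 * q) * (t⁻¹ ^ 5 * Real.exp (-(c ^ 2 / t ^ 2)))) (Ioi 0) :=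
    (i3.const_mul (2 * p)).add (i5.const_mul (4 * q))
  have J : IntegrableOn (fun t : ℝ => (2 * |p|) * (t⁻¹ ^ 3 * Real.exp (-(c ^ 2 / t ^ 2)))
      + (4 * |q|) * (t⁻¹ ^ 5 * Real.exp (-(c ^ 2 / t ^ 2)))) (Ioi 0) :=
    (i3.const_mul (2 * |p|)).add (i5.const_mul (4 * |q|))
  refine ⟨?_, ?_, ?_⟩
  · exact I.congr_fun (fun t _ => (key t).symm) measurableSet_Ioi
  · rw [setIntegral_congr_fun measurableSet_Ioi (fun t _ => key t),
      integral_add (i3.const_mul (2 * p)) (i5.const_mul (4 * q)), integral_const_mul,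
      integral_const_mul, e3, e5]
    simp only [mi, ← hcd, ← hp, ← hq]
    field_simp
    ring
  · have h1 : ∫ t in Ioi (0 : ℝ), |mt a b t * t⁻¹| ≤
        ∫ t in Ioi (0 : ℝ), ((2 * |p|) * (t⁻¹ ^ 3 * Real.exp (-(c ^ 2 / t ^ 2)))
      + (4 * |q|) * (t⁻¹ ^ 5 * Real.exp (-(c ^ 2 / t ^ 2)))) := by
      refine setIntegral_mono_on ?_ J measurableSet_Ioi (fun t ht => ?_)
      · refine IntegrableOn.congr_fun (f := fun t : ℝ => |(2 * p) * (t⁻¹ ^ 3 * Real.exp (-(c ^ 2 / t ^ 2)))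
          + (4 * q) * (t⁻¹ ^ 5 * Real.exp (-(c ^ 2 / t ^ 2)))|) I.abs (fun t _ => ?_) measurableSet_Ioi
        beta_reduce
        rw [key t]
      · have ht' : 0 < t := ht
        rw [key t]
        refine (abs_add_le _ _).trans (le_of_eq ?_)
        have e1 : 0 < t⁻¹ ^ 3 * Real.exp (-(c ^ 2 / t ^ 2)) := by positivity
        have e2 : 0 < t⁻¹ ^ 5 * Real.exp (-(c ^ 2 / t ^ 2)) := by positivity
        rw [abs_mul (2 * p), abs_mul (4 * q), abs_of_pos e1, abs_of_pos e2, abs_mul 2 p, abs_mul 4 q,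
          abs_of_pos (show (0 : ℝ) < 2 by norm_num), abs_of_pos (show (0 : ℝ) < 4 by norm_num)]
    refine h1.trans ?_
    rw [integral_add (i3.const_mul (2 * |p|)) (i5.const_mul (4 * |q|)), integral_const_mul,
      integral_const_mul, e3, e5]
    have hc2 : 0 < c ^ 2 := by positivity
    have h2 : 2 * |p| * (1 / (2 * c ^ 2)) ≤ (‖a‖ * ‖b‖) / c ^ 2 := by
      rw [mul_one_div, div_le_div_iff₀ (by positivity) hc2]
      nlinarith
    have h3 : 4 * |q| * (1 / (2 * c ^ 4)) ≤ 2 * (‖a‖ * ‖b‖) / c ^ 2 := by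
      rw [mul_one_div, div_le_div_iff₀ (by positivity) hc2]
      have : |q| * c ^ 2 ≤ (‖a‖ * ‖b‖) * c ^ 2 * c ^ 2 := by gcongr
      nlinarith
    calc 2 * |p| * (1 / (2 * c ^ 2)) + 4 * |q| * (1 / (2 * c ^ 4))
        ≤ (‖a‖ * ‖b‖) / c ^ 2 + 2 * (‖a‖ * ‖b‖) / c ^ 2 := add_le_add h2 h3
      _ = 3 * (‖a‖ * ‖b‖) / c ^ 2 := by ring

end Pool.Agent.H1.LD
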