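import Pool.Agent.RZ.Gr1

/-!
# Densities of measures with bounded Riesz transform: definitions at unit scale

Gaussian averages of a measure, their first and second moments, the homogeneity defect.
-/

set_option autoImplicit false

open MeasureTheory Filter Topology Metric Set
open scoped RealInnerProductSpace ENNReal

namespace Pool.Agent.H1.LD

open Pool.Agent.RZ

variable {d : ℕ}

/-- the Gaussian `exp (-b |v|^2)` -/
noncomputable def ga (b : ℝ) (v : X d) : ℝ := Real.exp (-(b * ‖v‖ ^ 2))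

/-- the total mass of the Gaussian -/
noncomputable def gc (d : ℕ) (b : ℝ) : ℝ := ∫ w : X d, ga b w

/-- the Gaussian density of a measure -/
noncomputable def th (ν : Measure (X d)) (b : ℝ) (y : X d) : ℝ := ∫ x, ga b (x - y) ∂ν

/-- the first moment; for `b = 1/2` it is the gradient of `th ν (1/2)` -/
noncomputable def Uv (ν : Measure (X d)) (b : ℝ) (y : X d) : X d := ∫ x, ga b (x - y) • (x - y) ∂ν

/-- the Hessian of `th ν (1/2)` at `y`, applied to the vector `a` -/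
noncomputable def Hv (ν : Measure (X d)) (y a : X d) : X d :=
  ∫ x, ga (1 / 2) (x - y) • (⟪x - y, a⟫ • (x - y) - a) ∂ν

/-- the defect of `n`-homogeneity about `z`: the measure is tested with `(E + n) χ`, where
`χ = ga b (· - y)` and `E` is the Euler operator about `z` -/
noncomputable def Jf (n : ℕ) (ν : Measure (X d)) (b : ℝ) (z y : X d) : ℝ :=
  ∫ x, (n - 2 * b * ⟪x - z, x - y⟫) * ga b (x - y) ∂ν

/-- the same with the test function `⟪· - z, e⟫ * ga b (· - y)` -/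
noncomputable def Lf (n : ℕ) (ν : Measure (X d)) (b : ℝ) (z y e : X d) : ℝ :=
  ∫ x, ((n + 1 - 2 * b * ⟪x - z, x - y⟫) * ⟪x - z, e⟫) * ga b (x - y) ∂ν

/-- static data: `D` controls the homogeneity defect about the points of `S` -/
structure Sd (n K : ℕ) (ν : Measure (X d)) (S : Set (X d)) (D : X d → ℝ) : Prop where
  fin : IsFiniteMeasure ν
  meas : Measurable D
  int : Integrable D ν
  nn : ∀ x, 0 ≤ D x
  ae : ∀ᵐ x ∂ν, x ∈ S
  j : ∀ z ∈ S, ∀ y, |Jf n ν 4 z y| ≤ (1 + ‖y - z‖) ^ K * Real.sqrt (D z)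

/-- the Gaussian average of `D` -/
noncomputable def Db (ν : Measure (X d)) (D : X d → ℝ) (x : X d) : ℝ :=
  ∫ y, ga (1 / 4) (y - x) * D y ∂ν

/-- the quantity which controls all second order terms -/
noncomputable def Yf (ν : Measure (X d)) (D : X d → ℝ) (x : X d) : ℝ :=
  Db ν D x / th ν (1 / 2) x + D x

/-- `(d - n) θ^2 - |H|^2` as a double integral -/
noncomputable def Ef (n : ℕ) (ν : Measure (X d)) (y : X d) : ℝ :=
  ∫ x, ∫ x', (‖x - y‖ ^ 2 + ‖x' - y‖ ^ 2 - n - ⟪x - y, x' - y⟫ ^ 2) *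
    (ga (1 / 2) (x - y) * ga (1 / 2) (x' - y)) ∂ν ∂ν

/-- the test of the measure against the Gaussian weight times a first moment, direction `e` -/
noncomputable def Te (n : ℕ) (ν : Measure (X d)) (b : ℝ) (z₀ x e : X d) : ℝ :=
  ∫ y, ga (1 / 2) (x - y) * (ga b (y - z₀) *
    (((n + 1 - ‖x - y‖ ^ 2 + 2 * b * ⟪x - y, y - z₀⟫) * ⟪e, Uv ν (1 / 2) y⟫
      - ⟪e, Hv ν y (x - y)⟫) * ⟪x - y, e⟫)) ∂ν

/-- the sum of `Te` over an orthonormal basis -/
noncomputable def Tx (n : ℕ) (ν : Measure (X d)) (b : ℝ) (z₀ x : X d) : ℝ :=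
  ∫ y, ga (1 / 2) (x - y) * (ga b (y - z₀) *
    ((n + 1 - ‖x - y‖ ^ 2 + 2 * b * ⟪x - y, y - z₀⟫) * ⟪x - y, Uv ν (1 / 2) y⟫
      - ⟪x - y, Hv ν y (x - y)⟫)) ∂ν

/-- second moment -/
noncomputable def M2 (ν : Measure (X d)) (y : X d) : ℝ := ∫ x, ga (1 / 2) (x - y) * ‖x - y‖ ^ 2 ∂ν

/-- third moment -/
noncomputable def M3 (ν : Measure (X d)) (y : X d) : X d :=
  ∫ x, (ga (1 / 2) (x - y) * ‖x - y‖ ^ 2) • (x - y) ∂ν

/-- the scaled time derivative of the energy `(1/2) ∫ ψ (θ^2 + |U|^2)`, with the weight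
`ψ = ga b (· - z₀)` -/
noncomputable def Dt (n : ℕ) (ν : Measure (X d)) (b : ℝ) (z₀ : X d) : ℝ :=
  ∫ y, ga b (y - z₀) * (th ν (1 / 2) y * (M2 ν y - n * th ν (1 / 2) y)
    + ⟪Uv ν (1 / 2) y, M3 ν y⟫ - (n + 1) * ‖Uv ν (1 / 2) y‖ ^ 2) ∂ν

/-- Gaussian weighted integral of `D` -/
noncomputable def Wm (ν : Measure (X d)) (D : X d → ℝ) (b : ℝ) (z₀ : X d) : ℝ :=
  ∫ y, ga b (y - z₀) * D y ∂ν

/-- the mixed term of the second order estimates -/
noncomputable def Zf (ν : Measure (X d)) (D : X d → ℝ) (b : ℝ) (z₀ x : X d) : ℝ :=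
  (∫ y, ga (3 / 8) (x - y) * (ga (b / 2) (y - z₀) * Yf ν D y) ∂ν) / th ν (1 / 2) x

end Pool.Agent.H1.LD
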