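import Mathlib
import Pool.Agent.H1.LD.Defs

/-!
Pure algebra.  Put p i = -h i/θ ≤ 1, q = Q/θ^3, γ = g/θ, m = d - n.  Hypotheses: ∑ p_i^2 (1-p_i) ≤ q, |∑ p_i - m| ≤ γ.  Claim |m - ∑ p_i^2| ≤ C (q + γ^2); multiply by θ^2.
For each i: if p_i < 1/2 then p_i^2 ≤ 2q; if p_i ≥ 1/2 then 0 ≤ 1-p_i ≤ 4q.  Let I be the set of i with p_i ≥ 1/2.
|∑ p_i - #I| ≤ 4dq + d sqrt(2q).  So if γ < 1/2 and 4dq + d sqrt(2q) < 1/2 then the integer m - #I has absolute value < 1, m = #I, and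
|m - ∑ p_i^2| ≤ ∑_I (1-p_i)(1+p_i) + ∑_{not I} p_i^2 ≤ 8dq + 2dq.
Otherwise γ ≥ 1/2 or q ≥ c_d (for instance c_d = 1/(32 d^2 + 32)), and |m - ∑ p_i^2| ≤ |m| + d + 2dq ≤ C(q+γ^2).
-/

set_option autoImplicit false

open MeasureTheory Filter Topology Metric Set
open scoped RealInnerProductSpace ENNReal

namespace Pool.Agent.H1.LD

open Pool.Agent.RZ

variable {d : ℕ}

private theorem alg_term {p q : ℝ} (h1 : p ≤ 1) (hq : 0 ≤ q) (h : p ^ 2 * (1 - p) ≤ q) :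
    |p ^ 2 - (if 1 / 2 ≤ p then 1 else 0)| ≤ 8 * q ∧
    |p - (if 1 / 2 ≤ p then 1 else 0)| ≤ 4 * q + Real.sqrt (2 * q) := by
  by_cases hp : 1 / 2 ≤ p
  · rw [if_pos hp]
    have h2 : 1 - p ≤ 4 * q := by nlinarith [mul_nonneg (sub_nonneg.mpr h1) (show (0:ℝ) ≤ p ^ 2 - 1 / 4 by nlinarith)]
    constructor
    · rw [abs_le]
      constructor
      · nlinarith [mul_nonneg (sub_nonneg.mpr h1) (sub_nonneg.mpr h1)]
      · nlinarith
    · rw [abs_le]
      have h3 := Real.sqrt_nonneg (2 * q)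
      constructor <;> linarith
  · rw [if_neg hp]
    push Not at hp
    have h2 : p ^ 2 ≤ 2 * q := by nlinarith [mul_nonneg (sq_nonneg p) (show (0:ℝ) ≤ 1 / 2 - p by linarith)]
    constructor
    · rw [sub_zero, abs_of_nonneg (sq_nonneg p)]
      linarith
    · rw [sub_zero]
      have h3 : |p| ≤ Real.sqrt (2 * q) := Real.abs_le_sqrt h2
      linarith

private theorem alg_norm (d n : ℕ) : ∃ C : ℝ, 0 < C ∧ ∀ (p : Fin d → ℝ) (q γ : ℝ),
    (∀ i, p i ≤ 1) → 0 ≤ q → 0 ≤ γ → ∑ i, p i ^ 2 * (1 - p i) ≤ q →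
    |∑ i, p i - ((d : ℝ) - n)| ≤ γ →
    |((d : ℝ) - n) - ∑ i, p i ^ 2| ≤ C * (q + γ ^ 2) := by
  set A : ℝ := |(d : ℝ) - n| + d with hA
  have hA0 : 0 ≤ A := by positivity
  refine ⟨A * 4 + A * (32 * ((d : ℝ) ^ 2 + 1)) + 8 * d + 1, by positivity, ?_⟩
  intro p q γ hp hq hγ h1 h2
  have hterm : ∀ i, p i ^ 2 * (1 - p i) ≤ q := fun i =>
    (Finset.single_le_sum (f := fun i => p i ^ 2 * (1 - p i))
      (fun j _ => mul_nonneg (sq_nonneg _) (sub_nonneg.mpr (hp j))) (Finset.mem_univ i)).trans h1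
  set N : ℝ := ∑ i : Fin d, (if 1 / 2 ≤ p i then (1 : ℝ) else 0) with hN
  have hS2 : |∑ i, p i ^ 2 - N| ≤ d * (8 * q) := by
    rw [hN, ← Finset.sum_sub_distrib]
    refine (Finset.abs_sum_le_sum_abs _ _).trans ?_
    refine (Finset.sum_le_sum fun i _ => (alg_term (hp i) hq (hterm i)).1).trans ?_
    simp
  have hS1 : |∑ i, p i - N| ≤ d * (4 * q + Real.sqrt (2 * q)) := by
    rw [hN, ← Finset.sum_sub_distrib]
    refine (Finset.abs_sum_le_sum_abs _ _).trans ?_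
    refine (Finset.sum_le_sum fun i _ => (alg_term (hp i) hq (hterm i)).2).trans ?_
    rw [Finset.sum_const, Finset.card_univ, Fintype.card_fin, nsmul_eq_mul]
  have hN0 : 0 ≤ N := Finset.sum_nonneg fun i _ => by split_ifs <;> norm_num
  have hNd : N ≤ d := by
    refine (Finset.sum_le_sum (g := fun _ => (1 : ℝ)) fun i _ => by split_ifs <;> norm_num).trans ?_
    simp
  have hNint : ∃ k : ℤ, N = k := by
    refine ⟨∑ i : Fin d, (if 1 / 2 ≤ p i then (1 : ℤ) else 0), ?_⟩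
    rw [hN]
    push_cast
    rfl
  have hd0 : (0 : ℝ) ≤ d := Nat.cast_nonneg d
  have hcrude : |((d : ℝ) - n) - ∑ i, p i ^ 2| ≤ A + d * (8 * q) := by
    have e : ((d : ℝ) - n) - ∑ i, p i ^ 2 = ((d : ℝ) - n) - N - (∑ i, p i ^ 2 - N) := by ring
    rw [e]
    refine (abs_sub _ _).trans ?_
    refine add_le_add ?_ hS2
    refine (abs_sub _ _).trans ?_
    rw [hA, abs_of_nonneg hN0]
    linarith
  have hγ2 : 0 ≤ γ ^ 2 := sq_nonneg γ
  have hB0 : 0 ≤ A * (32 * ((d : ℝ) ^ 2 + 1)) := by positivity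
  by_cases c1 : 1 / 2 ≤ γ
  · refine hcrude.trans ?_
    have : 1 ≤ 4 * γ ^ 2 := by nlinarith
    have h5 : A ≤ A * (4 * γ ^ 2) := le_mul_of_one_le_right hA0 this
    nlinarith [mul_nonneg hA0 hq, mul_nonneg hB0 hq, mul_nonneg hB0 hγ2, mul_nonneg hd0 hγ2]
  · by_cases c2 : 1 / (32 * ((d : ℝ) ^ 2 + 1)) ≤ q
    · refine hcrude.trans ?_
      have h6 : 1 ≤ 32 * ((d : ℝ) ^ 2 + 1) * q := by
        rw [div_le_iff₀ (by positivity)] at c2
        linarith
      have h5 : A ≤ A * (32 * ((d : ℝ) ^ 2 + 1) * q) := le_mul_of_one_le_right hA0 h6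
      nlinarith [mul_nonneg hA0 hq, mul_nonneg hB0 hγ2, mul_nonneg hd0 hγ2, mul_nonneg hA0 hγ2]
    · push Not at c1 c2
      have h7 : q * (32 * ((d : ℝ) ^ 2 + 1)) < 1 := by
        rw [lt_div_iff₀ (by positivity)] at c2
        exact c2
      have h8 : d * (4 * q) ≤ 1 / 8 := by
        nlinarith [mul_nonneg hq (sq_nonneg ((d : ℝ) - 1))]
      have h9 : d * Real.sqrt (2 * q) ≤ 1 / 4 := by
        have h10 : (d * Real.sqrt (2 * q)) ^ 2 ≤ (1 / 4) ^ 2 := by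
          rw [mul_pow, Real.sq_sqrt (by positivity)]
          nlinarith
        exact abs_le_of_sq_le_sq' h10 (by norm_num) |>.2
      have h11 : |∑ i, p i - N| < 1 / 2 := by
        refine lt_of_le_of_lt hS1 ?_
        rw [mul_add]
        linarith
      have h12 : |N - ((d : ℝ) - n)| < 1 := by
        have e : N - ((d : ℝ) - n) = (∑ i, p i - ((d : ℝ) - n)) - (∑ i, p i - N) := by ring
        rw [e]
        refine lt_of_le_of_lt (abs_sub _ _) ?_
        linarith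
      obtain ⟨k, hk⟩ := hNint
      have h13 : N = (d : ℝ) - n := by
        have h14 : |((k - ((d : ℤ) - n) : ℤ) : ℝ)| < 1 := by
          push_cast
          rw [← hk]
          exact h12
        have h15 : |k - ((d : ℤ) - n)| < 1 := by exact_mod_cast h14
        have h16 : k - ((d : ℤ) - n) = 0 := Int.abs_lt_one_iff.mp h15
        have h17 : k = (d : ℤ) - n := by linarith
        rw [hk, h17]
        push_cast
        ring
      rw [← h13, abs_sub_comm]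
      refine hS2.trans ?_
      nlinarith [mul_nonneg hA0 hq, mul_nonneg hB0 hq, mul_nonneg hB0 hγ2, mul_nonneg hd0 hγ2,
        mul_nonneg hA0 hγ2]

/-- if the eigenvalues `h i ≥ -θ` are close to `0` or `-θ` and their sum is close to
`-(d - n) θ`, then the sum of squares is close to `(d - n) θ^2` to second order -/
theorem eig_alg (d n : ℕ) : ∃ C : ℝ, 0 < C ∧ ∀ (θ : ℝ) (h : Fin d → ℝ) (Q g : ℝ), 0 < θ →
    (∀ i, 0 ≤ θ + h i) → 0 ≤ Q → 0 ≤ g → ∑ i, h i ^ 2 * (θ + h i) ≤ Q →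
    |∑ i, h i + (d - n) * θ| ≤ g →
    |(d - n) * θ ^ 2 - ∑ i, h i ^ 2| ≤ C * (Q / θ + g ^ 2) := by
  obtain ⟨C, hC, hmain⟩ := alg_norm d n
  refine ⟨C, hC, ?_⟩
  intro θ h Q g hθ hh hQ hg h1 h2
  have key := hmain (fun i => -(h i) / θ) (Q / θ ^ 3) (g / θ)
    (fun i => by
      rw [div_le_one hθ]
      linarith [hh i])
    (by positivity) (by positivity)
    (by
      rw [le_div_iff₀ (by positivity), Finset.sum_mul]
      refine le_trans (le_of_eq (Finset.sum_congr rfl fun i _ => ?_)) h1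
      field_simp
      ring)
    (by
      rw [le_div_iff₀ hθ]
      have e : (∑ i, -(h i) / θ - ((d : ℝ) - n)) = -((∑ i, h i + (d - n) * θ) / θ) := by
        rw [← Finset.sum_div, Finset.sum_neg_distrib]
        field_simp
        ring
      rw [e, abs_neg, abs_div, abs_of_pos hθ, div_mul_cancel₀ _ hθ.ne']
      exact h2)
  have e2 : (d - n) * θ ^ 2 - ∑ i, h i ^ 2 = θ ^ 2 * (((d : ℝ) - n) - ∑ i, (-(h i) / θ) ^ 2) := by
    rw [mul_sub, Finset.mul_sum]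
    congr 1
    · ring
    · refine Finset.sum_congr rfl fun i _ => ?_
      field_simp
  rw [e2, abs_mul, abs_of_nonneg (sq_nonneg θ)]
  calc θ ^ 2 * |((d : ℝ) - n) - ∑ i, (-(h i) / θ) ^ 2|
      ≤ θ ^ 2 * (C * (Q / θ ^ 3 + (g / θ) ^ 2)) := mul_le_mul_of_nonneg_left key (sq_nonneg θ)
    _ = C * (Q / θ + g ^ 2) := by
        field_simp

end Pool.Agent.H1.LD
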