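import Pool.Agent.H1.LD.Sup

/-!
th_wide.  For b > 0 put f(b) = b^(n/2) th ν b z (real power).  f'(b) = (1/(2b)) b^(n/2) ∫ (n - 2b|x-z|^2) ga b (x-z) dν(x) = (1/(2b)) b^(n/2) Jf n ν b z z.
J_wide with y = z: |f'(b)| ≤ C sqrt(D z) on [1/16, 1/2].  Hence f(1/16) ≤ f(1/2) + C' sqrt(D z) (mean value inequality).
-/

set_option autoImplicit false

open MeasureTheory Filter Topology Metric Set
open scoped RealInnerProductSpace ENNReal

namespace Pool.Agent.H1.LD

open Pool.Agent.RZ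

variable {d : ℕ}

private theorem Wid_bound (t : ℝ) (ht : 0 ≤ t) (b : ℝ) (hb : 1 / 32 ≤ b) : t * Real.exp (-(b * t)) ≤ 32 := by
  have h1 : t / 32 + 1 ≤ Real.exp (t / 32) := Real.add_one_le_exp _
  have h2 : t ≤ 32 * Real.exp (t / 32) := by linarith
  have h3 : Real.exp (-(b * t)) ≤ Real.exp (-(t / 32)) := by
    apply Real.exp_le_exp.2
    nlinarith
  calc t * Real.exp (-(b * t)) ≤ (32 * Real.exp (t / 32)) * Real.exp (-(t / 32)) :=
        mul_le_mul h2 h3 (Real.exp_pos _).le (by positivity)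
    _ = 32 := by rw [mul_assoc, ← Real.exp_add]; simp

private theorem Wid_int (ν : Measure (X d)) [IsFiniteMeasure ν] {b : ℝ} (hb : 0 ≤ b) (z : X d) :
    Integrable (fun x => ga b (x - z)) ν := by
  refine Integrable.of_bound (C := 1) ?_ ?_
  · exact ((ga_continuous b).comp (continuous_id.sub continuous_const)).aestronglyMeasurable
  · refine Eventually.of_forall fun x => ?_
    rw [Real.norm_of_nonneg (ga_nonneg _ _)]
    exact ga_le_one hb _

private theorem Wid_int2 (ν : Measure (X d)) [IsFiniteMeasure ν] {b : ℝ} (hb : 1 / 32 ≤ b) (z : X d) :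
    Integrable (fun x => -‖x - z‖ ^ 2 * ga b (x - z)) ν := by
  refine Integrable.of_bound (C := 32) ?_ ?_
  · refine Continuous.aestronglyMeasurable ?_
    exact ((continuous_id.sub continuous_const).norm.pow 2).neg.mul
      ((ga_continuous b).comp (continuous_id.sub continuous_const))
  · refine Eventually.of_forall fun x => ?_
    rw [norm_mul, Real.norm_of_nonneg (ga_nonneg _ _), norm_neg, Real.norm_of_nonneg (sq_nonneg _)]
    exact Wid_bound _ (sq_nonneg _) b hb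

private theorem Wid_deriv (ν : Measure (X d)) [IsFiniteMeasure ν] (z : X d) {b : ℝ} (hb : 1 / 16 ≤ b) :
    HasDerivAt (fun b => th ν b z) (∫ x, -‖x - z‖ ^ 2 * ga b (x - z) ∂ν) b := by
  have h := hasDerivAt_integral_of_dominated_loc_of_deriv_le (μ := ν) (F := fun b x => ga b (x - z))
    (F' := fun b x => -‖x - z‖ ^ 2 * ga b (x - z)) (x₀ := b) (s := Metric.ball b (1 / 32))
    (bound := fun _ => (32 : ℝ)) (Metric.ball_mem_nhds b (by norm_num)) ?_ ?_ ?_ ?_ ?_ ?_
  · exact h.2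
  · refine Eventually.of_forall fun b' => ?_
    exact ((ga_continuous b').comp (continuous_id.sub continuous_const)).aestronglyMeasurable
  · exact Wid_int ν (by linarith) z
  · exact (Wid_int2 ν (by linarith) z).aestronglyMeasurable
  · refine Eventually.of_forall fun x b' hb' => ?_
    have h1 : 1 / 32 ≤ b' := by
      rw [Metric.mem_ball, Real.dist_eq, abs_lt] at hb'
      linarith [hb'.1]
    rw [norm_mul, Real.norm_of_nonneg (ga_nonneg _ _), norm_neg, Real.norm_of_nonneg (sq_nonneg _)]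
    exact Wid_bound _ (sq_nonneg _) b' h1
  · exact integrable_const _
  · refine Eventually.of_forall fun x b' _ => ?_
    unfold ga
    have h1 : HasDerivAt (fun b : ℝ => -(b * ‖x - z‖ ^ 2)) (-(1 * ‖x - z‖ ^ 2)) b' :=
      ((hasDerivAt_id b').mul_const _).neg
    have h2 : HasDerivAt (fun b : ℝ => Real.exp (-(b * ‖x - z‖ ^ 2)))
        (Real.exp (-(b' * ‖x - z‖ ^ 2)) * (-(1 * ‖x - z‖ ^ 2))) b' := h1.exp
    have e : -‖x - z‖ ^ 2 * Real.exp (-(b' * ‖x - z‖ ^ 2)) =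
        Real.exp (-(b' * ‖x - z‖ ^ 2)) * (-(1 * ‖x - z‖ ^ 2)) := by ring
    rw [e]
    exact h2

theorem th_wide (d n K : ℕ) : ∃ C : ℝ, 1 ≤ C ∧ ∀ (ν : Measure (X d)) (S : Set (X d)) (D : X d → ℝ),
    Sd n K ν S D → ∀ z ∈ S, th ν (1 / 16) z ≤ C * (th ν (1 / 2) z + Real.sqrt (D z)) := by
  obtain ⟨C₀, hC₀, hJ⟩ := J_wide d n K
  refine ⟨4 ^ n * (1 + 4 * C₀), ?_, ?_⟩
  · have h1 : (1 : ℝ) ≤ 4 ^ n := one_le_pow₀ (by norm_num)
    nlinarith
  intro ν S D hS z hz
  have hfin := hS.fin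
  set q : ℝ := (n : ℝ) / 2 with hq
  have hq0 : 0 ≤ q := by positivity
  have hder : ∀ b ∈ Set.Icc (1 / 16 : ℝ) (1 / 2), HasDerivWithinAt (fun b => b ^ q * th ν b z)
      (1 / (2 * b) * b ^ q * Jf n ν b z z) (Set.Icc (1 / 16 : ℝ) (1 / 2)) b := by
    intro b hb
    have hb0 : 0 < b := by linarith [hb.1]
    have h1 : HasDerivAt (fun b : ℝ => b ^ q) (q * b ^ (q - 1)) b :=
      Real.hasDerivAt_rpow_const (Or.inl hb0.ne')
    have h2 : HasDerivAt (fun b : ℝ => b ^ q * th ν b z)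
        (q * b ^ (q - 1) * th ν b z + b ^ q * ∫ x, -‖x - z‖ ^ 2 * ga b (x - z) ∂ν) b :=
      h1.mul (Wid_deriv ν z hb.1)
    refine HasDerivAt.hasDerivWithinAt ?_
    have h3 : Jf n ν b z z = n * th ν b z + 2 * b * ∫ x, -‖x - z‖ ^ 2 * ga b (x - z) ∂ν := by
      unfold Jf th
      rw [← integral_const_mul, ← integral_const_mul, ← integral_add]
      · refine integral_congr_ae (Eventually.of_forall fun x => ?_)
        simp only
        rw [real_inner_self_eq_norm_sq]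
        ring
      · exact (Wid_int ν hb0.le z).const_mul _
      · exact (Wid_int2 ν (by linarith [hb.1]) z).const_mul _
    have h4 : 1 / (2 * b) * b ^ q * Jf n ν b z z =
        q * b ^ (q - 1) * th ν b z + b ^ q * ∫ x, -‖x - z‖ ^ 2 * ga b (x - z) ∂ν := by
      rw [h3, Real.rpow_sub_one hb0.ne', hq]
      field_simp
    rw [h4]
    exact h2
  have hbd : ∀ b ∈ Set.Icc (1 / 16 : ℝ) (1 / 2), ‖1 / (2 * b) * b ^ q * Jf n ν b z z‖ ≤ 8 * (C₀ * Real.sqrt (D z)) := by
    intro b hb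
    have hb0 : 0 < b := by linarith [hb.1]
    have h1 := hJ ν S D hS b hb.1 (by linarith [hb.2]) z hz z
    rw [sub_self, norm_zero, add_zero, one_pow, mul_one] at h1
    have h2 : 1 / (2 * b) ≤ 8 := by
      rw [div_le_iff₀ (by positivity)]
      linarith [hb.1]
    have h3 : b ^ q ≤ 1 := Real.rpow_le_one hb0.le (by linarith [hb.2]) hq0
    have h4 : 0 ≤ b ^ q := Real.rpow_nonneg hb0.le _
    have h5 : 0 ≤ 1 / (2 * b) := by positivity
    rw [norm_mul, Real.norm_of_nonneg (mul_nonneg h5 h4), Real.norm_eq_abs]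
    refine mul_le_mul ?_ h1 (abs_nonneg _) (by norm_num)
    calc 1 / (2 * b) * b ^ q ≤ 8 * 1 := mul_le_mul h2 h3 h4 (by norm_num)
      _ = 8 := by norm_num
  have hmv := (convex_Icc (1 / 16 : ℝ) (1 / 2)).norm_image_sub_le_of_norm_hasDerivWithin_le hder hbd
    (x := 1 / 2) (y := 1 / 16) (by constructor <;> norm_num) (by constructor <;> norm_num)
  have h1 : (1 / 16 : ℝ) ^ q = (4 ^ n)⁻¹ := by
    rw [hq, show (1 / 16 : ℝ) = (4⁻¹ : ℝ) ^ (2 : ℝ) by norm_num, ← Real.rpow_mul (by norm_num),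
      show (2 : ℝ) * (n / 2) = n by ring, Real.rpow_natCast, inv_pow]
  have h2 : (1 / 2 : ℝ) ^ q ≤ 1 := Real.rpow_le_one (by norm_num) (by norm_num) hq0
  have h3 : 0 ≤ th ν (1 / 2) z := integral_nonneg fun x => ga_nonneg _ _
  have h4 : 0 ≤ Real.sqrt (D z) := Real.sqrt_nonneg _
  have h5 : (1 / 16 : ℝ) ^ q * th ν (1 / 16) z ≤ th ν (1 / 2) z + 4 * C₀ * Real.sqrt (D z) := by
    have h6 := (le_abs_self _).trans hmv
    have h7 : ‖(1 / 16 : ℝ) - 1 / 2‖ = 7 / 16 := by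
      rw [Real.norm_eq_abs, abs_of_neg (by norm_num)]
      norm_num
    rw [h7] at h6
    have h8 : (1 / 2 : ℝ) ^ q * th ν (1 / 2) z ≤ 1 * th ν (1 / 2) z := mul_le_mul_of_nonneg_right h2 h3
    have h9 : 0 ≤ C₀ * Real.sqrt (D z) := by positivity
    linarith
  rw [h1] at h5
  have h10 : (0 : ℝ) < 4 ^ n := by positivity
  have h11 : th ν (1 / 16) z ≤ 4 ^ n * (th ν (1 / 2) z + 4 * C₀ * Real.sqrt (D z)) := by
    have := mul_le_mul_of_nonneg_left h5 h10.le
    rwa [← mul_assoc, mul_inv_cancel₀ h10.ne', one_mul] at this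
  refine h11.trans ?_
  rw [mul_assoc (4 ^ n : ℝ)]
  refine mul_le_mul_of_nonneg_left ?_ h10.le
  have h12 : 0 ≤ C₀ * th ν (1 / 2) z := by positivity
  nlinarith

end Pool.Agent.H1.LD
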