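import Pool.Agent.H1.LD.BndQ
import Pool.Agent.H1.LD.Wid

/-!
U_bound.  ν = 0 trivial.  θ = th ν (1/2) x > 0.  C1 = constant of th_wide.
Case B (th(1/16) > 2 C1 θ, so th(1/16) ≤ 2 C1 sqrt(D x)): ‖Uv ν (1/2) x‖ ≤ ∫ |v| ga (1/2) ≤ C th(1/16) ≤ C' sqrt(D x), so the square is ≤ C D x ≤ C Yf.
Case A (th(1/16) ≤ 2 C1 θ): eigenbasis (exists_Egb ν x), u_i = ⟪e i, U⟫, U = Uv ν (1/2) x.  Let B = Db + D x th(1/16) ≤ C θ Yf.
 If h i ≥ -θ/2: (θ/2) u_i^2 ≤ (θ+h i) u_i^2 ≤ ∑_j (θ+h j) u_j^2 = ∫ ga (1/2)(y-x) ⟪y-x,U⟫^2 dν(y) (Egb.quad) ≤ C B by U_diff (b = 1/2, at the point x): |⟪y-x,U⟫| ≤ C((1+|x-y|)^K sqrt(D y) + sqrt(D x)).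
 If h i < -θ/2: u_i = ∫ ga ⟪y-x,e i⟫ dν(y) and |⟪v,e i⟫| ≤ (2/θ)|h i||⟪v,e i⟫| = (2/θ)|⟪Hv x v, e i⟫| ≤ (2/θ)‖Hv ν x v‖; Cauchy-Schwarz: u_i^2 ≤ θ ∫ ga ⟪v,e i⟫^2 ≤ (4/θ) ∫ ga ‖Hv ν x v‖^2 ≤ C B/θ (Q_bound).
 So u_i^2 ≤ C B/θ ≤ C' Yf; sum over i.
-/

set_option autoImplicit false

open MeasureTheory Filter Topology Metric Set
open scoped RealInnerProductSpace ENNReal

namespace Pool.Agent.H1.LD

open Pool.Agent.RZ

variable {d : ℕ}

theorem bndU_gaint (ν : Measure (X d)) [IsFiniteMeasure ν] {b : ℝ} (hb : 0 < b) (x : X d) :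
    Integrable (fun y => ga b (y - x)) ν := by
  have := poly_int ν hb 0 x
  simpa using this

theorem bndU_meas (b : ℝ) (x : X d) : Continuous fun y : X d => ga b (y - x) :=
  (ga_continuous b).comp (continuous_id.sub continuous_const)

theorem bndU_Dint {n K : ℕ} {ν : Measure (X d)} {S : Set (X d)} {D : X d → ℝ}
    (h : Sd n K ν S D) {b : ℝ} (hb : 0 < b) (x : X d) :
    Integrable (fun y => ga b (y - x) * D y) ν := by
  refine h.int.mono ((bndU_meas b x).aestronglyMeasurable.mul h.int.aestronglyMeasurable) ?_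
  filter_upwards with y
  rw [norm_mul, Real.norm_of_nonneg (ga_nonneg _ _)]
  calc ga b (y - x) * ‖D y‖ ≤ 1 * ‖D y‖ :=
        mul_le_mul_of_nonneg_right (ga_le_one hb.le _) (norm_nonneg _)
    _ = ‖D y‖ := one_mul _

/-- the quadratic form of the eigenbasis bounds one term -/
theorem bndU_quad {n K : ℕ} {ν : Measure (X d)} {S : Set (X d)} {D : X d → ℝ}
    (h : Sd n K ν S D) {CU C3 : ℝ}
    (hU : ∀ z ∈ S, ∀ x ∈ S, ∀ y, |⟪z - x, Uv ν (1 / 2) y⟫| ≤
      CU * ((1 + ‖y - z‖) ^ K * Real.sqrt (D z) + (1 + ‖y - x‖) ^ K * Real.sqrt (D x)))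
    (h3 : ∀ v : X d, (1 + ‖v‖) ^ (2 * K) * ga (1 / 2) v ≤ C3 * ga (1 / 4) v)
    {x : X d} (hx : x ∈ S) :
    ∫ y, ga (1 / 2) (y - x) * ⟪y - x, Uv ν (1 / 2) x⟫ ^ 2 ∂ν ≤
      2 * CU ^ 2 * (C3 * Db ν D x + D x * th ν (1 / 2) x) := by
  have := h.fin
  have hg : Integrable (fun y => 2 * CU ^ 2 * (C3 * (ga (1 / 4) (y - x) * D y) +
      D x * ga (1 / 2) (y - x))) ν :=
    (((bndU_Dint h (by norm_num) x).const_mul C3).add
      ((bndU_gaint ν (by norm_num) x).const_mul (D x))).const_mul _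
  have h1 : ∫ y, ga (1 / 2) (y - x) * ⟪y - x, Uv ν (1 / 2) x⟫ ^ 2 ∂ν ≤
      ∫ y, 2 * CU ^ 2 * (C3 * (ga (1 / 4) (y - x) * D y) + D x * ga (1 / 2) (y - x)) ∂ν := by
    refine integral_mono_of_nonneg ?_ hg ?_
    · filter_upwards with y
      exact mul_nonneg (ga_nonneg _ _) (sq_nonneg _)
    · filter_upwards [h.ae] with y hy
      have h2 := hU y hy x hx x
      rw [sub_self, norm_zero, add_zero, one_pow, one_mul] at h2
      set p : ℝ := (1 + ‖x - y‖) ^ K with hp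
      set a : ℝ := Real.sqrt (D y)
      set c : ℝ := Real.sqrt (D x)
      have ha : a ^ 2 = D y := Real.sq_sqrt (h.nn y)
      have hc : c ^ 2 = D x := Real.sq_sqrt (h.nn x)
      have h4 : ⟪y - x, Uv ν (1 / 2) x⟫ ^ 2 ≤ 2 * CU ^ 2 * (p ^ 2 * D y + D x) := by
        have h5 : ⟪y - x, Uv ν (1 / 2) x⟫ ^ 2 ≤ (CU * (p * a + c)) ^ 2 := by
          rw [← sq_abs]
          exact pow_le_pow_left₀ (abs_nonneg _) h2 2
        rw [← ha, ← hc]
        nlinarith [mul_nonneg (sq_nonneg CU) (sq_nonneg (p * a - c))]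
      have h6 : p ^ 2 * ga (1 / 2) (y - x) ≤ C3 * ga (1 / 4) (y - x) := by
        have := h3 (y - x)
        rw [hp, ← pow_mul, mul_comm K 2, norm_sub_rev x y]
        exact this
      have h7 := mul_le_mul_of_nonneg_left h4 (ga_nonneg (1 / 2) (y - x))
      have h8 := mul_le_mul_of_nonneg_right h6 (h.nn y)
      have h9 := mul_le_mul_of_nonneg_left h8 (by positivity : 0 ≤ 2 * CU ^ 2)
      calc ga (1 / 2) (y - x) * ⟪y - x, Uv ν (1 / 2) x⟫ ^ 2
          ≤ ga (1 / 2) (y - x) * (2 * CU ^ 2 * (p ^ 2 * D y + D x)) := h7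
        _ = 2 * CU ^ 2 * (p ^ 2 * ga (1 / 2) (y - x) * D y) +
            2 * CU ^ 2 * (D x * ga (1 / 2) (y - x)) := by ring
        _ ≤ 2 * CU ^ 2 * (C3 * ga (1 / 4) (y - x) * D y) +
            2 * CU ^ 2 * (D x * ga (1 / 2) (y - x)) := by linarith
        _ = _ := by ring
  refine h1.trans (le_of_eq ?_)
  rw [integral_const_mul, integral_add ((bndU_Dint h (by norm_num) x).const_mul C3)
    ((bndU_gaint ν (by norm_num) x).const_mul (D x)), integral_const_mul, integral_const_mul]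
  rfl

/-- Cauchy-Schwarz for one coordinate -/
theorem bndU_cs (ν : Measure (X d)) [IsFiniteMeasure ν] (x a : X d)
    (hth : 0 < th ν (1 / 2) x) :
    ⟪Uv ν (1 / 2) x, a⟫ ^ 2 ≤
      th ν (1 / 2) x * ∫ y, ga (1 / 2) (y - x) * ⟪y - x, a⟫ ^ 2 ∂ν := by
  have hg := bndU_gaint ν (b := 1 / 2) (by norm_num) x
  have hbd : ∀ (m : ℕ), m ≤ 2 → Integrable (fun y => ga (1 / 2) (y - x) * ⟪y - x, a⟫ ^ m) ν := by
    intro m hm
    have h2 := (poly_int ν (b := 1 / 2) (by norm_num) m x).const_mul ((1 + ‖a‖) ^ m)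
    refine h2.mono ?_ ?_
    · exact ((bndU_meas (1 / 2) x).mul
        (((continuous_id.sub continuous_const).inner continuous_const).pow m)).aestronglyMeasurable
    · filter_upwards with y
      rw [norm_mul, norm_mul, norm_mul, Real.norm_of_nonneg (ga_nonneg _ _), norm_pow, norm_pow,
        norm_pow, Real.norm_of_nonneg (by positivity : (0 : ℝ) ≤ 1 + ‖a‖),
        Real.norm_of_nonneg (by positivity : (0 : ℝ) ≤ 1 + ‖y - x‖)]
      have h3 : ‖(⟪y - x, a⟫ : ℝ)‖ ≤ (1 + ‖a‖) * (1 + ‖y - x‖) := by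
        refine (norm_inner_le_norm _ _).trans ?_
        nlinarith [norm_nonneg a, norm_nonneg (y - x)]
      have h4 := pow_le_pow_left₀ (norm_nonneg _) h3 m
      rw [mul_pow] at h4
      calc ga (1 / 2) (y - x) * ‖(⟪y - x, a⟫ : ℝ)‖ ^ m
          ≤ ga (1 / 2) (y - x) * ((1 + ‖a‖) ^ m * (1 + ‖y - x‖) ^ m) :=
            mul_le_mul_of_nonneg_left h4 (ga_nonneg _ _)
        _ = _ := by ring
  have h1 := hbd 1 (by norm_num)
  have h2 := hbd 2 le_rfl
  simp only [pow_one] at h1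
  set t0 : ℝ := th ν (1 / 2) x with ht0
  have e0 : ∫ y, ga (1 / 2) (y - x) ∂ν = t0 := rfl
  have e1 : ∫ y, ga (1 / 2) (y - x) * ⟪y - x, a⟫ ∂ν = ⟪Uv ν (1 / 2) x, a⟫ :=
    (Uv_inner ν (by norm_num) x a).symm
  set u : ℝ := ⟪Uv ν (1 / 2) x, a⟫ with hu
  set q : ℝ := ∫ y, ga (1 / 2) (y - x) * ⟪y - x, a⟫ ^ 2 ∂ν with hq
  set t : ℝ := u / t0 with ht
  have h3 : 0 ≤ ∫ y, ga (1 / 2) (y - x) * (⟪y - x, a⟫ - t) ^ 2 ∂ν :=
    integral_nonneg fun y => mul_nonneg (ga_nonneg _ _) (sq_nonneg _)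
  have h4 : ∫ y, ga (1 / 2) (y - x) * (⟪y - x, a⟫ - t) ^ 2 ∂ν = q - 2 * t * u + t ^ 2 * t0 := by
    have h5 : (fun y => ga (1 / 2) (y - x) * (⟪y - x, a⟫ - t) ^ 2) =
        fun y => (ga (1 / 2) (y - x) * ⟪y - x, a⟫ ^ 2 -
          2 * t * (ga (1 / 2) (y - x) * ⟪y - x, a⟫)) + t ^ 2 * ga (1 / 2) (y - x) := by
      funext y
      ring
    have hs : Integrable (fun y => ga (1 / 2) (y - x) * ⟪y - x, a⟫ ^ 2 -
        2 * t * (ga (1 / 2) (y - x) * ⟪y - x, a⟫)) ν := h2.sub (h1.const_mul (2 * t))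
    rw [h5, integral_add hs (hg.const_mul _),
      integral_sub h2 (h1.const_mul _), integral_const_mul, integral_const_mul, e0, e1]
  rw [h4] at h3
  have h6 : t * t0 = u := by
    rw [ht]
    field_simp
  have h7 : q * t0 - u ^ 2 = (q - 2 * t * u + t ^ 2 * t0) * t0 := by
    have : t ^ 2 * t0 * t0 = u ^ 2 := by rw [← h6]; ring
    have h8 : 2 * t * u * t0 = 2 * u ^ 2 := by
      calc 2 * t * u * t0 = 2 * u * (t * t0) := by ring
        _ = 2 * u ^ 2 := by rw [h6]; ring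
    linarith [this, h8]
  have h8 : 0 ≤ (q - 2 * t * u + t ^ 2 * t0) * t0 := mul_nonneg h3 hth.le
  linarith

/-- crude bound of the first moment -/
theorem bndU_crude (d : ℕ) : ∃ C : ℝ, 0 < C ∧ ∀ (ν : Measure (X d)) [IsFiniteMeasure ν] (x : X d),
    ‖Uv ν (1 / 2) x‖ ≤ C * th ν (1 / 16) x := by
  obtain ⟨C, hC, h⟩ := poly_ga d 1 (b := 1 / 2) (b' := 1 / 16) (by norm_num)
  refine ⟨C, hC, fun ν _ x => ?_⟩
  have hg := (bndU_gaint ν (b := 1 / 16) (by norm_num) x).const_mul C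
  have h1 : ‖Uv ν (1 / 2) x‖ ≤ ∫ y, C * ga (1 / 16) (y - x) ∂ν := by
    refine norm_integral_le_of_norm_le hg ?_
    filter_upwards with y
    rw [norm_smul, Real.norm_of_nonneg (ga_nonneg _ _)]
    have h2 := h (y - x)
    rw [pow_one] at h2
    have h3 := ga_nonneg (1 / 2) (y - x)
    nlinarith [norm_nonneg (y - x)]
  rw [integral_const_mul] at h1
  exact h1

theorem U_bound (d n K : ℕ) : ∃ C : ℝ, 0 < C ∧ ∀ (ν : Measure (X d)) (S : Set (X d)) (D : X d → ℝ),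
    Sd n K ν S D → ∀ x ∈ S, ‖Uv ν (1 / 2) x‖ ^ 2 ≤ C * Yf ν D x := by
  obtain ⟨C1, hC1, hwide⟩ := th_wide d n K
  obtain ⟨CU, hCU, hU⟩ := U_diff d n K
  obtain ⟨C3, hC3, h3⟩ := poly_ga d (2 * K) (b := 1 / 2) (b' := 1 / 4) (by norm_num)
  obtain ⟨C5, hC5, h5⟩ := Q_bound d n K
  obtain ⟨C2, hC2, h2⟩ := bndU_crude d
  set C4 : ℝ := 2 * CU ^ 2 * (C3 + 1) with hC4
  have hC40 : 0 < C4 := by positivity
  set Ca : ℝ := 4 * C1 * C4 + 8 * C1 * C5 with hCa
  have hCa0 : 0 < Ca := by positivity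
  refine ⟨(2 * C1 * C2) ^ 2 + d * Ca + 1, by positivity, fun ν S D h x hx => ?_⟩
  have := h.fin
  have hD0 := h.nn x
  have hth0 := th_nonneg ν (1 / 2) x
  have hDb0 : 0 ≤ Db ν D x :=
    integral_nonneg fun y => mul_nonneg (ga_nonneg _ _) (h.nn y)
  have hYD : D x ≤ Yf ν D x := by
    unfold Yf
    have := div_nonneg hDb0 hth0
    linarith
  have hY0 : 0 ≤ Yf ν D x := hD0.trans hYD
  by_cases hν : ν = 0
  · have : Uv ν (1 / 2) x = 0 := by
      unfold Uv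
      rw [hν, integral_zero_measure]
    rw [this, norm_zero]
    have : (0 : ℝ) ≤ ((2 * C1 * C2) ^ 2 + d * Ca + 1) * Yf ν D x := by positivity
    simpa using this
  have hth : 0 < th ν (1 / 2) x := th_pos hν (by norm_num) x
  set θ : ℝ := th ν (1 / 2) x with hθ
  set T : ℝ := th ν (1 / 16) x with hT
  have hw : T ≤ C1 * (θ + Real.sqrt (D x)) := hwide ν S D h x hx
  have hTθ : θ ≤ T := by
    refine integral_mono (bndU_gaint ν (by norm_num) x) (bndU_gaint ν (by norm_num) x) ?_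
    intro y
    exact ga_anti (by norm_num) _
  by_cases hcase : T ≤ 2 * C1 * θ
  · -- case A
    have hB : Db ν D x + D x * T ≤ 2 * C1 * θ * Yf ν D x := by
      have e : 2 * C1 * θ * Yf ν D x = 2 * C1 * Db ν D x + 2 * C1 * θ * D x := by
        unfold Yf
        rw [← hθ]
        field_simp
      rw [e]
      have e1 : D x * T ≤ 2 * C1 * θ * D x := by
        calc D x * T ≤ D x * (2 * C1 * θ) := mul_le_mul_of_nonneg_left hcase hD0
          _ = _ := by ring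
      have e2 : Db ν D x ≤ 2 * C1 * Db ν D x := by nlinarith
      linarith
    have hB0 : 0 ≤ Db ν D x + D x * T := by
      have : 0 ≤ T := hth.le.trans hTθ
      positivity
    obtain ⟨e, hh, hE⟩ := exists_Egb ν x
    have hUs : ‖Uv ν (1 / 2) x‖ ^ 2 = ∑ i, ⟪e i, Uv ν (1 / 2) x⟫ ^ 2 := by
      have := e.sum_sq_norm_inner_right (Uv ν (1 / 2) x)
      rw [← this]
      refine Finset.sum_congr rfl fun i _ => ?_
      rw [Real.norm_eq_abs, sq_abs]
    have hquad := bndU_quad h (hU ν S D h (1 / 2) (by norm_num) (by norm_num)) h3 hx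
    rw [hE.quad] at hquad
    have hquad' : ∑ i, (θ + hh i) * ⟪e i, Uv ν (1 / 2) x⟫ ^ 2 ≤ C4 * (Db ν D x + D x * T) := by
      refine hquad.trans ?_
      rw [hC4]
      have e1 : D x * θ ≤ D x * T := mul_le_mul_of_nonneg_left hTθ hD0
      have e2 : 0 ≤ C3 * (D x * T) := by
        have : 0 ≤ T := hth.le.trans hTθ
        positivity
      have e3 : C3 * Db ν D x + D x * θ ≤ (C3 + 1) * (Db ν D x + D x * T) := by nlinarith
      calc 2 * CU ^ 2 * (C3 * Db ν D x + D x * θ)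
          ≤ 2 * CU ^ 2 * ((C3 + 1) * (Db ν D x + D x * T)) :=
            mul_le_mul_of_nonneg_left e3 (by positivity)
        _ = _ := by ring
    have hsq : ∑ i, hh i ^ 2 * (θ + hh i) ≤ C5 * (Db ν D x + D x * T) := by
      have := h5 ν S D h x hx
      rw [hE.sq] at this
      exact this
    have hterm : ∀ i, ⟪e i, Uv ν (1 / 2) x⟫ ^ 2 ≤ Ca * Yf ν D x := by
      intro i
      rcases le_or_gt (-(θ / 2)) (hh i) with hi | hi
      · have h6 : (θ + hh i) * ⟪e i, Uv ν (1 / 2) x⟫ ^ 2 ≤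
            ∑ j, (θ + hh j) * ⟪e j, Uv ν (1 / 2) x⟫ ^ 2 :=
          Finset.single_le_sum (f := fun j => (θ + hh j) * ⟪e j, Uv ν (1 / 2) x⟫ ^ 2)
            (fun j _ => mul_nonneg (hE.nn j) (sq_nonneg _)) (Finset.mem_univ i)
        have h7 : θ / 2 * ⟪e i, Uv ν (1 / 2) x⟫ ^ 2 ≤ (θ + hh i) * ⟪e i, Uv ν (1 / 2) x⟫ ^ 2 :=
          mul_le_mul_of_nonneg_right (by linarith) (sq_nonneg _)
        have h8 : C4 * (Db ν D x + D x * T) ≤ C4 * (2 * C1 * θ * Yf ν D x) :=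
          mul_le_mul_of_nonneg_left hB hC40.le
        have h9 : θ / 2 * ⟪e i, Uv ν (1 / 2) x⟫ ^ 2 ≤ θ / 2 * (4 * C1 * C4 * Yf ν D x) := by
          calc θ / 2 * ⟪e i, Uv ν (1 / 2) x⟫ ^ 2 ≤ C4 * (2 * C1 * θ * Yf ν D x) := by linarith
            _ = _ := by ring
        have h10 := le_of_mul_le_mul_left h9 (by linarith : 0 < θ / 2)
        refine h10.trans ?_
        rw [hCa]
        have : 0 ≤ 8 * C1 * C5 * Yf ν D x := by positivity
        linarith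
      · have h6 : hh i ^ 2 * (θ + hh i) ≤ ∑ j, hh j ^ 2 * (θ + hh j) :=
          Finset.single_le_sum (f := fun j => hh j ^ 2 * (θ + hh j))
            (fun j _ => mul_nonneg (sq_nonneg _) (hE.nn j)) (Finset.mem_univ i)
        have h7 : (θ / 2) ^ 2 ≤ hh i ^ 2 := by nlinarith
        have h8 : (θ / 2) ^ 2 * (θ + hh i) ≤ hh i ^ 2 * (θ + hh i) :=
          mul_le_mul_of_nonneg_right h7 (hE.nn i)
        have h9 : (θ / 2) ^ 2 * (θ + hh i) ≤ C5 * (2 * C1 * θ * Yf ν D x) := by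
          have := mul_le_mul_of_nonneg_left hB hC5.le
          linarith
        have hcs := bndU_cs ν x (e i) hth
        have hqi : ∫ y, ga (1 / 2) (y - x) * ⟪y - x, e i⟫ ^ 2 ∂ν = θ + hh i := by
          rw [hE.quad, Finset.sum_eq_single i]
          · rw [real_inner_self_eq_norm_sq, e.norm_eq_one]
            ring
          · intro j _ hj
            rw [e.inner_eq_zero hj]
            ring
          · intro hni
            exact absurd (Finset.mem_univ i) hni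
        rw [hqi, real_inner_comm] at hcs
        refine hcs.trans ?_
        have h10 : θ / 4 * (θ * (θ + hh i)) ≤ θ / 4 * (8 * C1 * C5 * Yf ν D x) := by
          calc θ / 4 * (θ * (θ + hh i)) = (θ / 2) ^ 2 * (θ + hh i) := by ring
            _ ≤ C5 * (2 * C1 * θ * Yf ν D x) := h9
            _ = _ := by ring
        have h11 := le_of_mul_le_mul_left h10 (by linarith : 0 < θ / 4)
        refine h11.trans ?_
        rw [hCa]
        have : 0 ≤ 4 * C1 * C4 * Yf ν D x := by positivity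
        linarith
    rw [hUs]
    calc ∑ i, ⟪e i, Uv ν (1 / 2) x⟫ ^ 2 ≤ ∑ _i : Fin d, Ca * Yf ν D x :=
          Finset.sum_le_sum fun i _ => hterm i
      _ = d * (Ca * Yf ν D x) := by
          rw [Finset.sum_const, Finset.card_univ, Fintype.card_fin, nsmul_eq_mul]
      _ ≤ ((2 * C1 * C2) ^ 2 + d * Ca + 1) * Yf ν D x := by
          have : 0 ≤ ((2 * C1 * C2) ^ 2 + 1) * Yf ν D x := by positivity
          linarith
  · -- case B
    push Not at hcase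
    have hT2 : T ≤ 2 * C1 * Real.sqrt (D x) := by nlinarith
    have h6 : ‖Uv ν (1 / 2) x‖ ≤ 2 * C1 * C2 * Real.sqrt (D x) := by
      calc ‖Uv ν (1 / 2) x‖ ≤ C2 * T := h2 ν x
        _ ≤ C2 * (2 * C1 * Real.sqrt (D x)) := mul_le_mul_of_nonneg_left hT2 hC2.le
        _ = _ := by ring
    have h7 : ‖Uv ν (1 / 2) x‖ ^ 2 ≤ (2 * C1 * C2) ^ 2 * D x := by
      calc ‖Uv ν (1 / 2) x‖ ^ 2 ≤ (2 * C1 * C2 * Real.sqrt (D x)) ^ 2 :=
            pow_le_pow_left₀ (norm_nonneg _) h6 2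
        _ = (2 * C1 * C2) ^ 2 * D x := by rw [mul_pow, Real.sq_sqrt hD0]
    have h8 : (2 * C1 * C2) ^ 2 * D x ≤ (2 * C1 * C2) ^ 2 * Yf ν D x :=
      mul_le_mul_of_nonneg_left hYD (by positivity)
    have h9 : 0 ≤ (d * Ca + 1) * Yf ν D x := by positivity
    linarith

end Pool.Agent.H1.LD
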