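import Pool.Agent.H1.LD.BndQ
import Pool.Agent.H1.LD.Wid
import Pool.Agent.H1.LD.Alg

/-!
E_bound.  If ν = 0 both sides are trivial (Ef = 0, Yf = D x ≥ 0).  Else θ = th ν (1/2) x > 0 (th_pos).  Let (e, h) be from exists_Egb ν x.  Let C1 be the constant of th_wide.
Case A: th ν (1/16) x ≤ 2 C1 θ.  eig_alg with Q = C(Db + D th(1/16)) (Q_bound and Egb.sq) and g = C sqrt(D x) (Egb.tr, J_wide with b = 1/2, y = z = x):
 |Ef| = |(d-n)θ^2 - ∑ h^2| ≤ C (Q/θ + g^2) ≤ C (Db/θ + 2 C1 D + D) ≤ C' Yf.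
Case B: otherwise th ν (1/16) x ≤ C1(θ + sqrt D) and > 2 C1 θ give th ν (1/16) x ≤ 2 C1 sqrt(D x); |Ef| ≤ ∬ (|v|^2+|v'|^2+n+|v|^2|v'|^2) ga ga ≤ C th(1/16)^2 ≤ C' D x ≤ C' Yf
 ((1+|v|)^2 ga (1/2) v ≤ C ga (1/16) v).
-/

set_option autoImplicit false

open MeasureTheory Filter Topology Metric Set
open scoped RealInnerProductSpace ENNReal

namespace Pool.Agent.H1.LD

open Pool.Agent.RZ

variable {d : ℕ}

theorem BndE_int (ν : Measure (X d)) [IsFiniteMeasure ν] (y : X d) :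
    Integrable (fun x => ga (1 / 16) (x - y)) ν := by
  have h := poly_int ν (b := 1 / 16) (by norm_num) 0 y
  simpa using h

/-- crude bound -/
theorem BndE_crude (n : ℕ) (ν : Measure (X d)) [IsFiniteMeasure ν] (y : X d) {CP : ℝ} (hCP : 0 < CP)
    (hP : ∀ v : X d, (1 + ‖v‖) ^ 2 * ga (1 / 2) v ≤ CP * ga (1 / 16) v) :
    |Ef n ν y| ≤ (n + 1) * CP ^ 2 * th ν (1 / 16) y ^ 2 := by
  have key : ∀ v w : X d, |(‖v‖ ^ 2 + ‖w‖ ^ 2 - n - ⟪v, w⟫ ^ 2) * (ga (1 / 2) v * ga (1 / 2) w)| ≤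
      (n + 1) * CP ^ 2 * ga (1 / 16) v * ga (1 / 16) w := by
    intro v w
    have hv := hP v
    have hw := hP w
    have hin : ⟪v, w⟫ ^ 2 ≤ ‖v‖ ^ 2 * ‖w‖ ^ 2 := by
      have h1 := abs_real_inner_le_norm v w
      have h2 : |⟪v, w⟫| ^ 2 ≤ (‖v‖ * ‖w‖) ^ 2 := pow_le_pow_left₀ (abs_nonneg _) h1 2
      rw [sq_abs] at h2
      calc ⟪v, w⟫ ^ 2 ≤ (‖v‖ * ‖w‖) ^ 2 := h2
        _ = _ := by ring
    have hin0 : 0 ≤ ⟪v, w⟫ ^ 2 := sq_nonneg _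
    have hn0 : (0 : ℝ) ≤ n := Nat.cast_nonneg n
    have hv0 := norm_nonneg v
    have hw0 := norm_nonneg w
    generalize hi : ⟪v, w⟫ ^ 2 = i at *
    have hga : 0 ≤ ga (1 / 2) v * ga (1 / 2) w := mul_nonneg (ga_nonneg _ _) (ga_nonneg _ _)
    have hpol : |‖v‖ ^ 2 + ‖w‖ ^ 2 - n - i| ≤ (n + 1) * ((1 + ‖v‖) ^ 2 * (1 + ‖w‖) ^ 2) := by
      have hA : 1 + ‖v‖ ^ 2 ≤ (1 + ‖v‖) ^ 2 := by nlinarith
      have hB : 1 + ‖w‖ ^ 2 ≤ (1 + ‖w‖) ^ 2 := by nlinarith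
      have hAB : (1 + ‖v‖ ^ 2) * (1 + ‖w‖ ^ 2) ≤ (1 + ‖v‖) ^ 2 * (1 + ‖w‖) ^ 2 :=
        mul_le_mul hA hB (by positivity) (by positivity)
      have hAB1 : 1 ≤ (1 + ‖v‖) ^ 2 * (1 + ‖w‖) ^ 2 := by nlinarith [sq_nonneg ‖v‖, sq_nonneg ‖w‖]
      have hnn : (n : ℝ) ≤ n * ((1 + ‖v‖) ^ 2 * (1 + ‖w‖) ^ 2) := by nlinarith
      rw [abs_le]
      constructor <;> nlinarith [sq_nonneg ‖v‖, sq_nonneg ‖w‖]
    rw [abs_mul, abs_of_nonneg hga]
    calc |‖v‖ ^ 2 + ‖w‖ ^ 2 - n - i| * (ga (1 / 2) v * ga (1 / 2) w)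
        ≤ ((n + 1) * ((1 + ‖v‖) ^ 2 * (1 + ‖w‖) ^ 2)) * (ga (1 / 2) v * ga (1 / 2) w) :=
          mul_le_mul_of_nonneg_right hpol hga
      _ = (n + 1) * (((1 + ‖v‖) ^ 2 * ga (1 / 2) v) * ((1 + ‖w‖) ^ 2 * ga (1 / 2) w)) := by ring
      _ ≤ (n + 1) * ((CP * ga (1 / 16) v) * (CP * ga (1 / 16) w)) := by
          apply mul_le_mul_of_nonneg_left _ (by positivity)
          apply mul_le_mul hv hw
          · exact mul_nonneg (by positivity) (ga_nonneg _ _)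
          · exact mul_nonneg hCP.le (ga_nonneg _ _)
      _ = _ := by ring
  have hint := BndE_int ν y
  have hinner : ∀ x : X d, ‖∫ x', (‖x - y‖ ^ 2 + ‖x' - y‖ ^ 2 - n - ⟪x - y, x' - y⟫ ^ 2) *
      (ga (1 / 2) (x - y) * ga (1 / 2) (x' - y)) ∂ν‖ ≤
      ((n + 1) * CP ^ 2 * th ν (1 / 16) y) * ga (1 / 16) (x - y) := by
    intro x
    have h1 := norm_integral_le_of_norm_le
      (f := fun x' => (‖x - y‖ ^ 2 + ‖x' - y‖ ^ 2 - n - ⟪x - y, x' - y⟫ ^ 2) *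
        (ga (1 / 2) (x - y) * ga (1 / 2) (x' - y)))
      (hint.const_mul ((n + 1) * CP ^ 2 * ga (1 / 16) (x - y)))
      (Eventually.of_forall fun x' => by
        rw [Real.norm_eq_abs]
        exact key (x - y) (x' - y))
    rw [integral_const_mul] at h1
    calc _ ≤ _ := h1
      _ = _ := by unfold th; ring
  have h2 := norm_integral_le_of_norm_le
    (f := fun x => ∫ x', (‖x - y‖ ^ 2 + ‖x' - y‖ ^ 2 - n - ⟪x - y, x' - y⟫ ^ 2) *
      (ga (1 / 2) (x - y) * ga (1 / 2) (x' - y)) ∂ν)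
    (hint.const_mul ((n + 1) * CP ^ 2 * th ν (1 / 16) y))
    (Eventually.of_forall hinner)
  rw [integral_const_mul, Real.norm_eq_abs] at h2
  unfold Ef
  calc _ ≤ _ := h2
    _ = _ := by unfold th; ring

theorem E_bound (d n K : ℕ) : ∃ C : ℝ, 0 < C ∧ ∀ (ν : Measure (X d)) (S : Set (X d)) (D : X d → ℝ),
    Sd n K ν S D → ∀ x ∈ S, |Ef n ν x| ≤ C * Yf ν D x := by
  obtain ⟨CQ, hCQ, hQ⟩ := Q_bound d n K
  obtain ⟨C1, hC1, hW⟩ := th_wide d n K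
  obtain ⟨CJ, hCJ, hJ⟩ := J_wide d n K
  obtain ⟨CA, hCA, hA⟩ := eig_alg d n
  obtain ⟨CP, hCP, hP⟩ := poly_ga d 2 (b := 1 / 2) (b' := 1 / 16) (by norm_num)
  have hn0 : (0 : ℝ) ≤ n := Nat.cast_nonneg n
  refine ⟨CA * (CQ + 2 * C1 * CQ + CJ ^ 2) + (n + 1) * CP ^ 2 * (4 * C1 ^ 2) + 1, by positivity,
    ?_⟩
  intro ν S D hS x hx
  have := hS.fin
  have hD0 := hS.nn x
  have hDb0 : 0 ≤ Db ν D x := integral_nonneg fun y => mul_nonneg (ga_nonneg _ _) (hS.nn y)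
  have hθ0 := th_nonneg ν (1 / 2) x
  have hY0 : 0 ≤ Yf ν D x := add_nonneg (div_nonneg hDb0 hθ0) hD0
  have hC0 : 0 ≤ CA * (CQ + 2 * C1 * CQ + CJ ^ 2) := by positivity
  have hC0' : 0 ≤ (n + 1) * CP ^ 2 * (4 * C1 ^ 2) := by positivity
  rcases eq_or_ne ν 0 with hν | hν
  · have h0 : Ef n ν x = 0 := by
      unfold Ef
      rw [hν, integral_zero_measure]
    rw [h0, abs_zero]
    exact mul_nonneg (by linarith) hY0
  have hθ := th_pos hν (b := 1 / 2) (by norm_num) x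
  have hsq := Real.sq_sqrt hD0
  have hsq0 := Real.sqrt_nonneg (D x)
  have hWx := hW ν S D hS x hx
  have hW0 := th_nonneg ν (1 / 16) x
  by_cases hcase : th ν (1 / 16) x ≤ 2 * C1 * th ν (1 / 2) x
  · obtain ⟨e, h, hE⟩ := exists_Egb ν x
    have h1 : ∑ i, h i ^ 2 * (th ν (1 / 2) x + h i) ≤
        CQ * (Db ν D x + D x * th ν (1 / 16) x) := by
      rw [← hE.sq]
      have h2 := hQ ν S D hS x hx
      exact h2
    have h3 : |∑ i, h i + (d - n) * th ν (1 / 2) x| ≤ CJ * Real.sqrt (D x) := by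
      rw [hE.tr n, abs_neg]
      have h4 := hJ ν S D hS (1 / 2) (by norm_num) (by norm_num) x hx x
      rw [sub_self, norm_zero, add_zero, one_pow, mul_one] at h4
      exact h4
    have h5 := hA (th ν (1 / 2) x) h (CQ * (Db ν D x + D x * th ν (1 / 16) x))
      (CJ * Real.sqrt (D x)) hθ hE.nn (by positivity) (by positivity) h1 h3
    rw [← hE.ef n] at h5
    have h6 : CQ * (Db ν D x + D x * th ν (1 / 16) x) / th ν (1 / 2) x ≤
        CQ * (Db ν D x / th ν (1 / 2) x) + 2 * C1 * CQ * D x := by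
      rw [div_le_iff₀ hθ]
      have h7 : (CQ * (Db ν D x / th ν (1 / 2) x) + 2 * C1 * CQ * D x) * th ν (1 / 2) x =
          CQ * Db ν D x + CQ * D x * (2 * C1 * th ν (1 / 2) x) := by
        field_simp
      rw [h7]
      have h8 : CQ * D x * th ν (1 / 16) x ≤ CQ * D x * (2 * C1 * th ν (1 / 2) x) :=
        mul_le_mul_of_nonneg_left hcase (by positivity)
      linarith
    have h9 : (CJ * Real.sqrt (D x)) ^ 2 = CJ ^ 2 * D x := by rw [mul_pow, hsq]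
    rw [h9] at h5
    have hdiv : 0 ≤ Db ν D x / th ν (1 / 2) x := div_nonneg hDb0 hθ0
    have h10 : |Ef n ν x| ≤ CA * (CQ + 2 * C1 * CQ + CJ ^ 2) * Yf ν D x := by
      calc |Ef n ν x| ≤ CA * (CQ * (Db ν D x + D x * th ν (1 / 16) x) / th ν (1 / 2) x +
            CJ ^ 2 * D x) := h5
        _ ≤ CA * ((CQ * (Db ν D x / th ν (1 / 2) x) + 2 * C1 * CQ * D x) + CJ ^ 2 * D x) := by
            gcongr
        _ ≤ CA * ((CQ + 2 * C1 * CQ + CJ ^ 2) * Yf ν D x) := by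
            apply mul_le_mul_of_nonneg_left _ hCA.le
            unfold Yf
            have e1 : 0 ≤ (2 * C1 * CQ + CJ ^ 2) * (Db ν D x / th ν (1 / 2) x) := by positivity
            have e2 : 0 ≤ CQ * D x := by positivity
            linarith
        _ = _ := by ring
    calc |Ef n ν x| ≤ _ := h10
      _ ≤ _ := mul_le_mul_of_nonneg_right (by linarith) hY0
  · rw [not_le] at hcase
    have h1 : th ν (1 / 16) x ≤ 2 * C1 * Real.sqrt (D x) := by nlinarith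
    have h2 : th ν (1 / 16) x ^ 2 ≤ 4 * C1 ^ 2 * D x := by
      calc th ν (1 / 16) x ^ 2 ≤ (2 * C1 * Real.sqrt (D x)) ^ 2 := pow_le_pow_left₀ hW0 h1 2
        _ = 4 * C1 ^ 2 * Real.sqrt (D x) ^ 2 := by ring
        _ = _ := by rw [hsq]
    have h3 := BndE_crude n ν x hCP hP
    have h4 : D x ≤ Yf ν D x := by
      unfold Yf
      have := div_nonneg hDb0 hθ0
      linarith
    calc |Ef n ν x| ≤ (n + 1) * CP ^ 2 * th ν (1 / 16) x ^ 2 := h3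
      _ ≤ (n + 1) * CP ^ 2 * (4 * C1 ^ 2 * D x) := by gcongr
      _ = (n + 1) * CP ^ 2 * (4 * C1 ^ 2) * D x := by ring
      _ ≤ (n + 1) * CP ^ 2 * (4 * C1 ^ 2) * Yf ν D x := by gcongr
      _ ≤ _ := mul_le_mul_of_nonneg_right (by linarith) hY0

end Pool.Agent.H1.LD
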