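import Pool.Agent.H1.LD.EigA

/-!
exists_Egb.  a ↦ Hv ν y a is a symmetric linear operator T on X d (EigA); take the eigenvector basis (LinearMap.IsSymmetric.eigenvectorBasis, eigenvalues; Module.finrank = d) .
Put θ = th ν (1/2) y, N(a,c) = ∫ ga (1/2)(x-y) ⟪x-y,a⟫⟪x-y,c⟫ dν = θ⟪a,c⟫ + ⟪Hv a, c⟫ (Hv_inner).
 quad: expand a in the basis: N(a,a) = ∑ (θ+h i)⟪e i,a⟫^2.   nn: quad (or N) with a = e i.   app: Hv_symm.
 tr: ∑ N(e i, e i) = ∫ ga |x-y|^2 = dθ + ∑ h i and Jf n ν (1/2) y y = ∫ (n - |x-y|^2) ga.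
 sq: ‖Hv (x-y)‖^2 = ∑ (h i ⟪x-y,e i⟫)^2 (app, Parseval), integrate: ∑ h i^2 N(e i,e i).
 ef: for fixed x the inner integral of Ef is |v|^2 θ + M - nθ - N(v,v), v = x-y, M = ∫ ga |x'-y|^2 = dθ+∑h i, N(v,v) = ∑ (θ+h i)⟪e i,v⟫^2;
     integrate in x: 2θM - nθ^2 - ∑ (θ+h i)^2 = (d-n)θ^2 - ∑ h i^2.
-/

set_option autoImplicit false

open MeasureTheory Filter Topology Metric Set
open scoped RealInnerProductSpace ENNReal

namespace Pool.Agent.H1.LD

open Pool.Agent.RZ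

variable {d : ℕ}

/-- an orthonormal eigenbasis of the Hessian, with all the identities used later -/
structure Egb (ν : Measure (X d)) (y : X d) (e : OrthonormalBasis (Fin d) ℝ (X d))
    (h : Fin d → ℝ) : Prop where
  eig : ∀ i, Hv ν y (e i) = h i • e i
  nn : ∀ i, 0 ≤ th ν (1 / 2) y + h i
  quad : ∀ a : X d, ∫ x, ga (1 / 2) (x - y) * ⟪x - y, a⟫ ^ 2 ∂ν =
    ∑ i, (th ν (1 / 2) y + h i) * ⟪e i, a⟫ ^ 2
  tr : ∀ n : ℕ, ∑ i, h i + (d - n) * th ν (1 / 2) y = -Jf n ν (1 / 2) y y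
  sq : ∫ x, ga (1 / 2) (x - y) * ‖Hv ν y (x - y)‖ ^ 2 ∂ν = ∑ i, h i ^ 2 * (th ν (1 / 2) y + h i)
  ef : ∀ n : ℕ, Ef n ν y = (d - n) * th ν (1 / 2) y ^ 2 - ∑ i, h i ^ 2
  app : ∀ v i, ⟪Hv ν y v, e i⟫ = h i * ⟪v, e i⟫

/-- integrability against the Gaussian -/
theorem eig_int (ν : Measure (X d)) [IsFiniteMeasure ν] (y : X d) {f : X d → ℝ} (hf : Continuous f)
    (C : ℝ) (m : ℕ) (h : ∀ x, |f x| ≤ C * (1 + ‖x - y‖) ^ m) :
    Integrable (fun x => ga (1 / 2) (x - y) * f x) ν := by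
  have h1 : Integrable (fun x => C * ((1 + ‖x - y‖) ^ m * ga (1 / 2) (x - y))) ν :=
    (poly_int ν (by norm_num : (0 : ℝ) < 1 / 2) m y).const_mul C
  have hc : Continuous fun x : X d => ga (1 / 2) (x - y) * f x :=
    ((ga_continuous (1 / 2)).comp (continuous_id.sub continuous_const)).mul hf
  refine h1.mono' hc.aestronglyMeasurable (ae_of_all _ fun x => ?_)
  rw [Real.norm_eq_abs, abs_mul, abs_of_nonneg (ga_nonneg _ _)]
  calc ga (1 / 2) (x - y) * |f x| ≤ ga (1 / 2) (x - y) * (C * (1 + ‖x - y‖) ^ m) :=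
        mul_le_mul_of_nonneg_left (h x) (ga_nonneg _ _)
    _ = C * ((1 + ‖x - y‖) ^ m * ga (1 / 2) (x - y)) := by ring

theorem eig_int_one (ν : Measure (X d)) [IsFiniteMeasure ν] (y : X d) :
    Integrable (fun x => ga (1 / 2) (x - y)) ν := by
  have h := eig_int ν y (f := fun _ => (1 : ℝ)) continuous_const 1 0 (fun x => by simp)
  simpa using h

theorem eig_int_inner (ν : Measure (X d)) [IsFiniteMeasure ν] (y a c : X d) :
    Integrable (fun x => ga (1 / 2) (x - y) * (⟪x - y, a⟫ * ⟪x - y, c⟫)) ν := by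
  refine eig_int ν y (f := fun x => ⟪x - y, a⟫ * ⟪x - y, c⟫) (by fun_prop) (‖a‖ * ‖c‖) 2 fun x => ?_
  rw [abs_mul]
  have h1 : |⟪x - y, a⟫| ≤ ‖x - y‖ * ‖a‖ := abs_real_inner_le_norm _ _
  have h2 : |⟪x - y, c⟫| ≤ ‖x - y‖ * ‖c‖ := abs_real_inner_le_norm _ _
  have h0 : 0 ≤ ‖x - y‖ := norm_nonneg _
  calc |⟪x - y, a⟫| * |⟪x - y, c⟫| ≤ (‖x - y‖ * ‖a‖) * (‖x - y‖ * ‖c‖) :=
        mul_le_mul h1 h2 (abs_nonneg _) (by positivity)
    _ = ‖a‖ * ‖c‖ * ‖x - y‖ ^ 2 := by ring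
    _ ≤ ‖a‖ * ‖c‖ * (1 + ‖x - y‖) ^ 2 := by
        refine mul_le_mul_of_nonneg_left ?_ (by positivity)
        exact pow_le_pow_left₀ h0 (by linarith) 2

theorem eig_int_sq (ν : Measure (X d)) [IsFiniteMeasure ν] (y a : X d) :
    Integrable (fun x => ga (1 / 2) (x - y) * ⟪x - y, a⟫ ^ 2) ν := by
  refine (eig_int_inner ν y a a).congr (ae_of_all _ fun x => ?_)
  simp only []
  ring

theorem eig_int_norm (ν : Measure (X d)) [IsFiniteMeasure ν] (y : X d) :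
    Integrable (fun x => ga (1 / 2) (x - y) * ‖x - y‖ ^ 2) ν := by
  refine eig_int ν y (f := fun x => ‖x - y‖ ^ 2) (by fun_prop) 1 2 fun x => ?_
  rw [abs_of_nonneg (by positivity), one_mul]
  exact pow_le_pow_left₀ (norm_nonneg _) (by linarith) 2

/-- the form `N` -/
theorem eig_N (ν : Measure (X d)) [IsFiniteMeasure ν] (y a : X d) :
    ∫ x, ga (1 / 2) (x - y) * ⟪x - y, a⟫ ^ 2 ∂ν = th ν (1 / 2) y * ‖a‖ ^ 2 + ⟪Hv ν y a, a⟫ := by
  rw [Hv_inner]
  have e1 : ∀ x, ga (1 / 2) (x - y) * (⟪x - y, a⟫ * ⟪x - y, a⟫ - ⟪a, a⟫)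
      = ga (1 / 2) (x - y) * ⟪x - y, a⟫ ^ 2 - ga (1 / 2) (x - y) * ‖a‖ ^ 2 := by
    intro x
    rw [real_inner_self_eq_norm_sq]
    ring
  simp_rw [e1]
  rw [integral_sub (eig_int_sq ν y a) ((eig_int_one ν y).mul_const _), integral_mul_const]
  unfold th
  ring

theorem eig_parseval (e : OrthonormalBasis (Fin d) ℝ (X d)) (v : X d) :
    ∑ i, ⟪v, e i⟫ ^ 2 = ‖v‖ ^ 2 := by
  rw [← real_inner_self_eq_norm_sq, ← e.sum_inner_mul_inner v v]
  refine Finset.sum_congr rfl fun i _ => ?_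
  rw [real_inner_comm v (e i)]
  ring

theorem exists_Egb (ν : Measure (X d)) [IsFiniteMeasure ν] (y : X d) :
    ∃ (e : OrthonormalBasis (Fin d) ℝ (X d)) (h : Fin d → ℝ), Egb ν y e h := by
  classical
  let T : X d →ₗ[ℝ] X d :=
    { toFun := Hv ν y
      map_add' := fun a c => Hv_add ν y a c
      map_smul' := fun s a => Hv_smul ν y a s }
  have hT : T.IsSymmetric := fun a c => Hv_symm ν y a c
  have hn : Module.finrank ℝ (X d) = d := finrank_euclideanSpace_fin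
  let e : OrthonormalBasis (Fin d) ℝ (X d) := hT.eigenvectorBasis hn
  let h : Fin d → ℝ := hT.eigenvalues hn
  have eig : ∀ i, Hv ν y (e i) = h i • e i := fun i => hT.apply_eigenvectorBasis hn i
  have app : ∀ v i, ⟪Hv ν y v, e i⟫ = h i * ⟪v, e i⟫ := by
    intro v i
    rw [Hv_symm, eig, inner_smul_right]
  have hNi : ∀ i, ∫ x, ga (1 / 2) (x - y) * ⟪x - y, e i⟫ ^ 2 ∂ν = th ν (1 / 2) y + h i := by
    intro i
    rw [eig_N, app, real_inner_self_eq_norm_sq, e.norm_eq_one]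
    ring
  have nn : ∀ i, 0 ≤ th ν (1 / 2) y + h i := by
    intro i
    rw [← hNi]
    exact integral_nonneg fun x => mul_nonneg (ga_nonneg _ _) (sq_nonneg _)
  have quad : ∀ a : X d, ∫ x, ga (1 / 2) (x - y) * ⟪x - y, a⟫ ^ 2 ∂ν =
      ∑ i, (th ν (1 / 2) y + h i) * ⟪e i, a⟫ ^ 2 := by
    intro a
    rw [eig_N]
    have h1 : ⟪Hv ν y a, a⟫ = ∑ i, h i * ⟪e i, a⟫ ^ 2 := by
      rw [← e.sum_inner_mul_inner (Hv ν y a) a]
      refine Finset.sum_congr rfl fun i _ => ?_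
      rw [app, real_inner_comm (e i) a]
      ring
    have h2 : ‖a‖ ^ 2 = ∑ i, ⟪e i, a⟫ ^ 2 := by
      rw [← eig_parseval e a]
      refine Finset.sum_congr rfl fun i _ => ?_
      rw [real_inner_comm a (e i)]
    rw [h1, h2, Finset.mul_sum, ← Finset.sum_add_distrib]
    refine Finset.sum_congr rfl fun i _ => ?_
    ring
  have hM : ∫ x, ga (1 / 2) (x - y) * ‖x - y‖ ^ 2 ∂ν = ∑ i, (th ν (1 / 2) y + h i) := by
    have e1 : ∀ x, ga (1 / 2) (x - y) * ‖x - y‖ ^ 2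
        = ∑ i, ga (1 / 2) (x - y) * ⟪x - y, e i⟫ ^ 2 := by
      intro x
      rw [← Finset.mul_sum, eig_parseval]
    simp_rw [e1]
    rw [integral_finsetSum _ fun i _ => eig_int_sq ν y (e i)]
    exact Finset.sum_congr rfl fun i _ => hNi i
  have hM' : ∑ i, (th ν (1 / 2) y + h i) = d * th ν (1 / 2) y + ∑ i, h i := by
    rw [Finset.sum_add_distrib, Finset.sum_const, Finset.card_univ, Fintype.card_fin, nsmul_eq_mul]
  refine ⟨e, h, ⟨eig, nn, quad, ?_, ?_, ?_, app⟩⟩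
  · intro n
    have e1 : ∀ x, ((n : ℝ) - 2 * (1 / 2) * ⟪x - y, x - y⟫) * ga (1 / 2) (x - y)
        = n * ga (1 / 2) (x - y) - ga (1 / 2) (x - y) * ‖x - y‖ ^ 2 := by
      intro x
      rw [real_inner_self_eq_norm_sq]
      ring
    unfold Jf
    simp_rw [e1]
    rw [integral_sub ((eig_int_one ν y).const_mul _) (eig_int_norm ν y), integral_const_mul, hM, hM']
    unfold th
    ring
  · have e1 : ∀ x, ga (1 / 2) (x - y) * ‖Hv ν y (x - y)‖ ^ 2
        = ∑ i, h i ^ 2 * (ga (1 / 2) (x - y) * ⟪x - y, e i⟫ ^ 2) := by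
      intro x
      rw [← eig_parseval e (Hv ν y (x - y)), Finset.mul_sum]
      refine Finset.sum_congr rfl fun i _ => ?_
      rw [app]
      ring
    simp_rw [e1]
    rw [integral_finsetSum _ fun i _ => (eig_int_sq ν y (e i)).const_mul _]
    refine Finset.sum_congr rfl fun i _ => ?_
    rw [integral_const_mul, hNi]
  · intro n
    have hin : ∀ x, ∫ x', (‖x - y‖ ^ 2 + ‖x' - y‖ ^ 2 - n - ⟪x - y, x' - y⟫ ^ 2) *
        (ga (1 / 2) (x - y) * ga (1 / 2) (x' - y)) ∂ν =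
        (th ν (1 / 2) y) * (ga (1 / 2) (x - y) * ‖x - y‖ ^ 2)
          + (∑ i, (th ν (1 / 2) y + h i) - n * th ν (1 / 2) y) * ga (1 / 2) (x - y)
          - ∑ i, (th ν (1 / 2) y + h i) * (ga (1 / 2) (x - y) * ⟪x - y, e i⟫ ^ 2) := by
      intro x
      have e1 : ∀ x', (‖x - y‖ ^ 2 + ‖x' - y‖ ^ 2 - n - ⟪x - y, x' - y⟫ ^ 2) *
          (ga (1 / 2) (x - y) * ga (1 / 2) (x' - y))
          = (ga (1 / 2) (x - y) * (‖x - y‖ ^ 2 - n)) * ga (1 / 2) (x' - y)
            + (ga (1 / 2) (x - y) * (ga (1 / 2) (x' - y) * ‖x' - y‖ ^ 2)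
              - ga (1 / 2) (x - y) * (ga (1 / 2) (x' - y) * ⟪x' - y, x - y⟫ ^ 2)) := by
        intro x'
        rw [real_inner_comm (x' - y) (x - y)]
        ring
      simp_rw [e1]
      have j1 : Integrable (fun x' => ga (1 / 2) (x - y) * (ga (1 / 2) (x' - y) * ‖x' - y‖ ^ 2)
          - ga (1 / 2) (x - y) * (ga (1 / 2) (x' - y) * ⟪x' - y, x - y⟫ ^ 2)) ν :=
        ((eig_int_norm ν y).const_mul _).sub ((eig_int_sq ν y (x - y)).const_mul _)
      rw [integral_add ((eig_int_one ν y).const_mul _) j1,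
        integral_sub ((eig_int_norm ν y).const_mul _) ((eig_int_sq ν y (x - y)).const_mul _),
        integral_const_mul, integral_const_mul, integral_const_mul, hM, quad]
      have e2 : ∑ i, (th ν (1 / 2) y + h i) * (ga (1 / 2) (x - y) * ⟪x - y, e i⟫ ^ 2)
          = ga (1 / 2) (x - y) * ∑ i, (th ν (1 / 2) y + h i) * ⟪e i, x - y⟫ ^ 2 := by
        rw [Finset.mul_sum]
        refine Finset.sum_congr rfl fun i _ => ?_
        rw [real_inner_comm (x - y) (e i)]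
        ring
      rw [e2]
      change _ * th ν (1 / 2) y + _ = _
      ring
    unfold Ef
    simp_rw [hin]
    have i1 : Integrable (fun x => ∑ i, (th ν (1 / 2) y + h i) *
        (ga (1 / 2) (x - y) * ⟪x - y, e i⟫ ^ 2)) ν :=
      integrable_finsetSum _ fun i _ => (eig_int_sq ν y (e i)).const_mul _
    have i2 : Integrable (fun x => th ν (1 / 2) y * (ga (1 / 2) (x - y) * ‖x - y‖ ^ 2)
        + (∑ i, (th ν (1 / 2) y + h i) - n * th ν (1 / 2) y) * ga (1 / 2) (x - y)) ν :=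
      ((eig_int_norm ν y).const_mul _).add ((eig_int_one ν y).const_mul _)
    rw [integral_sub i2 i1,
      integral_add ((eig_int_norm ν y).const_mul _) ((eig_int_one ν y).const_mul _),
      integral_const_mul, integral_const_mul,
      integral_finsetSum _ fun i _ => (eig_int_sq ν y (e i)).const_mul _]
    simp_rw [integral_const_mul, hNi]
    rw [hM, hM']
    have e3 : ∑ i, (th ν (1 / 2) y + h i) * (th ν (1 / 2) y + h i)
        = d * th ν (1 / 2) y ^ 2 + 2 * th ν (1 / 2) y * ∑ i, h i + ∑ i, h i ^ 2 := by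
      have e4 : ∀ i, (th ν (1 / 2) y + h i) * (th ν (1 / 2) y + h i)
          = th ν (1 / 2) y ^ 2 + (2 * th ν (1 / 2) y * h i + h i ^ 2) := fun i => by ring
      simp_rw [e4]
      rw [Finset.sum_add_distrib, Finset.sum_add_distrib, Finset.sum_const, Finset.card_univ,
        Fintype.card_fin, nsmul_eq_mul, ← Finset.mul_sum]
      ring
    rw [e3]
    change _ + _ * th ν (1 / 2) y - _ = _
    ring

end Pool.Agent.H1.LD
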