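import Pool.Agent.H1.LD.Dif
import Pool.Agent.H1.LD.Eig

/-!
Q_bound.  For a.e. y in S: H_diff at the point x (z := y, x := x): ‖Hv ν x (y-x)‖ ≤ C((1+|x-y|)^K sqrt(D y) + sqrt(D x)); square (≤ 2a^2+2b^2), integrate against ga (1/2)(y-x):
(1+|y-x|)^(2K) ga (1/2) ≤ C ga (1/4) (poly_ga): first part ≤ C Db ν D x; second part ≤ 2C^2 D x th ν (1/2) x ≤ 2C^2 D x th ν (1/16) x.
(ga is even: ga_comm; th ν b x = ∫ ga b (y - x).)
-/

set_option autoImplicit false

open MeasureTheory Filter Topology Metric Set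
open scoped RealInnerProductSpace ENNReal

namespace Pool.Agent.H1.LD

open Pool.Agent.RZ

variable {d : ℕ}

private theorem BndQ_point (C a b E : ℝ) (hC : 0 ≤ C) (ha : 0 ≤ a) (hb : 0 ≤ b) (hE : 0 ≤ E) (N : ℝ)
    (hN : 0 ≤ N) (h : N ≤ C * (E * Real.sqrt a + Real.sqrt b)) :
    N ^ 2 ≤ 2 * C ^ 2 * (E ^ 2 * a + b) := by
  have h1 : N ^ 2 ≤ (C * (E * Real.sqrt a + Real.sqrt b)) ^ 2 := pow_le_pow_left₀ hN h 2
  have h2 : (E * Real.sqrt a + Real.sqrt b) ^ 2 ≤ 2 * (E ^ 2 * a + b) := by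
    have e1 : Real.sqrt a ^ 2 = a := Real.sq_sqrt ha
    have e2 : Real.sqrt b ^ 2 = b := Real.sq_sqrt hb
    nlinarith [sq_nonneg (E * Real.sqrt a - Real.sqrt b)]
  calc N ^ 2 ≤ (C * (E * Real.sqrt a + Real.sqrt b)) ^ 2 := h1
    _ = C ^ 2 * (E * Real.sqrt a + Real.sqrt b) ^ 2 := by ring
    _ ≤ C ^ 2 * (2 * (E ^ 2 * a + b)) := mul_le_mul_of_nonneg_left h2 (by positivity)
    _ = _ := by ring

theorem Q_bound (d n K : ℕ) : ∃ C : ℝ, 0 < C ∧ ∀ (ν : Measure (X d)) (S : Set (X d)) (D : X d → ℝ),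
    Sd n K ν S D → ∀ x ∈ S, ∫ y, ga (1 / 2) (y - x) * ‖Hv ν x (y - x)‖ ^ 2 ∂ν ≤
      C * (Db ν D x + D x * th ν (1 / 16) x) := by
  obtain ⟨C, hC, hH⟩ := H_diff d n K
  obtain ⟨C₂, hC₂, hP⟩ := poly_ga d (2 * K) (b := 1 / 2) (b' := 1 / 4) (by norm_num)
  refine ⟨2 * C ^ 2 * C₂ + 2 * C ^ 2, by positivity, ?_⟩
  intro ν S D hS x hx
  haveI := hS.fin
  have hDx := hS.nn x
  have i1 : Integrable (fun y => ga (1 / 4) (y - x) * D y) ν := by
    refine hS.int.bdd_mul (c := 1) ?_ ?_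
    · exact ((ga_continuous (1 / 4)).comp (continuous_id.sub continuous_const)).aestronglyMeasurable
    · refine Filter.Eventually.of_forall fun y => ?_
      rw [Real.norm_eq_abs, abs_of_nonneg (ga_nonneg _ _)]
      exact ga_le_one (by norm_num) _
  have i2 : Integrable (fun y => ga (1 / 16) (y - x)) ν := by
    refine (integrable_const (1 : ℝ)).mono' ?_ ?_
    · exact ((ga_continuous (1 / 16)).comp (continuous_id.sub continuous_const)).aestronglyMeasurable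
    · refine Filter.Eventually.of_forall fun y => ?_
      rw [Real.norm_eq_abs, abs_of_nonneg (ga_nonneg _ _)]
      exact ga_le_one (by norm_num) _
  have key : ∫ y, ga (1 / 2) (y - x) * ‖Hv ν x (y - x)‖ ^ 2 ∂ν ≤
      ∫ y, (2 * C ^ 2 * C₂ * (ga (1 / 4) (y - x) * D y) + 2 * C ^ 2 * D x * ga (1 / 16) (y - x)) ∂ν := by
    refine integral_mono_of_nonneg ?_ ((i1.const_mul _).add (i2.const_mul _)) ?_
    · exact Filter.Eventually.of_forall fun y => mul_nonneg (ga_nonneg _ _) (sq_nonneg _)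
    · filter_upwards [hS.ae] with y hy
      have h1 := hH ν S D hS y hy x hx x
      rw [sub_self, norm_zero, add_zero, one_pow, one_mul] at h1
      have h2 := BndQ_point C (D y) (D x) ((1 + ‖x - y‖) ^ K) hC.le (hS.nn y) hDx (by positivity) _
        (norm_nonneg _) h1
      have h3 : ((1 + ‖x - y‖) ^ K) ^ 2 * ga (1 / 2) (y - x) ≤ C₂ * ga (1 / 4) (y - x) := by
        rw [← pow_mul, mul_comm K 2, norm_sub_rev]
        exact hP (y - x)
      have h4 : ga (1 / 2) (y - x) ≤ ga (1 / 16) (y - x) := ga_anti (by norm_num) _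
      have h5 := ga_nonneg (1 / 2) (y - x)
      calc ga (1 / 2) (y - x) * ‖Hv ν x (y - x)‖ ^ 2
          ≤ ga (1 / 2) (y - x) * (2 * C ^ 2 * (((1 + ‖x - y‖) ^ K) ^ 2 * D y + D x)) :=
            mul_le_mul_of_nonneg_left h2 h5
        _ = 2 * C ^ 2 * ((((1 + ‖x - y‖) ^ K) ^ 2 * ga (1 / 2) (y - x)) * D y) +
            2 * C ^ 2 * D x * ga (1 / 2) (y - x) := by ring
        _ ≤ 2 * C ^ 2 * ((C₂ * ga (1 / 4) (y - x)) * D y) +
            2 * C ^ 2 * D x * ga (1 / 16) (y - x) := by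
            have q1 := mul_le_mul_of_nonneg_left (mul_le_mul_of_nonneg_right h3 (hS.nn y))
              (by positivity : (0 : ℝ) ≤ 2 * C ^ 2)
            have q2 := mul_le_mul_of_nonneg_left h4 (by positivity : (0 : ℝ) ≤ 2 * C ^ 2 * D x)
            linarith
        _ = _ := by ring
  refine key.trans ?_
  rw [integral_add (i1.const_mul _) (i2.const_mul _), integral_const_mul, integral_const_mul]
  have e1 : ∫ y, ga (1 / 4) (y - x) * D y ∂ν = Db ν D x := rfl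
  have e2 : ∫ y, ga (1 / 16) (y - x) ∂ν = th ν (1 / 16) x := rfl
  rw [e1, e2]
  have hDb : 0 ≤ Db ν D x := integral_nonneg fun y => mul_nonneg (ga_nonneg _ _) (hS.nn y)
  have hth : 0 ≤ th ν (1 / 16) x := th_nonneg _ _ _
  have p1 : 0 ≤ 2 * C ^ 2 * Db ν D x := by positivity
  have p2 : 0 ≤ 2 * C ^ 2 * C₂ * (D x * th ν (1 / 16) x) := by positivity
  nlinarith [p1, p2]

end Pool.Agent.H1.LD
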