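import Pool.Agent.H1.LD.CoD0

set_option autoImplicit false

/-!
Data of a gradient field with decay on `ℝ^(n+5)`, used for codimension five (note 6167 of helper1).
-/

open MeasureTheory Filter Topology Metric Set
open scoped RealInnerProductSpace ENNReal

namespace Pool.Agent.H1.LD

open Pool.Agent.RZ

variable {d : ℕ}

/-- data of a gradient field with decay on `ℝ^d`: `S` and `R` are its first and second
derivatives, `T` the trace of `S`, `V` and `H` the gradient and the Hessian of `T`, `U` the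
Laplacian of `T`, `G` the gradient of `U`, `Q` the Laplacian of `U` -/
structure Hes5 (n : ℕ) (F : Fin d → X d → ℝ) (S : Fin d → Fin d → X d → ℝ)
    (R : Fin d → Fin d → Fin d → X d → ℝ) (T : X d → ℝ) (V : Fin d → X d → ℝ)
    (H : Fin d → Fin d → X d → ℝ) (U : X d → ℝ) (G : Fin d → X d → ℝ) (Q : X d → ℝ) :
    Prop where
  dF : ∀ i, Differentiable ℝ (F i)
  dS : ∀ i j, Differentiable ℝ (S i j)
  dR : ∀ i j k, Differentiable ℝ (R i j k)
  dV : ∀ k, Differentiable ℝ (V k)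
  cH : ∀ k l, Continuous (H k l)
  dU : Differentiable ℝ U
  dG : ∀ k, Differentiable ℝ (G k)
  cQ : Continuous Q
  eF : ∀ i j x, fderiv ℝ (F i) x (EuclideanSpace.single j 1) = S i j x
  eS : ∀ i j k x, fderiv ℝ (S i j) x (EuclideanSpace.single k 1) = R i j k x
  eR : ∀ j l x, ∑ i, fderiv ℝ (R i j l) x (EuclideanSpace.single i 1) = H j l x
  eV : ∀ k l x, fderiv ℝ (V k) x (EuclideanSpace.single l 1) = H k l x
  eU : ∀ k x, fderiv ℝ U x (EuclideanSpace.single k 1) = G k x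
  eQ : ∀ x, ∑ k, fderiv ℝ (G k) x (EuclideanSpace.single k 1) = Q x
  tT : ∀ x, T x = ∑ i, S i i x
  tV : ∀ k x, V k x = ∑ i, R i i k x
  tU : ∀ x, U x = ∑ i, H i i x
  sS : ∀ i j x, S i j x = S j i x
  sR : ∀ i j k x, R i j k x = R i k j x
  sH : ∀ k l x, H k l x = H l k x
  bd : ∃ C : ℝ, ∀ x, (∀ i, |F i x| ≤ C * (1 + ‖x‖)⁻¹ ^ n) ∧
    (∀ i j, |S i j x| ≤ C * (1 + ‖x‖)⁻¹ ^ (n + 1)) ∧
    (∀ i j k, |R i j k x| ≤ C * (1 + ‖x‖)⁻¹ ^ (n + 2)) ∧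
    (∀ i j k l, |fderiv ℝ (R i j k) x (EuclideanSpace.single l 1)| ≤
      C * (1 + ‖x‖)⁻¹ ^ (n + 3)) ∧
    (∀ k l, |H k l x| ≤ C * (1 + ‖x‖)⁻¹ ^ (n + 3)) ∧
    (∀ k, |G k x| ≤ C * (1 + ‖x‖)⁻¹ ^ (n + 4)) ∧
    (∀ k l, |fderiv ℝ (G k) x (EuclideanSpace.single l 1)| ≤ C * (1 + ‖x‖)⁻¹ ^ (n + 5))

end Pool.Agent.H1.LD
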