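import Pool.Agent.H1.LD.C5D0

set_option autoImplicit false

/-!
hes5_identity (pure calculus on `ℝ^(n+5)`): the identity (A) of note 6167 of helper1.
-/

open MeasureTheory Filter Topology Metric Set
open scoped RealInnerProductSpace ENNReal

namespace Pool.Agent.H1.LD

open Pool.Agent.RZ

variable {d : ℕ}

/-- measurable and `O ((1 + |x|) ^ (-p))` -/
private def C5Dec (p : ℕ) (f : X d → ℝ) : Prop :=
  Measurable f ∧ ∃ C : ℝ, ∀ x, |f x| ≤ C * (1 + ‖x‖)⁻¹ ^ p

private theorem C5Dec.mul {p q : ℕ} {f g : X d → ℝ} (hf : C5Dec p f) (hg : C5Dec q g) :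
    C5Dec (p + q) (fun x => f x * g x) := by
  obtain ⟨cf, C, hC⟩ := hf
  obtain ⟨cg, D, hD⟩ := hg
  refine ⟨cf.mul cg, C * D, fun x => ?_⟩
  rw [abs_mul, pow_add]
  have h1 := hC x
  have h2 := hD x
  calc |f x| * |g x| ≤ (C * (1 + ‖x‖)⁻¹ ^ p) * (D * (1 + ‖x‖)⁻¹ ^ q) :=
        mul_le_mul h1 h2 (abs_nonneg _) ((abs_nonneg _).trans h1)
    _ = _ := by ring

private theorem C5Dec.add {p : ℕ} {f g : X d → ℝ} (hf : C5Dec p f) (hg : C5Dec p g) :
    C5Dec p (fun x => f x + g x) := by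
  obtain ⟨cf, C, hC⟩ := hf
  obtain ⟨cg, D, hD⟩ := hg
  refine ⟨cf.add cg, C + D, fun x => (abs_add_le _ _).trans ?_⟩
  rw [add_mul]
  exact add_le_add (hC x) (hD x)

private theorem C5Dec.zero {p : ℕ} : C5Dec p (fun _ : X d => (0 : ℝ)) :=
  ⟨measurable_const, 0, fun x => by simp⟩

private theorem C5Dec.sum {p : ℕ} {ι : Type} (s : Finset ι) {f : ι → X d → ℝ}
    (hf : ∀ i, C5Dec p (f i)) : C5Dec p (fun x => ∑ i ∈ s, f i x) := by
  classical
  induction s using Finset.induction_on with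
  | empty => simpa using C5Dec.zero
  | insert a s ha ih =>
    simp only [Finset.sum_insert ha]
    exact (hf a).add ih

private theorem C5Dec.integrable {p : ℕ} (hp : d < p) {f : X d → ℝ} (hf : C5Dec p f) :
    Integrable f := by
  obtain ⟨cf, C, hC⟩ := hf
  have h1 : Integrable (fun x : X d => (1 + ‖x‖) ^ (-(p : ℝ))) := by
    refine integrable_one_add_norm ?_
    rw [finrank_euclideanSpace_fin]
    exact_mod_cast hp
  refine (h1.const_mul C).mono' cf.aestronglyMeasurable (Eventually.of_forall fun x => ?_)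
  rw [Real.norm_eq_abs, Real.rpow_neg (by positivity), Real.rpow_natCast, ← inv_pow]
  exact hC x

/-- `f` is differentiable with the derivative `f'` in the direction `k`, with decay -/
private structure C5IP (p : ℕ) (k : Fin d) (f f' : X d → ℝ) : Prop where
  df : Differentiable ℝ f
  ef : ∀ x, fderiv ℝ f x (EuclideanSpace.single k 1) = f' x
  b : C5Dec p f
  b' : C5Dec (p + 1) f'

private theorem C5IP.mul {p q : ℕ} {k : Fin d} {f f' g g' : X d → ℝ} (hf : C5IP p k f f')
    (hg : C5IP q k g g') :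
    C5IP (p + q) k (fun x => f x * g x) (fun x => f' x * g x + f x * g' x) where
  df := hf.df.mul hg.df
  ef x := by
    rw [fderiv_fun_mul (hf.df x) (hg.df x)]
    simp only [add_apply, smul_apply, smul_eq_mul, hf.ef, hg.ef]
    ring
  b := hf.b.mul hg.b
  b' := by
    have h1 := hf.b'.mul hg.b
    have h2 := hf.b.mul hg.b'
    rw [show p + 1 + q = p + q + 1 by ring] at h1
    rw [show p + (q + 1) = p + q + 1 by ring] at h2
    exact h1.add h2

private theorem C5IP.sum {p : ℕ} {k : Fin d} {ι : Type} (s : Finset ι) {f f' : ι → X d → ℝ}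
    (h : ∀ i, C5IP p k (f i) (f' i)) :
    C5IP p k (fun x => ∑ i ∈ s, f i x) (fun x => ∑ i ∈ s, f' i x) where
  df := Differentiable.fun_sum fun i _ => (h i).df
  ef x := by
    rw [fderiv_fun_sum fun i _ => (h i).df x]
    simp only [sum_apply, (h _).ef]
  b := C5Dec.sum s fun i => (h i).b
  b' := C5Dec.sum s fun i => (h i).b'

private theorem C5IP.ibp {p q : ℕ} (hpq : d < p + q) {k : Fin d} {f f' g g' : X d → ℝ}
    (hf : C5IP p k f f') (hg : C5IP q k g g') :
    ∫ x, f x * g' x = -∫ x, f' x * g x := by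
  have i1 : Integrable (fun x => f' x * g x) := by
    have := hf.b'.mul hg.b
    exact this.integrable (by omega)
  have i2 : Integrable (fun x => f x * g' x) := by
    have := hf.b.mul hg.b'
    exact this.integrable (by omega)
  have i3 : Integrable (fun x => f x * g x) := (hf.b.mul hg.b).integrable hpq
  have h := integral_mul_fderiv_eq_neg_fderiv_mul_of_integrable (μ := volume) (f := f) (g := g)
    (v := EuclideanSpace.single k 1) (by simpa only [hf.ef] using i1)
    (by simpa only [hg.ef] using i2) i3 (fun x _ => hf.df x) (fun x _ => hg.df x)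
  simp only [hf.ef, hg.ef] at h
  exact h

/-- summed form of the integration by parts -/
private theorem C5IP.ibp_sum {ι : Type} [Fintype ι] {p q : ℕ} (hpq : d < p + q) (k : ι → Fin d)
    {f f' g g' : ι → X d → ℝ} (hf : ∀ a, C5IP p (k a) (f a) (f' a))
    (hg : ∀ a, C5IP q (k a) (g a) (g' a)) :
    ∫ x, ∑ a, f a x * g' a x = -∫ x, ∑ a, f' a x * g a x := by
  have i1 : ∀ a, Integrable (fun x => f' a x * g a x) := fun a =>
    ((hf a).b'.mul (hg a).b).integrable (by omega)
  have i2 : ∀ a, Integrable (fun x => f a x * g' a x) := fun a =>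
    ((hf a).b.mul (hg a).b').integrable (by omega)
  rw [integral_finsetSum _ fun a _ => i2 a, integral_finsetSum _ fun a _ => i1 a,
    ← Finset.sum_neg_distrib]
  exact Finset.sum_congr rfl fun a _ => (hf a).ibp hpq (hg a)

private theorem C5_rot3 (h : Fin d → Fin d → Fin d → ℝ) :
    ∑ j, ∑ k, ∑ l, h j k l = ∑ l, ∑ j, ∑ k, h j k l := by
  rw [Finset.sum_comm (s := (Finset.univ : Finset (Fin d)))
    (f := fun l j => ∑ k, h j k l)]
  exact Finset.sum_congr rfl fun j _ => Finset.sum_comm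

private theorem C5_rot4 (h : Fin d → Fin d → Fin d → Fin d → ℝ) :
    ∑ i, ∑ j, ∑ k, ∑ l, h i j k l = ∑ j, ∑ k, ∑ l, ∑ i, h i j k l := by
  rw [Finset.sum_comm]
  refine Finset.sum_congr rfl fun j _ => ?_
  rw [Finset.sum_comm]
  refine Finset.sum_congr rfl fun k _ => ?_
  rw [Finset.sum_comm]

section

variable {n : ℕ} {F : Fin d → X d → ℝ}
  {S : Fin d → Fin d → X d → ℝ} {R : Fin d → Fin d → Fin d → X d → ℝ} {T : X d → ℝ}
  {V : Fin d → X d → ℝ} {H : Fin d → Fin d → X d → ℝ} {U : X d → ℝ} {G : Fin d → X d → ℝ}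
  {Q : X d → ℝ}

private theorem C5_F (h : Hes5 n F S R T V H U G Q) (i j : Fin d) : C5IP n j (F i) (S i j) := by
  obtain ⟨C, hC⟩ := h.bd
  exact ⟨h.dF i, h.eF i j, ⟨(h.dF i).continuous.measurable, C, fun x => (hC x).1 i⟩,
    ⟨(h.dS i j).continuous.measurable, C, fun x => (hC x).2.1 i j⟩⟩

private theorem C5_S (h : Hes5 n F S R T V H U G Q) (i j k : Fin d) :
    C5IP (n + 1) k (S i j) (R i j k) := by
  obtain ⟨C, hC⟩ := h.bd
  exact ⟨h.dS i j, h.eS i j k, ⟨(h.dS i j).continuous.measurable, C, fun x => (hC x).2.1 i j⟩,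
    ⟨(h.dR i j k).continuous.measurable, C, fun x => (hC x).2.2.1 i j k⟩⟩

private theorem C5_R (h : Hes5 n F S R T V H U G Q) (i j k l : Fin d) :
    C5IP (n + 2) l (R i j k) (fun x => fderiv ℝ (R i j k) x (EuclideanSpace.single l 1)) := by
  obtain ⟨C, hC⟩ := h.bd
  exact ⟨h.dR i j k, fun x => rfl,
    ⟨(h.dR i j k).continuous.measurable, C, fun x => (hC x).2.2.1 i j k⟩,
    ⟨measurable_fderiv_apply_const ℝ (R i j k) _, C, fun x => (hC x).2.2.2.1 i j k l⟩⟩

private theorem C5_T (h : Hes5 n F S R T V H U G Q) (k : Fin d) : C5IP (n + 1) k T (V k) := by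
  have h1 := C5IP.sum Finset.univ fun i => C5_S h i i k
  have h2 : (fun x => ∑ i, S i i x) = T := funext fun x => (h.tT x).symm
  have h3 : (fun x => ∑ i, R i i k x) = V k := funext fun x => (h.tV k x).symm
  rwa [h2, h3] at h1

private theorem C5_V (h : Hes5 n F S R T V H U G Q) (k l : Fin d) :
    C5IP (n + 2) l (V k) (H k l) := by
  obtain ⟨C, hC⟩ := h.bd
  exact ⟨h.dV k, h.eV k l, (C5_T h k).b',
    ⟨(h.cH k l).measurable, C, fun x => (hC x).2.2.2.2.1 k l⟩⟩

private theorem C5_U (h : Hes5 n F S R T V H U G Q) (k : Fin d) : C5IP (n + 3) k U (G k) := by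
  obtain ⟨C, hC⟩ := h.bd
  refine ⟨h.dU, h.eU k, ?_, ⟨(h.dG k).continuous.measurable, C, fun x => (hC x).2.2.2.2.2.1 k⟩⟩
  have h1 : C5Dec (n + 3) (fun x => ∑ i, H i i x) := C5Dec.sum _ fun i => (C5_V h i i).b'
  have h2 : (fun x => ∑ i, H i i x) = U := funext fun x => (h.tU x).symm
  rwa [h2] at h1

private theorem C5_G (h : Hes5 n F S R T V H U G Q) (k l : Fin d) :
    C5IP (n + 4) l (G k) (fun x => fderiv ℝ (G k) x (EuclideanSpace.single l 1)) := by
  obtain ⟨C, hC⟩ := h.bd
  exact ⟨h.dG k, fun x => rfl,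
    ⟨(h.dG k).continuous.measurable, C, fun x => (hC x).2.2.2.2.2.1 k⟩,
    ⟨measurable_fderiv_apply_const ℝ (G k) _, C, fun x => (hC x).2.2.2.2.2.2 k l⟩⟩

private theorem C5_R12 (h : Hes5 n F S R T V H U G Q) (i j k : Fin d) (x : X d) :
    R i j k x = R j i k x := by
  rw [← h.eS i j k x, ← h.eS j i k x]
  have : S i j = S j i := funext fun x => h.sS i j x
  rw [this]

private theorem C5_Rrot (h : Hes5 n F S R T V H U G Q) (i j k : Fin d) (x : X d) :
    R j k i x = R i j k x := by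
  rw [h.sR j k i, C5_R12 h j i k]

/-- the divergence of `R` on the last index -/
private theorem C5_divR (h : Hes5 n F S R T V H U G Q) (i j : Fin d) (x : X d) :
    ∑ k, fderiv ℝ (R i j k) x (EuclideanSpace.single k 1) = H i j x := by
  rw [← h.eR i j x]
  refine Finset.sum_congr rfl fun k _ => ?_
  have : R i j k = R k i j := funext fun x => C5_Rrot h k i j x
  rw [this]

private theorem C5_trR (h : Hes5 n F S R T V H U G Q) (i : Fin d) (x : X d) :
    ∑ j, R i j j x = V i x := by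
  rw [h.tV i x]
  refine Finset.sum_congr rfl fun j _ => ?_
  rw [← C5_Rrot h i j j x]

/-- (1) -/
private theorem C5I_1 (hn : 1 ≤ n) (hd : d = n + 5) (h : Hes5 n F S R T V H U G Q) :
    2 * ∫ x, ∑ i, ∑ j, ∑ k, ∑ l, S k l x * R i j k x * R i j l x =
      -∫ x, ∑ i, ∑ j, ∑ k, H i k x * S i j x * S j k x := by
  have h1 := C5IP.ibp_sum (ι := Fin d × Fin d × Fin d × Fin d) (p := n + 1 + (n + 2))
    (q := n + 1) (by omega) (fun a => a.1)
    (f := fun a x => S a.2.2.1 a.2.2.2 x * R a.1 a.2.1 a.2.2.2 x)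
    (g := fun a => S a.2.1 a.2.2.1)
    (fun a => (C5_S h a.2.2.1 a.2.2.2 a.1).mul (C5_R h a.1 a.2.1 a.2.2.2 a.1))
    (fun a => C5_S h a.2.1 a.2.2.1 a.1)
  have iC : Integrable fun x => ∑ i, ∑ j, ∑ k, ∑ l, S k l x * R i j k x * R i j l x := by
    have a : C5Dec (n + 1 + (n + 2) + (n + 2)) fun x =>
        ∑ i, ∑ j, ∑ k, ∑ l, S k l x * R i j k x * R i j l x :=
      C5Dec.sum _ fun i => C5Dec.sum _ fun j => C5Dec.sum _ fun k => C5Dec.sum _ fun l =>
        ((C5_S h k l k).b.mul (C5_R h i j k k).b).mul (C5_R h i j l k).b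
    exact a.integrable (by omega)
  have iA : Integrable fun x => ∑ i, ∑ j, ∑ k, H i k x * S i j x * S j k x := by
    have a : C5Dec (n + 2 + 1 + (n + 1) + (n + 1)) fun x =>
        ∑ i, ∑ j, ∑ k, H i k x * S i j x * S j k x :=
      C5Dec.sum _ fun i => C5Dec.sum _ fun j => C5Dec.sum _ fun k =>
        ((C5_V h i k).b'.mul (C5_S h i j k).b).mul (C5_S h j k k).b
    exact a.integrable (by omega)
  have e1 : ∀ x, ∑ a : Fin d × Fin d × Fin d × Fin d,
      S a.2.2.1 a.2.2.2 x * R a.1 a.2.1 a.2.2.2 x * R a.2.1 a.2.2.1 a.1 x =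
      ∑ i, ∑ j, ∑ k, ∑ l, S k l x * R i j k x * R i j l x := by
    intro x
    simp only [Fintype.sum_prod_type]
    refine Finset.sum_congr rfl fun i _ => Finset.sum_congr rfl fun j _ =>
      Finset.sum_congr rfl fun k _ => Finset.sum_congr rfl fun l _ => ?_
    rw [C5_Rrot h i j k x]
    ring
  have e2 : ∀ x, ∑ a : Fin d × Fin d × Fin d × Fin d,
      (R a.2.2.1 a.2.2.2 a.1 x * R a.1 a.2.1 a.2.2.2 x +
        S a.2.2.1 a.2.2.2 x * fderiv ℝ (R a.1 a.2.1 a.2.2.2) x (EuclideanSpace.single a.1 1)) *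
          S a.2.1 a.2.2.1 x =
      (∑ i, ∑ j, ∑ k, ∑ l, S k l x * R i j k x * R i j l x) +
        ∑ i, ∑ j, ∑ k, H i k x * S i j x * S j k x := by
    intro x
    simp only [Fintype.sum_prod_type]
    have e3 : ∑ i, ∑ j, ∑ k, ∑ l, (R k l i x * R i j l x +
        S k l x * fderiv ℝ (R i j l) x (EuclideanSpace.single i 1)) * S j k x =
        (∑ i, ∑ j, ∑ k, ∑ l, S j k x * R i l j x * R i l k x) +
        ∑ i, ∑ j, ∑ k, ∑ l,
          S k l x * S j k x * fderiv ℝ (R i j l) x (EuclideanSpace.single i 1) := by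
      simp only [← Finset.sum_add_distrib]
      refine Finset.sum_congr rfl fun i _ => Finset.sum_congr rfl fun j _ =>
        Finset.sum_congr rfl fun k _ => Finset.sum_congr rfl fun l _ => ?_
      rw [C5_Rrot h i k l x, h.sR i k l, h.sR i j l]
      ring
    rw [e3]
    congr 1
    · refine Finset.sum_congr rfl fun i _ => ?_
      exact C5_rot3 fun j k l => S j k x * R i l j x * R i l k x
    · rw [C5_rot4]
      refine Finset.sum_congr rfl fun j _ => Finset.sum_congr rfl fun k _ =>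
        Finset.sum_congr rfl fun l _ => ?_
      rw [← Finset.mul_sum, h.eR j l x]
      ring
  simp only [e1, e2] at h1
  rw [integral_add iC iA] at h1
  linarith

/-- (2) -/
private theorem C5I_2 (hn : 1 ≤ n) (hd : d = n + 5) (h : Hes5 n F S R T V H U G Q) :
    ∫ x, ∑ i, ∑ j, ∑ k, H i k x * S i j x * S j k x =
      -((∫ x, ∑ i, ∑ j, S i j x * V i x * V j x) +
        ∫ x, ∑ i, ∑ j, ∑ k, V k x * S i j x * R i j k x) := by
  have h1 := C5IP.ibp_sum (ι := Fin d × Fin d × Fin d) (p := n + 1 + (n + 1))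
    (q := n + 2) (by omega) (fun a => a.1)
    (f := fun a x => S a.1 a.2.1 x * S a.2.1 a.2.2 x)
    (g := fun a => V a.2.2)
    (fun a => (C5_S h a.1 a.2.1 a.1).mul (C5_S h a.2.1 a.2.2 a.1))
    (fun a => C5_V h a.2.2 a.1)
  have iS : Integrable fun x => ∑ i, ∑ j, S i j x * V i x * V j x := by
    have a : C5Dec (n + 1 + (n + 2) + (n + 2)) fun x => ∑ i, ∑ j, S i j x * V i x * V j x :=
      C5Dec.sum _ fun i => C5Dec.sum _ fun j =>
        ((C5_S h i j j).b.mul (C5_V h i j).b).mul (C5_V h j j).b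
    exact a.integrable (by omega)
  have iV : Integrable fun x => ∑ i, ∑ j, ∑ k, V k x * S i j x * R i j k x := by
    have a : C5Dec (n + 2 + (n + 1) + (n + 2)) fun x =>
        ∑ i, ∑ j, ∑ k, V k x * S i j x * R i j k x :=
      C5Dec.sum _ fun i => C5Dec.sum _ fun j => C5Dec.sum _ fun k =>
        ((C5_V h k k).b.mul (C5_S h i j k).b).mul (C5_R h i j k k).b
    exact a.integrable (by omega)
  have e1 : ∀ x, ∑ a : Fin d × Fin d × Fin d,
      S a.1 a.2.1 x * S a.2.1 a.2.2 x * H a.2.2 a.1 x =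
      ∑ i, ∑ j, ∑ k, H i k x * S i j x * S j k x := by
    intro x
    simp only [Fintype.sum_prod_type]
    refine Finset.sum_congr rfl fun i _ => Finset.sum_congr rfl fun j _ =>
      Finset.sum_congr rfl fun k _ => ?_
    rw [h.sH k i]
    ring
  have e2 : ∀ x, ∑ a : Fin d × Fin d × Fin d,
      (R a.1 a.2.1 a.1 x * S a.2.1 a.2.2 x + S a.1 a.2.1 x * R a.2.1 a.2.2 a.1 x) *
        V a.2.2 x =
      (∑ i, ∑ j, S i j x * V i x * V j x) +
        ∑ i, ∑ j, ∑ k, V k x * S i j x * R i j k x := by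
    intro x
    simp only [Fintype.sum_prod_type]
    have e3 : ∑ i, ∑ j, ∑ k, (R i j i x * S j k x + S i j x * R j k i x) * V k x =
        (∑ i, ∑ j, ∑ k, S j k x * V k x * R j i i x) +
        ∑ i, ∑ j, ∑ k, V k x * S i j x * R i j k x := by
      simp only [← Finset.sum_add_distrib]
      refine Finset.sum_congr rfl fun i _ => Finset.sum_congr rfl fun j _ =>
        Finset.sum_congr rfl fun k _ => ?_
      rw [C5_Rrot h i j k x, C5_R12 h i j i x]
      ring
    rw [e3]
    congr 1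
    rw [← C5_rot3 fun j k i => S j k x * V k x * R j i i x]
    refine Finset.sum_congr rfl fun j _ => Finset.sum_congr rfl fun k _ => ?_
    rw [← Finset.mul_sum, C5_trR h j x]
    ring
  simp only [e1, e2] at h1
  rw [integral_add iS iV] at h1
  exact h1

/-- (3) -/
private theorem C5I_3 (hn : 1 ≤ n) (hd : d = n + 5) (h : Hes5 n F S R T V H U G Q) :
    ∫ x, U x * ∑ i, ∑ j, S i j x * S i j x =
      -(2 * ∫ x, ∑ i, ∑ j, ∑ k, V k x * S i j x * R i j k x) := by
  have h1 := C5IP.ibp_sum (ι := Fin d) (p := n + 1 + (n + 1))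
    (q := n + 2) (by omega) (fun k => k)
    (f := fun _ x => ∑ i, ∑ j, S i j x * S i j x)
    (g := fun k => V k)
    (fun k => C5IP.sum _ fun i => C5IP.sum _ fun j => (C5_S h i j k).mul (C5_S h i j k))
    (fun k => C5_V h k k)
  have e1 : ∀ x, ∑ k, (∑ i, ∑ j, S i j x * S i j x) * H k k x =
      U x * ∑ i, ∑ j, S i j x * S i j x := by
    intro x
    rw [← Finset.mul_sum, ← h.tU x]
    ring
  have e2 : ∀ x, ∑ k, (∑ i, ∑ j, (R i j k x * S i j x + S i j x * R i j k x)) * V k x =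
      2 * ∑ i, ∑ j, ∑ k, V k x * S i j x * R i j k x := by
    intro x
    simp only [Finset.sum_mul]
    rw [← C5_rot3 fun i j k => (R i j k x * S i j x + S i j x * R i j k x) * V k x]
    simp only [Finset.mul_sum]
    refine Finset.sum_congr rfl fun i _ => Finset.sum_congr rfl fun j _ =>
      Finset.sum_congr rfl fun k _ => ?_
    ring
  simp only [e1, e2] at h1
  rw [integral_const_mul] at h1
  exact h1

/-- (4) -/
private theorem C5I_4 (hn : 1 ≤ n) (hd : d = n + 5) (h : Hes5 n F S R T V H U G Q) :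
    (∫ x, T x * ∑ i, ∑ j, ∑ k, R i j k x * R i j k x) +
      ∫ x, T x * ∑ i, ∑ j, S i j x * H i j x =
      -∫ x, ∑ i, ∑ j, ∑ k, V k x * S i j x * R i j k x := by
  have h1 := C5IP.ibp_sum (ι := Fin d × Fin d × Fin d) (p := n + 1)
    (q := n + 1 + (n + 2)) (by omega) (fun a => a.2.2)
    (f := fun _ => T)
    (g := fun a x => S a.1 a.2.1 x * R a.1 a.2.1 a.2.2 x)
    (fun a => C5_T h a.2.2)
    (fun a => (C5_S h a.1 a.2.1 a.2.2).mul (C5_R h a.1 a.2.1 a.2.2 a.2.2))
  have iB : Integrable fun x => T x * ∑ i, ∑ j, ∑ k, R i j k x * R i j k x := by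
    have a : C5Dec (n + 1 + (n + 2 + (n + 2))) fun x =>
        T x * ∑ i, ∑ j, ∑ k, R i j k x * R i j k x :=
      (C5_T h ⟨0, by omega⟩).b.mul (C5Dec.sum _ fun i => C5Dec.sum _ fun j => C5Dec.sum _ fun k =>
        (C5_R h i j k k).b.mul (C5_R h i j k k).b)
    exact a.integrable (by omega)
  have iH : Integrable fun x => T x * ∑ i, ∑ j, S i j x * H i j x := by
    have a : C5Dec (n + 1 + (n + 1 + (n + 2 + 1))) fun x =>
        T x * ∑ i, ∑ j, S i j x * H i j x :=
      (C5_T h ⟨0, by omega⟩).b.mul (C5Dec.sum _ fun i => C5Dec.sum _ fun j =>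
        (C5_S h i j j).b.mul (C5_V h i j).b')
    exact a.integrable (by omega)
  have e1 : ∀ x, ∑ a : Fin d × Fin d × Fin d,
      T x * (R a.1 a.2.1 a.2.2 x * R a.1 a.2.1 a.2.2 x + S a.1 a.2.1 x *
        fderiv ℝ (R a.1 a.2.1 a.2.2) x (EuclideanSpace.single a.2.2 1)) =
      (T x * ∑ i, ∑ j, ∑ k, R i j k x * R i j k x) + T x * ∑ i, ∑ j, S i j x * H i j x := by
    intro x
    simp only [Fintype.sum_prod_type]
    simp only [← C5_divR h]
    simp only [Finset.mul_sum, ← Finset.sum_add_distrib]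
    refine Finset.sum_congr rfl fun i _ => Finset.sum_congr rfl fun j _ =>
      Finset.sum_congr rfl fun k _ => ?_
    ring
  have e2 : ∀ x, ∑ a : Fin d × Fin d × Fin d, V a.2.2 x * (S a.1 a.2.1 x * R a.1 a.2.1 a.2.2 x) =
      ∑ i, ∑ j, ∑ k, V k x * S i j x * R i j k x := by
    intro x
    simp only [Fintype.sum_prod_type]
    refine Finset.sum_congr rfl fun i _ => Finset.sum_congr rfl fun j _ =>
      Finset.sum_congr rfl fun k _ => ?_
    ring
  simp only [e1, e2] at h1
  rw [integral_add iB iH] at h1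
  exact h1

/-- (5) -/
private theorem C5I_5 (hn : 1 ≤ n) (hd : d = n + 5) (h : Hes5 n F S R T V H U G Q) :
    ∫ x, T x * ∑ i, ∑ j, S i j x * H i j x =
      -((∫ x, ∑ i, ∑ j, S i j x * V i x * V j x) + ∫ x, T x * ∑ i, V i x * V i x) := by
  have h1 := C5IP.ibp_sum (ι := Fin d × Fin d) (p := n + 1 + (n + 1))
    (q := n + 2) (by omega) (fun a => a.2)
    (f := fun a x => T x * S a.1 a.2 x)
    (g := fun a => V a.1)
    (fun a => (C5_T h a.2).mul (C5_S h a.1 a.2 a.2))
    (fun a => C5_V h a.1 a.2)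
  have iS : Integrable fun x => ∑ i, ∑ j, S i j x * V i x * V j x := by
    have a : C5Dec (n + 1 + (n + 2) + (n + 2)) fun x => ∑ i, ∑ j, S i j x * V i x * V j x :=
      C5Dec.sum _ fun i => C5Dec.sum _ fun j =>
        ((C5_S h i j j).b.mul (C5_V h i j).b).mul (C5_V h j j).b
    exact a.integrable (by omega)
  have iP : Integrable fun x => T x * ∑ i, V i x * V i x := by
    have a : C5Dec (n + 1 + (n + 2 + (n + 2))) fun x => T x * ∑ i, V i x * V i x :=
      (C5_T h ⟨0, by omega⟩).b.mul (C5Dec.sum _ fun i => (C5_V h i i).b.mul (C5_V h i i).b)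
    exact a.integrable (by omega)
  have e1 : ∀ x, ∑ a : Fin d × Fin d, T x * S a.1 a.2 x * H a.1 a.2 x =
      T x * ∑ i, ∑ j, S i j x * H i j x := by
    intro x
    simp only [Fintype.sum_prod_type, Finset.mul_sum]
    refine Finset.sum_congr rfl fun i _ => Finset.sum_congr rfl fun j _ => ?_
    ring
  have e2 : ∀ x, ∑ a : Fin d × Fin d,
      (V a.2 x * S a.1 a.2 x + T x * R a.1 a.2 a.2 x) * V a.1 x =
      (∑ i, ∑ j, S i j x * V i x * V j x) + T x * ∑ i, V i x * V i x := by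
    intro x
    simp only [Fintype.sum_prod_type, Finset.mul_sum]
    simp only [← Finset.sum_add_distrib]
    refine Finset.sum_congr rfl fun i _ => ?_
    have e3 : ∑ j, (V j x * S i j x + T x * R i j j x) * V i x =
        (∑ j, S i j x * V i x * V j x) + T x * V i x * ∑ j, R i j j x := by
      rw [Finset.mul_sum, ← Finset.sum_add_distrib]
      exact Finset.sum_congr rfl fun j _ => by ring
    rw [e3, C5_trR h i x]
    ring
  simp only [e1, e2] at h1
  rw [integral_add iS iP] at h1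
  exact h1

/-- (6) -/
private theorem C5I_6 (hn : 1 ≤ n) (hd : d = n + 5) (h : Hes5 n F S R T V H U G Q) :
    ∫ x, (∑ i, F i x * F i x) * Q x = -(2 * ∫ x, ∑ k, ∑ i, F i x * S i k x * G k x) := by
  have h1 := C5IP.ibp_sum (ι := Fin d) (p := n + n)
    (q := n + 4) (by omega) (fun k => k)
    (f := fun _ x => ∑ i, F i x * F i x)
    (g := fun k => G k)
    (fun k => C5IP.sum _ fun i => (C5_F h i k).mul (C5_F h i k))
    (fun k => C5_G h k k)
  have e1 : ∀ x, ∑ k, (∑ i, F i x * F i x) * fderiv ℝ (G k) x (EuclideanSpace.single k 1) =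
      (∑ i, F i x * F i x) * Q x := by
    intro x
    rw [← Finset.mul_sum, h.eQ x]
  have e2 : ∀ x, ∑ k, (∑ i, (S i k x * F i x + F i x * S i k x)) * G k x =
      2 * ∑ k, ∑ i, F i x * S i k x * G k x := by
    intro x
    simp only [Finset.sum_mul, Finset.mul_sum]
    refine Finset.sum_congr rfl fun k _ => Finset.sum_congr rfl fun i _ => ?_
    ring
  simp only [e1, e2] at h1
  rw [integral_const_mul] at h1
  exact h1

/-- (7) -/
private theorem C5I_7 (hn : 1 ≤ n) (hd : d = n + 5) (h : Hes5 n F S R T V H U G Q) :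
    (∫ x, U x * ∑ i, ∑ j, S i j x * S i j x) + ∫ x, U x * ∑ i, F i x * V i x =
      -∫ x, ∑ k, ∑ i, F i x * S i k x * G k x := by
  have h1 := C5IP.ibp_sum (ι := Fin d) (p := n + 3)
    (q := n + (n + 1)) (by omega) (fun k => k)
    (f := fun _ => U)
    (g := fun k x => ∑ i, F i x * S i k x)
    (fun k => C5_U h k)
    (fun k => C5IP.sum _ fun i => (C5_F h i k).mul (C5_S h i k k))
  have iS : Integrable fun x => U x * ∑ i, ∑ j, S i j x * S i j x := by
    have a : C5Dec (n + 3 + (n + 1 + (n + 1))) fun x => U x * ∑ i, ∑ j, S i j x * S i j x :=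
      (C5_U h ⟨0, by omega⟩).b.mul (C5Dec.sum _ fun i => C5Dec.sum _ fun j =>
        (C5_S h i j j).b.mul (C5_S h i j j).b)
    exact a.integrable (by omega)
  have iF : Integrable fun x => U x * ∑ i, F i x * V i x := by
    have a : C5Dec (n + 3 + (n + (n + 2))) fun x => U x * ∑ i, F i x * V i x :=
      (C5_U h ⟨0, by omega⟩).b.mul (C5Dec.sum _ fun i => (C5_F h i i).b.mul (C5_V h i i).b)
    exact a.integrable (by omega)
  have e1 : ∀ x, ∑ k, U x * ∑ i, (S i k x * S i k x + F i x * R i k k x) =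
      (U x * ∑ i, ∑ j, S i j x * S i j x) + U x * ∑ i, F i x * V i x := by
    intro x
    rw [← Finset.mul_sum, Finset.sum_comm, ← mul_add, ← Finset.sum_add_distrib]
    congr 1
    refine Finset.sum_congr rfl fun i _ => ?_
    rw [Finset.sum_add_distrib, ← Finset.mul_sum, C5_trR h i x]
  have e2 : ∀ x, ∑ k, G k x * ∑ i, F i x * S i k x = ∑ k, ∑ i, F i x * S i k x * G k x := by
    intro x
    simp only [Finset.mul_sum]
    refine Finset.sum_congr rfl fun k _ => Finset.sum_congr rfl fun i _ => ?_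
    ring
  simp only [e1, e2] at h1
  rw [integral_add iS iF] at h1
  exact h1

/-- (8) -/
private theorem C5I_8 (hn : 1 ≤ n) (hd : d = n + 5) (h : Hes5 n F S R T V H U G Q) :
    ∫ x, U x * ∑ i, F i x * V i x =
      -((∫ x, ∑ i, ∑ j, S i j x * V i x * V j x) + ∫ x, ∑ i, ∑ k, F i x * H i k x * V k x) := by
  have h1 := C5IP.ibp_sum (ι := Fin d) (p := n + (n + 2))
    (q := n + 2) (by omega) (fun k => k)
    (f := fun _ x => ∑ i, F i x * V i x)
    (g := fun k => V k)
    (fun k => C5IP.sum _ fun i => (C5_F h i k).mul (C5_V h i k))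
    (fun k => C5_V h k k)
  have iS : Integrable fun x => ∑ i, ∑ j, S i j x * V i x * V j x := by
    have a : C5Dec (n + 1 + (n + 2) + (n + 2)) fun x => ∑ i, ∑ j, S i j x * V i x * V j x :=
      C5Dec.sum _ fun i => C5Dec.sum _ fun j =>
        ((C5_S h i j j).b.mul (C5_V h i j).b).mul (C5_V h j j).b
    exact a.integrable (by omega)
  have iH : Integrable fun x => ∑ i, ∑ k, F i x * H i k x * V k x := by
    have a : C5Dec (n + (n + 2 + 1) + (n + 2)) fun x => ∑ i, ∑ k, F i x * H i k x * V k x :=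
      C5Dec.sum _ fun i => C5Dec.sum _ fun k =>
        ((C5_F h i k).b.mul (C5_V h i k).b').mul (C5_V h k k).b
    exact a.integrable (by omega)
  have e1 : ∀ x, ∑ k, (∑ i, F i x * V i x) * H k k x = U x * ∑ i, F i x * V i x := by
    intro x
    rw [← Finset.mul_sum, ← h.tU x]
    ring
  have e2 : ∀ x, ∑ k, (∑ i, (S i k x * V i x + F i x * H i k x)) * V k x =
      (∑ i, ∑ j, S i j x * V i x * V j x) + ∑ i, ∑ k, F i x * H i k x * V k x := by
    intro x
    simp only [Finset.sum_mul]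
    rw [Finset.sum_comm, ← Finset.sum_add_distrib]
    refine Finset.sum_congr rfl fun i _ => ?_
    rw [← Finset.sum_add_distrib]
    exact Finset.sum_congr rfl fun k _ => by ring
  simp only [e1, e2] at h1
  rw [integral_add iS iH] at h1
  exact h1

/-- (9) -/
private theorem C5I_9 (hn : 1 ≤ n) (hd : d = n + 5) (h : Hes5 n F S R T V H U G Q) :
    2 * ∫ x, ∑ i, ∑ k, F i x * H i k x * V k x = -∫ x, T x * ∑ i, V i x * V i x := by
  have h1 := C5IP.ibp_sum (ι := Fin d) (p := n)
    (q := n + 2 + (n + 2)) (by omega) (fun i => i)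
    (f := fun i => F i)
    (g := fun _ x => ∑ k, V k x * V k x)
    (fun i => C5_F h i i)
    (fun i => C5IP.sum _ fun k => (C5_V h k i).mul (C5_V h k i))
  have e1 : ∀ x, ∑ i, F i x * ∑ k, (H k i x * V k x + V k x * H k i x) =
      2 * ∑ i, ∑ k, F i x * H i k x * V k x := by
    intro x
    simp only [Finset.mul_sum]
    refine Finset.sum_congr rfl fun i _ => Finset.sum_congr rfl fun k _ => ?_
    rw [h.sH k i]
    ring
  have e2 : ∀ x, ∑ i, S i i x * ∑ k, V k x * V k x = T x * ∑ i, V i x * V i x := by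
    intro x
    rw [← Finset.sum_mul, ← h.tT x]
  simp only [e1, e2] at h1
  rw [integral_const_mul] at h1
  exact h1

end

/-- The identity behind codimension five. -/
theorem hes5_identity {n : ℕ} (hn : 1 ≤ n) (hd : d = n + 5) {F : Fin d → X d → ℝ}
    {S : Fin d → Fin d → X d → ℝ} {R : Fin d → Fin d → Fin d → X d → ℝ} {T : X d → ℝ}
    {V : Fin d → X d → ℝ} {H : Fin d → Fin d → X d → ℝ} {U : X d → ℝ} {G : Fin d → X d → ℝ}
    {Q : X d → ℝ} (h : Hes5 n F S R T V H U G Q) :
    Integrable (fun x => (∑ i, ∑ j, ∑ k, H i k x * S i j x * S j k x) +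
      T x * (∑ i, ∑ j, ∑ k, R i j k x ^ 2) -
      4 * ∑ i, ∑ j, ∑ k, ∑ l, S k l x * R i j k x * R i j l x) ∧
    Integrable (fun x => (∑ i, F i x ^ 2) * Q x) ∧
    ∫ x, ((∑ i, ∑ j, ∑ k, H i k x * S i j x * S j k x) +
      T x * (∑ i, ∑ j, ∑ k, R i j k x ^ 2) -
      4 * ∑ i, ∑ j, ∑ k, ∑ l, S k l x * R i j k x * R i j l x) =
      ∫ x, (∑ i, F i x ^ 2) * Q x := by
  have iC : Integrable fun x => ∑ i, ∑ j, ∑ k, ∑ l, S k l x * R i j k x * R i j l x := by
    have a : C5Dec (n + 1 + (n + 2) + (n + 2)) fun x =>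
        ∑ i, ∑ j, ∑ k, ∑ l, S k l x * R i j k x * R i j l x :=
      C5Dec.sum _ fun i => C5Dec.sum _ fun j => C5Dec.sum _ fun k => C5Dec.sum _ fun l =>
        ((C5_S h k l k).b.mul (C5_R h i j k k).b).mul (C5_R h i j l k).b
    exact a.integrable (by omega)
  have iA : Integrable fun x => ∑ i, ∑ j, ∑ k, H i k x * S i j x * S j k x := by
    have a : C5Dec (n + 2 + 1 + (n + 1) + (n + 1)) fun x =>
        ∑ i, ∑ j, ∑ k, H i k x * S i j x * S j k x :=
      C5Dec.sum _ fun i => C5Dec.sum _ fun j => C5Dec.sum _ fun k =>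
        ((C5_V h i k).b'.mul (C5_S h i j k).b).mul (C5_S h j k k).b
    exact a.integrable (by omega)
  have iB : Integrable fun x => T x * ∑ i, ∑ j, ∑ k, R i j k x * R i j k x := by
    have a : C5Dec (n + 1 + (n + 2 + (n + 2))) fun x =>
        T x * ∑ i, ∑ j, ∑ k, R i j k x * R i j k x :=
      (C5_T h ⟨0, by omega⟩).b.mul (C5Dec.sum _ fun i => C5Dec.sum _ fun j => C5Dec.sum _ fun k =>
        (C5_R h i j k k).b.mul (C5_R h i j k k).b)
    exact a.integrable (by omega)
  have iQ : Integrable fun x => (∑ i, F i x * F i x) * Q x := by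
    have a : C5Dec (n + n + (n + 4 + 1)) fun x => (∑ i, F i x * F i x) *
        ∑ k, fderiv ℝ (G k) x (EuclideanSpace.single k 1) :=
      (C5Dec.sum _ fun i => (C5_F h i i).b.mul (C5_F h i i).b).mul
        (C5Dec.sum _ fun k => (C5_G h k k).b')
    simp only [h.eQ] at a
    exact a.integrable (by omega)
  have e1 : ∀ x, T x * (∑ i, ∑ j, ∑ k, R i j k x ^ 2) =
      T x * ∑ i, ∑ j, ∑ k, R i j k x * R i j k x := fun x => by
    simp only [pow_two]
  have e2 : ∀ x, (∑ i, F i x ^ 2) * Q x = (∑ i, F i x * F i x) * Q x := fun x => by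
    simp only [pow_two]
  simp only [e1, e2]
  refine ⟨(iA.add iB).sub (iC.const_mul 4), iQ, ?_⟩
  have f1 := C5I_1 hn hd h
  have f2 := C5I_2 hn hd h
  have f3 := C5I_3 hn hd h
  have f4 := C5I_4 hn hd h
  have f5 := C5I_5 hn hd h
  have f6 := C5I_6 hn hd h
  have f7 := C5I_7 hn hd h
  have f8 := C5I_8 hn hd h
  have f9 := C5I_9 hn hd h
  have g1 := integral_add iA iB
  have g2 := integral_sub (iA.add iB) (iC.const_mul 4)
  rw [integral_const_mul] at g2
  simp only [Pi.add_apply] at g2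
  rw [g1] at g2
  rw [g2]
  linarith

end Pool.Agent.H1.LD
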