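import Pool.Agent.H1.LD.CoI

/-!
exists_Hes.  q = ‖Z‖²+ε² > 0, kr m ε Z = q^{-(m+1)/2}.  Kernel functions of Z (coordinates Z_i):
 K_i = kr n Z_i,  S_ij = kr n δ_ij - (n+1) kr(n+2) Z_i Z_j,
 R_ijk = -(n+1) kr(n+2)(δ_ij Z_k + δ_ik Z_j + δ_jk Z_i) + (n+1)(n+3) kr(n+4) Z_i Z_j Z_k,
 T = ∑ S_ii = kr(n+2)(2‖Z‖² + (n+3)ε²) (d = n+3),  V_k = ∑_i R_iik = ∂_k T,  Q = ∑ ∂_k V_k = ΔT = -(n+1)(n+3)(n+5) ε⁴ kr(n+6)
 [Δq^{-a} = 2a(2a+2-d)q^{-a-1} - 4a(a+1)ε²q^{-a-2}, T = 2q^{-(n+1)/2} + (n+1)ε²q^{-(n+3)/2}].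
Derivatives: ∂_k kr m = -(m+1) kr(m+2) Z_k.  Each of them is smooth with |K| ≤ C_ε(1+‖Z‖)^{-n}, |S| ≤ C_ε(1+‖Z‖)^{-n-1}, |R| ≤ C_ε (1+‖Z‖)^{-n-2}, |∂V| ≤ C_ε(1+‖Z‖)^{-n-3}.
Integrate Z = Y - x against μ (finite, supported in a ball): differentiation under the integral (hasFDerivAt_integral_of_dominated_of_fderiv_le; bounded derivatives), and (1+‖Y-x‖)^{-1} ≤ C_R (1+‖Y‖)^{-1} for ‖x‖ ≤ R.
The functions: F i Y = ∫ kr n ε (Y-x) (Y-x)_i dμ(x) etc.
-/

set_option autoImplicit false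

open MeasureTheory Filter Topology Metric Set
open scoped RealInnerProductSpace ENNReal

namespace Pool.Agent.H1.LD

open Pool.Agent.RZ

variable {d : ℕ}

/-- `O ((1 + |Z|) ^ (-p))` -/
private def CoABd (p : ℕ) (f : X d → ℝ) : Prop := ∃ C : ℝ, ∀ Z, |f Z| ≤ C * (1 + ‖Z‖)⁻¹ ^ p

private theorem CoA_pos (Z : X d) : 0 < 1 + ‖Z‖ := by
  have := norm_nonneg Z
  linarith

private theorem CoA_le (i : Fin d) (Z : X d) : |Z i| ≤ 1 + ‖Z‖ := by
  have h1 : |Z i| ≤ ‖Z‖ := by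
    have := EuclideanSpace.norm_eq Z
    have h2 : |Z i| ^ 2 ≤ ‖Z‖ ^ 2 := by
      rw [EuclideanSpace.real_norm_sq_eq, sq_abs]
      exact Finset.single_le_sum (f := fun j => Z j ^ 2) (fun j _ => sq_nonneg _)
        (Finset.mem_univ i)
    exact abs_le_of_sq_le_sq' h2 (norm_nonneg _) |>.2 |> fun h => by
      simpa using h
  linarith

private theorem CoABd.nonneg {p : ℕ} {f : X d → ℝ} (h : CoABd p f) :
    ∃ C : ℝ, 0 ≤ C ∧ ∀ Z, |f Z| ≤ C * (1 + ‖Z‖)⁻¹ ^ p := by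
  obtain ⟨C, hC⟩ := h
  have h0 := (abs_nonneg _).trans (hC 0)
  have hC0 : 0 ≤ C := by simpa using h0
  exact ⟨C, hC0, hC⟩

private theorem CoABd.add {p : ℕ} {f g : X d → ℝ} (hf : CoABd p f) (hg : CoABd p g) :
    CoABd p (fun Z => f Z + g Z) := by
  obtain ⟨C, hC⟩ := hf
  obtain ⟨D, hD⟩ := hg
  refine ⟨C + D, fun Z => (abs_add_le _ _).trans ?_⟩
  rw [add_mul]
  exact add_le_add (hC Z) (hD Z)

private theorem CoABd.const_mul {p : ℕ} {f : X d → ℝ} (c : ℝ) (hf : CoABd p f) :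
    CoABd p (fun Z => c * f Z) := by
  obtain ⟨C, hC⟩ := hf
  refine ⟨|c| * C, fun Z => ?_⟩
  rw [abs_mul, mul_assoc]
  exact mul_le_mul_of_nonneg_left (hC Z) (abs_nonneg _)

private theorem CoABd.coord {p : ℕ} {f : X d → ℝ} (i : Fin d) (hf : CoABd (p + 1) f) :
    CoABd p (fun Z => f Z * Z i) := by
  obtain ⟨C, hC0, hC⟩ := hf.nonneg
  refine ⟨C, fun Z => ?_⟩
  rw [abs_mul]
  have h1 := CoA_pos Z
  calc |f Z| * |Z i| ≤ (C * (1 + ‖Z‖)⁻¹ ^ (p + 1)) * (1 + ‖Z‖) :=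
        mul_le_mul (hC Z) (CoA_le i Z) (abs_nonneg _) (by positivity)
    _ = C * (1 + ‖Z‖)⁻¹ ^ p := by
        rw [pow_succ]
        field_simp

private theorem CoABd.normsq {p : ℕ} {f : X d → ℝ} (hf : CoABd (p + 2) f) :
    CoABd p (fun Z => f Z * ‖Z‖ ^ 2) := by
  obtain ⟨C, hC0, hC⟩ := hf.nonneg
  refine ⟨C, fun Z => ?_⟩
  rw [abs_mul, abs_of_nonneg (sq_nonneg ‖Z‖)]
  have h1 := CoA_pos Z
  have h2 : ‖Z‖ ^ 2 ≤ (1 + ‖Z‖) ^ 2 :=
    pow_le_pow_left₀ (norm_nonneg _) (by linarith) 2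
  calc |f Z| * ‖Z‖ ^ 2 ≤ (C * (1 + ‖Z‖)⁻¹ ^ (p + 2)) * (1 + ‖Z‖) ^ 2 :=
        mul_le_mul (hC Z) h2 (by positivity) (by positivity)
    _ = C * (1 + ‖Z‖)⁻¹ ^ p := by
        rw [pow_add]
        field_simp

private theorem CoABd.krn (m : ℕ) {ε : ℝ} (hε : 0 < ε) :
    CoABd (m + 1) (fun Z : X d => kr m ε Z) := by
  refine ⟨(1 + ε⁻¹) ^ (m + 1), fun Z => ?_⟩
  have h0 := CoA_pos Z
  have hq : 0 < Real.sqrt (‖Z‖ ^ 2 + ε ^ 2) := by positivity
  have h1 : ‖Z‖ ≤ Real.sqrt (‖Z‖ ^ 2 + ε ^ 2) := by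
    apply Real.le_sqrt_of_sq_le
    nlinarith [sq_nonneg ε]
  have h2 : ε ≤ Real.sqrt (‖Z‖ ^ 2 + ε ^ 2) := by
    apply Real.le_sqrt_of_sq_le
    nlinarith [sq_nonneg ‖Z‖]
  have h3 : (Real.sqrt (‖Z‖ ^ 2 + ε ^ 2))⁻¹ ≤ (1 + ε⁻¹) * (1 + ‖Z‖)⁻¹ := by
    rw [← div_eq_mul_inv, le_div_iff₀ h0, inv_mul_le_iff₀ hq]
    have h4 : 1 ≤ Real.sqrt (‖Z‖ ^ 2 + ε ^ 2) * ε⁻¹ := by
      rw [← div_eq_mul_inv, le_div_iff₀ hε]
      linarith
    nlinarith
  show |(Real.sqrt (‖Z‖ ^ 2 + ε ^ 2))⁻¹ ^ (m + 1)| ≤ _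
  rw [abs_of_nonneg (by positivity), ← mul_pow]
  exact pow_le_pow_left₀ (by positivity) h3 _

private theorem CoABd.unif {ι : Type} [Fintype ι] {p : ℕ} {g : ι → X d → ℝ}
    (h : ∀ i, CoABd p (g i)) : ∃ C : ℝ, 0 ≤ C ∧ ∀ i Z, |g i Z| ≤ C * (1 + ‖Z‖)⁻¹ ^ p := by
  choose C hC0 hC using fun i => (h i).nonneg
  refine ⟨∑ i, C i, Finset.sum_nonneg fun i _ => hC0 i, fun i Z => (hC i Z).trans ?_⟩
  have h0 := CoA_pos Z
  exact mul_le_mul_of_nonneg_right
    (Finset.single_le_sum (fun j _ => hC0 j) (Finset.mem_univ i)) (by positivity)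

/-- smooth kernels with their derivatives, with decay of order `p` -/
private structure CoAK (p : ℕ) (f : X d → ℝ) (f' : Fin d → X d → ℝ) : Prop where
  cd : ContDiff ℝ 1 f
  ef : ∀ Z k, fderiv ℝ f Z (EuclideanSpace.single k 1) = f' k Z
  b : CoABd p f
  b' : ∀ k, CoABd (p + 1) (f' k)

private theorem CoAK.congr {p : ℕ} {f : X d → ℝ} {f' g' : Fin d → X d → ℝ}
    (h : CoAK p f f') (e : ∀ k Z, f' k Z = g' k Z) : CoAK p f g' := by
  have : f' = g' := funext fun k => funext fun Z => e k Z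
  rwa [← this]

private theorem CoAK.add {p : ℕ} {f g : X d → ℝ} {f' g' : Fin d → X d → ℝ}
    (hf : CoAK p f f') (hg : CoAK p g g') :
    CoAK p (fun Z => f Z + g Z) (fun k Z => f' k Z + g' k Z) where
  cd := hf.cd.add hg.cd
  ef Z k := by
    rw [fderiv_fun_add (hf.cd.differentiable one_ne_zero Z) (hg.cd.differentiable one_ne_zero Z)]
    simp only [add_apply, hf.ef, hg.ef]
  b := hf.b.add hg.b
  b' k := (hf.b' k).add (hg.b' k)

private theorem CoAK.const_mul {p : ℕ} {f : X d → ℝ} {f' : Fin d → X d → ℝ} (c : ℝ)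
    (hf : CoAK p f f') : CoAK p (fun Z => c * f Z) (fun k Z => c * f' k Z) where
  cd := contDiff_const.mul hf.cd
  ef Z k := by
    rw [fderiv_const_mul (hf.cd.differentiable one_ne_zero Z)]
    simp only [smul_apply, smul_eq_mul, hf.ef]
  b := hf.b.const_mul c
  b' k := (hf.b' k).const_mul c

private theorem CoA_hc (i : Fin d) (Z : X d) :
    HasFDerivAt (fun Z : X d => Z i) (EuclideanSpace.proj i : X d →L[ℝ] ℝ) Z :=
  (EuclideanSpace.proj i : X d →L[ℝ] ℝ).hasFDerivAt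

private theorem CoA_single (i k : Fin d) :
    (EuclideanSpace.single k (1 : ℝ) : X d) i = if i = k then 1 else 0 := by
  simp

private theorem CoAK.coord {p : ℕ} {f : X d → ℝ} {f' : Fin d → X d → ℝ} (i : Fin d)
    (hf : CoAK (p + 1) f f') :
    CoAK p (fun Z => f Z * Z i)
      (fun k Z => f' k Z * Z i + (if i = k then 1 else 0) * f Z) where
  cd := hf.cd.mul (EuclideanSpace.proj i : X d →L[ℝ] ℝ).contDiff
  ef Z k := by
    have h1 : HasFDerivAt f (fderiv ℝ f Z) Z :=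
      (hf.cd.differentiable one_ne_zero Z).hasFDerivAt
    have h2 : HasFDerivAt (fun Z : X d => f Z * Z i) _ Z := h1.mul (CoA_hc i Z)
    rw [h2.fderiv]
    simp only [add_apply, smul_apply, smul_eq_mul, hf.ef, PiLp.proj_apply, CoA_single]
    ring
  b := hf.b.coord i
  b' k := by
    have h1 : CoABd (p + 1) (fun Z => f' k Z * Z i) := (hf.b' k).coord i
    exact h1.add (hf.b.const_mul _)

private theorem CoAK.normsq {p : ℕ} {f : X d → ℝ} {f' : Fin d → X d → ℝ}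
    (hf : CoAK (p + 2) f f') :
    CoAK p (fun Z => f Z * ‖Z‖ ^ 2)
      (fun k Z => f' k Z * ‖Z‖ ^ 2 + 2 * (f Z * Z k)) where
  cd := hf.cd.mul (contDiff_norm_sq ℝ)
  ef Z k := by
    have h1 : HasFDerivAt f (fderiv ℝ f Z) Z :=
      (hf.cd.differentiable one_ne_zero Z).hasFDerivAt
    have h2 : HasFDerivAt (fun Z : X d => f Z * ‖Z‖ ^ 2) _ Z :=
      h1.mul (hasStrictFDerivAt_norm_sq Z).hasFDerivAt
    rw [h2.fderiv]
    simp only [add_apply, smul_apply, smul_eq_mul, hf.ef, innerSL_apply_apply, nsmul_eq_mul,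
      EuclideanSpace.inner_single_right]
    simp
    ring
  b := hf.b.normsq
  b' k := by
    have h1 : CoABd (p + 1) (fun Z => f' k Z * ‖Z‖ ^ 2) := (hf.b' k).normsq
    exact h1.add ((hf.b.coord k).const_mul 2)

private theorem CoAK.krn (m : ℕ) {ε : ℝ} (hε : 0 < ε) :
    CoAK (d := d) (m + 1) (fun Z => kr m ε Z)
      (fun k Z => -(m + 1) * (kr (m + 2) ε Z * Z k)) where
  cd := by
    unfold kr
    have h1 : ContDiff ℝ 1 fun Z : X d => ‖Z‖ ^ 2 + ε ^ 2 :=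
      (contDiff_norm_sq ℝ).add contDiff_const
    have h2 := h1.sqrt (fun Z => by positivity)
    exact (h2.inv (fun Z => by positivity)).pow _
  ef Z k := by
    have hq : 0 < Real.sqrt (‖Z‖ ^ 2 + ε ^ 2) := by positivity
    have h1 : HasDerivAt (fun s : ℝ => (Real.sqrt (s + ε ^ 2))⁻¹ ^ (m + 1))
        (-((m + 1) / 2) * (Real.sqrt (‖Z‖ ^ 2 + ε ^ 2))⁻¹ ^ (m + 3)) (‖Z‖ ^ 2) := by
      have h2 : HasDerivAt (fun s : ℝ => s + ε ^ 2) 1 (‖Z‖ ^ 2) :=
        (hasDerivAt_id _).add_const _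
      have h3 : HasDerivAt (fun s : ℝ => (Real.sqrt (s + ε ^ 2))⁻¹ ^ (m + 1)) _ (‖Z‖ ^ 2) :=
        ((h2.sqrt (by positivity)).inv hq.ne').pow (m + 1)
      convert h3 using 1
      have h6 : ((fun y : ℝ => Real.sqrt (y + ε ^ 2))⁻¹ (‖Z‖ ^ 2)) =
          (Real.sqrt (‖Z‖ ^ 2 + ε ^ 2))⁻¹ := rfl
      rw [h6, Nat.add_sub_cancel, pow_add _ m 3]
      push_cast
      field_simp
    have h4 := h1.comp_hasFDerivAt Z (hasStrictFDerivAt_norm_sq Z).hasFDerivAt
    have h5 : fderiv ℝ (fun Z : X d => kr m ε Z) Z = _ := h4.fderiv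
    rw [h5]
    simp only [smul_apply, smul_eq_mul, innerSL_apply_apply, nsmul_eq_mul,
      EuclideanSpace.inner_single_right, kr]
    simp
    ring
  b := CoABd.krn m hε
  b' k := by
    have h1 : CoABd (m + 1 + 1) (fun Z : X d => kr (m + 2) ε Z * Z k) :=
      (CoABd.krn (m + 2) hε).coord k
    exact h1.const_mul _

private theorem CoAK.cont' {p : ℕ} {f : X d → ℝ} {f' : Fin d → X d → ℝ} (h : CoAK p f f')
    (k : Fin d) : Continuous (f' k) := by
  have h1 : Continuous fun Z => fderiv ℝ f Z (EuclideanSpace.single k 1) :=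
    (h.cd.continuous_fderiv one_ne_zero).clm_apply continuous_const
  have h2 : (fun Z => fderiv ℝ f Z (EuclideanSpace.single k 1)) = f' k :=
    funext fun Z => h.ef Z k
  rwa [h2] at h1

private theorem CoA_inv_le (Z : X d) : (1 + ‖Z‖)⁻¹ ≤ 1 := by
  have := norm_nonneg Z
  exact inv_le_one_of_one_le₀ (by linarith)

private theorem CoABd.bounded {p : ℕ} {f : X d → ℝ} (h : CoABd p f) :
    ∃ C : ℝ, 0 ≤ C ∧ ∀ Z, |f Z| ≤ C := by
  obtain ⟨C, hC0, hC⟩ := h.nonneg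
  refine ⟨C, hC0, fun Z => (hC Z).trans ?_⟩
  have h0 := CoA_pos Z
  have h1 : (1 + ‖Z‖)⁻¹ ^ p ≤ 1 := pow_le_one₀ (by positivity) (CoA_inv_le Z)
  nlinarith

private theorem CoA_op (L : X d →L[ℝ] ℝ) {C : ℝ} (hC : 0 ≤ C)
    (h : ∀ k, |L (EuclideanSpace.single k 1)| ≤ C) : ‖L‖ ≤ d * C := by
  refine ContinuousLinearMap.opNorm_le_bound _ (by positivity) fun v => ?_
  have h1 : v = ∑ k, v k • EuclideanSpace.single k (1 : ℝ) := by
    have h2 := (EuclideanSpace.basisFun (Fin d) ℝ).sum_repr v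
    simp only [EuclideanSpace.basisFun_repr, EuclideanSpace.basisFun_apply] at h2
    exact h2.symm
  have h3 : L v = ∑ k, v k * L (EuclideanSpace.single k 1) := by
    conv_lhs => rw [h1]
    rw [map_sum]
    refine Finset.sum_congr rfl fun k _ => ?_
    rw [map_smul, smul_eq_mul]
  rw [h3]
  have hv : ∀ k, |v k| ≤ ‖v‖ := by
    intro k
    have := PiLp.norm_apply_le v k
    simpa using this
  calc ‖∑ k, v k * L (EuclideanSpace.single k 1)‖
      ≤ ∑ k, ‖v k * L (EuclideanSpace.single k 1)‖ := norm_sum_le _ _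
    _ ≤ ∑ _k : Fin d, ‖v‖ * C := by
        refine Finset.sum_le_sum fun k _ => ?_
        rw [norm_mul, Real.norm_eq_abs, Real.norm_eq_abs]
        exact mul_le_mul (hv k) (h k) (abs_nonneg _) (norm_nonneg _)
    _ = d * C * ‖v‖ := by
        rw [Finset.sum_const, Finset.card_univ, Fintype.card_fin, nsmul_eq_mul]
        ring

section

variable {μ : Measure (X d)} [IsFiniteMeasure μ]

private theorem CoA_integrable {f : X d → ℝ} (hc : Continuous f) {C : ℝ}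
    (h : ∀ Z, |f Z| ≤ C) (Y : X d) : Integrable (fun x => f (Y - x)) μ :=
  Integrable.of_bound (hc.comp (continuous_const.sub continuous_id)).aestronglyMeasurable C
    (Eventually.of_forall fun x => by
      rw [Real.norm_eq_abs]
      exact h _)

private theorem CoA_cont {f : X d → ℝ} (hc : Continuous f) {C : ℝ} (h : ∀ Z, |f Z| ≤ C) :
    Continuous fun Y => ∫ x, f (Y - x) ∂μ := by
  refine continuous_of_dominated (bound := fun _ => C) (fun Y =>
    (hc.comp (continuous_const.sub continuous_id)).aestronglyMeasurable)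
    (fun Y => Eventually.of_forall fun x => ?_) (integrable_const C)
    (Eventually.of_forall fun x => ?_)
  · rw [Real.norm_eq_abs]
    exact h _
  · exact hc.comp (continuous_id.sub continuous_const)

private theorem CoA_bd {A : ℝ} (hA : μ (closedBall 0 A)ᶜ = 0) {p : ℕ} {f : X d → ℝ}
    (h : CoABd p f) : CoABd p (fun Y => ∫ x, f (Y - x) ∂μ) := by
  obtain ⟨C, hC0, hC⟩ := h.nonneg
  refine ⟨C * (1 + |A|) ^ p * μ.real Set.univ, fun Y => ?_⟩
  have h0 := CoA_pos Y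
  have h1 : ∀ᵐ x ∂μ, ‖f (Y - x)‖ ≤ C * ((1 + |A|) * (1 + ‖Y‖)⁻¹) ^ p := by
    have h2 : ∀ᵐ x ∂μ, x ∈ closedBall (0 : X d) A := by
      rw [ae_iff]
      exact hA
    filter_upwards [h2] with x hx
    rw [mem_closedBall_zero_iff] at hx
    rw [Real.norm_eq_abs]
    refine (hC _).trans (mul_le_mul_of_nonneg_left ?_ hC0)
    have h3 := CoA_pos (Y - x)
    refine pow_le_pow_left₀ (by positivity) ?_ _
    rw [← div_eq_mul_inv, le_div_iff₀ h0, inv_mul_le_iff₀ h3]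
    have h4 : ‖Y‖ ≤ ‖Y - x‖ + ‖x‖ := by
      have := norm_add_le (Y - x) x
      rwa [sub_add_cancel] at this
    have h5 : ‖x‖ ≤ |A| := hx.trans (le_abs_self A)
    have h6 := abs_nonneg A
    have h7 := norm_nonneg (Y - x)
    nlinarith
  have h8 := norm_integral_le_of_norm_le_const h1
  rw [Real.norm_eq_abs] at h8
  refine h8.trans (le_of_eq ?_)
  rw [mul_pow]
  ring

private theorem CoA_diff {p : ℕ} {f : X d → ℝ} {f' : Fin d → X d → ℝ} (h : CoAK p f f') :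
    Differentiable ℝ (fun Y => ∫ x, f (Y - x) ∂μ) ∧
      ∀ k Y, fderiv ℝ (fun Y => ∫ x, f (Y - x) ∂μ) Y (EuclideanSpace.single k 1) =
        ∫ x, f' k (Y - x) ∂μ := by
  obtain ⟨C, hC0, hC⟩ := CoABd.unif h.b'
  have hC' : ∀ k Z, |f' k Z| ≤ C := by
    intro k Z
    refine (hC k Z).trans ?_
    have h0 := CoA_pos Z
    have h1 : (1 + ‖Z‖)⁻¹ ^ (p + 1) ≤ 1 := pow_le_one₀ (by positivity) (CoA_inv_le Z)
    nlinarith
  obtain ⟨D, hD0, hD⟩ := h.b.bounded
  have hL : ∀ Z, ‖fderiv ℝ f Z‖ ≤ d * C := fun Z =>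
    CoA_op _ hC0 fun k => by
      rw [h.ef]
      exact hC' k Z
  have hcL : Continuous (fderiv ℝ f) := h.cd.continuous_fderiv one_ne_zero
  have key : ∀ Y, HasFDerivAt (fun Y => ∫ x, f (Y - x) ∂μ) (∫ x, fderiv ℝ f (Y - x) ∂μ) Y := by
    intro Y
    refine hasFDerivAt_integral_of_dominated_of_fderiv_le (s := Set.univ)
      (bound := fun _ => d * C) (F' := fun Y x => fderiv ℝ f (Y - x)) Filter.univ_mem
      (Eventually.of_forall fun Y =>
        (h.cd.continuous.comp (continuous_const.sub continuous_id)).aestronglyMeasurable)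
      (CoA_integrable h.cd.continuous hD Y)
      (hcL.comp (continuous_const.sub continuous_id)).aestronglyMeasurable
      (Eventually.of_forall fun x Y _ => hL _) (integrable_const _)
      (Eventually.of_forall fun x Y _ => ?_)
    have h1 : HasFDerivAt f (fderiv ℝ f (Y - x)) (Y - x) :=
      (h.cd.differentiable one_ne_zero _).hasFDerivAt
    have h2 : HasFDerivAt (fun Y : X d => Y - x) (ContinuousLinearMap.id ℝ (X d)) Y :=
      (hasFDerivAt_id Y).sub_const x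
    have h3 := h1.comp Y h2
    rwa [ContinuousLinearMap.comp_id] at h3
  refine ⟨fun Y => (key Y).differentiableAt, fun k Y => ?_⟩
  rw [(key Y).fderiv, ContinuousLinearMap.integral_apply]
  · simp only [h.ef]
  · exact Integrable.of_bound
      (hcL.comp (continuous_const.sub continuous_id)).aestronglyMeasurable (d * C)
      (Eventually.of_forall fun x => hL _)

end


private theorem CoA_intv {p : ℕ} {f : X d → ℝ} (hc : Continuous f) (h : CoABd (p + 1) f)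
    (μ : Measure (X d)) [IsFiniteMeasure μ] (Y : X d) :
    Integrable (fun x => f (Y - x) • (Y - x)) μ := by
  obtain ⟨C, hC0, hC⟩ := h.nonneg
  have h1 : Continuous fun x : X d => Y - x := continuous_const.sub continuous_id
  refine Integrable.of_bound ((hc.comp h1).smul h1).aestronglyMeasurable C
    (Eventually.of_forall fun x => ?_)
  have h0 := CoA_pos (Y - x)
  have h2 : (1 + ‖Y - x‖)⁻¹ ^ p ≤ 1 := pow_le_one₀ (by positivity) (CoA_inv_le _)
  rw [norm_smul, Real.norm_eq_abs]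
  calc |f (Y - x)| * ‖Y - x‖ ≤ (C * (1 + ‖Y - x‖)⁻¹ ^ (p + 1)) * (1 + ‖Y - x‖) :=
        mul_le_mul (hC _) (by linarith) (norm_nonneg _) (by positivity)
    _ = C * (1 + ‖Y - x‖)⁻¹ ^ p := by
        rw [pow_succ]
        field_simp
    _ ≤ C := by nlinarith

/-- the kernel of `F` -/
private noncomputable def CoAF (n : ℕ) (ε : ℝ) (i : Fin d) (Z : X d) : ℝ := kr n ε Z * Z i

/-- the kernel of `S` -/
private noncomputable def CoAS (n : ℕ) (ε : ℝ) (i j : Fin d) (Z : X d) : ℝ :=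
  (if i = j then 1 else 0) * kr n ε Z + -(n + 1) * (kr (n + 2) ε Z * Z j * Z i)

/-- the kernel of `R` -/
private noncomputable def CoAR (n : ℕ) (ε : ℝ) (i j k : Fin d) (Z : X d) : ℝ :=
  (if i = j then 1 else 0) * (-(n + 1) * (kr (n + 2) ε Z * Z k)) +
    -(n + 1) * ((-(n + 3) * (kr (n + 4) ε Z * Z k) * Z j +
      (if j = k then 1 else 0) * kr (n + 2) ε Z) * Z i +
      (if i = k then 1 else 0) * (kr (n + 2) ε Z * Z j))

/-- the kernel of `V` -/
private noncomputable def CoAV (n : ℕ) (ε : ℝ) (k : Fin d) (Z : X d) : ℝ :=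
  -((n + 1) * (n + 5)) * (kr (n + 2) ε Z * Z k) +
    (n + 1) * (n + 3) * (kr (n + 4) ε Z * ‖Z‖ ^ 2 * Z k)

/-- the kernel of the derivative of `V` -/
private noncomputable def CoAW (n : ℕ) (ε : ℝ) (k l : Fin d) (Z : X d) : ℝ :=
  -((n + 1) * (n + 5)) * (-(n + 3) * (kr (n + 4) ε Z * Z l) * Z k +
      (if k = l then 1 else 0) * kr (n + 2) ε Z) +
    (n + 1) * (n + 3) * ((-(n + 5) * (kr (n + 6) ε Z * Z l) * ‖Z‖ ^ 2 +
      2 * (kr (n + 4) ε Z * Z l)) * Z k + (if k = l then 1 else 0) * (kr (n + 4) ε Z * ‖Z‖ ^ 2))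

private theorem CoAK_F (n : ℕ) {ε : ℝ} (hε : 0 < ε) (i : Fin d) :
    CoAK n (CoAF n ε i) (CoAS n ε i) :=
  ((CoAK.krn n hε).coord i).congr fun k Z => by
    unfold CoAS
    ring

private theorem CoAK_S (n : ℕ) {ε : ℝ} (hε : 0 < ε) (i j : Fin d) :
    CoAK (n + 1) (CoAS n ε i j) (CoAR n ε i j) := by
  have h1 : CoAK (d := d) (n + 1) (fun Z => kr (n + 2) ε Z * Z j * Z i) _ :=
    ((CoAK.krn (n + 2) hε).coord j).coord i
  refine (((CoAK.krn n hε).const_mul (if i = j then 1 else 0)).add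
    (h1.const_mul (-(n + 1)))).congr fun k Z => ?_
  unfold CoAR
  push_cast
  ring

private theorem CoAK_V (n : ℕ) {ε : ℝ} (hε : 0 < ε) (k : Fin d) :
    CoAK (n + 2) (CoAV n ε k) (CoAW n ε k) := by
  have h1 : CoAK (d := d) (n + 2) (fun Z => kr (n + 2) ε Z * Z k) _ :=
    (CoAK.krn (n + 2) hε).coord k
  have h2 : CoAK (d := d) (n + 2) (fun Z => kr (n + 4) ε Z * ‖Z‖ ^ 2 * Z k) _ :=
    (((CoAK.krn (n + 4) hε) : CoAK (n + 3 + 2) _ _).normsq : CoAK (n + 2 + 1) _ _).coord k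
  refine ((h1.const_mul (-((n + 1) * (n + 5)))).add
    (h2.const_mul ((n + 1) * (n + 3)))).congr fun l Z => ?_
  unfold CoAW
  push_cast
  ring

private theorem CoA_krs (m : ℕ) {ε : ℝ} (hε : 0 < ε) (Z : X d) :
    kr m ε Z = kr (m + 2) ε Z * (‖Z‖ ^ 2 + ε ^ 2) := by
  have hq : 0 < Real.sqrt (‖Z‖ ^ 2 + ε ^ 2) := by positivity
  have h1 : ‖Z‖ ^ 2 + ε ^ 2 = Real.sqrt (‖Z‖ ^ 2 + ε ^ 2) ^ 2 :=
    (Real.sq_sqrt (by positivity)).symm
  unfold kr
  conv_rhs => rw [h1]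
  rw [Real.sqrt_sq hq.le, show m + 2 + 1 = m + 1 + 2 by ring, pow_add _ (m + 1) 2]
  field_simp

private theorem CoA_eT {n : ℕ} {ε : ℝ} (hε : 0 < ε) (Z : X (n + 3)) :
    kr (n + 2) ε Z * (2 * ‖Z‖ ^ 2 + (n + 3) * ε ^ 2) = ∑ i, CoAS n ε i i Z := by
  have h1 : ∑ i, CoAS n ε i i Z =
      ∑ i, (kr n ε Z + -(n + 1) * kr (n + 2) ε Z * Z i ^ 2) := by
    refine Finset.sum_congr rfl fun i _ => ?_
    unfold CoAS
    rw [if_pos rfl]
    ring
  rw [h1, Finset.sum_add_distrib, ← Finset.mul_sum, ← EuclideanSpace.real_norm_sq_eq,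
    Finset.sum_const, Finset.card_univ, Fintype.card_fin, nsmul_eq_mul, CoA_krs n hε]
  push_cast
  ring

private theorem CoA_eV {n : ℕ} {ε : ℝ} (k : Fin (n + 3)) (Z : X (n + 3)) :
    CoAV n ε k Z = ∑ i, CoAR n ε i i k Z := by
  have h1 : ∑ i, CoAR n ε i i k Z =
      ∑ i, (-(n + 1) * (kr (n + 2) ε Z * Z k) +
        (n + 1) * (n + 3) * (kr (n + 4) ε Z * Z k) * Z i ^ 2 +
        (if i = k then -(2 * (n + 1)) * (kr (n + 2) ε Z * Z i) else 0)) := by
    refine Finset.sum_congr rfl fun i _ => ?_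
    unfold CoAR
    rw [if_pos rfl]
    split_ifs <;> ring
  rw [h1, Finset.sum_add_distrib, Finset.sum_add_distrib,
    ← Finset.mul_sum _ (fun i => Z i ^ 2) _,
    ← EuclideanSpace.real_norm_sq_eq, Finset.sum_const, Finset.card_univ, Fintype.card_fin,
    nsmul_eq_mul, Finset.sum_ite_eq' Finset.univ k, if_pos (Finset.mem_univ k)]
  unfold CoAV
  push_cast
  ring

private theorem CoA_eQ {n : ℕ} {ε : ℝ} (hε : 0 < ε) (Z : X (n + 3)) :
    ∑ k, CoAW n ε k k Z = -((n + 1) * (n + 3) * (n + 5)) * (ε ^ 4 * kr (n + 6) ε Z) := by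
  have h1 : ∑ k, CoAW n ε k k Z =
      ∑ k, (-((n + 1) * (n + 5)) * kr (n + 2) ε Z + (n + 1) * (n + 3) * (kr (n + 4) ε Z * ‖Z‖ ^ 2)
        + ((n + 1) * (n + 5) * (n + 3) * kr (n + 4) ε Z
          + (n + 1) * (n + 3) * (-(n + 5) * kr (n + 6) ε Z * ‖Z‖ ^ 2 + 2 * kr (n + 4) ε Z))
          * Z k ^ 2) := by
    refine Finset.sum_congr rfl fun i _ => ?_
    unfold CoAW
    rw [if_pos rfl]
    ring
  rw [h1, Finset.sum_add_distrib, ← Finset.mul_sum,
    ← EuclideanSpace.real_norm_sq_eq, Finset.sum_const, Finset.card_univ, Fintype.card_fin,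
    nsmul_eq_mul, CoA_krs (n + 2) hε, show n + 2 + 2 = n + 4 by ring, CoA_krs (n + 4) hε,
    show n + 4 + 2 = n + 6 by ring]
  push_cast
  ring

private theorem CoA_sR {n : ℕ} {ε : ℝ} (i j k : Fin d) (Z : X d) :
    CoAR n ε i j k Z = CoAR n ε i k j Z := by
  unfold CoAR
  by_cases h : j = k
  · subst h
    rfl
  · rw [if_neg h, if_neg (Ne.symm h)]
    ring

private theorem CoA_sS {n : ℕ} {ε : ℝ} (i j : Fin d) (Z : X d) :
    CoAS n ε i j Z = CoAS n ε j i Z := by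
  unfold CoAS
  by_cases h : i = j
  · subst h
    rfl
  · rw [if_neg h, if_neg (Ne.symm h)]
    ring

private theorem CoA_Fe {n : ℕ} {ε : ℝ} (hε : 0 < ε) (μ : Measure (X d))
    [IsFiniteMeasure μ] (i : Fin d) (Y : X d) :
    ⟪EuclideanSpace.single i 1, Fe n ε μ Y⟫ = ∫ x, CoAF n ε i (Y - x) ∂μ := by
  unfold Fe
  rw [← integral_inner (CoA_intv (p := n) (CoAK.krn n hε).cd.continuous (CoABd.krn n hε) μ Y)]
  refine integral_congr_ae (Eventually.of_forall fun x => ?_)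
  show ⟪EuclideanSpace.single i 1, kr n ε (Y - x) • (Y - x)⟫ = CoAF n ε i (Y - x)
  rw [EuclideanSpace.inner_single_left]
  simp [CoAF]

private theorem CoA_Se {n : ℕ} {ε : ℝ} (hε : 0 < ε) (μ : Measure (X d))
    [IsFiniteMeasure μ] (i j : Fin d) (Y : X d) :
    ⟪EuclideanSpace.single i 1, Se n ε μ Y (EuclideanSpace.single j 1)⟫ =
      ∫ x, CoAS n ε i j (Y - x) ∂μ := by
  obtain ⟨C, hC0, hC⟩ := (CoABd.krn (d := d) n hε).bounded
  have h1 : Integrable (fun x => kr n ε (Y - x) • (EuclideanSpace.single j (1 : ℝ) : X d)) μ :=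
    (CoA_integrable (CoAK.krn n hε).cd.continuous hC Y).smul_const _
  have h2 : CoABd (n + 1 + 1) (fun Z : X d => (n + 1) * (kr (n + 2) ε Z * Z j)) :=
    ((CoABd.krn (n + 2) hε).coord j).const_mul _
  have h3 : Continuous (fun Z : X d => (n + 1) * (kr (n + 2) ε Z * Z j)) :=
    continuous_const.mul ((CoAK.krn (n + 2) hε).coord j).cd.continuous
  have h4 := CoA_intv h3 h2 μ Y
  have h5 : ∀ x, dK n ε (Y - x) (EuclideanSpace.single j 1) =
      kr n ε (Y - x) • (EuclideanSpace.single j (1 : ℝ) : X d) -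
        ((n + 1) * (kr (n + 2) ε (Y - x) * (Y - x) j)) • (Y - x) := by
    intro x
    unfold dK
    rw [EuclideanSpace.inner_single_right]
    simp
  have h6 : Integrable (fun x => kr n ε (Y - x) • (EuclideanSpace.single j (1 : ℝ) : X d) -
      ((n + 1) * (kr (n + 2) ε (Y - x) * (Y - x) j)) • (Y - x)) μ := h1.sub h4
  unfold Se
  simp only [h5]
  rw [← integral_inner h6]
  refine integral_congr_ae (Eventually.of_forall fun x => ?_)
  show ⟪EuclideanSpace.single i 1, kr n ε (Y - x) • (EuclideanSpace.single j (1 : ℝ) : X d) -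
        ((n + 1) * (kr (n + 2) ε (Y - x) * (Y - x) j)) • (Y - x)⟫ = CoAS n ε i j (Y - x)
  rw [EuclideanSpace.inner_single_left]
  unfold CoAS
  by_cases h : i = j
  · subst h
    simp
    ring
  · simp [h]
    ring

theorem exists_Hes {n : ℕ} (hn : 1 ≤ n) (hd : d = n + 3) {ε : ℝ} (hε : 0 < ε)
    (μ : Measure (X d)) [IsFiniteMeasure μ] {A : ℝ} (hA : μ (closedBall 0 A)ᶜ = 0) :
    ∃ (R : Fin d → Fin d → Fin d → X d → ℝ) (V : Fin d → X d → ℝ),
      Hes n (fun i Y => ⟪EuclideanSpace.single i 1, Fe n ε μ Y⟫)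
        (fun i j Y => ⟪EuclideanSpace.single i 1, Se n ε μ Y (EuclideanSpace.single j 1)⟫) R
        (fun Y => ∫ x, kr (n + 2) ε (Y - x) * (2 * ‖Y - x‖ ^ 2 + (n + 3) * ε ^ 2) ∂μ) V
        (fun Y => -((n + 1) * (n + 3) * (n + 5)) * ∫ x, ε ^ 4 * kr (n + 6) ε (Y - x) ∂μ) := by
  subst hd
  have kF := fun i => CoAK_F (d := n + 3) n hε i
  have kS := fun i j => CoAK_S (d := n + 3) n hε i j
  have kV := fun k => CoAK_V (d := n + 3) n hε k
  have iS : ∀ i j Y, Integrable (fun x => CoAS n ε i j (Y - x)) μ := fun i j Y => by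
    obtain ⟨C, hC0, hC⟩ := (kS i j).b.bounded
    exact CoA_integrable (kS i j).cd.continuous hC Y
  have bR : ∀ i j k, CoABd (n + 2) (CoAR (d := n + 3) n ε i j k) := fun i j k => (kS i j).b' k
  have cR : ∀ i j k, Continuous (CoAR (d := n + 3) n ε i j k) := fun i j k => (kS i j).cont' k
  have bW : ∀ k l, CoABd (n + 3) (CoAW (d := n + 3) n ε k l) := fun k l => (kV k).b' l
  have cW : ∀ k l, Continuous (CoAW (d := n + 3) n ε k l) := fun k l => (kV k).cont' l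
  have iR : ∀ i j k Y, Integrable (fun x => CoAR n ε i j k (Y - x)) μ := fun i j k Y => by
    obtain ⟨C, hC0, hC⟩ := (bR i j k).bounded
    exact CoA_integrable (cR i j k) hC Y
  have iW : ∀ k l Y, Integrable (fun x => CoAW n ε k l (Y - x)) μ := fun k l Y => by
    obtain ⟨C, hC0, hC⟩ := (bW k l).bounded
    exact CoA_integrable (cW k l) hC Y
  refine ⟨fun i j k Y => ∫ x, CoAR n ε i j k (Y - x) ∂μ, fun k Y => ∫ x, CoAV n ε k (Y - x) ∂μ,
    ?_⟩
  have eF : (fun (i : Fin (n + 3)) (Y : X (n + 3)) =>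
      (⟪EuclideanSpace.single i 1, Fe n ε μ Y⟫ : ℝ)) =
      fun i Y => ∫ x, CoAF n ε i (Y - x) ∂μ :=
    funext fun i => funext fun Y => CoA_Fe hε μ i Y
  have eS : (fun (i j : Fin (n + 3)) (Y : X (n + 3)) =>
      (⟪EuclideanSpace.single i 1, Se n ε μ Y (EuclideanSpace.single j 1)⟫ : ℝ)) =
      fun i j Y => ∫ x, CoAS n ε i j (Y - x) ∂μ :=
    funext fun i => funext fun j => funext fun Y => CoA_Se hε μ i j Y
  rw [eF, eS]
  have hQ : (fun Y : X (n + 3) => -((n + 1) * (n + 3) * (n + 5)) *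
      ∫ x, ε ^ 4 * kr (n + 6) ε (Y - x) ∂μ) =
      fun Y => ∑ k, ∫ x, CoAW n ε k k (Y - x) ∂μ := by
    funext Y
    rw [← integral_const_mul, ← integral_finsetSum _ fun k _ => iW k k Y]
    exact integral_congr_ae (Eventually.of_forall fun x => (CoA_eQ hε (Y - x)).symm)
  rw [hQ]
  refine ⟨fun i => (CoA_diff (kF i)).1, fun i j => (CoA_diff (kS i j)).1,
    fun k => (CoA_diff (kV k)).1, fun i j k => ?_, ?_, fun i j x => (CoA_diff (kF i)).2 j x,
    fun i j k x => (CoA_diff (kS i j)).2 k x, fun x => ?_, fun x => ?_, fun k x => ?_,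
    fun i j x => ?_, fun i j k x => ?_, ?_⟩
  · obtain ⟨C, hC0, hC⟩ := (bR i j k).bounded
    exact CoA_cont (cR i j k) hC
  · refine continuous_finsetSum _ fun k _ => ?_
    obtain ⟨C, hC0, hC⟩ := (bW k k).bounded
    exact CoA_cont (cW k k) hC
  · exact Finset.sum_congr rfl fun k _ => (CoA_diff (kV k)).2 k x
  · rw [← integral_finsetSum _ fun i _ => iS i i x]
    exact integral_congr_ae (Eventually.of_forall fun y => CoA_eT hε (x - y))
  · rw [← integral_finsetSum _ fun i _ => iR i i k x]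
    exact integral_congr_ae (Eventually.of_forall fun y => CoA_eV k (x - y))
  · exact integral_congr_ae (Eventually.of_forall fun y => CoA_sS i j (x - y))
  · exact integral_congr_ae (Eventually.of_forall fun y => CoA_sR i j k (x - y))
  · obtain ⟨C1, p1, h1⟩ := CoABd.unif (fun i => CoA_bd hA (kF i).b)
    obtain ⟨C2, p2, h2⟩ := CoABd.unif (ι := Fin (n + 3) × Fin (n + 3))
      (fun i => CoA_bd hA (kS i.1 i.2).b)
    obtain ⟨C3, p3, h3⟩ := CoABd.unif (ι := Fin (n + 3) × Fin (n + 3) × Fin (n + 3))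
      (fun i => CoA_bd hA (bR i.1 i.2.1 i.2.2))
    obtain ⟨C4, p4, h4⟩ := CoABd.unif (ι := Fin (n + 3) × Fin (n + 3))
      (fun i => CoA_bd hA (bW i.1 i.2))
    refine ⟨C1 + C2 + C3 + C4, fun x => ?_⟩
    have h0 := CoA_pos x
    refine ⟨fun i => (h1 i x).trans ?_, fun i j => (h2 (i, j) x).trans ?_,
      fun i j k => (h3 (i, j, k) x).trans ?_, fun k l => ?_⟩
    · exact mul_le_mul_of_nonneg_right (by linarith) (by positivity)
    · exact mul_le_mul_of_nonneg_right (by linarith) (by positivity)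
    · exact mul_le_mul_of_nonneg_right (by linarith) (by positivity)
    · rw [(CoA_diff (kV k)).2 l x]
      refine (h4 (k, l) x).trans ?_
      exact mul_le_mul_of_nonneg_right (by linarith) (by positivity)

end Pool.Agent.H1.LD
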