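import Pool.Agent.H1.LD.Gau0
import Pool.Agent.RZ.Bl1

/-!
Codimension three: definitions.
-/

set_option autoImplicit false

open MeasureTheory Filter Topology Metric Set
open scoped RealInnerProductSpace ENNReal

namespace Pool.Agent.H1.LD

open Pool.Agent.RZ

variable {d : ℕ}

/-- the derivative of the regularised Riesz kernel `Z ↦ kr n ε Z • Z`, applied to `v` -/
noncomputable def dK (n : ℕ) (ε : ℝ) (Z v : X d) : X d :=
  kr n ε Z • v - ((n + 1) * (kr (n + 2) ε Z * ⟪Z, v⟫)) • Z

/-- the regularised Riesz transform of a measure -/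
noncomputable def Fe (n : ℕ) (ε : ℝ) (μ : Measure (X d)) (Y : X d) : X d :=
  ∫ x, kr n ε (Y - x) • (Y - x) ∂μ

/-- its derivative at `Y` applied to `v` (for `ε = 0` the singular integral off the support) -/
noncomputable def Se (n : ℕ) (ε : ℝ) (μ : Measure (X d)) (Y v : X d) : X d :=
  ∫ x, dK n ε (Y - x) v ∂μ

/-- the square function of codimension three at scale `t` -/
noncomputable def Qc (n : ℕ) (μ : Measure (X d)) (z : X d) (t : ℝ) : ℝ≥0∞ :=
  ∫⁻ Y, ENNReal.ofReal (t * kr (n + 3) t (Y - z)) * ‖Se n 0 μ Y (Y - z)‖ₑ ^ 2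

end Pool.Agent.H1.LD
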