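import Pool.Agent.H1.LD.CoD0

/-!
Pointwise algebra.  Fix Y.  S = Se n ε μ Y is linear and symmetric with matrix S_ij = ⟪e_i, S e_j⟫ = ∫ [kr n δ_ij - (n+1)kr(n+2)Z_iZ_j] dμ, Z = Y - x, T = ∫ kr(n+2)(2|Z|²+(n+3)ε²).
(1/2)T I - S = (n+1) ∫ kr(n+2)[Z Zᵀ + (ε²/2) I] dμ   (kr n = kr(n+2)(|Z|²+ε²)).  So (1/2)T|S|² - tr S³ = tr(S((1/2)T - S)S) = (n+1)∫ kr(n+2)[‖S Z‖² + (ε²/2)|S|²] dμ ≥ (n+1)∫ kr(n+2) ε (Y-x) ‖S (Y-x)‖² dμ(x).
All integrands are bounded (ε > 0) and μ finite.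
-/

set_option autoImplicit false

open MeasureTheory Filter Topology Metric Set
open scoped RealInnerProductSpace ENNReal

namespace Pool.Agent.H1.LD

open Pool.Agent.RZ

variable {d : ℕ}

/-- bounded continuous functions of the shifted variable are integrable -/
private theorem CoJ_int {μ : Measure (X d)} [IsFiniteMeasure μ] {f : X d → ℝ} (hf : Continuous f)
    {C : ℝ} (hC : ∀ x, |f x| ≤ C) : Integrable f μ :=
  Integrable.of_bound hf.aestronglyMeasurable C (Eventually.of_forall fun x => by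
    rw [Real.norm_eq_abs]; exact hC x)

private theorem CoJ_kr {n : ℕ} {ε : ℝ} (hε : 0 < ε) (z : X d) :
    kr n ε z = kr (n + 2) ε z * (‖z‖ ^ 2 + ε ^ 2) := by
  have h : 0 < ‖z‖ ^ 2 + ε ^ 2 := by positivity
  have hs : Real.sqrt (‖z‖ ^ 2 + ε ^ 2) ^ 2 = ‖z‖ ^ 2 + ε ^ 2 := Real.sq_sqrt h.le
  have hp : 0 < Real.sqrt (‖z‖ ^ 2 + ε ^ 2) := Real.sqrt_pos.2 h
  unfold kr
  set ρ := Real.sqrt (‖z‖ ^ 2 + ε ^ 2) with hρ
  rw [← hs, show n + 2 + 1 = (n + 1) + 2 from rfl, pow_add ρ⁻¹ (n + 1) 2, mul_assoc, ← mul_pow,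
    inv_mul_cancel₀ hp.ne', one_pow, mul_one]

private theorem CoJ_coord (z : X d) (i : Fin d) : |z i| ≤ ‖z‖ := by
  have := PiLp.norm_apply_le z i
  rwa [Real.norm_eq_abs] at this

private theorem CoJ_bd {n : ℕ} {ε : ℝ} (hε : 0 < ε) (z : X d) :
    kr (n + 2) ε z * ‖z‖ ^ 2 ≤ kr n ε z := by
  rw [CoJ_kr (n := n) hε z]
  have := kr_nonneg (n + 2) ε z
  have h2 : 0 ≤ ε ^ 2 := by positivity
  nlinarith [mul_nonneg this h2]

private theorem CoJ_intZZ {n : ℕ} {ε : ℝ} (hε : 0 < ε) (μ : Measure (X d)) [IsFiniteMeasure μ]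
    (Y : X d) (i j : Fin d) :
    Integrable (fun x => kr (n + 2) ε (Y - x) * ((Y - x) i * (Y - x) j)) μ := by
  have hc : Continuous fun x : X d => Y - x := continuous_const.sub continuous_id
  refine CoJ_int (C := ε⁻¹ ^ (n + 1)) ?_ (fun x => ?_)
  · have h1 : Continuous fun x : X d => (Y - x) i := (EuclideanSpace.proj i).continuous.comp hc
    have h2 : Continuous fun x : X d => (Y - x) j := (EuclideanSpace.proj j).continuous.comp hc
    exact ((kr_continuous (n + 2) hε).comp hc).mul (h1.mul h2)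
  · rw [abs_mul, abs_of_nonneg (kr_nonneg _ _ _), abs_mul]
    calc kr (n + 2) ε (Y - x) * (|(Y - x) i| * |(Y - x) j|)
        ≤ kr (n + 2) ε (Y - x) * (‖Y - x‖ * ‖Y - x‖) := by
          have := kr_nonneg (n + 2) ε (Y - x)
          have h1 := CoJ_coord (Y - x) i
          have h2 := CoJ_coord (Y - x) j
          gcongr
      _ = kr (n + 2) ε (Y - x) * ‖Y - x‖ ^ 2 := by ring
      _ ≤ kr n ε (Y - x) := CoJ_bd hε _
      _ ≤ ε⁻¹ ^ (n + 1) := kr_le_eps n hε _

private theorem CoJ_intK {n : ℕ} {ε : ℝ} (hε : 0 < ε) (μ : Measure (X d)) [IsFiniteMeasure μ]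
    (Y : X d) : Integrable (fun x => kr n ε (Y - x)) μ := by
  have hc : Continuous fun x : X d => Y - x := continuous_const.sub continuous_id
  refine CoJ_int (C := ε⁻¹ ^ (n + 1)) ((kr_continuous n hε).comp hc) (fun x => ?_)
  rw [abs_of_nonneg (kr_nonneg _ _ _)]
  exact kr_le_eps n hε _

private theorem CoJ_normsq (z : X d) : ‖z‖ ^ 2 = ∑ i, z i * z i := by
  rw [EuclideanSpace.norm_sq_eq]
  refine Finset.sum_congr rfl (fun i _ => ?_)
  rw [Real.norm_eq_abs, sq_abs, sq]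

private theorem CoJ_inner (z w : X d) : ⟪z, w⟫ = ∑ i, z i * w i := by
  rw [PiLp.inner_apply]
  refine Finset.sum_congr rfl (fun i _ => ?_)
  simp [mul_comm]

/-- the coordinates of `Se` -/
private theorem CoJ_Se {n : ℕ} {ε : ℝ} (hε : 0 < ε) (μ : Measure (X d)) [IsFiniteMeasure μ]
    (Y v : X d) (i : Fin d) :
    (Se n ε μ Y v) i = (∫ x, kr n ε (Y - x) ∂μ) * v i
      - (n + 1) * ∑ j, (∫ x, kr (n + 2) ε (Y - x) * ((Y - x) i * (Y - x) j) ∂μ) * v j := by
  have hc : Continuous fun x : X d => Y - x := continuous_const.sub continuous_id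
  have hk := CoJ_intK (n := n) hε μ Y
  have hkZ : Integrable (fun x => ((n + 1) * (kr (n + 2) ε (Y - x) * ⟪Y - x, v⟫)) • (Y - x)) μ := by
    refine Integrable.of_bound (C := (n + 1) * (ε⁻¹ ^ (n + 1) * ‖v‖)) ?_
      (Eventually.of_forall fun x => ?_)
    · have h1 : Continuous fun x : X d => ((n + 1) * (kr (n + 2) ε (Y - x) * ⟪Y - x, v⟫)) :=
        continuous_const.mul (((kr_continuous (n + 2) hε).comp hc).mul (hc.inner continuous_const))
      exact (h1.smul hc).aestronglyMeasurable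
    · rw [norm_smul, Real.norm_eq_abs, abs_mul, abs_mul, abs_of_nonneg (kr_nonneg _ _ _),
        abs_of_nonneg (show (0 : ℝ) ≤ (n : ℝ) + 1 by positivity)]
      have h1 : |⟪Y - x, v⟫| ≤ ‖Y - x‖ * ‖v‖ := abs_real_inner_le_norm _ _
      have h2 := kr_nonneg (n + 2) ε (Y - x)
      calc (n + 1) * (kr (n + 2) ε (Y - x) * |⟪Y - x, v⟫|) * ‖Y - x‖
          ≤ (n + 1) * (kr (n + 2) ε (Y - x) * (‖Y - x‖ * ‖v‖)) * ‖Y - x‖ := by gcongr
        _ = (n + 1) * ((kr (n + 2) ε (Y - x) * ‖Y - x‖ ^ 2) * ‖v‖) := by ring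
        _ ≤ (n + 1) * (ε⁻¹ ^ (n + 1) * ‖v‖) := by
          have h3 := (CoJ_bd (n := n) hε (Y - x)).trans (kr_le_eps n hε (Y - x))
          gcongr
  have e1 : Se n ε μ Y v = (∫ x, kr n ε (Y - x) ∂μ) • v
      - ∫ x, ((n + 1) * (kr (n + 2) ε (Y - x) * ⟪Y - x, v⟫)) • (Y - x) ∂μ := by
    unfold Se dK
    rw [integral_sub (hk.smul_const v) hkZ, integral_smul_const]
  have e2 : (∫ x, ((n + 1) * (kr (n + 2) ε (Y - x) * ⟪Y - x, v⟫)) • (Y - x) ∂μ) i
      = ∫ x, ((n + 1) * (kr (n + 2) ε (Y - x) * ⟪Y - x, v⟫)) * (Y - x) i ∂μ := by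
    have := ContinuousLinearMap.integral_comp_comm (EuclideanSpace.proj (𝕜 := ℝ) i) hkZ
    simpa using this.symm
  rw [e1, PiLp.sub_apply, PiLp.smul_apply, smul_eq_mul, e2]
  congr 1
  have e3 : ∀ x : X d, ((n + 1) * (kr (n + 2) ε (Y - x) * ⟪Y - x, v⟫)) * (Y - x) i
      = (n + 1) * ∑ j, (kr (n + 2) ε (Y - x) * ((Y - x) i * (Y - x) j)) * v j := by
    intro x
    rw [CoJ_inner, Finset.mul_sum, Finset.mul_sum, Finset.sum_mul, Finset.mul_sum]
    refine Finset.sum_congr rfl (fun j _ => ?_)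
    ring
  simp only [e3]
  rw [integral_const_mul, integral_finsetSum _ (fun j _ => (CoJ_intZZ hε μ Y i j).mul_const (v j))]
  simp only [integral_mul_const]

theorem hess_pos {n : ℕ} (hd : d = n + 3) {ε : ℝ} (hε : 0 < ε) (μ : Measure (X d))
    [IsFiniteMeasure μ] (Y : X d) :
    Integrable (fun x => kr (n + 2) ε (Y - x) * ‖Se n ε μ Y (Y - x)‖ ^ 2) μ ∧
    (n + 1) * ∫ x, kr (n + 2) ε (Y - x) * ‖Se n ε μ Y (Y - x)‖ ^ 2 ∂μ ≤
      (∫ x, kr (n + 2) ε (Y - x) * (2 * ‖Y - x‖ ^ 2 + (n + 3) * ε ^ 2) ∂μ) *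
        ∑ i, ∑ j, ⟪(EuclideanSpace.single i 1 : X d), Se n ε μ Y (EuclideanSpace.single j 1)⟫ ^ 2 / 2
      - ∑ i, ∑ j, ∑ k,
        ⟪(EuclideanSpace.single i 1 : X d), Se n ε μ Y (EuclideanSpace.single j 1)⟫ *
        ⟪(EuclideanSpace.single j 1 : X d), Se n ε μ Y (EuclideanSpace.single k 1)⟫ *
        ⟪(EuclideanSpace.single k 1 : X d), Se n ε μ Y (EuclideanSpace.single i 1)⟫ := by
  set A : Fin d → Fin d → ℝ := fun i j =>
    ∫ x, kr (n + 2) ε (Y - x) * ((Y - x) i * (Y - x) j) ∂μ with hA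
  set B : ℝ := ∫ x, kr (n + 2) ε (Y - x) ∂μ with hB
  set κ : ℝ := ∫ x, kr n ε (Y - x) ∂μ with hκ
  set C : ℝ := ∑ i, A i i with hC
  have iB := CoJ_intK (n := n + 2) hε μ Y
  have iZ : ∀ i j, Integrable (fun x => kr (n + 2) ε (Y - x) * ((Y - x) i * (Y - x) j)) μ :=
    fun i j => CoJ_intZZ hε μ Y i j
  have hAs : ∀ i j, A i j = A j i := by
    intro i j
    simp only [hA]
    congr 1
    funext x
    ring
  have iC : Integrable (fun x => kr (n + 2) ε (Y - x) * ‖Y - x‖ ^ 2) μ := by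
    have h1 : (fun x => kr (n + 2) ε (Y - x) * ‖Y - x‖ ^ 2)
        = fun x => ∑ i, kr (n + 2) ε (Y - x) * ((Y - x) i * (Y - x) i) := by
      funext x
      rw [CoJ_normsq, Finset.mul_sum]
    rw [h1]
    exact integrable_finsetSum _ (fun i _ => iZ i i)
  have eC : ∫ x, kr (n + 2) ε (Y - x) * ‖Y - x‖ ^ 2 ∂μ = C := by
    have h1 : (fun x => kr (n + 2) ε (Y - x) * ‖Y - x‖ ^ 2)
        = fun x => ∑ i, kr (n + 2) ε (Y - x) * ((Y - x) i * (Y - x) i) := by
      funext x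
      rw [CoJ_normsq, Finset.mul_sum]
    rw [h1, integral_finsetSum _ (fun i _ => iZ i i)]
  have eκ : κ = C + ε ^ 2 * B := by
    have h1 : (fun x => kr n ε (Y - x))
        = fun x => kr (n + 2) ε (Y - x) * ‖Y - x‖ ^ 2 + ε ^ 2 * kr (n + 2) ε (Y - x) := by
      funext x
      rw [CoJ_kr hε]
      ring
    rw [hκ, h1, integral_add iC (iB.const_mul _), integral_const_mul, eC]
  have eT : ∫ x, kr (n + 2) ε (Y - x) * (2 * ‖Y - x‖ ^ 2 + (n + 3) * ε ^ 2) ∂μ
      = 2 * C + (n + 3) * ε ^ 2 * B := by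
    have h1 : (fun x => kr (n + 2) ε (Y - x) * (2 * ‖Y - x‖ ^ 2 + (n + 3) * ε ^ 2))
        = fun x => 2 * (kr (n + 2) ε (Y - x) * ‖Y - x‖ ^ 2)
          + ((n + 3) * ε ^ 2) * kr (n + 2) ε (Y - x) := by
      funext x
      ring
    rw [h1, integral_add (iC.const_mul _) (iB.const_mul _), integral_const_mul,
      integral_const_mul, eC]
  set M : Fin d → Fin d → ℝ := fun i j => (if i = j then κ else 0) - (n + 1) * A i j with hM
  have hSe : ∀ (v : X d) (i : Fin d), (Se n ε μ Y v) i = ∑ j, M i j * v j := by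
    intro v i
    rw [CoJ_Se hε μ Y v i]
    simp only [hM, sub_mul, Finset.sum_sub_distrib, ite_mul, zero_mul, Finset.sum_ite_eq,
      Finset.mem_univ, if_true, Finset.mul_sum, mul_assoc]
    rfl
  have hMs : ∀ i j, M i j = M j i := by
    intro i j
    simp only [hM, hAs i j, eq_comm (a := i) (b := j)]
  have hS : ∀ i j, ⟪(EuclideanSpace.single i 1 : X d), Se n ε μ Y (EuclideanSpace.single j 1)⟫
      = M i j := by
    intro i j
    rw [EuclideanSpace.inner_single_left, hSe]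
    simp
  have hN : ∀ v : X d, ‖Se n ε μ Y v‖ ^ 2 = ∑ i, ∑ j, ∑ k, M i j * M i k * (v j * v k) := by
    intro v
    rw [CoJ_normsq]
    refine Finset.sum_congr rfl (fun i _ => ?_)
    rw [hSe, Finset.sum_mul_sum]
    refine Finset.sum_congr rfl (fun j _ => Finset.sum_congr rfl (fun k _ => ?_))
    ring
  have hpt : (fun x => kr (n + 2) ε (Y - x) * ‖Se n ε μ Y (Y - x)‖ ^ 2)
      = fun x => ∑ i, ∑ j, ∑ k, (M i j * M i k) *
          (kr (n + 2) ε (Y - x) * ((Y - x) j * (Y - x) k)) := by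
    funext x
    rw [hN, Finset.mul_sum]
    refine Finset.sum_congr rfl (fun i _ => ?_)
    rw [Finset.mul_sum]
    refine Finset.sum_congr rfl (fun j _ => ?_)
    rw [Finset.mul_sum]
    refine Finset.sum_congr rfl (fun k _ => ?_)
    ring
  have iI : ∀ i j, Integrable (fun x => ∑ k, (M i j * M i k) *
          (kr (n + 2) ε (Y - x) * ((Y - x) j * (Y - x) k))) μ :=
    fun i j => integrable_finsetSum _ (fun k _ => (iZ j k).const_mul _)
  have iI2 : ∀ i, Integrable (fun x => ∑ j, ∑ k, (M i j * M i k) *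
          (kr (n + 2) ε (Y - x) * ((Y - x) j * (Y - x) k))) μ :=
    fun i => integrable_finsetSum _ (fun j _ => iI i j)
  refine ⟨?_, ?_⟩
  · rw [hpt]
    exact integrable_finsetSum _ (fun i _ => iI2 i)
  · have eL : ∫ x, kr (n + 2) ε (Y - x) * ‖Se n ε μ Y (Y - x)‖ ^ 2 ∂μ
        = ∑ i, ∑ j, ∑ k, M i j * M i k * A j k := by
      rw [hpt, integral_finsetSum _ (fun i _ => iI2 i)]
      refine Finset.sum_congr rfl (fun i _ => ?_)
      rw [integral_finsetSum _ (fun j _ => iI i j)]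
      refine Finset.sum_congr rfl (fun j _ => ?_)
      rw [integral_finsetSum _ (fun k _ => (iZ j k).const_mul _)]
      refine Finset.sum_congr rfl (fun k _ => ?_)
      rw [integral_const_mul]
    simp only [hS]
    rw [eL, eT]
    -- the trace identity
    have hB0 : 0 ≤ B := integral_nonneg (fun x => kr_nonneg _ _ _)
    have hn1 : (0 : ℝ) < n + 1 := by positivity
    have key : ∀ j k, (n + 1) * A j k = (if j = k then κ else 0) - M j k := by
      intro j k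
      simp only [hM]
      ring
    have h3 : (n + 1) * ∑ i, ∑ j, ∑ k, M i j * M i k * A j k
        = κ * (∑ i, ∑ j, M i j ^ 2) - ∑ i, ∑ j, ∑ k, M i j * M j k * M k i := by
      rw [Finset.mul_sum, Finset.mul_sum, ← Finset.sum_sub_distrib]
      refine Finset.sum_congr rfl (fun i _ => ?_)
      rw [Finset.mul_sum, Finset.mul_sum, ← Finset.sum_sub_distrib]
      refine Finset.sum_congr rfl (fun j _ => ?_)
      rw [Finset.mul_sum]
      have h4 : ∀ k, (n + 1) * (M i j * M i k * A j k)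
          = (if j = k then κ * (M i j * M i k) else 0) - M i j * M j k * M k i := by
        intro k
        have : (n + 1) * (M i j * M i k * A j k) = M i j * M i k * ((n + 1) * A j k) := by ring
        rw [this, key, hMs k i]
        by_cases hjk : j = k
        · simp only [hjk, if_true]
          ring
        · simp only [hjk, if_false]
          ring
      simp only [h4, Finset.sum_sub_distrib, Finset.sum_ite_eq, Finset.mem_univ, if_true]
      ring
    have h5 : ∑ i, ∑ j, M i j ^ 2 / 2 = (∑ i, ∑ j, M i j ^ 2) / 2 := by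
      simp only [Finset.sum_div]
    have h6 : 0 ≤ ∑ i, ∑ j, M i j ^ 2 :=
      Finset.sum_nonneg (fun i _ => Finset.sum_nonneg (fun j _ => sq_nonneg _))
    rw [h3, h5, eκ]
    have h7 : 0 ≤ (n + 1) * (ε ^ 2 * B) * (∑ i, ∑ j, M i j ^ 2) := by positivity
    nlinarith

end Pool.Agent.H1.LD
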