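import Pool.Agent.H1.LD.CoA
import Pool.Agent.H1.LD.CoJ

/-!
co_energy.  hess_identity for the data of exists_Hes, integrate hess_pos in Y, Tonelli (swap Y and x):
 (n+1) ∫_x∫_Y kr(n+2)ε(Y-x)‖Se n ε μ Y (Y-x)‖² ≤ (1/2)(n+1)(n+3)(n+5) ∫_Y ‖Fe‖² ∫ ε⁴ kr(n+6) ε (Y-x) dμ(x) dY   (∑ F_i² = ‖Fe‖²).
-/

set_option autoImplicit false

open MeasureTheory Filter Topology Metric Set
open scoped RealInnerProductSpace ENNReal

namespace Pool.Agent.H1.LD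

open Pool.Agent.RZ

variable {d : ℕ}

private theorem CoE_sum_sq (v : X d) :
    ∑ i, ⟪(EuclideanSpace.single i 1 : X d), v⟫ ^ 2 = ‖v‖ ^ 2 := by
  rw [EuclideanSpace.norm_sq_eq]
  refine Finset.sum_congr rfl fun i _ => ?_
  rw [EuclideanSpace.inner_single_left]
  simp

private theorem CoE_dK_cont (n : ℕ) {ε : ℝ} (hε : 0 < ε) :
    Continuous fun q : (X d × X d) × X d => dK n ε (q.1.2 - q.2) (q.1.2 - q.1.1) := by
  unfold dK
  have h1 : Continuous fun q : (X d × X d) × X d => kr n ε (q.1.2 - q.2) :=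
    (kr_continuous n hε).comp (by fun_prop)
  have h2 : Continuous fun q : (X d × X d) × X d => kr (n + 2) ε (q.1.2 - q.2) :=
    (kr_continuous (n + 2) hε).comp (by fun_prop)
  fun_prop

private theorem CoE_meas (n : ℕ) {ε : ℝ} (hε : 0 < ε) (μ : Measure (X d)) [IsFiniteMeasure μ] :
    Measurable fun p : X d × X d => ENNReal.ofReal
      (kr (n + 2) ε (p.2 - p.1) * ‖Se n ε μ p.2 (p.2 - p.1)‖ ^ 2) := by
  have h1 : StronglyMeasurable fun p : X d × X d => Se n ε μ p.2 (p.2 - p.1) := by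
    unfold Se
    exact StronglyMeasurable.integral_prod_right (CoE_dK_cont n hε).stronglyMeasurable
  have h2 : Measurable fun p : X d × X d => kr (n + 2) ε (p.2 - p.1) :=
    ((kr_continuous (n + 2) hε).comp (by fun_prop)).measurable
  exact (h2.mul (h1.measurable.norm.pow_const 2)).ennreal_ofReal

theorem co_energy {n : ℕ} (hn : 1 ≤ n) (hd : d = n + 3) {ε : ℝ} (hε : 0 < ε)
    (μ : Measure (X d)) [IsFiniteMeasure μ] {A : ℝ} (hA : μ (closedBall 0 A)ᶜ = 0) :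
    ∫⁻ z, (∫⁻ Y, ENNReal.ofReal (kr (n + 2) ε (Y - z) * ‖Se n ε μ Y (Y - z)‖ ^ 2)) ∂μ ≤
      ENNReal.ofReal ((n + 3) * (n + 5) / 2) *
        ∫⁻ Y, ENNReal.ofReal (‖Fe n ε μ Y‖ ^ 2 * ∫ x, ε ^ 4 * kr (n + 6) ε (Y - x) ∂μ) := by
  obtain ⟨R, V, h⟩ := exists_Hes hn hd hε μ hA
  obtain ⟨i1, i2, e1⟩ := hess_identity hn hd h
  set G : X d → ℝ := fun Y =>
      (∫ x, kr (n + 2) ε (Y - x) * (2 * ‖Y - x‖ ^ 2 + (n + 3) * ε ^ 2) ∂μ) *
        ∑ i, ∑ j, ⟪(EuclideanSpace.single i 1 : X d), Se n ε μ Y (EuclideanSpace.single j 1)⟫ ^ 2 / 2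
      - ∑ i, ∑ j, ∑ k,
        ⟪(EuclideanSpace.single i 1 : X d), Se n ε μ Y (EuclideanSpace.single j 1)⟫ *
        ⟪(EuclideanSpace.single j 1 : X d), Se n ε μ Y (EuclideanSpace.single k 1)⟫ *
        ⟪(EuclideanSpace.single k 1 : X d), Se n ε μ Y (EuclideanSpace.single i 1)⟫ with hG
  have hGi : Integrable G := i1
  have hpos : ∀ Y, Integrable (fun x => kr (n + 2) ε (Y - x) * ‖Se n ε μ Y (Y - x)‖ ^ 2) μ ∧
    (n + 1) * ∫ x, kr (n + 2) ε (Y - x) * ‖Se n ε μ Y (Y - x)‖ ^ 2 ∂μ ≤ G Y :=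
    fun Y => hess_pos hd hε μ Y
  have hIn : ∀ Y, 0 ≤ ∫ x, kr (n + 2) ε (Y - x) * ‖Se n ε μ Y (Y - x)‖ ^ 2 ∂μ := fun Y =>
    integral_nonneg fun x => mul_nonneg (kr_nonneg _ _ _) (sq_nonneg _)
  have hn1 : (0 : ℝ) < n + 1 := by positivity
  have hG0 : ∀ Y, 0 ≤ G Y := fun Y =>
    (mul_nonneg hn1.le (hIn Y)).trans (hpos Y).2
  -- the energy side
  have e2 : ∀ Y, ∑ i, ⟪(EuclideanSpace.single i 1 : X d), Fe n ε μ Y⟫ ^ 2 = ‖Fe n ε μ Y‖ ^ 2 :=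
    fun Y => CoE_sum_sq _
  set E : X d → ℝ := fun Y => ‖Fe n ε μ Y‖ ^ 2 * ∫ x, ε ^ 4 * kr (n + 6) ε (Y - x) ∂μ with hE
  have hc : (0 : ℝ) < (n + 1) * (n + 3) * (n + 5) := by positivity
  have e3 : ∀ Y, (∑ i, ⟪(EuclideanSpace.single i 1 : X d), Fe n ε μ Y⟫ ^ 2) *
      (-((n + 1) * (n + 3) * (n + 5)) * ∫ x, ε ^ 4 * kr (n + 6) ε (Y - x) ∂μ) =
      -((n + 1) * (n + 3) * (n + 5)) * E Y := by
    intro Y
    rw [e2 Y, hE]
    ring
  have i3 : Integrable (fun Y => -(((n : ℝ) + 1) * (n + 3) * (n + 5)) * E Y) :=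
    i2.congr (Eventually.of_forall e3)
  have hEi : Integrable E := by
    have := i3.const_mul (-(((n : ℝ) + 1) * (n + 3) * (n + 5)))⁻¹
    refine this.congr (Eventually.of_forall fun Y => ?_)
    have hne : (-(((n : ℝ) + 1) * (n + 3) * (n + 5))) ≠ 0 := neg_ne_zero.2 hc.ne'
    simp only
    rw [← mul_assoc, inv_mul_cancel₀ hne, one_mul]
  have hE0 : ∀ Y, 0 ≤ E Y := fun Y => mul_nonneg (sq_nonneg _)
    (integral_nonneg fun x => mul_nonneg (by positivity) (kr_nonneg _ _ _))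
  have e4 : ∫ Y, G Y = (n + 1) * (n + 3) * (n + 5) / 2 * ∫ Y, E Y := by
    have e5 : ∫ Y, (∑ i, ⟪(EuclideanSpace.single i 1 : X d), Fe n ε μ Y⟫ ^ 2) *
      (-((n + 1) * (n + 3) * (n + 5)) * ∫ x, ε ^ 4 * kr (n + 6) ε (Y - x) ∂μ) =
      -((n + 1) * (n + 3) * (n + 5)) * ∫ Y, E Y := by
      rw [← integral_const_mul]
      exact integral_congr_ae (Eventually.of_forall e3)
    calc ∫ Y, G Y = -(1 / 2) * ∫ Y, (∑ i, ⟪(EuclideanSpace.single i 1 : X d), Fe n ε μ Y⟫ ^ 2) *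
      (-((n + 1) * (n + 3) * (n + 5)) * ∫ x, ε ^ 4 * kr (n + 6) ε (Y - x) ∂μ) := e1
      _ = _ := by rw [e5]; ring
  rw [lintegral_lintegral_swap (CoE_meas n hε μ).aemeasurable]
  calc ∫⁻ Y, ∫⁻ z, ENNReal.ofReal (kr (n + 2) ε (Y - z) * ‖Se n ε μ Y (Y - z)‖ ^ 2) ∂μ
      = ∫⁻ Y, ENNReal.ofReal (∫ z, kr (n + 2) ε (Y - z) * ‖Se n ε μ Y (Y - z)‖ ^ 2 ∂μ) := by
        refine lintegral_congr fun Y => ?_
        rw [ofReal_integral_eq_lintegral_ofReal (hpos Y).1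
          (Eventually.of_forall fun x => mul_nonneg (kr_nonneg _ _ _) (sq_nonneg _))]
    _ ≤ ∫⁻ Y, ENNReal.ofReal (((n : ℝ) + 1)⁻¹ * G Y) := by
        refine lintegral_mono fun Y => ENNReal.ofReal_le_ofReal ?_
        rw [le_inv_mul_iff₀ hn1]
        exact (hpos Y).2
    _ = ENNReal.ofReal (∫ Y, ((n : ℝ) + 1)⁻¹ * G Y) := by
        rw [ofReal_integral_eq_lintegral_ofReal (hGi.const_mul _)
          (Eventually.of_forall fun Y => mul_nonneg (inv_nonneg.2 hn1.le) (hG0 Y))]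
    _ = ENNReal.ofReal ((n + 3) * (n + 5) / 2 * ∫ Y, E Y) := by
        congr 1
        rw [integral_const_mul, e4]
        field_simp
    _ = ENNReal.ofReal ((n + 3) * (n + 5) / 2) * ENNReal.ofReal (∫ Y, E Y) := by
        rw [ENNReal.ofReal_mul (by positivity)]
    _ = _ := by
        rw [ofReal_integral_eq_lintegral_ofReal hEi (Eventually.of_forall hE0)]

end Pool.Agent.H1.LD
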