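import Pool.Agent.H1.LD.CoD0
import Pool.Agent.H1.LD.Gau3

/-!
With χ(Y) = ga 4 (Y-y), w = Y-y: Δχ = (64|w|²-8d)χ, ∇Δχ = Vv y Y = (64(d+2-8|w|²) ga 4 w) • w.
claim1: for ε > 0: ∫ ⟪Vv y Y, kr n ε (Y-x) • (Y-x)⟫ dY = C_n ∫ ga 4 (Y-y) ε⁴ kr(n+6) ε (Y-x) dY, C_n = (n+1)(n+3)(n+5), d = n+3:
 integration by parts three times (coordinates; integral_mul_fderiv_eq_neg_fderiv_mul_of_integrable; Gaussian times bounded functions, all derivatives bounded for ε > 0): = -∫Δχ T = ∫⟪∇χ,∇T⟫ = -∫χ ΔT,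
 T = div(kr n ε Z • Z) = 2q^{-(n+1)/2} + (n+1)ε² q^{-(n+3)/2}, q = ‖Z‖²+ε², ΔT = -C_n ε⁴ q^{-(n+7)/2}   [Δq^{-a} = 2a(2a+2-d)q^{-a-1} - 4a(a+1)ε²q^{-a-2}].
claim2: differentiate claim1 in x in the direction a: the left side gives -∫⟪Vv y Y, dK n ε (Y-x) a⟫ dY (kernel smooth with bounded derivatives), the right side, after Y → Y+x, is C_n∫ ∂_a[ga 4](Y+x-y) ε⁴kr(n+6)ε Y dY:
 ∫ ⟪Vv y Y, dK n ε (Y-x) a⟫ dY = C_n ∫ 8⟪Y-y,a⟫ ga 4 (Y-y) ε⁴ kr(n+6) ε (Y-x) dY.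
-/

set_option autoImplicit false

open MeasureTheory Filter Topology Metric Set
open scoped RealInnerProductSpace ENNReal

namespace Pool.Agent.H1.LD

open Pool.Agent.RZ

variable {d : ℕ}

/-- the gradient of the Laplacian of the Gaussian `ga 4 (· - y)` -/
noncomputable def Vv (y Y : X d) : X d :=
  (64 * (d + 2 - 8 * ‖Y - y‖ ^ 2) * ga 4 (Y - y)) • (Y - y)

/-- continuous and of polynomial growth -/
private def CoH1_P {E : Type*} [NormedAddCommGroup E] (y : X d) (F : X d → E) : Prop :=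
  Continuous F ∧ ∃ C : ℝ, ∃ m : ℕ, 0 ≤ C ∧ ∀ Y, ‖F Y‖ ≤ C * (1 + ‖Y - y‖) ^ m

/-- `f'` is the gradient of `f` -/
private def CoH1_G (f : X d → ℝ) (f' : X d → X d) : Prop :=
  ∀ Y v : X d, HasDerivAt (fun t : ℝ => f (Y + t • v)) ⟪f' Y, v⟫ 0

private theorem CoH1_one (y Y : X d) : (1 : ℝ) ≤ 1 + ‖Y - y‖ := by
  have := norm_nonneg (Y - y)
  linarith

private theorem CoH1_P_add {E : Type*} [NormedAddCommGroup E] {y : X d} {F G : X d → E} (hF : CoH1_P y F)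
    (hG : CoH1_P y G) : CoH1_P y (fun Y => F Y + G Y) := by
  obtain ⟨cF, C, m, hC, hb⟩ := hF
  obtain ⟨cG, C', m', hC', hb'⟩ := hG
  refine ⟨cF.add cG, C + C', m + m', by positivity, fun Y => ?_⟩
  have h1 := CoH1_one y Y
  have h2 : (1 + ‖Y - y‖) ^ m ≤ (1 + ‖Y - y‖) ^ (m + m') := pow_le_pow_right₀ h1 (Nat.le_add_right _ _)
  have h3 : (1 + ‖Y - y‖) ^ m' ≤ (1 + ‖Y - y‖) ^ (m + m') := pow_le_pow_right₀ h1 (Nat.le_add_left _ _)
  calc ‖F Y + G Y‖ ≤ ‖F Y‖ + ‖G Y‖ := norm_add_le _ _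
    _ ≤ C * (1 + ‖Y - y‖) ^ (m + m') + C' * (1 + ‖Y - y‖) ^ (m + m') :=
        add_le_add ((hb Y).trans (mul_le_mul_of_nonneg_left h2 hC)) ((hb' Y).trans (mul_le_mul_of_nonneg_left h3 hC'))
    _ = _ := by ring

private theorem CoH1_P_prod {E E' E'' : Type*} [NormedAddCommGroup E] [NormedAddCommGroup E'] [NormedAddCommGroup E'']
    {y : X d} {F : X d → E} {G : X d → E'} {H : X d → E''} (hF : CoH1_P y F) (hG : CoH1_P y G) (hc : Continuous H)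
    (hH : ∀ Y, ‖H Y‖ ≤ ‖F Y‖ * ‖G Y‖) : CoH1_P y H := by
  obtain ⟨_, C, m, hC, hb⟩ := hF
  obtain ⟨_, C', m', hC', hb'⟩ := hG
  refine ⟨hc, C * C', m + m', by positivity, fun Y => ?_⟩
  have h1 := CoH1_one y Y
  calc ‖H Y‖ ≤ ‖F Y‖ * ‖G Y‖ := hH Y
    _ ≤ (C * (1 + ‖Y - y‖) ^ m) * (C' * (1 + ‖Y - y‖) ^ m') := mul_le_mul (hb Y) (hb' Y) (norm_nonneg _) (by positivity)
    _ = _ := by rw [pow_add]; ring

private theorem CoH1_P_smul {E : Type*} [NormedAddCommGroup E] [NormedSpace ℝ E] {y : X d} {F : X d → ℝ} {G : X d → E}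
    (hF : CoH1_P y F) (hG : CoH1_P y G) : CoH1_P y (fun Y => F Y • G Y) :=
  CoH1_P_prod hF hG (hF.1.smul hG.1) fun _ => (norm_smul _ _).le

private theorem CoH1_P_mul {y : X d} {F G : X d → ℝ} (hF : CoH1_P y F) (hG : CoH1_P y G) : CoH1_P y (fun Y => F Y * G Y) :=
  CoH1_P_smul hF hG

private theorem CoH1_P_inner {E : Type*} [NormedAddCommGroup E] [InnerProductSpace ℝ E] {y : X d} {F G : X d → E}
    (hF : CoH1_P y F) (hG : CoH1_P y G) : CoH1_P y (fun Y => ⟪F Y, G Y⟫) :=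
  CoH1_P_prod hF hG (hF.1.inner hG.1) fun _ => norm_inner_le_norm _ _

private theorem CoH1_P_const {E : Type*} [NormedAddCommGroup E] {y : X d} (c : E) : CoH1_P y (fun _ => c) :=
  ⟨continuous_const, ‖c‖, 0, norm_nonneg _, fun _ => by simp⟩

private theorem CoH1_P_sub {y : X d} (p : X d) : CoH1_P y (fun Y => Y - p) := by
  refine ⟨continuous_id.sub continuous_const, 1 + ‖y - p‖, 1, by positivity, fun Y => ?_⟩
  have h1 : ‖Y - p‖ ≤ ‖Y - y‖ + ‖y - p‖ := by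
    have := norm_add_le (Y - y) (y - p)
    rwa [sub_add_sub_cancel] at this
  have h2 := norm_nonneg (Y - y)
  have h3 := norm_nonneg (y - p)
  nlinarith [mul_nonneg h2 h3]

private theorem CoH1_P_kr {y : X d} (m : ℕ) {ε : ℝ} (hε : 0 < ε) (x : X d) : CoH1_P y (fun Y => kr m ε (Y - x)) := by
  refine ⟨(kr_continuous m hε).comp (continuous_id.sub continuous_const), ε⁻¹ ^ (m + 1), 0, by positivity, fun Y => ?_⟩
  rw [Real.norm_of_nonneg (kr_nonneg _ _ _), pow_zero, mul_one]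
  exact kr_le_eps m hε _

private theorem CoH1_P_nsq {y : X d} (p : X d) : CoH1_P y (fun Y => ‖Y - p‖ ^ 2) := by
  have h := CoH1_P_inner (CoH1_P_sub (y := y) p) (CoH1_P_sub (y := y) p)
  simpa only [real_inner_self_eq_norm_sq] using h

private theorem CoH1_int {E : Type*} [NormedAddCommGroup E] [NormedSpace ℝ E] {y : X d} {F : X d → E} (hF : CoH1_P y F) :
    Integrable (fun Y => ga 4 (Y - y) • F Y) := by
  obtain ⟨cF, C, m, hC, hb⟩ := hF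
  have h1 := ((ga_integrable (d := d) (b := 4) (by norm_num) m).comp_sub_right y).const_mul C
  refine h1.mono' ?_ (Eventually.of_forall fun Y => ?_)
  · exact (((ga_continuous 4).comp (continuous_id.sub continuous_const)).smul cF).aestronglyMeasurable
  · rw [norm_smul, Real.norm_of_nonneg (ga_nonneg 4 _)]
    calc ga 4 (Y - y) * ‖F Y‖ ≤ ga 4 (Y - y) * (C * (1 + ‖Y - y‖) ^ m) :=
          mul_le_mul_of_nonneg_left (hb Y) (ga_nonneg 4 _)
      _ = C * ((1 + ‖Y - y‖) ^ m * ga 4 (Y - y)) := by ring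

private theorem CoH1_intr {y : X d} {F : X d → ℝ} (hF : CoH1_P y F) : Integrable (fun Y => ga 4 (Y - y) * F Y) :=
  CoH1_int hF

private theorem CoH1_congr {f : X d → ℝ} {f' g' : X d → X d} (h : CoH1_G f f') (hg : ∀ Y, f' Y = g' Y) : CoH1_G f g' := by
  intro Y v
  rw [← hg Y]
  exact h Y v

private theorem CoH1_mul {f g : X d → ℝ} {f' g' : X d → X d} (hf : CoH1_G f f') (hg : CoH1_G g g') :
    CoH1_G (fun Y => f Y * g Y) (fun Y => f Y • g' Y + g Y • f' Y) := by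
  intro Y v
  have h := (hf Y v).mul (hg Y v)
  refine h.congr_deriv ?_
  rw [inner_add_left, real_inner_smul_left, real_inner_smul_left, zero_smul, add_zero]
  ring

private theorem CoH1_add {f g : X d → ℝ} {f' g' : X d → X d} (hf : CoH1_G f f') (hg : CoH1_G g g') :
    CoH1_G (fun Y => f Y + g Y) (fun Y => f' Y + g' Y) := by
  intro Y v
  have h := (hf Y v).add (hg Y v)
  refine h.congr_deriv ?_
  rw [inner_add_left]

private theorem CoH1_cmul {f : X d → ℝ} {f' : X d → X d} (c : ℝ) (hf : CoH1_G f f') :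
    CoH1_G (fun Y => c * f Y) (fun Y => c • f' Y) := by
  intro Y v
  have h := (hf Y v).const_mul c
  refine h.congr_deriv ?_
  rw [real_inner_smul_left]

private theorem CoH1_const (c : ℝ) : CoH1_G (fun _ : X d => c) (fun _ => 0) := by
  intro Y v
  refine (hasDerivAt_const (0 : ℝ) c).congr_deriv ?_
  rw [inner_zero_left]

private theorem CoH1_line (p Y v : X d) : HasDerivAt (fun t : ℝ => Y + t • v - p) v 0 := by
  have h2 : HasDerivAt (fun t : ℝ => t • v) ((1 : ℝ) • v) 0 := (hasDerivAt_id (0 : ℝ)).smul_const v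
  rw [one_smul] at h2
  exact (h2.const_add Y).sub_const p

private theorem CoH1_nsq (p : X d) : CoH1_G (fun Y => ‖Y - p‖ ^ 2) (fun Y => (2 : ℝ) • (Y - p)) := by
  intro Y v
  refine (CoH1_line p Y v).norm_sq.congr_deriv ?_
  rw [real_inner_smul_left, zero_smul, add_zero]

private theorem CoH1_lin (p e : X d) : CoH1_G (fun Y => ⟪Y - p, e⟫) (fun _ => e) := by
  intro Y v
  have h := (CoH1_line p Y v).inner ℝ (hasDerivAt_const (0 : ℝ) e)
  refine h.congr_deriv ?_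
  rw [inner_zero_right, zero_add, real_inner_comm]

private theorem CoH1_ga (y : X d) : CoH1_G (fun Y => ga 4 (Y - y)) (fun Y => (-8 * ga 4 (Y - y)) • (Y - y)) := by
  intro Y v
  have h1 : HasDerivAt (fun t : ℝ => -(4 * ‖Y + t • v - y‖ ^ 2)) (-(4 * ⟪(2 : ℝ) • (Y - y), v⟫)) 0 :=
    ((CoH1_nsq y Y v).const_mul 4).neg
  have h : HasDerivAt (fun t : ℝ => ga 4 (Y + t • v - y))
      (Real.exp (-(4 * ‖Y + (0 : ℝ) • v - y‖ ^ 2)) * (-(4 * ⟪(2 : ℝ) • (Y - y), v⟫))) 0 := h1.exp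
  refine h.congr_deriv ?_
  rw [real_inner_smul_left, real_inner_smul_left, zero_smul, add_zero]
  unfold ga
  ring

private theorem CoH1_kr (m : ℕ) {ε : ℝ} (hε : 0 < ε) (x : X d) :
    CoH1_G (fun Y => kr m ε (Y - x)) (fun Y => (-(m + 1) * kr (m + 2) ε (Y - x)) • (Y - x)) := by
  intro Y v
  have hpos : ∀ Z : X d, 0 < ‖Z‖ ^ 2 + ε ^ 2 := fun Z => by positivity
  have h1 : HasDerivAt (fun t : ℝ => ‖Y + t • v - x‖ ^ 2 + ε ^ 2) ⟪(2 : ℝ) • (Y - x), v⟫ 0 :=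
    (CoH1_nsq x Y v).add_const (ε ^ 2)
  have h0 : ‖Y + (0 : ℝ) • v - x‖ ^ 2 + ε ^ 2 = ‖Y - x‖ ^ 2 + ε ^ 2 := by rw [zero_smul, add_zero]
  have hs : 0 < Real.sqrt (‖Y - x‖ ^ 2 + ε ^ 2) := Real.sqrt_pos.2 (hpos _)
  have h2 : HasDerivAt (fun t : ℝ => Real.sqrt (‖Y + t • v - x‖ ^ 2 + ε ^ 2))
      (⟪(2 : ℝ) • (Y - x), v⟫ / (2 * Real.sqrt (‖Y + (0 : ℝ) • v - x‖ ^ 2 + ε ^ 2))) 0 :=
    h1.sqrt (by rw [h0]; exact (hpos _).ne')
  have h3 : HasDerivAt (fun t : ℝ => (Real.sqrt (‖Y + t • v - x‖ ^ 2 + ε ^ 2))⁻¹)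
      (-(⟪(2 : ℝ) • (Y - x), v⟫ / (2 * Real.sqrt (‖Y + (0 : ℝ) • v - x‖ ^ 2 + ε ^ 2))) /
        Real.sqrt (‖Y + (0 : ℝ) • v - x‖ ^ 2 + ε ^ 2) ^ 2) 0 := h2.inv (by rw [h0]; exact hs.ne')
  have h4 : HasDerivAt (fun t : ℝ => kr m ε (Y + t • v - x))
      (((m + 1 : ℕ) : ℝ) * (Real.sqrt (‖Y + (0 : ℝ) • v - x‖ ^ 2 + ε ^ 2))⁻¹ ^ (m + 1 - 1) *
        (-(⟪(2 : ℝ) • (Y - x), v⟫ / (2 * Real.sqrt (‖Y + (0 : ℝ) • v - x‖ ^ 2 + ε ^ 2))) /
        Real.sqrt (‖Y + (0 : ℝ) • v - x‖ ^ 2 + ε ^ 2) ^ 2)) 0 := h3.pow (m + 1)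
  refine h4.congr_deriv ?_
  rw [h0, real_inner_smul_left, real_inner_smul_left]
  unfold kr
  set S := Real.sqrt (‖Y - x‖ ^ 2 + ε ^ 2) with hS
  have hne : S ≠ 0 := hs.ne'
  simp only [Nat.add_sub_cancel, Nat.cast_add, Nat.cast_one, inv_pow]
  rw [show m + 2 + 1 = m + 3 by ring, pow_add S m 3]
  field_simp

private theorem CoH1_kr_rel (m : ℕ) {ε : ℝ} (hε : 0 < ε) (Z : X d) :
    kr m ε Z = kr (m + 2) ε Z * (‖Z‖ ^ 2 + ε ^ 2) := by
  have hpos : 0 < ‖Z‖ ^ 2 + ε ^ 2 := by positivity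
  unfold kr
  have hs : 0 < Real.sqrt (‖Z‖ ^ 2 + ε ^ 2) := Real.sqrt_pos.2 hpos
  have h2 : ‖Z‖ ^ 2 + ε ^ 2 = Real.sqrt (‖Z‖ ^ 2 + ε ^ 2) ^ 2 := (Real.sq_sqrt hpos.le).symm
  conv_rhs => rw [h2]
  rw [Real.sqrt_sq hs.le]
  set S := Real.sqrt (‖Z‖ ^ 2 + ε ^ 2) with hS
  have hne : S ≠ 0 := hs.ne'
  rw [show m + 2 + 1 = m + 1 + 2 by ring, pow_add _ (m + 1) 2, mul_assoc, ← mul_pow, inv_mul_cancel₀ hne, one_pow, mul_one]

private theorem CoH1_zero {g g' : X d → ℝ} {v : X d} (hd : ∀ Y, HasDerivAt (fun t : ℝ => g (Y + t • v)) (g' Y) 0)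
    (hg : Integrable g) (hg' : Integrable g') : ∫ Y, g' Y = 0 := by
  have h := integral_bilinear_hasLineDerivAt_right_eq_neg_left_of_integrable (μ := (volume : Measure (X d)))
    (f := fun _ : X d => (1 : ℝ)) (f' := fun _ => (0 : ℝ)) (g := g) (g' := g') (v := v)
    (B := ContinuousLinearMap.mul ℝ ℝ) (by simp) (by simpa using hg') (by simpa using hg)
    (fun x _ => hasDerivAt_const (0 : ℝ) (1 : ℝ)) (fun x _ => hd x)
  simpa using h

private theorem CoH1_euler {y p : X d} {F : X d → ℝ} {F' : X d → X d} (hG : CoH1_G F F') (hF : CoH1_P y F)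
    (hF' : CoH1_P y F') :
    Integrable (fun Y => ga 4 (Y - y) * (⟪F' Y - (8 * F Y) • (Y - y), Y - p⟫ + d * F Y)) ∧
    ∫ Y, ga 4 (Y - y) * (⟪F' Y - (8 * F Y) • (Y - y), Y - p⟫ + d * F Y) = 0 := by
  have b := EuclideanSpace.basisFun (Fin d) ℝ
  have hV : CoH1_P y (fun Y => F' Y - (8 * F Y) • (Y - y)) := by
    have h := CoH1_P_add hF' (CoH1_P_smul (CoH1_P_mul (CoH1_P_const (y := y) (-8 : ℝ)) hF) (CoH1_P_sub (y := y) y))
    refine (funext fun Y => ?_ : (fun Y => F' Y + (-8 * F Y) • (Y - y)) = fun Y => F' Y - (8 * F Y) • (Y - y)) ▸ h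
    module
  have hP : ∀ i, CoH1_P y (fun Y => ⟪F' Y - (8 * F Y) • (Y - y), b i⟫ * ⟪Y - p, b i⟫ + F Y) := fun i =>
    CoH1_P_add (CoH1_P_mul (CoH1_P_inner hV (CoH1_P_const _)) (CoH1_P_inner (CoH1_P_sub p) (CoH1_P_const _))) hF
  have hi : ∀ i, ∫ Y, ga 4 (Y - y) * (⟪F' Y - (8 * F Y) • (Y - y), b i⟫ * ⟪Y - p, b i⟫ + F Y) = 0 := by
    intro i
    refine CoH1_zero (g := fun Y => ga 4 (Y - y) * (F Y * ⟪Y - p, b i⟫)) (v := b i) (fun Y => ?_) ?_ (CoH1_intr (hP i))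
    · have h := CoH1_mul (CoH1_ga y) (CoH1_mul hG (CoH1_lin p (b i))) Y (b i)
      refine h.congr_deriv ?_
      have hb : ⟪b i, b i⟫ = 1 := by
        rw [real_inner_self_eq_norm_sq, b.orthonormal.1 i]
        norm_num
      simp only [inner_add_left, inner_sub_left, real_inner_smul_left, hb]
      ring
    · exact CoH1_intr (CoH1_P_mul hF (CoH1_P_inner (CoH1_P_sub p) (CoH1_P_const _)))
  have he : ∀ Y, ga 4 (Y - y) * (⟪F' Y - (8 * F Y) • (Y - y), Y - p⟫ + d * F Y) =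
      ∑ i, ga 4 (Y - y) * (⟪F' Y - (8 * F Y) • (Y - y), b i⟫ * ⟪Y - p, b i⟫ + F Y) := by
    intro Y
    rw [← Finset.mul_sum, Finset.sum_add_distrib, Finset.sum_const, Finset.card_univ, Fintype.card_fin, nsmul_eq_mul]
    congr 2
    rw [← b.sum_inner_mul_inner]
    refine Finset.sum_congr rfl fun i _ => ?_
    rw [real_inner_comm (Y - p) (b i)]
  have hint : ∀ i, Integrable (fun Y => ga 4 (Y - y) * (⟪F' Y - (8 * F Y) • (Y - y), b i⟫ * ⟪Y - p, b i⟫ + F Y)) :=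
    fun i => CoH1_intr (hP i)
  constructor
  · refine (integrable_finsetSum Finset.univ fun i _ => hint i).congr (Eventually.of_forall fun Y => ?_)
    exact (he Y).symm
  · rw [integral_congr_ae (Eventually.of_forall he), integral_finsetSum _ fun i _ => hint i]
    exact Finset.sum_eq_zero fun i _ => hi i

private theorem CoH1_three {f g h : X d → ℝ} (hf : Integrable f ∧ ∫ Y, f Y = 0) (hg : Integrable g ∧ ∫ Y, g Y = 0)
    (hh : Integrable h ∧ ∫ Y, h Y = 0) : ∫ Y, (f Y + g Y + h Y) = 0 := by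
  have h1 : Integrable (fun Y => f Y + g Y) := hf.1.add hg.1
  rw [integral_add h1 hh.1, integral_add hf.1 hg.1, hf.2, hg.2, hh.2, add_zero, add_zero]

/-- differentiation of the second factor under the integral -/
private theorem CoH1_diff {E : Type*} [NormedAddCommGroup E] [InnerProductSpace ℝ E] {y : X d} {f : X d → E}
    (hf : CoH1_P y f) {g g' : X d → E} {a : X d} (hg : ∀ Z, HasDerivAt (fun t : ℝ => g (Z + t • a)) (g' Z) 0)
    (hgc : Continuous g) (hgc' : Continuous g') {C C' : ℝ} (hb : ∀ Z, ‖g Z‖ ≤ C' * (1 + ‖Z‖)) (hb' : ∀ Z, ‖g' Z‖ ≤ C) (x : X d) :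
    HasDerivAt (fun s : ℝ => ∫ Y, ga 4 (Y - y) * ⟪f Y, g (Y - (x - s • a))⟫)
      (∫ Y, ga 4 (Y - y) * ⟪f Y, g' (Y - x)⟫) 0 := by
  have hg2 : ∀ (Z : X d) (s : ℝ), HasDerivAt (fun t : ℝ => g (Z + t • a)) (g' (Z + s • a)) s := by
    intro Z s
    have h1 := hg (Z + s • a)
    have h2 : HasDerivAt (fun t : ℝ => t - s) 1 s := (hasDerivAt_id s).sub_const s
    have h3 : HasDerivAt (fun t : ℝ => g (Z + s • a + t • a)) (g' (Z + s • a)) (s - s) := by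
      rw [sub_self]
      exact h1
    have h4 := HasDerivAt.scomp (h := fun t : ℝ => t - s) s h3 h2
    rw [one_smul] at h4
    refine h4.congr_of_eventuallyEq (Eventually.of_forall fun t => ?_)
    show g (Z + t • a) = g (Z + s • a + (t - s) • a)
    congr 1
    module
  have hsub : ∀ (Y : X d) (s : ℝ), Y - (x - s • a) = (Y - x) + s • a := fun Y s => by module
  obtain ⟨hfc, C₁, m, hC₁, hfb⟩ := hf
  have hC : 0 ≤ C := (norm_nonneg _).trans (hb' 0)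
  have hga : Continuous (fun Y : X d => ga 4 (Y - y)) := (ga_continuous 4).comp (continuous_id.sub continuous_const)
  have hmeas : ∀ s : ℝ, Continuous (fun Y : X d => ga 4 (Y - y) * ⟪f Y, g (Y - (x - s • a))⟫) := fun s =>
    hga.mul (hfc.inner (hgc.comp (continuous_id.sub continuous_const)))
  have key := hasDerivAt_integral_of_dominated_loc_of_deriv_le (μ := (volume : Measure (X d)))
    (F := fun (s : ℝ) (Y : X d) => ga 4 (Y - y) * ⟪f Y, g (Y - (x - s • a))⟫)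
    (F' := fun (s : ℝ) (Y : X d) => ga 4 (Y - y) * ⟪f Y, g' ((Y - x) + s • a)⟫) (x₀ := (0 : ℝ))
    (s := Set.univ) (bound := fun Y => C * (C₁ * ((1 + ‖Y - y‖) ^ m * ga 4 (Y - y)))) Filter.univ_mem
    (Eventually.of_forall fun s => (hmeas s).aestronglyMeasurable) ?_ ?_ ?_ ?_ ?_
  · have h := key.2
    simp only [zero_smul, add_zero] at h
    exact h
  · have hP : CoH1_P y (fun Y : X d => ⟪f Y, g (Y - (x - (0 : ℝ) • a))⟫) := by
      refine CoH1_P_inner ⟨hfc, C₁, m, hC₁, hfb⟩ ?_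
      obtain ⟨_, C₂, m₂, hC₂, h2⟩ := CoH1_P_sub (y := y) (x - (0 : ℝ) • a)
      have hC'' : 0 ≤ C' := by
        have := (norm_nonneg _).trans (hb 0)
        rw [norm_zero, add_zero, mul_one] at this
        exact this
      refine ⟨hgc.comp (continuous_id.sub continuous_const), C' * (1 + C₂), m₂, by positivity, fun Y => ?_⟩
      have h1 : (1 : ℝ) ≤ (1 + ‖Y - y‖) ^ m₂ := one_le_pow₀ (CoH1_one y Y)
      calc ‖g (Y - (x - (0 : ℝ) • a))‖ ≤ C' * (1 + ‖Y - (x - (0 : ℝ) • a)‖) := hb _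
        _ ≤ C' * ((1 + ‖Y - y‖) ^ m₂ + C₂ * (1 + ‖Y - y‖) ^ m₂) :=
            mul_le_mul_of_nonneg_left (add_le_add h1 (h2 Y)) hC''
        _ = _ := by ring
    exact CoH1_intr hP
  · exact (hga.mul (hfc.inner (hgc'.comp ((continuous_id.sub continuous_const).add continuous_const)))).aestronglyMeasurable
  · refine Eventually.of_forall fun Y s _ => ?_
    rw [norm_mul, Real.norm_of_nonneg (ga_nonneg 4 _)]
    calc ga 4 (Y - y) * ‖⟪f Y, g' ((Y - x) + s • a)⟫‖ ≤ ga 4 (Y - y) * ((C₁ * (1 + ‖Y - y‖) ^ m) * C) := by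
          refine mul_le_mul_of_nonneg_left ((norm_inner_le_norm _ _).trans ?_) (ga_nonneg 4 _)
          exact mul_le_mul (hfb Y) (hb' _) (norm_nonneg _) (by positivity)
      _ = _ := by ring
  · exact (((ga_integrable (d := d) (b := 4) (by norm_num) m).comp_sub_right y).const_mul C₁).const_mul C
  · refine Eventually.of_forall fun Y s _ => ?_
    have h1 : HasDerivAt (fun s : ℝ => g (Y - (x - s • a))) (g' ((Y - x) + s • a)) s := by
      refine (hg2 (Y - x) s).congr_of_eventuallyEq (Eventually.of_forall fun t => ?_)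
      show g (Y - (x - t • a)) = g ((Y - x) + t • a)
      rw [hsub]
    have h2 := (hasDerivAt_const s (f Y)).inner ℝ h1
    have h3 := h2.const_mul (ga 4 (Y - y))
    refine h3.congr_deriv ?_
    rw [inner_zero_left, add_zero]

theorem claim1 {n : ℕ} (hd : d = n + 3) {ε : ℝ} (hε : 0 < ε) (x y : X d) :
    ∫ Y, ⟪Vv y Y, kr n ε (Y - x) • (Y - x)⟫ =
      (n + 1) * (n + 3) * (n + 5) * ∫ Y, ga 4 (Y - y) * (ε ^ 4 * kr (n + 6) ε (Y - x)) := by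
  -- the three fields
  have G0 := CoH1_kr n hε x
  have G2 := CoH1_kr (n + 2) hε x
  have G4 := CoH1_kr (n + 4) hε x
  have P0 := CoH1_P_kr (y := y) n hε x
  have P2 := CoH1_P_kr (y := y) (n + 2) hε x
  have P4 := CoH1_P_kr (y := y) (n + 4) hε x
  have P6 := CoH1_P_kr (y := y) (n + 6) hε x
  have PZ := CoH1_P_sub (y := y) x
  have Pw := CoH1_P_sub (y := y) y
  have E1 := CoH1_euler (y := y) (p := x)
    (CoH1_mul (CoH1_add (CoH1_cmul 64 (CoH1_nsq y)) (CoH1_const (-(8 * (d : ℝ))))) G0)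
    (CoH1_P_mul (CoH1_P_add (CoH1_P_mul (CoH1_P_const _) (CoH1_P_nsq y)) (CoH1_P_const _)) P0)
    (CoH1_P_add
      (CoH1_P_smul (CoH1_P_add (CoH1_P_mul (CoH1_P_const _) (CoH1_P_nsq y)) (CoH1_P_const _))
        (CoH1_P_smul (CoH1_P_mul (CoH1_P_const _) P2) PZ))
      (CoH1_P_smul P0 (CoH1_P_add (CoH1_P_smul (CoH1_P_const _) (CoH1_P_smul (CoH1_P_const _) Pw)) (CoH1_P_const _))))
  have E2 := CoH1_euler (y := y) (p := y)
    (CoH1_add (CoH1_cmul 16 G0) (CoH1_cmul (8 * ((n : ℝ) + 1) * ε ^ 2) G2))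
    (CoH1_P_add (CoH1_P_mul (CoH1_P_const _) P0) (CoH1_P_mul (CoH1_P_const _) P2))
    (CoH1_P_add (CoH1_P_smul (CoH1_P_const _) (CoH1_P_smul (CoH1_P_mul (CoH1_P_const _) P2) PZ))
      (CoH1_P_smul (CoH1_P_const _) (CoH1_P_smul (CoH1_P_mul (CoH1_P_const _) P4) PZ)))
  have E3 := CoH1_euler (y := y) (p := x)
    (CoH1_add (CoH1_cmul (-(2 * ((n : ℝ) + 1))) G2) (CoH1_cmul (-(((n : ℝ) + 1) * (n + 3) * ε ^ 2)) G4))
    (CoH1_P_add (CoH1_P_mul (CoH1_P_const _) P2) (CoH1_P_mul (CoH1_P_const _) P4))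
    (CoH1_P_add (CoH1_P_smul (CoH1_P_const _) (CoH1_P_smul (CoH1_P_mul (CoH1_P_const _) P4) PZ))
      (CoH1_P_smul (CoH1_P_const _) (CoH1_P_smul (CoH1_P_mul (CoH1_P_const _) P6) PZ)))
  have hsum := CoH1_three E1 E2 E3
  have IA : Integrable (fun Y => ⟪Vv y Y, kr n ε (Y - x) • (Y - x)⟫) := by
    have h := CoH1_intr (y := y) (CoH1_P_mul (CoH1_P_add (CoH1_P_const (64 * ((d : ℝ) + 2)))
      (CoH1_P_mul (CoH1_P_const (-512 : ℝ)) (CoH1_P_nsq y))) (CoH1_P_inner Pw (CoH1_P_smul P0 PZ)))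
    refine h.congr (Eventually.of_forall fun Y => ?_)
    show _ = ⟪Vv y Y, kr n ε (Y - x) • (Y - x)⟫
    unfold Vv
    rw [real_inner_smul_left (Y - y)]
    ring
  have IB : Integrable (fun Y => ga 4 (Y - y) * (ε ^ 4 * kr (n + 6) ε (Y - x))) :=
    CoH1_intr (CoH1_P_mul (CoH1_P_const _) P6)
  have hzero : ∫ Y, (⟪Vv y Y, kr n ε (Y - x) • (Y - x)⟫ -
      (n + 1) * (n + 3) * (n + 5) * (ga 4 (Y - y) * (ε ^ 4 * kr (n + 6) ε (Y - x)))) = 0 := by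
    rw [← hsum]
    refine integral_congr_ae (Eventually.of_forall fun Y => ?_)
    have r0 := CoH1_kr_rel n hε (Y - x)
    have r2 := CoH1_kr_rel (n + 2) hε (Y - x)
    have r4 := CoH1_kr_rel (n + 4) hε (Y - x)
    simp only [Vv]
    generalize Y - x = Z at r0 r2 r4 ⊢
    generalize Y - y = w
    simp only [inner_add_left, inner_sub_left, real_inner_smul_left, real_inner_smul_right, real_inner_self_eq_norm_sq,
      add_zero]
    rw [real_inner_comm w Z, r0, r2, r4]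
    simp only [hd]
    push_cast
    ring
  rw [integral_sub IA (IB.const_mul _), integral_const_mul, sub_eq_zero] at hzero
  exact hzero

private theorem CoH1_sq_le (m : ℕ) {ε : ℝ} (hε : 0 < ε) (Z : X d) : kr (m + 2) ε Z * ‖Z‖ ^ 2 ≤ ε⁻¹ ^ (m + 1) := by
  have h1 := CoH1_kr_rel m hε Z
  have h2 := kr_le_eps m hε Z
  have h3 : 0 ≤ kr (m + 2) ε Z * ε ^ 2 := mul_nonneg (kr_nonneg _ _ _) (by positivity)
  rw [h1, mul_add] at h2
  linarith

private theorem CoH1_dK_deriv (n : ℕ) {ε : ℝ} (hε : 0 < ε) (a Z : X d) :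
    HasDerivAt (fun t : ℝ => kr n ε (Z + t • a) • (Z + t • a)) (dK n ε Z a) 0 := by
  have h1 := CoH1_kr n hε (0 : X d) Z a
  simp only [sub_zero] at h1
  have h2 := CoH1_line (0 : X d) Z a
  simp only [sub_zero] at h2
  have h3 := h1.fun_smul h2
  refine h3.congr_deriv ?_
  unfold dK
  rw [zero_smul, add_zero, real_inner_smul_left]
  module

private theorem CoH1_dK_bound (n : ℕ) {ε : ℝ} (hε : 0 < ε) (a Z : X d) :
    ‖dK n ε Z a‖ ≤ (n + 2) * (ε⁻¹ ^ (n + 1) * ‖a‖) := by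
  unfold dK
  have h0 := kr_nonneg n ε Z
  have h2 := kr_nonneg (n + 2) ε Z
  have h3 : ‖kr n ε Z • a‖ ≤ ε⁻¹ ^ (n + 1) * ‖a‖ := by
    rw [norm_smul, Real.norm_of_nonneg h0]
    exact mul_le_mul_of_nonneg_right (kr_le_eps n hε Z) (norm_nonneg _)
  have h4 : ‖(((n : ℝ) + 1) * (kr (n + 2) ε Z * ⟪Z, a⟫)) • Z‖ ≤ (n + 1) * (ε⁻¹ ^ (n + 1) * ‖a‖) := by
    rw [norm_smul, norm_mul, norm_mul, Real.norm_of_nonneg (by positivity : (0 : ℝ) ≤ (n : ℝ) + 1), Real.norm_of_nonneg h2,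
      mul_assoc]
    refine mul_le_mul_of_nonneg_left ?_ (by positivity)
    calc kr (n + 2) ε Z * ‖⟪Z, a⟫‖ * ‖Z‖ ≤ kr (n + 2) ε Z * (‖Z‖ * ‖a‖) * ‖Z‖ :=
          mul_le_mul_of_nonneg_right (mul_le_mul_of_nonneg_left (norm_inner_le_norm _ _) h2) (norm_nonneg _)
      _ = (kr (n + 2) ε Z * ‖Z‖ ^ 2) * ‖a‖ := by ring
      _ ≤ _ := mul_le_mul_of_nonneg_right (CoH1_sq_le n hε Z) (norm_nonneg _)
  refine (norm_sub_le _ _).trans ((add_le_add h3 h4).trans (le_of_eq ?_))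
  ring

private theorem CoH1_kr_bound (m : ℕ) {ε : ℝ} (hε : 0 < ε) (a Z : X d) :
    ‖⟪(-(m + 1) * kr (m + 2) ε Z) • Z, a⟫‖ ≤ (m + 1) * ((ε⁻¹ ^ (m + 3) + ε⁻¹ ^ (m + 1)) * ‖a‖) := by
  have h2 := kr_nonneg (m + 2) ε Z
  have h1 : kr (m + 2) ε Z * ‖Z‖ ≤ ε⁻¹ ^ (m + 3) + ε⁻¹ ^ (m + 1) := by
    have h3 : ‖Z‖ ≤ 1 + ‖Z‖ ^ 2 := by nlinarith [sq_nonneg (‖Z‖ - 1), norm_nonneg Z]
    calc kr (m + 2) ε Z * ‖Z‖ ≤ kr (m + 2) ε Z * (1 + ‖Z‖ ^ 2) := mul_le_mul_of_nonneg_left h3 h2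
      _ = kr (m + 2) ε Z + kr (m + 2) ε Z * ‖Z‖ ^ 2 := by ring
      _ ≤ _ := add_le_add (kr_le_eps (m + 2) hε Z) (CoH1_sq_le m hε Z)
  refine (norm_inner_le_norm _ _).trans ?_
  rw [norm_smul, norm_mul, norm_neg, Real.norm_of_nonneg (by positivity : (0 : ℝ) ≤ (m : ℝ) + 1), Real.norm_of_nonneg h2]
  calc (m + 1) * kr (m + 2) ε Z * ‖Z‖ * ‖a‖ = (m + 1) * ((kr (m + 2) ε Z * ‖Z‖) * ‖a‖) := by ring
    _ ≤ _ := mul_le_mul_of_nonneg_left (mul_le_mul_of_nonneg_right h1 (norm_nonneg _)) (by positivity)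

theorem claim2 {n : ℕ} (hd : d = n + 3) {ε : ℝ} (hε : 0 < ε) (x y a : X d) :
    ∫ Y, ⟪Vv y Y, dK n ε (Y - x) a⟫ =
      (n + 1) * (n + 3) * (n + 5) *
        ∫ Y, 8 * ⟪Y - y, a⟫ * ga 4 (Y - y) * (ε ^ 4 * kr (n + 6) ε (Y - x)) := by
  have hkc : ∀ m : ℕ, Continuous (kr m ε : X d → ℝ) := fun m => kr_continuous m hε
  -- the left side
  have hf : CoH1_P y (fun Y : X d => (64 * ((d : ℝ) + 2) + -512 * ‖Y - y‖ ^ 2) • (Y - y)) :=
    CoH1_P_smul (CoH1_P_add (CoH1_P_const _) (CoH1_P_mul (CoH1_P_const _) (CoH1_P_nsq y))) (CoH1_P_sub y)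
  have hdKc : Continuous (fun Z : X d => dK n ε Z a) := by
    unfold dK
    exact ((hkc n).smul continuous_const).sub
      ((continuous_const.mul ((hkc (n + 2)).mul (continuous_id.inner continuous_const))).smul continuous_id)
  have D1 := CoH1_diff hf (g := fun Z => kr n ε Z • Z) (g' := fun Z => dK n ε Z a) (a := a)
    (C := (n + 2) * (ε⁻¹ ^ (n + 1) * ‖a‖)) (C' := ε⁻¹ ^ (n + 1)) (CoH1_dK_deriv n hε a)
    ((hkc n).smul continuous_id) hdKc (fun Z => by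
      rw [norm_smul, Real.norm_of_nonneg (kr_nonneg _ _ _)]
      have h1 := norm_nonneg Z
      exact mul_le_mul (kr_le_eps n hε Z) (by linarith) h1 (by positivity)) (CoH1_dK_bound n hε a) x
  -- the right side
  have D2 := CoH1_diff (E := ℝ) (CoH1_P_const (y := y) (1 : ℝ)) (g := fun Z => kr (n + 6) ε Z)
    (g' := fun Z => ⟪(-(((n + 6 : ℕ) : ℝ) + 1) * kr (n + 6 + 2) ε Z) • Z, a⟫) (a := a)
    (C := (((n + 6 : ℕ) : ℝ) + 1) * ((ε⁻¹ ^ (n + 6 + 3) + ε⁻¹ ^ (n + 6 + 1)) * ‖a‖)) (C' := ε⁻¹ ^ (n + 6 + 1)) (fun Z => by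
      have h := CoH1_kr (n + 6) hε (0 : X d) Z a
      simpa only [sub_zero] using h) (hkc (n + 6))
    (((continuous_const.mul (hkc (n + 6 + 2))).smul continuous_id).inner continuous_const) (fun Z => by
      rw [Real.norm_of_nonneg (kr_nonneg _ _ _)]
      have h1 := norm_nonneg Z
      have h2 : 0 ≤ ε⁻¹ ^ (n + 6 + 1) * ‖Z‖ := by positivity
      have h3 := kr_le_eps (n + 6) hε Z
      rw [mul_add, mul_one]
      linarith) (CoH1_kr_bound (n + 6) hε a) x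
  have hfun : (fun s : ℝ => ∫ Y, ga 4 (Y - y) * ⟪(64 * ((d : ℝ) + 2) + -512 * ‖Y - y‖ ^ 2) • (Y - y),
      kr n ε (Y - (x - s • a)) • (Y - (x - s • a))⟫) = fun s : ℝ => (n + 1) * (n + 3) * (n + 5) * ε ^ 4 *
        ∫ Y, ga 4 (Y - y) * inner ℝ (1 : ℝ) (kr (n + 6) ε (Y - (x - s • a))) := by
    funext s
    have h1 := claim1 hd hε (x - s • a) y
    have h2 : ∀ Y : X d, ga 4 (Y - y) * ⟪(64 * ((d : ℝ) + 2) + -512 * ‖Y - y‖ ^ 2) • (Y - y),
        kr n ε (Y - (x - s • a)) • (Y - (x - s • a))⟫ =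
        ⟪Vv y Y, kr n ε (Y - (x - s • a)) • (Y - (x - s • a))⟫ := by
      intro Y
      unfold Vv
      rw [real_inner_smul_left (Y - y), real_inner_smul_left (Y - y)]
      ring
    have h3 : ∀ Y : X d, ga 4 (Y - y) * (ε ^ 4 * kr (n + 6) ε (Y - (x - s • a))) =
        ε ^ 4 * (ga 4 (Y - y) * inner ℝ (1 : ℝ) (kr (n + 6) ε (Y - (x - s • a)))) := by
      intro Y
      simp only [RCLike.inner_apply, conj_trivial, mul_one]
      ring
    rw [integral_congr_ae (Eventually.of_forall h2), h1, integral_congr_ae (Eventually.of_forall h3),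
      integral_const_mul]
    ring
  rw [hfun] at D1
  have huniq := D1.unique (D2.const_mul ((n + 1) * (n + 3) * (n + 5) * ε ^ 4))
  -- integration by parts in the direction `a`
  have I1 : Integrable (fun Y => ga 4 (Y - y) * ⟪(-(((n + 6 : ℕ) : ℝ) + 1) * kr (n + 6 + 2) ε (Y - x)) • (Y - x), a⟫) :=
    CoH1_intr (CoH1_P_inner (CoH1_P_smul (CoH1_P_mul (CoH1_P_const _) (CoH1_P_kr _ hε x)) (CoH1_P_sub x)) (CoH1_P_const _))
  have I2 : Integrable (fun Y => ga 4 (Y - y) * (-8 * ⟪Y - y, a⟫ * kr (n + 6) ε (Y - x))) :=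
    CoH1_intr (CoH1_P_mul (CoH1_P_mul (CoH1_P_const _) (CoH1_P_inner (CoH1_P_sub y) (CoH1_P_const _))) (CoH1_P_kr _ hε x))
  have hz := CoH1_zero (g := fun Y => ga 4 (Y - y) * kr (n + 6) ε (Y - x)) (v := a)
    (g' := fun Y => ga 4 (Y - y) * ⟪(-(((n + 6 : ℕ) : ℝ) + 1) * kr (n + 6 + 2) ε (Y - x)) • (Y - x), a⟫ +
      ga 4 (Y - y) * (-8 * ⟪Y - y, a⟫ * kr (n + 6) ε (Y - x))) (fun Y => by
      refine (CoH1_mul (CoH1_ga y) (CoH1_kr (n + 6) hε x) Y a).congr_deriv ?_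
      rw [inner_add_left, real_inner_smul_left, real_inner_smul_left, real_inner_smul_left, real_inner_smul_left]
      ring) (CoH1_intr (CoH1_P_kr _ hε x)) (I1.add I2)
  rw [integral_add I1 I2] at hz
  have hL : ∀ Y : X d, ga 4 (Y - y) * ⟪(64 * ((d : ℝ) + 2) + -512 * ‖Y - y‖ ^ 2) • (Y - y), dK n ε (Y - x) a⟫ =
      ⟪Vv y Y, dK n ε (Y - x) a⟫ := by
    intro Y
    unfold Vv
    rw [real_inner_smul_left, real_inner_smul_left]
    ring
  rw [integral_congr_ae (Eventually.of_forall hL)] at huniq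
  rw [huniq]
  have hR : ∀ Y : X d, 8 * ⟪Y - y, a⟫ * ga 4 (Y - y) * (ε ^ 4 * kr (n + 6) ε (Y - x)) =
      -ε ^ 4 * (ga 4 (Y - y) * (-8 * ⟪Y - y, a⟫ * kr (n + 6) ε (Y - x))) := by
    intro Y
    ring
  have hM : ∀ Y : X d, ga 4 (Y - y) * inner ℝ (1 : ℝ) ⟪(-(((n + 6 : ℕ) : ℝ) + 1) * kr (n + 6 + 2) ε (Y - x)) • (Y - x), a⟫ =
      ga 4 (Y - y) * ⟪(-(((n + 6 : ℕ) : ℝ) + 1) * kr (n + 6 + 2) ε (Y - x)) • (Y - x), a⟫ := by
    intro Y
    simp only [RCLike.inner_apply, conj_trivial, mul_one]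
  rw [integral_congr_ae (Eventually.of_forall hR), integral_const_mul, integral_congr_ae (Eventually.of_forall hM)]
  have h5 : ∫ Y, ga 4 (Y - y) * ⟪(-(((n + 6 : ℕ) : ℝ) + 1) * kr (n + 6 + 2) ε (Y - x)) • (Y - x), a⟫ =
      -∫ Y, ga 4 (Y - y) * (-8 * ⟪Y - y, a⟫ * kr (n + 6) ε (Y - x)) := by linarith
  rw [h5]
  ring

end Pool.Agent.H1.LD
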