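import Pool.Agent.H1.LD.CoH1

/-!
Limit ε → 0+ (ε_k = 1/(k+1)) in claim1 and claim2.  Right sides: substitute Y = x + εw (ε⁴ kr(n+6) ε (εw) ε^{d} = kr(n+6) 1 w as d = n+3): → C_n κ f(x), κ = ∫ kr(n+6) 1 w dw ∈ (0,∞), f bounded continuous (dominated convergence).
Left sides: ‖kr n ε Z • Z‖ ≤ ‖Z‖⁻¹^n, ‖dK n ε Z a‖ ≤ (n+2)‖Z‖⁻¹^(n+1)‖a‖, both locally integrable on R^{n+3}, Vv Gaussian decay; pointwise convergence for Y ≠ x.
claim3 combines: dK n 0 Z Z = -n kr n 0 Z • Z (Z ≠ 0); Y - z = (Y-x) + (x-z), dK linear in v: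
 ∫ ⟪Vv y Y, dK n 0 (Y-x)(Y-z)⟫ = -n c χ(x) + c 8⟪x-y,x-z⟫ χ(x) = -c (n - 8⟪x-z,x-y⟫) ga 4 (x-y),  c = C_n κ > 0.
-/

set_option autoImplicit false

open MeasureTheory Filter Topology Metric Set
open scoped RealInnerProductSpace ENNReal

namespace Pool.Agent.H1.LD

open Pool.Agent.RZ

variable {d : ℕ}

private theorem CoH2_scale (m : ℕ) {ε : ℝ} (hε : 0 < ε) (w : X d) :
    kr m ε (ε • w) = ε⁻¹ ^ (m + 1) * kr m 1 w := by
  have h := kr_scale (d := d) m ε (r := ε⁻¹) (inv_pos.2 hε) w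
  rw [inv_inv, inv_mul_cancel₀ hε.ne'] at h
  exact h

private theorem CoH2_kint {n : ℕ} (hd : d = n + 3) :
    Integrable (fun w : X d => kr (n + 6) 1 w) := by
  have h1 : Integrable (fun w : X d => (1 + ‖w‖) ^ (-((n : ℝ) + 7))) := by
    apply integrable_one_add_norm
    rw [finrank_euclideanSpace, Fintype.card_fin, hd]
    push_cast
    linarith
  refine (h1.const_mul ((2 : ℝ) ^ (n + 7))).mono'
    (kr_continuous (n + 6) one_pos).aestronglyMeasurable (Eventually.of_forall fun w => ?_)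
  rw [Real.norm_of_nonneg (kr_nonneg _ _ _)]
  have h2 : (1 + ‖w‖) / 2 ≤ Real.sqrt (‖w‖ ^ 2 + 1 ^ 2) := by
    apply Real.le_sqrt_of_sq_le
    nlinarith [sq_nonneg (‖w‖ - 1), norm_nonneg w, sq_nonneg ‖w‖]
  have h3 : 0 < (1 + ‖w‖) / 2 := by positivity
  have h4 : (Real.sqrt (‖w‖ ^ 2 + 1 ^ 2))⁻¹ ≤ 2 * (1 + ‖w‖)⁻¹ := by
    have h5 := inv_anti₀ h3 h2
    refine h5.trans (le_of_eq ?_)
    field_simp
  have h6 : (1 + ‖w‖) ^ (-((n : ℝ) + 7)) = (1 + ‖w‖)⁻¹ ^ (n + 7) := by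
    rw [Real.rpow_neg (by positivity), inv_pow]
    congr 1
    rw [← Real.rpow_natCast]
    congr 1
    push_cast
    ring
  rw [h6, ← mul_pow]
  exact pow_le_pow_left₀ (by positivity) h4 _

private theorem CoH2_kpos {n : ℕ} (hd : d = n + 3) : 0 < ∫ w : X d, kr (n + 6) 1 w := by
  rw [integral_pos_iff_support_of_nonneg (fun w => kr_nonneg _ _ _) (CoH2_kint hd)]
  have h : Function.support (fun w : X d => kr (n + 6) 1 w) = univ := by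
    ext w
    simp only [Function.mem_support, mem_univ, iff_true]
    exact (kr_pos (n + 6) one_pos w).ne'
  rw [h]
  exact Measure.measure_univ_pos.2 (NeZero.ne _)

private theorem CoH2_lim {n : ℕ} (hd : d = n + 3) {f : X d → ℝ} (hf : Continuous f) {B : ℝ}
    (hB : ∀ Y, |f Y| ≤ B) (x : X d) :
    Tendsto (fun ε : ℝ => ∫ Y, f Y * (ε ^ 4 * kr (n + 6) ε (Y - x))) (𝓝[>] 0)
      (𝓝 (∫ w : X d, f x * kr (n + 6) 1 w)) := by
  have h1 : ∀ᶠ ε : ℝ in 𝓝[>] 0, ∫ w : X d, f (x + ε • w) * kr (n + 6) 1 w =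
      ∫ Y, f Y * (ε ^ 4 * kr (n + 6) ε (Y - x)) := by
    filter_upwards [self_mem_nhdsWithin] with ε hε
    have hε : 0 < ε := hε
    have h2 := integral_add_left_eq_self (μ := (volume : Measure (X d)))
      (fun Y => f Y * (ε ^ 4 * kr (n + 6) ε (Y - x))) x
    simp only [add_sub_cancel_left] at h2
    rw [← h2]
    have h3 := Measure.integral_comp_smul_of_nonneg (volume : Measure (X d))
      (fun w : X d => f (x + w) * (ε ^ 4 * kr (n + 6) ε w)) ε (hR := hε.le)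
    rw [finrank_euclideanSpace, Fintype.card_fin] at h3
    have h4 : (ε ^ d) ≠ 0 := pow_ne_zero _ hε.ne'
    rw [eq_comm, smul_eq_mul, inv_mul_eq_iff_eq_mul₀ h4] at h3
    rw [h3, ← integral_const_mul]
    congr 1
    funext w
    rw [CoH2_scale _ hε]
    have h5 : ε ^ d * (ε ^ 4 * ε⁻¹ ^ (n + 6 + 1)) = 1 := by
      rw [hd]
      have h6 : ε * ε⁻¹ = 1 := mul_inv_cancel₀ hε.ne'
      calc ε ^ (n + 3) * (ε ^ 4 * ε⁻¹ ^ (n + 6 + 1)) = (ε * ε⁻¹) ^ (n + 7) := by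
            rw [mul_pow]; ring
        _ = 1 := by rw [h6, one_pow]
    calc f (x + ε • w) * kr (n + 6) 1 w
        = (ε ^ d * (ε ^ 4 * ε⁻¹ ^ (n + 6 + 1))) * (f (x + ε • w) * kr (n + 6) 1 w) := by
          rw [h5, one_mul]
      _ = _ := by ring
  refine Tendsto.congr' h1 ?_
  apply tendsto_integral_filter_of_dominated_convergence (fun w => B * kr (n + 6) 1 w)
  · refine Eventually.of_forall fun ε => ?_
    have hc : Continuous (fun w : X d => f (x + ε • w) * kr (n + 6) 1 w) :=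
      (hf.comp (by fun_prop)).mul (kr_continuous (n + 6) one_pos)
    exact hc.aestronglyMeasurable
  · refine Eventually.of_forall fun ε => Eventually.of_forall fun w => ?_
    rw [norm_mul, Real.norm_of_nonneg (kr_nonneg (n + 6) 1 w)]
    exact mul_le_mul_of_nonneg_right (hB _) (kr_nonneg _ _ _)
  · exact (CoH2_kint hd).const_mul B
  · refine Eventually.of_forall fun w => ?_
    apply Tendsto.mul_const
    have hc : Continuous (fun ε : ℝ => f (x + ε • w)) := hf.comp (by fun_prop)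
    have h7 := hc.tendsto 0
    simp only [zero_smul, add_zero] at h7
    exact h7.mono_left nhdsWithin_le_nhds

private theorem CoH2_sing {n : ℕ} (hd : d = n + 3) (x : X d) :
    Integrable (fun Y : X d => ga 1 (Y - x) * ‖Y - x‖⁻¹ ^ (n + 1)) := by
  have h0 : Integrable (fun w : X d => ga 1 w * ‖w‖⁻¹ ^ (n + 1)) := by
    have : Nontrivial (X d) := by
      have : Nonempty (Fin d) := ⟨⟨0, by omega⟩⟩
      infer_instance
    have h1 := (integrable_fun_norm_addHaar (E := X d) (F := ℝ) volume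
      (f := fun r : ℝ => Real.exp (-(1 * r ^ 2)) * r⁻¹ ^ (n + 1))).2
    refine h1 ?_
    rw [finrank_euclideanSpace, Fintype.card_fin, hd]
    have h2 : IntegrableOn (fun r : ℝ => r * Real.exp (-1 * r ^ 2)) (Ioi 0) :=
      (integrable_mul_exp_neg_mul_sq one_pos).integrableOn
    refine h2.congr_fun ?_ measurableSet_Ioi
    intro r hr
    have hr : 0 < r := hr
    have h3 : r * r⁻¹ = 1 := mul_inv_cancel₀ hr.ne'
    simp only [smul_eq_mul]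
    have h4 : r ^ (n + 3 - 1) * r⁻¹ ^ (n + 1) = r := by
      have h5 : n + 3 - 1 = (n + 1) + 1 := by omega
      rw [h5, pow_succ]
      calc r ^ (n + 1) * r * r⁻¹ ^ (n + 1) = (r * r⁻¹) ^ (n + 1) * r := by rw [mul_pow]; ring
        _ = r := by rw [h3, one_pow, one_mul]
    calc r * Real.exp (-1 * r ^ 2)
        = (r ^ (n + 3 - 1) * r⁻¹ ^ (n + 1)) * Real.exp (-1 * r ^ 2) := by rw [h4]
      _ = r ^ (n + 3 - 1) * (Real.exp (-(1 * r ^ 2)) * r⁻¹ ^ (n + 1)) := by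
          rw [neg_mul]; ring
  exact h0.comp_sub_right x

private theorem CoH2_Vb (x y : X d) : ∃ C : ℝ, 0 ≤ C ∧ ∀ Y : X d,
    (1 + ‖Y - x‖) ^ 2 * ‖Vv y Y‖ ≤ C * ga 1 (Y - x) := by
  obtain ⟨C5, hC5, h5⟩ := poly_ga d 5 (show (1 : ℝ) < 2 by norm_num)
  refine ⟨64 * (d + 10) * ((1 + ‖x - y‖) ^ 3 * Real.exp (4 * ‖x - y‖ ^ 2)) * C5, by positivity,
    fun Y => ?_⟩
  have h1 : ‖Vv y Y‖ ≤ 64 * (d + 10) * ((1 + ‖Y - y‖) ^ 3 * ga 4 (Y - y)) := by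
    unfold Vv
    rw [norm_smul, norm_mul, norm_mul, Real.norm_of_nonneg (ga_nonneg _ _)]
    have h2 : ‖((d : ℝ) + 2 - 8 * ‖Y - y‖ ^ 2)‖ ≤ (d + 10) * (1 + ‖Y - y‖) ^ 2 := by
      rw [Real.norm_eq_abs, abs_le]
      have hd0 : (0 : ℝ) ≤ d := Nat.cast_nonneg d
      have hn := norm_nonneg (Y - y)
      have h20 : (1 : ℝ) ≤ (1 + ‖Y - y‖) ^ 2 := by nlinarith
      have h21 : ‖Y - y‖ ^ 2 ≤ (1 + ‖Y - y‖) ^ 2 := by nlinarith
      have h22 : (d : ℝ) * 1 ≤ d * (1 + ‖Y - y‖) ^ 2 := mul_le_mul_of_nonneg_left h20 hd0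
      constructor <;> nlinarith [sq_nonneg ‖Y - y‖]
    have h3 : ‖(64 : ℝ)‖ = 64 := by norm_num
    rw [h3]
    calc 64 * ‖((d : ℝ) + 2 - 8 * ‖Y - y‖ ^ 2)‖ * ga 4 (Y - y) * ‖Y - y‖
        ≤ 64 * ((d + 10) * (1 + ‖Y - y‖) ^ 2) * ga 4 (Y - y) * (1 + ‖Y - y‖) := by
          have := ga_nonneg 4 (Y - y)
          have := norm_nonneg (Y - y)
          gcongr
          linarith
      _ = _ := by ring
  have h6 : ga 4 (Y - y) ≤ ga 2 (Y - x) * Real.exp (4 * ‖x - y‖ ^ 2) := by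
    have h7 := ga_two (d := d) (show (0 : ℝ) ≤ 4 by norm_num) x y Y
    rw [ga_comm 4 Y y, ga_comm 2 Y x]
    refine h7.trans (le_of_eq ?_)
    norm_num
  have h8 := peetre 3 Y x y
  have hg4 := ga_nonneg 4 (Y - y)
  have hg2 := ga_nonneg 2 (Y - x)
  calc (1 + ‖Y - x‖) ^ 2 * ‖Vv y Y‖
      ≤ (1 + ‖Y - x‖) ^ 2 * (64 * (d + 10) * (((1 + ‖Y - x‖) ^ 3 * (1 + ‖x - y‖) ^ 3) *
          (ga 2 (Y - x) * Real.exp (4 * ‖x - y‖ ^ 2)))) := by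
        refine mul_le_mul_of_nonneg_left (h1.trans ?_) (by positivity)
        refine mul_le_mul_of_nonneg_left ?_ (by positivity)
        exact mul_le_mul h8 h6 hg4 (by positivity)
    _ = 64 * (d + 10) * ((1 + ‖x - y‖) ^ 3 * Real.exp (4 * ‖x - y‖ ^ 2)) *
          ((1 + ‖Y - x‖) ^ 5 * ga 2 (Y - x)) := by ring
    _ ≤ 64 * (d + 10) * ((1 + ‖x - y‖) ^ 3 * Real.exp (4 * ‖x - y‖ ^ 2)) *
          (C5 * ga 1 (Y - x)) := mul_le_mul_of_nonneg_left (h5 _) (by positivity)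
    _ = _ := by ring

private theorem CoH2_Vcont (y : X d) : Continuous (Vv y) := by
  unfold Vv ga
  fun_prop

private theorem CoH2_ae {n : ℕ} (hd : d = n + 3) (x : X d) : ∀ᵐ Y : X d, Y - x ≠ 0 := by
  have : Nontrivial (X d) := by
    have : Nonempty (Fin d) := ⟨⟨0, by omega⟩⟩
    infer_instance
  have h : (volume : Measure (X d)) {x} = 0 := measure_singleton x
  filter_upwards [compl_mem_ae_iff.2 h] with Y hY h0
  exact hY (sub_eq_zero.1 h0)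

/-- the singular integrals -/
private theorem CoH2_dct {n : ℕ} (hd : d = n + 3) (x y : X d) {K : ℝ → X d → X d} {B : ℝ}
    (hB : 0 ≤ B) (hm : ∀ ε : ℝ, 0 ≤ ε → Measurable (K ε))
    (hb : ∀ ε : ℝ, 0 ≤ ε → ∀ Z : X d, Z ≠ 0 → ‖K ε Z‖ ≤ B * ((1 + ‖Z‖) ^ 2 * ‖Z‖⁻¹ ^ (n + 1)))
    (hl : ∀ Z : X d, Z ≠ 0 → Tendsto (fun ε => K ε Z) (𝓝[>] 0) (𝓝 (K 0 Z))) :
    Integrable (fun Y => ⟪Vv y Y, K 0 (Y - x)⟫) ∧
    Tendsto (fun ε : ℝ => ∫ Y, ⟪Vv y Y, K ε (Y - x)⟫) (𝓝[>] 0)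
      (𝓝 (∫ Y, ⟪Vv y Y, K 0 (Y - x)⟫)) := by
  obtain ⟨C, hC, hV⟩ := CoH2_Vb x y
  have hint : Integrable (fun Y : X d => B * C * (ga 1 (Y - x) * ‖Y - x‖⁻¹ ^ (n + 1))) :=
    (CoH2_sing hd x).const_mul _
  have hmeas : ∀ ε : ℝ, 0 ≤ ε →
      AEStronglyMeasurable (fun Y => ⟪Vv y Y, K ε (Y - x)⟫) (volume : Measure (X d)) := by
    intro ε hε
    have h1 : Measurable (fun Y : X d => K ε (Y - x)) := (hm ε hε).comp (measurable_id.sub_const x)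
    exact (CoH2_Vcont y).aestronglyMeasurable.inner h1.aestronglyMeasurable
  have hbd : ∀ ε : ℝ, 0 ≤ ε → ∀ᵐ Y : X d,
      ‖⟪Vv y Y, K ε (Y - x)⟫‖ ≤ B * C * (ga 1 (Y - x) * ‖Y - x‖⁻¹ ^ (n + 1)) := by
    intro ε hε
    filter_upwards [CoH2_ae hd x] with Y hY
    calc ‖⟪Vv y Y, K ε (Y - x)⟫‖ ≤ ‖Vv y Y‖ * ‖K ε (Y - x)‖ := norm_inner_le_norm _ _
      _ ≤ ‖Vv y Y‖ * (B * ((1 + ‖Y - x‖) ^ 2 * ‖Y - x‖⁻¹ ^ (n + 1))) :=
          mul_le_mul_of_nonneg_left (hb ε hε _ hY) (norm_nonneg _)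
      _ = B * (((1 + ‖Y - x‖) ^ 2 * ‖Vv y Y‖) * ‖Y - x‖⁻¹ ^ (n + 1)) := by ring
      _ ≤ B * ((C * ga 1 (Y - x)) * ‖Y - x‖⁻¹ ^ (n + 1)) :=
          mul_le_mul_of_nonneg_left (mul_le_mul_of_nonneg_right (hV Y) (by positivity)) hB
      _ = _ := by ring
  constructor
  · exact hint.mono' (hmeas 0 le_rfl) (hbd 0 le_rfl)
  · apply tendsto_integral_filter_of_dominated_convergence
      (fun Y => B * C * (ga 1 (Y - x) * ‖Y - x‖⁻¹ ^ (n + 1)))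
    · filter_upwards [self_mem_nhdsWithin] with ε hε
      exact hmeas ε (le_of_lt hε)
    · filter_upwards [self_mem_nhdsWithin] with ε hε
      exact hbd ε (le_of_lt hε)
    · exact hint
    · filter_upwards [CoH2_ae hd x] with Y hY
      exact (tendsto_const_nhds).inner (hl _ hY)

private theorem CoH2_kmeas (m : ℕ) (ε : ℝ) : Measurable (kr m ε : X d → ℝ) := by
  unfold kr
  fun_prop

private theorem CoH2_ktend (m : ℕ) {Z : X d} (hZ : Z ≠ 0) :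
    Tendsto (fun ε => kr m ε Z) (𝓝[>] 0) (𝓝 (kr m 0 Z)) := by
  have h1 : Tendsto (fun ε : ℝ => Real.sqrt (‖Z‖ ^ 2 + ε ^ 2)) (𝓝[>] 0)
      (𝓝 (Real.sqrt (‖Z‖ ^ 2 + 0 ^ 2))) := by
    have hc : Continuous (fun ε : ℝ => Real.sqrt (‖Z‖ ^ 2 + ε ^ 2)) := by fun_prop
    exact (hc.tendsto 0).mono_left nhdsWithin_le_nhds
  have h2 : Real.sqrt (‖Z‖ ^ 2 + 0 ^ 2) ≠ 0 := by
    have : 0 < ‖Z‖ := norm_pos_iff.2 hZ
    positivity
  exact (h1.inv₀ h2).pow (m + 1)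

private theorem CoH2_dKmeas (n : ℕ) (ε : ℝ) (a : X d) : Measurable (fun Z => dK n ε Z a) := by
  unfold dK
  have h1 := CoH2_kmeas (d := d) n ε
  have h2 := CoH2_kmeas (d := d) (n + 2) ε
  exact (h1.smul_const a).sub (((h2.mul (by fun_prop)).const_mul _).smul measurable_id)

private theorem CoH2_dKb (n : ℕ) (ε : ℝ) (a : X d) {Z : X d} (hZ : Z ≠ 0) :
    ‖dK n ε Z a‖ ≤ (n + 2) * ‖a‖ * ‖Z‖⁻¹ ^ (n + 1) := by
  have h0 : 0 < ‖Z‖ := norm_pos_iff.2 hZ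
  have h1 := kr_le_norm n ε hZ
  have h2 := kr_le_norm (n + 2) ε hZ
  have k1 := kr_nonneg n ε Z
  have k2 := kr_nonneg (n + 2) ε Z
  have h3 : kr (n + 2) ε Z * ‖Z‖ ^ 2 ≤ ‖Z‖⁻¹ ^ (n + 1) := by
    calc kr (n + 2) ε Z * ‖Z‖ ^ 2 ≤ ‖Z‖⁻¹ ^ (n + 2 + 1) * ‖Z‖ ^ 2 :=
          mul_le_mul_of_nonneg_right h2 (by positivity)
      _ = ‖Z‖⁻¹ ^ (n + 1) * (‖Z‖⁻¹ * ‖Z‖) ^ 2 := by rw [mul_pow]; ring
      _ = ‖Z‖⁻¹ ^ (n + 1) := by rw [inv_mul_cancel₀ h0.ne']; ring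
  unfold dK
  refine (norm_sub_le _ _).trans ?_
  rw [norm_smul, norm_smul, norm_mul, norm_mul, Real.norm_of_nonneg k1, Real.norm_of_nonneg k2]
  have h4 : ‖((n : ℝ) + 1)‖ = n + 1 := Real.norm_of_nonneg (by positivity)
  rw [h4]
  have h5 : ‖⟪Z, a⟫‖ ≤ ‖Z‖ * ‖a‖ := norm_inner_le_norm _ _
  calc kr n ε Z * ‖a‖ + (n + 1) * (kr (n + 2) ε Z * ‖⟪Z, a⟫‖) * ‖Z‖
      ≤ kr n ε Z * ‖a‖ + (n + 1) * (kr (n + 2) ε Z * (‖Z‖ * ‖a‖)) * ‖Z‖ := by gcongr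
    _ = kr n ε Z * ‖a‖ + (n + 1) * ‖a‖ * (kr (n + 2) ε Z * ‖Z‖ ^ 2) := by ring
    _ ≤ ‖Z‖⁻¹ ^ (n + 1) * ‖a‖ + (n + 1) * ‖a‖ * ‖Z‖⁻¹ ^ (n + 1) := by gcongr
    _ = _ := by ring

private theorem CoH2_lim1 {n : ℕ} (hd : d = n + 3) (x y : X d) :
    Integrable (fun Y => ⟪Vv y Y, kr n 0 (Y - x) • (Y - x)⟫) ∧
    ∫ Y, ⟪Vv y Y, kr n 0 (Y - x) • (Y - x)⟫ =
      (n + 1) * (n + 3) * (n + 5) * ((∫ w : X d, kr (n + 6) 1 w) * ga 4 (x - y)) := by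
  have h := CoH2_dct hd x y (K := fun ε Z => kr n ε Z • Z) (B := 1) zero_le_one
    (fun ε _ => (CoH2_kmeas n ε).smul measurable_id)
    (fun ε _ Z hZ => by
      have h0 : 0 < ‖Z‖ := norm_pos_iff.2 hZ
      rw [norm_smul, Real.norm_of_nonneg (kr_nonneg _ _ _), one_mul]
      calc kr n ε Z * ‖Z‖ ≤ ‖Z‖⁻¹ ^ (n + 1) * (1 + ‖Z‖) ^ 2 := by
            apply mul_le_mul (kr_le_norm n ε hZ) (by nlinarith) h0.le (by positivity)
        _ = _ := by ring)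
    (fun Z hZ => (CoH2_ktend n hZ).smul_const Z)
  refine ⟨h.1, ?_⟩
  have h2 : Tendsto (fun ε : ℝ => ((n : ℝ) + 1) * (n + 3) * (n + 5) *
      ∫ Y, ga 4 (Y - y) * (ε ^ 4 * kr (n + 6) ε (Y - x))) (𝓝[>] 0)
      (𝓝 (((n : ℝ) + 1) * (n + 3) * (n + 5) * ∫ w : X d, ga 4 (x - y) * kr (n + 6) 1 w)) := by
    apply Tendsto.const_mul
    apply CoH2_lim hd (f := fun Y => ga 4 (Y - y)) ((ga_continuous 4).comp (by fun_prop)) (B := 1)
    intro Y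
    rw [abs_of_nonneg (ga_nonneg _ _)]
    exact ga_le_one (by norm_num) _
  have h3 : Tendsto (fun ε : ℝ => ∫ Y, ⟪Vv y Y, kr n ε (Y - x) • (Y - x)⟫) (𝓝[>] 0)
      (𝓝 (((n : ℝ) + 1) * (n + 3) * (n + 5) * ∫ w : X d, ga 4 (x - y) * kr (n + 6) 1 w)) := by
    refine h2.congr' ?_
    filter_upwards [self_mem_nhdsWithin] with ε hε
    exact (claim1 hd hε x y).symm
  have h4 := tendsto_nhds_unique h.2 h3
  rw [h4, integral_const_mul]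
  ring

private theorem CoH2_lim2 {n : ℕ} (hd : d = n + 3) (x y a : X d) :
    Integrable (fun Y => ⟪Vv y Y, dK n 0 (Y - x) a⟫) ∧
    ∫ Y, ⟪Vv y Y, dK n 0 (Y - x) a⟫ =
      (n + 1) * (n + 3) * (n + 5) * ((∫ w : X d, kr (n + 6) 1 w) *
        (8 * ⟪x - y, a⟫ * ga 4 (x - y))) := by
  have h := CoH2_dct hd x y (K := fun ε Z => dK n ε Z a) (B := (n + 2) * ‖a‖) (by positivity)
    (fun ε _ => CoH2_dKmeas n ε a)
    (fun ε _ Z hZ => by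
      refine (CoH2_dKb n ε a hZ).trans ?_
      apply mul_le_mul_of_nonneg_left _ (by positivity)
      have h0 : 0 < ‖Z‖ := norm_pos_iff.2 hZ
      have h1 : (1 : ℝ) ≤ (1 + ‖Z‖) ^ 2 := by nlinarith
      exact le_mul_of_one_le_left (by positivity) h1)
    (fun Z hZ => by
      unfold dK
      exact ((CoH2_ktend n hZ).smul_const a).sub
        ((((CoH2_ktend (n + 2) hZ).mul_const _).const_mul _).smul_const Z))
  refine ⟨h.1, ?_⟩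
  obtain ⟨B, hB0, hB⟩ : ∃ B : ℝ, 0 ≤ B ∧ ∀ Y : X d, |8 * ⟪Y - y, a⟫ * ga 4 (Y - y)| ≤ B := by
    obtain ⟨C, hC, hC1⟩ := poly_ga d 1 (show (1 : ℝ) < 4 by norm_num)
    refine ⟨8 * ‖a‖ * C, by positivity, fun Y => ?_⟩
    have h1 : |⟪Y - y, a⟫| ≤ ‖Y - y‖ * ‖a‖ := abs_real_inner_le_norm _ _
    rw [abs_mul, abs_mul, abs_of_nonneg (ga_nonneg 4 (Y - y)), abs_of_pos (show (0 : ℝ) < 8 by norm_num)]
    have hg := ga_nonneg 4 (Y - y)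
    have hn := norm_nonneg (Y - y)
    calc 8 * |⟪Y - y, a⟫| * ga 4 (Y - y) ≤ 8 * ((1 + ‖Y - y‖) ^ 1 * ‖a‖) * ga 4 (Y - y) := by
          gcongr
          refine h1.trans ?_
          apply mul_le_mul_of_nonneg_right _ (norm_nonneg a)
          rw [pow_one]
          linarith
      _ = 8 * ‖a‖ * ((1 + ‖Y - y‖) ^ 1 * ga 4 (Y - y)) := by ring
      _ ≤ 8 * ‖a‖ * (C * ga 1 (Y - y)) := mul_le_mul_of_nonneg_left (hC1 _) (by positivity)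
      _ ≤ 8 * ‖a‖ * (C * 1) := by
          have := ga_le_one (d := d) (show (0 : ℝ) ≤ 1 by norm_num) (Y - y)
          gcongr
      _ = _ := by ring
  have h2 : Tendsto (fun ε : ℝ => ((n : ℝ) + 1) * (n + 3) * (n + 5) *
      ∫ Y, (8 * ⟪Y - y, a⟫ * ga 4 (Y - y)) * (ε ^ 4 * kr (n + 6) ε (Y - x))) (𝓝[>] 0)
      (𝓝 (((n : ℝ) + 1) * (n + 3) * (n + 5) *
        ∫ w : X d, (8 * ⟪x - y, a⟫ * ga 4 (x - y)) * kr (n + 6) 1 w)) := by
    apply Tendsto.const_mul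
    apply CoH2_lim hd (f := fun Y => 8 * ⟪Y - y, a⟫ * ga 4 (Y - y)) _ hB
    unfold ga
    fun_prop
  have h3 : Tendsto (fun ε : ℝ => ∫ Y, ⟪Vv y Y, dK n ε (Y - x) a⟫) (𝓝[>] 0)
      (𝓝 (((n : ℝ) + 1) * (n + 3) * (n + 5) *
        ∫ w : X d, (8 * ⟪x - y, a⟫ * ga 4 (x - y)) * kr (n + 6) 1 w)) := by
    refine h2.congr' ?_
    filter_upwards [self_mem_nhdsWithin] with ε hε
    exact (claim2 hd hε x y a).symm
  have h4 := tendsto_nhds_unique h.2 h3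
  rw [h4, integral_const_mul]
  ring

private theorem CoH2_dK0 (n : ℕ) (Z b : X d) (hZ : Z ≠ 0) :
    dK n 0 Z (Z + b) = (-(n : ℝ)) • (kr n 0 Z • Z) + dK n 0 Z b := by
  have h0 : 0 < ‖Z‖ := norm_pos_iff.2 hZ
  have h1 : kr (n + 2) 0 Z * ‖Z‖ ^ 2 = kr n 0 Z := by
    unfold kr
    have h2 : Real.sqrt (‖Z‖ ^ 2 + 0 ^ 2) = ‖Z‖ := by
      rw [zero_pow two_ne_zero, add_zero, Real.sqrt_sq h0.le]
    rw [h2]
    calc ‖Z‖⁻¹ ^ (n + 2 + 1) * ‖Z‖ ^ 2 = ‖Z‖⁻¹ ^ (n + 1) * (‖Z‖⁻¹ * ‖Z‖) ^ 2 := by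
          rw [mul_pow]; ring
      _ = ‖Z‖⁻¹ ^ (n + 1) := by rw [inv_mul_cancel₀ h0.ne']; ring
  unfold dK
  rw [inner_add_right, real_inner_self_eq_norm_sq, mul_add, h1, smul_add, smul_smul]
  module

theorem claim3 {n : ℕ} (hd : d = n + 3) : ∃ c : ℝ, 0 < c ∧ ∀ x y z : X d,
    Integrable (fun Y => ‖Vv y Y‖ * (‖Y - x‖⁻¹ ^ (n + 1) * ‖Y - z‖)) ∧
    ∫ Y, ⟪Vv y Y, dK n 0 (Y - x) (Y - z)⟫ =
      -c * ((n - 8 * ⟪x - z, x - y⟫) * ga 4 (x - y)) := by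
  have hκ := CoH2_kpos (n := n) hd
  refine ⟨(n + 1) * (n + 3) * (n + 5) * ∫ w : X d, kr (n + 6) 1 w, by positivity,
    fun x y z => ⟨?_, ?_⟩⟩
  · obtain ⟨C, hC, hV⟩ := CoH2_Vb x y
    refine ((CoH2_sing hd x).const_mul ((1 + ‖x - z‖) * C)).mono' ?_
      (Eventually.of_forall fun Y => ?_)
    · have hm : Measurable (fun Y : X d => ‖Vv y Y‖ * (‖Y - x‖⁻¹ ^ (n + 1) * ‖Y - z‖)) := by
        have h1 : Measurable (fun Y : X d => ‖Vv y Y‖) := (CoH2_Vcont y).norm.measurable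
        exact h1.mul (by fun_prop)
      exact hm.aestronglyMeasurable
    · rw [Real.norm_of_nonneg (by positivity)]
      have h1 : ‖Y - z‖ ≤ (1 + ‖x - z‖) * (1 + ‖Y - x‖) ^ 2 := by
        have h2 : ‖Y - z‖ ≤ ‖Y - x‖ + ‖x - z‖ := norm_sub_le_norm_sub_add_norm_sub Y x z
        have h3 := norm_nonneg (Y - x)
        have h4 := norm_nonneg (x - z)
        have h5 : (1 + ‖x - z‖) * (1 + ‖Y - x‖) ≤ (1 + ‖x - z‖) * (1 + ‖Y - x‖) ^ 2 := by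
          apply mul_le_mul_of_nonneg_left _ (by positivity)
          nlinarith
        nlinarith [mul_nonneg h3 h4]
      calc ‖Vv y Y‖ * (‖Y - x‖⁻¹ ^ (n + 1) * ‖Y - z‖)
          ≤ ‖Vv y Y‖ * (‖Y - x‖⁻¹ ^ (n + 1) * ((1 + ‖x - z‖) * (1 + ‖Y - x‖) ^ 2)) := by
            gcongr
        _ = (1 + ‖x - z‖) * ‖Y - x‖⁻¹ ^ (n + 1) * ((1 + ‖Y - x‖) ^ 2 * ‖Vv y Y‖) := by ring
        _ ≤ (1 + ‖x - z‖) * ‖Y - x‖⁻¹ ^ (n + 1) * (C * ga 1 (Y - x)) :=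
            mul_le_mul_of_nonneg_left (hV Y) (by positivity)
        _ = _ := by ring
  · obtain ⟨i1, e1⟩ := CoH2_lim1 hd x y
    obtain ⟨i2, e2⟩ := CoH2_lim2 hd x y (x - z)
    have h1 : ∫ Y, ⟪Vv y Y, dK n 0 (Y - x) (Y - z)⟫ =
        ∫ Y, (-(n : ℝ) * ⟪Vv y Y, kr n 0 (Y - x) • (Y - x)⟫ + ⟪Vv y Y, dK n 0 (Y - x) (x - z)⟫) := by
      apply integral_congr_ae
      filter_upwards [CoH2_ae hd x] with Y hY
      have h2 : Y - z = (Y - x) + (x - z) := by abel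
      rw [h2, CoH2_dK0 n _ _ hY, inner_add_right, real_inner_smul_right]
    rw [h1, integral_add (i1.const_mul _) i2, integral_const_mul, e1, e2, real_inner_comm (x - z)]
    ring

end Pool.Agent.H1.LD
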