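import Pool.Agent.H1.LD.CoH2

/-!
J_le_Qc.  Integrate claim3 dμ(x); Fubini: ∫_x∫_Y ‖Vv y Y‖ ‖Y-x‖^{-n-1}‖Y-z‖ < ∞ uniformly (∫_Y ‖Vv y Y‖‖Y-z‖‖Y-x‖^{-n-1} dY ≤ C(y,z): local part ∫_{‖Y-x‖≤1}‖Y-x‖^{-n-1} finite, bounded factor; rest integrable Gaussian), μ finite:
 -c Jf n μ 4 z y = ∫ ⟪Vv y Y, Se n 0 μ Y (Y-z)⟫ dY  (for a.e. Y the x-integral converges absolutely).
Cauchy-Schwarz with the weight p(Y) = s kr(n+3) s (Y-z) = s(‖Y-z‖²+s²)^{-(n+4)/2}, s in [1/4,1/2]: c²Jf² ≤ (∫‖Vv y Y‖² /p(Y) dY) Qc n μ z s, ‖Vv y Y‖² ≤ C ga 4 (Y-y), 1/p ≤ C (1+‖Y-z‖)^{n+4} ≤ C(1+‖Y-y‖)^{n+4}(1+‖y-z‖)^{n+4}.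
-/

set_option autoImplicit false

open MeasureTheory Filter Topology Metric Set
open scoped RealInnerProductSpace ENNReal

namespace Pool.Agent.H1.LD

open Pool.Agent.RZ

variable {d : ℕ}

private theorem CoH3_kr0 (n : ℕ) (Z : X d) : kr n 0 Z = ‖Z‖⁻¹ ^ (n + 1) := by
  unfold kr
  rw [zero_pow two_ne_zero, add_zero, Real.sqrt_sq (norm_nonneg Z)]

private theorem CoH3_dK_le (n : ℕ) (Z v : X d) :
    ‖dK n 0 Z v‖ ≤ (n + 2) * (‖Z‖⁻¹ ^ (n + 1) * ‖v‖) := by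
  unfold dK
  rw [CoH3_kr0, CoH3_kr0]
  refine (norm_sub_le _ _).trans ?_
  rw [norm_smul, norm_smul, Real.norm_eq_abs, Real.norm_eq_abs]
  have h0 : 0 ≤ ‖Z‖⁻¹ := by positivity
  have h1 : |‖Z‖⁻¹ ^ (n + 1)| = ‖Z‖⁻¹ ^ (n + 1) := abs_of_nonneg (by positivity)
  have h2 : |(n + 1) * (‖Z‖⁻¹ ^ (n + 2 + 1) * ⟪Z, v⟫)| ≤
      (n + 1) * (‖Z‖⁻¹ ^ (n + 2 + 1) * (‖Z‖ * ‖v‖)) := by
    rw [abs_mul, abs_mul, abs_of_nonneg (by positivity : (0 : ℝ) ≤ (n : ℝ) + 1),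
      abs_of_nonneg (by positivity : (0 : ℝ) ≤ ‖Z‖⁻¹ ^ (n + 2 + 1))]
    refine mul_le_mul_of_nonneg_left ?_ (by positivity)
    exact mul_le_mul_of_nonneg_left (abs_real_inner_le_norm Z v) (by positivity)
  have h3 : ‖Z‖⁻¹ * ‖Z‖ ≤ 1 := inv_mul_le_one
  have h4 : ‖Z‖⁻¹ ^ (n + 2 + 1) * (‖Z‖ * ‖v‖) * ‖Z‖ ≤ ‖Z‖⁻¹ ^ (n + 1) * ‖v‖ := by
    have e : ‖Z‖⁻¹ ^ (n + 2 + 1) * (‖Z‖ * ‖v‖) * ‖Z‖ =
        (‖Z‖⁻¹ ^ (n + 1) * ‖v‖) * (‖Z‖⁻¹ * ‖Z‖) ^ 2 := by ring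
    rw [e]
    have h5 : (‖Z‖⁻¹ * ‖Z‖) ^ 2 ≤ 1 := pow_le_one₀ (by positivity) h3
    exact mul_le_of_le_one_right (by positivity) h5
  rw [h1]
  calc ‖Z‖⁻¹ ^ (n + 1) * ‖v‖ + |(n + 1) * (‖Z‖⁻¹ ^ (n + 2 + 1) * ⟪Z, v⟫)| * ‖Z‖
      ≤ ‖Z‖⁻¹ ^ (n + 1) * ‖v‖ + (n + 1) * (‖Z‖⁻¹ ^ (n + 2 + 1) * (‖Z‖ * ‖v‖)) * ‖Z‖ := by
        gcongr
    _ = ‖Z‖⁻¹ ^ (n + 1) * ‖v‖ + (n + 1) * (‖Z‖⁻¹ ^ (n + 2 + 1) * (‖Z‖ * ‖v‖) * ‖Z‖) := by ring
    _ ≤ ‖Z‖⁻¹ ^ (n + 1) * ‖v‖ + (n + 1) * (‖Z‖⁻¹ ^ (n + 1) * ‖v‖) := by gcongr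
    _ = _ := by ring

/-- the local part of the kernel -/
private noncomputable def CoH3_r (n : ℕ) (Z : X d) : ℝ :=
  (Iio (1 : ℝ)).indicator (fun t => t⁻¹ ^ (n + 1)) ‖Z‖

private theorem CoH3_r_nonneg (n : ℕ) (Z : X d) : 0 ≤ CoH3_r n Z := by
  unfold CoH3_r
  refine indicator_apply_nonneg fun _ => ?_
  positivity

private theorem CoH3_r_meas (n : ℕ) : Measurable (CoH3_r n : X d → ℝ) := by
  unfold CoH3_r
  exact ((by fun_prop : Measurable fun t : ℝ => t⁻¹ ^ (n + 1)).indicator measurableSet_Iio).comp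
    measurable_norm

private theorem CoH3_le_r (n : ℕ) (Z : X d) : ‖Z‖⁻¹ ^ (n + 1) ≤ CoH3_r n Z + 1 := by
  unfold CoH3_r
  by_cases h : ‖Z‖ < 1
  · rw [indicator_of_mem (by exact h)]
    linarith
  · rw [indicator_of_notMem (by exact h)]
    have h1 : ‖Z‖⁻¹ ≤ 1 := inv_le_one_of_one_le₀ (not_lt.1 h)
    have h2 : ‖Z‖⁻¹ ^ (n + 1) ≤ 1 := pow_le_one₀ (by positivity) h1
    linarith

private theorem CoH3_r_int {n : ℕ} (hd : d = n + 3) :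
    Integrable (CoH3_r n : X d → ℝ) := by
  subst hd
  have h := (integrable_fun_norm_addHaar (E := X (n + 3)) volume
    (f := (Iio (1 : ℝ)).indicator (fun t => t⁻¹ ^ (n + 1)))).2
  refine h ?_
  have h1 : Module.finrank ℝ (X (n + 3)) - 1 = n + 2 := by simp
  rw [h1]
  have h2 : IntegrableOn (fun t : ℝ => (Iio (1 : ℝ)).indicator (fun _ => (1 : ℝ)) t) (Ioi 0) := by
    have h3 : Integrable ((Iio (1 : ℝ)).indicator (fun _ => (1 : ℝ))) (volume.restrict (Ioi 0)) := by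
      rw [integrable_indicator_iff measurableSet_Iio]
      unfold IntegrableOn
      rw [Measure.restrict_restrict measurableSet_Iio, inter_comm, Ioi_inter_Iio]
      exact integrable_const 1
    exact h3
  refine Integrable.mono' h2 ?_ ?_
  · refine Measurable.aestronglyMeasurable ?_
    exact (by fun_prop : Measurable fun t : ℝ => t ^ (n + 2)).smul
      ((by fun_prop : Measurable fun t : ℝ => t⁻¹ ^ (n + 1)).indicator measurableSet_Iio)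
  · refine (ae_restrict_mem measurableSet_Ioi).mono fun t ht => ?_
    have ht0 : (0 : ℝ) < t := ht
    by_cases h : t < 1
    · rw [indicator_of_mem (by exact h), indicator_of_mem (by exact h), smul_eq_mul, Real.norm_eq_abs,
        abs_of_nonneg (by positivity)]
      have e : t ^ (n + 2) * t⁻¹ ^ (n + 1) = t := by
        rw [pow_succ t (n + 1), mul_assoc, mul_comm t, ← mul_assoc, ← mul_pow,
          mul_inv_cancel₀ ht0.ne', one_pow, one_mul]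
      rw [e]
      exact h.le
    · rw [indicator_of_notMem (by exact h), indicator_of_notMem (by exact h), smul_zero, norm_zero]

private theorem CoH3_Vv_cont (y : X d) : Continuous fun Y : X d => Vv y Y := by
  unfold Vv ga
  fun_prop

/-- the Gaussian bound for `Vv` -/
private theorem CoH3_Vv_le (y Y : X d) :
    ‖Vv y Y‖ ≤ (64 * (d + 10)) * ((1 + ‖Y - y‖) ^ 3 * ga 4 (Y - y)) := by
  unfold Vv
  rw [norm_smul, Real.norm_eq_abs, abs_mul, abs_mul, abs_of_pos (ga_pos 4 (Y - y)),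
    abs_of_pos (by norm_num : (0 : ℝ) < 64)]
  set r : ℝ := ‖Y - y‖ with hr
  have hr0 : 0 ≤ r := norm_nonneg _
  have hg := ga_pos (d := d) 4 (Y - y)
  have hd0 : (0 : ℝ) ≤ d := Nat.cast_nonneg d
  have h1 : |(d : ℝ) + 2 - 8 * r ^ 2| ≤ (d + 10) * (1 + r) ^ 2 := by
    rw [abs_le]
    constructor <;> nlinarith [mul_nonneg hd0 hr0, mul_nonneg hd0 (sq_nonneg r), sq_nonneg r]
  have h2 : r ≤ 1 + r := by linarith
  calc 64 * |(d : ℝ) + 2 - 8 * r ^ 2| * ga 4 (Y - y) * r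
      ≤ 64 * ((d + 10) * (1 + r) ^ 2) * ga 4 (Y - y) * (1 + r) := by gcongr
    _ = _ := by ring

private theorem CoH3_tri (y z Y : X d) : 1 + ‖Y - z‖ ≤ (1 + ‖Y - y‖) * (1 + ‖y - z‖) := by
  have h1 : ‖Y - z‖ ≤ ‖Y - y‖ + ‖y - z‖ := norm_sub_le_norm_sub_add_norm_sub Y y z
  nlinarith [norm_nonneg (Y - y), norm_nonneg (y - z)]

/-- the function `‖Vv y Y‖ ‖Y - z‖` -/
private theorem CoH3_VY_le (y z Y : X d) :
    ‖Vv y Y‖ * ‖Y - z‖ ≤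
      (64 * (d + 10) * (1 + ‖y - z‖)) * ((1 + ‖Y - y‖) ^ 4 * ga 4 (Y - y)) := by
  have h1 := CoH3_Vv_le y Y
  have h2 := CoH3_tri y z Y
  have h3 : ‖Y - z‖ ≤ (1 + ‖Y - y‖) * (1 + ‖y - z‖) := by linarith
  have hg := ga_pos (d := d) 4 (Y - y)
  calc ‖Vv y Y‖ * ‖Y - z‖ ≤ ((64 * (d + 10)) * ((1 + ‖Y - y‖) ^ 3 * ga 4 (Y - y))) *
        ((1 + ‖Y - y‖) * (1 + ‖y - z‖)) :=
        mul_le_mul h1 h3 (norm_nonneg _) (by positivity)
    _ = _ := by ring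

private theorem CoH3_VY_int (y z : X d) : Integrable fun Y : X d => ‖Vv y Y‖ * ‖Y - z‖ := by
  have h0 := ((ga_integrable (d := d) (b := 4) (by norm_num) 4).comp_sub_right y).const_mul
    (64 * ((d : ℝ) + 10) * (1 + ‖y - z‖))
  refine h0.mono' ?_ (Eventually.of_forall fun Y => ?_)
  · exact ((CoH3_Vv_cont y).norm.mul (by fun_prop)).aestronglyMeasurable
  · rw [Real.norm_eq_abs, abs_of_nonneg (by positivity)]
    exact CoH3_VY_le y z Y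

private theorem CoH3_VY_bdd (y z : X d) : ∃ M : ℝ, 0 ≤ M ∧ ∀ Y : X d, ‖Vv y Y‖ * ‖Y - z‖ ≤ M := by
  obtain ⟨C, hC, hb⟩ := poly_ga d 4 (show (0 : ℝ) < 4 by norm_num)
  refine ⟨64 * (d + 10) * (1 + ‖y - z‖) * C, by positivity, fun Y => ?_⟩
  refine (CoH3_VY_le y z Y).trans ?_
  refine mul_le_mul_of_nonneg_left ?_ (by positivity)
  have h1 := hb (Y - y)
  have h2 : ga (0 : ℝ) (Y - y) = 1 := by unfold ga; simp
  rw [h2] at h1
  linarith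

/-- the kernel, as a function of two variables -/
private noncomputable def CoH3_F (n : ℕ) (y z : X d) (x Y : X d) : ℝ :=
  ⟪Vv y Y, dK n 0 (Y - x) (Y - z)⟫

private theorem CoH3_dK_meas (n : ℕ) (z : X d) :
    Measurable fun q : X d × X d => dK n 0 (q.2 - q.1) (q.2 - z) := by
  unfold dK kr
  fun_prop

private theorem CoH3_F_le (n : ℕ) (y z x Y : X d) {M : ℝ}
    (hM : ∀ Y : X d, ‖Vv y Y‖ * ‖Y - z‖ ≤ M) :
    |CoH3_F n y z x Y| ≤ (n + 2) * (M * CoH3_r n (Y - x) + ‖Vv y Y‖ * ‖Y - z‖) := by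
  unfold CoH3_F
  have h1 := abs_real_inner_le_norm (Vv y Y) (dK n 0 (Y - x) (Y - z))
  have h2 := CoH3_dK_le n (Y - x) (Y - z)
  have h3 := CoH3_le_r n (Y - x)
  have h4 := CoH3_r_nonneg n (Y - x)
  have h5 := hM Y
  calc |⟪Vv y Y, dK n 0 (Y - x) (Y - z)⟫| ≤ ‖Vv y Y‖ * ‖dK n 0 (Y - x) (Y - z)‖ := h1
    _ ≤ ‖Vv y Y‖ * ((n + 2) * ((CoH3_r n (Y - x) + 1) * ‖Y - z‖)) := by
        refine mul_le_mul_of_nonneg_left (h2.trans ?_) (norm_nonneg _)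
        gcongr
    _ = (n + 2) * ((‖Vv y Y‖ * ‖Y - z‖) * CoH3_r n (Y - x) + ‖Vv y Y‖ * ‖Y - z‖) := by ring
    _ ≤ _ := by gcongr

private theorem CoH3_r_prod {n : ℕ} (hd : d = n + 3) (μ : Measure (X d)) [IsFiniteMeasure μ] :
    Integrable (fun q : X d × X d => CoH3_r n (q.2 - q.1)) (μ.prod volume) := by
  have hm : Measurable fun q : X d × X d => CoH3_r n (q.2 - q.1) :=
    (CoH3_r_meas n).comp (by fun_prop)
  rw [integrable_prod_iff hm.aestronglyMeasurable]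
  refine ⟨Eventually.of_forall fun x => (CoH3_r_int hd).comp_sub_right x, ?_⟩
  have h1 : ∀ x : X d, ∫ Y : X d, ‖CoH3_r n (Y - x)‖ = ∫ Y : X d, ‖CoH3_r n Y‖ := fun x =>
    integral_sub_right_eq_self (fun Y : X d => ‖CoH3_r n Y‖) x
  simp only [h1]
  exact integrable_const _

private theorem CoH3_F_int {n : ℕ} (hd : d = n + 3) (μ : Measure (X d)) [IsFiniteMeasure μ]
    (y z : X d) : Integrable (Function.uncurry fun x Y : X d => CoH3_F n y z x Y)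
      (μ.prod volume) := by
  obtain ⟨M, hM0, hM⟩ := CoH3_VY_bdd y z
  have h1 := (CoH3_r_prod hd μ).const_mul M
  have h2 : Integrable (fun q : X d × X d => ‖Vv y q.2‖ * ‖q.2 - z‖) (μ.prod volume) := by
    have h3 := (integrable_const (μ := μ) (1 : ℝ)).mul_prod (CoH3_VY_int y z)
    simpa using h3
  refine ((h1.add h2).const_mul ((n : ℝ) + 2)).mono' ?_ (Eventually.of_forall fun q => ?_)
  · refine Measurable.aestronglyMeasurable ?_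
    have h4 : Measurable fun q : X d × X d => Vv y q.2 :=
      ((CoH3_Vv_cont y).comp continuous_snd).measurable
    exact h4.inner (CoH3_dK_meas n z)
  · obtain ⟨x, Y⟩ := q
    exact CoH3_F_le n y z x Y hM

private theorem CoH3_Se_int {n : ℕ} (hd : d = n + 3) (μ : Measure (X d)) [IsFiniteMeasure μ]
    (z : X d) : ∀ᵐ Y : X d, Integrable (fun x => dK n 0 (Y - x) (Y - z)) μ := by
  have h1 := (CoH3_r_prod hd μ).prod_left_ae
  filter_upwards [h1] with Y hY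
  have hY' : Integrable (fun x => CoH3_r n (Y - x)) μ := hY
  refine (((hY'.add (integrable_const (1 : ℝ))).const_mul (‖Y - z‖)).const_mul
    ((n : ℝ) + 2)).mono' ?_ (Eventually.of_forall fun x => ?_)
  · exact ((CoH3_dK_meas n z).comp (measurable_prodMk_right (y := Y))).aestronglyMeasurable
  · refine (CoH3_dK_le n (Y - x) (Y - z)).trans ?_
    have h3 := CoH3_le_r n (Y - x)
    refine mul_le_mul_of_nonneg_left ?_ (by positivity)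
    rw [mul_comm]
    exact mul_le_mul_of_nonneg_left h3 (norm_nonneg _)

private theorem CoH3_Se_meas (n : ℕ) (μ : Measure (X d)) [IsFiniteMeasure μ] (z : X d) :
    StronglyMeasurable fun Y : X d => Se n 0 μ Y (Y - z) := by
  have h1 : Measurable fun q : X d × X d => dK n 0 (q.1 - q.2) (q.1 - z) := by
    unfold dK kr
    fun_prop
  exact (h1.stronglyMeasurable).integral_prod_right' (ν := μ)

/-- the representation of the defect -/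
private theorem CoH3_rep {n : ℕ} (hd : d = n + 3) {c : ℝ}
    (hc : ∀ x y z : X d, ∫ Y, ⟪Vv y Y, dK n 0 (Y - x) (Y - z)⟫ =
      -c * ((n - 8 * ⟪x - z, x - y⟫) * ga 4 (x - y)))
    (μ : Measure (X d)) [IsFiniteMeasure μ] (z y : X d) :
    -c * Jf n μ 4 z y = ∫ Y, ⟪Vv y Y, Se n 0 μ Y (Y - z)⟫ := by
  have hsw := integral_integral_swap (CoH3_F_int hd μ y z)
  have e1 : ∀ᵐ Y : X d, ∫ x, CoH3_F n y z x Y ∂μ = ⟪Vv y Y, Se n 0 μ Y (Y - z)⟫ := by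
    filter_upwards [CoH3_Se_int hd μ z] with Y hY
    exact integral_inner hY (Vv y Y)
  have e2 : ∀ x : X d, ∫ Y, CoH3_F n y z x Y =
      -c * ((n - 2 * 4 * ⟪x - z, x - y⟫) * ga 4 (x - y)) := by
    intro x
    unfold CoH3_F
    rw [hc x y z]
    ring
  rw [← integral_congr_ae e1, ← hsw, integral_congr_ae (Eventually.of_forall e2),
    integral_const_mul]
  rfl

/-- the square root of the weight -/
private noncomputable def CoH3_w (n : ℕ) (z : X d) (s : ℝ) (Y : X d) : ℝ :=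
  Real.sqrt (s * kr (n + 3) s (Y - z))

private theorem CoH3_kr_pos (n : ℕ) {s : ℝ} (hs : 0 < s) (Z : X d) : 0 < kr n s Z := by
  unfold kr
  have : 0 < Real.sqrt (‖Z‖ ^ 2 + s ^ 2) := Real.sqrt_pos.2 (by positivity)
  positivity

private theorem CoH3_w_pos (n : ℕ) (z : X d) {s : ℝ} (hs : 0 < s) (Y : X d) :
    0 < CoH3_w n z s Y := Real.sqrt_pos.2 (mul_pos hs (CoH3_kr_pos _ hs _))

private theorem CoH3_w_sq (n : ℕ) (z : X d) {s : ℝ} (hs : 0 < s) (Y : X d) :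
    CoH3_w n z s Y ^ 2 = s * kr (n + 3) s (Y - z) :=
  Real.sq_sqrt (mul_pos hs (CoH3_kr_pos _ hs _)).le

private theorem CoH3_w_meas (n : ℕ) (z : X d) (s : ℝ) : Measurable (CoH3_w n z s) := by
  unfold CoH3_w kr
  fun_prop

private theorem CoH3_winv (n : ℕ) (z : X d) {s : ℝ} (hs1 : 1 / 4 ≤ s) (hs2 : s ≤ 1 / 2) (Y : X d) :
    (CoH3_w n z s Y)⁻¹ ^ 2 ≤ 4 * (1 + ‖Y - z‖) ^ (n + 4) := by
  have hs0 : 0 < s := by linarith
  rw [inv_pow, CoH3_w_sq n z hs0 Y]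
  unfold kr
  rw [mul_inv, inv_pow, inv_inv]
  have h1 : s⁻¹ ≤ 4 := by
    rw [inv_le_comm₀ hs0 (by norm_num)]
    linarith
  have h2 : Real.sqrt (‖Y - z‖ ^ 2 + s ^ 2) ≤ 1 + ‖Y - z‖ := by
    rw [Real.sqrt_le_left (by positivity)]
    nlinarith [norm_nonneg (Y - z)]
  have h3 : n + 3 + 1 = n + 4 := rfl
  rw [h3]
  gcongr

private noncomputable def CoH3_I (d n : ℕ) : ℝ := ∫ w : X d, (1 + ‖w‖) ^ (n + 10) * ga 8 w

/-- the weighted norm of `Vv` -/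
private theorem CoH3_Vsq (n : ℕ) (y z : X d) {s : ℝ} (hs1 : 1 / 4 ≤ s) (hs2 : s ≤ 1 / 2) :
    ∫⁻ Y : X d, ‖(CoH3_w n z s Y)⁻¹ • Vv y Y‖ₑ ^ 2 ≤
      ENNReal.ofReal (4 * (64 * (d + 10)) ^ 2 * CoH3_I d n * (1 + ‖y - z‖) ^ (n + 4)) := by
  have hint := (ga_integrable (d := d) (b := 8) (by norm_num) (n + 10)).comp_sub_right y
  have h1 : ∀ Y : X d, ‖(CoH3_w n z s Y)⁻¹ • Vv y Y‖ₑ ^ 2 ≤
      ENNReal.ofReal (4 * (64 * (d + 10)) ^ 2 * (1 + ‖y - z‖) ^ (n + 4) *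
        ((1 + ‖Y - y‖) ^ (n + 10) * ga 8 (Y - y))) := by
    intro Y
    rw [← ofReal_norm, ← ENNReal.ofReal_pow (norm_nonneg _)]
    refine ENNReal.ofReal_le_ofReal ?_
    rw [norm_smul, mul_pow, Real.norm_eq_abs, sq_abs]
    have h2 := CoH3_winv n z hs1 hs2 Y
    have h3 := CoH3_Vv_le y Y
    have h4 := CoH3_tri y z Y
    have h5 : (1 + ‖Y - z‖) ^ (n + 4) ≤ (1 + ‖Y - y‖) ^ (n + 4) * (1 + ‖y - z‖) ^ (n + 4) := by
      rw [← mul_pow]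
      exact pow_le_pow_left₀ (by positivity) h4 _
    have hg := ga_pos (d := d) 4 (Y - y)
    have h6 : ga 4 (Y - y) ^ 2 = ga 8 (Y - y) := by
      rw [sq, ga_mul]; norm_num
    calc (CoH3_w n z s Y)⁻¹ ^ 2 * ‖Vv y Y‖ ^ 2
        ≤ (4 * ((1 + ‖Y - y‖) ^ (n + 4) * (1 + ‖y - z‖) ^ (n + 4))) *
          ((64 * (d + 10)) * ((1 + ‖Y - y‖) ^ 3 * ga 4 (Y - y))) ^ 2 := by
          gcongr
          exact h2.trans (by gcongr)
      _ = 4 * (64 * (d + 10)) ^ 2 * (1 + ‖y - z‖) ^ (n + 4) *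
          ((1 + ‖Y - y‖) ^ (n + 10) * ga 4 (Y - y) ^ 2) := by ring
      _ = _ := by rw [h6]
  refine (lintegral_mono h1).trans (le_of_eq ?_)
  rw [← ofReal_integral_eq_lintegral_ofReal (hint.const_mul _)
    (Eventually.of_forall fun Y => by have := ga_pos (d := d) 8 (Y - y); positivity),
    integral_const_mul]
  congr 1
  have h7 : ∫ Y : X d, (1 + ‖Y - y‖) ^ (n + 10) * ga 8 (Y - y) = CoH3_I d n :=
    integral_sub_right_eq_self (fun w : X d => (1 + ‖w‖) ^ (n + 10) * ga 8 w) y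
  rw [h7]
  ring

theorem J_le_Qc {n : ℕ} (hd : d = n + 3) : ∃ C : ℝ, 0 < C ∧ ∀ (μ : Measure (X d)),
    IsFiniteMeasure μ → ∀ z y : X d, ∀ s : ℝ, 1 / 4 ≤ s → s ≤ 1 / 2 →
      ENNReal.ofReal (Jf n μ 4 z y ^ 2) ≤
        ENNReal.ofReal (C * (1 + ‖y - z‖) ^ (2 * (n + 4))) * Qc n μ z s := by
  obtain ⟨c, hc0, hc⟩ := claim3 (d := d) hd
  have hI : 0 ≤ CoH3_I d n := by
    unfold CoH3_I
    refine integral_nonneg fun w => ?_
    have := ga_nonneg (d := d) 8 w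
    positivity
  refine ⟨(4 * (64 * (d + 10)) ^ 2 * CoH3_I d n + 1) * c⁻¹ ^ 2, by positivity, ?_⟩
  intro μ hfin z y s hs1 hs2
  have := hfin
  have hs0 : 0 < s := by linarith
  have hrep := CoH3_rep hd (fun x y z => (hc x y z).2) μ z y
  have hmV : Measurable fun Y : X d => (CoH3_w n z s Y)⁻¹ • Vv y Y :=
    (CoH3_w_meas n z s).inv.smul (CoH3_Vv_cont y).measurable
  have hmS : Measurable fun Y : X d => CoH3_w n z s Y • Se n 0 μ Y (Y - z) :=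
    (CoH3_w_meas n z s).smul (CoH3_Se_meas n μ z).measurable
  have h1 : ‖-c * Jf n μ 4 z y‖ₑ ≤
      (∫⁻ Y : X d, ‖(CoH3_w n z s Y)⁻¹ • Vv y Y‖ₑ ^ 2) ^ (1 / 2 : ℝ) *
      (∫⁻ Y : X d, ‖CoH3_w n z s Y • Se n 0 μ Y (Y - z)‖ₑ ^ 2) ^ (1 / 2 : ℝ) := by
    rw [hrep]
    have h2 : ∫⁻ Y : X d, ‖⟪Vv y Y, Se n 0 μ Y (Y - z)⟫‖ₑ ≤
        ∫⁻ Y : X d, ((fun Y : X d => ‖(CoH3_w n z s Y)⁻¹ • Vv y Y‖ₑ) *
          (fun Y : X d => ‖CoH3_w n z s Y • Se n 0 μ Y (Y - z)‖ₑ)) Y := by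
      refine lintegral_mono fun Y => ?_
      simp only [Pi.mul_apply]
      have hw := CoH3_w_pos n z hs0 Y
      have e : ⟪Vv y Y, Se n 0 μ Y (Y - z)⟫ =
          ⟪(CoH3_w n z s Y)⁻¹ • Vv y Y, CoH3_w n z s Y • Se n 0 μ Y (Y - z)⟫ := by
        rw [real_inner_smul_left, real_inner_smul_right, ← mul_assoc, inv_mul_cancel₀ hw.ne',
          one_mul]
      rw [e, ← ofReal_norm, ← ofReal_norm, ← ofReal_norm, ← ENNReal.ofReal_mul (norm_nonneg _)]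
      exact ENNReal.ofReal_le_ofReal (norm_inner_le_norm _ _)
    have h3 := ENNReal.lintegral_mul_le_Lp_mul_Lq (volume : Measure (X d))
      (Real.HolderConjugate.two_two) (f := fun Y : X d => ‖(CoH3_w n z s Y)⁻¹ • Vv y Y‖ₑ)
      (g := fun Y : X d => ‖CoH3_w n z s Y • Se n 0 μ Y (Y - z)‖ₑ)
      hmV.enorm.aemeasurable hmS.enorm.aemeasurable
    simp only [ENNReal.rpow_two] at h3
    exact (enorm_integral_le_lintegral_enorm _).trans (h2.trans h3)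
  have h5 : ‖-c * Jf n μ 4 z y‖ₑ ^ 2 ≤ (∫⁻ Y : X d, ‖(CoH3_w n z s Y)⁻¹ • Vv y Y‖ₑ ^ 2) *
      (∫⁻ Y : X d, ‖CoH3_w n z s Y • Se n 0 μ Y (Y - z)‖ₑ ^ 2) := by
    refine (pow_le_pow_left' h1 2).trans (le_of_eq ?_)
    rw [mul_pow, ← ENNReal.rpow_natCast, ← ENNReal.rpow_natCast, ← ENNReal.rpow_mul,
      ← ENNReal.rpow_mul]
    norm_num
  have h6 : ∫⁻ Y : X d, ‖CoH3_w n z s Y • Se n 0 μ Y (Y - z)‖ₑ ^ 2 = Qc n μ z s := by
    unfold Qc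
    refine lintegral_congr fun Y => ?_
    rw [enorm_smul, mul_pow]
    congr 1
    rw [← ofReal_norm, ← ENNReal.ofReal_pow (norm_nonneg _), Real.norm_eq_abs, sq_abs,
      CoH3_w_sq n z hs0 Y]
  have h4 : ENNReal.ofReal (Jf n μ 4 z y ^ 2) =
      ENNReal.ofReal (c⁻¹ ^ 2) * ‖-c * Jf n μ 4 z y‖ₑ ^ 2 := by
    rw [← ofReal_norm, ← ENNReal.ofReal_pow (norm_nonneg _), Real.norm_eq_abs, sq_abs,
      ← ENNReal.ofReal_mul (by positivity)]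
    congr 1
    field_simp
  rw [h4]
  rw [h6] at h5
  calc ENNReal.ofReal (c⁻¹ ^ 2) * ‖-c * Jf n μ 4 z y‖ₑ ^ 2
      ≤ ENNReal.ofReal (c⁻¹ ^ 2) *
        (ENNReal.ofReal (4 * (64 * (d + 10)) ^ 2 * CoH3_I d n * (1 + ‖y - z‖) ^ (n + 4)) *
          Qc n μ z s) :=
        mul_le_mul' le_rfl (h5.trans (mul_le_mul' (CoH3_Vsq n y z hs1 hs2) le_rfl))
    _ = ENNReal.ofReal (c⁻¹ ^ 2 *
        (4 * (64 * (d + 10)) ^ 2 * CoH3_I d n * (1 + ‖y - z‖) ^ (n + 4))) * Qc n μ z s := by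
        rw [← mul_assoc, ← ENNReal.ofReal_mul (by positivity)]
    _ ≤ _ := by
        refine mul_le_mul' (ENNReal.ofReal_le_ofReal ?_) le_rfl
        have h8 : (1 + ‖y - z‖) ^ (n + 4) ≤ (1 + ‖y - z‖) ^ (2 * (n + 4)) :=
          pow_le_pow_right₀ (by linarith [norm_nonneg (y - z)]) (by omega)
        have h9 : 4 * (64 * ((d : ℝ) + 10)) ^ 2 * CoH3_I d n ≤
            4 * (64 * ((d : ℝ) + 10)) ^ 2 * CoH3_I d n + 1 := by linarith
        calc c⁻¹ ^ 2 * (4 * (64 * (d + 10)) ^ 2 * CoH3_I d n * (1 + ‖y - z‖) ^ (n + 4))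
            ≤ c⁻¹ ^ 2 * ((4 * (64 * (d + 10)) ^ 2 * CoH3_I d n + 1) *
              (1 + ‖y - z‖) ^ (2 * (n + 4))) := by gcongr
          _ = _ := by ring

end Pool.Agent.H1.LD
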