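import Pool.Agent.H1.LD.CoD0

/-!
hess_identity (pure calculus on R^d, d = n + 3, sums over repeated indices).  Integration by parts: Mathlib integral_mul_fderiv_eq_neg_fderiv_mul_of_integrable (for f g differentiable with f*g, f'*g, f*g' integrable).
All products below are O((1+|X|)^{-(3n+2)}) or better, integrable since 3n+2 > n+3 - 0 (3n+2 ≥ n+4 for n ≥ 1; Mathlib: integrable_one_add_norm, finrank = n+3).
(I1) ∫ |F|² Q = -∫ ∂_k|F|² V_k = ∫ (∂_k∂_k |F|²) T [first: f=|F|², g=V_k; second: f = 2 F_i S_ik, g = T, ∂_k T = V_k; ∂_k(F_i S_ik) = |S|² + F_i R_ikk and R_ikk = R_kki = V_i]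
     = 2∫|S|²T + 2∫ T F·V = 2∫|S|²T - ∫T³   (∫ T F_i V_i = (1/2)∫F_i ∂_i(T²) = -(1/2)∫T³).
(I2) ∫ S_ij S_jk S_ki = -∫F_j ∂_i(S_jk S_ki) = -∫F_j R_jki S_ki - ∫F_j S_jk V_k;  F_j R_jki S_ki = (1/2)F_j ∂_j|S|² (symmetry), so the first is +(1/2)∫T|S|²; the second = +∫T ∂_k(F_j S_jk) = ∫T|S|² + ∫T F·V = ∫T|S|² - (1/2)∫T³.
 So ∫ tr S³ = (3/2)∫T|S|² - (1/2)∫T³.
Hence ∫ ((1/2)T|S|² - tr S³) = -∫T|S|² + (1/2)∫T³ = -(1/2)∫|F|²Q.
-/

set_option autoImplicit false

open MeasureTheory Filter Topology Metric Set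
open scoped RealInnerProductSpace ENNReal

namespace Pool.Agent.H1.LD

open Pool.Agent.RZ

variable {d : ℕ}

/-- data of a gradient field with decay on `ℝ^d`: `S` and `R` are its first and second
derivatives, `T` the trace of `S`, `V` the gradient of `T`, `Q` the Laplacian of `T` -/
structure Hes (n : ℕ) (F : Fin d → X d → ℝ) (S : Fin d → Fin d → X d → ℝ)
    (R : Fin d → Fin d → Fin d → X d → ℝ) (T : X d → ℝ) (V : Fin d → X d → ℝ) (Q : X d → ℝ) :
    Prop where
  dF : ∀ i, Differentiable ℝ (F i)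
  dS : ∀ i j, Differentiable ℝ (S i j)
  dV : ∀ k, Differentiable ℝ (V k)
  cR : ∀ i j k, Continuous (R i j k)
  cQ : Continuous Q
  eF : ∀ i j x, fderiv ℝ (F i) x (EuclideanSpace.single j 1) = S i j x
  eS : ∀ i j k x, fderiv ℝ (S i j) x (EuclideanSpace.single k 1) = R i j k x
  eQ : ∀ x, ∑ k, fderiv ℝ (V k) x (EuclideanSpace.single k 1) = Q x
  eT : ∀ x, T x = ∑ i, S i i x
  eV : ∀ k x, V k x = ∑ i, R i i k x
  sS : ∀ i j x, S i j x = S j i x
  sR : ∀ i j k x, R i j k x = R i k j x
  bd : ∃ C : ℝ, ∀ x, (∀ i, |F i x| ≤ C * (1 + ‖x‖)⁻¹ ^ n) ∧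
    (∀ i j, |S i j x| ≤ C * (1 + ‖x‖)⁻¹ ^ (n + 1)) ∧
    (∀ i j k, |R i j k x| ≤ C * (1 + ‖x‖)⁻¹ ^ (n + 2)) ∧
    (∀ k l, |fderiv ℝ (V k) x (EuclideanSpace.single l 1)| ≤ C * (1 + ‖x‖)⁻¹ ^ (n + 3))

/-- measurable and `O ((1 + |x|) ^ (-p))` -/
private def CoIDec (p : ℕ) (f : X d → ℝ) : Prop :=
  Measurable f ∧ ∃ C : ℝ, ∀ x, |f x| ≤ C * (1 + ‖x‖)⁻¹ ^ p

private theorem CoI_le_one (x : X d) : (1 + ‖x‖)⁻¹ ≤ 1 := by
  have := norm_nonneg x
  exact inv_le_one_of_one_le₀ (by linarith)

private theorem CoIDec.mul {p q : ℕ} {f g : X d → ℝ} (hf : CoIDec p f) (hg : CoIDec q g) :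
    CoIDec (p + q) (fun x => f x * g x) := by
  obtain ⟨cf, C, hC⟩ := hf
  obtain ⟨cg, D, hD⟩ := hg
  refine ⟨cf.mul cg, C * D, fun x => ?_⟩
  rw [abs_mul, pow_add]
  have h1 := hC x
  have h2 := hD x
  calc |f x| * |g x| ≤ (C * (1 + ‖x‖)⁻¹ ^ p) * (D * (1 + ‖x‖)⁻¹ ^ q) :=
        mul_le_mul h1 h2 (abs_nonneg _) ((abs_nonneg _).trans h1)
    _ = _ := by ring

private theorem CoIDec.add {p : ℕ} {f g : X d → ℝ} (hf : CoIDec p f) (hg : CoIDec p g) :
    CoIDec p (fun x => f x + g x) := by
  obtain ⟨cf, C, hC⟩ := hf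
  obtain ⟨cg, D, hD⟩ := hg
  refine ⟨cf.add cg, C + D, fun x => (abs_add_le _ _).trans ?_⟩
  rw [add_mul]
  exact add_le_add (hC x) (hD x)

private theorem CoIDec.zero {p : ℕ} : CoIDec p (fun _ : X d => (0 : ℝ)) :=
  ⟨measurable_const, 0, fun x => by simp⟩

private theorem CoIDec.sum {p : ℕ} {ι : Type} (s : Finset ι) {f : ι → X d → ℝ}
    (hf : ∀ i, CoIDec p (f i)) : CoIDec p (fun x => ∑ i ∈ s, f i x) := by
  classical
  induction s using Finset.induction_on with
  | empty => simpa using CoIDec.zero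
  | insert a s ha ih =>
    simp only [Finset.sum_insert ha]
    exact (hf a).add ih

private theorem CoIDec.integrable {p : ℕ} (hp : d < p) {f : X d → ℝ} (hf : CoIDec p f) :
    Integrable f := by
  obtain ⟨cf, C, hC⟩ := hf
  have h1 : Integrable (fun x : X d => (1 + ‖x‖) ^ (-(p : ℝ))) := by
    refine integrable_one_add_norm ?_
    rw [finrank_euclideanSpace_fin]
    exact_mod_cast hp
  refine (h1.const_mul C).mono' cf.aestronglyMeasurable (Eventually.of_forall fun x => ?_)
  rw [Real.norm_eq_abs, Real.rpow_neg (by positivity), Real.rpow_natCast, ← inv_pow]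
  exact hC x

/-- `f` is differentiable with the derivative `f'` in the direction `k`, with decay -/
private structure CoIP (p : ℕ) (k : Fin d) (f f' : X d → ℝ) : Prop where
  df : Differentiable ℝ f
  ef : ∀ x, fderiv ℝ f x (EuclideanSpace.single k 1) = f' x
  b : CoIDec p f
  b' : CoIDec (p + 1) f'

private theorem CoIP.mul {p q : ℕ} {k : Fin d} {f f' g g' : X d → ℝ} (hf : CoIP p k f f')
    (hg : CoIP q k g g') :
    CoIP (p + q) k (fun x => f x * g x) (fun x => f' x * g x + f x * g' x) where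
  df := hf.df.mul hg.df
  ef x := by
    rw [fderiv_fun_mul (hf.df x) (hg.df x)]
    simp only [add_apply, smul_apply, smul_eq_mul, hf.ef, hg.ef]
    ring
  b := hf.b.mul hg.b
  b' := by
    have h1 := hf.b'.mul hg.b
    have h2 := hf.b.mul hg.b'
    rw [show p + 1 + q = p + q + 1 by ring] at h1
    rw [show p + (q + 1) = p + q + 1 by ring] at h2
    exact h1.add h2

private theorem CoIP.sum {p : ℕ} {k : Fin d} {ι : Type} (s : Finset ι) {f f' : ι → X d → ℝ}
    (h : ∀ i, CoIP p k (f i) (f' i)) :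
    CoIP p k (fun x => ∑ i ∈ s, f i x) (fun x => ∑ i ∈ s, f' i x) where
  df := Differentiable.fun_sum fun i _ => (h i).df
  ef x := by
    rw [fderiv_fun_sum fun i _ => (h i).df x]
    simp only [sum_apply, (h _).ef]
  b := CoIDec.sum s fun i => (h i).b
  b' := CoIDec.sum s fun i => (h i).b'

private theorem CoIP.ibp {p q : ℕ} (hpq : d < p + q) {k : Fin d} {f f' g g' : X d → ℝ}
    (hf : CoIP p k f f') (hg : CoIP q k g g') :
    ∫ x, f x * g' x = -∫ x, f' x * g x := by
  have i1 : Integrable (fun x => f' x * g x) := by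
    have := hf.b'.mul hg.b
    exact this.integrable (by omega)
  have i2 : Integrable (fun x => f x * g' x) := by
    have := hf.b.mul hg.b'
    exact this.integrable (by omega)
  have i3 : Integrable (fun x => f x * g x) := (hf.b.mul hg.b).integrable hpq
  have h := integral_mul_fderiv_eq_neg_fderiv_mul_of_integrable (μ := volume) (f := f) (g := g)
    (v := EuclideanSpace.single k 1) (by simpa only [hf.ef] using i1)
    (by simpa only [hg.ef] using i2) i3 (fun x _ => hf.df x) (fun x _ => hg.df x)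
  simp only [hf.ef, hg.ef] at h
  exact h

section

variable {n : ℕ} {F : Fin d → X d → ℝ}
  {S : Fin d → Fin d → X d → ℝ} {R : Fin d → Fin d → Fin d → X d → ℝ} {T : X d → ℝ}
  {V : Fin d → X d → ℝ} {Q : X d → ℝ}

private theorem CoI_F (h : Hes n F S R T V Q) (i j : Fin d) : CoIP n j (F i) (S i j) := by
  obtain ⟨C, hC⟩ := h.bd
  exact ⟨h.dF i, h.eF i j, ⟨(h.dF i).continuous.measurable, C, fun x => (hC x).1 i⟩,
    ⟨(h.dS i j).continuous.measurable, C, fun x => (hC x).2.1 i j⟩⟩

private theorem CoI_S (h : Hes n F S R T V Q) (i j k : Fin d) :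
    CoIP (n + 1) k (S i j) (R i j k) := by
  obtain ⟨C, hC⟩ := h.bd
  exact ⟨h.dS i j, h.eS i j k, ⟨(h.dS i j).continuous.measurable, C, fun x => (hC x).2.1 i j⟩,
    ⟨(h.cR i j k).measurable, C, fun x => (hC x).2.2.1 i j k⟩⟩

private theorem CoI_V (h : Hes n F S R T V Q) (k l : Fin d) :
    CoIP (n + 2) l (V k) (fun x => fderiv ℝ (V k) x (EuclideanSpace.single l 1)) := by
  obtain ⟨C, hC⟩ := h.bd
  refine ⟨h.dV k, fun x => rfl, ?_,
    ⟨measurable_fderiv_apply_const ℝ (V k) _, C, fun x => (hC x).2.2.2 k l⟩⟩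
  have h1 : CoIDec (n + 2) (fun x => ∑ i, R i i k x) :=
    CoIDec.sum _ fun i => (CoI_S h i i k).b'
  have h2 : (fun x => ∑ i, R i i k x) = V k := funext fun x => (h.eV k x).symm
  rwa [h2] at h1

private theorem CoI_R (h : Hes n F S R T V Q) (i j k : Fin d) (x : X d) :
    R i j k x = R j i k x := by
  rw [← h.eS i j k x, ← h.eS j i k x]
  have : S i j = S j i := funext fun x => h.sS i j x
  rw [this]

private theorem CoI_R3 (h : Hes n F S R T V Q) (i j k : Fin d) (x : X d) :
    R j k i x = R i k j x := by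
  rw [h.sR j k i, CoI_R h j i k, h.sR i j k]

/-- first integration by parts -/
private theorem CoI_d (hn : 1 ≤ n) (hd : d = n + 3) (h : Hes n F S R T V Q) :
    ∫ x, (∑ i, F i x ^ 2) * Q x = -(2 * ∫ x, ∑ k, ∑ i, F i x * S i k x * V k x) := by
  have h1 : ∀ k, ∫ x, (∑ i, F i x * F i x) * fderiv ℝ (V k) x (EuclideanSpace.single k 1) =
      -∫ x, (∑ i, (S i k x * F i x + F i x * S i k x)) * V k x := fun k =>
    CoIP.ibp (p := n + n) (q := n + 2) (by omega)
      (CoIP.sum _ fun i => (CoI_F h i k).mul (CoI_F h i k)) (CoI_V h k k)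
  have i1 : ∀ k, Integrable fun x =>
      (∑ i, F i x * F i x) * fderiv ℝ (V k) x (EuclideanSpace.single k 1) := fun k =>
    ((CoIDec.sum Finset.univ fun i => ((CoI_F h i k).b.mul (CoI_F h i k).b)).mul
      (CoI_V h k k).b').integrable (by omega)
  have i2 : ∀ k, Integrable fun x => (∑ i, (S i k x * F i x + F i x * S i k x)) * V k x := by
    intro k
    have a : CoIDec (n + n + 1) fun x => ∑ i, (S i k x * F i x + F i x * S i k x) :=
      (CoIP.sum Finset.univ fun i => (CoI_F h i k).mul (CoI_F h i k)).b'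
    exact (a.mul (CoI_V h k k).b).integrable (by omega)
  calc ∫ x, (∑ i, F i x ^ 2) * Q x
      = ∫ x, ∑ k, (∑ i, F i x * F i x) * fderiv ℝ (V k) x (EuclideanSpace.single k 1) := by
        refine integral_congr_ae (Eventually.of_forall fun x => ?_)
        simp only [← h.eQ x, Finset.mul_sum, pow_two]
    _ = ∑ k, ∫ x, (∑ i, F i x * F i x) * fderiv ℝ (V k) x (EuclideanSpace.single k 1) :=
        integral_finsetSum _ fun k _ => i1 k
    _ = ∑ k, -∫ x, (∑ i, (S i k x * F i x + F i x * S i k x)) * V k x :=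
        Finset.sum_congr rfl fun k _ => h1 k
    _ = -∫ x, ∑ k, (∑ i, (S i k x * F i x + F i x * S i k x)) * V k x := by
        rw [Finset.sum_neg_distrib, integral_finsetSum _ fun k _ => i2 k]
    _ = -(2 * ∫ x, ∑ k, ∑ i, F i x * S i k x * V k x) := by
        rw [← integral_const_mul]
        congr 1
        refine integral_congr_ae (Eventually.of_forall fun x => ?_)
        simp only [Finset.mul_sum, Finset.sum_mul]
        refine Finset.sum_congr rfl fun k _ => Finset.sum_congr rfl fun i _ => ?_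
        ring

/-- second integration by parts -/
private theorem CoI_b (hn : 1 ≤ n) (hd : d = n + 3) (h : Hes n F S R T V Q) :
    2 * ∫ x, ∑ j, F j x * ∑ i, ∑ k, S i k x * R i k j x =
      -∫ x, T x * ∑ i, ∑ k, S i k x * S i k x := by
  have g1 : ∀ j, CoIP (n + 1 + (n + 1)) j (fun x => ∑ i, ∑ k, S i k x * S i k x)
      (fun x => ∑ i, ∑ k, (R i k j x * S i k x + S i k x * R i k j x)) := fun j =>
    CoIP.sum _ fun i => CoIP.sum _ fun k => (CoI_S h i k j).mul (CoI_S h i k j)
  have h1 : ∀ j, ∫ x, F j x * (∑ i, ∑ k, (R i k j x * S i k x + S i k x * R i k j x)) =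
      -∫ x, S j j x * (∑ i, ∑ k, S i k x * S i k x) := fun j =>
    CoIP.ibp (p := n) (by omega) (CoI_F h j j) (g1 j)
  have i1 : ∀ j, Integrable fun x =>
      F j x * (∑ i, ∑ k, (R i k j x * S i k x + S i k x * R i k j x)) := fun j =>
    ((CoI_F h j j).b.mul (g1 j).b').integrable (by omega)
  have i2 : ∀ j, Integrable fun x => S j j x * (∑ i, ∑ k, S i k x * S i k x) := fun j =>
    ((CoI_F h j j).b'.mul (g1 j).b).integrable (by omega)
  calc 2 * ∫ x, ∑ j, F j x * ∑ i, ∑ k, S i k x * R i k j x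
      = ∫ x, ∑ j, F j x * (∑ i, ∑ k, (R i k j x * S i k x + S i k x * R i k j x)) := by
        rw [← integral_const_mul]
        refine integral_congr_ae (Eventually.of_forall fun x => ?_)
        simp only [Finset.mul_sum]
        refine Finset.sum_congr rfl fun j _ => Finset.sum_congr rfl fun i _ =>
          Finset.sum_congr rfl fun k _ => ?_
        ring
    _ = ∑ j, ∫ x, F j x * (∑ i, ∑ k, (R i k j x * S i k x + S i k x * R i k j x)) :=
        integral_finsetSum _ fun j _ => i1 j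
    _ = ∑ j, -∫ x, S j j x * (∑ i, ∑ k, S i k x * S i k x) :=
        Finset.sum_congr rfl fun j _ => h1 j
    _ = -∫ x, ∑ j, S j j x * (∑ i, ∑ k, S i k x * S i k x) := by
        rw [Finset.sum_neg_distrib, integral_finsetSum _ fun j _ => i2 j]
    _ = -∫ x, T x * ∑ i, ∑ k, S i k x * S i k x := by
        congr 1
        refine integral_congr_ae (Eventually.of_forall fun x => ?_)
        simp only [h.eT x, Finset.sum_mul]

/-- third integration by parts -/
private theorem CoI_e (hn : 1 ≤ n) (hd : d = n + 3) (h : Hes n F S R T V Q) :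
    ∫ x, ∑ i, ∑ j, ∑ k, S i j x * S j k x * S k i x =
      -((∫ x, ∑ j, F j x * ∑ i, ∑ k, S i k x * R i k j x) +
        ∫ x, ∑ k, ∑ i, F i x * S i k x * V k x) := by
  have h1 : ∀ i j k, ∫ x, F j x * (R j k i x * S k i x + S j k x * R k i i x) =
      -∫ x, S j i x * (S j k x * S k i x) := fun i j k =>
    CoIP.ibp (p := n) (by omega) (CoI_F h j i) ((CoI_S h j k i).mul (CoI_S h k i i))
  have i1 : ∀ i j k, Integrable fun x =>
      F j x * (R j k i x * S k i x + S j k x * R k i i x) := fun i j k =>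
    ((CoI_F h j i).b.mul ((CoI_S h j k i).mul (CoI_S h k i i)).b').integrable (by omega)
  have i2 : ∀ i j k, Integrable fun x => S j i x * (S j k x * S k i x) := fun i j k =>
    ((CoI_F h j i).b'.mul ((CoI_S h j k i).mul (CoI_S h k i i)).b).integrable (by omega)
  have i3 : Integrable fun x => ∑ j, F j x * ∑ i, ∑ k, S i k x * R i k j x := by
    have a : CoIDec (n + (n + 1 + (n + 2))) fun x =>
        ∑ j, F j x * ∑ i, ∑ k, S i k x * R i k j x :=
      CoIDec.sum _ fun j => (CoI_F h j j).b.mul (CoIDec.sum _ fun i => CoIDec.sum _ fun k =>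
        (CoI_S h i k j).b.mul (CoI_S h i k j).b')
    exact a.integrable (by omega)
  have i4 : Integrable fun x => ∑ k, ∑ i, F i x * S i k x * V k x := by
    have a : CoIDec (n + (n + 1) + (n + 2)) fun x => ∑ k, ∑ i, F i x * S i k x * V k x :=
      CoIDec.sum _ fun k => CoIDec.sum _ fun i =>
        ((CoI_F h i k).b.mul (CoI_F h i k).b').mul (CoI_V h k k).b
    exact a.integrable (by omega)
  calc ∫ x, ∑ i, ∑ j, ∑ k, S i j x * S j k x * S k i x
      = ∫ x, ∑ i, ∑ j, ∑ k, S j i x * (S j k x * S k i x) := by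
        refine integral_congr_ae (Eventually.of_forall fun x => ?_)
        refine Finset.sum_congr rfl fun i _ => Finset.sum_congr rfl fun j _ =>
          Finset.sum_congr rfl fun k _ => ?_
        rw [h.sS i j, mul_assoc]
    _ = ∑ i, ∑ j, ∑ k, ∫ x, S j i x * (S j k x * S k i x) := by
        rw [integral_finsetSum _ fun i _ => integrable_finsetSum _ fun j _ =>
          integrable_finsetSum _ fun k _ => i2 i j k]
        refine Finset.sum_congr rfl fun i _ => ?_
        rw [integral_finsetSum _ fun j _ => integrable_finsetSum _ fun k _ => i2 i j k]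
        refine Finset.sum_congr rfl fun j _ => ?_
        rw [integral_finsetSum _ fun k _ => i2 i j k]
    _ = ∑ i, ∑ j, ∑ k, -∫ x, F j x * (R j k i x * S k i x + S j k x * R k i i x) := by
        refine Finset.sum_congr rfl fun i _ => Finset.sum_congr rfl fun j _ =>
          Finset.sum_congr rfl fun k _ => ?_
        rw [h1, neg_neg]
    _ = -∫ x, ∑ i, ∑ j, ∑ k, F j x * (R j k i x * S k i x + S j k x * R k i i x) := by
        simp only [Finset.sum_neg_distrib]
        congr 1
        rw [integral_finsetSum _ fun i _ => integrable_finsetSum _ fun j _ =>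
          integrable_finsetSum _ fun k _ => i1 i j k]
        refine Finset.sum_congr rfl fun i _ => ?_
        rw [integral_finsetSum _ fun j _ => integrable_finsetSum _ fun k _ => i1 i j k]
        refine Finset.sum_congr rfl fun j _ => ?_
        rw [integral_finsetSum _ fun k _ => i1 i j k]
    _ = _ := by
        rw [← integral_add i3 i4]
        congr 1
        refine integral_congr_ae (Eventually.of_forall fun x => ?_)
        have e1 : ∑ i, ∑ j, ∑ k, F j x * (R j k i x * S k i x + S j k x * R k i i x) =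
            (∑ i, ∑ j, ∑ k, F j x * (S i k x * R i k j x)) +
              ∑ i, ∑ j, ∑ k, F j x * S j k x * R i i k x := by
          simp only [← Finset.sum_add_distrib]
          refine Finset.sum_congr rfl fun i _ => Finset.sum_congr rfl fun j _ =>
            Finset.sum_congr rfl fun k _ => ?_
          rw [CoI_R3 h i j k, h.sS k i, CoI_R h k i i, h.sR i k i]
          ring
        have e2 : ∑ i, ∑ j, ∑ k, F j x * (S i k x * R i k j x) =
            ∑ j, F j x * ∑ i, ∑ k, S i k x * R i k j x := by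
          rw [Finset.sum_comm]
          simp only [Finset.mul_sum]
        have e3 : ∑ i, ∑ j, ∑ k, F j x * S j k x * R i i k x =
            ∑ k, ∑ i, F i x * S i k x * V k x := by
          rw [Finset.sum_comm (s := (Finset.univ : Finset (Fin d)))
            (f := fun k i => F i x * S i k x * V k x)]
          rw [Finset.sum_comm]
          refine Finset.sum_congr rfl fun j _ => ?_
          rw [Finset.sum_comm]
          refine Finset.sum_congr rfl fun k _ => ?_
          rw [h.eV k x, Finset.mul_sum]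
        show ∑ i, ∑ j, ∑ k, F j x * (R j k i x * S k i x + S j k x * R k i i x) =
          (∑ j, F j x * ∑ i, ∑ k, S i k x * R i k j x) + ∑ k, ∑ i, F i x * S i k x * V k x
        rw [e1, e2, e3]

end

theorem hess_identity {n : ℕ} (hn : 1 ≤ n) (hd : d = n + 3) {F : Fin d → X d → ℝ}
    {S : Fin d → Fin d → X d → ℝ} {R : Fin d → Fin d → Fin d → X d → ℝ} {T : X d → ℝ}
    {V : Fin d → X d → ℝ} {Q : X d → ℝ} (h : Hes n F S R T V Q) :
    Integrable (fun x => T x * ∑ i, ∑ j, S i j x ^ 2 / 2 -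
      ∑ i, ∑ j, ∑ k, S i j x * S j k x * S k i x) ∧
    Integrable (fun x => (∑ i, F i x ^ 2) * Q x) ∧
    ∫ x, (T x * ∑ i, ∑ j, S i j x ^ 2 / 2 - ∑ i, ∑ j, ∑ k, S i j x * S j k x * S k i x) =
      -(1 / 2) * ∫ x, (∑ i, F i x ^ 2) * Q x := by
  have iT : CoIDec (n + 1) T := by
    have h1 : CoIDec (n + 1) (fun x => ∑ i, S i i x) :=
      CoIDec.sum _ fun i => (CoI_F h i i).b'
    have h2 : (fun x => ∑ i, S i i x) = T := funext fun x => (h.eT x).symm
    rwa [h2] at h1
  have iG : CoIDec (n + 1 + (n + 1)) (fun x => ∑ i, ∑ k, S i k x * S i k x) :=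
    CoIDec.sum _ fun i => CoIDec.sum _ fun k => (CoI_F h i k).b'.mul (CoI_F h i k).b'
  have i1 : Integrable fun x => T x * ∑ i, ∑ k, S i k x * S i k x :=
    (iT.mul iG).integrable (by omega)
  have i2 : Integrable fun x => ∑ i, ∑ j, ∑ k, S i j x * S j k x * S k i x := by
    have a : CoIDec (n + 1 + (n + 1) + (n + 1)) fun x =>
        ∑ i, ∑ j, ∑ k, S i j x * S j k x * S k i x :=
      CoIDec.sum _ fun i => CoIDec.sum _ fun j => CoIDec.sum _ fun k =>
        ((CoI_F h i j).b'.mul (CoI_F h j k).b').mul (CoI_F h k i).b'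
    exact a.integrable (by omega)
  have e1 : (fun x => T x * ∑ i, ∑ j, S i j x ^ 2 / 2) =
      fun x => (1 / 2) * (T x * ∑ i, ∑ k, S i k x * S i k x) := by
    funext x
    simp only [Finset.mul_sum]
    refine Finset.sum_congr rfl fun i _ => Finset.sum_congr rfl fun k _ => ?_
    ring
  have i3 : Integrable fun x => T x * ∑ i, ∑ j, S i j x ^ 2 / 2 := by
    rw [e1]
    exact i1.const_mul _
  refine ⟨i3.sub i2, ?_, ?_⟩
  · have a : CoIDec (n + n + (n + 3)) fun x => (∑ i, F i x * F i x) *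
        ∑ k, fderiv ℝ (V k) x (EuclideanSpace.single k 1) :=
      (CoIDec.sum _ fun i => (CoI_F h i i).b.mul (CoI_F h i i).b).mul
        (CoIDec.sum _ fun k => (CoI_V h k k).b')
    have e2 : (fun x => (∑ i, F i x ^ 2) * Q x) = fun x => (∑ i, F i x * F i x) *
        ∑ k, fderiv ℝ (V k) x (EuclideanSpace.single k 1) := by
      funext x
      simp only [← h.eQ x, pow_two]
    rw [e2]
    exact a.integrable (by omega)
  · rw [integral_sub i3 i2, CoI_d hn hd h, CoI_e hn hd h, e1, integral_const_mul]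
    have hb := CoI_b hn hd h
    linarith

end Pool.Agent.H1.LD
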