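import Pool.Agent.H1.LD.CoF

/-!
Qc_int: ∫⁻_{t>0} t kr(n+3) t Z t⁻¹ dt = ∫ (‖Z‖²+t²)^{-(n+4)/2} dt = c ‖Z‖^{-(n+3)} for Z ≠ 0 (t = ‖Z‖ s, c = ∫_0^∞ (1+s²)^{-(n+4)/2} ds < ∞), kr(n+2) 0 Z = ‖Z‖⁻¹^(n+3); Tonelli.
Qc_scale: Se n 0 (blow n 0 t μ) (t⁻¹•Y) v = t • Se n 0 μ Y v (dK is homogeneous of degree -(n+1)), s kr(n+3) s (t⁻¹•Z) = t^{n+3} (ts) kr(n+3)(ts) Z, dY scales by t^{d}, d = n+3; Se linear in v.
Qc_measurable: joint measurability, as usual.
-/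

set_option autoImplicit false

open MeasureTheory Filter Topology Metric Set
open scoped RealInnerProductSpace ENNReal

namespace Pool.Agent.H1.LD

open Pool.Agent.RZ

variable {d : ℕ}

/-! Measurability -/

private theorem CoQ_kr {α : Type*} [MeasurableSpace α] (n : ℕ) {e : α → ℝ} {Z : α → X d}
    (he : Measurable e) (hZ : Measurable Z) : Measurable fun a => kr n (e a) (Z a) := by
  unfold kr
  exact ((((hZ.norm.pow_const 2).add (he.pow_const 2)).sqrt).inv).pow_const (n + 1)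

private theorem CoQ_dK {α : Type*} [MeasurableSpace α] (n : ℕ) {Z v : α → X d}
    (hZ : Measurable Z) (hv : Measurable v) : Measurable fun a => dK n 0 (Z a) (v a) := by
  unfold dK
  have h0 : Measurable fun _ : α => (0 : ℝ) := measurable_const
  have h1 : Measurable fun a => kr n 0 (Z a) • v a := (CoQ_kr n h0 hZ).smul hv
  have h2 : Measurable fun a => ((n + 1 : ℝ) * (kr (n + 2) 0 (Z a) * ⟪Z a, v a⟫)) :=
    ((CoQ_kr (n + 2) h0 hZ).mul (hZ.inner hv)).const_mul _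
  exact h1.sub (h2.smul hZ)

private theorem CoQ_Se {α : Type*} [MeasurableSpace α] (n : ℕ) (μ : Measure (X d))
    [IsFiniteMeasure μ] {Y v : α → X d} (hY : Measurable Y) (hv : Measurable v) :
    Measurable fun a => Se n 0 μ (Y a) (v a) := by
  unfold Se
  have h : Measurable fun q : α × X d => dK n 0 (Y q.1 - q.2) (v q.1) :=
    CoQ_dK n ((hY.comp measurable_fst).sub measurable_snd) (hv.comp measurable_fst)
  exact (h.stronglyMeasurable.integral_prod_right').measurable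

private theorem CoQ_integrand {α : Type*} [MeasurableSpace α] (n : ℕ) (μ : Measure (X d))
    [IsFiniteMeasure μ] {z Y : α → X d} {t : α → ℝ} (hz : Measurable z) (hY : Measurable Y)
    (ht : Measurable t) : Measurable fun a =>
      ENNReal.ofReal (t a * kr (n + 3) (t a) (Y a - z a)) * ‖Se n 0 μ (Y a) (Y a - z a)‖ₑ ^ 2 := by
  have h1 : Measurable fun a => ENNReal.ofReal (t a * kr (n + 3) (t a) (Y a - z a)) :=
    ENNReal.measurable_ofReal.comp (ht.mul (CoQ_kr (n + 3) ht (hY.sub hz)))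
  have h2 : Measurable fun a => ‖Se n 0 μ (Y a) (Y a - z a)‖ₑ ^ 2 :=
    ((CoQ_Se n μ hY (hY.sub hz)).enorm).pow_const 2
  exact h1.mul h2

/-! The time integral -/

private theorem CoQ_tail (n : ℕ) {a : ℝ} (ha : 0 < a) :
    ∫⁻ t in Ioi a, ENNReal.ofReal (t⁻¹ ^ (n + 4)) ≤ ENNReal.ofReal (a⁻¹ ^ (n + 3)) := by
  have h1 : (-((n : ℝ) + 4)) < -1 := by
    have : (0 : ℝ) ≤ n := Nat.cast_nonneg n
    linarith
  have hint := integrableOn_Ioi_rpow_of_lt h1 ha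
  have heq : ∀ t ∈ Ioi a, ENNReal.ofReal (t⁻¹ ^ (n + 4)) = ENNReal.ofReal (t ^ (-((n : ℝ) + 4))) := by
    intro t ht
    have ht0 : 0 < t := ha.trans ht
    congr 1
    rw [Real.rpow_neg ht0.le, inv_pow]
    congr 1
    have : ((n : ℝ) + 4) = ((n + 4 : ℕ) : ℝ) := by push_cast; ring
    rw [this, Real.rpow_natCast]
  rw [setLIntegral_congr_fun measurableSet_Ioi heq,
    ← ofReal_integral_eq_lintegral_ofReal hint
      ((ae_restrict_iff' measurableSet_Ioi).2 (Eventually.of_forall fun t ht =>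
        Real.rpow_nonneg (ha.trans ht).le _)), integral_Ioi_rpow_of_lt h1 ha]
  apply ENNReal.ofReal_le_ofReal
  have h2 : -((n : ℝ) + 4) + 1 = -(((n + 3 : ℕ) : ℝ)) := by push_cast; ring
  rw [h2, Real.rpow_neg ha.le, Real.rpow_natCast, neg_div_neg_eq, inv_pow]
  have h3 : (1 : ℝ) ≤ ((n + 3 : ℕ) : ℝ) := by
    push_cast
    have : (0 : ℝ) ≤ n := Nat.cast_nonneg n
    linarith
  exact div_le_self (by positivity) h3

private theorem CoQ_time (n : ℕ) {Z : X d} (hZ : Z ≠ 0) :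
    ∫⁻ t in Ioi (0 : ℝ), ENNReal.ofReal (t * kr (n + 3) t Z) * ENNReal.ofReal t⁻¹ ≤
      ENNReal.ofReal 2 * ENNReal.ofReal (kr (n + 2) 0 Z) := by
  have ha : 0 < ‖Z‖ := norm_pos_iff.2 hZ
  have hk0 : kr (n + 2) 0 Z = ‖Z‖⁻¹ ^ (n + 3) := by
    unfold kr
    rw [zero_pow two_ne_zero, add_zero, Real.sqrt_sq ha.le]
  have hsub : Ioi (0 : ℝ) ⊆ Ioc 0 ‖Z‖ ∪ Ioi ‖Z‖ := by
    intro t ht
    rcases le_or_gt t ‖Z‖ with h | h
    · exact Or.inl ⟨ht, h⟩
    · exact Or.inr h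
  have hpt : ∀ t : ℝ, 0 < t → ENNReal.ofReal (t * kr (n + 3) t Z) * ENNReal.ofReal t⁻¹
      = ENNReal.ofReal (kr (n + 3) t Z) := by
    intro t ht
    rw [← ENNReal.ofReal_mul (mul_nonneg ht.le (kr_nonneg _ _ _))]
    congr 1
    field_simp
  have h1 : ∫⁻ t in Ioc 0 ‖Z‖, ENNReal.ofReal (t * kr (n + 3) t Z) * ENNReal.ofReal t⁻¹ ≤
      ENNReal.ofReal (‖Z‖⁻¹ ^ (n + 3)) := by
    have hb : ∀ t ∈ Ioc 0 ‖Z‖, ENNReal.ofReal (t * kr (n + 3) t Z) * ENNReal.ofReal t⁻¹ ≤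
        ENNReal.ofReal (‖Z‖⁻¹ ^ (n + 4)) := by
      intro t ht
      rw [hpt t ht.1]
      exact ENNReal.ofReal_le_ofReal (kr_le_norm (n + 3) t hZ)
    refine (setLIntegral_mono' measurableSet_Ioc hb).trans ?_
    rw [setLIntegral_const, Real.volume_Ioc, sub_zero,
      ← ENNReal.ofReal_mul (by positivity)]
    apply ENNReal.ofReal_le_ofReal
    rw [pow_succ _ (n + 3), mul_assoc, inv_mul_cancel₀ ha.ne', mul_one]
  have h2 : ∫⁻ t in Ioi ‖Z‖, ENNReal.ofReal (t * kr (n + 3) t Z) * ENNReal.ofReal t⁻¹ ≤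
      ENNReal.ofReal (‖Z‖⁻¹ ^ (n + 3)) := by
    refine (setLIntegral_mono' measurableSet_Ioi fun t ht => ?_).trans (CoQ_tail n ha)
    have ht0 : 0 < t := ha.trans ht
    rw [hpt t ht0]
    exact ENNReal.ofReal_le_ofReal (kr_le_eps (n + 3) ht0 Z)
  calc ∫⁻ t in Ioi (0 : ℝ), ENNReal.ofReal (t * kr (n + 3) t Z) * ENNReal.ofReal t⁻¹
      ≤ ∫⁻ t in Ioc 0 ‖Z‖ ∪ Ioi ‖Z‖,
          ENNReal.ofReal (t * kr (n + 3) t Z) * ENNReal.ofReal t⁻¹ := lintegral_mono_set hsub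
    _ ≤ _ := lintegral_union_le _ _ _
    _ ≤ ENNReal.ofReal (‖Z‖⁻¹ ^ (n + 3)) + ENNReal.ofReal (‖Z‖⁻¹ ^ (n + 3)) := add_le_add h1 h2
    _ = ENNReal.ofReal 2 * ENNReal.ofReal (kr (n + 2) 0 Z) := by
        rw [hk0, ← ENNReal.ofReal_add (by positivity) (by positivity),
          ← ENNReal.ofReal_mul (by norm_num)]
        congr 1
        ring

private theorem CoQ_Se_zero (n : ℕ) (μ : Measure (X d)) (Y : X d) : Se n 0 μ Y 0 = 0 := by
  unfold Se dK
  simp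

theorem Qc_int {n : ℕ} (hd : d = n + 3) : ∃ C : ℝ, 0 < C ∧ ∀ (μ : Measure (X d)),
    IsFiniteMeasure μ → ∀ z : X d,
    ∫⁻ t in Ioi (0 : ℝ), Qc n μ z t * ENNReal.ofReal t⁻¹ ≤ ENNReal.ofReal C *
      ∫⁻ Y, ENNReal.ofReal (kr (n + 2) 0 (Y - z)) * ‖Se n 0 μ Y (Y - z)‖ₑ ^ 2 := by
  refine ⟨2, by norm_num, fun μ hμ z => ?_⟩
  have hS : Measurable fun Y : X d => ‖Se n 0 μ Y (Y - z)‖ₑ ^ 2 :=
    ((CoQ_Se n μ measurable_id (measurable_id.sub measurable_const)).enorm).pow_const 2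
  have hk : Measurable fun q : ℝ × X d => ENNReal.ofReal (q.1 * kr (n + 3) q.1 (q.2 - z)) :=
    ENNReal.measurable_ofReal.comp
      (measurable_fst.mul (CoQ_kr (n + 3) measurable_fst (measurable_snd.sub measurable_const)))
  have hti : Measurable fun q : ℝ × X d => ENNReal.ofReal q.1⁻¹ :=
    ENNReal.measurable_ofReal.comp measurable_fst.inv
  have hjoint : Measurable fun q : ℝ × X d =>
      ENNReal.ofReal (q.1 * kr (n + 3) q.1 (q.2 - z)) * ‖Se n 0 μ q.2 (q.2 - z)‖ₑ ^ 2 *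
        ENNReal.ofReal q.1⁻¹ := (hk.mul (hS.comp measurable_snd)).mul hti
  calc ∫⁻ t in Ioi (0 : ℝ), Qc n μ z t * ENNReal.ofReal t⁻¹
      = ∫⁻ t in Ioi (0 : ℝ), ∫⁻ Y, ENNReal.ofReal (t * kr (n + 3) t (Y - z)) *
          ‖Se n 0 μ Y (Y - z)‖ₑ ^ 2 * ENNReal.ofReal t⁻¹ := by
        refine lintegral_congr fun t => ?_
        unfold Qc
        rw [lintegral_mul_const']
        exact ENNReal.ofReal_ne_top
    _ = ∫⁻ Y, ∫⁻ t in Ioi (0 : ℝ), ENNReal.ofReal (t * kr (n + 3) t (Y - z)) *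
          ‖Se n 0 μ Y (Y - z)‖ₑ ^ 2 * ENNReal.ofReal t⁻¹ :=
        lintegral_lintegral_swap hjoint.aemeasurable
    _ = ∫⁻ Y, (∫⁻ t in Ioi (0 : ℝ), ENNReal.ofReal (t * kr (n + 3) t (Y - z)) *
          ENNReal.ofReal t⁻¹) * ‖Se n 0 μ Y (Y - z)‖ₑ ^ 2 := by
        refine lintegral_congr fun Y => ?_
        have hm : Measurable fun t : ℝ => ENNReal.ofReal (t * kr (n + 3) t (Y - z)) *
            ENNReal.ofReal t⁻¹ :=
          (ENNReal.measurable_ofReal.comp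
            (measurable_id.mul (CoQ_kr (n + 3) measurable_id measurable_const))).mul
              (ENNReal.measurable_ofReal.comp measurable_id.inv)
        rw [← lintegral_mul_const _ hm]
        exact lintegral_congr fun t => by ring
    _ ≤ ∫⁻ Y, ENNReal.ofReal 2 *
          (ENNReal.ofReal (kr (n + 2) 0 (Y - z)) * ‖Se n 0 μ Y (Y - z)‖ₑ ^ 2) := by
        refine lintegral_mono fun Y => ?_
        by_cases hY : Y - z = 0
        · simp only [hY, CoQ_Se_zero, enorm_zero]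
          simp
        · rw [← mul_assoc]
          exact mul_le_mul_left (CoQ_time n hY) _
    _ = ENNReal.ofReal 2 *
          ∫⁻ Y, ENNReal.ofReal (kr (n + 2) 0 (Y - z)) * ‖Se n 0 μ Y (Y - z)‖ₑ ^ 2 :=
        lintegral_const_mul' _ _ ENNReal.ofReal_ne_top

/-! Scaling -/

private theorem CoQ_integral_blow (n : ℕ) (x : X d) {r : ℝ} (hr : 0 < r) (ν : Measure (X d))
    (f : X d → X d) :
    ∫ z, f z ∂(blow n x r ν) = r⁻¹ ^ n • ∫ y, f (r⁻¹ • (y - x)) ∂ν := by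
  unfold blow
  rw [integral_smul_measure, ENNReal.toReal_ofReal (by positivity)]
  congr 1
  have h := (Bl1_hom x hr).measurableEmbedding.integral_map (μ := ν) f
  rw [Bl1_hom_apply x hr] at h
  exact h

private theorem CoQ_dK_scale (n : ℕ) {t : ℝ} (ht : 0 < t) (Z v : X d) :
    dK n 0 (t⁻¹ • Z) (t⁻¹ • v) = t ^ n • dK n 0 Z v := by
  unfold dK
  rw [kr_scale n 0 ht, kr_scale (n + 2) 0 ht, mul_zero, inner_smul_left, inner_smul_right,
    smul_sub, smul_smul, smul_smul, smul_smul, smul_smul]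
  simp only [conj_trivial]
  have ht' : t ≠ 0 := ht.ne'
  congr 1
  · congr 1
    field_simp
    ring
  · congr 1
    field_simp
    ring

private theorem CoQ_Se_scale (n : ℕ) (μ : Measure (X d)) {t : ℝ} (ht : 0 < t) (Y v : X d) :
    Se n 0 (blow n 0 t μ) (t⁻¹ • Y) (t⁻¹ • v) = Se n 0 μ Y v := by
  unfold Se
  rw [CoQ_integral_blow n 0 ht, ← integral_smul]
  congr 1
  funext x
  have h1 : t⁻¹ • Y - t⁻¹ • (x - 0) = t⁻¹ • (Y - x) := by
    rw [sub_zero, ← smul_sub]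
  rw [h1, CoQ_dK_scale n ht, smul_smul, ← mul_pow, inv_mul_cancel₀ ht.ne', one_pow, one_smul]

theorem Qc_scale {n : ℕ} (hd : d = n + 3) (μ : Measure (X d)) {t : ℝ} (ht : 0 < t) (z : X d)
    {s : ℝ} (hs : 0 < s) : Qc n (blow n 0 t μ) (t⁻¹ • z) s = Qc n μ z (t * s) := by
  unfold Qc
  set F : X d → ℝ≥0∞ := fun Y =>
    ENNReal.ofReal (s * kr (n + 3) s (t⁻¹ • Y - t⁻¹ • z)) *
      ‖Se n 0 (blow n 0 t μ) (t⁻¹ • Y) (t⁻¹ • Y - t⁻¹ • z)‖ₑ ^ 2 with hF
  have h2 : ∀ Y : X d, ENNReal.ofReal (s * kr (n + 3) s (Y - t⁻¹ • z)) *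
      ‖Se n 0 (blow n 0 t μ) Y (Y - t⁻¹ • z)‖ₑ ^ 2 = F (t • Y) := by
    intro Y
    rw [hF]
    simp only [smul_smul, inv_mul_cancel₀ ht.ne', one_smul]
  simp_rw [h2]
  have h3 : ∫⁻ Y : X d, F (t • Y) = ENNReal.ofReal ((t ^ d)⁻¹) * ∫⁻ Y : X d, F Y := by
    have e := (Homeomorph.smulOfNeZero (α := X d) t ht.ne').measurableEmbedding.lintegral_map
      (μ := volume) F
    have e2 : (Homeomorph.smulOfNeZero (α := X d) t ht.ne' : X d → X d) = (t • ·) := rfl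
    rw [e2] at e
    rw [← e, Measure.map_addHaar_smul volume ht.ne', lintegral_smul_measure, smul_eq_mul]
    congr 2
    rw [finrank_euclideanSpace_fin, abs_of_nonneg (by positivity)]
  rw [h3, ← lintegral_const_mul' _ _ ENNReal.ofReal_ne_top]
  refine lintegral_congr fun Y => ?_
  rw [hF]
  simp only
  rw [← smul_sub, CoQ_Se_scale n μ ht, kr_scale (n + 3) s ht, ← mul_assoc,
    ← ENNReal.ofReal_mul (by positivity)]
  congr 2
  subst hd
  have ht' : t ≠ 0 := ht.ne'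
  field_simp
  ring

theorem Qc_measurable (n : ℕ) (μ : Measure (X d)) [IsFiniteMeasure μ] :
    Measurable fun p : X d × ℝ => Qc n μ p.1 p.2 := by
  unfold Qc
  refine Measurable.lintegral_prod_right' (f := fun q : (X d × ℝ) × X d =>
      ENNReal.ofReal (q.1.2 * kr (n + 3) q.1.2 (q.2 - q.1.1)) *
        ‖Se n 0 μ q.2 (q.2 - q.1.1)‖ₑ ^ 2) ?_
  exact CoQ_integrand n μ (measurable_fst.comp measurable_fst) measurable_snd
    (measurable_snd.comp measurable_fst)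

end Pool.Agent.H1.LD
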