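import Pool.Agent.H1.LD.CovA

/-!
Yf_nonneg, D_le_Yf: Db ≥ 0, th ≥ 0, D ≥ 0.  Measurability: Db ν D is measurable (integral of a jointly measurable function, StronglyMeasurable.integral_prod_right), th continuous.
Y_int: ga (b/6)(x-z₀) Yf = ga (b/6) D + ga (b/6)(x-z₀) Db(x)/θ(x).  First part ≤ ga (b/12) D.  Second part, Tonelli:
 ∫∫ ga (b/6)(x-z₀) ga (1/4)(y-x) D(y)/θ(x) dν(x) dν(y); ga_two (with b/6, x := y, y := x): ga (b/6)(x-z₀) ≤ ga (b/12)(y-z₀) exp((b/6)|y-x|^2), b ≤ 1/2, so exp((b/6)|y-x|^2) ga (1/4)(y-x) ≤ ga (1/4-1/12)(y-x) ≤ ga (1/8)(y-x); cov.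
 Result ≤ (1 + C) ∫ ga (b/12)(y-z₀) D(y) dν(y).  (ν = 0 is trivial, θ > 0 otherwise; work with lintegrals and convert at the end.)
-/

set_option autoImplicit false

open MeasureTheory Filter Topology Metric Set
open scoped RealInnerProductSpace ENNReal

namespace Pool.Agent.H1.LD

open Pool.Agent.RZ

variable {d : ℕ}

private theorem CovB_Db_nonneg {n K : ℕ} {ν : Measure (X d)} {S : Set (X d)} {D : X d → ℝ}
    (h : Sd n K ν S D) (x : X d) : 0 ≤ Db ν D x :=
  integral_nonneg fun y => mul_nonneg (ga_nonneg _ _) (h.nn y)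

theorem Yf_nonneg {n K : ℕ} {ν : Measure (X d)} {S : Set (X d)} {D : X d → ℝ} (h : Sd n K ν S D)
    (x : X d) : 0 ≤ Yf ν D x :=
  add_nonneg (div_nonneg (CovB_Db_nonneg h x) (th_nonneg _ _ _)) (h.nn x)

theorem D_le_Yf {n K : ℕ} {ν : Measure (X d)} {S : Set (X d)} {D : X d → ℝ} (h : Sd n K ν S D)
    (x : X d) : D x ≤ Yf ν D x :=
  le_add_of_nonneg_left (div_nonneg (CovB_Db_nonneg h x) (th_nonneg _ _ _))

private theorem CovB_Db_meas {n K : ℕ} {ν : Measure (X d)} {S : Set (X d)} {D : X d → ℝ}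
    (h : Sd n K ν S D) : Measurable (Db ν D) := by
  have := h.fin
  have h1 : StronglyMeasurable (Function.uncurry fun x y : X d => ga (1 / 4) (y - x) * D y) := by
    refine Measurable.stronglyMeasurable ?_
    refine Measurable.mul ?_ (h.meas.comp measurable_snd)
    exact ((ga_continuous (1 / 4)).comp (continuous_snd.sub continuous_fst)).measurable
  exact h1.integral_prod_right.measurable

theorem Yf_measurable {n K : ℕ} {ν : Measure (X d)} {S : Set (X d)} {D : X d → ℝ}
    (h : Sd n K ν S D) : Measurable (Yf ν D) := by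
  have := h.fin
  exact ((CovB_Db_meas h).div (th_continuous ν (by norm_num)).measurable).add h.meas

private theorem CovB_bound {b : ℝ} (hb : 0 < b) (hb2 : b ≤ 1 / 2) (x y z₀ : X d) :
    ga (b / 6) (x - z₀) * ga (1 / 4) (y - x) ≤ ga (b / 12) (y - z₀) * ga (1 / 8) (y - x) := by
  have h1 := ga_two (b := b / 6) (by positivity) y x z₀
  have h2 : b / 6 / 2 = b / 12 := by ring
  rw [h2] at h1
  have h3 : Real.exp (b / 6 * ‖y - x‖ ^ 2) * ga (1 / 4) (y - x) ≤ ga (1 / 8) (y - x) := by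
    unfold ga
    rw [← Real.exp_add, Real.exp_le_exp]
    have h4 : 0 ≤ ‖y - x‖ ^ 2 := by positivity
    nlinarith
  calc ga (b / 6) (x - z₀) * ga (1 / 4) (y - x)
      ≤ ga (b / 12) (y - z₀) * Real.exp (b / 6 * ‖y - x‖ ^ 2) * ga (1 / 4) (y - x) :=
        mul_le_mul_of_nonneg_right h1 (ga_nonneg _ _)
    _ = ga (b / 12) (y - z₀) * (Real.exp (b / 6 * ‖y - x‖ ^ 2) * ga (1 / 4) (y - x)) := by ring
    _ ≤ _ := mul_le_mul_of_nonneg_left h3 (ga_nonneg _ _)

private theorem CovB_int {n K : ℕ} {ν : Measure (X d)} {S : Set (X d)} {D : X d → ℝ}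
    (h : Sd n K ν S D) {b : ℝ} (hb : 0 < b) (z₀ : X d) :
    Integrable (fun x => ga b (x - z₀) * D x) ν := by
  refine Integrable.mono' h.int ?_ ?_
  · refine (Measurable.mul ?_ h.meas).aestronglyMeasurable
    exact ((ga_continuous b).comp (continuous_id.sub continuous_const)).measurable
  · refine Filter.Eventually.of_forall fun x => ?_
    rw [Real.norm_eq_abs, abs_of_nonneg (mul_nonneg (ga_nonneg _ _) (h.nn x))]
    have h1 := mul_le_mul_of_nonneg_right (ga_le_one hb.le (x - z₀)) (h.nn x)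
    rwa [one_mul] at h1

/-- the weighted integral of `Yf` is bounded by the weighted integral of `D` -/
theorem Y_int (d : ℕ) : ∃ C : ℝ, 0 < C ∧ ∀ (n K : ℕ) (ν : Measure (X d)) (S : Set (X d))
    (D : X d → ℝ), Sd n K ν S D → ∀ b : ℝ, 0 < b → b ≤ 1 / 2 → ∀ z₀ : X d,
      Integrable (fun x => ga (b / 6) (x - z₀) * Yf ν D x) ν ∧
      ∫ x, ga (b / 6) (x - z₀) * Yf ν D x ∂ν ≤ C * Wm ν D (b / 12) z₀ := by
  obtain ⟨C, hC, hcov⟩ := cov d
  refine ⟨C + 1, by positivity, ?_⟩
  intro n K ν S D h b hb hb2 z₀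
  have hfin := h.fin
  set θ : X d → ℝ := th ν (1 / 2) with hθ
  have hθc : Continuous θ := th_continuous ν (by norm_num)
  have hθ0 : ∀ x, 0 ≤ θ x := fun x => th_nonneg _ _ _
  set g : X d × X d → ℝ := fun p =>
    ga (b / 6) (p.1 - z₀) * ga (1 / 4) (p.2 - p.1) * D p.2 / θ p.1 with hg
  have hgm : Measurable g := by
    refine Measurable.div (Measurable.mul (Measurable.mul ?_ ?_) (h.meas.comp measurable_snd))
      (hθc.measurable.comp measurable_fst)
    · exact ((ga_continuous (b / 6)).comp (continuous_fst.sub continuous_const)).measurable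
    · exact ((ga_continuous (1 / 4)).comp (continuous_snd.sub continuous_fst)).measurable
  have hg0 : ∀ p, 0 ≤ g p := fun p => div_nonneg
    (mul_nonneg (mul_nonneg (ga_nonneg _ _) (ga_nonneg _ _)) (h.nn _)) (hθ0 _)
  have hgb : ∀ x y, g (x, y) ≤
      (ga (b / 12) (y - z₀) * D y) * (ga (1 / 8) (y - x) / θ x) := by
    intro x y
    have h1 := CovB_bound hb hb2 x y z₀
    have h2 := mul_le_mul_of_nonneg_right h1 (h.nn y)
    have h3 := div_le_div_of_nonneg_right h2 (hθ0 x)
    refine h3.trans (le_of_eq ?_)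
    ring
  have hgy : ∀ y, Integrable (fun x => g (x, y)) ν := by
    intro y
    refine Integrable.mono' ((hcov ν hfin y).1.const_mul (ga (b / 12) (y - z₀) * D y))
      (hgm.comp measurable_prodMk_right).aestronglyMeasurable ?_
    refine Filter.Eventually.of_forall fun x => ?_
    rw [Real.norm_eq_abs, abs_of_nonneg (hg0 _)]
    exact hgb x y
  have hgyi : ∀ y, ∫ x, g (x, y) ∂ν ≤ C * (ga (b / 12) (y - z₀) * D y) := by
    intro y
    calc ∫ x, g (x, y) ∂ν
        ≤ ∫ x, (ga (b / 12) (y - z₀) * D y) * (ga (1 / 8) (y - x) / θ x) ∂ν :=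
          integral_mono (hgy y) ((hcov ν hfin y).1.const_mul _) fun x => hgb x y
      _ = (ga (b / 12) (y - z₀) * D y) * ∫ x, (ga (1 / 8) (y - x) / θ x) ∂ν :=
          integral_const_mul _ _
      _ ≤ (ga (b / 12) (y - z₀) * D y) * C :=
          mul_le_mul_of_nonneg_left (hcov ν hfin y).2 (mul_nonneg (ga_nonneg _ _) (h.nn y))
      _ = _ := by ring
  have hD := CovB_int h (b := b / 12) (by positivity) z₀
  have hgi : Integrable g (ν.prod ν) := by
    rw [integrable_prod_iff' hgm.aestronglyMeasurable]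
    refine ⟨Filter.Eventually.of_forall hgy, ?_⟩
    refine Integrable.mono' (hD.const_mul C) ?_ ?_
    · exact (hgm.norm.stronglyMeasurable.integral_prod_left').aestronglyMeasurable
    · refine Filter.Eventually.of_forall fun y => ?_
      rw [Real.norm_eq_abs, abs_of_nonneg (integral_nonneg fun x => norm_nonneg _)]
      have h1 : ∫ x, ‖g (x, y)‖ ∂ν = ∫ x, g (x, y) ∂ν := by
        refine integral_congr_ae (Filter.Eventually.of_forall fun x => ?_)
        simp only [Real.norm_eq_abs, abs_of_nonneg (hg0 _)]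
      rw [h1]
      exact hgyi y
  have hgx : ∀ x, ∫ y, g (x, y) ∂ν = ga (b / 6) (x - z₀) * (Db ν D x / θ x) := by
    intro x
    unfold Db
    rw [mul_div_assoc', ← integral_const_mul, ← integral_div]
    refine integral_congr_ae (Filter.Eventually.of_forall fun y => ?_)
    simp only [hg]
    ring
  have hI1 : Integrable (fun x => ga (b / 6) (x - z₀) * (Db ν D x / θ x)) ν := by
    have h1 := hgi.integral_prod_left
    simpa only [hgx] using h1
  have hI2 := CovB_int h (b := b / 6) (by positivity) z₀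
  have hsplit : (fun x => ga (b / 6) (x - z₀) * Yf ν D x) =
      fun x => ga (b / 6) (x - z₀) * (Db ν D x / θ x) + ga (b / 6) (x - z₀) * D x := by
    funext x
    unfold Yf
    ring
  rw [hsplit]
  refine ⟨hI1.add hI2, ?_⟩
  rw [integral_add hI1 hI2]
  have h2 : ∫ x, ga (b / 6) (x - z₀) * D x ∂ν ≤ Wm ν D (b / 12) z₀ := by
    unfold Wm
    refine integral_mono hI2 hD fun x => ?_
    exact mul_le_mul_of_nonneg_right (ga_anti (by linarith) _) (h.nn x)
  have h3 : ∫ x, ga (b / 6) (x - z₀) * (Db ν D x / θ x) ∂ν ≤ C * Wm ν D (b / 12) z₀ := by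
    calc ∫ x, ga (b / 6) (x - z₀) * (Db ν D x / θ x) ∂ν = ∫ x, ∫ y, g (x, y) ∂ν ∂ν := by
          simp only [hgx]
      _ = ∫ y, ∫ x, g (x, y) ∂ν ∂ν := integral_integral_swap hgi
      _ ≤ ∫ y, C * (ga (b / 12) (y - z₀) * D y) ∂ν :=
          integral_mono hgi.integral_prod_right (hD.const_mul C) hgyi
      _ = C * Wm ν D (b / 12) z₀ := by
          unfold Wm
          rw [integral_const_mul]
  linarith

end Pool.Agent.H1.LD
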