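import Pool.Agent.H1.LD.CovB

/-!
Z_int.  Tonelli: ∫ Zf = ∫_y ga (b/2)(y-z₀) Yf(y) [∫_x ga (3/8)(x-y)/θ(x) dν(x)] dν(y) ≤ C ∫ ga (b/2)(y-z₀) Yf (cov, ga (3/8) ≤ ga (1/8)) ≤ C ∫ ga (b/6) Yf ≤ C' Wm (Y_int).  Work with lintegrals.
-/

set_option autoImplicit false

open MeasureTheory Filter Topology Metric Set
open scoped RealInnerProductSpace ENNReal

namespace Pool.Agent.H1.LD

open Pool.Agent.RZ

variable {d : ℕ}

/-- the same for the mixed term -/
theorem Z_int (d : ℕ) : ∃ C : ℝ, 0 < C ∧ ∀ (n K : ℕ) (ν : Measure (X d)) (S : Set (X d))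
    (D : X d → ℝ), Sd n K ν S D → ∀ b : ℝ, 0 < b → b ≤ 1 / 2 → ∀ z₀ : X d,
      Integrable (fun x => Zf ν D b z₀ x) ν ∧
      ∫ x, Zf ν D b z₀ x ∂ν ≤ C * Wm ν D (b / 12) z₀ := by
  obtain ⟨C1, hC1, hY⟩ := Y_int d
  obtain ⟨C2, hC2, hcov⟩ := cov d
  refine ⟨C2 * C1, mul_pos hC2 hC1, ?_⟩
  intro n K ν S D hS b hb hb2 z₀
  have : IsFiniteMeasure ν := hS.fin
  obtain ⟨hYi, hYle⟩ := hY n K ν S D hS b hb hb2 z₀
  have hYn : ∀ y, 0 ≤ Yf ν D y := Yf_nonneg hS
  have hthm : Measurable (th ν (1 / 2)) := (th_continuous ν (by norm_num)).measurable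
  set w : X d → ℝ := fun y => ga (b / 2) (y - z₀) * Yf ν D y with hw
  have hwm : Measurable w :=
    ((ga_continuous (b / 2)).comp (continuous_id.sub continuous_const)).measurable.mul
      (Yf_measurable hS)
  have hwn : ∀ y, 0 ≤ w y := fun y => mul_nonneg (ga_nonneg _ _) (hYn y)
  have hwle : ∀ y, w y ≤ ga (b / 6) (y - z₀) * Yf ν D y := fun y =>
    mul_le_mul_of_nonneg_right (ga_anti (by linarith) _) (hYn y)
  have hwi : Integrable w ν := by
    refine hYi.mono' hwm.aestronglyMeasurable (Eventually.of_forall fun y => ?_)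
    rw [Real.norm_eq_abs, abs_of_nonneg (hwn y)]
    exact hwle y
  -- the kernel
  set k : X d → X d → ℝ := fun x y => ga (3 / 8) (x - y) / th ν (1 / 2) x with hk
  have hkn : ∀ x y, 0 ≤ k x y := fun x y => div_nonneg (ga_nonneg _ _) (th_nonneg _ _ _)
  have hkle : ∀ x y, k x y ≤ ga (1 / 8) (y - x) / th ν (1 / 2) x := by
    intro x y
    apply div_le_div_of_nonneg_right _ (th_nonneg _ _ _)
    rw [ga_comm (1 / 8) y x]
    exact ga_anti (by norm_num) _
  have hkm : Measurable (Function.uncurry k) := by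
    have h1 : Measurable fun p : X d × X d => ga (3 / 8) (p.1 - p.2) :=
      ((ga_continuous (3 / 8)).comp (continuous_fst.sub continuous_snd)).measurable
    have h2 : Measurable fun p : X d × X d => th ν (1 / 2) p.1 := hthm.comp measurable_fst
    exact h1.div h2
  have hki : ∀ y, Integrable (fun x => k x y) ν := by
    intro y
    refine (hcov ν inferInstance y).1.mono'
      (hkm.comp (measurable_id.prodMk measurable_const)).aestronglyMeasurable
      (Eventually.of_forall fun x => ?_)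
    rw [Real.norm_eq_abs]
    exact (abs_of_nonneg (hkn x y)).le.trans (hkle x y)
  have hkI : ∀ y, ∫ x, k x y ∂ν ≤ C2 := fun y =>
    (integral_mono (hki y) (hcov ν inferInstance y).1 fun x => hkle x y).trans
      (hcov ν inferInstance y).2
  have hkI0 : ∀ y, 0 ≤ ∫ x, k x y ∂ν := fun y => integral_nonneg fun x => hkn x y
  -- the double integral
  set F : X d × X d → ℝ := fun p => k p.1 p.2 * w p.2 with hF
  have hFm : Measurable F := hkm.mul (hwm.comp measurable_snd)
  have hFn : ∀ p, 0 ≤ F p := fun p => mul_nonneg (hkn _ _) (hwn _)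
  have hkIm : Measurable fun y => ∫ x, k x y ∂ν := by
    have h1 : StronglyMeasurable fun p : X d × X d => k p.2 p.1 :=
      (hkm.comp measurable_swap).stronglyMeasurable
    exact h1.integral_prod_right.measurable
  have hwk : Integrable (fun y => (∫ x, k x y ∂ν) * w y) ν := by
    refine (hwi.const_mul C2).mono' (hkIm.mul hwm).aestronglyMeasurable
      (Eventually.of_forall fun y => ?_)
    rw [Real.norm_eq_abs, abs_of_nonneg (mul_nonneg (hkI0 y) (hwn y))]
    exact mul_le_mul_of_nonneg_right (hkI y) (hwn y)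
  have hFi : Integrable F (ν.prod ν) := by
    rw [integrable_prod_iff' hFm.aestronglyMeasurable]
    refine ⟨Eventually.of_forall fun y => (hki y).mul_const (w y), ?_⟩
    refine hwk.congr (Eventually.of_forall fun y => ?_)
    show (∫ x, k x y ∂ν) * w y = ∫ x, ‖F (x, y)‖ ∂ν
    rw [← integral_mul_const]
    apply integral_congr_ae
    refine Eventually.of_forall fun x => ?_
    show k x y * w y = ‖F (x, y)‖
    rw [Real.norm_eq_abs, abs_of_nonneg (hFn _)]
  have hZ : ∀ x, ∫ y, F (x, y) ∂ν = Zf ν D b z₀ x := by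
    intro x
    unfold Zf
    rw [← integral_div]
    apply integral_congr_ae
    refine Eventually.of_forall fun y => ?_
    show ga (3 / 8) (x - y) / th ν (1 / 2) x * w y =
      ga (3 / 8) (x - y) * (ga (b / 2) (y - z₀) * Yf ν D y) / th ν (1 / 2) x
    rw [hw]
    ring
  have hswap : ∫ x, (∫ y, F (x, y) ∂ν) ∂ν = ∫ y, (∫ x, F (x, y) ∂ν) ∂ν :=
    integral_integral_swap (f := fun x y => F (x, y)) hFi
  constructor
  · have h1 := hFi.integral_prod_left
    refine h1.congr (Eventually.of_forall fun x => ?_)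
    exact hZ x
  · calc ∫ x, Zf ν D b z₀ x ∂ν = ∫ x, (∫ y, F (x, y) ∂ν) ∂ν := by
          apply integral_congr_ae
          exact Eventually.of_forall fun x => (hZ x).symm
      _ = ∫ y, (∫ x, F (x, y) ∂ν) ∂ν := hswap
      _ = ∫ y, (∫ x, k x y ∂ν) * w y ∂ν := by
          apply integral_congr_ae
          refine Eventually.of_forall fun y => ?_
          exact integral_mul_const (w y) (fun x => k x y)
      _ ≤ ∫ y, C2 * (ga (b / 6) (y - z₀) * Yf ν D y) ∂ν := by
          apply integral_mono hwk (hYi.const_mul C2)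
          intro y
          exact mul_le_mul (hkI y) (hwle y) (hwn y) hC2.le
      _ = C2 * ∫ y, ga (b / 6) (y - z₀) * Yf ν D y ∂ν := integral_const_mul _ _
      _ ≤ C2 * (C1 * Wm ν D (b / 12) z₀) := mul_le_mul_of_nonneg_left hYle hC2.le
      _ = C2 * C1 * Wm ν D (b / 12) z₀ := by ring

end Pool.Agent.H1.LD
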