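import Pool.Agent.H1.LD.EigA

/-!
cov.  Averaging trick: for q in X d let B(q) = closedBall q (1/2).  For x with |x-q| ≤ 1/2: B(q) is contained in closedBall x 1, so th ν (1/2) x ≥ exp(-1/2) ν(B(q)).  With c0 = volume(closedBall 0 (1/2)) > 0 and Tonelli
 ∫⁻ F(x)/θ(x) dν(x) = c0^{-1} ∫⁻_q ∫⁻_{x in B(q)} F(x)/θ(x) dν(x) dq ≤ c0^{-1} ∫⁻_q e^{1/2} sup_{B(q)} F dq, F(x) = ga (1/8)(p-x), sup_{B(q)} F ≤ C ga (1/16)(p-q) (|p-q|^2 ≤ 2|p-x|^2 + 1/2).
 (If ν(B(q)) = 0 the inner integral is 0.)  The q-integral is C gc d (1/16).  If ν = 0 everything is 0.  Measurability: th ν (1/2) is continuous (EigA).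
-/

set_option autoImplicit false

open MeasureTheory Filter Topology Metric Set
open scoped RealInnerProductSpace ENNReal

namespace Pool.Agent.H1.LD

open Pool.Agent.RZ

variable {d : ℕ}

private theorem CovA_ga_int {b : ℝ} (hb : 0 < b) (p : X d) :
    Integrable (fun q : X d => ga b (q - p)) := by
  have h := (ga_integrable (d := d) hb 0)
  simp only [pow_zero, one_mul] at h
  exact h.comp_sub_right p

private theorem CovA_th_lower (ν : Measure (X d)) [IsFiniteMeasure ν] (q x : X d)
    (hx : ‖x - q‖ ≤ 1 / 2) :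
    Real.exp (-(1 / 2)) * ν.real (closedBall q (1 / 2)) ≤ th ν (1 / 2) x := by
  unfold th
  have hint : Integrable (fun y => ga (1 / 2) (y - x)) ν := by
    have h := poly_int ν (b := 1 / 2) (by norm_num) 0 x
    simpa using h
  calc Real.exp (-(1 / 2)) * ν.real (closedBall q (1 / 2))
      = ∫ y in closedBall q (1 / 2), Real.exp (-(1 / 2)) ∂ν := by
        rw [setIntegral_const, smul_eq_mul, mul_comm]
    _ ≤ ∫ y in closedBall q (1 / 2), ga (1 / 2) (y - x) ∂ν := by
        apply setIntegral_mono_on (integrable_const _).integrableOn hint.integrableOn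
          measurableSet_closedBall
        intro y hy
        unfold ga
        apply Real.exp_le_exp.2
        have h1 : ‖y - q‖ ≤ 1 / 2 := by
          rw [mem_closedBall, dist_eq_norm] at hy
          exact hy
        have h2 : ‖y - x‖ ≤ 1 := by
          calc ‖y - x‖ = ‖(y - q) - (x - q)‖ := by congr 1; abel
            _ ≤ ‖y - q‖ + ‖x - q‖ := norm_sub_le _ _
            _ ≤ 1 := by linarith
        have h3 : ‖y - x‖ ^ 2 ≤ 1 := by
          have := norm_nonneg (y - x)
          nlinarith
        linarith
    _ ≤ ∫ y, ga (1 / 2) (y - x) ∂ν := by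
        apply setIntegral_le_integral hint
        exact Eventually.of_forall fun y => ga_nonneg _ _

private theorem CovA_inner (ν : Measure (X d)) [IsFiniteMeasure ν] (p q : X d) :
    ∫⁻ x in closedBall q (1 / 2), ENNReal.ofReal (ga (1 / 8) (p - x) / th ν (1 / 2) x) ∂ν ≤
      ENNReal.ofReal (Real.exp (1 / 2) * Real.exp (1 / 32) * ga (1 / 16) (q - p)) := by
  set m : ℝ := ν.real (closedBall q (1 / 2)) with hm
  rcases (measureReal_nonneg : 0 ≤ ν.real (closedBall q (1 / 2))).eq_or_lt with h0 | hpos
  · have hz : ν (closedBall q (1 / 2)) = 0 := by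
      exact (measureReal_eq_zero_iff (measure_ne_top _ _)).1 h0.symm
    rw [Measure.restrict_eq_zero.2 hz]
    simp
  · have hmp : 0 < m := hpos
    have hb : ∀ x ∈ closedBall q (1 / 2 : ℝ), ENNReal.ofReal (ga (1 / 8) (p - x) / th ν (1 / 2) x) ≤
        ENNReal.ofReal (Real.exp (1 / 2) * Real.exp (1 / 32) * ga (1 / 16) (q - p) / m) := by
      intro x hx
      have hx' : ‖x - q‖ ≤ 1 / 2 := by
        rw [mem_closedBall, dist_eq_norm] at hx
        exact hx
      apply ENNReal.ofReal_le_ofReal
      have hlow := CovA_th_lower ν q x hx'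
      have hthpos : 0 < th ν (1 / 2) x := lt_of_lt_of_le (by positivity) hlow
      have hga : ga (1 / 8) (p - x) ≤ Real.exp (1 / 32) * ga (1 / 16) (q - p) := by
        rw [ga_comm]
        have h := ga_two (d := d) (b := 1 / 8) (by norm_num) q x p
        have h2 : Real.exp (1 / 8 * ‖q - x‖ ^ 2) ≤ Real.exp (1 / 32) := by
          apply Real.exp_le_exp.2
          rw [norm_sub_rev] at hx'
          have := norm_nonneg (q - x)
          nlinarith
        have h3 : ga (1 / 8 / 2) (q - p) = ga (1 / 16) (q - p) := by norm_num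
        rw [h3] at h
        calc ga (1 / 8) (x - p) ≤ ga (1 / 16) (q - p) * Real.exp (1 / 8 * ‖q - x‖ ^ 2) := h
          _ ≤ ga (1 / 16) (q - p) * Real.exp (1 / 32) :=
            mul_le_mul_of_nonneg_left h2 (ga_nonneg _ _)
          _ = _ := mul_comm _ _
      rw [div_le_div_iff₀ hthpos hmp]
      have e1 : Real.exp (1 / 2) * Real.exp (-(1 / 2)) = 1 := by
        rw [← Real.exp_add]; norm_num
      have h4 : m ≤ Real.exp (1 / 2) * th ν (1 / 2) x := by
        calc m = Real.exp (1 / 2) * (Real.exp (-(1 / 2)) * m) := by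
              rw [← mul_assoc, e1, one_mul]
          _ ≤ Real.exp (1 / 2) * th ν (1 / 2) x :=
              mul_le_mul_of_nonneg_left hlow (Real.exp_pos _).le
      calc ga (1 / 8) (p - x) * m ≤
          (Real.exp (1 / 32) * ga (1 / 16) (q - p)) * (Real.exp (1 / 2) * th ν (1 / 2) x) :=
            mul_le_mul hga h4 hmp.le (mul_nonneg (Real.exp_pos _).le (ga_nonneg _ _))
        _ = _ := by ring
    calc ∫⁻ x in closedBall q (1 / 2), ENNReal.ofReal (ga (1 / 8) (p - x) / th ν (1 / 2) x) ∂ν
        ≤ ∫⁻ x in closedBall q (1 / 2),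
            ENNReal.ofReal (Real.exp (1 / 2) * Real.exp (1 / 32) * ga (1 / 16) (q - p) / m) ∂ν :=
          setLIntegral_mono' measurableSet_closedBall hb
      _ = ENNReal.ofReal (Real.exp (1 / 2) * Real.exp (1 / 32) * ga (1 / 16) (q - p) / m) *
            ν (closedBall q (1 / 2)) := setLIntegral_const _ _
      _ = ENNReal.ofReal (Real.exp (1 / 2) * Real.exp (1 / 32) * ga (1 / 16) (q - p) / m) *
            ENNReal.ofReal m := by rw [hm, ofReal_measureReal]
      _ = ENNReal.ofReal (Real.exp (1 / 2) * Real.exp (1 / 32) * ga (1 / 16) (q - p)) := by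
          rw [← ENNReal.ofReal_mul]
          · congr 1
            field_simp
          · have := ga_nonneg (1 / 16) (q - p)
            positivity

theorem cov (d : ℕ) : ∃ C : ℝ, 0 < C ∧ ∀ (ν : Measure (X d)), IsFiniteMeasure ν → ∀ p : X d,
    Integrable (fun x => ga (1 / 8) (p - x) / th ν (1 / 2) x) ν ∧
      ∫ x, ga (1 / 8) (p - x) / th ν (1 / 2) x ∂ν ≤ C := by
  obtain ⟨c0, hc0⟩ : ∃ c : ℝ, c = (volume : Measure (X d)).real (closedBall (0 : X d) (1 / 2)) :=
    ⟨_, rfl⟩
  have hc0e : ENNReal.ofReal c0 = volume (closedBall (0 : X d) (1 / 2)) := by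
    rw [hc0]
    exact ofReal_measureReal measure_closedBall_lt_top.ne
  have hc0pos : 0 < c0 := by
    rw [← ENNReal.ofReal_pos, hc0e]
    exact measure_closedBall_pos _ _ (by norm_num)
  have hgc : 0 < gc d (1 / 16) := gc_pos (by norm_num)
  have hCpos : 0 < Real.exp (1 / 2) * Real.exp (1 / 32) * gc d (1 / 16) / c0 := by positivity
  refine ⟨Real.exp (1 / 2) * Real.exp (1 / 32) * gc d (1 / 16) / c0, hCpos, ?_⟩
  intro ν hν p
  have hmeas : Measurable (fun x => ga (1 / 8) (p - x) / th ν (1 / 2) x) := by
    apply Measurable.div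
    · exact ((ga_continuous (1 / 8)).comp (continuous_const.sub continuous_id)).measurable
    · exact (th_continuous ν (by norm_num)).measurable
  have hnn : ∀ x, 0 ≤ ga (1 / 8) (p - x) / th ν (1 / 2) x := fun x =>
    div_nonneg (ga_nonneg _ _) (th_nonneg _ _ _)
  have key : ∫⁻ x, ENNReal.ofReal (ga (1 / 8) (p - x) / th ν (1 / 2) x) ∂ν ≤
      ENNReal.ofReal (Real.exp (1 / 2) * Real.exp (1 / 32) * gc d (1 / 16) / c0) := by
    have hF : Measurable (fun x => ENNReal.ofReal (ga (1 / 8) (p - x) / th ν (1 / 2) x)) :=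
      ENNReal.measurable_ofReal.comp hmeas
    have hS : MeasurableSet {z : X d × X d | z.1 ∈ closedBall z.2 (1 / 2)} := by
      have : {z : X d × X d | z.1 ∈ closedBall z.2 (1 / 2)} =
          {z : X d × X d | dist z.1 z.2 ≤ 1 / 2} := rfl
      rw [this]
      exact measurableSet_le (by fun_prop) measurable_const
    have h1 : ENNReal.ofReal c0 * ∫⁻ x, ENNReal.ofReal (ga (1 / 8) (p - x) / th ν (1 / 2) x) ∂ν =
        ∫⁻ x, ∫⁻ q, ({z : X d × X d | z.1 ∈ closedBall z.2 (1 / 2)}.indicator
          (fun z => ENNReal.ofReal (ga (1 / 8) (p - z.1) / th ν (1 / 2) z.1)) (x, q)) ∂volume ∂ν := by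
      rw [← lintegral_const_mul _ hF]
      apply lintegral_congr
      intro x
      have : ∀ q : X d, ({z : X d × X d | z.1 ∈ closedBall z.2 (1 / 2)}.indicator
          (fun z => ENNReal.ofReal (ga (1 / 8) (p - z.1) / th ν (1 / 2) z.1)) (x, q)) =
          (closedBall x (1 / 2)).indicator
            (fun _ => ENNReal.ofReal (ga (1 / 8) (p - x) / th ν (1 / 2) x)) q := by
        intro q
        by_cases hq : x ∈ closedBall q (1 / 2)
        · rw [indicator_of_mem (by exact hq), indicator_of_mem (by rwa [mem_closedBall_comm] at hq)]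
        · rw [indicator_of_notMem (by exact hq),
            indicator_of_notMem (by rwa [mem_closedBall_comm] at hq)]
      simp_rw [this]
      rw [lintegral_indicator measurableSet_closedBall, setLIntegral_const,
        Measure.addHaar_closedBall_center, hc0e, mul_comm]
    have h2 : ENNReal.ofReal c0 * ∫⁻ x, ENNReal.ofReal (ga (1 / 8) (p - x) / th ν (1 / 2) x) ∂ν ≤
        ENNReal.ofReal (Real.exp (1 / 2) * Real.exp (1 / 32) * gc d (1 / 16)) := by
      rw [h1, lintegral_lintegral_swap]
      · calc ∫⁻ q, ∫⁻ x, ({z : X d × X d | z.1 ∈ closedBall z.2 (1 / 2)}.indicator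
              (fun z => ENNReal.ofReal (ga (1 / 8) (p - z.1) / th ν (1 / 2) z.1)) (x, q)) ∂ν
            ≤ ∫⁻ q : X d,
              ENNReal.ofReal (Real.exp (1 / 2) * Real.exp (1 / 32) * ga (1 / 16) (q - p)) := by
              apply lintegral_mono
              intro q
              have : ∀ x : X d, ({z : X d × X d | z.1 ∈ closedBall z.2 (1 / 2)}.indicator
                  (fun z => ENNReal.ofReal (ga (1 / 8) (p - z.1) / th ν (1 / 2) z.1)) (x, q)) =
                  (closedBall q (1 / 2)).indicator
                    (fun x => ENNReal.ofReal (ga (1 / 8) (p - x) / th ν (1 / 2) x)) x := by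
                intro x
                by_cases hq : x ∈ closedBall q (1 / 2)
                · rw [indicator_of_mem (by exact hq), indicator_of_mem hq]
                · rw [indicator_of_notMem (by exact hq), indicator_of_notMem hq]
              simp_rw [this]
              rw [lintegral_indicator measurableSet_closedBall]
              exact CovA_inner ν p q
          _ = ENNReal.ofReal (∫ q : X d,
              Real.exp (1 / 2) * Real.exp (1 / 32) * ga (1 / 16) (q - p)) := by
              rw [ofReal_integral_eq_lintegral_ofReal]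
              · exact (CovA_ga_int (by norm_num) p).const_mul _
              · refine Eventually.of_forall fun q => ?_
                have := ga_nonneg (1 / 16) (q - p)
                positivity
          _ = ENNReal.ofReal (Real.exp (1 / 2) * Real.exp (1 / 32) * gc d (1 / 16)) := by
              rw [integral_const_mul]
              congr 2
              unfold gc
              exact integral_sub_right_eq_self (fun q : X d => ga (1 / 16) q) p
      · apply Measurable.aemeasurable
        exact (hF.comp measurable_fst).indicator hS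
    have h3 : ENNReal.ofReal (Real.exp (1 / 2) * Real.exp (1 / 32) * gc d (1 / 16) / c0) =
        ENNReal.ofReal (Real.exp (1 / 2) * Real.exp (1 / 32) * gc d (1 / 16)) /
          ENNReal.ofReal c0 := ENNReal.ofReal_div_of_pos hc0pos
    rw [h3, ENNReal.le_div_iff_mul_le (Or.inl (by simpa using hc0pos))
      (Or.inl ENNReal.ofReal_ne_top), mul_comm]
    exact h2
  have hint : Integrable (fun x => ga (1 / 8) (p - x) / th ν (1 / 2) x) ν := by
    refine ⟨hmeas.aestronglyMeasurable, ?_⟩
    rw [hasFiniteIntegral_iff_ofReal (Eventually.of_forall hnn)]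
    exact lt_of_le_of_lt key ENNReal.ofReal_lt_top
  refine ⟨hint, ?_⟩
  rw [← ENNReal.ofReal_le_ofReal_iff hCpos.le, ofReal_integral_eq_lintegral_ofReal hint
    (Eventually.of_forall hnn)]
  exact key

end Pool.Agent.H1.LD
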