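import Pool.Agent.H1.LD.DynC

/-!
Af_deriv.  With k(s) = exp(-(|x-y|^2+|x'-y|^2)/(2 s^2)) (1 + ⟪x-y,x'-y⟫/s^2) s^{-2n} one has fT n μ s y = ∫∫ k(s) dμ(x) dμ(x') (tT_eq, Uv_blow, product of integrals), so
 Af n μ z₀ r s = ∭ ψ(y) k(s) dμ(x)dμ(x')dμ(y), ψ(y) = ga (1/2)(r⁻¹•(y-z₀)).  For s near t the integrand and its s-derivative are bounded by a constant (poly * Gaussian bounded), μ finite:
 hasDerivAt_integral_of_dominated_loc_of_deriv_le (for the product measure μ.prod (μ.prod μ) or iterated).  With v=(x-y)/t, v'=(x'-y)/t, p=⟪v,v'⟫, a=|v|^2, a'=|v'|^2: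
   t k'(t) = t^{-2n} exp(-(a+a')/2) [ -2n(1+p) - 2p + (1+p)(a+a') ].
 Integrate: with ν = blow n 0 t μ (each integral_blow gives a factor t^n: dμ = t^n dν in the variables divided by t), ψ(t y) = ga (t²/(2r²))(y - t⁻¹•z₀):
   t Af'(t) = t^{n} ∫ ga(t²/(2r²))(y-t⁻¹•z₀) ∬ e^{-(a+a')/2}[...] dν dν dν(y) = t^n ∫ ga(..) 2 [ θ(M2 - nθ) + ⟪U,M3⟫ - (n+1)|U|^2 ] = 2 t^n Dt
 (∬ gg'(1+p)(a+a') = 2θ M2 + 2⟪U,M3⟫, ∬ gg' p = |U|^2).
Af_deriv_cont: the derivative is continuous in t on (0,∞): by the same formula it is a triple integral of a function continuous in t and locally bounded (dominated convergence), or prove ContDiff-type statement directly.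
-/

set_option autoImplicit false

open MeasureTheory Filter Topology Metric Set
open scoped RealInnerProductSpace ENNReal

namespace Pool.Agent.H1.LD

open Pool.Agent.RZ

variable {d : ℕ}

/-- Gaussian kernel integral with a weight -/
noncomputable def Der_I {E : Type*} [NormedAddCommGroup E] [NormedSpace ℝ E] (μ : Measure (X d))
    (m : ℕ) (w : X d → E) (s : ℝ) (y : X d) : E :=
  ∫ x, (s⁻¹ ^ m * ga (1 / 2) (s⁻¹ • (x - y))) • w (x - y) ∂μ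

theorem Der_ga (s : ℝ) (v : X d) :
    ga (1 / 2) (s⁻¹ • v) = Real.exp (-(1 / 2 * (s⁻¹ ^ 2 * ‖v‖ ^ 2))) := by
  unfold ga
  rw [norm_smul, mul_pow, Real.norm_eq_abs, sq_abs]

theorem Der_kd (m : ℕ) {s : ℝ} (hs : 0 < s) (v : X d) :
    HasDerivAt (fun s : ℝ => s⁻¹ ^ m * ga (1 / 2) (s⁻¹ • v))
      (s⁻¹ ^ (m + 3) * ga (1 / 2) (s⁻¹ • v) * ‖v‖ ^ 2
        - m * (s⁻¹ ^ (m + 1) * ga (1 / 2) (s⁻¹ • v))) s := by
  have h0 : HasDerivAt (fun s : ℝ => s⁻¹) (-(s ^ 2)⁻¹) s := hasDerivAt_inv hs.ne'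
  have h2 := ((((h0.pow 2).mul_const (‖v‖ ^ 2)).const_mul (1 / 2 : ℝ)).neg).exp
  have hfun : (fun s : ℝ => s⁻¹ ^ m * ga (1 / 2) (s⁻¹ • v)) =
      fun s : ℝ => s⁻¹ ^ m * Real.exp (-(1 / 2 * (s⁻¹ ^ 2 * ‖v‖ ^ 2))) := by
    funext s
    rw [Der_ga]
  rw [hfun, Der_ga]
  have h2' : HasDerivAt (fun s : ℝ => Real.exp (-(1 / 2 * (s⁻¹ ^ 2 * ‖v‖ ^ 2))))
        (Real.exp (-(1 / 2 * (s⁻¹ ^ 2 * ‖v‖ ^ 2))) *
          -(1 / 2 * ((2 : ℕ) * s⁻¹ ^ (2 - 1) * -(s ^ 2)⁻¹ * ‖v‖ ^ 2))) s := h2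
  rcases m with _ | m
  · have h3 : HasDerivAt (fun s : ℝ => s⁻¹ ^ 0 * Real.exp (-(1 / 2 * (s⁻¹ ^ 2 * ‖v‖ ^ 2))))
        (Real.exp (-(1 / 2 * (s⁻¹ ^ 2 * ‖v‖ ^ 2))) *
          -(1 / 2 * ((2 : ℕ) * s⁻¹ ^ (2 - 1) * -(s ^ 2)⁻¹ * ‖v‖ ^ 2))) s := by
      simpa using h2'
    refine h3.congr_deriv ?_
    rw [← inv_pow]
    push_cast
    ring
  · have h1 := h0.pow (m + 1)
    have h3 := h1.mul h2'
    refine h3.congr_deriv ?_
    simp only [Pi.pow_apply, Nat.add_sub_cancel]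
    rw [← inv_pow]
    push_cast
    ring

theorem Der_bound (d m p : ℕ) {a b : ℝ} (ha : 0 < a) (hab : a ≤ b) : ∃ C : ℝ, 0 < C ∧
    ∀ s : ℝ, a ≤ s → s ≤ b → ∀ v : X d,
      s⁻¹ ^ m * ga (1 / 2) (s⁻¹ • v) * (1 + ‖v‖) ^ p ≤ C := by
  have hb : 0 < b := lt_of_lt_of_le ha hab
  obtain ⟨C, hC, h⟩ := poly_ga d p (b := 1 / (2 * b ^ 2)) (b' := 0) (by positivity)
  refine ⟨a⁻¹ ^ m * C, by positivity, fun s h1 h2 v => ?_⟩
  have hs : 0 < s := lt_of_lt_of_le ha h1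
  have e1 : s⁻¹ ^ m ≤ a⁻¹ ^ m := by
    apply pow_le_pow_left₀ (inv_nonneg.2 hs.le)
    exact inv_anti₀ ha h1
  have e2 : ga (1 / 2) (s⁻¹ • v) ≤ ga (1 / (2 * b ^ 2)) v := by
    rw [Der_ga]
    unfold ga
    apply Real.exp_le_exp.2
    have e3 : b⁻¹ ^ 2 ≤ s⁻¹ ^ 2 := pow_le_pow_left₀ (inv_nonneg.2 hb.le) (inv_anti₀ hs h2) 2
    have e4 : b⁻¹ ^ 2 * ‖v‖ ^ 2 ≤ s⁻¹ ^ 2 * ‖v‖ ^ 2 := mul_le_mul_of_nonneg_right e3 (by positivity)
    have e5 : 1 / (2 * b ^ 2) * ‖v‖ ^ 2 = 1 / 2 * (b⁻¹ ^ 2 * ‖v‖ ^ 2) := by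
      field_simp
    rw [e5]
    linarith
  have e6 := h v
  have e7 : ga 0 v = 1 := by
    unfold ga
    simp
  rw [e7, mul_one] at e6
  have hp : 0 ≤ (1 + ‖v‖) ^ p := by positivity
  calc s⁻¹ ^ m * ga (1 / 2) (s⁻¹ • v) * (1 + ‖v‖) ^ p
      ≤ a⁻¹ ^ m * ga (1 / (2 * b ^ 2)) v * (1 + ‖v‖) ^ p := by
        apply mul_le_mul_of_nonneg_right _ hp
        exact mul_le_mul e1 e2 (ga_nonneg _ _) (by positivity)
    _ = a⁻¹ ^ m * ((1 + ‖v‖) ^ p * ga (1 / (2 * b ^ 2)) v) := by ring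
    _ ≤ a⁻¹ ^ m * C := mul_le_mul_of_nonneg_left e6 (by positivity)

section ders

variable {E : Type*} [NormedAddCommGroup E] [NormedSpace ℝ E]

theorem Der_nb {m p : ℕ} {C s : ℝ} (hs : 0 < s) {w : X d → E} (hp : ∀ v, ‖w v‖ ≤ (1 + ‖v‖) ^ p)
    (v : X d) (h : s⁻¹ ^ m * ga (1 / 2) (s⁻¹ • v) * (1 + ‖v‖) ^ p ≤ C) :
    ‖(s⁻¹ ^ m * ga (1 / 2) (s⁻¹ • v)) • w v‖ ≤ C := by
  have h0 : 0 ≤ s⁻¹ ^ m * ga (1 / 2) (s⁻¹ • v) := mul_nonneg (by positivity) (ga_nonneg _ _)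
  rw [norm_smul, Real.norm_of_nonneg h0]
  exact (mul_le_mul_of_nonneg_left (hp v) h0).trans h

theorem Der_I_le {C : ℝ} (μ : Measure (X d)) [IsFiniteMeasure μ] {m p : ℕ} {s : ℝ} (hs : 0 < s)
    {w : X d → E} (hp : ∀ v, ‖w v‖ ≤ (1 + ‖v‖) ^ p)
    (h : ∀ v : X d, s⁻¹ ^ m * ga (1 / 2) (s⁻¹ • v) * (1 + ‖v‖) ^ p ≤ C) (y : X d) :
    ‖Der_I μ m w s y‖ ≤ C * μ.real univ := by
  unfold Der_I
  apply norm_integral_le_of_norm_le_const
  exact Filter.Eventually.of_forall fun x => Der_nb hs hp _ (h _)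

theorem Der_meas (μ : Measure (X d)) (m : ℕ) {w : X d → E} (hw : Continuous w) (s : ℝ) (y : X d) :
    AEStronglyMeasurable (fun x => (s⁻¹ ^ m * ga (1 / 2) (s⁻¹ • (x - y))) • w (x - y)) μ := by
  apply Continuous.aestronglyMeasurable
  have h1 : Continuous fun x : X d => ga (1 / 2) (s⁻¹ • (x - y)) :=
    (ga_continuous _).comp (by fun_prop)
  have h2 : Continuous fun x : X d => w (x - y) := hw.comp (by fun_prop)
  exact (continuous_const.mul h1).smul h2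

theorem Der_int (μ : Measure (X d)) [IsFiniteMeasure μ] (m p : ℕ) {w : X d → E}
    (hw : Continuous w) (hp : ∀ v, ‖w v‖ ≤ (1 + ‖v‖) ^ p) {s : ℝ} (hs : 0 < s) (y : X d) :
    Integrable (fun x => (s⁻¹ ^ m * ga (1 / 2) (s⁻¹ • (x - y))) • w (x - y)) μ := by
  obtain ⟨C, hC, h⟩ := Der_bound d m p hs le_rfl
  refine Integrable.mono' (integrable_const C) (Der_meas μ m hw s y) ?_
  exact Filter.Eventually.of_forall fun x => Der_nb hs hp _ (h s le_rfl le_rfl _)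

theorem Der_cont (μ : Measure (X d)) [IsFiniteMeasure μ] (m p : ℕ) {w : X d → E}
    (hw : Continuous w) (hp : ∀ v, ‖w v‖ ≤ (1 + ‖v‖) ^ p) {s : ℝ} (hs : 0 < s) (y : X d) :
    ContinuousAt (fun q : ℝ × X d => Der_I μ m w q.1 q.2) (s, y) := by
  obtain ⟨C, hC, h⟩ := Der_bound d m p (a := s / 2) (b := 2 * s) (by positivity) (by linarith)
  unfold Der_I
  have hn : ∀ᶠ q : ℝ × X d in 𝓝 (s, y), s / 2 ≤ q.1 ∧ q.1 ≤ 2 * s := by
    have h1 : Icc (s / 2) (2 * s) ∈ 𝓝 s := Icc_mem_nhds (by linarith) (by linarith)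
    exact (continuous_fst.tendsto (s, y)) h1
  refine continuousAt_of_dominated (bound := fun _ => C) ?_ ?_ (integrable_const C) ?_
  · exact Filter.Eventually.of_forall fun q => Der_meas μ m hw q.1 q.2
  · filter_upwards [hn] with q hq
    exact Filter.Eventually.of_forall fun x =>
      Der_nb (by linarith [hq.1]) hp _ (h q.1 hq.1 hq.2 _)
  · refine Filter.Eventually.of_forall fun x => ?_
    have h1 : ContinuousAt (fun q : ℝ × X d => q.1⁻¹) (s, y) :=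
      ContinuousAt.inv₀ continuousAt_fst hs.ne'
    have h2 : ContinuousAt (fun q : ℝ × X d => x - q.2) (s, y) :=
      continuousAt_const.sub continuousAt_snd
    have h3 : ContinuousAt (fun q : ℝ × X d => ga (1 / 2) (q.1⁻¹ • (x - q.2))) (s, y) :=
      ((ga_continuous (1 / 2)).continuousAt).comp (h1.smul h2)
    have h4 : ContinuousAt (fun q : ℝ × X d => w (x - q.2)) (s, y) := hw.continuousAt.comp h2
    exact ((h1.pow m).mul h3).smul h4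

theorem Der_has (μ : Measure (X d)) [IsFiniteMeasure μ] (m p : ℕ) {w : X d → E}
    (hw : Continuous w) (hp : ∀ v, ‖w v‖ ≤ (1 + ‖v‖) ^ p) {s : ℝ} (hs : 0 < s) (y : X d) :
    HasDerivAt (fun s => Der_I μ m w s y)
      (Der_I μ (m + 3) (fun v => ‖v‖ ^ 2 • w v) s y - (m : ℝ) • Der_I μ (m + 1) w s y) s := by
  have hw2 : Continuous fun v : X d => ‖v‖ ^ 2 • w v := by
    exact (continuous_norm.pow 2).smul hw
  have hp2 : ∀ v : X d, ‖‖v‖ ^ 2 • w v‖ ≤ (1 + ‖v‖) ^ (p + 2) := by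
    intro v
    rw [norm_smul, Real.norm_of_nonneg (by positivity), pow_add, mul_comm]
    have h1 : ‖v‖ ^ 2 ≤ (1 + ‖v‖) ^ 2 := pow_le_pow_left₀ (norm_nonneg _) (by linarith) 2
    exact mul_le_mul (hp v) h1 (by positivity) (by positivity)
  obtain ⟨C₁, hC₁, h₁⟩ := Der_bound d (m + 3) (p + 2) (a := s / 2) (b := 2 * s) (by positivity)
    (by linarith)
  obtain ⟨C₂, hC₂, h₂⟩ := Der_bound d (m + 1) p (a := s / 2) (b := 2 * s) (by positivity)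
    (by linarith)
  have hmem : Icc (s / 2) (2 * s) ∈ 𝓝 s := Icc_mem_nhds (by linarith) (by linarith)
  have key := hasDerivAt_integral_of_dominated_loc_of_deriv_le (μ := μ) (𝕜 := ℝ)
    (F := fun s x => (s⁻¹ ^ m * ga (1 / 2) (s⁻¹ • (x - y))) • w (x - y))
    (F' := fun s x => (s⁻¹ ^ (m + 3) * ga (1 / 2) (s⁻¹ • (x - y))) • (‖x - y‖ ^ 2 • w (x - y))
      - (m : ℝ) • ((s⁻¹ ^ (m + 1) * ga (1 / 2) (s⁻¹ • (x - y))) • w (x - y)))
    (x₀ := s) (s := Icc (s / 2) (2 * s)) (bound := fun _ => C₁ + m * C₂) hmem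
    (Filter.Eventually.of_forall fun u => Der_meas μ m hw u y)
    (Der_int μ m p hw hp hs y)
    ((Der_meas μ (m + 3) hw2 s y).sub ((Der_meas μ (m + 1) hw s y).const_smul (m : ℝ)))
    ?_ (integrable_const _) ?_
  · have h3 := key.2
    refine h3.congr_deriv ?_
    unfold Der_I
    rw [integral_sub, integral_smul]
    · exact Der_int μ (m + 3) (p + 2) hw2 hp2 hs y
    · exact (Der_int μ (m + 1) p hw hp hs y).smul (m : ℝ)
  · refine Filter.Eventually.of_forall fun x u hu => ?_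
    have hu0 : 0 < u := by linarith [hu.1]
    refine (norm_sub_le _ _).trans ?_
    have e1 := Der_nb (m := m + 3) hu0 hp2 (x - y) (h₁ u hu.1 hu.2 _)
    have e2 := Der_nb (m := m + 1) hu0 hp (x - y) (h₂ u hu.1 hu.2 _)
    rw [norm_smul (m : ℝ), Real.norm_of_nonneg (Nat.cast_nonneg m)]
    exact add_le_add e1 (mul_le_mul_of_nonneg_left e2 (Nat.cast_nonneg m))
  · refine Filter.Eventually.of_forall fun x u hu => ?_
    have hu0 : 0 < u := by linarith [hu.1]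
    have h4 := (Der_kd m hu0 (x - y)).smul_const (w (x - y))
    refine h4.congr_deriv ?_
    rw [sub_smul, mul_smul _ (‖x - y‖ ^ 2), mul_smul (m : ℝ)]

theorem Der_iblow (n : ℕ) {r : ℝ} (hr : 0 < r) (ν : Measure (X d)) (f : X d → E) :
    ∫ z, f z ∂(blow n 0 r ν) = r⁻¹ ^ n • ∫ y, f (r⁻¹ • y) ∂ν := by
  unfold blow
  rw [integral_smul_measure, ENNReal.toReal_ofReal (by positivity)]
  congr 1
  have h := (Bl1_hom (0 : X d) hr).measurableEmbedding.integral_map (μ := ν) f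
  rw [Bl1_hom_apply (0 : X d) hr] at h
  simpa only [sub_zero] using h

theorem Der_W (n j : ℕ) {s : ℝ} (hs : 0 < s) (μ : Measure (X d)) (y : X d) (f : X d → E)
    (w : X d → E) (h : ∀ v, f (s⁻¹ • v) = (s⁻¹ ^ j * ga (1 / 2) (s⁻¹ • v)) • w v) :
    ∫ x, f (x - s⁻¹ • y) ∂(blow n 0 s μ) = Der_I μ (n + j) w s y := by
  rw [Der_iblow n hs μ fun x => f (x - s⁻¹ • y), ← integral_smul]
  unfold Der_I
  apply integral_congr_ae
  refine Filter.Eventually.of_forall fun x => ?_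
  show s⁻¹ ^ n • f (s⁻¹ • x - s⁻¹ • y) = _
  rw [← smul_sub, h, smul_smul]
  show _ = (s⁻¹ ^ (n + j) * ga (1 / 2) (s⁻¹ • (x - y))) • w (x - y)
  rw [pow_add, mul_assoc]

end ders

theorem Der_th (n : ℕ) {s : ℝ} (hs : 0 < s) (μ : Measure (X d)) (y : X d) :
    th (blow n 0 s μ) (1 / 2) (s⁻¹ • y) = Der_I μ n (fun _ => (1 : ℝ)) s y := by
  unfold th
  exact Der_W n 0 hs μ y (fun v => ga (1 / 2) v) (fun _ => (1 : ℝ)) fun v => by simp

theorem Der_U (n : ℕ) {s : ℝ} (hs : 0 < s) (μ : Measure (X d)) (y : X d) :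
    Uv (blow n 0 s μ) (1 / 2) (s⁻¹ • y) = Der_I μ (n + 1) (fun v => v) s y := by
  unfold Uv
  refine Der_W n 1 hs μ y (fun v => ga (1 / 2) v • v) (fun v => v) fun v => ?_
  show ga (1 / 2) (s⁻¹ • v) • (s⁻¹ • v) = _
  rw [smul_smul, pow_one, mul_comm]

theorem Der_M2 (n : ℕ) {s : ℝ} (hs : 0 < s) (μ : Measure (X d)) (y : X d) :
    M2 (blow n 0 s μ) (s⁻¹ • y) = Der_I μ (n + 2) (fun v => ‖v‖ ^ 2) s y := by
  unfold M2
  refine Der_W n 2 hs μ y (fun v => ga (1 / 2) v * ‖v‖ ^ 2) (fun v => ‖v‖ ^ 2) fun v => ?_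
  show ga (1 / 2) (s⁻¹ • v) * ‖s⁻¹ • v‖ ^ 2 = _
  rw [norm_smul, mul_pow, Real.norm_eq_abs, sq_abs, smul_eq_mul]
  ring

theorem Der_M3 (n : ℕ) {s : ℝ} (hs : 0 < s) (μ : Measure (X d)) (y : X d) :
    M3 (blow n 0 s μ) (s⁻¹ • y) = Der_I μ (n + 3) (fun v => ‖v‖ ^ 2 • v) s y := by
  unfold M3
  refine Der_W n 3 hs μ y (fun v => (ga (1 / 2) v * ‖v‖ ^ 2) • v) (fun v => ‖v‖ ^ 2 • v)
    fun v => ?_
  show (ga (1 / 2) (s⁻¹ • v) * ‖s⁻¹ • v‖ ^ 2) • (s⁻¹ • v) = _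
  rw [norm_smul, mul_pow, Real.norm_eq_abs, sq_abs, smul_smul, smul_smul]
  congr 1
  ring

/-- the derivative of the energy density -/
noncomputable def Der_G (n : ℕ) (μ : Measure (X d)) (s : ℝ) (y : X d) : ℝ :=
  2 * s⁻¹ * (Der_I μ n (fun _ => (1 : ℝ)) s y * (Der_I μ (n + 2) (fun v => ‖v‖ ^ 2) s y
    - n * Der_I μ n (fun _ => (1 : ℝ)) s y)
    + ⟪Der_I μ (n + 1) (fun v => v) s y, Der_I μ (n + 3) (fun v => ‖v‖ ^ 2 • v) s y⟫
    - (n + 1) * ‖Der_I μ (n + 1) (fun v => v) s y‖ ^ 2)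

theorem Der_shift {E : Type*} [NormedAddCommGroup E] [NormedSpace ℝ E] (μ : Measure (X d))
    (m : ℕ) (w : X d → E) (s : ℝ) (y : X d) : Der_I μ (m + 1) w s y = s⁻¹ • Der_I μ m w s y := by
  unfold Der_I
  rw [← integral_smul]
  apply integral_congr_ae
  refine Filter.Eventually.of_forall fun x => ?_
  show (s⁻¹ ^ (m + 1) * ga (1 / 2) (s⁻¹ • (x - y))) • w (x - y) =
    s⁻¹ • (s⁻¹ ^ m * ga (1 / 2) (s⁻¹ • (x - y))) • w (x - y)
  rw [smul_smul, pow_succ]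
  congr 1
  ring

theorem Der_p0 (v : X d) : ‖(1 : ℝ)‖ ≤ (1 + ‖v‖) ^ 0 := by simp

theorem Der_p1 (v : X d) : ‖v‖ ≤ (1 + ‖v‖) ^ 1 := by
  rw [pow_one]
  linarith

theorem Der_p2 (v : X d) : ‖(‖v‖ ^ 2 : ℝ)‖ ≤ (1 + ‖v‖) ^ 2 := by
  rw [Real.norm_of_nonneg (by positivity)]
  exact pow_le_pow_left₀ (norm_nonneg _) (by linarith) 2

theorem Der_p3 (v : X d) : ‖‖v‖ ^ 2 • v‖ ≤ (1 + ‖v‖) ^ 3 := by
  rw [norm_smul, Real.norm_of_nonneg (by positivity), ← pow_succ]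
  exact pow_le_pow_left₀ (norm_nonneg _) (by linarith) 3

theorem Der_f (n : ℕ) (μ : Measure (X d)) [IsFiniteMeasure μ] {s : ℝ} (hs : 0 < s) (y : X d) :
    HasDerivAt (fun s => fT n μ s y) (Der_G n μ s y) s := by
  have h1 := Der_has μ n 0 (w := fun _ => (1 : ℝ)) continuous_const Der_p0 hs y
  have h2 := Der_has μ (n + 1) 1 (w := fun v => v) continuous_id Der_p1 hs y
  have h3 := (h1.pow 2).add h2.norm_sq
  have hev : (fun s => fT n μ s y) =ᶠ[𝓝 s] fun s =>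
      Der_I μ n (fun _ => (1 : ℝ)) s y ^ 2 + ‖Der_I μ (n + 1) (fun v => v) s y‖ ^ 2 := by
    filter_upwards [Ioi_mem_nhds hs] with u hu
    show fT n μ u y = _
    unfold fT
    rw [Der_th n hu, Der_U n hu]
  refine (h3.congr_of_eventuallyEq hev).congr_deriv ?_
  have e1 : Der_I μ (n + 3) (fun v : X d => ‖v‖ ^ 2 • (1 : ℝ)) s y =
      s⁻¹ * Der_I μ (n + 2) (fun v => ‖v‖ ^ 2) s y := by
    rw [Der_shift μ (n + 2)]
    simp only [smul_eq_mul, mul_one]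
  have e2 : Der_I μ (n + 1) (fun _ : X d => (1 : ℝ)) s y =
      s⁻¹ * Der_I μ n (fun _ => (1 : ℝ)) s y := by
    rw [Der_shift μ n, smul_eq_mul]
  have e3 : Der_I μ (n + 1 + 3) (fun v : X d => ‖v‖ ^ 2 • v) s y =
      s⁻¹ • Der_I μ (n + 3) (fun v => ‖v‖ ^ 2 • v) s y := Der_shift μ (n + 3) _ s y
  have e4 : Der_I μ (n + 1 + 1) (fun v : X d => v) s y =
      s⁻¹ • Der_I μ (n + 1) (fun v => v) s y := Der_shift μ (n + 1) _ s y
  rw [e1, e2, e3, e4, inner_sub_right, inner_smul_right, inner_smul_right, inner_smul_right,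
    real_inner_self_eq_norm_sq]
  unfold Der_G
  push_cast
  simp only [smul_eq_mul]
  ring

theorem Der_G_cont (n : ℕ) (μ : Measure (X d)) [IsFiniteMeasure μ] {s : ℝ} (hs : 0 < s)
    (y : X d) : ContinuousAt (fun q : ℝ × X d => Der_G n μ q.1 q.2) (s, y) := by
  have h0 := Der_cont μ n 0 (w := fun _ => (1 : ℝ)) continuous_const Der_p0 hs y
  have h1 := Der_cont μ (n + 1) 1 (w := fun v => v) continuous_id Der_p1 hs y
  have h2 := Der_cont μ (n + 2) 2 (w := fun v => ‖v‖ ^ 2) (by fun_prop) Der_p2 hs y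
  have h3 := Der_cont μ (n + 3) 3 (w := fun v => ‖v‖ ^ 2 • v) (by fun_prop) Der_p3 hs y
  have h4 : ContinuousAt (fun q : ℝ × X d => q.1⁻¹) (s, y) :=
    ContinuousAt.inv₀ continuousAt_fst hs.ne'
  unfold Der_G
  exact (continuousAt_const.mul h4).mul (((h0.mul (h2.sub (continuousAt_const.mul h0))).add
    (h1.inner (𝕜 := ℝ) h3)).sub (continuousAt_const.mul (h1.norm.pow 2)))

theorem Der_G_le (n : ℕ) (μ : Measure (X d)) [IsFiniteMeasure μ] {a b : ℝ} (ha : 0 < a)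
    (hab : a ≤ b) : ∃ C : ℝ, ∀ s, a ≤ s → s ≤ b → ∀ y, ‖Der_G n μ s y‖ ≤ C := by
  obtain ⟨C₀, hC₀, h₀⟩ := Der_bound d n 0 ha hab
  obtain ⟨C₁, hC₁, h₁⟩ := Der_bound d (n + 1) 1 ha hab
  obtain ⟨C₂, hC₂, h₂⟩ := Der_bound d (n + 2) 2 ha hab
  obtain ⟨C₃, hC₃, h₃⟩ := Der_bound d (n + 3) 3 ha hab
  set M : ℝ := μ.real univ with hM
  have hM0 : 0 ≤ M := measureReal_nonneg
  refine ⟨2 * a⁻¹ * (C₀ * M * (C₂ * M + n * (C₀ * M)) + C₁ * M * (C₃ * M)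
    + (n + 1) * (C₁ * M) ^ 2), fun s h1 h2 y => ?_⟩
  have hs : 0 < s := lt_of_lt_of_le ha h1
  have b0 := Der_I_le μ hs (w := fun _ => (1 : ℝ)) Der_p0 (h₀ s h1 h2) y
  have b1 := Der_I_le μ hs (w := fun v => v) Der_p1 (h₁ s h1 h2) y
  have b2 := Der_I_le μ hs (w := fun v => ‖v‖ ^ 2) Der_p2 (h₂ s h1 h2) y
  have b3 := Der_I_le μ hs (w := fun v => ‖v‖ ^ 2 • v) Der_p3 (h₃ s h1 h2) y
  unfold Der_G
  have hsi : s⁻¹ ≤ a⁻¹ := inv_anti₀ ha h1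
  have hn : (0 : ℝ) ≤ n := Nat.cast_nonneg n
  rw [norm_mul, Real.norm_of_nonneg (by positivity : (0 : ℝ) ≤ 2 * s⁻¹)]
  have hin : ‖⟪Der_I μ (n + 1) (fun v => v) s y, Der_I μ (n + 3) (fun v => ‖v‖ ^ 2 • v) s y⟫‖
      ≤ C₁ * M * (C₃ * M) := by
    refine (norm_inner_le_norm _ _).trans ?_
    exact mul_le_mul b1 b3 (norm_nonneg _) (by positivity)
  have hA : ‖Der_I μ n (fun _ => (1 : ℝ)) s y * (Der_I μ (n + 2) (fun v => ‖v‖ ^ 2) s y
      - n * Der_I μ n (fun _ => (1 : ℝ)) s y)‖ ≤ C₀ * M * (C₂ * M + n * (C₀ * M)) := by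
    rw [norm_mul]
    apply mul_le_mul b0 _ (norm_nonneg _) (by positivity)
    refine (norm_sub_le _ _).trans ?_
    rw [norm_mul, Real.norm_of_nonneg hn]
    exact add_le_add b2 (mul_le_mul_of_nonneg_left b0 hn)
  have hB : ‖((n : ℝ) + 1) * ‖Der_I μ (n + 1) (fun v => v) s y‖ ^ 2‖ ≤
      (n + 1) * (C₁ * M) ^ 2 := by
    rw [Real.norm_of_nonneg (by positivity)]
    exact mul_le_mul_of_nonneg_left (pow_le_pow_left₀ (norm_nonneg _) b1 2) (by positivity)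
  apply mul_le_mul (by linarith) _ (norm_nonneg _) (by positivity)
  refine (norm_sub_le _ _).trans ?_
  refine add_le_add ((norm_add_le _ _).trans (add_le_add hA hin)) hB

/-- the derivative as an integral over `μ` -/
theorem Der_eq (n : ℕ) (μ : Measure (X d)) (z₀ : X d) {r : ℝ} (hr : 0 < r) {t : ℝ} (ht : 0 < t) :
    2 * t ^ n * t⁻¹ * Dt n (blow n 0 t μ) (t ^ 2 / (2 * r ^ 2)) (t⁻¹ • z₀) =
      ∫ y, ga (1 / 2) (r⁻¹ • (y - z₀)) * Der_G n μ t y ∂μ := by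
  unfold Dt
  rw [Der_iblow n ht μ, smul_eq_mul, inv_pow]
  have htn : t ^ n ≠ 0 := pow_ne_zero _ ht.ne'
  have e0 : ∀ A : ℝ, 2 * t ^ n * t⁻¹ * ((t ^ n)⁻¹ * A) = 2 * t⁻¹ * A := by
    intro A
    field_simp
  rw [e0, ← integral_const_mul]
  apply integral_congr_ae
  refine Filter.Eventually.of_forall fun y => ?_
  show 2 * t⁻¹ * (ga (t ^ 2 / (2 * r ^ 2)) (t⁻¹ • y - t⁻¹ • z₀) * _) = _
  rw [← smul_sub, Der_th n ht, Der_M2 n ht, Der_U n ht, Der_M3 n ht]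
  have e1 : ga (t ^ 2 / (2 * r ^ 2)) (t⁻¹ • (y - z₀)) = ga (1 / 2) (r⁻¹ • (y - z₀)) := by
    unfold ga
    rw [norm_smul, norm_smul, Real.norm_of_nonneg (inv_nonneg.2 ht.le),
      Real.norm_of_nonneg (inv_nonneg.2 hr.le)]
    congr 2
    field_simp
  rw [e1]
  unfold Der_G
  ring

theorem Der_gint (μ : Measure (X d)) (z₀ : X d) (r : ℝ) {f : X d → ℝ} (hf : Continuous f) :
    AEStronglyMeasurable (fun y => ga (1 / 2) (r⁻¹ • (y - z₀)) * f y) μ := by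
  apply Continuous.aestronglyMeasurable
  exact ((ga_continuous _).comp (by fun_prop)).mul hf

theorem Der_G_cy (n : ℕ) (μ : Measure (X d)) [IsFiniteMeasure μ] {s : ℝ} (hs : 0 < s) :
    Continuous (Der_G n μ s) := by
  rw [continuous_iff_continuousAt]
  intro y
  exact (Der_G_cont n μ hs y).comp (f := fun y => (s, y))
    (continuousAt_const.prodMk continuousAt_id)

theorem Der_gle {c C : ℝ} (h : ‖c‖ ≤ C) (v : X d) : ‖ga (1 / 2) v * c‖ ≤ C := by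
  rw [norm_mul, Real.norm_of_nonneg (ga_nonneg _ _)]
  calc ga (1 / 2) v * ‖c‖ ≤ 1 * ‖c‖ :=
        mul_le_mul_of_nonneg_right (ga_le_one (by norm_num) v) (norm_nonneg _)
    _ = ‖c‖ := one_mul _
    _ ≤ C := h

theorem Der_f_le (n : ℕ) (μ : Measure (X d)) [IsFiniteMeasure μ] {s : ℝ} (hs : 0 < s) :
    ∃ C : ℝ, ∀ y, ‖fT n μ s y‖ ≤ C := by
  obtain ⟨C₀, hC₀, h₀⟩ := Der_bound d n 0 hs le_rfl
  obtain ⟨C₁, hC₁, h₁⟩ := Der_bound d (n + 1) 1 hs le_rfl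
  refine ⟨(C₀ * μ.real univ) ^ 2 + (C₁ * μ.real univ) ^ 2, fun y => ?_⟩
  have b0 := Der_I_le μ hs (w := fun _ => (1 : ℝ)) Der_p0 (h₀ s le_rfl le_rfl) y
  have b1 := Der_I_le μ hs (w := fun v => v) Der_p1 (h₁ s le_rfl le_rfl) y
  unfold fT
  rw [Der_th n hs, Der_U n hs, Real.norm_of_nonneg (by positivity)]
  refine add_le_add ?_ (pow_le_pow_left₀ (norm_nonneg _) b1 2)
  rw [← sq_abs, ← Real.norm_eq_abs]
  exact pow_le_pow_left₀ (norm_nonneg _) b0 2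

theorem Af_deriv (n : ℕ) (μ : Measure (X d)) [IsFiniteMeasure μ] (z₀ : X d) {r : ℝ} (hr : 0 < r)
    {t : ℝ} (ht : 0 < t) : HasDerivAt (Af n μ z₀ r)
      (2 * t ^ n * t⁻¹ * Dt n (blow n 0 t μ) (t ^ 2 / (2 * r ^ 2)) (t⁻¹ • z₀)) t := by
  rw [Der_eq n μ z₀ hr ht]
  obtain ⟨C, hC⟩ := Der_G_le n μ (a := t / 2) (b := 2 * t) (by positivity) (by linarith)
  obtain ⟨C', hC'⟩ := Der_f_le n μ ht
  have hmem : Icc (t / 2) (2 * t) ∈ 𝓝 t := Icc_mem_nhds (by linarith) (by linarith)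
  have key := hasDerivAt_integral_of_dominated_loc_of_deriv_le (μ := μ) (𝕜 := ℝ)
    (F := fun s y => ga (1 / 2) (r⁻¹ • (y - z₀)) * fT n μ s y)
    (F' := fun s y => ga (1 / 2) (r⁻¹ • (y - z₀)) * Der_G n μ s y)
    (x₀ := t) (s := Icc (t / 2) (2 * t)) (bound := fun _ => C) hmem
    ?_ ?_ (Der_gint μ z₀ r (Der_G_cy n μ ht)) ?_ (integrable_const _) ?_
  · exact key.2
  · filter_upwards [Ioi_mem_nhds ht] with u hu
    exact Der_gint μ z₀ r (fT_continuous n μ hu)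
  · refine Integrable.mono' (integrable_const C') (Der_gint μ z₀ r (fT_continuous n μ ht)) ?_
    exact Filter.Eventually.of_forall fun y => Der_gle (hC' y) _
  · refine Filter.Eventually.of_forall fun y u hu => ?_
    exact Der_gle (hC u hu.1 hu.2 y) _
  · refine Filter.Eventually.of_forall fun y u hu => ?_
    have hu0 : 0 < u := by linarith [hu.1]
    exact (Der_f n μ hu0 y).const_mul _

theorem Af_deriv_cont (n : ℕ) (μ : Measure (X d)) [IsFiniteMeasure μ] (z₀ : X d) {r : ℝ}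
    (hr : 0 < r) : ContinuousOn (fun t : ℝ =>
      2 * t ^ n * t⁻¹ * Dt n (blow n 0 t μ) (t ^ 2 / (2 * r ^ 2)) (t⁻¹ • z₀)) (Ioi 0) := by
  have h0 : ContinuousOn (fun t : ℝ => ∫ y, ga (1 / 2) (r⁻¹ • (y - z₀)) * Der_G n μ t y ∂μ)
      (Ioi 0) := by
    intro t ht
    have ht' : 0 < t := ht
    apply ContinuousAt.continuousWithinAt
    obtain ⟨C, hC⟩ := Der_G_le n μ (a := t / 2) (b := 2 * t) (by positivity) (by linarith)
    have hmem : Icc (t / 2) (2 * t) ∈ 𝓝 t := Icc_mem_nhds (by linarith) (by linarith)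
    refine continuousAt_of_dominated (bound := fun _ => C) ?_ ?_ (integrable_const C) ?_
    · filter_upwards [Ioi_mem_nhds ht'] with u hu
      exact Der_gint μ z₀ r (Der_G_cy n μ hu)
    · filter_upwards [hmem] with u hu
      exact Filter.Eventually.of_forall fun y => Der_gle (hC u hu.1 hu.2 y) _
    · refine Filter.Eventually.of_forall fun y => ?_
      apply continuousAt_const.mul
      exact (Der_G_cont n μ ht' y).comp (f := fun u => (u, y))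
        (continuousAt_id.prodMk continuousAt_const)
  refine h0.congr fun t ht => ?_
  exact Der_eq n μ z₀ hr ht

end Pool.Agent.H1.LD
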