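import Pool.Agent.H1.LD.Dyn

/-!
Dy.sd.  blow n 0 t μ = ENNReal.ofReal (t⁻¹^n) • μ.map (y ↦ t⁻¹ • (y - 0)).  finite: clear.  Measurability of y ↦ D (t • y) t: composition.  Integrable: measurable, nonneg, and for a.e. y (those with t • y in S)
bounded by Ds (t • y) 1, integrable (Dy.le with r = 1, Dy.fin1, change of variables; use Bl1_hom / measurableEmbedding.integrable_map_iff as in integral_blow).
ae: pull back of Dy.ae (t • (t⁻¹ • (y - 0)) = y).   j: Dy.j with z := t • z (t⁻¹ • (t • z) = z).
-/

set_option autoImplicit false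

open MeasureTheory Filter Topology Metric Set
open scoped RealInnerProductSpace ENNReal

namespace Pool.Agent.H1.LD

open Pool.Agent.RZ

variable {d : ℕ}

theorem Dy.sd {n K : ℕ} {μ : Measure (X d)} {S : Set (X d)} {D Ds : X d → ℝ → ℝ}
    (h : Dy n K μ S D Ds) {t : ℝ} (ht : 0 < t) (ht1 : t ≤ 1) :
    Sd n K (blow n 0 t μ) {y | t • y ∈ S} (fun y => D (t • y) t) := by
  have := h.fin
  have hm : Measurable fun y : X d => D (t • y) t := by
    have h1 : Measurable fun y : X d => ((t • y, t) : X d × ℝ) :=
      (measurable_const_smul t).prodMk measurable_const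
    exact h.meas.comp h1
  have hback : ∀ y : X d, t • (t⁻¹ • (y - 0)) = y := by
    intro y
    rw [sub_zero, smul_smul, mul_inv_cancel₀ ht.ne', one_smul]
  have hae : ∀ᵐ x ∂(blow n 0 t μ), x ∈ {y | t • y ∈ S} := by
    unfold blow
    refine Measure.ae_smul_measure ?_ _
    have hS : MeasurableSet {y : X d | t • y ∈ S} := (measurable_const_smul t) h.smeas
    refine (ae_map_iff (Bl1_meas 0 t).aemeasurable hS).2 ?_
    filter_upwards [h.ae] with y hy
    show t • (t⁻¹ • (y - 0)) ∈ S
    rw [hback y]
    exact hy
  have hint : Integrable (fun y : X d => D (t • y) t) (blow n 0 t μ) := by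
    unfold blow
    refine Integrable.smul_measure ?_ ENNReal.ofReal_ne_top
    rw [integrable_map_measure hm.aestronglyMeasurable (Bl1_meas 0 t).aemeasurable]
    have h2 : ((fun y : X d => D (t • y) t) ∘ fun y : X d => t⁻¹ • (y - 0)) = fun y => D y t := by
      funext y
      simp only [Function.comp]
      rw [hback y]
    rw [h2]
    have hmt : Measurable fun y : X d => D y t := by
      have h3 : Measurable fun y : X d => ((y, t) : X d × ℝ) :=
        measurable_id.prodMk measurable_const
      exact h.meas.comp h3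
    refine Integrable.mono' h.fin1 hmt.aestronglyMeasurable ?_
    filter_upwards [h.ae] with y hy
    rw [Real.norm_of_nonneg (h.nn y t)]
    exact h.le y hy t 1 ht ht1 le_rfl
  refine ⟨?_, hm, hint, fun x => h.nn _ _, hae, ?_⟩
  · constructor
    unfold blow
    rw [Measure.smul_apply, smul_eq_mul, Measure.map_apply (Bl1_meas 0 t) MeasurableSet.univ]
    exact ENNReal.mul_lt_top ENNReal.ofReal_lt_top (measure_lt_top _ _)
  · intro z hz y
    have h1 := h.j (t • z) hz t ht ht1 y
    rw [smul_smul, inv_mul_cancel₀ ht.ne', one_smul] at h1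
    exact h1

end Pool.Agent.H1.LD
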