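import Pool.Agent.H1.LD.Der
import Pool.Agent.H1.LD.DynA

/-!
Af_diff.  FTC on [s,r] (Af_deriv, Af_deriv_cont; intervalIntegral.integral_eq_sub_of_hasDerivAt).  For t in [s,r] put b = t²/(2r²) ≤ 1/2, ν = blow n 0 t μ; Dt_bound with Dy.sd, Gr.blow.
 integral_blow: t^n Wm ν (D(t•·) t) (b/12) (t⁻¹•z₀) = w(t) := ∫ ga (1/24)(r⁻¹•(y-z₀)) D y t dμ (b/12 * |(y-z₀)/t|^2 = (1/24)|(y-z₀)/r|^2), t^n th ν (b/12)(t⁻¹•z₀) = ∫ ga (1/24)(r⁻¹•(y-z₀)) dμ ≤ C r^n (th_growth for blow n 0 r μ).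
 So |Af'(t)| ≤ (C/t)( w(t) + (t/r) sqrt(C r^n) sqrt(w(t)) ).  ∫_s^r w(t) dt/t ≤ ∫ ga (1/24)(..) ∫_0^r D y t dt/t dμ(y) ≤ m := ∫ ga (1/24)(..) Ds y r dμ (Tonelli, Dy.int, a.e. y in S);
 ∫_s^r (t/r) sqrt(w(t)) dt/t ≤ (∫_0^r (t/r)^2 dt/t)^{1/2} (∫ w dt/t)^{1/2} ≤ sqrt(1/2) sqrt m  (Cauchy-Schwarz; or (t/r) sqrt w ≤ (λ (t/r)^2 + w/λ)/2 with λ = sqrt m and treat m = 0 separately).
 Integrability of y ↦ ga * Ds y r: Ds y r ≤ Ds y 1 for a.e. y.  Measurability of w in t: Dy.meas.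
-/

set_option autoImplicit false

open MeasureTheory Filter Topology Metric Set
open scoped RealInnerProductSpace ENNReal

namespace Pool.Agent.H1.LD

open Pool.Agent.RZ

variable {d : ℕ}

theorem DffA_ga {t r : ℝ} (ht : 0 < t) (hr : 0 < r) (y z : X d) :
    ga (t ^ 2 / (2 * r ^ 2) / 12) (t⁻¹ • y - t⁻¹ • z) = ga (1 / 24) (r⁻¹ • (y - z)) := by
  unfold ga
  rw [← smul_sub, norm_smul, norm_smul, Real.norm_of_nonneg (inv_nonneg.mpr ht.le),
    Real.norm_of_nonneg (inv_nonneg.mpr hr.le)]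
  congr 1
  field_simp
  ring

theorem DffA_ga_pos (b : ℝ) (v : X d) : 0 < ga b v := Real.exp_pos _

theorem DffA_ga_le {b : ℝ} (hb : 0 ≤ b) (v : X d) : ga b v ≤ 1 := by
  unfold ga
  rw [Real.exp_le_one_iff]
  have : 0 ≤ b * ‖v‖ ^ 2 := by positivity
  linarith

theorem DffA_ga_cont (r : ℝ) (z : X d) : Continuous fun y : X d => ga (1 / 24) (r⁻¹ • (y - z)) := by
  unfold ga
  fun_prop

/-- the weight `w(t)` -/
theorem DffA_Wm (n : ℕ) (μ : Measure (X d)) (D : X d → ℝ → ℝ) (z₀ : X d) {t r : ℝ} (ht : 0 < t)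
    (hr : 0 < r) : Wm (blow n 0 t μ) (fun y => D (t • y) t) (t ^ 2 / (2 * r ^ 2) / 12) (t⁻¹ • z₀)
      = t⁻¹ ^ n * ∫ y, ga (1 / 24) (r⁻¹ • (y - z₀)) * D y t ∂μ := by
  unfold Wm
  rw [integral_blow n 0 ht]
  congr 1
  refine integral_congr_ae (ae_of_all _ fun y => ?_)
  simp only
  rw [sub_zero, DffA_ga ht hr, smul_inv_smul₀ ht.ne']

theorem DffA_th (n : ℕ) (μ : Measure (X d)) (z₀ : X d) {t r : ℝ} (ht : 0 < t)
    (hr : 0 < r) : th (blow n 0 t μ) (t ^ 2 / (2 * r ^ 2) / 12) (t⁻¹ • z₀)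
      = t⁻¹ ^ n * ∫ y, ga (1 / 24) (r⁻¹ • (y - z₀)) ∂μ := by
  unfold th
  rw [integral_blow n 0 ht]
  congr 1
  refine integral_congr_ae (ae_of_all _ fun y => ?_)
  simp only
  rw [sub_zero, DffA_ga ht hr]

/-- the mass of the weight -/
theorem DffA_mass (d n : ℕ) (C₀ : ℝ) (hC₀ : 0 ≤ C₀) : ∃ C : ℝ, 0 < C ∧ ∀ (μ : Measure (X d)),
    Gr n C₀ μ → ∀ (z₀ : X d) (r : ℝ), 0 < r →
      ∫ y, ga (1 / 24) (r⁻¹ • (y - z₀)) ∂μ ≤ C * r ^ n := by
  obtain ⟨C, hC, H⟩ := th_growth d n (b := 1 / 24) (by norm_num) C₀ hC₀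
  refine ⟨C, hC, fun μ hμ z₀ r hr => ?_⟩
  have h1 := H (blow n 0 r μ) (hμ.blow 0 hr) (r⁻¹ • z₀)
  unfold th at h1
  rw [integral_blow n 0 hr] at h1
  have h2 : ∫ y, ga (1 / 24) (r⁻¹ • (y - 0) - r⁻¹ • z₀) ∂μ
      = ∫ y, ga (1 / 24) (r⁻¹ • (y - z₀)) ∂μ := by
    refine integral_congr_ae (ae_of_all _ fun y => ?_)
    simp only
    rw [sub_zero, ← smul_sub]
  rw [h2, inv_pow, inv_mul_le_iff₀ (by positivity)] at h1
  linarith

/-- arithmetic-geometric mean -/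
theorem DffA_amgm {a t r l : ℝ} (ht : 0 < t) (hr : 0 < r) (hl : 0 < l) :
    a / r ≤ l * t / (2 * r ^ 2) + a ^ 2 / (2 * l * t) := by
  have h : l * t / (2 * r ^ 2) + a ^ 2 / (2 * l * t) - a / r
      = (l * t - a * r) ^ 2 / (2 * (l * t) * r ^ 2) := by
    field_simp
    ring
  have h2 : 0 ≤ (l * t - a * r) ^ 2 / (2 * (l * t) * r ^ 2) := by positivity
  linarith

/-- the bound of the derivative -/
theorem DffA_deriv (d n K : ℕ) (C₀ : ℝ) (hC₀ : 0 ≤ C₀) : ∃ C1 C2 : ℝ, 0 < C1 ∧ 0 < C2 ∧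
    ∀ (μ : Measure (X d)) (S : Set (X d)) (D Ds : X d → ℝ → ℝ), Gr n C₀ μ → Dy n K μ S D Ds →
      ∀ (z₀ : X d) (r t l : ℝ), 0 < t → t ≤ r → r ≤ 1 → 0 < l →
      |2 * t ^ n * t⁻¹ * Dt n (blow n 0 t μ) (t ^ 2 / (2 * r ^ 2)) (t⁻¹ • z₀)| ≤
        C1 * ((1 + C2 * r ^ n / (2 * l)) * ((∫ y, ga (1 / 24) (r⁻¹ • (y - z₀)) * D y t ∂μ) / t)
          + l / (2 * r ^ 2) * t) := by
  obtain ⟨C1, hC1, H1⟩ := Dt_bound d n K C₀ hC₀
  obtain ⟨C2, hC2, H2⟩ := DffA_mass d n C₀ hC₀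
  refine ⟨2 * C1, C2, by positivity, hC2, fun μ S D Ds hG hD z₀ r t l ht htr hr1 hl => ?_⟩
  have hr : 0 < r := ht.trans_le htr
  have h1 := H1 (blow n 0 t μ) _ _ (hG.blow 0 ht) (hD.sd ht (htr.trans hr1)) (t ^ 2 / (2 * r ^ 2))
    (by positivity) (by
      rw [div_le_div_iff₀ (by positivity) (by norm_num)]
      nlinarith [mul_le_mul htr htr ht.le hr.le]) (t⁻¹ • z₀)
  rw [DffA_Wm n μ D z₀ ht hr, DffA_th n μ z₀ ht hr] at h1
  have h2 := H2 μ hG z₀ r hr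
  set w : ℝ := ∫ y, ga (1 / 24) (r⁻¹ • (y - z₀)) * D y t ∂μ with hw
  set P : ℝ := ∫ y, ga (1 / 24) (r⁻¹ • (y - z₀)) ∂μ with hP
  have hw0 : 0 ≤ w := integral_nonneg fun y => mul_nonneg (DffA_ga_pos _ _).le (hD.nn y t)
  have hP0 : 0 ≤ P := integral_nonneg fun y => (DffA_ga_pos _ _).le
  have e1 : Real.sqrt (t⁻¹ ^ n * P) * Real.sqrt (t⁻¹ ^ n * w)
      = t⁻¹ ^ n * Real.sqrt (P * w) := by
    rw [← Real.sqrt_mul (by positivity)]
    have : t⁻¹ ^ n * P * (t⁻¹ ^ n * w) = (t⁻¹ ^ n) ^ 2 * (P * w) := by ring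
    rw [this, Real.sqrt_mul (by positivity), Real.sqrt_sq (by positivity)]
  rw [e1] at h1
  have e2 : Real.sqrt (t ^ 2 / (2 * r ^ 2)) ≤ t / r := by
    rw [show t / r = Real.sqrt ((t / r) ^ 2) from (Real.sqrt_sq (by positivity)).symm]
    apply Real.sqrt_le_sqrt
    rw [div_pow]
    apply div_le_div_of_nonneg_left (by positivity) (by positivity)
    nlinarith [sq_nonneg r]
  have e3 : Real.sqrt (P * w) ≤ Real.sqrt (C2 * r ^ n * w) :=
    Real.sqrt_le_sqrt (mul_le_mul_of_nonneg_right h2 hw0)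
  set a : ℝ := Real.sqrt (C2 * r ^ n * w) with ha
  have ha0 : 0 ≤ a := Real.sqrt_nonneg _
  have ha2 : a ^ 2 = C2 * r ^ n * w := Real.sq_sqrt (by positivity)
  have e4 : t ^ n * t⁻¹ ^ n = 1 := by
    rw [← mul_pow, mul_inv_cancel₀ ht.ne', one_pow]
  have e5 : |2 * t ^ n * t⁻¹ * Dt n (blow n 0 t μ) (t ^ 2 / (2 * r ^ 2)) (t⁻¹ • z₀)|
      = 2 * t ^ n * t⁻¹ * |Dt n (blow n 0 t μ) (t ^ 2 / (2 * r ^ 2)) (t⁻¹ • z₀)| := by
    rw [abs_mul, abs_of_nonneg (by positivity : 0 ≤ 2 * t ^ n * t⁻¹)]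
  rw [e5]
  calc 2 * t ^ n * t⁻¹ * |Dt n (blow n 0 t μ) (t ^ 2 / (2 * r ^ 2)) (t⁻¹ • z₀)|
      ≤ 2 * t ^ n * t⁻¹ * (C1 * (t⁻¹ ^ n * w + Real.sqrt (t ^ 2 / (2 * r ^ 2)) *
        (t⁻¹ ^ n * Real.sqrt (P * w)))) := by gcongr
    _ ≤ 2 * t ^ n * t⁻¹ * (C1 * (t⁻¹ ^ n * w + t / r * (t⁻¹ ^ n * a))) := by gcongr
    _ = (t ^ n * t⁻¹ ^ n) * (2 * C1 * (w / t + a / r)) := by
        field_simp
    _ = 2 * C1 * (w / t + a / r) := by rw [e4, one_mul]
    _ ≤ 2 * C1 * (w / t + (l * t / (2 * r ^ 2) + a ^ 2 / (2 * l * t))) := by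
        have := DffA_amgm (a := a) ht hr hl
        gcongr
    _ = 2 * C1 * ((1 + C2 * r ^ n / (2 * l)) * (w / t) + l / (2 * r ^ 2) * t) := by
        rw [ha2]
        field_simp
        ring

/-- Tonelli -/
theorem DffA_tonelli {n K : ℕ} {μ : Measure (X d)} {S : Set (X d)} {D Ds : X d → ℝ → ℝ}
    (h : Dy n K μ S D Ds) (z₀ : X d) {s r : ℝ} (hs : 0 < s) (hsr : s ≤ r) (hr1 : r ≤ 1) :
    IntegrableOn (fun t => (∫ y, ga (1 / 24) (r⁻¹ • (y - z₀)) * D y t ∂μ) / t) (Ioc s r) ∧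
    ∫ t in Ioc s r, (∫ y, ga (1 / 24) (r⁻¹ • (y - z₀)) * D y t ∂μ) / t ≤
      ∫ y, ga (1 / 24) (r⁻¹ • (y - z₀)) * Ds y r ∂μ := by
  have := h.fin
  have hr : 0 < r := hs.trans_le hsr
  set g : X d → ℝ := fun y => ga (1 / 24) (r⁻¹ • (y - z₀)) with hg
  have hg0 : ∀ y, 0 ≤ g y := fun y => (DffA_ga_pos _ _).le
  have hg1 : ∀ y, g y ≤ 1 := fun y => DffA_ga_le (by norm_num) _
  have hgc : Continuous g := DffA_ga_cont r z₀
  have hgm : Measurable g := hgc.measurable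
  -- integrability of the majorant
  have hI : Integrable (fun y => g y * Ds y r) μ := by
    refine Integrable.mono' h.fin1 ((hgm.mul (h.dsm r)).aestronglyMeasurable) ?_
    filter_upwards [h.ae] with y hy
    rw [Real.norm_of_nonneg (mul_nonneg (hg0 y) (h.dsn y r))]
    calc g y * Ds y r ≤ 1 * Ds y r := mul_le_mul_of_nonneg_right (hg1 y) (h.dsn y r)
      _ = Ds y r := one_mul _
      _ ≤ Ds y 1 := h.mono y hy r 1 hr hr1 le_rfl
  set H : X d × ℝ → ℝ := fun p => g p.1 * D p.1 p.2 / p.2 with hH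
  have hHm : Measurable H := by
    have h1 : Measurable fun p : X d × ℝ => D p.1 p.2 := h.meas
    exact ((hgm.comp measurable_fst).mul h1).div measurable_snd
  have hH0 : ∀ y : X d, ∀ t ∈ Ioc s r, 0 ≤ H (y, t) := fun y t ht =>
    div_nonneg (mul_nonneg (hg0 y) (h.nn y t)) (hs.trans ht.1).le
  have hin : ∀ y ∈ S, IntegrableOn (fun t => D y t / t) (Ioc s r) ∧
      ∫ t in Ioc s r, D y t / t ≤ Ds y r := by
    intro y hy
    obtain ⟨h1, h2⟩ := h.int y hy r hr hr1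
    have hsub : Ioc s r ⊆ Ioc 0 r := Ioc_subset_Ioc_left hs.le
    refine ⟨h1.mono_set hsub, le_trans ?_ h2⟩
    refine setIntegral_mono_set h1 ?_ (ae_of_all _ hsub)
    rw [EventuallyLE, ae_restrict_iff' measurableSet_Ioc]
    exact ae_of_all _ fun t ht => div_nonneg (h.nn y t) ht.1.le
  have hHy : ∀ y ∈ S, IntegrableOn (fun t => H (y, t)) (Ioc s r) ∧
      ∫ t in Ioc s r, H (y, t) ≤ g y * Ds y r := by
    intro y hy
    obtain ⟨h1, h2⟩ := hin y hy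
    have e1 : (fun t => H (y, t)) = fun t => g y * (D y t / t) := by
      funext t
      simp only [hH]
      ring
    rw [e1]
    refine ⟨h1.const_mul _, ?_⟩
    rw [integral_const_mul]
    exact mul_le_mul_of_nonneg_left h2 (hg0 y)
  have hHI : Integrable H (μ.prod (volume.restrict (Ioc s r))) := by
    rw [integrable_prod_iff hHm.aestronglyMeasurable]
    constructor
    · filter_upwards [h.ae] with y hy
      exact (hHy y hy).1
    · refine Integrable.mono' hI ?_ ?_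
      · exact (hHm.norm.stronglyMeasurable.integral_prod_right).aestronglyMeasurable
      · filter_upwards [h.ae] with y hy
        rw [Real.norm_of_nonneg (integral_nonneg fun t => norm_nonneg _)]
        have e1 : ∫ t in Ioc s r, ‖H (y, t)‖ = ∫ t in Ioc s r, H (y, t) := by
          refine setIntegral_congr_fun measurableSet_Ioc fun t ht => ?_
          exact Real.norm_of_nonneg (hH0 y t ht)
        rw [e1]
        exact (hHy y hy).2
  have e1 : ∀ t, ∫ y, H (y, t) ∂μ = (∫ y, g y * D y t ∂μ) / t := by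
    intro t
    simp only [hH]
    rw [integral_div]
  constructor
  · have := hHI.integral_prod_right
    simp only [e1] at this
    exact this
  · have e2 : ∫ t in Ioc s r, (∫ y, g y * D y t ∂μ) / t
        = ∫ y, (∫ t in Ioc s r, H (y, t)) ∂μ := by
      have := integral_integral_swap (f := fun y t => H (y, t)) hHI
      rw [this]
      exact integral_congr_ae (ae_of_all _ fun t => (e1 t).symm)
    rw [e2]
    refine integral_mono_ae hHI.integral_prod_left hI ?_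
    filter_upwards [h.ae] with y hy
    exact (hHy y hy).2

theorem Af_diff (d n K : ℕ) (C₀ : ℝ) (hC₀ : 0 ≤ C₀) : ∃ C : ℝ, 0 < C ∧ ∀ (μ : Measure (X d))
    (S : Set (X d)) (D Ds : X d → ℝ → ℝ), Gr n C₀ μ → Dy n K μ S D Ds → ∀ (z₀ : X d) (s r : ℝ),
      0 < s → s ≤ r → r ≤ 1 → |Af n μ z₀ r r - Af n μ z₀ r s| ≤
        C * ((∫ y, ga (1 / 24) (r⁻¹ • (y - z₀)) * Ds y r ∂μ) +
          Real.sqrt (r ^ n) * Real.sqrt (∫ y, ga (1 / 24) (r⁻¹ • (y - z₀)) * Ds y r ∂μ)) := by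
  obtain ⟨C1, C2, hC1, hC2, H1⟩ := DffA_deriv d n K C₀ hC₀
  refine ⟨C1 * (1 + Real.sqrt C2), by positivity, fun μ S D Ds hG hD z₀ s r hs hsr hr1 => ?_⟩
  have := hD.fin
  have hr : 0 < r := hs.trans_le hsr
  obtain ⟨hT1, hT2⟩ := DffA_tonelli hD z₀ hs hsr hr1
  set m : ℝ := ∫ y, ga (1 / 24) (r⁻¹ • (y - z₀)) * Ds y r ∂μ with hm
  set W : ℝ → ℝ := fun t => (∫ y, ga (1 / 24) (r⁻¹ • (y - z₀)) * D y t ∂μ) / t with hW
  have hm0 : 0 ≤ m := integral_nonneg fun y => mul_nonneg (DffA_ga_pos _ _).le (hD.dsn y r)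
  -- the fundamental theorem of calculus
  have hsub : uIcc s r ⊆ Ioi (0 : ℝ) := by
    rw [uIcc_of_le hsr]
    exact fun t ht => hs.trans_le ht.1
  have hFTC := intervalIntegral.integral_eq_sub_of_hasDerivAt (f := Af n μ z₀ r)
    (f' := fun t => 2 * t ^ n * t⁻¹ * Dt n (blow n 0 t μ) (t ^ 2 / (2 * r ^ 2)) (t⁻¹ • z₀))
    (a := s) (b := r) (fun t ht => Af_deriv n μ z₀ hr (hsub ht))
    ((Af_deriv_cont n μ z₀ hr).mono hsub).intervalIntegrable
  rw [← hFTC]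
  -- the bound for all parameters
  have hkey : ∀ l : ℝ, 0 < l →
      |∫ t in s..r, 2 * t ^ n * t⁻¹ * Dt n (blow n 0 t μ) (t ^ 2 / (2 * r ^ 2)) (t⁻¹ • z₀)|
        ≤ C1 * ((1 + C2 * r ^ n / (2 * l)) * m + l / 4) := by
    intro l hl
    have hWI : IntervalIntegrable W volume s r :=
      (intervalIntegrable_iff_integrableOn_Ioc_of_le hsr).mpr hT1
    have hidI : IntervalIntegrable (fun t : ℝ => l / (2 * r ^ 2) * t) volume s r :=
      (continuous_const.mul continuous_id).intervalIntegrable _ _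
    have h1 := intervalIntegral.norm_integral_le_of_norm_le (μ := volume)
      (f := fun t => 2 * t ^ n * t⁻¹ * Dt n (blow n 0 t μ) (t ^ 2 / (2 * r ^ 2)) (t⁻¹ • z₀))
      (g := fun t => C1 * ((1 + C2 * r ^ n / (2 * l)) * W t + l / (2 * r ^ 2) * t)) hsr
      (ae_of_all _ fun t ht => H1 μ S D Ds hG hD z₀ r t l (hs.trans ht.1) ht.2 hr1 hl)
      (((hWI.const_mul _).add hidI).const_mul _)
    rw [Real.norm_eq_abs] at h1
    refine h1.trans ?_
    rw [intervalIntegral.integral_const_mul,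
      intervalIntegral.integral_add (hWI.const_mul _) hidI,
      intervalIntegral.integral_const_mul, intervalIntegral.integral_const_mul, integral_id,
      intervalIntegral.integral_of_le hsr]
    have h2 : l / (2 * r ^ 2) * ((r ^ 2 - s ^ 2) / 2) ≤ l / 4 := by
      have : l / (2 * r ^ 2) * ((r ^ 2 - s ^ 2) / 2) = l / 4 - l * s ^ 2 / (4 * r ^ 2) := by
        field_simp
        ring
      rw [this]
      have : 0 ≤ l * s ^ 2 / (4 * r ^ 2) := by positivity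
      linarith
    have h3 : (1 + C2 * r ^ n / (2 * l)) * (∫ t in Ioc s r, W t)
        ≤ (1 + C2 * r ^ n / (2 * l)) * m := mul_le_mul_of_nonneg_left hT2 (by positivity)
    exact mul_le_mul_of_nonneg_left (add_le_add h3 h2) hC1.le
  -- the choice of the parameter
  have hsq : Real.sqrt (C2 * r ^ n * m) = Real.sqrt C2 * (Real.sqrt (r ^ n) * Real.sqrt m) := by
    rw [mul_assoc, Real.sqrt_mul hC2.le, Real.sqrt_mul (by positivity)]
  have hfin : |∫ t in s..r, 2 * t ^ n * t⁻¹ *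
      Dt n (blow n 0 t μ) (t ^ 2 / (2 * r ^ 2)) (t⁻¹ • z₀)|
        ≤ C1 * (m + Real.sqrt (C2 * r ^ n * m)) := by
    refine le_of_forall_pos_le_add fun ε hε => ?_
    set q : ℝ := Real.sqrt (C2 * r ^ n * m) with hq
    have hq0 : 0 ≤ q := Real.sqrt_nonneg _
    have hq2 : q ^ 2 = C2 * r ^ n * m := Real.sq_sqrt (by positivity)
    set e : ℝ := ε / C1 with he
    have he0 : 0 < e := by positivity
    have h1 := hkey (q + e) (by positivity)
    refine h1.trans ?_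
    have h2 : (1 + C2 * r ^ n / (2 * (q + e))) * m = m + q ^ 2 / (2 * (q + e)) := by
      rw [hq2]
      ring
    rw [h2]
    have h3 : q ^ 2 / (2 * (q + e)) ≤ q / 2 := by
      rw [div_le_div_iff₀ (by positivity) (by norm_num)]
      nlinarith [mul_nonneg hq0 he0.le]
    have h4 : C1 * e = ε := by
      rw [he]
      field_simp
    calc C1 * (m + q ^ 2 / (2 * (q + e)) + (q + e) / 4)
        ≤ C1 * (m + q / 2 + (q + e) / 4) := by gcongr
      _ ≤ C1 * (m + q + e) := by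
          apply mul_le_mul_of_nonneg_left _ hC1.le
          linarith
      _ = C1 * (m + q) + ε := by rw [← h4]; ring
  refine hfin.trans ?_
  rw [hsq]
  have h5 : 0 ≤ Real.sqrt (r ^ n) * Real.sqrt m := by positivity
  have h6 : 0 ≤ Real.sqrt C2 := Real.sqrt_nonneg _
  have h7 : C1 * (m + Real.sqrt C2 * (Real.sqrt (r ^ n) * Real.sqrt m))
      ≤ C1 * ((1 + Real.sqrt C2) * (m + Real.sqrt (r ^ n) * Real.sqrt m)) := by
    apply mul_le_mul_of_nonneg_left _ hC1.le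
    nlinarith [mul_nonneg h6 hm0]
  calc C1 * (m + Real.sqrt C2 * (Real.sqrt (r ^ n) * Real.sqrt m))
      ≤ C1 * ((1 + Real.sqrt C2) * (m + Real.sqrt (r ^ n) * Real.sqrt m)) := h7
    _ = C1 * (1 + Real.sqrt C2) * (m + Real.sqrt (r ^ n) * Real.sqrt m) := by ring

end Pool.Agent.H1.LD
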