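import Pool.Agent.H1.LD.DynB
import Pool.Agent.H1.LD.DynA

/-!
Af_same.  ν = blow n 0 r μ, z = r⁻¹•z₀.  r⁻¹^n Af n μ z₀ r r = ∫ ga (1/2)(y-z) (th ν (1/2) y^2 + ‖Uv ν (1/2) y‖^2) dν (integral_blow: y = r⁻¹•y', r⁻¹•(y'-z₀) = y - z), tT n μ r z₀ = th ν (1/2) z = ∫ ga (1/2)(y-z) dν(y),
so the left side is ≤ ∫ ga (1/2)(y-z) |th^2 + ‖U‖^2 - th z^2| dν: same_scale with Dy.sd (t = r).  D z₀ r ≤ Ds z₀ r; Wm ν (D(r•·) r) (1/24) z = r⁻¹^n ∫ ga (1/24)(r⁻¹•(y-z₀)) D y r dμ ≤ the same with Ds y r (a.e. y in S; Ds y r ≤ Ds y 1 integrable).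
-/

set_option autoImplicit false

open MeasureTheory Filter Topology Metric Set
open scoped RealInnerProductSpace ENNReal

namespace Pool.Agent.H1.LD

open Pool.Agent.RZ

variable {d : ℕ}

private theorem DffB_int {ν : Measure (X d)} [IsFiniteMeasure ν] (z : X d) {C : ℝ}
    (hb : ∀ y, th ν (1 / 2) y ^ 2 + ‖Uv ν (1 / 2) y‖ ^ 2 ≤ C) :
    Integrable (fun y => ga (1 / 2) (y - z) *
      (th ν (1 / 2) y ^ 2 + ‖Uv ν (1 / 2) y‖ ^ 2)) ν := by
  have hc : Continuous fun y : X d => ga (1 / 2) (y - z) *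
      (th ν (1 / 2) y ^ 2 + ‖Uv ν (1 / 2) y‖ ^ 2) := by
    have h1 : Continuous fun y : X d => ga (1 / 2) (y - z) :=
      (ga_continuous (1 / 2)).comp (continuous_id.sub continuous_const)
    have h2 : Continuous (th ν (1 / 2)) := th_continuous ν (by norm_num)
    have h3 : Continuous (Uv ν (1 / 2)) := Uv_continuous ν (by norm_num)
    exact h1.mul ((h2.pow 2).add (h3.norm.pow 2))
  refine (integrable_const C).mono' hc.aestronglyMeasurable (Eventually.of_forall fun y => ?_)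
  have hn : 0 ≤ th ν (1 / 2) y ^ 2 + ‖Uv ν (1 / 2) y‖ ^ 2 := by positivity
  rw [Real.norm_of_nonneg (mul_nonneg (ga_nonneg _ _) hn)]
  calc ga (1 / 2) (y - z) * (th ν (1 / 2) y ^ 2 + ‖Uv ν (1 / 2) y‖ ^ 2)
      ≤ 1 * (th ν (1 / 2) y ^ 2 + ‖Uv ν (1 / 2) y‖ ^ 2) :=
        mul_le_mul_of_nonneg_right (ga_le_one (by norm_num) _) hn
    _ ≤ C := by rw [one_mul]; exact hb y

/-- the comparison at unit scale: subtract a constant from the energy density -/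
private theorem DffB_unit {ν : Measure (X d)} [IsFiniteMeasure ν] (z : X d) {C : ℝ}
    (hb : ∀ y, th ν (1 / 2) y ^ 2 + ‖Uv ν (1 / 2) y‖ ^ 2 ≤ C) :
    |∫ y, ga (1 / 2) (y - z) * (th ν (1 / 2) y ^ 2 + ‖Uv ν (1 / 2) y‖ ^ 2) ∂ν
        - th ν (1 / 2) z ^ 3| ≤
      ∫ y, ga (1 / 2) (y - z) * |th ν (1 / 2) y ^ 2 + ‖Uv ν (1 / 2) y‖ ^ 2
        - th ν (1 / 2) z ^ 2| ∂ν := by
  have hI := DffB_int z hb
  have hg : Integrable (fun y : X d => ga (1 / 2) (y - z)) ν := by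
    have hc : Continuous fun y : X d => ga (1 / 2) (y - z) :=
      (ga_continuous (1 / 2)).comp (continuous_id.sub continuous_const)
    refine (integrable_const (1 : ℝ)).mono' hc.aestronglyMeasurable
      (Eventually.of_forall fun y => ?_)
    rw [Real.norm_of_nonneg (ga_nonneg _ _)]
    exact ga_le_one (by norm_num) _
  have h3 : th ν (1 / 2) z ^ 3 = ∫ y, ga (1 / 2) (y - z) * th ν (1 / 2) z ^ 2 ∂ν := by
    rw [integral_mul_const]
    change th ν (1 / 2) z ^ 3 = th ν (1 / 2) z * th ν (1 / 2) z ^ 2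
    ring
  rw [h3, ← integral_sub hI (hg.mul_const _)]
  refine (abs_integral_le_integral_abs).trans (le_of_eq ?_)
  refine integral_congr_ae (Eventually.of_forall fun y => ?_)
  simp only
  rw [← mul_sub, abs_mul, abs_of_nonneg (ga_nonneg (1 / 2) (y - z))]

private theorem DffB_Wm {n K : ℕ} {μ : Measure (X d)} {S : Set (X d)} {D Ds : X d → ℝ → ℝ}
    (h : Dy n K μ S D Ds) (z₀ : X d) {r : ℝ} (hr : 0 < r) (hr1 : r ≤ 1) :
    Wm (blow n 0 r μ) (fun y => D (r • y) r) (1 / 24) (r⁻¹ • z₀) ≤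
      r⁻¹ ^ n * ∫ y, ga (1 / 24) (r⁻¹ • (y - z₀)) * Ds y r ∂μ := by
  have h1 : Wm (blow n 0 r μ) (fun y => D (r • y) r) (1 / 24) (r⁻¹ • z₀) =
      r⁻¹ ^ n * ∫ y, ga (1 / 24) (r⁻¹ • (y - z₀)) * D y r ∂μ := by
    unfold Wm
    rw [integral_blow n 0 hr μ]
    congr 1
    refine integral_congr_ae (Eventually.of_forall fun y => ?_)
    simp only [sub_zero]
    rw [smul_smul, mul_inv_cancel₀ hr.ne', one_smul, ← smul_sub]
  rw [h1]
  refine mul_le_mul_of_nonneg_left ?_ (by positivity)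
  have hgc : Continuous fun y : X d => ga (1 / 24) (r⁻¹ • (y - z₀)) :=
    (ga_continuous (1 / 24)).comp ((continuous_id.sub continuous_const).const_smul r⁻¹)
  have hint : Integrable (fun y => ga (1 / 24) (r⁻¹ • (y - z₀)) * Ds y r) μ := by
    refine h.fin1.mono' (hgc.measurable.mul (h.dsm r)).aestronglyMeasurable ?_
    filter_upwards [h.ae] with y hy
    rw [Real.norm_of_nonneg (mul_nonneg (ga_nonneg _ _) (h.dsn y r))]
    calc ga (1 / 24) (r⁻¹ • (y - z₀)) * Ds y r ≤ 1 * Ds y r :=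
          mul_le_mul_of_nonneg_right (ga_le_one (by norm_num) _) (h.dsn y r)
      _ = Ds y r := one_mul _
      _ ≤ Ds y 1 := h.mono y hy r 1 hr hr1 le_rfl
  refine integral_mono_of_nonneg (Eventually.of_forall fun y => ?_) hint ?_
  · exact mul_nonneg (ga_nonneg _ _) (h.nn y r)
  · filter_upwards [h.ae] with y hy
    exact mul_le_mul_of_nonneg_left (h.le y hy r r hr le_rfl hr1) (ga_nonneg _ _)

/-- the energy at time `t = r` -/
theorem Af_same (d n K : ℕ) (C₀ : ℝ) (hC₀ : 0 ≤ C₀) : ∃ C : ℝ, 0 < C ∧ ∀ (μ : Measure (X d))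
    (S : Set (X d)) (D Ds : X d → ℝ → ℝ), Gr n C₀ μ → Dy n K μ S D Ds → ∀ z₀ ∈ S, ∀ r : ℝ,
      0 < r → r ≤ 1 → |r⁻¹ ^ n * Af n μ z₀ r r - tT n μ r z₀ ^ 3| ≤
        C * (Real.sqrt (Ds z₀ r) +
          Real.sqrt (r⁻¹ ^ n * ∫ y, ga (1 / 24) (r⁻¹ • (y - z₀)) * Ds y r ∂μ) +
          r⁻¹ ^ n * ∫ y, ga (1 / 24) (r⁻¹ • (y - z₀)) * Ds y r ∂μ) := by
  obtain ⟨C, hC, H⟩ := same_scale d n K C₀ hC₀
  obtain ⟨B, hB, HB⟩ := fT_bound d n C₀ hC₀
  refine ⟨C, hC, ?_⟩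
  intro μ S D Ds hG h z₀ hz₀ r hr hr1
  have hsd := h.sd hr hr1
  have hGν : Gr n C₀ (blow n 0 r μ) := hG.blow 0 hr
  have hzS : r⁻¹ • z₀ ∈ {y : X d | r • y ∈ S} := by
    rw [mem_ofPred_eq, smul_smul, mul_inv_cancel₀ hr.ne', one_smul]
    exact hz₀
  have hH := H (blow n 0 r μ) _ _ hGν hsd (r⁻¹ • z₀) hzS
  have : IsFiniteMeasure (blow n 0 r μ) := hsd.fin
  have hb : ∀ y, th (blow n 0 r μ) (1 / 2) y ^ 2 + ‖Uv (blow n 0 r μ) (1 / 2) y‖ ^ 2 ≤ B := by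
    intro y
    have := (HB μ hG r hr (r • y)).2.2.2
    unfold fT at this
    rw [smul_smul, inv_mul_cancel₀ hr.ne', one_smul] at this
    exact this
  have hA : r⁻¹ ^ n * Af n μ z₀ r r = ∫ y, ga (1 / 2) (y - r⁻¹ • z₀) *
      (th (blow n 0 r μ) (1 / 2) y ^ 2 + ‖Uv (blow n 0 r μ) (1 / 2) y‖ ^ 2)
        ∂(blow n 0 r μ) := by
    rw [integral_blow n 0 hr μ]
    unfold Af fT
    congr 1
    refine integral_congr_ae (Eventually.of_forall fun y => ?_)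
    simp only [sub_zero]
    rw [← smul_sub]
  rw [hA]
  change |_ - th (blow n 0 r μ) (1 / 2) (r⁻¹ • z₀) ^ 3| ≤ _
  refine (DffB_unit (r⁻¹ • z₀) hb).trans (hH.trans ?_)
  refine mul_le_mul_of_nonneg_left ?_ hC.le
  have hW := DffB_Wm h z₀ hr hr1
  have hD : D (r • r⁻¹ • z₀) r ≤ Ds z₀ r := by
    rw [smul_smul, mul_inv_cancel₀ hr.ne', one_smul]
    exact h.le z₀ hz₀ r r hr le_rfl hr1
  exact add_le_add (add_le_add (Real.sqrt_le_sqrt hD) (Real.sqrt_le_sqrt hW)) hW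

end Pool.Agent.H1.LD
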