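import Pool.Agent.H1.LD.DynB

/-!
Dominated convergence (μ finite, all integrands bounded and continuous in the parameter; near a fixed t > 0 bounded uniformly); use tT_eq, Uv_blow; or continuity of th, Uv from EigA for fT_continuous.
-/

set_option autoImplicit false

open MeasureTheory Filter Topology Metric Set
open scoped RealInnerProductSpace ENNReal

namespace Pool.Agent.H1.LD

open Pool.Agent.RZ

variable {d : ℕ}

private theorem DynC_finite (n : ℕ) (x : X d) (r : ℝ) (μ : Measure (X d)) [IsFiniteMeasure μ] :
    IsFiniteMeasure (blow n x r μ) := by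
  unfold blow
  exact Measure.smul_finite _ ENNReal.ofReal_ne_top

theorem fT_continuous (n : ℕ) (μ : Measure (X d)) [IsFiniteMeasure μ] {t : ℝ} (ht : 0 < t) :
    Continuous (fT n μ t) := by
  have := DynC_finite n 0 t μ
  have h1 : Continuous fun y : X d => t⁻¹ • y := continuous_const_smul _
  have h2 := (th_continuous (blow n 0 t μ) (b := 1 / 2) (by norm_num)).comp h1
  have h3 := (Uv_continuous (blow n 0 t μ) (b := 1 / 2) (by norm_num)).comp h1
  unfold fT
  exact (h2.pow 2).add (h3.norm.pow 2)

theorem tT_continuous_scale (n : ℕ) (μ : Measure (X d)) [IsFiniteMeasure μ] (y : X d) :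
    ContinuousOn (fun t => tT n μ t y) (Ioi 0) := by
  have h1 : ContinuousOn (fun t : ℝ => t⁻¹ ^ n * ∫ x, ga (1 / 2) (t⁻¹ • (x - y)) ∂μ) (Ioi 0) := by
    have hinv : ContinuousOn (fun t : ℝ => t⁻¹) (Ioi 0) :=
      continuousOn_id.inv₀ fun t ht => (ne_of_gt ht)
    apply ContinuousOn.mul (hinv.pow n)
    apply continuousOn_of_dominated (bound := fun _ => (1 : ℝ))
    · intro t _
      apply Continuous.aestronglyMeasurable
      exact (ga_continuous _).comp (by fun_prop)
    · intro t _
      refine Eventually.of_forall fun x => ?_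
      rw [Real.norm_of_nonneg (ga_nonneg _ _)]
      exact ga_le_one (by norm_num) _
    · exact integrable_const _
    · refine Eventually.of_forall fun x => ?_
      exact (ga_continuous (1 / 2)).comp_continuousOn (hinv.smul continuousOn_const)
  refine h1.congr fun t ht => ?_
  exact tT_eq n μ ht y

end Pool.Agent.H1.LD
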