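import Pool.Agent.H1.LD.Dyn
import Pool.Agent.RZ.J4a

/-!
gauss_leb.  By leb_points (RZ.J4a) for a.e. z: r⁻¹^n ∫_{closedBall z r} |g y - g z| dμ → 0 =: ω(r).  Fix such z; G(y) = |g y - g z| is integrable.  ω is bounded on (0, ∞) (near 0 because it
 tends to 0, away from 0 because G is integrable).  ga b (r⁻¹•(y-z)) ≤ ∑_j exp(-b j^2) 1_{|y-z| ≤ (j+1) r}, so the quantity is at most ∑_j exp(-b j^2) (j+1)^n ω((j+1) r) → 0 by dominated
 convergence for sums.
-/

set_option autoImplicit false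

open MeasureTheory Filter Topology Metric Set
open scoped RealInnerProductSpace ENNReal

namespace Pool.Agent.H1.LD

open Pool.Agent.RZ

variable {d : ℕ}

private theorem lebA_sum (n : ℕ) {b : ℝ} (hb : 0 < b) :
    Summable fun j : ℕ => Real.exp (-(b * (j : ℝ) ^ 2)) * ((j : ℝ) + 1) ^ n := by
  have h0 := Real.summable_pow_mul_exp_neg_nat_mul n hb
  have h1 := ((summable_nat_add_iff 1).2 h0).mul_left (Real.exp b)
  refine Summable.of_nonneg_of_le (fun j => by positivity) (fun j => ?_) h1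
  have hj : (j : ℝ) ≤ (j : ℝ) ^ 2 := by
    rcases Nat.eq_zero_or_pos j with h | h
    · simp [h]
    · have : (1 : ℝ) ≤ j := by exact_mod_cast h
      nlinarith
  have e1 : Real.exp b * ((((j + 1 : ℕ) : ℝ)) ^ n * Real.exp (-b * ((j + 1 : ℕ) : ℝ)))
      = Real.exp (-(b * (j : ℝ))) * ((j : ℝ) + 1) ^ n := by
    push_cast
    rw [mul_left_comm, ← Real.exp_add, mul_comm]
    congr 2
    ring
  rw [e1]
  exact mul_le_mul_of_nonneg_right
    (Real.exp_le_exp.2 (neg_le_neg (mul_le_mul_of_nonneg_left hj hb.le))) (by positivity)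

private theorem lebA_sum0 {b : ℝ} (hb : 0 < b) :
    Summable fun j : ℕ => Real.exp (-(b * (j : ℝ) ^ 2)) := by
  simpa using lebA_sum 0 hb

private theorem lebA_pt {b : ℝ} (hb : 0 < b) {r : ℝ} (hr : 0 < r) (x y : X d) :
    ga b (r⁻¹ • (y - x)) ≤ ∑' j : ℕ, (closedBall x (((j : ℝ) + 1) * r)).indicator
      (fun _ => Real.exp (-(b * (j : ℝ) ^ 2))) y := by
  have hs : Summable fun j : ℕ => (closedBall x (((j : ℝ) + 1) * r)).indicator
      (fun _ => Real.exp (-(b * (j : ℝ) ^ 2))) y := by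
    refine Summable.of_nonneg_of_le (fun j => ?_) (fun j => ?_) (lebA_sum0 hb)
    · exact indicator_nonneg (fun _ _ => (Real.exp_pos _).le) _
    · exact indicator_le_self' (fun _ _ => (Real.exp_pos _).le) _
  set t : ℝ := ‖y - x‖ / r with ht
  have ht0 : 0 ≤ t := by positivity
  have hmem : y ∈ closedBall x (((⌊t⌋₊ : ℝ) + 1) * r) := by
    rw [mem_closedBall, dist_eq_norm]
    have h1 : t < (⌊t⌋₊ : ℝ) + 1 := Nat.lt_floor_add_one t
    have h2 : ‖y - x‖ = t * r := by rw [ht]; field_simp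
    rw [h2]
    exact mul_le_mul_of_nonneg_right h1.le hr.le
  refine le_trans ?_ (hs.le_tsum ⌊t⌋₊ fun j _ => indicator_nonneg (fun _ _ => (Real.exp_pos _).le) _)
  rw [indicator_of_mem hmem]
  unfold ga
  apply Real.exp_le_exp.2
  apply neg_le_neg
  apply mul_le_mul_of_nonneg_left _ hb.le
  have h3 : ‖r⁻¹ • (y - x)‖ = t := by
    rw [norm_smul, Real.norm_eq_abs, abs_of_pos (inv_pos.2 hr), ht]
    ring
  rw [h3]
  exact pow_le_pow_left₀ (Nat.cast_nonneg _) (Nat.floor_le ht0) 2

private theorem lebA_int {μ : Measure (X d)} {G : X d → ℝ} (hG : Integrable G μ)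
    (hG0 : ∀ y, 0 ≤ G y) {b : ℝ} (hb : 0 < b) {r : ℝ} (hr : 0 < r) (x : X d) :
    ∫ y, ga b (r⁻¹ • (y - x)) * G y ∂μ ≤
      ∑' j : ℕ, Real.exp (-(b * (j : ℝ) ^ 2)) * ∫ y in closedBall x (((j : ℝ) + 1) * r), G y ∂μ := by
  set F : ℕ → X d → ℝ := fun j => (closedBall x (((j : ℝ) + 1) * r)).indicator
      (fun y => Real.exp (-(b * (j : ℝ) ^ 2)) * G y) with hF
  have hFi : ∀ j, Integrable (F j) μ := fun j =>
    (hG.const_mul _).indicator measurableSet_closedBall
  have hF0 : ∀ j y, 0 ≤ F j y := fun j y =>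
    indicator_nonneg (fun z _ => mul_nonneg (Real.exp_pos _).le (hG0 z)) _
  have hFint : ∀ j, ∫ y, F j y ∂μ =
      Real.exp (-(b * (j : ℝ) ^ 2)) * ∫ y in closedBall x (((j : ℝ) + 1) * r), G y ∂μ := by
    intro j
    rw [hF]
    simp only
    rw [integral_indicator measurableSet_closedBall, integral_const_mul]
  have hsum : Summable fun j => ∫ y, ‖F j y‖ ∂μ := by
    refine Summable.of_nonneg_of_le (fun j => integral_nonneg fun y => norm_nonneg _)
      (fun j => ?_) ((lebA_sum0 hb).mul_right (∫ y, G y ∂μ))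
    have : ∫ y, ‖F j y‖ ∂μ = ∫ y, F j y ∂μ :=
      integral_congr_ae (Eventually.of_forall fun y => by
        simp only
        rw [Real.norm_eq_abs, abs_of_nonneg (hF0 j y)])
    rw [this, hFint]
    exact mul_le_mul_of_nonneg_left
      (setIntegral_le_integral hG (Eventually.of_forall hG0)) (Real.exp_pos _).le
  have hts := integral_tsum_of_summable_integral_norm hFi hsum
  have hhs := hasSum_integral_of_summable_integral_norm hFi hsum
  have hint : Integrable (fun y => ∑' j, F j y) μ := by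
    have hle : ∀ y, ∑' j, F j y ≤ (∑' j : ℕ, Real.exp (-(b * (j : ℝ) ^ 2))) * G y := by
      intro y
      rw [← tsum_mul_right]
      have hs2 : Summable fun j : ℕ => Real.exp (-(b * (j : ℝ) ^ 2)) * G y :=
        (lebA_sum0 hb).mul_right _
      refine Summable.tsum_le_tsum (fun j => ?_) ?_ hs2
      · exact indicator_le_self' (fun _ _ => mul_nonneg (Real.exp_pos _).le (hG0 y)) _
      · refine Summable.of_nonneg_of_le (fun j => hF0 j y) (fun j => ?_) hs2
        exact indicator_le_self' (fun _ _ => mul_nonneg (Real.exp_pos _).le (hG0 y)) _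
    refine Integrable.mono' (hG.const_mul (∑' j : ℕ, Real.exp (-(b * (j : ℝ) ^ 2)))) ?_
      (Eventually.of_forall fun y => ?_)
    · have hm : ∀ j, AEStronglyMeasurable (F j) μ := fun j => (hFi j).aestronglyMeasurable
      have hs2 : ∀ y, Summable fun j : ℕ => F j y := by
        intro y
        refine Summable.of_nonneg_of_le (fun j => hF0 j y) (fun j => ?_)
          ((lebA_sum0 hb).mul_right (G y))
        exact indicator_le_self' (fun _ _ => mul_nonneg (Real.exp_pos _).le (hG0 y)) _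
      refine aestronglyMeasurable_of_tendsto_ae atTop
        (f := fun N y => ∑ j ∈ Finset.range N, F j y) (fun N => ?_)
        (Eventually.of_forall fun y => (hs2 y).hasSum.tendsto_sum_nat)
      exact Finset.aestronglyMeasurable_fun_sum _ fun j _ => hm j
    · rw [Real.norm_eq_abs, abs_of_nonneg (tsum_nonneg fun j => hF0 j y)]
      exact hle y
  have hle2 : ∀ y, ga b (r⁻¹ • (y - x)) * G y ≤ ∑' j, F j y := by
    intro y
    have h1 := mul_le_mul_of_nonneg_right (lebA_pt hb hr x y) (hG0 y)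
    refine h1.trans (le_of_eq ?_)
    rw [← tsum_mul_right]
    refine tsum_congr fun j => ?_
    simp only [hF]
    by_cases hy : y ∈ closedBall x (((j : ℝ) + 1) * r)
    · rw [indicator_of_mem hy, indicator_of_mem hy]
    · rw [indicator_of_notMem hy, indicator_of_notMem hy, zero_mul]
  calc ∫ y, ga b (r⁻¹ • (y - x)) * G y ∂μ ≤ ∫ y, ∑' j, F j y ∂μ := by
        refine integral_mono_of_nonneg (Eventually.of_forall fun y => ?_) hint
          (Eventually.of_forall hle2)
        exact mul_nonneg (Real.exp_pos _).le (hG0 y)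
    _ = ∑' j, ∫ y, F j y ∂μ := hts.symm
    _ = _ := tsum_congr hFint

theorem gauss_leb {n : ℕ} {μ : Measure (X d)} [IsFiniteMeasure μ] {C : ℝ} (hC : 0 ≤ C)
    (hg : Gr n C μ) {g : X d → ℝ} (hi : Integrable g μ) {b : ℝ} (hb : 0 < b) :
    ∀ᵐ z ∂μ, Tendsto (fun r : ℝ => r⁻¹ ^ n * ∫ y, ga b (r⁻¹ • (y - z)) * |g y - g z| ∂μ)
      (𝓝[>] 0) (𝓝 0) := by
  filter_upwards [leb_points hC hg hi.locallyIntegrable] with z hz
  set G : X d → ℝ := fun y => |g y - g z| with hGd
  have hG : Integrable G μ := (hi.sub (integrable_const _)).abs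
  have hG0 : ∀ y, 0 ≤ G y := fun y => abs_nonneg _
  set ω : ℝ → ℝ := fun r => r⁻¹ ^ n * ∫ y in closedBall z r, G y ∂μ with hω
  have hω0 : ∀ r, 0 < r → 0 ≤ ω r := fun r hr =>
    mul_nonneg (by positivity) (setIntegral_nonneg measurableSet_closedBall fun y _ => hG0 y)
  -- a bound for all scales
  obtain ⟨W, hW⟩ : ∃ W, ∀ r, 0 < r → ω r ≤ W := by
    have h1 : ∀ᶠ r in 𝓝[>] (0 : ℝ), ω r < 1 := hz.eventually (gt_mem_nhds one_pos)
    rw [eventually_nhdsWithin_iff, Metric.eventually_nhds_iff] at h1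
    obtain ⟨ρ, hρ, h2⟩ := h1
    refine ⟨max 1 (ρ⁻¹ ^ n * ∫ y, G y ∂μ), fun r hr => ?_⟩
    by_cases hrr : r < ρ
    · refine le_max_of_le_left (h2 ?_ hr).le
      rw [Real.dist_eq, sub_zero, abs_of_pos hr]
      exact hrr
    · refine le_max_of_le_right ?_
      push Not at hrr
      refine mul_le_mul ?_ (setIntegral_le_integral hG (Eventually.of_forall hG0))
        (setIntegral_nonneg measurableSet_closedBall fun y _ => hG0 y) (by positivity)
      exact pow_le_pow_left₀ (inv_pos.2 hr).le (inv_anti₀ hρ hrr) n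
  have hW0 : 0 ≤ W := (hω0 1 one_pos).trans (hW 1 one_pos)
  -- the dominated sum
  have hT : Tendsto (fun r : ℝ => ∑' j : ℕ,
      (Real.exp (-(b * (j : ℝ) ^ 2)) * ((j : ℝ) + 1) ^ n) * ω (((j : ℝ) + 1) * r))
      (𝓝[>] 0) (𝓝 (∑' _ : ℕ, (0 : ℝ))) := by
    refine tendsto_tsum_of_dominated_convergence
      (bound := fun j : ℕ => (Real.exp (-(b * (j : ℝ) ^ 2)) * ((j : ℝ) + 1) ^ n) * W)
      ((lebA_sum n hb).mul_right W) (fun j => ?_) ?_
    · have hj : (0 : ℝ) < (j : ℝ) + 1 := by positivity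
      have h3 : Tendsto (fun r : ℝ => ((j : ℝ) + 1) * r) (𝓝[>] 0) (𝓝[>] 0) := by
        refine tendsto_nhdsWithin_iff.2 ⟨?_, ?_⟩
        · have : Tendsto (fun r : ℝ => ((j : ℝ) + 1) * r) (𝓝 0) (𝓝 (((j : ℝ) + 1) * 0)) :=
            tendsto_id.const_mul _
          rw [mul_zero] at this
          exact this.mono_left nhdsWithin_le_nhds
        · filter_upwards [self_mem_nhdsWithin] with r hr
          exact mul_pos hj hr
      have h4 := (hz.comp h3).const_mul (Real.exp (-(b * (j : ℝ) ^ 2)) * ((j : ℝ) + 1) ^ n)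
      rw [mul_zero] at h4
      exact h4
    · filter_upwards [self_mem_nhdsWithin] with r hr j
      have hr' : (0 : ℝ) < r := hr
      have hp : (0 : ℝ) < ((j : ℝ) + 1) * r := by positivity
      rw [Real.norm_eq_abs, abs_of_nonneg (mul_nonneg (by positivity) (hω0 _ hp))]
      exact mul_le_mul_of_nonneg_left (hW _ hp) (by positivity)
  rw [tsum_zero] at hT
  refine squeeze_zero' ?_ ?_ hT
  · filter_upwards [self_mem_nhdsWithin] with r hr
    have hr' : (0 : ℝ) < r := hr
    exact mul_nonneg (by positivity)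
      (integral_nonneg fun y => mul_nonneg (Real.exp_pos _).le (hG0 y))
  · filter_upwards [self_mem_nhdsWithin] with r hr
    have hr' : (0 : ℝ) < r := hr
    have h5 := mul_le_mul_of_nonneg_left (lebA_int hG hG0 hb hr' z)
      (show (0 : ℝ) ≤ r⁻¹ ^ n by positivity)
    refine h5.trans (le_of_eq ?_)
    rw [← tsum_mul_left]
    refine tsum_congr fun j => ?_
    have hj : (0 : ℝ) < (j : ℝ) + 1 := by positivity
    rw [hω]
    simp only
    have e2 : (((j : ℝ) + 1) * r)⁻¹ ^ n = (((j : ℝ) + 1) ^ n)⁻¹ * r⁻¹ ^ n := by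
      rw [mul_inv, mul_pow, inv_pow, inv_pow]
    rw [e2]
    field_simp

end Pool.Agent.H1.LD
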