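import Pool.Agent.H1.LD.Dyn

/-!
tT_eq, Uv_blow: integral_blow and its vector valued version (prove it privately: same proof; or componentwise via inner products).  fT_bound: Gr.blow, th_growth, mom_growth with blow n 0 t μ.
-/

set_option autoImplicit false

open MeasureTheory Filter Topology Metric Set
open scoped RealInnerProductSpace ENNReal

namespace Pool.Agent.H1.LD

open Pool.Agent.RZ

variable {d : ℕ}

private theorem DynB_integral_blow {E : Type*} [NormedAddCommGroup E] [NormedSpace ℝ E]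
    (n : ℕ) (x : X d) {r : ℝ} (hr : 0 < r) (ν : Measure (X d)) (f : X d → E) :
    ∫ z, f z ∂(blow n x r ν) = r⁻¹ ^ n • ∫ y, f (r⁻¹ • (y - x)) ∂ν := by
  unfold blow
  rw [integral_smul_measure, ENNReal.toReal_ofReal (by positivity)]
  congr 1
  have h := (Bl1_hom x hr).measurableEmbedding.integral_map (μ := ν) f
  rw [Bl1_hom_apply x hr] at h
  exact h

private theorem DynB_arg (t : ℝ) (x y : X d) : t⁻¹ • (x - 0) - t⁻¹ • y = t⁻¹ • (x - y) := by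
  rw [sub_zero, smul_sub]

theorem tT_eq (n : ℕ) (μ : Measure (X d)) {t : ℝ} (ht : 0 < t) (y : X d) :
    tT n μ t y = t⁻¹ ^ n * ∫ x, ga (1 / 2) (t⁻¹ • (x - y)) ∂μ := by
  unfold tT th
  rw [integral_blow n 0 ht]
  congr 1
  refine integral_congr_ae (Eventually.of_forall fun x => ?_)
  simp only [DynB_arg]

theorem Uv_blow (n : ℕ) (μ : Measure (X d)) {t : ℝ} (ht : 0 < t) (y : X d) :
    Uv (blow n 0 t μ) (1 / 2) (t⁻¹ • y) =
      t⁻¹ ^ n • ∫ x, ga (1 / 2) (t⁻¹ • (x - y)) • (t⁻¹ • (x - y)) ∂μ := by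
  unfold Uv
  rw [DynB_integral_blow n 0 ht]
  congr 1
  refine integral_congr_ae (Eventually.of_forall fun x => ?_)
  simp only [DynB_arg]

/-- the energy density is bounded -/
theorem fT_bound (d n : ℕ) (C₀ : ℝ) (hC₀ : 0 ≤ C₀) : ∃ C : ℝ, 0 < C ∧ ∀ μ : Measure (X d),
    Gr n C₀ μ → ∀ t : ℝ, 0 < t → ∀ y, 0 ≤ tT n μ t y ∧ tT n μ t y ≤ C ∧
      0 ≤ fT n μ t y ∧ fT n μ t y ≤ C := by
  obtain ⟨C₁, hC₁, h₁⟩ := th_growth d n (b := 1 / 2) (by norm_num) C₀ hC₀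
  obtain ⟨C₂, hC₂, h₂⟩ := mom_growth d n 1 (b := 1 / 2) (by norm_num) C₀ hC₀
  refine ⟨C₁ + C₁ ^ 2 + C₂ ^ 2, by positivity, fun μ hμ t ht y => ?_⟩
  have hb : Gr n C₀ (blow n 0 t μ) := Gr.blow hμ 0 ht
  have hth := h₁ _ hb (t⁻¹ • y)
  have hth0 : 0 ≤ th (blow n 0 t μ) (1 / 2) (t⁻¹ • y) :=
    integral_nonneg fun x => ga_nonneg _ _
  obtain ⟨hint, hmom⟩ := h₂ _ hb (t⁻¹ • y)
  have hU : ‖Uv (blow n 0 t μ) (1 / 2) (t⁻¹ • y)‖ ≤ C₂ := by
    refine le_trans (norm_integral_le_of_norm_le hint (Eventually.of_forall fun x => ?_)) hmom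
    rw [norm_smul, Real.norm_of_nonneg (ga_nonneg _ _), pow_one, mul_comm]
    exact mul_le_mul_of_nonneg_right (by linarith) (ga_nonneg _ _)
  have hU0 := norm_nonneg (Uv (blow n 0 t μ) (1 / 2) (t⁻¹ • y))
  have hsq1 : th (blow n 0 t μ) (1 / 2) (t⁻¹ • y) ^ 2 ≤ C₁ ^ 2 := pow_le_pow_left₀ hth0 hth 2
  have hsq2 : ‖Uv (blow n 0 t μ) (1 / 2) (t⁻¹ • y)‖ ^ 2 ≤ C₂ ^ 2 := pow_le_pow_left₀ hU0 hU 2
  refine ⟨hth0, ?_, ?_, ?_⟩
  · unfold tT
    nlinarith [sq_nonneg C₁, sq_nonneg C₂]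
  · unfold fT; positivity
  · unfold fT
    linarith

end Pool.Agent.H1.LD
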