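import Pool.Agent.H1.LD.Defs

/-!
Gaussians: elementary facts (done).
-/

set_option autoImplicit false

open MeasureTheory Filter Topology Metric Set
open scoped RealInnerProductSpace ENNReal

namespace Pool.Agent.H1.LD

open Pool.Agent.RZ

variable {d : ℕ}

theorem ga_pos (b : ℝ) (v : X d) : 0 < ga b v := Real.exp_pos _

theorem ga_nonneg (b : ℝ) (v : X d) : 0 ≤ ga b v := (Real.exp_pos _).le

theorem ga_le_one {b : ℝ} (hb : 0 ≤ b) (v : X d) : ga b v ≤ 1 := by
  unfold ga
  rw [Real.exp_le_one_iff]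
  have : 0 ≤ b * ‖v‖ ^ 2 := by positivity
  linarith

theorem ga_neg (b : ℝ) (v : X d) : ga b (-v) = ga b v := by
  unfold ga; rw [norm_neg]

theorem ga_comm (b : ℝ) (x y : X d) : ga b (x - y) = ga b (y - x) := by
  rw [← ga_neg, neg_sub]

theorem ga_anti {b b' : ℝ} (h : b ≤ b') (v : X d) : ga b' v ≤ ga b v := by
  unfold ga
  apply Real.exp_le_exp.2
  have : b * ‖v‖ ^ 2 ≤ b' * ‖v‖ ^ 2 := mul_le_mul_of_nonneg_right h (by positivity)
  linarith

theorem ga_continuous (b : ℝ) : Continuous (ga b : X d → ℝ) := by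
  unfold ga; fun_prop

theorem ga_mul (b b' : ℝ) (v : X d) : ga b v * ga b' v = ga (b + b') v := by
  unfold ga
  rw [← Real.exp_add]
  congr 1; ring

end Pool.Agent.H1.LD
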