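import Pool.Agent.H1.LD.EigA

/-!
th_growth.  Gr n C₀ ν: ν(closedBall x r) ≤ C₀ r^n.  ga b v ≤ ∑_{j≥0} exp(-b j^2) 1_{|v| ≤ j+1}: th ν b y ≤ ∑ exp(-b j^2) C₀ (j+1)^n.  (Or use the lemmas of Pool.Agent.RZ.Gr1.)
mom_growth: (1+|v|)^m ga b v ≤ C ga (b/2) v.
-/

set_option autoImplicit false

open MeasureTheory Filter Topology Metric Set
open scoped RealInnerProductSpace ENNReal

namespace Pool.Agent.H1.LD

open Pool.Agent.RZ

variable {d : ℕ}

/-- the bound for the coefficients of the annuli -/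
theorem gro_coef (n : ℕ) {b : ℝ} (hb : 0 < b) (j : ℕ) :
    Real.exp (-(b * (j : ℝ) ^ 2)) * ((j : ℝ) + 1) ^ n ≤
      ((n.factorial : ℝ) * Real.exp 1 * Real.exp (1 / b)) * (1 / 2) ^ j := by
  have hf : (0 : ℝ) < n.factorial := by exact_mod_cast Nat.factorial_pos n
  have h1 : ((j : ℝ) + 1) ^ n ≤ n.factorial * Real.exp ((j : ℝ) + 1) := by
    have := Real.pow_div_factorial_le_exp ((j : ℝ) + 1) (by positivity) n
    rwa [div_le_iff₀ hf, mul_comm] at this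
  have h2 : (2 : ℝ) ^ j ≤ Real.exp j := by
    have h3 : (2 : ℝ) ≤ Real.exp 1 := by
      have := Real.add_one_le_exp (1 : ℝ)
      linarith
    calc (2 : ℝ) ^ j ≤ (Real.exp 1) ^ j := pow_le_pow_left₀ (by norm_num) h3 j
      _ = Real.exp j := by rw [← Real.exp_nat_mul, mul_one]
  have h4 : 2 * (j : ℝ) ≤ b * (j : ℝ) ^ 2 + 1 / b := by
    have h5 : 0 ≤ b * ((j : ℝ) - 1 / b) ^ 2 := by positivity
    have h6 : b * ((j : ℝ) - 1 / b) ^ 2 = b * (j : ℝ) ^ 2 - 2 * j + 1 / b := by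
      field_simp
      ring
    linarith
  have h7 : Real.exp (-(b * (j : ℝ) ^ 2)) * Real.exp ((j : ℝ) + 1) * Real.exp j ≤
      Real.exp 1 * Real.exp (1 / b) := by
    rw [← Real.exp_add, ← Real.exp_add, ← Real.exp_add]
    apply Real.exp_le_exp.2
    linarith
  have h8 : (0 : ℝ) < 2 ^ j := by positivity
  rw [div_pow, one_pow, mul_one_div, le_div_iff₀ h8]
  have hE : 0 < Real.exp (-(b * (j : ℝ) ^ 2)) := Real.exp_pos _
  calc Real.exp (-(b * (j : ℝ) ^ 2)) * ((j : ℝ) + 1) ^ n * 2 ^ j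
      ≤ Real.exp (-(b * (j : ℝ) ^ 2)) * (n.factorial * Real.exp ((j : ℝ) + 1)) * Real.exp j := by
        gcongr
    _ = n.factorial *
        (Real.exp (-(b * (j : ℝ) ^ 2)) * Real.exp ((j : ℝ) + 1) * Real.exp j) := by ring
    _ ≤ n.factorial * (Real.exp 1 * Real.exp (1 / b)) := by gcongr
    _ = n.factorial * Real.exp 1 * Real.exp (1 / b) := by ring

theorem gro_lint (d n : ℕ) {b : ℝ} (hb : 0 < b) (C₀ : ℝ) (hC₀ : 0 ≤ C₀) (ν : Measure (X d))
    (h : Gr n C₀ ν) (y : X d) :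
    ∫⁻ x, ENNReal.ofReal (ga b (x - y)) ∂ν ≤
      ENNReal.ofReal (2 * (C₀ * ((n.factorial : ℝ) * Real.exp 1 * Real.exp (1 / b)))) := by
  rw [← setLIntegral_univ]
  refine Gr1c_geom h MeasurableSet.univ (fun x => ENNReal.ofReal (ga b (x - y))) y
    (fun j => (j : ℝ) + 1) (fun j => Real.exp (-(b * (j : ℝ) ^ 2))) (by positivity)
    (fun j => (Real.exp_pos _).le) (fun j => by positivity) ?_ ?_
  · intro x _ _
    refine ⟨⌊‖x - y‖⌋₊, (Nat.lt_floor_add_one _).le, ?_⟩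
    apply ENNReal.ofReal_le_ofReal
    unfold ga
    apply Real.exp_le_exp.2
    have h1 : ((⌊‖x - y‖⌋₊ : ℕ) : ℝ) ≤ ‖x - y‖ := Nat.floor_le (norm_nonneg _)
    have h2 : ((⌊‖x - y‖⌋₊ : ℕ) : ℝ) ^ 2 ≤ ‖x - y‖ ^ 2 := pow_le_pow_left₀ (by positivity) h1 2
    have h3 := mul_le_mul_of_nonneg_left h2 hb.le
    linarith
  · intro j
    have h1 := gro_coef n hb j
    calc Real.exp (-(b * (j : ℝ) ^ 2)) * (C₀ * ((j : ℝ) + 1) ^ n)
        = C₀ * (Real.exp (-(b * (j : ℝ) ^ 2)) * ((j : ℝ) + 1) ^ n) := by ring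
      _ ≤ C₀ * (((n.factorial : ℝ) * Real.exp 1 * Real.exp (1 / b)) * (1 / 2) ^ j) := by gcongr
      _ = C₀ * ((n.factorial : ℝ) * Real.exp 1 * Real.exp (1 / b)) * (1 / 2) ^ j := by ring

theorem gro_int (d n : ℕ) {b : ℝ} (hb : 0 < b) (C₀ : ℝ) (hC₀ : 0 ≤ C₀) (ν : Measure (X d))
    (h : Gr n C₀ ν) (y : X d) : Integrable (fun x => ga b (x - y)) ν := by
  have hc : Continuous fun x : X d => ga b (x - y) :=
    (ga_continuous b).comp (continuous_id.sub continuous_const)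
  refine ⟨hc.aestronglyMeasurable, ?_⟩
  rw [hasFiniteIntegral_iff_ofReal (Eventually.of_forall fun x => ga_nonneg _ _)]
  exact (gro_lint d n hb C₀ hC₀ ν h y).trans_lt ENNReal.ofReal_lt_top

/-- growth gives bounds for Gaussian densities -/
theorem th_growth (d n : ℕ) {b : ℝ} (hb : 0 < b) (C₀ : ℝ) (hC₀ : 0 ≤ C₀) :
    ∃ C : ℝ, 0 < C ∧ ∀ ν : Measure (X d), Gr n C₀ ν → ∀ y, th ν b y ≤ C := by
  refine ⟨2 * (C₀ * ((n.factorial : ℝ) * Real.exp 1 * Real.exp (1 / b))) + 1, by positivity,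
    fun ν h y => ?_⟩
  have hc : Continuous fun x : X d => ga b (x - y) :=
    (ga_continuous b).comp (continuous_id.sub continuous_const)
  have h1 : th ν b y ≤ 2 * (C₀ * ((n.factorial : ℝ) * Real.exp 1 * Real.exp (1 / b))) := by
    unfold th
    rw [integral_eq_lintegral_of_nonneg_ae (Eventually.of_forall fun x => ga_nonneg _ _)
      hc.aestronglyMeasurable]
    exact ENNReal.toReal_le_of_le_ofReal (by positivity) (gro_lint d n hb C₀ hC₀ ν h y)
  linarith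

theorem mom_growth (d n m : ℕ) {b : ℝ} (hb : 0 < b) (C₀ : ℝ) (hC₀ : 0 ≤ C₀) :
    ∃ C : ℝ, 0 < C ∧ ∀ ν : Measure (X d), Gr n C₀ ν → ∀ y,
      Integrable (fun x => (1 + ‖x - y‖) ^ m * ga b (x - y)) ν ∧
      ∫ x, (1 + ‖x - y‖) ^ m * ga b (x - y) ∂ν ≤ C := by
  obtain ⟨C₁, hC₁, h₁⟩ := poly_ga d m (show b / 2 < b by linarith)
  obtain ⟨C₂, hC₂, h₂⟩ := th_growth d n (half_pos hb) C₀ hC₀
  refine ⟨C₁ * C₂, by positivity, fun ν h y => ?_⟩
  have hi : Integrable (fun x => C₁ * ga (b / 2) (x - y)) ν :=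
    (gro_int d n (half_pos hb) C₀ hC₀ ν h y).const_mul C₁
  have hc : Continuous fun x : X d => (1 + ‖x - y‖) ^ m * ga b (x - y) := by
    have h3 : Continuous fun x : X d => ga b (x - y) :=
      (ga_continuous b).comp (continuous_id.sub continuous_const)
    have h4 : Continuous fun x : X d => (1 + ‖x - y‖) ^ m := by fun_prop
    exact h4.mul h3
  have hint : Integrable (fun x => (1 + ‖x - y‖) ^ m * ga b (x - y)) ν := by
    refine hi.mono' hc.aestronglyMeasurable (Eventually.of_forall fun x => ?_)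
    have h5 : 0 ≤ (1 + ‖x - y‖) ^ m * ga b (x - y) := mul_nonneg (by positivity) (ga_nonneg _ _)
    rw [Real.norm_of_nonneg h5]
    exact h₁ (x - y)
  refine ⟨hint, ?_⟩
  calc ∫ x, (1 + ‖x - y‖) ^ m * ga b (x - y) ∂ν ≤ ∫ x, C₁ * ga (b / 2) (x - y) ∂ν :=
        integral_mono hint hi fun x => h₁ (x - y)
    _ = C₁ * th ν (b / 2) y := by
        rw [integral_const_mul]
        rfl
    _ ≤ C₁ * C₂ := by
        have := h₂ ν h y
        gcongr

end Pool.Agent.H1.LD
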