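import Pool.Agent.H1.LD.LebA
import Pool.Agent.H1.LD.DynB
import Pool.Agent.H1.LD.Gro
import Pool.Agent.H1.LD.Gau0

/-!
Ds_small.  Apply gauss_leb (b = 1/24) to g = min (Ds · (1/(m+1))) (or S.indicator (Ds · (1/(m+1)))), integrable since Ds z r ≤ Ds z 1 on S, for all m (countable intersection), and z in S.
 For r ≤ 1/(m+1): Ds y r ≤ Ds y (1/(m+1)) =: g y for a.e. y, so the quantity is ≤ r⁻¹^n ∫ ga |g y - g z| + g z * r⁻¹^n ∫ ga (1/24)(r⁻¹•(y-z)) dμ ≤ o(1) + C(C₀) Ds z (1/(m+1)) (th_growth for blow n 0 r μ), and Ds z (1/(m+1)) → 0 (Dy.tend).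
-/

set_option autoImplicit false

open MeasureTheory Filter Topology Metric Set
open scoped RealInnerProductSpace ENNReal

namespace Pool.Agent.H1.LD

open Pool.Agent.RZ

variable {d : ℕ}

private theorem LebB_th {n : ℕ} (μ : Measure (X d)) {r : ℝ} (hr : 0 < r) (b : ℝ) (z : X d) :
    r⁻¹ ^ n * ∫ y, ga b (r⁻¹ • (y - z)) ∂μ = th (blow n 0 r μ) b (r⁻¹ • z) := by
  unfold th
  rw [integral_blow n 0 hr]
  congr 1
  refine integral_congr_ae (Eventually.of_forall fun y => ?_)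
  simp only [sub_zero, smul_sub]

private theorem LebB_int {μ : Measure (X d)} [IsFiniteMeasure μ] {b : ℝ} (hb : 0 ≤ b) {g : X d → ℝ} (hg : Integrable g μ)
    (r : ℝ) (z : X d) : Integrable (fun y => ga b (r⁻¹ • (y - z)) * g y) μ := by
  have hc : Continuous (fun y : X d => ga b (r⁻¹ • (y - z))) := by
    have := ga_continuous (d := d) b
    fun_prop
  refine Integrable.bdd_mul (c := 1) hg hc.aestronglyMeasurable (Eventually.of_forall fun y => ?_)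
  rw [Real.norm_of_nonneg (ga_nonneg _ _)]
  exact ga_le_one hb _

/-- the truncated function at scale `1 / (m + 1)` is integrable -/
private theorem LebB_g {n K : ℕ} {μ : Measure (X d)} {S : Set (X d)} {D Ds : X d → ℝ → ℝ} (h : Dy n K μ S D Ds) (m : ℕ) :
    Integrable (S.indicator fun y => Ds y (1 / ((m : ℝ) + 1))) μ := by
  have hm0 : (0 : ℝ) < 1 / ((m : ℝ) + 1) := by positivity
  have hm1 : 1 / ((m : ℝ) + 1) ≤ 1 := by
    rw [div_le_one (by positivity)]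
    have : (0 : ℝ) ≤ m := Nat.cast_nonneg m
    linarith
  refine h.fin1.mono' ((h.dsm _).indicator h.smeas).aestronglyMeasurable (Eventually.of_forall fun y => ?_)
  by_cases hy : y ∈ S
  · rw [indicator_of_mem hy, Real.norm_of_nonneg (h.dsn _ _)]
    exact h.mono y hy _ _ hm0 hm1 le_rfl
  · rw [indicator_of_notMem hy, norm_zero]
    exact h.dsn _ _

theorem Ds_small {n K : ℕ} {μ : Measure (X d)} {C : ℝ} (hC : 0 ≤ C) (hg : Gr n C μ)
    {S : Set (X d)} {D Ds : X d → ℝ → ℝ} (h : Dy n K μ S D Ds) :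
    ∀ᵐ z ∂μ, Tendsto (fun r : ℝ => r⁻¹ ^ n * ∫ y, ga (1 / 24) (r⁻¹ • (y - z)) * Ds y r ∂μ)
      (𝓝[>] 0) (𝓝 0) := by
  have := h.fin
  obtain ⟨C₁, hC₁, hth⟩ := th_growth d n (b := 1 / 24) (by norm_num) C hC
  have hleb : ∀ᵐ z ∂μ, ∀ m : ℕ, Tendsto (fun r : ℝ => r⁻¹ ^ n * ∫ y, ga (1 / 24) (r⁻¹ • (y - z)) *
      |(S.indicator fun y => Ds y (1 / ((m : ℝ) + 1))) y - (S.indicator fun y => Ds y (1 / ((m : ℝ) + 1))) z| ∂μ)
      (𝓝[>] 0) (𝓝 0) := by
    rw [ae_all_iff]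
    intro m
    exact gauss_leb hC hg (LebB_g h m) (by norm_num)
  filter_upwards [hleb, h.ae] with z hz hzS
  rw [Metric.tendsto_nhds]
  intro ε hε
  -- the choice of the scale
  have hsmall : ∀ᶠ r in 𝓝[>] (0 : ℝ), Ds z r < ε / (2 * C₁) :=
    (h.tend z hzS).eventually_lt_const (by positivity)
  obtain ⟨ρ, hρ, hρs⟩ := mem_nhdsGT_iff_exists_Ioo_subset.1 hsmall
  obtain ⟨m, hm⟩ := exists_nat_one_div_lt (show (0 : ℝ) < ρ from hρ)
  have hm0 : (0 : ℝ) < 1 / ((m : ℝ) + 1) := by positivity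
  have hm1 : 1 / ((m : ℝ) + 1) ≤ 1 := by
    rw [div_le_one (by positivity)]
    have : (0 : ℝ) ≤ m := Nat.cast_nonneg m
    linarith
  have hDz : Ds z (1 / ((m : ℝ) + 1)) < ε / (2 * C₁) := hρs ⟨hm0, hm⟩
  set g : X d → ℝ := S.indicator fun y => Ds y (1 / ((m : ℝ) + 1)) with hgdef
  have hgi : Integrable g μ := LebB_g h m
  have hgz : g z = Ds z (1 / ((m : ℝ) + 1)) := by rw [hgdef, indicator_of_mem hzS]
  have hgz0 : 0 ≤ g z := by rw [hgz]; exact h.dsn _ _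
  have hL : ∀ᶠ r in 𝓝[>] (0 : ℝ), r⁻¹ ^ n * ∫ y, ga (1 / 24) (r⁻¹ • (y - z)) * |g y - g z| ∂μ < ε / 2 :=
    (hz m).eventually_lt_const (by positivity)
  filter_upwards [hL, Ioo_mem_nhdsGT hm0] with r hrL hr
  obtain ⟨hr0, hrm⟩ := hr
  have hrn : 0 ≤ r⁻¹ ^ n := by positivity
  have hQ0 : 0 ≤ r⁻¹ ^ n * ∫ y, ga (1 / 24) (r⁻¹ • (y - z)) * Ds y r ∂μ :=
    mul_nonneg hrn (integral_nonneg fun y => mul_nonneg (ga_nonneg _ _) (h.dsn _ _))
  rw [Real.dist_eq, sub_zero, abs_of_nonneg hQ0]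
  have hgai : Integrable (fun y => ga (1 / 24) (r⁻¹ • (y - z)) * |g y - g z|) μ :=
    LebB_int (by norm_num) ((hgi.sub (integrable_const _)).abs) r z
  have hga1 : Integrable (fun y => ga (1 / 24) (r⁻¹ • (y - z)) * g z) μ :=
    LebB_int (by norm_num) (integrable_const _) r z
  have h1 : ∫ y, ga (1 / 24) (r⁻¹ • (y - z)) * Ds y r ∂μ ≤
      ∫ y, (ga (1 / 24) (r⁻¹ • (y - z)) * |g y - g z| + ga (1 / 24) (r⁻¹ • (y - z)) * g z) ∂μ := by
    refine integral_mono_of_nonneg (Eventually.of_forall fun y => mul_nonneg (ga_nonneg _ _) (h.dsn _ _))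
      (hgai.add hga1) ?_
    filter_upwards [h.ae] with y hy
    rw [← mul_add]
    refine mul_le_mul_of_nonneg_left ?_ (ga_nonneg _ _)
    have h2 : Ds y r ≤ g y := by
      rw [hgdef, indicator_of_mem hy]
      exact h.mono y hy _ _ hr0 hrm.le hm1
    have h3 := le_abs_self (g y - g z)
    linarith
  rw [integral_add hgai hga1, integral_mul_const] at h1
  have h2 := mul_le_mul_of_nonneg_left h1 hrn
  have h3 : r⁻¹ ^ n * ∫ y, ga (1 / 24) (r⁻¹ • (y - z)) ∂μ ≤ C₁ := by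
    rw [LebB_th μ hr0]
    exact hth _ (hg.blow 0 hr0) _
  have h4 := mul_le_mul_of_nonneg_right h3 hgz0
  have h5 : C₁ * g z < ε / 2 := by
    rw [hgz]
    have := mul_lt_mul_of_pos_left hDz hC₁
    have h6 : C₁ * (ε / (2 * C₁)) = ε / 2 := by field_simp
    linarith
  rw [mul_add, ← mul_assoc (r⁻¹ ^ n) (∫ y, ga (1 / 24) (r⁻¹ • (y - z)) ∂μ) (g z)] at h2
  linarith

end Pool.Agent.H1.LD
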