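import Pool.Agent.H1.LD.Dyn

/-!
weak_limit.  f k in L²(μ), norm ≤ M μ(univ)^{1/2}.  For Ψ in Lp ℝ 2 μ the bounded real sequence k ↦ ∫ Ψ f_k has a limit along the ultrafilter hyperfilter ℕ (Ultrafilter / IsCompact closed ball); the limit is linear and
bounded in Ψ, so by Riesz representation (InnerProductSpace.toDual) it is ∫ Ψ g with g in L², integrable since μ is finite.  See Pool/Agent/RZ/J3.lean (theorem exists_g), which does exactly this.
-/

set_option autoImplicit false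

open MeasureTheory Filter Topology Metric Set
open scoped RealInnerProductSpace ENNReal

namespace Pool.Agent.H1.LD

open Pool.Agent.RZ

variable {d : ℕ}

private lemma Wk_inner {μ : Measure (X d)} (G : Lp ℝ 2 μ) {g : X d → ℝ} (hg : MemLp g 2 μ) :
    ⟪G, hg.toLp g⟫ = ∫ x, g x * G x ∂μ := by
  rw [L2.inner_def]
  refine integral_congr_ae ?_
  filter_upwards [hg.coeFn_toLp] with x hx
  rw [hx]
  rfl

theorem weak_limit (μ : Measure (X d)) [IsFiniteMeasure μ] (f : ℕ → X d → ℝ) {M : ℝ}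
    (hf : ∀ k, Measurable (f k)) (hM : ∀ k y, |f k y| ≤ M) :
    ∃ g : X d → ℝ, Integrable g μ ∧ ∀ ψ : X d → ℝ, Continuous ψ → (∃ A, ∀ y, |ψ y| ≤ A) →
      Tendsto (fun k => ∫ y, ψ y * f k y ∂μ) (hyperfilter ℕ) (𝓝 (∫ y, ψ y * g y ∂μ)) := by
  have hfm : ∀ k, MemLp (f k) 2 μ := fun k =>
    MemLp.of_bound (hf k).aestronglyMeasurable M (ae_of_all _ fun y => by
      rw [Real.norm_eq_abs]; exact hM k y)
  set Fm : ℕ → Lp ℝ 2 μ := fun k => (hfm k).toLp _ with hFm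
  set B : ℝ := Real.sqrt (M ^ 2 * μ.real univ) with hBdef
  have hnorm : ∀ k, ‖Fm k‖ ≤ B := by
    intro k
    have h1 : ‖Fm k‖ ^ 2 = ∫ x, f k x ^ 2 ∂μ := by
      rw [← real_inner_self_eq_norm_sq, hFm]
      simp only []
      rw [Wk_inner]
      refine integral_congr_ae ?_
      filter_upwards [(hfm k).coeFn_toLp] with x hx
      rw [hx]; ring
    have h2 : ∫ x, f k x ^ 2 ∂μ ≤ M ^ 2 * μ.real univ := by
      have h3 : ‖∫ x, f k x ^ 2 ∂μ‖ ≤ M ^ 2 * μ.real univ := by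
        refine norm_integral_le_of_norm_le_const (ae_of_all μ fun x => ?_)
        rw [Real.norm_eq_abs, abs_pow]
        exact pow_le_pow_left₀ (abs_nonneg _) (hM k x) 2
      exact (le_abs_self _).trans h3
    refine Real.le_sqrt_of_sq_le ?_
    rw [h1]; exact h2
  let Φ : ℕ → WeakDual ℝ (Lp ℝ 2 μ) := fun m =>
    StrongDual.toWeakDual (InnerProductSpace.toDual ℝ (Lp ℝ 2 μ) (Fm m))
  have hΦ : ∀ (m : ℕ) (Ψ : Lp ℝ 2 μ), Φ m Ψ = ⟪Fm m, Ψ⟫ := fun m Ψ => rfl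
  have hcomp := WeakDual.isCompact_closedBall (𝕜 := ℝ) (E := Lp ℝ 2 μ) 0 B
  obtain ⟨Λ, -, hΛ⟩ := hcomp.ultrafilter_le_nhds ((hyperfilter ℕ).map Φ) (by
    rw [le_principal_iff]
    refine mem_map.mpr (univ_mem' fun m => ?_)
    show InnerProductSpace.toDual ℝ (Lp ℝ 2 μ) (Fm m) ∈ closedBall 0 B
    rw [mem_closedBall_zero_iff, LinearIsometryEquiv.norm_map]
    exact hnorm m)
  have hΛt : Tendsto Φ (hyperfilter ℕ) (𝓝 Λ) := hΛ
  set G : Lp ℝ 2 μ := (InnerProductSpace.toDual ℝ (Lp ℝ 2 μ)).symm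
    (WeakDual.toStrongDual Λ) with hG
  refine ⟨G, (Lp.memLp G).integrable (by norm_num), ?_⟩
  rintro ψ hψ ⟨A, hA⟩
  have hψm : MemLp ψ 2 μ := MemLp.of_bound hψ.aestronglyMeasurable A (ae_of_all _ fun y => by
      rw [Real.norm_eq_abs]; exact hA y)
  have hlim : Tendsto (fun m => Φ m (hψm.toLp ψ)) (hyperfilter ℕ) (𝓝 (Λ (hψm.toLp ψ))) :=
    ((WeakDual.eval_continuous (hψm.toLp ψ)).tendsto Λ).comp hΛt
  have hΛG : Λ (hψm.toLp ψ) = ∫ x, ψ x * G x ∂μ := by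
    rw [← Wk_inner G hψm, hG, InnerProductSpace.toDual_symm_apply]
    rfl
  have hΦI : ∀ m, Φ m (hψm.toLp ψ) = ∫ x, ψ x * f m x ∂μ := by
    intro m
    rw [hΦ, Wk_inner]
    refine integral_congr_ae ?_
    filter_upwards [(hfm m).coeFn_toLp] with x hx
    rw [hx]
  rw [hΛG] at hlim
  exact hlim.congr hΦI

end Pool.Agent.H1.LD
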