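import Pool.Agent.H1.LD.DffA
import Pool.Agent.H1.LD.DffB
import Pool.Agent.H1.LD.LebA
import Pool.Agent.H1.LD.LebB
import Pool.Agent.H1.LD.Wk
import Pool.Agent.H1.LD.DynC

/-!
cubic_limit.  f_k = fT n μ (1/(k+1)) (bounded by fT_bound, continuous).  g from weak_limit.  For a.e. z (z in S, gauss_leb for g with b = 1/2, Ds_small) put c = g z.  Let m(r) = ∫ ga (1/24)(r⁻¹•(y-z)) Ds y r dμ, so r⁻¹^n m(r) → 0.
 For 0 < r ≤ 1 and all large k (1/(k+1) ≤ r), Af_diff with s = 1/(k+1), divided by r^n: |r⁻¹^n Af n μ z r r - r⁻¹^n Af n μ z r (1/(k+1))| ≤ C(r⁻¹^n m + sqrt(r⁻¹^n m)) (sqrt(r^n) sqrt(m) = r^n sqrt(r⁻¹^n m)).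
 Limit along the hyperfilter: |r⁻¹^n Af n μ z r r - r⁻¹^n ∫ ga (1/2)(r⁻¹•(y-z)) g y dμ| ≤ the same.
 r⁻¹^n ∫ ga (1/2)(r⁻¹•(y-z)) g y dμ = c * tT n μ r z + o(1) (gauss_leb, tT_eq).  Af_same: r⁻¹^n Af n μ z r r = tT^3 + o(1).  Subtract.
-/

set_option autoImplicit false

open MeasureTheory Filter Topology Metric Set
open scoped RealInnerProductSpace ENNReal

namespace Pool.Agent.H1.LD

open Pool.Agent.RZ

variable {d : ℕ}

private theorem DicA_psi_cont (r : ℝ) (z : X d) :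
    Continuous (fun y : X d => ga (1 / 2) (r⁻¹ • (y - z))) :=
  (ga_continuous (1 / 2)).comp ((continuous_id.sub continuous_const).const_smul r⁻¹)

private theorem DicA_psi_abs (r : ℝ) (z y : X d) : |ga (1 / 2) (r⁻¹ • (y - z))| ≤ 1 := by
  rw [abs_of_nonneg (ga_nonneg _ _)]
  exact ga_le_one (by norm_num) _

/-- part (c): the average of `g` against its value -/
private theorem DicA_leb {μ : Measure (X d)} [IsFiniteMeasure μ] {g : X d → ℝ}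
    (hi : Integrable g μ) (n : ℕ) {r : ℝ} (hr : 0 < r) (z : X d) :
    |r⁻¹ ^ n * ∫ y, ga (1 / 2) (r⁻¹ • (y - z)) * g y ∂μ - g z * tT n μ r z| ≤
      r⁻¹ ^ n * ∫ y, ga (1 / 2) (r⁻¹ • (y - z)) * |g y - g z| ∂μ := by
  have hψ : Integrable (fun y : X d => ga (1 / 2) (r⁻¹ • (y - z))) μ :=
    Integrable.of_bound (DicA_psi_cont r z).aestronglyMeasurable 1 (ae_of_all _ fun y => by
      rw [Real.norm_eq_abs]; exact DicA_psi_abs r z y)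
  have hψg : Integrable (fun y : X d => ga (1 / 2) (r⁻¹ • (y - z)) * g y) μ := by
    refine hi.norm.mono' ((DicA_psi_cont r z).aestronglyMeasurable.mul hi.aestronglyMeasurable)
      (ae_of_all _ fun y => ?_)
    rw [norm_mul, Real.norm_eq_abs (ga _ _)]
    exact mul_le_of_le_one_left (norm_nonneg _) (DicA_psi_abs r z y)
  have hρ : 0 ≤ r⁻¹ ^ n := by positivity
  have h1 : r⁻¹ ^ n * ∫ y, ga (1 / 2) (r⁻¹ • (y - z)) * g y ∂μ - g z * tT n μ r z =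
      r⁻¹ ^ n * ∫ y, ga (1 / 2) (r⁻¹ • (y - z)) * (g y - g z) ∂μ := by
    rw [tT_eq n μ hr z]
    have h2 : ∫ y, ga (1 / 2) (r⁻¹ • (y - z)) * (g y - g z) ∂μ =
        (∫ y, ga (1 / 2) (r⁻¹ • (y - z)) * g y ∂μ) -
          g z * ∫ y, ga (1 / 2) (r⁻¹ • (y - z)) ∂μ := by
      rw [← integral_const_mul, ← integral_sub hψg (hψ.const_mul _)]
      refine integral_congr_ae (ae_of_all _ fun y => ?_)
      simp only
      ring
    rw [h2]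
    ring
  rw [h1, abs_mul, abs_of_nonneg hρ]
  refine mul_le_mul_of_nonneg_left ?_ hρ
  refine (abs_integral_le_integral_abs).trans (le_of_eq ?_)
  refine integral_congr_ae (ae_of_all _ fun y => ?_)
  simp only
  rw [abs_mul, abs_of_nonneg (ga_nonneg _ _)]

/-- the algebra of the scaling -/
private theorem DicA_scale {n : ℕ} {r m : ℝ} (hr : 0 < r) :
    r⁻¹ ^ n * (m + Real.sqrt (r ^ n) * Real.sqrt m) =
      r⁻¹ ^ n * m + Real.sqrt (r⁻¹ ^ n * m) := by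
  have hρ : 0 < r⁻¹ ^ n := by positivity
  have h1 : Real.sqrt (r⁻¹ ^ n * m) = Real.sqrt (r⁻¹ ^ n) * Real.sqrt m :=
    Real.sqrt_mul hρ.le m
  have h2 : r⁻¹ ^ n * Real.sqrt (r ^ n) = Real.sqrt (r⁻¹ ^ n) := by
    have h3 : r ^ n = (r⁻¹ ^ n)⁻¹ := by rw [inv_pow, inv_inv]
    rw [h3, Real.sqrt_inv]
    have h4 := Real.mul_self_sqrt hρ.le
    have h5 : Real.sqrt (r⁻¹ ^ n) ≠ 0 := (Real.sqrt_pos.mpr hρ).ne'
    rw [← div_eq_mul_inv, div_eq_iff h5]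
    exact h4.symm
  rw [mul_add, ← mul_assoc, h2, h1]

theorem cubic_limit {n K : ℕ} {μ : Measure (X d)} {C : ℝ} (hC : 0 ≤ C) (hg : Gr n C μ)
    {S : Set (X d)} {D Ds : X d → ℝ → ℝ} (h : Dy n K μ S D Ds) :
    ∀ᵐ z ∂μ, ∃ c : ℝ, Tendsto (fun r : ℝ => tT n μ r z * (tT n μ r z ^ 2 - c))
      (𝓝[>] 0) (𝓝 0) := by
  have := h.fin
  obtain ⟨Cf, hCf, hfb⟩ := fT_bound d n C hC
  obtain ⟨C1, hC1, hdiff⟩ := Af_diff d n K C hC
  obtain ⟨C2, hC2, hsame⟩ := Af_same d n K C hC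
  have hk : ∀ k : ℕ, (0 : ℝ) < 1 / ((k : ℝ) + 1) := fun k => by positivity
  obtain ⟨g, hgi, hgl⟩ := weak_limit μ (fun k : ℕ => fT n μ (1 / ((k : ℝ) + 1))) (M := Cf)
    (fun k => (fT_continuous n μ (hk k)).measurable)
    (fun k y => by
      obtain ⟨-, -, h3, h4⟩ := hfb μ hg _ (hk k) y
      rw [abs_of_nonneg h3]
      exact h4)
  filter_upwards [h.ae, gauss_leb hC hg hgi (show (0 : ℝ) < 1 / 2 by norm_num),
    Ds_small hC hg h] with z hz hleb hds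
  refine ⟨g z, ?_⟩
  -- the bound
  have hbd : ∀ r : ℝ, 0 < r → r ≤ 1 →
      ‖tT n μ r z * (tT n μ r z ^ 2 - g z)‖ ≤
        C2 * (Real.sqrt (Ds z r) +
          Real.sqrt (r⁻¹ ^ n * ∫ y, ga (1 / 24) (r⁻¹ • (y - z)) * Ds y r ∂μ) +
          r⁻¹ ^ n * ∫ y, ga (1 / 24) (r⁻¹ • (y - z)) * Ds y r ∂μ) +
        C1 * (r⁻¹ ^ n * (∫ y, ga (1 / 24) (r⁻¹ • (y - z)) * Ds y r ∂μ) +
          Real.sqrt (r⁻¹ ^ n * ∫ y, ga (1 / 24) (r⁻¹ • (y - z)) * Ds y r ∂μ)) +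
        r⁻¹ ^ n * ∫ y, ga (1 / 2) (r⁻¹ • (y - z)) * |g y - g z| ∂μ := by
    intro r hr hr1
    have hρ : 0 ≤ r⁻¹ ^ n := by positivity
    have ha := hsame μ S D Ds hg h z hz r hr hr1
    have hlim := hgl (fun y => ga (1 / 2) (r⁻¹ • (y - z))) (DicA_psi_cont r z)
      ⟨1, fun y => DicA_psi_abs r z y⟩
    have hb : |Af n μ z r r - ∫ y, ga (1 / 2) (r⁻¹ • (y - z)) * g y ∂μ| ≤
        C1 * ((∫ y, ga (1 / 24) (r⁻¹ • (y - z)) * Ds y r ∂μ) +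
          Real.sqrt (r ^ n) * Real.sqrt (∫ y, ga (1 / 24) (r⁻¹ • (y - z)) * Ds y r ∂μ)) := by
      have hlim2 := (hlim.const_sub (Af n μ z r r)).abs
      refine le_of_tendsto hlim2 ?_
      have hev : ∀ᶠ k : ℕ in atTop, 1 / ((k : ℝ) + 1) ≤ r :=
        tendsto_one_div_add_atTop_nhds_zero_nat.eventually (Iic_mem_nhds hr)
      have hev2 : ∀ᶠ k : ℕ in (hyperfilter ℕ : Filter ℕ), 1 / ((k : ℝ) + 1) ≤ r :=
        Nat.hyperfilter_le_atTop hev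
      refine hev2.mono fun k hkr => ?_
      exact hdiff μ S D Ds hg h z (1 / ((k : ℝ) + 1)) r (hk k) hkr hr1
    have hb' : |r⁻¹ ^ n * Af n μ z r r -
        r⁻¹ ^ n * ∫ y, ga (1 / 2) (r⁻¹ • (y - z)) * g y ∂μ| ≤
        C1 * (r⁻¹ ^ n * (∫ y, ga (1 / 24) (r⁻¹ • (y - z)) * Ds y r ∂μ) +
          Real.sqrt (r⁻¹ ^ n * ∫ y, ga (1 / 24) (r⁻¹ • (y - z)) * Ds y r ∂μ)) := by
      rw [← mul_sub, abs_mul, abs_of_nonneg hρ, ← DicA_scale hr]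
      calc r⁻¹ ^ n * |Af n μ z r r - ∫ y, ga (1 / 2) (r⁻¹ • (y - z)) * g y ∂μ|
          ≤ r⁻¹ ^ n * (C1 * ((∫ y, ga (1 / 24) (r⁻¹ • (y - z)) * Ds y r ∂μ) +
            Real.sqrt (r ^ n) *
              Real.sqrt (∫ y, ga (1 / 24) (r⁻¹ • (y - z)) * Ds y r ∂μ))) :=
            mul_le_mul_of_nonneg_left hb hρ
        _ = _ := by ring
    have hc := DicA_leb hgi n hr z
    rw [Real.norm_eq_abs]
    have hsplit : tT n μ r z * (tT n μ r z ^ 2 - g z) =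
        -(r⁻¹ ^ n * Af n μ z r r - tT n μ r z ^ 3) +
        (r⁻¹ ^ n * Af n μ z r r - r⁻¹ ^ n * ∫ y, ga (1 / 2) (r⁻¹ • (y - z)) * g y ∂μ) +
        (r⁻¹ ^ n * ∫ y, ga (1 / 2) (r⁻¹ • (y - z)) * g y ∂μ - g z * tT n μ r z) := by
      ring
    rw [hsplit]
    refine (abs_add_le _ _).trans (add_le_add ((abs_add_le _ _).trans (add_le_add ?_ hb')) hc)
    rw [abs_neg]
    exact ha
  have hD0 := h.tend z hz
  have hs1 : Tendsto (fun r => Real.sqrt (Ds z r)) (𝓝[>] 0) (𝓝 0) := by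
    have := hD0.sqrt
    rwa [Real.sqrt_zero] at this
  have hs2 : Tendsto (fun r : ℝ =>
      Real.sqrt (r⁻¹ ^ n * ∫ y, ga (1 / 24) (r⁻¹ • (y - z)) * Ds y r ∂μ)) (𝓝[>] 0) (𝓝 0) := by
    have := hds.sqrt
    rwa [Real.sqrt_zero] at this
  have htot := ((((hs1.add hs2).add hds).const_mul C2).add ((hds.add hs2).const_mul C1)).add hleb
  simp only [add_zero, mul_zero] at htot
  refine squeeze_zero_norm' ?_ htot
  have hIoc : Ioc (0 : ℝ) 1 ∈ 𝓝[>] (0 : ℝ) := Ioc_mem_nhdsGT one_pos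
  filter_upwards [hIoc] with r hr
  exact hbd r hr.1 hr.2

end Pool.Agent.H1.LD
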