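import Pool.Agent.H1.LD.Gau

/-!
Elementary facts on th and Hv (ν finite).
th_pos: the Gaussian is positive and ν ≠ 0.   Hv_inner: pull the inner product into the integral (integrable because ν is finite and (1+|v|)^2 ga (1/2) v is bounded, poly_ga).
-/

set_option autoImplicit false

open MeasureTheory Filter Topology Metric Set
open scoped RealInnerProductSpace ENNReal

namespace Pool.Agent.H1.LD

open Pool.Agent.RZ

variable {d : ℕ}

theorem th_nonneg (ν : Measure (X d)) (b : ℝ) (y : X d) : 0 ≤ th ν b y :=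
  integral_nonneg fun _ => ga_nonneg _ _

private theorem EigA_bd (d m : ℕ) {b : ℝ} (hb : 0 < b) : ∃ C : ℝ, 0 < C ∧ ∀ v : X d,
    (1 + ‖v‖) ^ m * ga b v ≤ C := by
  obtain ⟨C, hC, h⟩ := poly_ga d m (b := b) (b' := 0) hb
  refine ⟨C, hC, fun v => (h v).trans ?_⟩
  have := ga_le_one (le_refl (0 : ℝ)) v
  nlinarith

theorem poly_int (ν : Measure (X d)) [IsFiniteMeasure ν] {b : ℝ} (hb : 0 < b) (m : ℕ) (y : X d) :
    Integrable (fun x => (1 + ‖x - y‖) ^ m * ga b (x - y)) ν := by
  obtain ⟨C, hC, h⟩ := EigA_bd d m hb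
  have hc : Continuous (fun x : X d => (1 + ‖x - y‖) ^ m * ga b (x - y)) :=
    ((continuous_const.add (continuous_id.sub continuous_const).norm).pow m).mul
      ((ga_continuous b).comp (continuous_id.sub continuous_const))
  refine Integrable.mono' (integrable_const C) hc.aestronglyMeasurable (ae_of_all _ fun x => ?_)
  rw [Real.norm_of_nonneg (mul_nonneg (by positivity) (ga_nonneg _ _))]
  exact h _

private theorem EigA_th_int (ν : Measure (X d)) [IsFiniteMeasure ν] {b : ℝ} (hb : 0 ≤ b) (y : X d) :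
    Integrable (fun x => ga b (x - y)) ν := by
  have hc : Continuous (fun x : X d => ga b (x - y)) :=
    (ga_continuous b).comp (continuous_id.sub continuous_const)
  refine Integrable.mono' (integrable_const (1 : ℝ)) hc.aestronglyMeasurable
    (ae_of_all _ fun x => ?_)
  rw [Real.norm_of_nonneg (ga_nonneg _ _)]
  exact ga_le_one hb _

theorem th_pos {ν : Measure (X d)} [IsFiniteMeasure ν] (h : ν ≠ 0) {b : ℝ} (hb : 0 ≤ b) (y : X d) :
    0 < th ν b y := by
  unfold th
  rw [integral_pos_iff_support_of_nonneg (fun x => ga_nonneg _ _) (EigA_th_int ν hb y)]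
  have hs : Function.support (fun x : X d => ga b (x - y)) = univ := by
    ext x
    simp [(ga_pos b (x - y)).ne']
  rw [hs]
  exact (Measure.measure_univ_pos).2 h

private theorem EigA_cont1 (a : X d) :
    Continuous fun v : X d => ga (1 / 2) v • (⟪v, a⟫ • v - a) := by
  have := ga_continuous (d := d) (1 / 2)
  fun_prop

private theorem EigA_norm1 (v a : X d) :
    ‖ga (1 / 2) v • (⟪v, a⟫ • v - a)‖ ≤ ‖a‖ * ((1 + ‖v‖) ^ 2 * ga (1 / 2) v) := by
  rw [norm_smul, Real.norm_of_nonneg (ga_nonneg _ _)]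
  have h1 : ‖⟪v, a⟫ • v - a‖ ≤ ‖a‖ * (1 + ‖v‖) ^ 2 := by
    have h2 : ‖⟪v, a⟫ • v‖ ≤ ‖v‖ * ‖a‖ * ‖v‖ := by
      rw [norm_smul]
      exact mul_le_mul_of_nonneg_right (norm_inner_le_norm v a) (norm_nonneg _)
    have h3 := norm_sub_le (⟪v, a⟫ • v) a
    nlinarith [norm_nonneg v, norm_nonneg a, mul_nonneg (norm_nonneg a) (norm_nonneg v)]
  calc ga (1 / 2) v * ‖⟪v, a⟫ • v - a‖ ≤ ga (1 / 2) v * (‖a‖ * (1 + ‖v‖) ^ 2) :=
        mul_le_mul_of_nonneg_left h1 (ga_nonneg _ _)
    _ = ‖a‖ * ((1 + ‖v‖) ^ 2 * ga (1 / 2) v) := by ring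

private theorem EigA_Hint (ν : Measure (X d)) [IsFiniteMeasure ν] (y a : X d) :
    Integrable (fun x => ga (1 / 2) (x - y) • (⟪x - y, a⟫ • (x - y) - a)) ν := by
  have hc : Continuous (fun x : X d => ga (1 / 2) (x - y) • (⟪x - y, a⟫ • (x - y) - a)) :=
    (EigA_cont1 a).comp (continuous_id.sub continuous_const)
  refine Integrable.mono' ((poly_int ν (b := 1 / 2) (by norm_num) 2 y).const_mul ‖a‖)
    hc.aestronglyMeasurable (ae_of_all _ fun x => ?_)
  exact EigA_norm1 _ _

theorem Hv_inner (ν : Measure (X d)) [IsFiniteMeasure ν] (y a c : X d) :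
    ⟪Hv ν y a, c⟫ = ∫ x, ga (1 / 2) (x - y) * (⟪x - y, a⟫ * ⟪x - y, c⟫ - ⟪a, c⟫) ∂ν := by
  unfold Hv
  rw [real_inner_comm, ← integral_inner (EigA_Hint ν y a) c]
  refine integral_congr_ae (ae_of_all _ fun x => ?_)
  simp only
  rw [inner_smul_right, inner_sub_right c, inner_smul_right, real_inner_comm (x - y) c,
    real_inner_comm a c]

theorem Hv_symm (ν : Measure (X d)) [IsFiniteMeasure ν] (y a c : X d) :
    ⟪Hv ν y a, c⟫ = ⟪a, Hv ν y c⟫ := by
  rw [real_inner_comm (Hv ν y c) a, Hv_inner, Hv_inner]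
  refine integral_congr_ae (ae_of_all _ fun x => ?_)
  simp only
  rw [real_inner_comm a c]
  ring

theorem Hv_add (ν : Measure (X d)) [IsFiniteMeasure ν] (y a c : X d) :
    Hv ν y (a + c) = Hv ν y a + Hv ν y c := by
  unfold Hv
  rw [← integral_add (EigA_Hint ν y a) (EigA_Hint ν y c)]
  refine integral_congr_ae (ae_of_all _ fun x => ?_)
  simp only
  rw [inner_add_right, ← smul_add]
  congr 1
  rw [add_smul]
  abel

theorem Hv_smul (ν : Measure (X d)) [IsFiniteMeasure ν] (y a : X d) (s : ℝ) :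
    Hv ν y (s • a) = s • Hv ν y a := by
  unfold Hv
  rw [← integral_smul]
  refine integral_congr_ae (ae_of_all _ fun x => ?_)
  simp only
  rw [inner_smul_right, smul_comm s, smul_sub s, smul_smul]

private theorem EigA_normU {b : ℝ} (v : X d) :
    ‖ga b v • v‖ ≤ (1 + ‖v‖) ^ 1 * ga b v := by
  rw [norm_smul, Real.norm_of_nonneg (ga_nonneg _ _), pow_one]
  nlinarith [ga_nonneg b v, norm_nonneg v]

private theorem EigA_contU (b : ℝ) :
    Continuous fun v : X d => ga b v • v := by
  have := ga_continuous (d := d) b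
  fun_prop

private theorem EigA_Uint (ν : Measure (X d)) [IsFiniteMeasure ν] {b : ℝ} (hb : 0 < b) (y : X d) :
    Integrable (fun x => ga b (x - y) • (x - y)) ν := by
  have hc : Continuous (fun x : X d => ga b (x - y) • (x - y)) :=
    (EigA_contU b).comp (continuous_id.sub continuous_const)
  refine Integrable.mono' (poly_int ν hb 1 y)
    hc.aestronglyMeasurable (ae_of_all _ fun x => ?_)
  exact EigA_normU _

theorem Uv_inner (ν : Measure (X d)) [IsFiniteMeasure ν] {b : ℝ} (hb : 0 < b) (y a : X d) :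
    ⟪Uv ν b y, a⟫ = ∫ x, ga b (x - y) * ⟪x - y, a⟫ ∂ν := by
  unfold Uv
  rw [real_inner_comm, ← integral_inner (EigA_Uint ν hb y) a]
  refine integral_congr_ae (ae_of_all _ fun x => ?_)
  simp only [inner_smul_right]
  rw [real_inner_comm (x - y) a]

theorem Uv_continuous (ν : Measure (X d)) [IsFiniteMeasure ν] {b : ℝ} (hb : 0 < b) :
    Continuous (Uv ν b) := by
  obtain ⟨C, hC, h⟩ := EigA_bd d 1 hb
  unfold Uv
  refine continuous_of_dominated (bound := fun _ => C) (fun y => ?_) (fun y => ?_)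
    (integrable_const C) (ae_of_all _ fun x => ?_)
  · exact (EigA_Uint ν hb y).aestronglyMeasurable
  · exact ae_of_all _ fun x => (EigA_normU _).trans (h _)
  · exact (EigA_contU b).comp (continuous_const.sub continuous_id)

theorem th_continuous (ν : Measure (X d)) [IsFiniteMeasure ν] {b : ℝ} (hb : 0 < b) :
    Continuous (th ν b) := by
  unfold th
  refine continuous_of_dominated (bound := fun _ => 1) (fun y => ?_) (fun y => ?_)
    (integrable_const 1) (ae_of_all _ fun x => ?_)
  · exact (EigA_th_int ν hb.le y).aestronglyMeasurable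
  · refine ae_of_all _ fun x => ?_
    rw [Real.norm_of_nonneg (ga_nonneg _ _)]
    exact ga_le_one hb.le _
  · exact (ga_continuous b).comp (continuous_const.sub continuous_id)

/-- joint continuity of the Hessian -/
theorem Hv_continuous (ν : Measure (X d)) [IsFiniteMeasure ν] :
    Continuous fun p : X d × X d => Hv ν p.1 p.2 := by
  obtain ⟨C, hC, h⟩ := EigA_bd d 2 (b := 1 / 2) (by norm_num)
  rw [continuous_iff_continuousAt]
  intro p₀
  unfold Hv
  refine continuousAt_of_dominated (bound := fun _ => (‖p₀.2‖ + 1) * C) ?_ ?_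
    (integrable_const _) (ae_of_all _ fun x => ?_)
  · exact Eventually.of_forall fun p => (EigA_Hint ν p.1 p.2).aestronglyMeasurable
  · have hn : ∀ᶠ p : X d × X d in 𝓝 p₀, ‖p.2‖ < ‖p₀.2‖ + 1 :=
      (continuous_snd.norm.tendsto p₀).eventually (gt_mem_nhds (by linarith))
    filter_upwards [hn] with p hp
    refine ae_of_all _ fun x => (EigA_norm1 _ _).trans ?_
    have h1 := h (x - p.1)
    have h2 : 0 ≤ (1 + ‖x - p.1‖) ^ 2 * ga (1 / 2) (x - p.1) :=
      mul_nonneg (by positivity) (ga_nonneg _ _)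
    exact mul_le_mul hp.le h1 h2 (by positivity)
  · have h0 : Continuous fun p : X d × X d =>
        ga (1 / 2) (x - p.1) • (⟪x - p.1, p.2⟫ • (x - p.1) - p.2) := by
      have hg : Continuous fun p : X d × X d => ga (1 / 2) (x - p.1) :=
        (ga_continuous (1 / 2)).comp (continuous_const.sub continuous_fst)
      fun_prop
    exact h0.continuousAt

end Pool.Agent.H1.LD
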