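import Pool.Agent.H1.LD.DifU
import Pool.Agent.H1.LD.EigA

/-!
H_diff.  Hv is symmetric: ⟪Hv ν y a, c⟫ = ∫ ga (1/2)(p-y)(⟪p-y,a⟫⟪p-y,c⟫ - ⟪a,c⟫) dν(p) = ⟪Hv ν y c, a⟫ (prove it here, private).
By ga_hess_repr with v = p - y, and Fubini (ν finite): for all a, c
  (gc d 2 / 4) ⟪Hv ν y a, c⟫ = ∫_w ga 1 w ⟪w,a⟫ ⟪c, Uv ν 1 (y+w)⟫ dw.
With c = z - x and U_diff (b = 1) at the point y + w: |⟪Hv ν y a, z-x⟫| ≤ C‖a‖ ∫ |w| ga 1 w [(1+|y+w-z|)^K sqrt(D z) + (1+|y+w-x|)^K sqrt(D x)] dw ≤ C'‖a‖(...)  (peetre).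
Finally ‖Hv ν y (z-x)‖ = ⟪Hv ν y (z-x), a⟫ for a unit vector a (or take a = Hv ν y (z-x)), and use the symmetry.
-/

set_option autoImplicit false

open MeasureTheory Filter Topology Metric Set
open scoped RealInnerProductSpace ENNReal

namespace Pool.Agent.H1.LD

open Pool.Agent.RZ

variable {d : ℕ}

private theorem DifH_repr (ν : Measure (X d)) [IsFiniteMeasure ν] (y a c : X d) :
    gc d 2 / 4 * ⟪Hv ν y c, a⟫ = ∫ w : X d, ga 1 w * ⟪w, a⟫ * ⟪Uv ν 1 (y + w), c⟫ := by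
  obtain ⟨C₂, hC₂, hb⟩ := poly_ga d 1 (b := 1) (b' := 0) (by norm_num)
  have hb0 : ∀ v : X d, ga 0 v = 1 := fun v => by simp [ga]
  have hg1 : Continuous (ga 1 : X d → ℝ) := ga_continuous 1
  have hint : Integrable (Function.uncurry fun (p w : X d) =>
      (ga 1 (p - y - w) * ga 1 w) * (⟪p - y - w, c⟫ * ⟪w, a⟫)) (ν.prod volume) := by
    have hdom : Integrable (fun q : X d × X d => C₂ * ‖c‖ * ‖a‖ * ((1 + ‖q.2‖) ^ 1 * ga 1 q.2)) (ν.prod volume) :=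
      ((ga_integrable (d := d) (b := 1) one_pos 1).const_mul (C₂ * ‖c‖ * ‖a‖)).comp_snd ν
    refine hdom.mono' ?_ ?_
    · apply Continuous.aestronglyMeasurable
      simp only [Function.uncurry_def]
      fun_prop
    · refine Eventually.of_forall fun q => ?_
      simp only [Function.uncurry_def]
      rw [Real.norm_eq_abs, abs_mul, abs_mul, abs_mul, abs_of_nonneg (ga_nonneg _ _), abs_of_nonneg (ga_nonneg _ _)]
      have h1 : |⟪q.1 - y - q.2, c⟫| ≤ ‖q.1 - y - q.2‖ * ‖c‖ := abs_real_inner_le_norm _ _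
      have h2 : |⟪q.2, a⟫| ≤ ‖q.2‖ * ‖a‖ := abs_real_inner_le_norm _ _
      have h3 := hb (q.1 - y - q.2)
      rw [hb0, mul_one, pow_one] at h3
      have hn1 := ga_nonneg 1 (q.1 - y - q.2)
      have hn2 := ga_nonneg 1 q.2
      have h4 : ga 1 (q.1 - y - q.2) * |⟪q.1 - y - q.2, c⟫| ≤ C₂ * ‖c‖ := by
        calc ga 1 (q.1 - y - q.2) * |⟪q.1 - y - q.2, c⟫|
            ≤ ga 1 (q.1 - y - q.2) * (‖q.1 - y - q.2‖ * ‖c‖) := mul_le_mul_of_nonneg_left h1 hn1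
          _ ≤ ((1 + ‖q.1 - y - q.2‖) * ga 1 (q.1 - y - q.2)) * ‖c‖ := by
            have : 0 ≤ ga 1 (q.1 - y - q.2) * ‖c‖ := mul_nonneg hn1 (norm_nonneg _)
            nlinarith
          _ ≤ C₂ * ‖c‖ := mul_le_mul_of_nonneg_right h3 (norm_nonneg _)
      have h5 : ga 1 q.2 * |⟪q.2, a⟫| ≤ ‖a‖ * ((1 + ‖q.2‖) ^ 1 * ga 1 q.2) := by
        calc ga 1 q.2 * |⟪q.2, a⟫| ≤ ga 1 q.2 * (‖q.2‖ * ‖a‖) := mul_le_mul_of_nonneg_left h2 hn2
          _ ≤ ‖a‖ * ((1 + ‖q.2‖) ^ 1 * ga 1 q.2) := by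
            have : 0 ≤ ga 1 q.2 * ‖a‖ := mul_nonneg hn2 (norm_nonneg _)
            rw [pow_one]
            nlinarith
      calc ga 1 (q.1 - y - q.2) * ga 1 q.2 * (|⟪q.1 - y - q.2, c⟫| * |⟪q.2, a⟫|)
          = (ga 1 (q.1 - y - q.2) * |⟪q.1 - y - q.2, c⟫|) * (ga 1 q.2 * |⟪q.2, a⟫|) := by ring
        _ ≤ (C₂ * ‖c‖) * (‖a‖ * ((1 + ‖q.2‖) ^ 1 * ga 1 q.2)) :=
            mul_le_mul h4 h5 (mul_nonneg hn2 (abs_nonneg _)) (by positivity)
        _ = C₂ * ‖c‖ * ‖a‖ * ((1 + ‖q.2‖) ^ 1 * ga 1 q.2) := by ring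
  calc gc d 2 / 4 * ⟪Hv ν y c, a⟫
      = ∫ p, gc d 2 / 4 * (ga (1 / 2) (p - y) * (⟪p - y, c⟫ * ⟪p - y, a⟫ - ⟪c, a⟫)) ∂ν := by
        rw [Hv_inner, integral_const_mul]
    _ = ∫ p, (∫ w : X d, (ga 1 (p - y - w) * ga 1 w) * (⟪p - y - w, c⟫ * ⟪w, a⟫)) ∂ν := by
        apply integral_congr_ae
        refine Eventually.of_forall fun p => ?_
        simp only
        rw [ga_hess_repr, real_inner_comm a c]
        ring
    _ = ∫ w : X d, (∫ p, (ga 1 (p - y - w) * ga 1 w) * (⟪p - y - w, c⟫ * ⟪w, a⟫) ∂ν) :=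
        integral_integral_swap hint
    _ = ∫ w : X d, ga 1 w * ⟪w, a⟫ * ⟪Uv ν 1 (y + w), c⟫ := by
        apply integral_congr_ae
        refine Eventually.of_forall fun w => ?_
        simp only
        rw [Uv_inner ν one_pos, ← integral_const_mul]
        apply integral_congr_ae
        refine Eventually.of_forall fun p => ?_
        simp only
        rw [sub_sub]
        ring

theorem H_diff (d n K : ℕ) : ∃ C : ℝ, 0 < C ∧ ∀ (ν : Measure (X d)) (S : Set (X d)) (D : X d → ℝ),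
    Sd n K ν S D → ∀ z ∈ S, ∀ x ∈ S, ∀ y,
      ‖Hv ν y (z - x)‖ ≤ C * ((1 + ‖y - z‖) ^ K * Real.sqrt (D z) +
        (1 + ‖y - x‖) ^ K * Real.sqrt (D x)) := by
  obtain ⟨C₁, hC₁, hU⟩ := U_diff d n K
  have hgc : 0 < gc d 2 := gc_pos (by norm_num)
  set I : ℝ := ∫ w : X d, (1 + ‖w‖) ^ (K + 1) * ga 1 w with hI
  have hI0 : 0 ≤ I := integral_nonneg fun w => mul_nonneg (by positivity) (ga_nonneg _ _)
  have hIint : Integrable (fun w : X d => (1 + ‖w‖) ^ (K + 1) * ga 1 w) := ga_integrable one_pos (K + 1)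
  have hCpos : 0 < 4 * C₁ * (I + 1) / gc d 2 := div_pos (mul_pos (by linarith) (by linarith)) hgc
  refine ⟨4 * C₁ * (I + 1) / gc d 2, hCpos, ?_⟩
  intro ν S D hSd z hz x hx y
  have := hSd.fin
  set c := z - x with hc
  set a := Hv ν y c with ha
  set M := (1 + ‖y - z‖) ^ K * Real.sqrt (D z) + (1 + ‖y - x‖) ^ K * Real.sqrt (D x) with hM
  have hM0 : 0 ≤ M := add_nonneg (mul_nonneg (by positivity) (Real.sqrt_nonneg _)) (mul_nonneg (by positivity) (Real.sqrt_nonneg _))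
  have hrep := DifH_repr ν y a c
  rw [← ha, real_inner_self_eq_norm_sq] at hrep
  have hbound : |∫ w : X d, ga 1 w * ⟪w, a⟫ * ⟪Uv ν 1 (y + w), c⟫| ≤ ‖a‖ * C₁ * M * I := by
    rw [← Real.norm_eq_abs, hI, ← integral_const_mul]
    apply norm_integral_le_of_norm_le (hIint.const_mul _)
    refine Eventually.of_forall fun w => ?_
    rw [Real.norm_eq_abs, abs_mul, abs_mul, abs_of_nonneg (ga_nonneg _ _), real_inner_comm]
    have h1 := hU ν S D hSd 1 (by norm_num) (by norm_num) z hz x hx (y + w)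
    rw [← hc, real_inner_comm] at h1
    rw [real_inner_comm] at h1
    have h2 : |⟪a, w⟫| ≤ ‖a‖ * ‖w‖ := abs_real_inner_le_norm _ _
    have hp1 := peetre K (y + w) y z
    have hp2 := peetre K (y + w) y x
    rw [add_sub_cancel_left] at hp1 hp2
    have h3 : (1 + ‖y + w - z‖) ^ K * Real.sqrt (D z) + (1 + ‖y + w - x‖) ^ K * Real.sqrt (D x) ≤
        (1 + ‖w‖) ^ K * M := by
      have e1 := mul_le_mul_of_nonneg_right hp1 (Real.sqrt_nonneg (D z))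
      have e2 := mul_le_mul_of_nonneg_right hp2 (Real.sqrt_nonneg (D x))
      rw [hM]
      calc _ ≤ (1 + ‖w‖) ^ K * (1 + ‖y - z‖) ^ K * Real.sqrt (D z) +
            (1 + ‖w‖) ^ K * (1 + ‖y - x‖) ^ K * Real.sqrt (D x) := add_le_add e1 e2
        _ = _ := by ring
    have h4 : |⟪c, Uv ν 1 (y + w)⟫| ≤ C₁ * ((1 + ‖w‖) ^ K * M) :=
      h1.trans (mul_le_mul_of_nonneg_left h3 hC₁.le)
    have hg := ga_nonneg 1 w
    have h5 : ‖w‖ ≤ 1 + ‖w‖ := by linarith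
    have hN : (0:ℝ) ≤ 1 + ‖w‖ := by positivity
    rw [real_inner_comm w a] at h2
    calc ga 1 w * |⟪a, w⟫| * |⟪Uv ν 1 (y + w), c⟫|
        ≤ ga 1 w * (‖a‖ * ‖w‖) * (C₁ * ((1 + ‖w‖) ^ K * M)) := by
          rw [real_inner_comm c (Uv ν 1 (y + w)), real_inner_comm w a]
          exact mul_le_mul (mul_le_mul_of_nonneg_left h2 hg) h4 (abs_nonneg _)
            (mul_nonneg hg (mul_nonneg (norm_nonneg _) (norm_nonneg _)))
      _ ≤ ga 1 w * (‖a‖ * (1 + ‖w‖)) * (C₁ * ((1 + ‖w‖) ^ K * M)) := by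
          apply mul_le_mul_of_nonneg_right _ (mul_nonneg hC₁.le (mul_nonneg (pow_nonneg hN _) hM0))
          exact mul_le_mul_of_nonneg_left (mul_le_mul_of_nonneg_left h5 (norm_nonneg _)) hg
      _ = ‖a‖ * C₁ * M * ((1 + ‖w‖) ^ (K + 1) * ga 1 w) := by ring
  have h6 : gc d 2 / 4 * ‖a‖ ^ 2 ≤ ‖a‖ * C₁ * M * I := by
    rw [hrep]; exact (le_abs_self _).trans hbound
  rcases eq_or_lt_of_le (norm_nonneg a) with h0 | h0
  · rw [← h0]; exact mul_nonneg hCpos.le hM0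
  · have h7 : gc d 2 / 4 * ‖a‖ ≤ C₁ * M * I := by
      have : (gc d 2 / 4 * ‖a‖) * ‖a‖ ≤ (C₁ * M * I) * ‖a‖ := by nlinarith
      exact le_of_mul_le_mul_right this h0
    have h8 : ‖a‖ ≤ 4 * C₁ * I / gc d 2 * M := by
      rw [div_mul_eq_mul_div, le_div_iff₀ hgc]
      nlinarith
    refine h8.trans ?_
    apply mul_le_mul_of_nonneg_right _ hM0
    apply div_le_div_of_nonneg_right _ hgc.le
    nlinarith

end Pool.Agent.H1.LD
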