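import Pool.Agent.H1.LD.DifU

/-!
th_diff.  g(s) = th ν (1/2) (z + s(y-z)) has derivative g'(s) = ⟪y - z, Uv ν (1/2) (z+s(y-z))⟫ (differentiate under the integral, ν finite, all bounded);
by U_diff (b = 1/2, points y, z) |g'(s)| ≤ C (1+|y-z|)^K (sqrt(D z)+sqrt(D y)) for s in [0,1] (|z+s(y-z)-z| ≤ |y-z| etc.); mean value inequality.
-/

set_option autoImplicit false

open MeasureTheory Filter Topology Metric Set
open scoped RealInnerProductSpace ENNReal

namespace Pool.Agent.H1.LD

open Pool.Agent.RZ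

variable {d : ℕ}

private theorem DifT_norm_ga (w : X d) : ‖w‖ * ga (1 / 2) w ≤ 1 := by
  unfold ga
  have h1 : ‖w‖ ≤ Real.exp (1 / 2 * ‖w‖ ^ 2) := by
    have h2 := Real.add_one_le_exp (1 / 2 * ‖w‖ ^ 2)
    nlinarith [sq_nonneg (‖w‖ - 1)]
  rw [Real.exp_neg, ← div_eq_mul_inv, div_le_one (Real.exp_pos _)]
  exact h1

private theorem DifT_kernel (x z v : X d) (s : ℝ) :
    HasDerivAt (fun s : ℝ => ga (1 / 2) (x - (z + s • v)))
      (ga (1 / 2) (x - (z + s • v)) * ⟪x - (z + s • v), v⟫) s := by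
  have h1 : HasDerivAt (fun s : ℝ => x - (z + s • v)) (-v) s := by
    have h2 : HasDerivAt (fun s : ℝ => s • v) ((1 : ℝ) • v) s := (hasDerivAt_id s).smul_const v
    have h3 := (h2.const_add z).const_sub x
    simpa using h3
  have h4 := h1.norm_sq
  have h5 : HasDerivAt (fun s : ℝ => -(1 / 2 * ‖x - (z + s • v)‖ ^ 2))
      (-(1 / 2 * (2 * ⟪x - (z + s • v), -v⟫))) s := (h4.const_mul (1 / 2)).neg
  have h6 := h5.exp
  unfold ga
  convert h6 using 1
  rw [inner_neg_right]
  ring

private theorem DifT_kernel_bd (x p v : X d) :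
    |ga (1 / 2) (x - p) * ⟪x - p, v⟫| ≤ ‖v‖ := by
  rw [abs_mul, abs_of_pos (ga_pos _ _)]
  have h1 := abs_real_inner_le_norm (x - p) v
  have h2 := DifT_norm_ga (x - p)
  calc ga (1 / 2) (x - p) * |⟪x - p, v⟫| ≤ ga (1 / 2) (x - p) * (‖x - p‖ * ‖v‖) :=
        mul_le_mul_of_nonneg_left h1 (ga_nonneg _ _)
    _ = (‖x - p‖ * ga (1 / 2) (x - p)) * ‖v‖ := by ring
    _ ≤ 1 * ‖v‖ := mul_le_mul_of_nonneg_right h2 (norm_nonneg _)
    _ = ‖v‖ := one_mul _

private theorem DifT_int_smul (ν : Measure (X d)) [IsFiniteMeasure ν] (p : X d) :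
    Integrable (fun x => ga (1 / 2) (x - p) • (x - p)) ν := by
  have hc : Continuous (fun x : X d => ga (1 / 2) (x - p) • (x - p)) :=
    ((ga_continuous (1 / 2)).comp (continuous_id.sub continuous_const)).smul
      (continuous_id.sub continuous_const)
  refine Integrable.of_bound hc.aestronglyMeasurable 1 (ae_of_all _ fun x => ?_)
  rw [norm_smul, Real.norm_of_nonneg (ga_nonneg _ _), mul_comm]
  exact DifT_norm_ga _

private theorem DifT_deriv (ν : Measure (X d)) [IsFiniteMeasure ν] (z v : X d) (s : ℝ) :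
    HasDerivAt (fun s : ℝ => th ν (1 / 2) (z + s • v)) (⟪Uv ν (1 / 2) (z + s • v), v⟫) s := by
  have hcg : ∀ s : ℝ, Continuous (fun x : X d => ga (1 / 2) (x - (z + s • v))) := fun s =>
    (ga_continuous (1 / 2)).comp (continuous_id.sub continuous_const)
  have hci : ∀ s : ℝ, Continuous (fun x : X d => ga (1 / 2) (x - (z + s • v)) *
      ⟪x - (z + s • v), v⟫) := fun s =>
    (hcg s).mul ((continuous_id.sub continuous_const).inner continuous_const)
  have h := (hasDerivAt_integral_of_dominated_loc_of_deriv_le (μ := ν) (x₀ := s)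
    (s := Set.univ) (bound := fun _ => ‖v‖)
    (F := fun (s : ℝ) (x : X d) => ga (1 / 2) (x - (z + s • v)))
    (F' := fun (s : ℝ) (x : X d) => ga (1 / 2) (x - (z + s • v)) * ⟪x - (z + s • v), v⟫)
    Filter.univ_mem
    (Eventually.of_forall fun s => (hcg s).aestronglyMeasurable)
    (Integrable.of_bound (hcg s).aestronglyMeasurable 1 (ae_of_all _ fun x => by
      rw [Real.norm_of_nonneg (ga_nonneg _ _)]
      exact ga_le_one (by norm_num) _))
    (hci s).aestronglyMeasurable
    (ae_of_all _ fun x s _ => by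
      rw [Real.norm_eq_abs]
      exact DifT_kernel_bd _ _ _)
    (integrable_const _)
    (ae_of_all _ fun x s _ => DifT_kernel x z v s)).2
  have heq : ⟪Uv ν (1 / 2) (z + s • v), v⟫ =
      ∫ x, ga (1 / 2) (x - (z + s • v)) * ⟪x - (z + s • v), v⟫ ∂ν := by
    unfold Uv
    rw [real_inner_comm, ← integral_inner (DifT_int_smul ν (z + s • v)) v]
    refine integral_congr_ae (ae_of_all _ fun x => ?_)
    simp only
    rw [inner_smul_right, real_inner_comm]
  rw [heq]
  exact h

theorem th_diff (d n K : ℕ) : ∃ C : ℝ, 0 < C ∧ ∀ (ν : Measure (X d)) (S : Set (X d)) (D : X d → ℝ),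
    Sd n K ν S D → ∀ z ∈ S, ∀ y ∈ S,
      |th ν (1 / 2) y - th ν (1 / 2) z| ≤ C * (1 + ‖y - z‖) ^ K *
        (Real.sqrt (D z) + Real.sqrt (D y)) := by
  obtain ⟨C, hC, hU⟩ := U_diff d n K
  refine ⟨C, hC, fun ν S D hS z hz y hy => ?_⟩
  have := hS.fin
  have hder : ∀ s : ℝ, HasDerivAt (fun s : ℝ => th ν (1 / 2) (z + s • (y - z)))
      (⟪Uv ν (1 / 2) (z + s • (y - z)), y - z⟫) s := fun s => DifT_deriv ν z (y - z) s
  have hmv := norm_image_sub_le_of_norm_deriv_le_segment_01'
    (f := fun s : ℝ => th ν (1 / 2) (z + s • (y - z)))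
    (f' := fun s : ℝ => ⟪Uv ν (1 / 2) (z + s • (y - z)), y - z⟫)
    (C := C * (1 + ‖y - z‖) ^ K * (Real.sqrt (D z) + Real.sqrt (D y)))
    (fun s _ => (hder s).hasDerivWithinAt) (fun s hs => by
      have h1 := hU ν S D hS (1 / 2) (by norm_num) (by norm_num) z hz y hy (z + s • (y - z))
      have h2 : ‖z + s • (y - z) - z‖ ≤ ‖y - z‖ := by
        rw [add_sub_cancel_left, norm_smul, Real.norm_of_nonneg hs.1]
        exact mul_le_of_le_one_left (norm_nonneg _) hs.2.le
      have h3 : ‖z + s • (y - z) - y‖ ≤ ‖y - z‖ := by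
        have h4 : z + s • (y - z) - y = -((1 - s) • (y - z)) := by
          rw [sub_smul, one_smul]
          abel
        rw [h4, norm_neg, norm_smul, Real.norm_of_nonneg (by linarith [hs.2])]
        exact mul_le_of_le_one_left (norm_nonneg _) (by linarith [hs.1])
      have h5 : (1 + ‖z + s • (y - z) - z‖) ^ K ≤ (1 + ‖y - z‖) ^ K :=
        pow_le_pow_left₀ (by positivity) (by linarith) _
      have h6 : (1 + ‖z + s • (y - z) - y‖) ^ K ≤ (1 + ‖y - z‖) ^ K :=
        pow_le_pow_left₀ (by positivity) (by linarith) _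
      rw [Real.norm_eq_abs]
      have h7 : |⟪Uv ν (1 / 2) (z + s • (y - z)), y - z⟫| =
          |⟪z - y, Uv ν (1 / 2) (z + s • (y - z))⟫| := by
        rw [real_inner_comm, ← neg_sub z y, inner_neg_left, abs_neg]
      rw [h7]
      refine h1.trans ?_
      rw [mul_assoc]
      refine mul_le_mul_of_nonneg_left ?_ hC.le
      rw [mul_add]
      exact add_le_add (mul_le_mul_of_nonneg_right h5 (Real.sqrt_nonneg _))
        (mul_le_mul_of_nonneg_right h6 (Real.sqrt_nonneg _)))
  simp only [one_smul, zero_smul, add_zero, add_sub_cancel] at hmv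
  rw [Real.norm_eq_abs] at hmv
  exact hmv

end Pool.Agent.H1.LD
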