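import Pool.Agent.H1.LD.Sup

/-!
U_diff.  Jf n ν b x y - Jf n ν b z y = 2b ⟪z - x... : (n-2b⟪p-x,p-y⟫) - (n-2b⟪p-z,p-y⟫) = 2b⟪x-z,p-y⟫ for the integration variable p, so
2b ⟪x - z, Uv ν b y⟫ = Jf n ν b x y - Jf n ν b z y (all integrals converge absolutely: ν finite, poly * Gaussian bounded); b ≥ 1/16 and J_wide for z and for x.
-/

set_option autoImplicit false

open MeasureTheory Filter Topology Metric Set
open scoped RealInnerProductSpace ENNReal

namespace Pool.Agent.H1.LD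

open Pool.Agent.RZ

variable {d : ℕ}

private theorem DifU_integrable_of_bounded {E : Type} [NormedAddCommGroup E] {ν : Measure (X d)} [IsFiniteMeasure ν] {f : X d → E}
    (hf : AEStronglyMeasurable f ν) {C : ℝ} (h : ∀ p, ‖f p‖ ≤ C) : Integrable f ν :=
  Integrable.of_bound hf C (Eventually.of_forall h)

private theorem DifU_ga0 (v : X d) : ga 0 v = 1 := by
  unfold ga
  rw [zero_mul, neg_zero, Real.exp_zero]

private theorem DifU_int_vec {ν : Measure (X d)} [IsFiniteMeasure ν] {b : ℝ} (hb : 0 < b) (y : X d) :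
    Integrable (fun p : X d => ga b (p - y) • (p - y)) ν := by
  obtain ⟨C, hC, h⟩ := poly_ga d 1 hb
  refine DifU_integrable_of_bounded (C := C) ?_ ?_
  · refine Continuous.aestronglyMeasurable ?_
    exact ((ga_continuous b).comp (continuous_id.sub continuous_const)).smul (continuous_id.sub continuous_const)
  · intro p
    have h1 := h (p - y)
    rw [DifU_ga0, pow_one, mul_one] at h1
    rw [norm_smul, Real.norm_of_nonneg (ga_nonneg _ _)]
    have h2 := ga_nonneg b (p - y)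
    nlinarith [norm_nonneg (p - y)]

private theorem DifU_int_J {ν : Measure (X d)} [IsFiniteMeasure ν] (n : ℕ) {b : ℝ} (hb : 0 < b) (z y : X d) :
    Integrable (fun p : X d => ((n : ℝ) - 2 * b * ⟪p - z, p - y⟫) * ga b (p - y)) ν := by
  obtain ⟨C, hC, h⟩ := poly_ga d 2 hb
  refine DifU_integrable_of_bounded (C := ((n : ℝ) + 2 * b * (1 + ‖y - z‖)) * C) ?_ ?_
  · refine Continuous.aestronglyMeasurable ?_
    have h1 : Continuous (fun p : X d => ga b (p - y)) := (ga_continuous b).comp (continuous_id.sub continuous_const)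
    have h2 : Continuous (fun p : X d => ⟪p - z, p - y⟫) := by fun_prop
    exact (continuous_const.sub (continuous_const.mul h2)).mul h1
  · intro p
    have h1 := h (p - y)
    rw [DifU_ga0, mul_one] at h1
    have h2 := ga_nonneg b (p - y)
    rw [norm_mul, Real.norm_of_nonneg h2]
    set s : ℝ := ‖p - y‖ with hs
    have hs0 : 0 ≤ s := norm_nonneg _
    set r : ℝ := ‖y - z‖ with hr
    have hr0 : 0 ≤ r := norm_nonneg _
    have h3 : ‖p - z‖ ≤ s + r := by
      have : p - z = (p - y) + (y - z) := by abel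
      rw [this]
      exact norm_add_le _ _
    have h4 : |⟪p - z, p - y⟫| ≤ (s + r) * s :=
      le_trans (abs_real_inner_le_norm _ _) (mul_le_mul_of_nonneg_right h3 hs0)
    have h5 : ‖(n : ℝ) - 2 * b * ⟪p - z, p - y⟫‖ ≤ ((n : ℝ) + 2 * b * (1 + r)) * (1 + s) ^ 2 := by
      have hn : (0 : ℝ) ≤ n := Nat.cast_nonneg n
      have h6 : ‖(n : ℝ) - 2 * b * ⟪p - z, p - y⟫‖ ≤ (n : ℝ) + 2 * b * ((s + r) * s) := by
        calc ‖(n : ℝ) - 2 * b * ⟪p - z, p - y⟫‖ ≤ ‖(n : ℝ)‖ + ‖2 * b * ⟪p - z, p - y⟫‖ := norm_sub_le _ _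
          _ = (n : ℝ) + 2 * b * |⟪p - z, p - y⟫| := by
            rw [Real.norm_of_nonneg hn, norm_mul, Real.norm_of_nonneg (by positivity), Real.norm_eq_abs]
          _ ≤ _ := by gcongr
      refine le_trans h6 ?_
      have h7 : (s + r) * s ≤ (1 + r) * (1 + s) ^ 2 := by nlinarith [mul_nonneg hr0 hs0, mul_nonneg hr0 (mul_nonneg hs0 hs0)]
      have h8 : (n : ℝ) ≤ n * (1 + s) ^ 2 := by
        have : (1 : ℝ) ≤ (1 + s) ^ 2 := by nlinarith
        exact le_mul_of_one_le_right hn this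
      have h9 : 2 * b * ((s + r) * s) ≤ 2 * b * ((1 + r) * (1 + s) ^ 2) := by gcongr
      calc (n : ℝ) + 2 * b * ((s + r) * s) ≤ n * (1 + s) ^ 2 + 2 * b * ((1 + r) * (1 + s) ^ 2) := add_le_add h8 h9
        _ = _ := by ring
    have hpos : 0 ≤ (n : ℝ) + 2 * b * (1 + r) := by positivity
    calc ‖(n : ℝ) - 2 * b * ⟪p - z, p - y⟫‖ * ga b (p - y)
        ≤ (((n : ℝ) + 2 * b * (1 + r)) * (1 + s) ^ 2) * ga b (p - y) := mul_le_mul_of_nonneg_right h5 h2
      _ = ((n : ℝ) + 2 * b * (1 + r)) * ((1 + s) ^ 2 * ga b (p - y)) := by ring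
      _ ≤ ((n : ℝ) + 2 * b * (1 + r)) * C := mul_le_mul_of_nonneg_left h1 hpos

private theorem DifU_id {ν : Measure (X d)} [IsFiniteMeasure ν] (n : ℕ) {b : ℝ} (hb : 0 < b) (z x y : X d) :
    2 * b * ⟪z - x, Uv ν b y⟫ = Jf n ν b z y - Jf n ν b x y := by
  unfold Uv Jf
  rw [← integral_sub (DifU_int_J n hb z y) (DifU_int_J n hb x y), ← integral_inner (DifU_int_vec hb y), ← integral_const_mul]
  refine integral_congr_ae (Eventually.of_forall fun p => ?_)
  simp only [inner_smul_right, inner_sub_left]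
  ring

theorem U_diff (d n K : ℕ) : ∃ C : ℝ, 0 < C ∧ ∀ (ν : Measure (X d)) (S : Set (X d)) (D : X d → ℝ),
    Sd n K ν S D → ∀ b : ℝ, 1 / 16 ≤ b → b ≤ 2 → ∀ z ∈ S, ∀ x ∈ S, ∀ y,
      |⟪z - x, Uv ν b y⟫| ≤ C * ((1 + ‖y - z‖) ^ K * Real.sqrt (D z) +
        (1 + ‖y - x‖) ^ K * Real.sqrt (D x)) := by
  obtain ⟨C, hC, h⟩ := J_wide d n K
  refine ⟨8 * C, by positivity, ?_⟩
  intro ν S D hS b hb1 hb2 z hz x hx y
  have := hS.fin
  have hb : 0 < b := by linarith
  have h1 := DifU_id (ν := ν) n hb z x y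
  have h2 := h ν S D hS b hb1 hb2 z hz y
  have h3 := h ν S D hS b hb1 hb2 x hx y
  have h4 : 2 * b * |⟪z - x, Uv ν b y⟫| ≤ C * (1 + ‖y - z‖) ^ K * Real.sqrt (D z) + C * (1 + ‖y - x‖) ^ K * Real.sqrt (D x) := by
    calc 2 * b * |⟪z - x, Uv ν b y⟫| = |2 * b * ⟪z - x, Uv ν b y⟫| := by
          rw [abs_mul, abs_of_pos (by positivity : 0 < 2 * b)]
      _ = |Jf n ν b z y - Jf n ν b x y| := by rw [h1]
      _ ≤ |Jf n ν b z y| + |Jf n ν b x y| := abs_sub _ _
      _ ≤ _ := add_le_add h2 h3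
  have h5 : (1 / 8 : ℝ) * |⟪z - x, Uv ν b y⟫| ≤ 2 * b * |⟪z - x, Uv ν b y⟫| :=
    mul_le_mul_of_nonneg_right (by linarith) (abs_nonneg _)
  nlinarith

end Pool.Agent.H1.LD
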