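import Pool.Agent.H1.LD.Sta
import Pool.Agent.RZ.Bl1

/-!
Dynamic data and the transfer from unit scale: definitions.
-/

set_option autoImplicit false

open MeasureTheory Filter Topology Metric Set
open scoped RealInnerProductSpace ENNReal

namespace Pool.Agent.H1.LD

open Pool.Agent.RZ

variable {d : ℕ}

/-- dynamic data: at every scale `t ≤ 1` the function `D z t` controls the homogeneity defect
about the points of `S`, and `Ds z r` controls `D z t` and `∫_0^r D z t dt / t` -/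
structure Dy (n K : ℕ) (μ : Measure (X d)) (S : Set (X d)) (D Ds : X d → ℝ → ℝ) : Prop where
  fin : IsFiniteMeasure μ
  meas : Measurable (Function.uncurry D)
  nn : ∀ z t, 0 ≤ D z t
  smeas : MeasurableSet S
  ae : ∀ᵐ z ∂μ, z ∈ S
  j : ∀ z ∈ S, ∀ t, 0 < t → t ≤ 1 → ∀ y,
    |Jf n (blow n 0 t μ) 4 (t⁻¹ • z) y| ≤ (1 + ‖y - t⁻¹ • z‖) ^ K * Real.sqrt (D z t)
  dsm : ∀ r, Measurable fun z => Ds z r
  dsn : ∀ z r, 0 ≤ Ds z r
  le : ∀ z ∈ S, ∀ t r, 0 < t → t ≤ r → r ≤ 1 → D z t ≤ Ds z r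
  int : ∀ z ∈ S, ∀ r, 0 < r → r ≤ 1 →
    IntegrableOn (fun t => D z t / t) (Ioc 0 r) ∧ ∫ t in Ioc 0 r, D z t / t ≤ Ds z r
  mono : ∀ z ∈ S, ∀ r r', 0 < r → r ≤ r' → r' ≤ 1 → Ds z r ≤ Ds z r'
  tend : ∀ z ∈ S, Tendsto (Ds z) (𝓝[>] 0) (𝓝 0)
  fin1 : Integrable (fun z => Ds z 1) μ

/-- the density at scale `t` -/
noncomputable def tT (n : ℕ) (μ : Measure (X d)) (t : ℝ) (y : X d) : ℝ :=
  th (blow n 0 t μ) (1 / 2) (t⁻¹ • y)

/-- the energy density at scale `t` -/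
noncomputable def fT (n : ℕ) (μ : Measure (X d)) (t : ℝ) (y : X d) : ℝ :=
  th (blow n 0 t μ) (1 / 2) (t⁻¹ • y) ^ 2 + ‖Uv (blow n 0 t μ) (1 / 2) (t⁻¹ • y)‖ ^ 2

/-- the energy with the Gaussian weight of centre `z₀` and width `r` -/
noncomputable def Af (n : ℕ) (μ : Measure (X d)) (z₀ : X d) (r t : ℝ) : ℝ :=
  ∫ y, ga (1 / 2) (r⁻¹ • (y - z₀)) * fT n μ t y ∂μ

end Pool.Agent.H1.LD
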