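import Pool.Agent.H1.LD.KerA

/-!
ker_id.  A = ‖a‖², B = ‖b‖², p = ⟪a,b⟫, c² = ‖a-b‖² = A + B - 2p, ⟪a,a-b⟫ = A - p, ⟪b,b-a⟫ = B - p.  Multiply by A² B² c⁴: left side 2p(p c² + 2(A-p)(B-p)) = 4pAB - 2p²(A+B);
right side B²(A-p) + A²(B-p) + c²(A²+B²)/2 - c⁴(A+B)/2 = 4pAB - 2p²(A+B)  (ring after substituting c²).
-/

set_option autoImplicit false

open MeasureTheory Filter Topology Metric Set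
open scoped RealInnerProductSpace ENNReal

namespace Pool.Agent.H1.LD

open Pool.Agent.RZ

variable {d : ℕ}

private theorem KerB_alg {x y c p : ℝ} (hx : x ≠ 0) (hy : y ≠ 0) (hc : c ≠ 0) (h : c ^ 2 = x ^ 2 + y ^ 2 - 2 * p) :
    2 * (x⁻¹ ^ 4 * y⁻¹ ^ 4 * p * (p / c ^ 2 + 2 * ((x ^ 2 - p) * (y ^ 2 - p)) / c ^ 4)) =
      x⁻¹ ^ 4 * ((x ^ 2 - p) * c⁻¹ ^ 4 + (c⁻¹ ^ 2 - y⁻¹ ^ 2) / 2) +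
      y⁻¹ ^ 4 * ((y ^ 2 - p) * c⁻¹ ^ 4 + (c⁻¹ ^ 2 - x⁻¹ ^ 2) / 2) := by
  have hp : p = (x ^ 2 + y ^ 2 - c ^ 2) / 2 := by linarith
  subst hp
  field_simp
  ring

/-- the identity: the weighted kernel is the symmetrised Riesz kernel plus an antisymmetric
part -/
theorem ker_id {a b : X d} (ha : a ≠ 0) (hb : b ≠ 0) (h : a ≠ b) :
    2 * (‖a‖⁻¹ ^ 4 * ‖b‖⁻¹ ^ 4 * ⟪a, b⟫ * mi a b) =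
      ‖a‖⁻¹ ^ 4 * (⟪a, a - b⟫ * ‖a - b‖⁻¹ ^ 4 + (‖a - b‖⁻¹ ^ 2 - ‖b‖⁻¹ ^ 2) / 2) +
      ‖b‖⁻¹ ^ 4 * (⟪b, b - a⟫ * ‖a - b‖⁻¹ ^ 4 + (‖a - b‖⁻¹ ^ 2 - ‖a‖⁻¹ ^ 2) / 2) := by
  have hx : ‖a‖ ≠ 0 := norm_ne_zero_iff.2 ha
  have hy : ‖b‖ ≠ 0 := norm_ne_zero_iff.2 hb
  have hc : ‖a - b‖ ≠ 0 := norm_ne_zero_iff.2 (sub_ne_zero.2 h)
  have h1 : ⟪a, a - b⟫ = ‖a‖ ^ 2 - ⟪a, b⟫ := by rw [inner_sub_right, real_inner_self_eq_norm_sq]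
  have h2 : ⟪b, b - a⟫ = ‖b‖ ^ 2 - ⟪a, b⟫ := by rw [inner_sub_right, real_inner_self_eq_norm_sq, real_inner_comm]
  have h3 : ‖a - b‖ ^ 2 = ‖a‖ ^ 2 + ‖b‖ ^ 2 - 2 * ⟪a, b⟫ := by rw [norm_sub_sq_real]; ring
  unfold mi
  rw [h1, h2]
  exact KerB_alg hx hy hc h3

end Pool.Agent.H1.LD
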