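import Pool.Agent.H1.LD.Qd
import Pool.Agent.H1.LD.Ker

/-!
Nice measures (definition).
-/

set_option autoImplicit false

open MeasureTheory Filter Topology Metric Set
open scoped RealInnerProductSpace ENNReal

namespace Pool.Agent.H1.LD

open Pool.Agent.RZ

variable {d : ℕ}

/-- measures for which all kernels are absolutely integrable -/
def Nice (ν : Measure (X d)) : Prop :=
  IsFiniteMeasure ν ∧ ∃ C : ℝ, ∀ p : X d, ∫⁻ x, ‖x - p‖ₑ⁻¹ ^ 3 ∂ν ≤ ENNReal.ofReal C

end Pool.Agent.H1.LD
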