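import Pool.Agent.H1.LD.En1A

/-!
Qz_double.  β = 2/t².  |integrand of Kz| ≤ 2β ‖x-z‖⁻² ‖x-Y‖ ga β (x-Y); ∫ ‖x-z‖⁻² dν < ∞ (r⁻² ≤ 1 + r⁻³, Nice; Nice also gives ν{z} = 0).  So Kz ν z β Y is an absolutely convergent integral,
 ‖Kz ν z β Y‖² = ∬ ‖a‖⁻⁴‖b‖⁻⁴⟪a,b⟫ k(a,Y) k(b,Y) dν(x)dν(x'), a = x-z, b = x'-z, k(a,Y) = -2β⟪a,z+a-Y⟫ ga β (z+a-Y); Fubini with dY (∫ |k(a,Y) k(b,Y)| dY ≤ C_t ‖a‖‖b‖), gauss_pair.
 |mt a b t| ≤ C_t ‖a‖‖b‖ gives the integrability claim.  ∫⁻ ‖Kz‖ₑ² = ofReal ∫ ‖Kz‖² (integrable by Fubini), then divide by t^d gc d 4 > 0.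
-/

set_option autoImplicit false

open MeasureTheory Filter Topology Metric Set
open scoped RealInnerProductSpace ENNReal

namespace Pool.Agent.H1.LD

open Pool.Agent.RZ

variable {d : ℕ}

/-- the inverse square of the distance is integrable with respect to a nice measure -/
private theorem En1B_inv_sq {ν : Measure (X d)} (h : Nice ν) (z : X d) :
    Integrable (fun x : X d => ‖x - z‖⁻¹ ^ 2) ν := by
  obtain ⟨hf, C, hC⟩ := h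
  have hm : Measurable (fun x : X d => ‖x - z‖⁻¹ ^ 2) :=
    ((measurable_id.sub_const z).norm.inv).pow_const 2
  refine ⟨hm.aestronglyMeasurable, ?_⟩
  rw [hasFiniteIntegral_iff_enorm]
  have hle : ∀ x : X d, ‖(‖x - z‖⁻¹ ^ 2 : ℝ)‖ₑ ≤ 1 + ‖x - z‖ₑ⁻¹ ^ 3 := by
    intro x
    by_cases hx : x - z = 0
    · rw [hx]; simp
    · have hpos : 0 < ‖x - z‖ := norm_pos_iff.2 hx
      have h1 : ‖(‖x - z‖⁻¹ ^ 2 : ℝ)‖ₑ = ‖x - z‖ₑ⁻¹ ^ 2 := by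
        rw [enorm_pow, enorm_inv hpos.ne', enorm_norm]
      rw [h1]
      set e : ℝ≥0∞ := ‖x - z‖ₑ⁻¹ with he
      rcases le_total e 1 with h2 | h2
      · calc e ^ 2 ≤ 1 := pow_le_one₀ zero_le h2
          _ ≤ 1 + e ^ 3 := le_self_add
      · calc e ^ 2 ≤ e ^ 3 := pow_le_pow_right₀ h2 (by norm_num)
          _ ≤ 1 + e ^ 3 := le_add_self
  calc ∫⁻ x, ‖(‖x - z‖⁻¹ ^ 2 : ℝ)‖ₑ ∂ν ≤ ∫⁻ x, (1 + ‖x - z‖ₑ⁻¹ ^ 3) ∂ν := lintegral_mono hle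
    _ = ν univ + ∫⁻ x, ‖x - z‖ₑ⁻¹ ^ 3 ∂ν := by
        rw [lintegral_add_left measurable_const]; simp
    _ ≤ ν univ + ENNReal.ofReal C := by gcongr; exact hC z
    _ < ⊤ := ENNReal.add_lt_top.2 ⟨measure_lt_top ν univ, ENNReal.ofReal_lt_top⟩

/-- the scalar kernel -/
private noncomputable def En1Bk (z : X d) (β : ℝ) (x Y : X d) : ℝ :=
  ‖x - z‖⁻¹ ^ 4 * (-(2 * β) * ⟪x - z, x - Y⟫) * ga β (x - Y)

private theorem En1Bk_bound (z : X d) {β : ℝ} (hβ : 0 < β) (x Y : X d) :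
    |En1Bk z β x Y| * ‖x - z‖ ≤
      2 * β * ‖x - z‖⁻¹ ^ 2 * (‖x - Y‖ * ga β (x - Y)) := by
  unfold En1Bk
  have hg := ga_nonneg β (x - Y)
  have h1 : |⟪x - z, x - Y⟫| ≤ ‖x - z‖ * ‖x - Y‖ := abs_real_inner_le_norm _ _
  have h2 : |‖x - z‖⁻¹ ^ 4 * (-(2 * β) * ⟪x - z, x - Y⟫) * ga β (x - Y)| =
      ‖x - z‖⁻¹ ^ 4 * (2 * β * |⟪x - z, x - Y⟫|) * ga β (x - Y) := by
    rw [abs_mul, abs_mul, abs_mul, abs_neg, abs_of_nonneg hg,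
      abs_of_nonneg (by positivity : (0:ℝ) ≤ ‖x - z‖⁻¹ ^ 4),
      abs_of_nonneg (by positivity : (0:ℝ) ≤ 2 * β)]
  rw [h2]
  have h3 : ‖x - z‖⁻¹ ^ 4 * (‖x - z‖ * ‖x - z‖) = ‖x - z‖⁻¹ ^ 2 := by
    by_cases hx : ‖x - z‖ = 0
    · rw [hx]; norm_num
    · field_simp
  calc ‖x - z‖⁻¹ ^ 4 * (2 * β * |⟪x - z, x - Y⟫|) * ga β (x - Y) * ‖x - z‖
      ≤ ‖x - z‖⁻¹ ^ 4 * (2 * β * (‖x - z‖ * ‖x - Y‖)) * ga β (x - Y) * ‖x - z‖ := by gcongr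
    _ = 2 * β * (‖x - z‖⁻¹ ^ 4 * (‖x - z‖ * ‖x - z‖)) * (‖x - Y‖ * ga β (x - Y)) := by ring
    _ = _ := by rw [h3]

private theorem En1Bk_meas (z : X d) (β : ℝ) (Y : X d) :
    Measurable (fun x : X d => En1Bk z β x Y • (x - z)) := by
  unfold En1Bk ga
  fun_prop

/-- the vector kernel is integrable -/
private theorem En1B_F {ν : Measure (X d)} (z : X d) (hsq : Integrable (fun x : X d => ‖x - z‖⁻¹ ^ 2) ν)
    {β C : ℝ} (hβ : 0 < β) (hgb : ∀ v : X d, ‖v‖ * ga β v ≤ C) (Y : X d) :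
    Integrable (fun x => En1Bk z β x Y • (x - z)) ν := by
  have hdom : Integrable (fun x : X d => ‖x - z‖⁻¹ ^ 2 * (2 * β * C)) ν := hsq.mul_const _
  have hms : AEStronglyMeasurable (fun x => En1Bk z β x Y • (x - z)) ν :=
    (En1Bk_meas z β Y).aestronglyMeasurable
  refine hdom.mono' hms ?_
  refine Filter.Eventually.of_forall fun x => ?_
  rw [norm_smul, Real.norm_eq_abs]
  have h1 := En1Bk_bound z hβ x Y
  have h2 : 2 * β * ‖x - z‖⁻¹ ^ 2 * (‖x - Y‖ * ga β (x - Y)) ≤ 2 * β * ‖x - z‖⁻¹ ^ 2 * C :=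
    mul_le_mul_of_nonneg_left (hgb _) (by positivity)
  calc |En1Bk z β x Y| * ‖x - z‖ ≤ 2 * β * ‖x - z‖⁻¹ ^ 2 * C := h1.trans h2
    _ = ‖x - z‖⁻¹ ^ 2 * (2 * β * C) := by ring

/-- the triple integrand -/
private noncomputable def En1BG (z : X d) (β : ℝ) (q : (X d × X d) × X d) : ℝ :=
  En1Bk z β q.1.1 q.2 * En1Bk z β q.1.2 q.2 * ⟪q.1.1 - z, q.1.2 - z⟫

private theorem En1BG_meas (z : X d) (β : ℝ) : Measurable (En1BG z β) := by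
  unfold En1BG En1Bk ga
  fun_prop

private theorem En1BG_meas1 (z : X d) (β : ℝ) (p : X d × X d) :
    Measurable (fun Y : X d => En1BG z β (p, Y)) := by
  unfold En1BG En1Bk ga
  fun_prop

private theorem En1BG_meas2 (z : X d) (β : ℝ) (Y : X d) :
    Measurable (fun p : X d × X d => En1BG z β (p, Y)) := by
  unfold En1BG En1Bk ga
  fun_prop

private theorem En1BG_bound (z : X d) {β C : ℝ} (hβ : 0 < β)
    (hgb : ∀ v : X d, ‖v‖ * ga β v ≤ C) (x x' Y : X d) : |En1BG z β ((x, x'), Y)| ≤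
      (2 * β * ‖x - z‖⁻¹ ^ 2) * (2 * β * ‖x' - z‖⁻¹ ^ 2) * C *
        (‖x - Y‖ * ga β (x - Y)) := by
  have h1 := En1Bk_bound z hβ x Y
  have h2 := En1Bk_bound z hβ x' Y
  have h3 : |⟪x - z, x' - z⟫| ≤ ‖x - z‖ * ‖x' - z‖ := abs_real_inner_le_norm _ _
  have h4 := hgb (x' - Y)
  have h5 : 0 ≤ ‖x - Y‖ * ga β (x - Y) := mul_nonneg (norm_nonneg _) (ga_nonneg β _)
  have h6 : 0 ≤ ‖x' - Y‖ * ga β (x' - Y) := mul_nonneg (norm_nonneg _) (ga_nonneg β _)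
  have ha : 0 ≤ |En1Bk z β x Y| * |En1Bk z β x' Y| := by positivity
  have hb : 0 ≤ |En1Bk z β x' Y| * ‖x' - z‖ := by positivity
  have hc : 0 ≤ 2 * β * ‖x - z‖⁻¹ ^ 2 * (‖x - Y‖ * ga β (x - Y)) :=
    mul_nonneg (by positivity) h5
  have hd : 0 ≤ 2 * β * ‖x' - z‖⁻¹ ^ 2 := by positivity
  calc |En1BG z β ((x, x'), Y)| =
        |En1Bk z β x Y| * |En1Bk z β x' Y| * |⟪x - z, x' - z⟫| := by
        unfold En1BG; rw [abs_mul, abs_mul]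
    _ ≤ |En1Bk z β x Y| * |En1Bk z β x' Y| * (‖x - z‖ * ‖x' - z‖) :=
        mul_le_mul_of_nonneg_left h3 ha
    _ = (|En1Bk z β x Y| * ‖x - z‖) * (|En1Bk z β x' Y| * ‖x' - z‖) := by ring
    _ ≤ (2 * β * ‖x - z‖⁻¹ ^ 2 * (‖x - Y‖ * ga β (x - Y))) *
          (2 * β * ‖x' - z‖⁻¹ ^ 2 * (‖x' - Y‖ * ga β (x' - Y))) :=
        mul_le_mul h1 h2 hb hc
    _ ≤ (2 * β * ‖x - z‖⁻¹ ^ 2 * (‖x - Y‖ * ga β (x - Y))) *
          (2 * β * ‖x' - z‖⁻¹ ^ 2 * C) :=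
        mul_le_mul_of_nonneg_left (mul_le_mul_of_nonneg_left h4 hd) hc
    _ = _ := by ring

private theorem En1BG_slice (z : X d) {β C : ℝ} (hβ : 0 < β)
    (hgb : ∀ v : X d, ‖v‖ * ga β v ≤ C) (hgi : Integrable (fun w : X d => ‖w‖ * ga β w))
    (p : X d × X d) : Integrable (fun Y => En1BG z β (p, Y)) := by
  have h1 : Integrable (fun Y : X d => ‖p.1 - Y‖ * ga β (p.1 - Y)) := hgi.comp_sub_left p.1
  have h2 := h1.const_mul ((2 * β * ‖p.1 - z‖⁻¹ ^ 2) * (2 * β * ‖p.2 - z‖⁻¹ ^ 2) * C)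
  have hms : AEStronglyMeasurable (fun Y => En1BG z β (p, Y)) volume :=
    (En1BG_meas1 z β p).aestronglyMeasurable
  refine h2.mono' hms (Filter.Eventually.of_forall fun Y => ?_)
  rw [Real.norm_eq_abs]
  exact En1BG_bound z hβ hgb p.1 p.2 Y

private theorem En1BG_int {ν : Measure (X d)} [IsFiniteMeasure ν] (z : X d)
    (hsq : Integrable (fun x : X d => ‖x - z‖⁻¹ ^ 2) ν) {β C : ℝ} (hβ : 0 < β)
    (hgb : ∀ v : X d, ‖v‖ * ga β v ≤ C) (hgi : Integrable (fun w : X d => ‖w‖ * ga β w)) :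
    Integrable (En1BG z β) ((ν.prod ν).prod volume) := by
  have hGm := En1BG_meas (d := d) z β
  rw [integrable_prod_iff hGm.aestronglyMeasurable]
  refine ⟨Filter.Eventually.of_forall (En1BG_slice z hβ hgb hgi), ?_⟩
  have hmul : Integrable (fun p : X d × X d =>
      (2 * β * ‖p.1 - z‖⁻¹ ^ 2) * (2 * β * ‖p.2 - z‖⁻¹ ^ 2)) (ν.prod ν) :=
    (hsq.const_mul (2 * β)).mul_prod (hsq.const_mul (2 * β))
  have hmul2 := hmul.mul_const (C * ∫ w : X d, ‖w‖ * ga β w)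
  have hms : AEStronglyMeasurable (fun p : X d × X d => ∫ Y, ‖En1BG z β (p, Y)‖) (ν.prod ν) :=
    hGm.norm.aestronglyMeasurable.integral_prod_right'
  refine hmul2.mono' hms (Filter.Eventually.of_forall fun p => ?_)
  have h0 : 0 ≤ ∫ Y, ‖En1BG z β (p, Y)‖ := integral_nonneg fun Y => norm_nonneg _
  rw [Real.norm_of_nonneg h0]
  have h1 : Integrable (fun Y : X d => ‖p.1 - Y‖ * ga β (p.1 - Y)) := hgi.comp_sub_left p.1
  have h2 := h1.const_mul ((2 * β * ‖p.1 - z‖⁻¹ ^ 2) * (2 * β * ‖p.2 - z‖⁻¹ ^ 2) * C)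
  have h3 : ∫ Y : X d, ‖p.1 - Y‖ * ga β (p.1 - Y) = ∫ w : X d, ‖w‖ * ga β w :=
    integral_sub_left_eq_self (fun w : X d => ‖w‖ * ga β w) volume p.1
  calc ∫ Y, ‖En1BG z β (p, Y)‖
      ≤ ∫ Y, ((2 * β * ‖p.1 - z‖⁻¹ ^ 2) * (2 * β * ‖p.2 - z‖⁻¹ ^ 2) * C) *
        (‖p.1 - Y‖ * ga β (p.1 - Y)) := by
        refine integral_mono (En1BG_slice z hβ hgb hgi p).norm h2 fun Y => ?_
        simp only [Real.norm_eq_abs]
        exact En1BG_bound z hβ hgb p.1 p.2 Y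
    _ = ((2 * β * ‖p.1 - z‖⁻¹ ^ 2) * (2 * β * ‖p.2 - z‖⁻¹ ^ 2) * C) *
          ∫ w : X d, ‖w‖ * ga β w := by
        rw [integral_const_mul, h3]
    _ = _ := by ring

private theorem En1BG_pair {ν : Measure (X d)} [IsFiniteMeasure ν] (z : X d)
    (hsq : Integrable (fun x : X d => ‖x - z‖⁻¹ ^ 2) ν) {β C : ℝ} (hβ : 0 < β)
    (hgb : ∀ v : X d, ‖v‖ * ga β v ≤ C) (Y : X d) :
    ‖Kz ν z β Y‖ ^ 2 = ∫ p, En1BG z β (p, Y) ∂(ν.prod ν) := by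
  have hi := En1B_F z hsq hβ hgb Y
  have hKz : Kz ν z β Y = ∫ x, En1Bk z β x Y • (x - z) ∂ν := rfl
  have hGe : ∀ p : X d × X d, En1BG z β (p, Y) =
      ⟪En1Bk z β p.1 Y • (p.1 - z), En1Bk z β p.2 Y • (p.2 - z)⟫ := by
    intro p
    rw [real_inner_smul_left, real_inner_smul_right]
    unfold En1BG; ring
  have hii : Integrable (fun p : X d × X d => En1BG z β (p, Y)) (ν.prod ν) := by
    have hms : AEStronglyMeasurable (fun p : X d × X d => En1BG z β (p, Y)) (ν.prod ν) :=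
      (En1BG_meas2 z β Y).aestronglyMeasurable
    refine (hi.norm.mul_prod hi.norm).mono' hms (Filter.Eventually.of_forall fun p => ?_)
    rw [hGe p]
    exact norm_inner_le_norm _ _
  rw [integral_prod _ hii]
  simp only [hGe]
  have h1 : ∀ x : X d, ∫ x', ⟪En1Bk z β x Y • (x - z), En1Bk z β x' Y • (x' - z)⟫ ∂ν =
      ⟪En1Bk z β x Y • (x - z), Kz ν z β Y⟫ := by
    intro x
    rw [hKz]
    exact integral_inner hi _
  have h2 : ∫ x, ⟪En1Bk z β x Y • (x - z), Kz ν z β Y⟫ ∂ν = ⟪Kz ν z β Y, Kz ν z β Y⟫ := by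
    have h3 : ∀ x : X d, ⟪En1Bk z β x Y • (x - z), Kz ν z β Y⟫ =
        ⟪Kz ν z β Y, En1Bk z β x Y • (x - z)⟫ := fun x => real_inner_comm _ _
    rw [integral_congr_ae (Filter.Eventually.of_forall h3), integral_inner hi, ← hKz]
  rw [integral_congr_ae (Filter.Eventually.of_forall h1), h2, real_inner_self_eq_norm_sq]

private theorem En1BG_space (z : X d) {t : ℝ} (ht : 0 < t) (p : X d × X d) :
    ∫ Y, En1BG z (2 / t ^ 2) (p, Y) = t ^ d * gc d 4 *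
      (‖p.1 - z‖⁻¹ ^ 4 * ‖p.2 - z‖⁻¹ ^ 4 *
      (⟪p.1 - z, p.2 - z⟫ * mt (p.1 - z) (p.2 - z) t)) := by
  have hg := gauss_pair ht (p.1 - z) (p.2 - z) z
  have e1 : z + (p.1 - z) = p.1 := by abel
  have e2 : z + (p.2 - z) = p.2 := by abel
  rw [e1, e2] at hg
  have h1 : ∀ Y : X d, En1BG z (2 / t ^ 2) (p, Y) =
      (‖p.1 - z‖⁻¹ ^ 4 * ‖p.2 - z‖⁻¹ ^ 4 * ⟪p.1 - z, p.2 - z⟫) *
      ((-(2 * (2 / t ^ 2)) * ⟪p.1 - z, p.1 - Y⟫ * ga (2 / t ^ 2) (p.1 - Y)) *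
    (-(2 * (2 / t ^ 2)) * ⟪p.2 - z, p.2 - Y⟫ * ga (2 / t ^ 2) (p.2 - Y))) := by
    intro Y
    unfold En1BG En1Bk
    generalize (2 / t ^ 2 : ℝ) = β
    ring
  rw [integral_congr_ae (Filter.Eventually.of_forall h1), integral_const_mul, hg]
  ring

/-- the main computation -/
private theorem En1B_core {ν : Measure (X d)} (h : Nice ν) (z : X d) {t : ℝ} (ht : 0 < t) :
    Integrable (fun p : X d × X d => ‖p.1 - z‖⁻¹ ^ 4 * ‖p.2 - z‖⁻¹ ^ 4 *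
      (⟪p.1 - z, p.2 - z⟫ * mt (p.1 - z) (p.2 - z) t)) (ν.prod ν) ∧
    Integrable (fun Y : X d => ‖Kz ν z (2 / t ^ 2) Y‖ ^ 2) ∧
    ∫ Y : X d, ‖Kz ν z (2 / t ^ 2) Y‖ ^ 2 = t ^ d * gc d 4 *
      ∫ p : X d × X d, ‖p.1 - z‖⁻¹ ^ 4 * ‖p.2 - z‖⁻¹ ^ 4 *
      (⟪p.1 - z, p.2 - z⟫ * mt (p.1 - z) (p.2 - z) t) ∂(ν.prod ν) := by
  have hfin : IsFiniteMeasure ν := h.1
  have hβ : (0:ℝ) < 2 / t ^ 2 := by positivity
  have hsq := En1B_inv_sq h z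
  have hY0 : ∃ C : ℝ, (∀ v : X d, ‖v‖ * ga (2 / t ^ 2) v ≤ C) := by
    obtain ⟨C, hC, hCb⟩ := poly_ga d 1 hβ
    refine ⟨C, fun v => ?_⟩
    have h1 := hCb v
    have h2 : ga 0 v = 1 := by unfold ga; simp
    rw [h2, pow_one, mul_one] at h1
    have h3 := ga_nonneg (2 / t ^ 2) v
    nlinarith
  obtain ⟨C, hgb⟩ := hY0
  have hgi : Integrable (fun w : X d => ‖w‖ * ga (2 / t ^ 2) w) := by
    have h1 := ga_integrable (d := d) hβ 1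
    have hms : AEStronglyMeasurable (fun w : X d => ‖w‖ * ga (2 / t ^ 2) w) volume :=
      (continuous_norm.mul (ga_continuous (2 / t ^ 2))).aestronglyMeasurable
    refine h1.mono' hms (Filter.Eventually.of_forall fun w => ?_)
    have h3 := ga_nonneg (2 / t ^ 2) w
    rw [Real.norm_of_nonneg (mul_nonneg (norm_nonneg _) h3), pow_one]
    nlinarith
  have hGi := En1BG_int (ν := ν) z hsq hβ hgb hgi
  have hY : ∀ Y : X d, ‖Kz ν z (2 / t ^ 2) Y‖ ^ 2 =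
      ∫ p, En1BG z (2 / t ^ 2) (p, Y) ∂(ν.prod ν) := En1BG_pair z hsq hβ hgb
  have hP := En1BG_space (d := d) z ht
  have hconst : 0 < t ^ d * gc d 4 := mul_pos (pow_pos ht d) (gc_pos (by norm_num))
  refine ⟨?_, ?_, ?_⟩
  · have h1 := hGi.integral_prod_left
    have h2 := h1.const_mul (t ^ d * gc d 4)⁻¹
    refine h2.congr (Filter.Eventually.of_forall fun p => ?_)
    simp only
    rw [hP p, ← mul_assoc, inv_mul_cancel₀ hconst.ne', one_mul]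
  · have h1 := hGi.integral_prod_right
    exact h1.congr (Filter.Eventually.of_forall fun Y => (hY Y).symm)
  · have h2 : ∫ Y : X d, ‖Kz ν z (2 / t ^ 2) Y‖ ^ 2 =
        ∫ Y : X d, ∫ p, En1BG z (2 / t ^ 2) (p, Y) ∂(ν.prod ν) :=
      integral_congr_ae (Filter.Eventually.of_forall hY)
    have h3 : ∫ p, (∫ Y, En1BG z (2 / t ^ 2) (p, Y)) ∂(ν.prod ν) =
        ∫ Y : X d, ∫ p, En1BG z (2 / t ^ 2) (p, Y) ∂(ν.prod ν) :=
      integral_integral_swap (f := fun p Y => En1BG z (2 / t ^ 2) (p, Y)) hGi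
    rw [h2, ← h3, integral_congr_ae (Filter.Eventually.of_forall hP), integral_const_mul]

theorem Qz_double {ν : Measure (X d)} (h : Nice ν) (z : X d) {t : ℝ} (ht : 0 < t) :
    Integrable (fun p : X d × X d => ‖p.1 - z‖⁻¹ ^ 4 * ‖p.2 - z‖⁻¹ ^ 4 *
      (⟪p.1 - z, p.2 - z⟫ * mt (p.1 - z) (p.2 - z) t)) (ν.prod ν) ∧
    Qz ν z t = ENNReal.ofReal (∫ p : X d × X d, ‖p.1 - z‖⁻¹ ^ 4 * ‖p.2 - z‖⁻¹ ^ 4 *
      (⟪p.1 - z, p.2 - z⟫ * mt (p.1 - z) (p.2 - z) t) ∂(ν.prod ν)) := by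
  obtain ⟨h1, h2, h3⟩ := En1B_core h z ht
  refine ⟨h1, ?_⟩
  have hconst : 0 < t ^ d * gc d 4 := mul_pos (pow_pos ht d) (gc_pos (by norm_num))
  unfold Qz
  have h4 : ∫⁻ Y, ‖Kz ν z (2 / t ^ 2) Y‖ₑ ^ 2 =
      ENNReal.ofReal (∫ Y : X d, ‖Kz ν z (2 / t ^ 2) Y‖ ^ 2) := by
    rw [ofReal_integral_eq_lintegral_ofReal h2 (Filter.Eventually.of_forall fun Y => by positivity)]
    refine lintegral_congr fun Y => ?_
    rw [ENNReal.ofReal_pow (norm_nonneg _), ofReal_norm]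
  rw [h4, h3, ← ENNReal.ofReal_mul (inv_nonneg.2 hconst.le), ← mul_assoc,
    inv_mul_cancel₀ hconst.ne', one_mul]

/-- the double integral of `Qz_double` is nonnegative -/
theorem Qz_double_nonneg {ν : Measure (X d)} (h : Nice ν) (z : X d) {t : ℝ} (ht : 0 < t) :
    0 ≤ ∫ p : X d × X d, ‖p.1 - z‖⁻¹ ^ 4 * ‖p.2 - z‖⁻¹ ^ 4 *
      (⟪p.1 - z, p.2 - z⟫ * mt (p.1 - z) (p.2 - z) t) ∂(ν.prod ν) := by
  obtain ⟨-, -, h3⟩ := En1B_core h z ht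
  have hconst : 0 < t ^ d * gc d 4 := mul_pos (pow_pos ht d) (gc_pos (by norm_num))
  have h0 : 0 ≤ ∫ Y : X d, ‖Kz ν z (2 / t ^ 2) Y‖ ^ 2 :=
    integral_nonneg fun Y => by positivity
  rw [h3] at h0
  exact nonneg_of_mul_nonneg_right h0 hconst

end Pool.Agent.H1.LD
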