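import Pool.Agent.H1.LD.En0

/-!
gauss_pair.  Y = z + (a+b)/2 + w (translation): z+a-Y = (a-b)/2 - w, z+b-Y = -(a-b)/2 - w, |.|²+|.|² = |a-b|²/2 + 2|w|², so the product of the Gaussians is exp(-|a-b|²/s²) ga (4/s²) w.
 ⟪a,(a-b)/2-w⟫⟪b,-(a-b)/2-w⟫ = ⟪a,a-b⟫⟪b,b-a⟫/4 + ⟪a,w⟫⟪b,w⟫ + (linear in w, integral 0); ga_second with b = 4/s²: ∫ ga ⟪a,w⟫⟪b,w⟫ = gc(4/s²) (s²/8) ⟪a,b⟫; gc d (4/s²) = s^d gc d 4 (rescale w = s w').
 (4/s²)² [ ⟪a,a-b⟫⟪b,b-a⟫/4 + (s²/8)⟪a,b⟫ ] = 4⟪..⟫⟪..⟫/s⁴ + 2⟪a,b⟫/s².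
-/

set_option autoImplicit false

open MeasureTheory Filter Topology Metric Set
open scoped RealInnerProductSpace ENNReal

namespace Pool.Agent.H1.LD

open Pool.Agent.RZ

variable {d : ℕ}

private theorem en1A_gc {s : ℝ} (hs : 0 < s) : gc d (4 / s ^ 2) = s ^ d * gc d 4 := by
  have h := MeasureTheory.Measure.integral_comp_smul (volume : Measure (X d)) (fun w : X d => ga 4 w) s⁻¹
  have h1 : (fun w : X d => ga 4 (s⁻¹ • w)) = fun w : X d => ga (4 / s ^ 2) w := by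
    funext w
    unfold ga
    congr 1
    rw [norm_smul, norm_inv, Real.norm_eq_abs, abs_of_pos hs]
    field_simp
  rw [h1] at h
  unfold gc
  rw [h]
  rw [finrank_euclideanSpace, Fintype.card_fin, inv_pow, inv_inv, abs_of_pos (pow_pos hs d), smul_eq_mul]

private theorem en1A_int {B : ℝ} (hB : 0 < B) (f : X d → ℝ) (hf : Continuous f) (C : ℝ) (m : ℕ)
    (hC : ∀ w, |f w| ≤ C * (1 + ‖w‖) ^ m) : Integrable (fun w : X d => ga B w * f w) := by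
  refine ((ga_integrable hB m).const_mul C).mono' ((ga_continuous B).mul hf).aestronglyMeasurable ?_
  refine Filter.Eventually.of_forall fun w => ?_
  rw [Real.norm_eq_abs, abs_mul, abs_of_nonneg (ga_nonneg B w)]
  have h1 := mul_le_mul_of_nonneg_left (hC w) (ga_nonneg B w)
  calc ga B w * |f w| ≤ ga B w * (C * (1 + ‖w‖) ^ m) := h1
    _ = C * ((1 + ‖w‖) ^ m * ga B w) := by ring

theorem gauss_pair {s : ℝ} (hs : 0 < s) (a b : X d) (z : X d) :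
    ∫ Y : X d, (-(2 * (2 / s ^ 2)) * ⟪a, z + a - Y⟫ * ga (2 / s ^ 2) (z + a - Y)) *
      (-(2 * (2 / s ^ 2)) * ⟪b, z + b - Y⟫ * ga (2 / s ^ 2) (z + b - Y)) =
      s ^ d * gc d 4 * mt a b s := by
  have hB : 0 < 4 / s ^ 2 := by positivity
  set h : X d := (1 / 2 : ℝ) • (a - b) with hh
  have htr := integral_add_left_eq_self (μ := (volume : Measure (X d)))
    (fun Y : X d => (-(2 * (2 / s ^ 2)) * ⟪a, z + a - Y⟫ * ga (2 / s ^ 2) (z + a - Y)) *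
      (-(2 * (2 / s ^ 2)) * ⟪b, z + b - Y⟫ * ga (2 / s ^ 2) (z + b - Y))) (z + (1 / 2 : ℝ) • (a + b))
  rw [← htr]
  have e1 : ∀ w : X d, z + a - (z + (1 / 2 : ℝ) • (a + b) + w) = h - w := by
    intro w
    rw [hh]
    module
  have e2 : ∀ w : X d, z + b - (z + (1 / 2 : ℝ) • (a + b) + w) = -h - w := by
    intro w
    rw [hh]
    module
  have hnorm : ∀ w : X d, ‖h - w‖ ^ 2 + ‖-h - w‖ ^ 2 = ‖a - b‖ ^ 2 / 2 + 2 * ‖w‖ ^ 2 := by
    intro w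
    have h1 : ‖-h - w‖ = ‖h + w‖ := by
      rw [← norm_neg]
      congr 1
      abel
    have h2 : ‖h‖ ^ 2 = ‖a - b‖ ^ 2 / 4 := by
      rw [hh, norm_smul, mul_pow]
      norm_num
      ring
    rw [h1, @norm_sub_sq_real, @norm_add_sq_real, h2]
    ring
  have hga : ∀ w : X d, ga (2 / s ^ 2) (h - w) * ga (2 / s ^ 2) (-h - w) =
      Real.exp (-(‖a - b‖ ^ 2 / s ^ 2)) * ga (4 / s ^ 2) w := by
    intro w
    unfold ga
    rw [← Real.exp_add, ← Real.exp_add]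
    congr 1
    have h1 : -(2 / s ^ 2 * ‖h - w‖ ^ 2) + -(2 / s ^ 2 * ‖-h - w‖ ^ 2) =
        -(2 / s ^ 2 * (‖h - w‖ ^ 2 + ‖-h - w‖ ^ 2)) := by ring
    rw [h1, hnorm w]
    field_simp
    ring
  have hF : ∀ w : X d, (-(2 * (2 / s ^ 2)) * ⟪a, z + a - (z + (1 / 2 : ℝ) • (a + b) + w)⟫ *
        ga (2 / s ^ 2) (z + a - (z + (1 / 2 : ℝ) • (a + b) + w))) *
      (-(2 * (2 / s ^ 2)) * ⟪b, z + b - (z + (1 / 2 : ℝ) • (a + b) + w)⟫ *
        ga (2 / s ^ 2) (z + b - (z + (1 / 2 : ℝ) • (a + b) + w))) =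
      (16 / s ^ 4 * Real.exp (-(‖a - b‖ ^ 2 / s ^ 2))) *
        (-(⟪a, h⟫ * ⟪b, h⟫) * ga (4 / s ^ 2) w + (-⟪a, h⟫) * (ga (4 / s ^ 2) w * ⟪w, b⟫) +
          ⟪b, h⟫ * (ga (4 / s ^ 2) w * ⟪w, a⟫) + ga (4 / s ^ 2) w * (⟪w, a⟫ * ⟪w, b⟫)) := by
    intro w
    rw [e1, e2]
    have h1 : (-(2 * (2 / s ^ 2)) * ⟪a, h - w⟫ * ga (2 / s ^ 2) (h - w)) *
        (-(2 * (2 / s ^ 2)) * ⟪b, -h - w⟫ * ga (2 / s ^ 2) (-h - w)) =
        (16 / s ^ 4) * (⟪a, h - w⟫ * ⟪b, -h - w⟫) *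
          (ga (2 / s ^ 2) (h - w) * ga (2 / s ^ 2) (-h - w)) := by
      field_simp
      ring
    rw [h1, hga w, inner_sub_right, inner_sub_right, inner_neg_right, real_inner_comm w a, real_inner_comm w b]
    ring
  simp only [hF]
  rw [integral_const_mul]
  have hi0 : Integrable (fun w : X d => ga (4 / s ^ 2) w) := by
    have := ga_integrable (d := d) hB 0
    simpa using this
  have hi1 : ∀ c : X d, Integrable (fun w : X d => ga (4 / s ^ 2) w * ⟪w, c⟫) := by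
    intro c
    refine en1A_int hB (fun w => ⟪w, c⟫) (by fun_prop) ‖c‖ 1 fun w => ?_
    have h1 := abs_real_inner_le_norm w c
    have h2 := norm_nonneg w
    have h3 := norm_nonneg c
    nlinarith
  have hi2 : Integrable (fun w : X d => ga (4 / s ^ 2) w * (⟪w, a⟫ * ⟪w, b⟫)) := by
    refine en1A_int hB (fun w => ⟪w, a⟫ * ⟪w, b⟫) (by fun_prop) (‖a‖ * ‖b‖) 2 fun w => ?_
    rw [abs_mul]
    have h1 := abs_real_inner_le_norm w a
    have h2 := abs_real_inner_le_norm w b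
    calc |⟪w, a⟫| * |⟪w, b⟫| ≤ (‖w‖ * ‖a‖) * (‖w‖ * ‖b‖) :=
          mul_le_mul h1 h2 (abs_nonneg _) (by positivity)
      _ = (‖a‖ * ‖b‖) * ‖w‖ ^ 2 := by ring
      _ ≤ (‖a‖ * ‖b‖) * (1 + ‖w‖) ^ 2 := by
          refine mul_le_mul_of_nonneg_left ?_ (by positivity)
          exact pow_le_pow_left₀ (norm_nonneg w) (by linarith) 2
  have j1 : Integrable (fun w : X d => -(⟪a, h⟫ * ⟪b, h⟫) * ga (4 / s ^ 2) w) := hi0.const_mul _
  have j2 : Integrable (fun w : X d => (-⟪a, h⟫) * (ga (4 / s ^ 2) w * ⟪w, b⟫)) := (hi1 b).const_mul _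
  have j3 : Integrable (fun w : X d => ⟪b, h⟫ * (ga (4 / s ^ 2) w * ⟪w, a⟫)) := (hi1 a).const_mul _
  have j12 : Integrable (fun w : X d => -(⟪a, h⟫ * ⟪b, h⟫) * ga (4 / s ^ 2) w +
      (-⟪a, h⟫) * (ga (4 / s ^ 2) w * ⟪w, b⟫)) := j1.add j2
  have j123 : Integrable (fun w : X d => -(⟪a, h⟫ * ⟪b, h⟫) * ga (4 / s ^ 2) w +
      (-⟪a, h⟫) * (ga (4 / s ^ 2) w * ⟪w, b⟫) + ⟪b, h⟫ * (ga (4 / s ^ 2) w * ⟪w, a⟫)) := j12.add j3
  rw [integral_add j123 hi2, integral_add j12 j3, integral_add j1 j2, integral_const_mul, integral_const_mul,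
    integral_const_mul, ga_odd, ga_odd, ga_second hB]
  have hgc : ∫ w : X d, ga (4 / s ^ 2) w = s ^ d * gc d 4 := en1A_gc hs
  have hgc' : gc d (4 / s ^ 2) = s ^ d * gc d 4 := en1A_gc hs
  rw [hgc, hgc']
  have ha : ⟪a, h⟫ = 1 / 2 * ⟪a, a - b⟫ := by rw [hh, inner_smul_right]
  have hb : ⟪b, h⟫ = -(1 / 2 * ⟪b, b - a⟫) := by
    rw [hh, inner_smul_right, inner_sub_right, inner_sub_right]
    ring
  rw [ha, hb]
  unfold mt
  field_simp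
  ring

end Pool.Agent.H1.LD
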