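import Pool.Agent.H1.LD.En1

/-!
energy_three.  Let w(a,b) = ‖a‖⁻⁴‖b‖⁻⁴⟪a,b⟫.  (1) Absolute convergence: ∭∫_t |w(a,b) mt a b t| t⁻¹ dt ≤ 3 ∭ ‖x-z‖⁻²‖x'-z‖⁻²‖x-x'‖⁻² (mt_int) ≤ ∭ [(AB)³+(BC)³+(CA)³], A=‖x-z‖⁻¹, B=‖x'-z‖⁻¹, C=‖x-x'‖⁻¹ (AM-GM: A²B²C² = (AB)(BC)(CA)), and each ∭ (AB)³ ≤ C² ν(univ) by Nice.
 (Diagonals have measure zero: Nice implies ν{p} = 0.)
(2) So by Tonelli/Fubini ∫⁻_z∫⁻_t Qz t⁻¹ = ∫_z∫_t ∬ w mt t⁻¹ (Qz_double; the double integral is ≥ 0 so ofReal commutes) = ∭ w(a,b) mi a b dν(x)dν(x')dν(z), a=x-z, b=x'-z.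
(3) ker_id: 2 w mi = G(x,x';z) + G(x',x;z), G(x,x';z) = ‖x-z‖⁻⁴⟪x-z,x-x'⟫‖x-x'‖⁻⁴ + H(x,x';z), H = ‖x-z‖⁻⁴(‖x-x'‖⁻²-‖x'-z‖⁻²)/2.  Both parts are absolutely integrable: |first| ≤ A³C³; |‖x-x'‖⁻²-‖x'-z‖⁻²| ≤ ‖x-z‖ (C+B) C B ≤ 2‖x-z‖(C³+B³), so |H| ≤ A³(B³+C³).
 H is antisymmetric under x ↔ z: H(z,x';x) = -H(x,x';z), so ∭ H = 0.  ∭ first = ∫_x ⟪∫_z ‖x-z‖⁻⁴(x-z), ∫_x' ‖x-x'‖⁻⁴(x-x')⟫ = ∫ ‖F3 ν‖².
 Hence ∭ w mi = (1/2)(2 ∫‖F3‖²) = ∫‖F3‖².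
-/

set_option autoImplicit false

open MeasureTheory Filter Topology Metric Set
open scoped RealInnerProductSpace ENNReal

namespace Pool.Agent.H1.LD

open Pool.Agent.RZ

variable {d : ℕ}

/-- the Riesz transform of dimension three of a nice measure -/
noncomputable def F3 (ν : Measure (X d)) (z : X d) : X d := ∫ x, ‖z - x‖⁻¹ ^ 4 • (z - x) ∂ν

private theorem En2_rev (p q : X d) : ‖p - q‖ₑ = ‖q - p‖ₑ := by
  rw [← enorm_neg, neg_sub]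

private theorem En2_hne (p q : X d) : ‖p - q‖ₑ⁻¹ ^ 3 ≠ 0 := by
  simp

private theorem En2_le (p q : X d) : ‖‖p - q‖⁻¹ ^ 3‖ₑ ≤ ‖p - q‖ₑ⁻¹ ^ 3 := by
  rcases eq_or_ne p q with rfl | h
  · simp
  · have h1 : 0 < ‖p - q‖ := norm_pos_iff.2 (sub_ne_zero.2 h)
    rw [Real.enorm_eq_ofReal (by positivity), ENNReal.ofReal_pow (by positivity),
      ENNReal.ofReal_inv_of_pos h1, ofReal_norm]

private theorem En2_t1 {ν : Measure (X d)} (h : Nice ν) :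
    ∫⁻ q : X d × (X d × X d), ‖q.2.1 - q.1‖ₑ⁻¹ ^ 3 * ‖q.2.2 - q.1‖ₑ⁻¹ ^ 3
      ∂(ν.prod (ν.prod ν)) < ∞ := by
  obtain ⟨hf, C, hC⟩ := h
  have := hf
  rw [lintegral_prod _ (by fun_prop)]
  calc _ ≤ ∫⁻ z, ENNReal.ofReal C * ENNReal.ofReal C ∂ν := by
        refine lintegral_mono fun z => ?_
        rw [lintegral_prod _ (by fun_prop)]
        calc _ ≤ ∫⁻ x, ‖x - z‖ₑ⁻¹ ^ 3 * ENNReal.ofReal C ∂ν := by
              refine lintegral_mono fun x => ?_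
              simp only
              rw [lintegral_const_mul _ (by fun_prop)]
              gcongr
              exact hC z
          _ = (∫⁻ x, ‖x - z‖ₑ⁻¹ ^ 3 ∂ν) * ENNReal.ofReal C :=
              lintegral_mul_const _ (by fun_prop)
          _ ≤ _ := by gcongr; exact hC z
    _ = ENNReal.ofReal C * ENNReal.ofReal C * ν univ := lintegral_const _
    _ < ∞ := ENNReal.mul_lt_top (ENNReal.mul_lt_top ENNReal.ofReal_lt_top
        ENNReal.ofReal_lt_top) (measure_lt_top _ _)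

private theorem En2_t2 {ν : Measure (X d)} (h : Nice ν) :
    ∫⁻ q : X d × (X d × X d), ‖q.2.1 - q.1‖ₑ⁻¹ ^ 3 * ‖q.2.1 - q.2.2‖ₑ⁻¹ ^ 3
      ∂(ν.prod (ν.prod ν)) < ∞ := by
  obtain ⟨hf, C, hC⟩ := h
  have := hf
  rw [lintegral_prod _ (by fun_prop)]
  calc _ ≤ ∫⁻ z, ENNReal.ofReal C * ENNReal.ofReal C ∂ν := by
        refine lintegral_mono fun z => ?_
        rw [lintegral_prod _ (by fun_prop)]
        calc _ ≤ ∫⁻ x, ‖x - z‖ₑ⁻¹ ^ 3 * ENNReal.ofReal C ∂ν := by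
              refine lintegral_mono fun x => ?_
              simp only
              rw [lintegral_const_mul _ (by fun_prop)]
              gcongr
              simp only [En2_rev x]
              exact hC x
          _ = (∫⁻ x, ‖x - z‖ₑ⁻¹ ^ 3 ∂ν) * ENNReal.ofReal C :=
              lintegral_mul_const _ (by fun_prop)
          _ ≤ _ := by gcongr; exact hC z
    _ = ENNReal.ofReal C * ENNReal.ofReal C * ν univ := lintegral_const _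
    _ < ∞ := ENNReal.mul_lt_top (ENNReal.mul_lt_top ENNReal.ofReal_lt_top
        ENNReal.ofReal_lt_top) (measure_lt_top _ _)

private theorem En2_t3 {ν : Measure (X d)} (h : Nice ν) :
    ∫⁻ q : X d × (X d × X d), ‖q.2.2 - q.1‖ₑ⁻¹ ^ 3 * ‖q.2.1 - q.2.2‖ₑ⁻¹ ^ 3
      ∂(ν.prod (ν.prod ν)) < ∞ := by
  obtain ⟨hf, C, hC⟩ := h
  have := hf
  rw [lintegral_prod _ (by fun_prop)]
  calc _ ≤ ∫⁻ z, ENNReal.ofReal C * ENNReal.ofReal C ∂ν := by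
        refine lintegral_mono fun z => ?_
        rw [lintegral_prod_symm _ (by fun_prop)]
        calc _ ≤ ∫⁻ x, ‖x - z‖ₑ⁻¹ ^ 3 * ENNReal.ofReal C ∂ν := by
              refine lintegral_mono fun x => ?_
              simp only
              rw [lintegral_const_mul _ (by fun_prop)]
              gcongr
              exact hC x
          _ = (∫⁻ x, ‖x - z‖ₑ⁻¹ ^ 3 ∂ν) * ENNReal.ofReal C :=
              lintegral_mul_const _ (by fun_prop)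
          _ ≤ _ := by gcongr; exact hC z
    _ = ENNReal.ofReal C * ENNReal.ofReal C * ν univ := lintegral_const _
    _ < ∞ := ENNReal.mul_lt_top (ENNReal.mul_lt_top ENNReal.ofReal_lt_top
        ENNReal.ofReal_lt_top) (measure_lt_top _ _)

private theorem En2_i1 {ν : Measure (X d)} (h : Nice ν) :
    Integrable (fun q : X d × (X d × X d) => ‖q.2.1 - q.1‖⁻¹ ^ 3 * ‖q.2.2 - q.1‖⁻¹ ^ 3)
      (ν.prod (ν.prod ν)) := by
  refine ⟨by fun_prop, lt_of_le_of_lt (lintegral_mono fun q => ?_) (En2_t1 h)⟩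
  rw [enorm_mul]
  exact mul_le_mul' (En2_le _ _) (En2_le _ _)

private theorem En2_i2 {ν : Measure (X d)} (h : Nice ν) :
    Integrable (fun q : X d × (X d × X d) => ‖q.2.1 - q.1‖⁻¹ ^ 3 * ‖q.2.1 - q.2.2‖⁻¹ ^ 3)
      (ν.prod (ν.prod ν)) := by
  refine ⟨by fun_prop, lt_of_le_of_lt (lintegral_mono fun q => ?_) (En2_t2 h)⟩
  rw [enorm_mul]
  exact mul_le_mul' (En2_le _ _) (En2_le _ _)

private theorem En2_i3 {ν : Measure (X d)} (h : Nice ν) :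
    Integrable (fun q : X d × (X d × X d) => ‖q.2.2 - q.1‖⁻¹ ^ 3 * ‖q.2.1 - q.2.2‖⁻¹ ^ 3)
      (ν.prod (ν.prod ν)) := by
  refine ⟨by fun_prop, lt_of_le_of_lt (lintegral_mono fun q => ?_) (En2_t3 h)⟩
  rw [enorm_mul]
  exact mul_le_mul' (En2_le _ _) (En2_le _ _)

private theorem En2_ae {ν : Measure (X d)} (h : Nice ν) :
    ∀ᵐ q : X d × (X d × X d) ∂(ν.prod (ν.prod ν)),
      q.2.1 ≠ q.1 ∧ q.2.2 ≠ q.1 ∧ q.2.1 ≠ q.2.2 := by
  have := h.1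
  filter_upwards [ae_lt_top (by fun_prop) (En2_t1 h).ne, ae_lt_top (by fun_prop) (En2_t2 h).ne]
    with q h1 h2
  refine ⟨fun e => ?_, fun e => ?_, fun e => ?_⟩
  · rw [e] at h1
    refine absurd h1 (not_lt.2 (top_le_iff.2 ?_))
    rw [ENNReal.mul_eq_top]
    exact Or.inr ⟨by simp, En2_hne _ _⟩
  · rw [e] at h1
    refine absurd h1 (not_lt.2 (top_le_iff.2 ?_))
    rw [ENNReal.mul_eq_top]
    exact Or.inl ⟨En2_hne _ _, by simp⟩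
  · rw [e] at h2
    refine absurd h2 (not_lt.2 (top_le_iff.2 ?_))
    rw [ENNReal.mul_eq_top]
    exact Or.inl ⟨En2_hne _ _, by simp⟩


private noncomputable def En2_f (z : X d) (p : X d × X d) (t : ℝ) : ℝ :=
  ‖p.1 - z‖⁻¹ ^ 4 * ‖p.2 - z‖⁻¹ ^ 4 * (⟪p.1 - z, p.2 - z⟫ * (mt (p.1 - z) (p.2 - z) t * t⁻¹))

private theorem En2_fmeas : Measurable (fun q : X d × ((X d × X d) × ℝ) =>
    En2_f q.1 q.2.1 q.2.2) := by
  unfold En2_f mt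
  fun_prop

private theorem En2_am {A B C : ℝ} (hA : 0 ≤ A) (hB : 0 ≤ B) (hC : 0 ≤ C) :
    A ^ 2 * B ^ 2 * C ^ 2 ≤ A ^ 3 * B ^ 3 + A ^ 3 * C ^ 3 + B ^ 3 * C ^ 3 := by
  have hu : 0 ≤ A * B := mul_nonneg hA hB
  have hv : 0 ≤ A * C := mul_nonneg hA hC
  have hw : 0 ≤ B * C := mul_nonneg hB hC
  have key : ∀ u v w : ℝ, 0 ≤ u → 0 ≤ v → 0 ≤ w → u * v * w ≤ u ^ 3 + v ^ 3 + w ^ 3 := by
    intro u v w hu hv hw
    nlinarith [mul_nonneg (add_nonneg (add_nonneg hu hv) hw) (sq_nonneg (u - v)),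
      mul_nonneg (add_nonneg (add_nonneg hu hv) hw) (sq_nonneg (v - w)),
      mul_nonneg (add_nonneg (add_nonneg hu hv) hw) (sq_nonneg (u - w)),
      mul_nonneg (mul_nonneg hu hv) hw]
  have h := key _ _ _ hu hv hw
  have e1 : A ^ 2 * B ^ 2 * C ^ 2 = A * B * (A * C) * (B * C) := by ring
  have e2 : A ^ 3 * B ^ 3 + A ^ 3 * C ^ 3 + B ^ 3 * C ^ 3 =
    (A * B) ^ 3 + (A * C) ^ 3 + (B * C) ^ 3 := by ring
  rw [e1, e2]
  exact h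

private theorem En2_K {ν : Measure (X d)} (h : Nice ν) :
    Integrable (fun q : X d × (X d × X d) => ‖q.2.1 - q.1‖⁻¹ ^ 2 * ‖q.2.2 - q.1‖⁻¹ ^ 2 *
      ‖q.2.1 - q.2.2‖⁻¹ ^ 2) (ν.prod (ν.prod ν)) := by
  refine (((En2_i1 h).add (En2_i2 h)).add (En2_i3 h)).mono' (by fun_prop)
    (Eventually.of_forall fun q => ?_)
  rw [Real.norm_of_nonneg (by positivity)]
  exact En2_am (by positivity) (by positivity) (by positivity)

private theorem En2_sl {z : X d} {p : X d × X d} (hp : p.1 ≠ z ∧ p.2 ≠ z ∧ p.1 ≠ p.2) :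
    IntegrableOn (fun t : ℝ => En2_f z p t) (Ioi 0) ∧
    ∫ t in Ioi (0 : ℝ), En2_f z p t =
      ‖p.1 - z‖⁻¹ ^ 4 * ‖p.2 - z‖⁻¹ ^ 4 * ⟪p.1 - z, p.2 - z⟫ * mi (p.1 - z) (p.2 - z) ∧
    ∫ t in Ioi (0 : ℝ), ‖En2_f z p t‖ ≤
      3 * (‖p.1 - z‖⁻¹ ^ 2 * ‖p.2 - z‖⁻¹ ^ 2 * ‖p.1 - p.2‖⁻¹ ^ 2) := by
  obtain ⟨h1, h2, h3⟩ := hp
  have hab : p.1 - z ≠ p.2 - z := fun e => h3 (sub_left_injective e)
  obtain ⟨m1, m2, m3⟩ := mt_int hab
  have ef : ∀ t : ℝ, En2_f z p t =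
      (‖p.1 - z‖⁻¹ ^ 4 * ‖p.2 - z‖⁻¹ ^ 4 * ⟪p.1 - z, p.2 - z⟫) *
        (mt (p.1 - z) (p.2 - z) t * t⁻¹) := by
    intro t
    unfold En2_f
    ring
  refine ⟨?_, ?_, ?_⟩
  · simp only [ef]
    exact m1.const_mul _
  · simp only [ef]
    rw [integral_const_mul, m2]
  · simp only [ef, norm_mul _ (mt _ _ _ * _)]
    rw [integral_const_mul]
    have e3 : (∫ t in Ioi (0 : ℝ), ‖mt (p.1 - z) (p.2 - z) t * t⁻¹‖) ≤
        3 * (‖p.1 - z‖ * ‖p.2 - z‖) / ‖p.1 - z - (p.2 - z)‖ ^ 2 := m3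
    rw [sub_sub_sub_cancel_right] at e3
    have ha : 0 < ‖p.1 - z‖ := norm_pos_iff.2 (sub_ne_zero.2 h1)
    have hb : 0 < ‖p.2 - z‖ := norm_pos_iff.2 (sub_ne_zero.2 h2)
    have hc : 0 < ‖p.1 - p.2‖ := norm_pos_iff.2 (sub_ne_zero.2 h3)
    have hW : ‖‖p.1 - z‖⁻¹ ^ 4 * ‖p.2 - z‖⁻¹ ^ 4 * ⟪p.1 - z, p.2 - z⟫‖ ≤
        ‖p.1 - z‖⁻¹ ^ 4 * ‖p.2 - z‖⁻¹ ^ 4 * (‖p.1 - z‖ * ‖p.2 - z‖) := by
      rw [norm_mul, Real.norm_of_nonneg (by positivity)]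
      gcongr
      exact norm_inner_le_norm _ _
    calc _ ≤ ‖p.1 - z‖⁻¹ ^ 4 * ‖p.2 - z‖⁻¹ ^ 4 * (‖p.1 - z‖ * ‖p.2 - z‖) *
          (3 * (‖p.1 - z‖ * ‖p.2 - z‖) / ‖p.1 - p.2‖ ^ 2) :=
          mul_le_mul hW e3 (integral_nonneg fun t => norm_nonneg _) (by positivity)
      _ = 3 * (‖p.1 - z‖⁻¹ ^ 2 * ‖p.2 - z‖⁻¹ ^ 2 * ‖p.1 - p.2‖⁻¹ ^ 2) := by
          field_simp

private theorem En2_int {ν : Measure (X d)} (h : Nice ν) :
    Integrable (fun q : X d × ((X d × X d) × ℝ) => En2_f q.1 q.2.1 q.2.2)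
      (ν.prod ((ν.prod ν).prod (volume.restrict (Ioi 0)))) := by
  have := h.1
  refine ⟨En2_fmeas.aestronglyMeasurable, ?_⟩
  have hae := Measure.ae_ae_of_ae_prod (En2_ae h)
  have h0 : ∫⁻ q : X d × ((X d × X d) × ℝ), ‖En2_f q.1 q.2.1 q.2.2‖ₑ
      ∂(ν.prod ((ν.prod ν).prod (volume.restrict (Ioi 0)))) < ∞ := by
    rw [lintegral_prod _ En2_fmeas.enorm.aemeasurable]
    calc _ ≤ ∫⁻ z, ∫⁻ p, ENNReal.ofReal (3 * (‖p.1 - z‖⁻¹ ^ 2 * ‖p.2 - z‖⁻¹ ^ 2 *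
          ‖p.1 - p.2‖⁻¹ ^ 2)) ∂(ν.prod ν) ∂ν := by
          refine lintegral_mono_ae ?_
          filter_upwards [hae] with z hz
          have hm : Measurable fun r : (X d × X d) × ℝ => ‖En2_f z r.1 r.2‖ₑ :=
            (En2_fmeas.comp (measurable_const.prodMk measurable_id)).enorm
          rw [lintegral_prod _ hm.aemeasurable]
          refine lintegral_mono_ae ?_
          filter_upwards [hz] with p hp
          obtain ⟨s1, s2, s3⟩ := En2_sl (z := z) hp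
          rw [← ofReal_integral_norm_eq_lintegral_enorm s1]
          exact ENNReal.ofReal_le_ofReal s3
      _ = ∫⁻ q : X d × (X d × X d), ENNReal.ofReal (3 * (‖q.2.1 - q.1‖⁻¹ ^ 2 *
          ‖q.2.2 - q.1‖⁻¹ ^ 2 * ‖q.2.1 - q.2.2‖⁻¹ ^ 2)) ∂(ν.prod (ν.prod ν)) := by
          rw [lintegral_prod _ (by fun_prop)]
      _ < ∞ := ((En2_K h).const_mul 3).lintegral_lt_top
  exact h0


private theorem En2_g {ν : Measure (X d)} (h : Nice ν) (z : X d) {t : ℝ} (ht : 0 < t) :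
    Qz ν z t * ENNReal.ofReal t⁻¹ = ENNReal.ofReal (∫ p, En2_f z p t ∂(ν.prod ν)) ∧
      0 ≤ ∫ p, En2_f z p t ∂(ν.prod ν) := by
  have e : (fun p : X d × X d => En2_f z p t) = fun p => ‖p.1 - z‖⁻¹ ^ 4 * ‖p.2 - z‖⁻¹ ^ 4 *
      (⟪p.1 - z, p.2 - z⟫ * mt (p.1 - z) (p.2 - z) t) * t⁻¹ := by
    funext p
    unfold En2_f
    ring
  have hn := Qz_double_nonneg h z ht
  rw [e, integral_mul_const]
  refine ⟨?_, mul_nonneg hn (by positivity)⟩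
  rw [(Qz_double h z ht).2, ← ENNReal.ofReal_mul hn]

private theorem En2_main {ν : Measure (X d)} (h : Nice ν) :
    ∫⁻ z, (∫⁻ t in Ioi (0 : ℝ), Qz ν z t * ENNReal.ofReal t⁻¹) ∂ν =
      ENNReal.ofReal (∫ z, ∫ p : X d × X d, ‖p.1 - z‖⁻¹ ^ 4 * ‖p.2 - z‖⁻¹ ^ 4 *
        ⟪p.1 - z, p.2 - z⟫ * mi (p.1 - z) (p.2 - z) ∂(ν.prod ν) ∂ν) := by
  have := h.1
  have hI := En2_int h
  have hae := Measure.ae_ae_of_ae_prod (En2_ae h)
  set J : X d → ℝ := fun z => ∫ r : (X d × X d) × ℝ, En2_f z r.1 r.2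
    ∂((ν.prod ν).prod (volume.restrict (Ioi 0))) with hJ
  have hJi : Integrable J ν := hI.integral_prod_left
  have key : ∀ᵐ z ∂ν, (∫⁻ t in Ioi (0 : ℝ), Qz ν z t * ENNReal.ofReal t⁻¹) =
      ENNReal.ofReal (J z) ∧ 0 ≤ J z ∧ J z = ∫ p : X d × X d, ‖p.1 - z‖⁻¹ ^ 4 *
        ‖p.2 - z‖⁻¹ ^ 4 * ⟪p.1 - z, p.2 - z⟫ * mi (p.1 - z) (p.2 - z) ∂(ν.prod ν) := by
    filter_upwards [hI.prod_right_ae, hae] with z hz hp
    have e1 : J z = ∫ t in Ioi (0 : ℝ), ∫ p, En2_f z p t ∂(ν.prod ν) := by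
      rw [hJ]
      simp only
      rw [integral_prod_symm _ hz]
    have e2 : J z = ∫ p, (∫ t in Ioi (0 : ℝ), En2_f z p t) ∂(ν.prod ν) := by
      rw [hJ]
      simp only
      rw [integral_prod _ hz]
    have hnn : 0 ≤ᵐ[volume.restrict (Ioi (0 : ℝ))] fun t => ∫ p, En2_f z p t ∂(ν.prod ν) := by
      filter_upwards [ae_restrict_mem measurableSet_Ioi] with t ht
      exact (En2_g h z ht).2
    refine ⟨?_, ?_, ?_⟩
    · rw [e1, ofReal_integral_eq_lintegral_ofReal hz.integral_prod_right hnn]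
      refine setLIntegral_congr_fun measurableSet_Ioi fun t ht => ?_
      exact (En2_g h z ht).1
    · rw [e1]
      exact integral_nonneg_of_ae hnn
    · rw [e2]
      refine integral_congr_ae ?_
      filter_upwards [hp] with p hp
      exact (En2_sl hp).2.1
  calc _ = ∫⁻ z, ENNReal.ofReal (J z) ∂ν := lintegral_congr_ae (key.mono fun z hz => hz.1)
    _ = ENNReal.ofReal (∫ z, J z ∂ν) :=
        (ofReal_integral_eq_lintegral_ofReal hJi (key.mono fun z hz => hz.2.1)).symm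
    _ = _ := by
        congr 1
        exact integral_congr_ae (key.mono fun z hz => hz.2.2)

private noncomputable def En2_F (q : X d × (X d × X d)) : ℝ :=
  ‖q.2.1 - q.1‖⁻¹ ^ 4 * (⟪q.2.1 - q.1, q.2.1 - q.2.2⟫ * ‖q.2.1 - q.2.2‖⁻¹ ^ 4)

private noncomputable def En2_H (q : X d × (X d × X d)) : ℝ :=
  ‖q.2.1 - q.1‖⁻¹ ^ 4 * ((‖q.2.1 - q.2.2‖⁻¹ ^ 2 - ‖q.2.2 - q.1‖⁻¹ ^ 2) / 2)

private theorem En2_Fi {ν : Measure (X d)} (h : Nice ν) :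
    Integrable (En2_F (d := d)) (ν.prod (ν.prod ν)) := by
  refine (En2_i2 h).mono' (by unfold En2_F; fun_prop) ?_
  filter_upwards [En2_ae h] with q hq
  obtain ⟨h1, h2, h3⟩ := hq
  have ha : 0 < ‖q.2.1 - q.1‖ := norm_pos_iff.2 (sub_ne_zero.2 h1)
  have hc : 0 < ‖q.2.1 - q.2.2‖ := norm_pos_iff.2 (sub_ne_zero.2 h3)
  unfold En2_F
  rw [norm_mul, norm_mul, Real.norm_of_nonneg (by positivity : (0:ℝ) ≤ ‖q.2.1 - q.1‖⁻¹ ^ 4),
    Real.norm_of_nonneg (by positivity : (0:ℝ) ≤ ‖q.2.1 - q.2.2‖⁻¹ ^ 4)]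
  calc _ ≤ ‖q.2.1 - q.1‖⁻¹ ^ 4 * ((‖q.2.1 - q.1‖ * ‖q.2.1 - q.2.2‖) *
        ‖q.2.1 - q.2.2‖⁻¹ ^ 4) := by
        gcongr
        exact norm_inner_le_norm _ _
    _ = _ := by
        field_simp

private theorem En2_Hi {ν : Measure (X d)} (h : Nice ν) :
    Integrable (En2_H (d := d)) (ν.prod (ν.prod ν)) := by
  refine ((En2_i1 h).add (En2_i2 h)).mono' (by unfold En2_H; fun_prop) ?_
  filter_upwards [En2_ae h] with q hq
  obtain ⟨h1, h2, h3⟩ := hq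
  have ha : 0 < ‖q.2.1 - q.1‖ := norm_pos_iff.2 (sub_ne_zero.2 h1)
  have hb : 0 < ‖q.2.2 - q.1‖ := norm_pos_iff.2 (sub_ne_zero.2 h2)
  have hc : 0 < ‖q.2.1 - q.2.2‖ := norm_pos_iff.2 (sub_ne_zero.2 h3)
  have ht : |‖q.2.2 - q.1‖ - ‖q.2.1 - q.2.2‖| ≤ ‖q.2.1 - q.1‖ := by
    have := abs_norm_sub_norm_le (q.2.2 - q.1) (q.2.2 - q.2.1)
    rw [sub_sub_sub_cancel_left, norm_sub_rev q.2.2 q.2.1] at this
    exact this
  simp only [Pi.add_apply]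
  unfold En2_H
  generalize ‖q.2.1 - q.1‖ = a at *
  generalize ‖q.2.2 - q.1‖ = b at *
  generalize ‖q.2.1 - q.2.2‖ = c at *
  have e1 : c⁻¹ ^ 2 - b⁻¹ ^ 2 = (b - c) * (b⁻¹ * c⁻¹ * (b⁻¹ + c⁻¹)) := by
    field_simp
    ring
  rw [norm_mul, Real.norm_of_nonneg (by positivity : (0:ℝ) ≤ a⁻¹ ^ 4), e1, norm_div, norm_mul,
    Real.norm_of_nonneg (by positivity : (0:ℝ) ≤ b⁻¹ * c⁻¹ * (b⁻¹ + c⁻¹)), Real.norm_eq_abs,
    Real.norm_of_nonneg (by norm_num : (0:ℝ) ≤ 2)]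
  have e2 : b⁻¹ * c⁻¹ * (b⁻¹ + c⁻¹) ≤ b⁻¹ ^ 3 + c⁻¹ ^ 3 := by
    have h1 : 0 < b⁻¹ := by positivity
    have h2 : 0 < c⁻¹ := by positivity
    nlinarith [mul_nonneg (add_nonneg h1.le h2.le) (sq_nonneg (b⁻¹ - c⁻¹))]
  calc a⁻¹ ^ 4 * (|b - c| * (b⁻¹ * c⁻¹ * (b⁻¹ + c⁻¹)) / 2)
      ≤ a⁻¹ ^ 4 * (a * (b⁻¹ ^ 3 + c⁻¹ ^ 3) / 1) := by
        gcongr
        norm_num
    _ = a⁻¹ ^ 3 * b⁻¹ ^ 3 + a⁻¹ ^ 3 * c⁻¹ ^ 3 := by
        field_simp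

/-- exchange of the first two variables -/
private theorem En2_sig {ν : Measure (X d)} [IsFiniteMeasure ν] (f : X d × (X d × X d) → ℝ)
    (hf : Integrable f (ν.prod (ν.prod ν))) :
    ∫ q, f q ∂(ν.prod (ν.prod ν)) =
      ∫ q : X d × (X d × X d), f (q.2.1, (q.1, q.2.2)) ∂(ν.prod (ν.prod ν)) ∧
    Integrable (fun q : X d × (X d × X d) => f (q.2.1, (q.1, q.2.2))) (ν.prod (ν.prod ν)) := by
  have m1 : MeasurePreserving (MeasurableEquiv.prodAssoc : (X d × X d) × X d ≃ᵐ X d × X d × X d)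
      ((ν.prod ν).prod ν) (ν.prod (ν.prod ν)) := measurePreserving_prodAssoc ν ν ν
  have m2 : MeasurePreserving (Prod.map Prod.swap id : (X d × X d) × X d → (X d × X d) × X d)
      ((ν.prod ν).prod ν) ((ν.prod ν).prod ν) :=
    Measure.measurePreserving_swap.prod (MeasurePreserving.id ν)
  have m3 := m1.comp (m2.comp m1.symm)
  have e := m3.map_eq
  have hm : Measurable fun q : X d × (X d × X d) => (q.2.1, (q.1, q.2.2)) := by fun_prop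
  have e' : Measure.map (fun q : X d × (X d × X d) => (q.2.1, (q.1, q.2.2)))
      (ν.prod (ν.prod ν)) = ν.prod (ν.prod ν) := e
  refine ⟨?_, ?_⟩
  · conv_lhs => rw [← e']
    rw [integral_map hm.aemeasurable]
    rw [e']
    exact hf.aestronglyMeasurable
  · exact m3.integrable_comp_of_integrable hf

/-- exchange of the last two variables -/
private theorem En2_tau {ν : Measure (X d)} [IsFiniteMeasure ν] (f : X d × (X d × X d) → ℝ)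
    (hf : Integrable f (ν.prod (ν.prod ν))) :
    ∫ q, f q ∂(ν.prod (ν.prod ν)) =
      ∫ q : X d × (X d × X d), f (q.1, (q.2.2, q.2.1)) ∂(ν.prod (ν.prod ν)) ∧
    Integrable (fun q : X d × (X d × X d) => f (q.1, (q.2.2, q.2.1))) (ν.prod (ν.prod ν)) := by
  have m2 : MeasurePreserving (Prod.map id Prod.swap : X d × (X d × X d) → X d × (X d × X d))
      (ν.prod (ν.prod ν)) (ν.prod (ν.prod ν)) :=
    (MeasurePreserving.id ν).prod Measure.measurePreserving_swap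
  have e := m2.map_eq
  have hm : Measurable fun q : X d × (X d × X d) => (q.1, (q.2.2, q.2.1)) := by fun_prop
  have e' : Measure.map (fun q : X d × (X d × X d) => (q.1, (q.2.2, q.2.1)))
      (ν.prod (ν.prod ν)) = ν.prod (ν.prod ν) := e
  refine ⟨?_, ?_⟩
  · conv_lhs => rw [← e']
    rw [integral_map hm.aemeasurable]
    rw [e']
    exact hf.aestronglyMeasurable
  · exact m2.integrable_comp_of_integrable hf


private theorem En2_H0 {ν : Measure (X d)} (h : Nice ν) :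
    ∫ q, En2_H q ∂(ν.prod (ν.prod ν)) = 0 := by
  have := h.1
  have e := (En2_sig En2_H (En2_Hi h)).1
  have e2 : (fun q : X d × (X d × X d) => En2_H (q.2.1, (q.1, q.2.2))) = fun q => -En2_H q := by
    funext q
    unfold En2_H
    simp only
    rw [norm_sub_rev q.1 q.2.1, norm_sub_rev q.1 q.2.2, norm_sub_rev q.2.2 q.2.1]
    ring
  rw [e2, integral_neg] at e
  linarith

private theorem En2_F0 {ν : Measure (X d)} (h : Nice ν) :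
    ∫ q, En2_F q ∂(ν.prod (ν.prod ν)) = ∫ z, ‖F3 ν z‖ ^ 2 ∂ν := by
  have := h.1
  have hF := En2_Fi h
  have hF' : Integrable (fun q : X d × (X d × X d) => En2_F (q.2.1, (q.1, q.2.2)))
      (ν.prod (ν.prod ν)) := (En2_sig _ hF).2
  rw [(En2_sig En2_F hF).1, integral_prod _ hF']
  refine integral_congr_ae ?_
  filter_upwards [hF'.prod_right_ae] with z hz
  have hu : Integrable (fun x => ‖z - x‖⁻¹ ^ 4 • (z - x)) ν := by
    refine ⟨by fun_prop, ?_⟩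
    obtain ⟨_, C, hC⟩ := h
    have hlt : ∫⁻ x, ‖x - z‖ₑ⁻¹ ^ 3 ∂ν < ∞ := lt_of_le_of_lt (hC z) ENNReal.ofReal_lt_top
    have hle : ∫⁻ x, ‖‖z - x‖⁻¹ ^ 4 • (z - x)‖ₑ ∂ν ≤ ∫⁻ x, ‖x - z‖ₑ⁻¹ ^ 3 ∂ν := by
      refine lintegral_mono fun x => ?_
      refine le_trans (le_of_eq ?_) (En2_le x z)
      rw [← enorm_norm, norm_smul, Real.norm_of_nonneg (by positivity), norm_sub_rev z x]
      congr 1
      rcases eq_or_ne x z with rfl | hxz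
      · simp
      · have hpos : 0 < ‖x - z‖ := norm_pos_iff.2 (sub_ne_zero.2 hxz)
        field_simp
    exact lt_of_le_of_lt hle hlt
  rw [integral_prod _ hz]
  have e1 : ∀ x x' : X d, En2_F (x, (z, x')) =
      ⟪‖z - x‖⁻¹ ^ 4 • (z - x), ‖z - x'‖⁻¹ ^ 4 • (z - x')⟫ := by
    intro x x'
    unfold En2_F
    rw [inner_smul_left, inner_smul_right]
    simp only [conj_trivial]
    ring
  simp only [e1]
  have e2 : ∀ x : X d, (∫ x', ⟪‖z - x‖⁻¹ ^ 4 • (z - x), ‖z - x'‖⁻¹ ^ 4 • (z - x')⟫ ∂ν) =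
      ⟪‖z - x‖⁻¹ ^ 4 • (z - x), F3 ν z⟫ := by
    intro x
    rw [integral_inner hu]
    rfl
  simp only [e2]
  have e3 : (∫ x, ⟪‖z - x‖⁻¹ ^ 4 • (z - x), F3 ν z⟫ ∂ν) = ⟪F3 ν z, F3 ν z⟫ := by
    simp only [real_inner_comm (F3 ν z)]
    rw [integral_inner hu]
    rfl
  rw [e3, real_inner_self_eq_norm_sq]

private theorem En2_W {ν : Measure (X d)} (h : Nice ν) :
    Integrable (fun q : X d × (X d × X d) => ‖q.2.1 - q.1‖⁻¹ ^ 4 * ‖q.2.2 - q.1‖⁻¹ ^ 4 *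
      ⟪q.2.1 - q.1, q.2.2 - q.1⟫ * mi (q.2.1 - q.1) (q.2.2 - q.1)) (ν.prod (ν.prod ν)) ∧
    ∫ q : X d × (X d × X d), ‖q.2.1 - q.1‖⁻¹ ^ 4 * ‖q.2.2 - q.1‖⁻¹ ^ 4 *
      ⟪q.2.1 - q.1, q.2.2 - q.1⟫ * mi (q.2.1 - q.1) (q.2.2 - q.1) ∂(ν.prod (ν.prod ν)) =
      ∫ z, ‖F3 ν z‖ ^ 2 ∂ν := by
  have := h.1
  have hG : Integrable (fun q : X d × (X d × X d) => En2_F q + En2_H q) (ν.prod (ν.prod ν)) :=
    (En2_Fi h).add (En2_Hi h)
  have hG0 : ∫ q : X d × (X d × X d), (En2_F q + En2_H q) ∂(ν.prod (ν.prod ν)) =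
      ∫ z, ‖F3 ν z‖ ^ 2 ∂ν := by
    rw [integral_add (En2_Fi h) (En2_Hi h), En2_F0 h, En2_H0 h, add_zero]
  obtain ⟨t1, t2⟩ := En2_tau _ hG
  have hae : (fun q : X d × (X d × X d) => ‖q.2.1 - q.1‖⁻¹ ^ 4 * ‖q.2.2 - q.1‖⁻¹ ^ 4 *
      ⟪q.2.1 - q.1, q.2.2 - q.1⟫ * mi (q.2.1 - q.1) (q.2.2 - q.1)) =ᵐ[ν.prod (ν.prod ν)]
      fun q => 2⁻¹ * ((En2_F q + En2_H q) + (En2_F (q.1, (q.2.2, q.2.1)) +
        En2_H (q.1, (q.2.2, q.2.1)))) := by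
    filter_upwards [En2_ae h] with q hq
    obtain ⟨h1, h2, h3⟩ := hq
    have hab : q.2.1 - q.1 ≠ q.2.2 - q.1 := fun e => h3 (sub_left_injective e)
    have k := ker_id (sub_ne_zero.2 h1) (sub_ne_zero.2 h2) hab
    rw [sub_sub_sub_cancel_right, sub_sub_sub_cancel_right] at k
    unfold En2_F En2_H
    simp only
    rw [norm_sub_rev q.2.2 q.2.1]
    linear_combination (1 / 2) * k
  refine ⟨((hG.add t2).const_mul 2⁻¹).congr hae.symm, ?_⟩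
  rw [integral_congr_ae hae, integral_const_mul, integral_add hG t2, ← t1, hG0]
  ring

theorem energy_three {ν : Measure (X d)} (h : Nice ν) :
    ∫⁻ z, (∫⁻ t in Ioi (0 : ℝ), Qz ν z t * ENNReal.ofReal t⁻¹) ∂ν =
      ENNReal.ofReal (∫ z, ‖F3 ν z‖ ^ 2 ∂ν) := by
  have := h.1
  obtain ⟨w1, w2⟩ := En2_W h
  rw [En2_main h, ← w2, integral_prod _ w1]

end Pool.Agent.H1.LD
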