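import Pool.Agent.H1.LD.EnD
import Pool.Agent.RZ.J2
import Pool.Agent.RZ.Ct

/-!
En_of_Bdd.  Bdd.l2b gives L2b n C'' μ.  Then exactly as the private lemma J3_L2 in Pool/Agent/RZ/J3.lean (take f = cut R, ψ = cut R * F with F(x) = ∫ ⟪e,x-y⟫ kr n ε (x-y) dμ(y)): ∫ F² dμ ≤ C'' sqrt(μ(univ)) sqrt(∫F²), so ∫ F² ≤ C''² μ(univ).
-/

set_option autoImplicit false

open MeasureTheory Filter Topology Metric Set
open scoped RealInnerProductSpace ENNReal

namespace Pool.Agent.H1.LD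

open Pool.Agent.RZ

variable {d : ℕ}

private lemma Ene_ker_cont (n : ℕ) {ε : ℝ} (hε : 0 < ε) (e : X d) :
    Continuous fun p : X d × X d => ⟪e, p.1 - p.2⟫ * kr n ε (p.1 - p.2) :=
  (continuous_const.inner (continuous_fst.sub continuous_snd)).mul
    ((kr_continuous n hε).comp (continuous_fst.sub continuous_snd))

private lemma Ene_ker_cont_right (n : ℕ) {ε : ℝ} (hε : 0 < ε) (e x : X d) :
    Continuous fun y : X d => ⟪e, x - y⟫ * kr n ε (x - y) :=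
  (Ene_ker_cont n hε e).comp (continuous_const.prodMk continuous_id)

private lemma Ene_ker_cont_left (n : ℕ) {ε : ℝ} (hε : 0 < ε) (e y : X d) :
    Continuous fun x : X d => ⟪e, x - y⟫ * kr n ε (x - y) :=
  (Ene_ker_cont n hε e).comp (continuous_id.prodMk continuous_const)

private lemma Ene_inner_le {e : X d} (he : ‖e‖ ≤ 1) (z : X d) : |⟪e, z⟫| ≤ ‖z‖ :=
  calc |⟪e, z⟫| ≤ ‖e‖ * ‖z‖ := abs_real_inner_le_norm e z
    _ ≤ 1 * ‖z‖ := mul_le_mul_of_nonneg_right he (norm_nonneg z)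
    _ = ‖z‖ := one_mul _

private lemma Ene_ker_bound (n : ℕ) {ε : ℝ} (hε : 0 < ε) {e : X d} (he : ‖e‖ ≤ 1) (z : X d) :
    ‖⟪e, z⟫ * kr n ε z‖ ≤ ε⁻¹ ^ n := by
  rw [Real.norm_eq_abs, abs_mul, abs_of_nonneg (kr_nonneg n ε z)]
  calc |⟪e, z⟫| * kr n ε z ≤ ‖z‖ * kr n ε z :=
        mul_le_mul_of_nonneg_right (Ene_inner_le he z) (kr_nonneg n ε z)
    _ ≤ ε⁻¹ ^ n := norm_mul_kr_le_eps n hε z

/-- the regularised Riesz transform of `1` -/
private noncomputable def Ene_F (n : ℕ) (ε : ℝ) (μ : Measure (X d)) (e : X d) (x : X d) : ℝ :=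
  ∫ y, ⟪e, x - y⟫ * kr n ε (x - y) ∂μ

private lemma Ene_F_cont (n : ℕ) {ε : ℝ} (hε : 0 < ε) (μ : Measure (X d)) [IsFiniteMeasure μ]
    {e : X d} (he : ‖e‖ ≤ 1) : Continuous (Ene_F n ε μ e) := by
  refine continuous_of_dominated (bound := fun _ => ε⁻¹ ^ n) ?_ ?_ (integrable_const _) ?_
  · intro x
    exact (Ene_ker_cont_right n hε e x).aestronglyMeasurable
  · intro x
    exact ae_of_all _ fun y => Ene_ker_bound n hε he _
  · exact ae_of_all _ fun y => Ene_ker_cont_left n hε e y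

private lemma Ene_L2 {n : ℕ} {μ : Measure (X d)} [IsFiniteMeasure μ] {C' : ℝ} (hC' : 0 ≤ C')
    (hl : L2b n C' μ) {K : Set (X d)} (hK : IsCompact K) (hμK : μ Kᶜ = 0) {ε : ℝ} (hε : 0 < ε)
    {e : X d} (he : ‖e‖ ≤ 1) :
    Real.sqrt (∫ x, Ene_F n ε μ e x ^ 2 ∂μ) ≤ C' * Real.sqrt (μ.real univ) := by
  obtain ⟨R, hR, hKR⟩ : ∃ R : ℝ, 0 < R ∧ ∀ x ∈ K, ‖x‖ ≤ R := by
    obtain ⟨R, hR⟩ := hK.isBounded.exists_norm_le
    exact ⟨max R 1, lt_max_of_lt_right one_pos, fun x hx => (hR x hx).trans (le_max_left _ _)⟩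
  have hae : ∀ᵐ x ∂μ, cut R x = 1 := by
    have h1 : ∀ᵐ x ∂μ, x ∈ K := by rw [ae_iff]; exact hμK
    filter_upwards [h1] with x hx using cut_eq_one hR (hKR x hx)
  have hFc := Ene_F_cont n hε μ he
  set F : X d → ℝ := Ene_F n ε μ e with hF
  have hQ : Qf n ε μ e (cut R) (fun x => cut R x * F x) = ∫ x, F x ^ 2 ∂μ := by
    unfold Qf
    refine integral_congr_ae ?_
    filter_upwards [hae] with x hx
    have h2 : ∫ y, cut R x * F x * cut R y * (⟪e, x - y⟫ * kr n ε (x - y)) ∂μ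
        = ∫ y, F x * (⟪e, x - y⟫ * kr n ε (x - y)) ∂μ := by
      refine integral_congr_ae ?_
      filter_upwards [hae] with y hy
      rw [hx, hy]; ring
    rw [h2, integral_const_mul]
    have h3 : ∫ y, ⟪e, x - y⟫ * kr n ε (x - y) ∂μ = F x := rfl
    rw [h3]; ring
  have h1 := hl ε hε e he (cut R) (fun x => cut R x * F x) (cut_continuous hR)
    (cut_hasCompactSupport hR) ((cut_continuous hR).mul hFc) ((cut_hasCompactSupport hR).mul_right)
  rw [hQ] at h1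
  have h4 : ∫ x, cut R x ^ 2 ∂μ = μ.real univ := by
    have h5 : ∫ x, cut R x ^ 2 ∂μ = ∫ _x : X d, (1 : ℝ) ∂μ := by
      refine integral_congr_ae ?_
      filter_upwards [hae] with x hx
      rw [hx]; ring
    rw [h5, integral_const, smul_eq_mul, mul_one]
  have h6 : ∫ x, (cut R x * F x) ^ 2 ∂μ = ∫ x, F x ^ 2 ∂μ := by
    refine integral_congr_ae ?_
    filter_upwards [hae] with x hx
    rw [hx, one_mul]
  rw [h4, h6] at h1
  have hS : 0 ≤ ∫ x, F x ^ 2 ∂μ := integral_nonneg fun x => sq_nonneg _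
  rw [abs_of_nonneg hS] at h1
  have hs := Real.mul_self_sqrt hS
  rcases (Real.sqrt_nonneg (∫ x, F x ^ 2 ∂μ)).eq_or_lt with h0 | h0
  · rw [← h0]; exact mul_nonneg hC' (Real.sqrt_nonneg _)
  · refine le_of_mul_le_mul_right ?_ h0
    rw [hs]; exact h1

theorem En_of_Bdd {n : ℕ} (hn : 1 ≤ n) {μ : Measure (X d)} [IsFiniteMeasure μ] {K : Set (X d)}
    (hK : IsCompact K) (hμK : μ Kᶜ = 0) {C : NNReal} (h : Bdd n μ C) {C' : ℝ} (hC' : 0 ≤ C')
    (hg : Gr n C' μ) : En n μ := by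
  obtain ⟨C'', hC'', hl⟩ := h.l2b hn hC' hg
  refine ⟨(C'' * Real.sqrt (μ.real univ)) ^ 2, ?_⟩
  intro ε hε e he
  have h1 := Ene_L2 hC'' hl hK hμK hε he
  have h2 : 0 ≤ ∫ x, Ene_F n ε μ e x ^ 2 ∂μ := integral_nonneg fun x => sq_nonneg _
  have h3 := pow_le_pow_left₀ (Real.sqrt_nonneg _) h1 2
  rw [Real.sq_sqrt h2] at h3
  exact h3

end Pool.Agent.H1.LD
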