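import Pool.Agent.H1.LD.Mo2
import Pool.Agent.H1.LD.QdB

/-!
carleson_three.  ε_k = 1/(k+1).  energy_three + mol_energy: ∫⁻_z∫⁻_t Qz (mol μ ε_k) z t t⁻¹ d mol ≤ ofReal B, i.e. (mol is a map of μ × Pb)
  ∫⁻_{(z,w)} ∫⁻_t ∫⁻_Y ofReal((t^d gc)⁻¹) ‖Kz (mol μ ε_k) (z+ε_k w) (2/t²) Y‖ₑ² t⁻¹ ≤ ofReal B.
Claim: for all z, w in the unit ball, t > 0, Y: Kz (mol μ ε_k)(z+ε_k w) β Y → Kz μ z β Y.  Indeed the left side is ∫_x [∫_{w'} κ(x-z+ε_k(w'-w), Y - z - ε_k w) dPb(w')] dμ(x), κ(u,V) = ‖u‖⁻⁴(-2β⟪u,u-V⟫) ga β (u-V) u, continuous for u ≠ 0, ‖κ‖ ≤ C_β ‖u‖⁻²;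
the inner average is bounded by C_β C ‖x-z‖⁻² (avg_two), integrable for μ (growth 3: Gr.near_lintegral), and tends to κ(x-z,Y-z) for x ≠ z (inner dominated convergence: for ε_k < ‖x-z‖/4 the argument u stays in a compact set away from 0).
Fatou (lintegral_liminf_le) on μ × Pb × dt × dY, then Pb is a probability measure.  Measurability as in QdB.
-/

set_option autoImplicit false

open MeasureTheory Filter Topology Metric Set
open scoped RealInnerProductSpace ENNReal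

namespace Pool.Agent.H1.LD

open Pool.Agent.RZ

variable {d : ℕ}

/-- the kernel of `Kz` -/
private noncomputable def Fat_k (β : ℝ) (u V : X d) : X d :=
  (‖u‖⁻¹ ^ 4 * (-(2 * β) * ⟪u, u - V⟫) * ga β (u - V)) • u

private theorem Fat_meas (β : ℝ) : Measurable fun p : X d × X d => Fat_k β p.1 p.2 := by
  unfold Fat_k
  have h1 : Measurable (ga β : X d → ℝ) := (ga_continuous β).measurable
  have h2 : Measurable fun p : X d × X d => ga β (p.1 - p.2) :=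
    h1.comp (measurable_fst.sub measurable_snd)
  have h3 : Measurable fun p : X d × X d => ⟪p.1, p.1 - p.2⟫ :=
    measurable_fst.inner (measurable_fst.sub measurable_snd)
  exact (((measurable_fst.norm.inv.pow_const 4).mul (h3.const_mul _)).mul h2).smul measurable_fst

private theorem Fat_meas2 {α : Type*} [MeasurableSpace α] (β : ℝ) (f g : α → X d)
    (hf : Measurable f) (hg : Measurable g) : Measurable fun a => Fat_k β (f a) (g a) := by
  have h : Measurable fun a => (f a, g a) := hf.prodMk hg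
  have h2 := (Fat_meas (d := d) β).comp h
  exact h2

private theorem Fat_bound (d : ℕ) {β : ℝ} (hβ : 0 < β) : ∃ C : ℝ, 0 < C ∧ ∀ u V : X d,
    ‖Fat_k β u V‖ ≤ C * ‖u‖⁻¹ ^ 2 := by
  obtain ⟨C, hC, h⟩ := poly_ga d 1 hβ
  refine ⟨2 * β * C, by positivity, fun u V => ?_⟩
  have h0 : ‖u - V‖ * ga β (u - V) ≤ C := by
    have h2 := h (u - V)
    have h1 : ga 0 (u - V) = 1 := by simp [ga]
    rw [h1, mul_one, pow_one] at h2
    nlinarith [ga_nonneg β (u - V), norm_nonneg (u - V)]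
  unfold Fat_k
  rw [norm_smul, norm_mul, norm_mul, norm_mul, norm_pow, norm_inv, norm_norm,
    Real.norm_of_nonneg (ga_nonneg _ _)]
  have h3 : ‖-(2 * β)‖ = 2 * β := by
    rw [norm_neg, Real.norm_of_nonneg (by positivity)]
  rw [h3]
  have h4 : ‖⟪u, u - V⟫‖ ≤ ‖u‖ * ‖u - V‖ := norm_inner_le_norm _ _
  have h5 : ‖u‖⁻¹ ^ 4 * (‖u‖ * ‖u‖) = ‖u‖⁻¹ ^ 2 := by
    rcases eq_or_ne ‖u‖ 0 with hu | hu
    · rw [hu]; simp
    · field_simp
  calc ‖u‖⁻¹ ^ 4 * (2 * β * ‖⟪u, u - V⟫‖) * ga β (u - V) * ‖u‖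
      ≤ ‖u‖⁻¹ ^ 4 * (2 * β * (‖u‖ * ‖u - V‖)) * ga β (u - V) * ‖u‖ := by
        have := ga_nonneg β (u - V)
        gcongr
    _ = 2 * β * (‖u - V‖ * ga β (u - V)) * (‖u‖⁻¹ ^ 4 * (‖u‖ * ‖u‖)) := by ring
    _ ≤ 2 * β * C * (‖u‖⁻¹ ^ 4 * (‖u‖ * ‖u‖)) := by gcongr
    _ = 2 * β * C * ‖u‖⁻¹ ^ 2 := by rw [h5]

private theorem Fat_ebound {C : ℝ} (hC : 0 < C) {u v : X d} (h : ‖v‖ ≤ C * ‖u‖⁻¹ ^ 2) :
    ‖v‖ₑ ≤ ENNReal.ofReal C * ‖u‖ₑ⁻¹ ^ 2 := by
  rcases eq_or_ne u 0 with hu | hu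
  · rw [hu]
    simp only [enorm_zero, ENNReal.inv_zero]
    rw [ENNReal.top_pow (by norm_num), ENNReal.mul_top]
    · exact le_top
    · exact (ENNReal.ofReal_pos.2 hC).ne'
  · have h1 : 0 < ‖u‖ := norm_pos_iff.2 hu
    rw [← ofReal_norm, ← ofReal_norm, ← ENNReal.ofReal_inv_of_pos h1,
      ← ENNReal.ofReal_pow (by positivity), ← ENNReal.ofReal_mul hC.le]
    exact ENNReal.ofReal_le_ofReal h

private theorem Fat_enorm_inv {u : X d} (hu : u ≠ 0) :
    ‖u‖ₑ⁻¹ ^ 2 = ENNReal.ofReal (‖u‖⁻¹ ^ 2) := by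
  have h1 : 0 < ‖u‖ := norm_pos_iff.2 hu
  rw [← ofReal_norm, ← ENNReal.ofReal_inv_of_pos h1, ← ENNReal.ofReal_pow (by positivity)]

/-- the kernel `|y - z|⁻²` is integrable -/
private theorem Fat_int {μ : Measure (X d)} [IsFiniteMeasure μ] {C₀ : ℝ} (hC₀ : 0 ≤ C₀)
    (hg : Gr 3 C₀ μ) (z : X d) : ∫⁻ y, ‖y - z‖ₑ⁻¹ ^ 2 ∂μ < ⊤ := by
  obtain ⟨A, hA, hnear⟩ := Gr.near_lintegral (d := d) 3 (by norm_num)
  have h1 := hnear C₀ hC₀ μ hg z 1 one_pos
  have hz : ∀ᵐ y ∂μ, y ≠ z := by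
    have := hg.singleton (by norm_num) z
    exact compl_mem_ae_iff.2 this
  have h2 : ∀ᵐ y ∂μ, ‖y - z‖ₑ⁻¹ ^ 2 ≤ (closedBall z 1).indicator
      (fun y => ENNReal.ofReal (‖y - z‖ * ‖y - z‖⁻¹ ^ 3)) y + 1 := by
    filter_upwards [hz] with y hy
    have hy' : y - z ≠ 0 := sub_ne_zero.2 hy
    have hpos : 0 < ‖y - z‖ := norm_pos_iff.2 hy'
    rw [Fat_enorm_inv hy']
    by_cases hm : y ∈ closedBall z 1
    · rw [indicator_of_mem hm]
      refine le_trans (le_of_eq ?_) le_self_add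
      congr 1
      field_simp
    · rw [indicator_of_notMem hm, zero_add]
      rw [mem_closedBall, dist_eq_norm, not_le] at hm
      rw [← ENNReal.ofReal_one]
      apply ENNReal.ofReal_le_ofReal
      exact pow_le_one₀ (by positivity) (inv_le_one_of_one_le₀ hm.le)
  refine lt_of_le_of_lt (lintegral_mono_ae h2) ?_
  rw [lintegral_add_right _ measurable_const, lintegral_indicator measurableSet_closedBall]
  refine ENNReal.add_lt_top.2 ⟨lt_of_le_of_lt h1 ENNReal.ofReal_lt_top, ?_⟩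
  rw [lintegral_one]
  exact measure_lt_top μ _

private theorem Fat_Kz (μ : Measure (X d)) (z : X d) (β : ℝ) (Y : X d) :
    Kz μ z β Y = ∫ x, Fat_k β (x - z) (Y - z) ∂μ := by
  unfold Kz Fat_k
  simp only [sub_sub_sub_cancel_right]

private theorem Fat_Kz_meas (ν : Measure (X d)) [SFinite ν] (z : X d) (β : ℝ) :
    Measurable fun Y => Kz ν z β Y := by
  have h : Measurable fun p : X d × X d => Fat_k β (p.2 - z) (p.1 - z) :=
    Fat_meas2 β (fun p : X d × X d => p.2 - z) (fun p => p.1 - z)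
      (measurable_snd.sub_const z) (measurable_fst.sub_const z)
  have h2 : StronglyMeasurable fun Y : X d => ∫ x, Fat_k β (x - z) (Y - z) ∂ν :=
    MeasureTheory.StronglyMeasurable.integral_prod_right'
      (f := fun p : X d × X d => Fat_k β (p.2 - z) (p.1 - z)) h.stronglyMeasurable
  have h3 : (fun Y => Kz ν z β Y) = fun Y : X d => ∫ x, Fat_k β (x - z) (Y - z) ∂ν :=
    funext fun Y => Fat_Kz ν z β Y
  rw [h3]
  exact h2.measurable

/-- the integrand for the mollified measure is integrable -/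
private theorem Fat_prod_int (hd : 4 ≤ d) {μ : Measure (X d)} [IsFiniteMeasure μ] {C₀ : ℝ}
    (hC₀ : 0 ≤ C₀) (hg : Gr 3 C₀ μ) {β : ℝ} (hβ : 0 < β) {ε : ℝ} (hε : 0 < ε) (z V : X d)
    {w : X d} (hw : w ∈ closedBall (0 : X d) 1) :
    Integrable (fun p : X d × X d => Fat_k β ((p.1 - z) + ε • (p.2 - w)) V) (μ.prod (Pb d)) := by
  have := Pb_prob d
  obtain ⟨C, hC, hb⟩ := Fat_bound d hβ
  obtain ⟨C', hC', ha⟩ := avg_two (d := d) hd
  have hm : Measurable fun p : X d × X d => Fat_k β ((p.1 - z) + ε • (p.2 - w)) V :=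
    Fat_meas2 β (fun p : X d × X d => (p.1 - z) + ε • (p.2 - w)) (fun _ => V)
      ((measurable_fst.sub_const z).add ((measurable_snd.sub_const w).const_smul ε))
      measurable_const
  refine ⟨hm.aestronglyMeasurable, ?_⟩
  rw [hasFiniteIntegral_iff_enorm, lintegral_prod _ hm.enorm.aemeasurable]
  have h1 : ∀ y, ∫⁻ w', ‖Fat_k β ((y - z) + ε • (w' - w)) V‖ₑ ∂(Pb d) ≤
      ENNReal.ofReal C * (ENNReal.ofReal C' * ‖y - z‖ₑ⁻¹ ^ 2) := by
    intro y
    calc ∫⁻ w', ‖Fat_k β ((y - z) + ε • (w' - w)) V‖ₑ ∂(Pb d)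
        ≤ ∫⁻ w', ENNReal.ofReal C * ‖(y - z) + ε • (w' - w)‖ₑ⁻¹ ^ 2 ∂(Pb d) :=
          lintegral_mono fun w' => Fat_ebound hC (hb _ _)
      _ = ENNReal.ofReal C * ∫⁻ w', ‖(y - z) + ε • (w' - w)‖ₑ⁻¹ ^ 2 ∂(Pb d) := by
          rw [lintegral_const_mul' _ _ ENNReal.ofReal_ne_top]
      _ ≤ _ := by
          gcongr
          exact ha ε hε (y - z) w hw
  refine lt_of_le_of_lt (lintegral_mono h1) ?_
  rw [lintegral_const_mul' _ _ ENNReal.ofReal_ne_top, lintegral_const_mul' _ _ ENNReal.ofReal_ne_top]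
  exact ENNReal.mul_lt_top ENNReal.ofReal_lt_top
    (ENNReal.mul_lt_top ENNReal.ofReal_lt_top (Fat_int hC₀ hg z))

private theorem Fat_Kz_mol (hd : 4 ≤ d) {μ : Measure (X d)} [IsFiniteMeasure μ] {C₀ : ℝ}
    (hC₀ : 0 ≤ C₀) (hg : Gr 3 C₀ μ) {β : ℝ} (hβ : 0 < β) {ε : ℝ} (hε : 0 < ε) (z Y : X d)
    {w : X d} (hw : w ∈ closedBall (0 : X d) 1) :
    Kz (mol μ ε) (z + ε • w) β Y =
      ∫ y, (∫ w', Fat_k β ((y - z) + ε • (w' - w)) (Y - (z + ε • w)) ∂(Pb d)) ∂μ := by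
  have := Pb_prob d
  rw [← integral_prod (fun p : X d × X d => Fat_k β ((p.1 - z) + ε • (p.2 - w)) (Y - (z + ε • w)))
    (Fat_prod_int hd hC₀ hg hβ hε z _ hw), Fat_Kz]
  unfold mol
  have hm : Measurable fun p : X d × X d => p.1 + ε • p.2 :=
    measurable_fst.add (measurable_snd.const_smul ε)
  have hf : Measurable fun x : X d => Fat_k β (x - (z + ε • w)) (Y - (z + ε • w)) :=
    Fat_meas2 β (fun x : X d => x - (z + ε • w)) (fun _ => Y - (z + ε • w))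
      (measurable_id.sub_const _) measurable_const
  rw [integral_map hm.aemeasurable hf.aestronglyMeasurable]
  refine integral_congr_ae (Eventually.of_forall fun p => ?_)
  simp only
  congr 1
  rw [smul_sub]
  abel

private theorem Fat_Pb_ae (d : ℕ) : ∀ᵐ w ∂(Pb d), w ∈ closedBall (0 : X d) 1 := by
  unfold Pb
  exact (Measure.smul_absolutelyContinuous).ae_le (ae_restrict_mem measurableSet_closedBall)

private theorem Fat_cont (β : ℝ) {u₀ : X d} (hu : u₀ ≠ 0) (V₀ : X d) :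
    ContinuousAt (fun p : X d × X d => Fat_k β p.1 p.2) (u₀, V₀) := by
  unfold Fat_k
  have h1 : Continuous (ga β : X d → ℝ) := ga_continuous β
  have h2 : ContinuousAt (fun p : X d × X d => ga β (p.1 - p.2)) (u₀, V₀) :=
    (h1.comp (continuous_fst.sub continuous_snd)).continuousAt
  have h3 : ContinuousAt (fun p : X d × X d => ⟪p.1, p.1 - p.2⟫) (u₀, V₀) :=
    (continuous_fst.inner (continuous_fst.sub continuous_snd)).continuousAt
  have h4 : ContinuousAt (fun p : X d × X d => ‖p.1‖⁻¹) (u₀, V₀) :=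
    ContinuousAt.inv₀ continuous_fst.norm.continuousAt (norm_ne_zero_iff.2 hu)
  exact (((h4.pow 4).mul (continuousAt_const.mul h3)).mul h2).smul continuous_fst.continuousAt

/-- the inner limit -/
private theorem Fat_inner {β : ℝ} (hβ : 0 < β) {ε : ℕ → ℝ} (hε : ∀ k, 0 < ε k)
    (hε0 : Tendsto ε atTop (𝓝 0)) (z Y : X d) {w : X d} (hw : w ∈ closedBall (0 : X d) 1)
    {y : X d} (hy : y ≠ z) :
    Tendsto (fun k => ∫ w', Fat_k β ((y - z) + ε k • (w' - w)) (Y - (z + ε k • w)) ∂(Pb d)) atTop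
      (𝓝 (Fat_k β (y - z) (Y - z))) := by
  have := Pb_prob d
  obtain ⟨C, hC, hb⟩ := Fat_bound d hβ
  have hy' : y - z ≠ 0 := sub_ne_zero.2 hy
  have hpos : 0 < ‖y - z‖ := norm_pos_iff.2 hy'
  have hconst : ∫ _w' : X d, Fat_k β (y - z) (Y - z) ∂(Pb d) = Fat_k β (y - z) (Y - z) := by
    rw [integral_const]
    simp
  rw [← hconst]
  have hev : ∀ᶠ k in atTop, ε k < ‖y - z‖ / 4 :=
    hε0.eventually (gt_mem_nhds (by positivity))
  refine tendsto_integral_filter_of_dominated_convergence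
    (fun _ => C * (2 * ‖y - z‖⁻¹) ^ 2) ?_ ?_ (integrable_const _) ?_
  · refine Eventually.of_forall fun k => Measurable.aestronglyMeasurable ?_
    exact Fat_meas2 β (fun w' : X d => (y - z) + ε k • (w' - w)) (fun _ => Y - (z + ε k • w))
      (measurable_const.add ((measurable_id.sub_const w).const_smul (ε k))) measurable_const
  · filter_upwards [hev] with k hk
    filter_upwards [Fat_Pb_ae d] with w' hw'
    refine (hb _ _).trans ?_
    rw [mem_closedBall, dist_zero_right] at hw hw'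
    have h1 : ‖ε k • (w' - w)‖ ≤ ‖y - z‖ / 2 := by
      rw [norm_smul, Real.norm_of_nonneg (hε k).le]
      have h2 : ‖w' - w‖ ≤ 2 := (norm_sub_le _ _).trans (by linarith)
      have h3 := hε k
      nlinarith [norm_nonneg (w' - w)]
    have h4 : ‖y - z‖ / 2 ≤ ‖(y - z) + ε k • (w' - w)‖ := by
      have h5 : ‖y - z‖ ≤ ‖(y - z) + ε k • (w' - w)‖ + ‖ε k • (w' - w)‖ := by
        have h6 := norm_sub_le ((y - z) + ε k • (w' - w)) (ε k • (w' - w))
        rwa [add_sub_cancel_right] at h6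
      linarith
    have h7 : ‖(y - z) + ε k • (w' - w)‖⁻¹ ≤ 2 * ‖y - z‖⁻¹ := by
      calc ‖(y - z) + ε k • (w' - w)‖⁻¹ ≤ (‖y - z‖ / 2)⁻¹ :=
            inv_anti₀ (by positivity) h4
        _ = 2 * ‖y - z‖⁻¹ := by field_simp
    have h8 : 0 ≤ ‖(y - z) + ε k • (w' - w)‖⁻¹ := by positivity
    gcongr
  · refine Eventually.of_forall fun w' => ?_
    have h1 := (Fat_cont β hy' (Y - z)).tendsto
    have h2 : Tendsto (fun k => (((y - z) + ε k • (w' - w), Y - (z + ε k • w)) : X d × X d)) atTop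
        (𝓝 (y - z, Y - z)) := by
      refine Tendsto.prodMk_nhds ?_ ?_
      · have h3 : Tendsto (fun k => (y - z) + ε k • (w' - w)) atTop
            (𝓝 ((y - z) + (0 : ℝ) • (w' - w))) :=
          tendsto_const_nhds.add (hε0.smul_const _)
        rwa [zero_smul, add_zero] at h3
      · have h3 : Tendsto (fun k => Y - (z + ε k • w)) atTop (𝓝 (Y - (z + (0 : ℝ) • w))) :=
          tendsto_const_nhds.sub (tendsto_const_nhds.add (hε0.smul_const _))
        rwa [zero_smul, add_zero] at h3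
    have h5 := h1.comp h2
    exact h5

/-- pointwise convergence of the kernels -/
private theorem Fat_tendsto (hd : 4 ≤ d) {μ : Measure (X d)} [IsFiniteMeasure μ] {C₀ : ℝ}
    (hC₀ : 0 ≤ C₀) (hg : Gr 3 C₀ μ) {β : ℝ} (hβ : 0 < β) {ε : ℕ → ℝ} (hε : ∀ k, 0 < ε k)
    (hε0 : Tendsto ε atTop (𝓝 0)) (z Y : X d) {w : X d} (hw : w ∈ closedBall (0 : X d) 1) :
    Tendsto (fun k => Kz (mol μ (ε k)) (z + ε k • w) β Y) atTop (𝓝 (Kz μ z β Y)) := by
  have := Pb_prob d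
  obtain ⟨C, hC, hb⟩ := Fat_bound d hβ
  obtain ⟨C', hC', ha⟩ := avg_two (d := d) hd
  have h0 : (fun k => Kz (mol μ (ε k)) (z + ε k • w) β Y) = fun k =>
      ∫ y, (∫ w', Fat_k β ((y - z) + ε k • (w' - w)) (Y - (z + ε k • w)) ∂(Pb d)) ∂μ :=
    funext fun k => Fat_Kz_mol hd hC₀ hg hβ (hε k) z Y hw
  rw [h0, Fat_Kz]
  have hz : ∀ᵐ y ∂μ, y ≠ z := by
    have := hg.singleton (by norm_num) z
    exact compl_mem_ae_iff.2 this
  refine tendsto_integral_of_dominated_convergence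
    (fun y => C * C' * ‖y - z‖⁻¹ ^ 2) ?_ ?_ ?_ ?_
  · intro k
    exact (Fat_prod_int hd hC₀ hg hβ (hε k) z (Y - (z + ε k • w)) hw).1.integral_prod_right'
  · refine Integrable.const_mul ?_ _
    have hm : Measurable fun y : X d => ‖y - z‖⁻¹ ^ 2 :=
      ((measurable_id.sub_const z).norm.inv).pow_const 2
    refine ⟨hm.aestronglyMeasurable, ?_⟩
    rw [hasFiniteIntegral_iff_enorm]
    refine lt_of_le_of_lt (lintegral_mono_ae ?_) (Fat_int hC₀ hg z)
    filter_upwards [hz] with y hy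
    rw [Fat_enorm_inv (sub_ne_zero.2 hy), Real.enorm_of_nonneg (by positivity)]
  · intro k
    filter_upwards [hz] with y hy
    have hy' : y - z ≠ 0 := sub_ne_zero.2 hy
    have h1 : ‖∫ w', Fat_k β ((y - z) + ε k • (w' - w)) (Y - (z + ε k • w)) ∂(Pb d)‖ₑ ≤
        ENNReal.ofReal (C * C' * ‖y - z‖⁻¹ ^ 2) := by
      refine (enorm_integral_le_lintegral_enorm _).trans ?_
      calc ∫⁻ w', ‖Fat_k β ((y - z) + ε k • (w' - w)) (Y - (z + ε k • w))‖ₑ ∂(Pb d)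
          ≤ ∫⁻ w', ENNReal.ofReal C * ‖(y - z) + ε k • (w' - w)‖ₑ⁻¹ ^ 2 ∂(Pb d) :=
            lintegral_mono fun w' => Fat_ebound hC (hb _ _)
        _ = ENNReal.ofReal C * ∫⁻ w', ‖(y - z) + ε k • (w' - w)‖ₑ⁻¹ ^ 2 ∂(Pb d) := by
            rw [lintegral_const_mul' _ _ ENNReal.ofReal_ne_top]
        _ ≤ ENNReal.ofReal C * (ENNReal.ofReal C' * ‖y - z‖ₑ⁻¹ ^ 2) := by
            gcongr
            exact ha (ε k) (hε k) (y - z) w hw
        _ = ENNReal.ofReal (C * C' * ‖y - z‖⁻¹ ^ 2) := by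
            rw [Fat_enorm_inv hy', mul_assoc C, ENNReal.ofReal_mul hC.le,
              ENNReal.ofReal_mul hC'.le]
    rw [← ofReal_norm] at h1
    exact (ENNReal.ofReal_le_ofReal_iff (by positivity)).1 h1
  · filter_upwards [hz] with y hy
    exact Fat_inner hβ hε hε0 z Y hw hy

private theorem Fat_G_meas (ν : Measure (X d)) [IsFiniteMeasure ν] :
    Measurable fun z => ∫⁻ t in Ioi (0 : ℝ), Qz ν z t * ENNReal.ofReal t⁻¹ := by
  have h1 : Measurable fun p : X d × ℝ => Qz ν p.1 p.2 * ENNReal.ofReal p.2⁻¹ :=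
    (Qz_measurable ν).mul (ENNReal.measurable_ofReal.comp measurable_snd.inv)
  exact h1.lintegral_prod_right'

private theorem Fat_Qz (ν : Measure (X d)) (z : X d) (t : ℝ) (c : ℝ) :
    Qz ν z t * ENNReal.ofReal c = ∫⁻ Y, ENNReal.ofReal ((t ^ d * gc d 4)⁻¹) *
      ‖Kz ν z (2 / t ^ 2) Y‖ₑ ^ 2 * ENNReal.ofReal c := by
  unfold Qz
  rw [lintegral_mul_const' _ _ ENNReal.ofReal_ne_top, lintegral_const_mul' _ _ ENNReal.ofReal_ne_top]

private theorem Fat_liminf_t (hd : 4 ≤ d) {μ : Measure (X d)} [IsFiniteMeasure μ] {C₀ : ℝ}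
    (hC₀ : 0 ≤ C₀) (hg : Gr 3 C₀ μ) {ε : ℕ → ℝ} (hε : ∀ k, 0 < ε k)
    (hε0 : Tendsto ε atTop (𝓝 0)) (z : X d) {w : X d} (hw : w ∈ closedBall (0 : X d) 1)
    {t : ℝ} (ht : 0 < t) (c : ℝ) :
    Qz μ z t * ENNReal.ofReal c ≤
      liminf (fun k => Qz (mol μ (ε k)) (z + ε k • w) t * ENNReal.ofReal c) atTop := by
  simp only [Fat_Qz]
  have hfin : ∀ k, IsFiniteMeasure (mol μ (ε k)) := fun k => (mol_nice hd μ (hε k)).1
  have h1 : ∀ Y, ENNReal.ofReal ((t ^ d * gc d 4)⁻¹) * ‖Kz μ z (2 / t ^ 2) Y‖ₑ ^ 2 *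
      ENNReal.ofReal c = liminf (fun k => ENNReal.ofReal ((t ^ d * gc d 4)⁻¹) *
        ‖Kz (mol μ (ε k)) (z + ε k • w) (2 / t ^ 2) Y‖ₑ ^ 2 * ENNReal.ofReal c) atTop := by
    intro Y
    have h2 := (Fat_tendsto hd hC₀ hg (β := 2 / t ^ 2) (by positivity) hε hε0 z Y hw).enorm
    have h3 := ENNReal.Tendsto.mul_const (ENNReal.Tendsto.const_mul
      (h2.ennrpow_const 2) (Or.inr (ENNReal.ofReal_ne_top (r := (t ^ d * gc d 4)⁻¹))))
      (Or.inr (ENNReal.ofReal_ne_top (r := c)))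
    simp only [ENNReal.rpow_ofNat] at h3
    exact h3.liminf_eq.symm
  rw [lintegral_congr h1]
  refine lintegral_liminf_le fun k => ?_
  have := hfin k
  exact (((Fat_Kz_meas (mol μ (ε k)) (z + ε k • w) (2 / t ^ 2)).enorm.pow_const 2).const_mul
    _).mul_const _

theorem carleson_three (hd : 4 ≤ d) {μ : Measure (X d)} [IsFiniteMeasure μ] {C₀ : ℝ}
    (hC₀ : 0 ≤ C₀) (hg : Gr 3 C₀ μ) (hE : En 3 μ) :
    ∫⁻ z, (∫⁻ t in Ioi (0 : ℝ), Qz μ z t * ENNReal.ofReal t⁻¹) ∂μ < ⊤ := by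
  have := Pb_prob d
  obtain ⟨B, hB⟩ := mol_energy hd hC₀ hg hE
  let ε : ℕ → ℝ := fun k => 1 / ((k : ℝ) + 1)
  have hε : ∀ k, 0 < ε k := fun k => Nat.one_div_pos_of_nat
  have hε1 : ∀ k, ε k ≤ 1 := fun k => by
    have : (1 : ℝ) ≤ (k : ℝ) + 1 := by
      have := Nat.cast_nonneg (α := ℝ) k
      linarith
    exact (div_le_one (by positivity)).2 this
  have hε0 : Tendsto ε atTop (𝓝 0) := tendsto_one_div_add_atTop_nhds_zero_nat
  have hfin : ∀ k, IsFiniteMeasure (mol μ (ε k)) := fun k => (mol_nice hd μ (hε k)).1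
  have hmk : ∀ k, ∫⁻ z, (∫⁻ t in Ioi (0 : ℝ), Qz (mol μ (ε k)) z t * ENNReal.ofReal t⁻¹)
      ∂(mol μ (ε k)) ≤ ENNReal.ofReal B := fun k => by
    rw [energy_three (mol_nice hd μ (hε k))]
    exact ENNReal.ofReal_le_ofReal (hB (ε k) (hε k) (hε1 k))
  have hφ : ∀ k, Measurable fun p : X d × X d => p.1 + ε k • p.2 := fun k =>
    measurable_fst.add (measurable_snd.const_smul (ε k))
  have hmk2 : ∀ k, ∫⁻ p, (∫⁻ t in Ioi (0 : ℝ), Qz (mol μ (ε k)) (p.1 + ε k • p.2) t *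
      ENNReal.ofReal t⁻¹) ∂(μ.prod (Pb d)) ≤ ENNReal.ofReal B := fun k => by
    have h1 := hmk k
    have := hfin k
    have h2 := lintegral_map (μ := μ.prod (Pb d)) (Fat_G_meas (mol μ (ε k))) (hφ k)
    rw [← h2]
    exact h1
  have hkey : ∀ᵐ p ∂(μ.prod (Pb d)), ∫⁻ t in Ioi (0 : ℝ), Qz μ p.1 t * ENNReal.ofReal t⁻¹ ≤
      liminf (fun k => ∫⁻ t in Ioi (0 : ℝ), Qz (mol μ (ε k)) (p.1 + ε k • p.2) t *
        ENNReal.ofReal t⁻¹) atTop := by
    have h1 : ∀ᵐ p ∂(μ.prod (Pb d)), p.2 ∈ closedBall (0 : X d) 1 :=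
      (Measure.quasiMeasurePreserving_snd (μ := μ) (ν := Pb d)).ae (Fat_Pb_ae d)
    filter_upwards [h1] with p hp
    have h2 : ∫⁻ t in Ioi (0 : ℝ), Qz μ p.1 t * ENNReal.ofReal t⁻¹ ≤
        ∫⁻ t in Ioi (0 : ℝ), liminf (fun k => Qz (mol μ (ε k)) (p.1 + ε k • p.2) t *
          ENNReal.ofReal t⁻¹) atTop := by
      refine setLIntegral_mono_ae' measurableSet_Ioi (Eventually.of_forall fun t ht => ?_)
      exact Fat_liminf_t hd hC₀ hg hε hε0 p.1 hp ht t⁻¹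
    refine h2.trans (lintegral_liminf_le fun k => ?_)
    have := hfin k
    exact ((Qz_measurable (mol μ (ε k))).comp (measurable_const.prodMk measurable_id)).mul
      (ENNReal.measurable_ofReal.comp measurable_id.inv)
  have hfst : ∫⁻ z, (∫⁻ t in Ioi (0 : ℝ), Qz μ z t * ENNReal.ofReal t⁻¹) ∂μ =
      ∫⁻ p, (∫⁻ t in Ioi (0 : ℝ), Qz μ p.1 t * ENNReal.ofReal t⁻¹) ∂(μ.prod (Pb d)) := by
    rw [lintegral_prod (fun p : X d × X d => ∫⁻ t in Ioi (0 : ℝ), Qz μ p.1 t *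
      ENNReal.ofReal t⁻¹) ((Fat_G_meas μ).comp measurable_fst).aemeasurable]
    refine lintegral_congr fun z => ?_
    have h5 : ∫⁻ _y : X d, (∫⁻ t in Ioi (0 : ℝ), Qz μ z t * ENNReal.ofReal t⁻¹) ∂(Pb d) =
        ∫⁻ t in Ioi (0 : ℝ), Qz μ z t * ENNReal.ofReal t⁻¹ := by
      rw [lintegral_const, measure_univ, mul_one]
    exact h5.symm
  rw [hfst]
  refine lt_of_le_of_lt ((lintegral_mono_ae hkey).trans (lintegral_liminf_le fun k => ?_)) ?_
  · have := hfin k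
    exact (Fat_G_meas (mol μ (ε k))).comp (hφ k)
  · refine lt_of_le_of_lt (liminf_le_of_frequently_le' (Frequently.of_forall hmk2))
      ENNReal.ofReal_lt_top

end Pool.Agent.H1.LD
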