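import Pool.Agent.H1.LD.Upd
import Pool.Agent.RZ.J1

/-!
low_of_dich.  RZ.J1 exhaust: compact G j ⊆ E with growth constants, H^n(E \ ⋃ G j) = 0.  For each j, with μ_j = H^n restricted to G j: Dich n μ_j (h) and upper_dens: for μ_j-a.e. z: a ≤ r⁻¹^n μ_j.real(closedBall z r) eventually, and μ_j(closedBall z r) ≤ H^n(E ∩ closedBall z r), so the liminf is ≥ ofReal a > 0.
-/

set_option autoImplicit false

open MeasureTheory Filter Topology Metric Set
open scoped RealInnerProductSpace ENNReal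

namespace Pool.Agent.H1.LD

open Pool.Agent.RZ

variable {d : ℕ}

/-- positive lower density from the dichotomy -/
theorem low_of_dich {n : ℕ} (hn : 1 ≤ n) {E : Set (X d)} (hE : IsCompact E)
    (hfin : Measure.hausdorffMeasure (n : ℝ) E < ⊤)
    (h : ∀ G : Set (X d), IsCompact G → G ⊆ E → ∀ C : ℝ, 1 ≤ C →
      Gr n C ((Measure.hausdorffMeasure (n : ℝ)).restrict G) →
      Dich n ((Measure.hausdorffMeasure (n : ℝ)).restrict G)) :
    Measure.hausdorffMeasure (n : ℝ) (E \ {x ∈ E | 0 < liminf (fun r : ℝ =>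
      Measure.hausdorffMeasure (n : ℝ) (E ∩ closedBall x r) / ENNReal.ofReal (r ^ n))
      (𝓝[>] 0)}) = 0 := by
  obtain ⟨G, hG, hGE⟩ := exhaust n hn hE hfin
  rw [measure_eq_zero_iff_ae_notMem] at hGE ⊢
  have h1 : ∀ j, ∀ᵐ z ∂(Measure.hausdorffMeasure (n : ℝ) : Measure (X d)), z ∈ G j →
      ∃ a : ℝ, 0 < a ∧ ∀ᶠ r in 𝓝[>] (0 : ℝ),
        a ≤ r⁻¹ ^ n * ((Measure.hausdorffMeasure (n : ℝ)).restrict (G j)).real
          (closedBall z r) := by
    intro j
    obtain ⟨hc, hs, C, hC, hg⟩ := hG j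
    have hD := h (G j) hc hs C hC hg
    have hU := upper_dens hn hc ((measure_mono hs).trans_lt hfin)
    rw [← ae_restrict_iff' hc.measurableSet]
    filter_upwards [hD, hU] with z h2 h3
    exact h2 h3
  have h1' := ae_all_iff.mpr h1
  filter_upwards [hGE, h1'] with z h2 h3 h4
  apply h4.2
  refine ⟨h4.1, ?_⟩
  have h5 : z ∈ ⋃ j, G j := by
    by_contra hcon
    exact h2 ⟨h4.1, hcon⟩
  obtain ⟨j, hj⟩ := mem_iUnion.mp h5
  obtain ⟨a, ha, hev⟩ := h3 j hj
  refine lt_of_lt_of_le (ENNReal.ofReal_pos.mpr ha) ?_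
  refine le_liminf_of_le (h := ?_)
  filter_upwards [hev, self_mem_nhdsWithin] with r hr hr0
  have hr0' : 0 < r := hr0
  have h6 : ENNReal.ofReal a ≤ ENNReal.ofReal (r⁻¹ ^ n) *
      ((Measure.hausdorffMeasure (n : ℝ)).restrict (G j)) (closedBall z r) := by
    refine (ENNReal.ofReal_le_ofReal hr).trans ?_
    rw [ENNReal.ofReal_mul (by positivity)]
    exact mul_le_mul_right ENNReal.ofReal_toReal_le _
  have h7 : ((Measure.hausdorffMeasure (n : ℝ)).restrict (G j)) (closedBall z r) ≤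
      Measure.hausdorffMeasure (n : ℝ) (E ∩ closedBall z r) := by
    rw [Measure.restrict_apply measurableSet_closedBall]
    exact measure_mono fun x hx => ⟨(hG j).2.1 hx.2, hx.1⟩
  have h8 : ENNReal.ofReal (r⁻¹ ^ n) = (ENNReal.ofReal (r ^ n))⁻¹ := by
    rw [← ENNReal.ofReal_inv_of_pos (by positivity), inv_pow]
  rw [h8] at h6
  rw [ENNReal.div_eq_inv_mul]
  exact h6.trans (mul_le_mul_right h7 _)

end Pool.Agent.H1.LD
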