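import Pool.Agent.H1.LD.PrdA

/-!
prI_dich.  For a.e. (z,s) (ae_map_iff needs measurability: use ae_of_ae_map with app measurable) the implication of Dich (n+1)(prI μ) holds at app (z,s); by Fubini (ae_ae_of_ae_prod) for μ-a.e. z there is s in (0,1) with it.  Fix such z, s, and suppose
 r⁻¹^n μ(closedBall z r) does not tend to 0.  For small r: prI(closedBall (app (z,s)) r) ≥ μ(closedBall z (r/2)) * (r/2) (the set {|y-z| ≤ r/2, |s'-s| ≤ r/2} maps into the ball, length ≥ r/2·2 ≥ r/2 for small r); so r⁻¹^(n+1) prI(..) does not tend to 0.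
 Hence a ≤ r⁻¹^(n+1) prI(closedBall (app(z,s)) r) ≤ r⁻¹^(n+1) * 2r * μ(closedBall z r) eventually: a/2 works.
-/

set_option autoImplicit false

open MeasureTheory Filter Topology Metric Set
open scoped RealInnerProductSpace ENNReal

namespace Pool.Agent.H1.LD

open Pool.Agent.RZ

variable {d : ℕ}

private theorem PrdD_len {s r : ℝ} (hs : s ∈ Icc (0 : ℝ) 1) (hr : 0 < r) (hr1 : r ≤ 1) :
    ENNReal.ofReal (r / 2) ≤ (volume.restrict (Icc (0 : ℝ) 1)) (closedBall s (r / 2)) := by
  rw [Measure.restrict_apply measurableSet_closedBall, Real.closedBall_eq_Icc]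
  obtain ⟨h0, h1⟩ := hs
  by_cases h : s + r / 2 ≤ 1
  · calc ENNReal.ofReal (r / 2) = volume (Icc s (s + r / 2)) := by
          rw [Real.volume_Icc]; congr 1; ring
      _ ≤ _ := by
          refine measure_mono ?_
          rintro t ⟨ht0, ht1⟩
          refine ⟨⟨by linarith, by linarith⟩, ⟨by linarith, by linarith⟩⟩
  · calc ENNReal.ofReal (r / 2) = volume (Icc (s - r / 2) s) := by
          rw [Real.volume_Icc]; congr 1; ring
      _ ≤ _ := by
          refine measure_mono ?_
          rintro t ⟨ht0, ht1⟩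
          refine ⟨⟨by linarith, by linarith⟩, ⟨by linarith, by linarith⟩⟩

private theorem PrdD_low {μ : Measure (X d)} [IsFiniteMeasure μ] (z : X d) {s r : ℝ}
    (hs : s ∈ Icc (0 : ℝ) 1) (hr : 0 < r) (hr1 : r ≤ 1) :
    μ.real (closedBall z (r / 2)) * (r / 2) ≤ (prI μ).real (closedBall (app (z, s)) r) := by
  have := prI_finite μ
  have h1 : μ (closedBall z (r / 2)) * ENNReal.ofReal (r / 2) ≤
      (prI μ) (closedBall (app (z, s)) r) := by
    rw [prI, Measure.map_apply app_continuous.measurable measurableSet_closedBall]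
    calc μ (closedBall z (r / 2)) * ENNReal.ofReal (r / 2)
        ≤ μ (closedBall z (r / 2)) *
          (volume.restrict (Icc (0 : ℝ) 1)) (closedBall s (r / 2)) := by
            gcongr
            exact PrdD_len hs hr hr1
      _ = (μ.prod (volume.restrict (Icc (0 : ℝ) 1)))
            (closedBall z (r / 2) ×ˢ closedBall s (r / 2)) := (Measure.prod_prod _ _).symm
      _ ≤ _ := by
          refine measure_mono ?_
          rintro ⟨y, t⟩ ⟨hy, ht⟩
          simp only [mem_closedBall, dist_eq_norm] at hy ht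
          simp only [mem_preimage, mem_closedBall, dist_eq_norm]
          have e := app_norm (y, t) (z, s)
          simp only at e
          rw [Real.norm_eq_abs] at ht
          have h2 : ‖y - z‖ ^ 2 ≤ (r / 2) ^ 2 := by gcongr
          have h3 : (t - s) ^ 2 ≤ (r / 2) ^ 2 := by
            rw [← sq_abs (t - s)]; gcongr
          refine le_of_sq_le_sq ?_ hr.le
          rw [e]
          nlinarith
  rw [measureReal_def, measureReal_def]
  calc (μ (closedBall z (r / 2))).toReal * (r / 2)
      = (μ (closedBall z (r / 2)) * ENNReal.ofReal (r / 2)).toReal := by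
        rw [ENNReal.toReal_mul, ENNReal.toReal_ofReal (by positivity)]
    _ ≤ _ := ENNReal.toReal_mono (measure_ne_top _ _) h1

private theorem PrdD_up {μ : Measure (X d)} [IsFiniteMeasure μ] (z : X d) (s : ℝ) {r : ℝ}
    (hr : 0 < r) :
    (prI μ).real (closedBall (app (z, s)) r) ≤ μ.real (closedBall z r) * (2 * r) := by
  have := prI_finite μ
  have h1 : (prI μ) (closedBall (app (z, s)) r) ≤
      μ (closedBall z r) * ENNReal.ofReal (2 * r) := by
    rw [prI, Measure.map_apply app_continuous.measurable measurableSet_closedBall]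
    calc _ ≤ (μ.prod (volume.restrict (Icc (0 : ℝ) 1)))
            (closedBall z r ×ˢ closedBall s r) := by
          refine measure_mono ?_
          rintro ⟨y, t⟩ hy
          simp only [mem_preimage, mem_closedBall, dist_eq_norm] at hy
          have e := app_norm (y, t) (z, s)
          simp only at e
          have h2 : ‖app (y, t) - app (z, s)‖ ^ 2 ≤ r ^ 2 := by gcongr
          rw [e] at h2
          refine ⟨?_, ?_⟩
          · simp only [mem_closedBall, dist_eq_norm]
            refine le_of_sq_le_sq ?_ hr.le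
            nlinarith [sq_nonneg (t - s)]
          · simp only [mem_closedBall, dist_eq_norm]
            refine le_of_sq_le_sq ?_ hr.le
            rw [Real.norm_eq_abs, sq_abs]
            nlinarith [sq_nonneg ‖y - z‖]
      _ = μ (closedBall z r) * (volume.restrict (Icc (0 : ℝ) 1)) (closedBall s r) :=
          Measure.prod_prod _ _
      _ ≤ _ := by
          gcongr
          calc _ ≤ volume (closedBall s r) := Measure.restrict_apply_le _ _
            _ = _ := by rw [Real.volume_closedBall]
  rw [measureReal_def, measureReal_def]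
  calc ((prI μ) (closedBall (app (z, s)) r)).toReal
      ≤ (μ (closedBall z r) * ENNReal.ofReal (2 * r)).toReal :=
        ENNReal.toReal_mono (ENNReal.mul_ne_top (measure_ne_top _ _) ENNReal.ofReal_ne_top) h1
    _ = _ := by rw [ENNReal.toReal_mul, ENNReal.toReal_ofReal (by positivity)]

theorem prI_dich {n : ℕ} {μ : Measure (X d)} [IsFiniteMeasure μ] {C₀ : ℝ} (hC₀ : 0 ≤ C₀)
    (hg : Gr n C₀ μ) (h : Dich (n + 1) (prI μ)) : Dich n μ := by
  have := prI_finite μ
  have h1 := ae_of_ae_map app_continuous.measurable.aemeasurable h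
  have h2 := Measure.ae_ae_of_ae_prod h1
  have hne : (ae (volume.restrict (Icc (0 : ℝ) 1))).NeBot := by
    rw [ae_restrict_neBot, Real.volume_Icc]
    norm_num
  unfold Dich
  filter_upwards [h2] with z hz hnt
  have h3 : ∀ᵐ s ∂(volume.restrict (Icc (0 : ℝ) 1)), s ∈ Icc (0 : ℝ) 1 :=
    ae_restrict_mem measurableSet_Icc
  obtain ⟨s, hs, hsI⟩ := (hz.and h3).exists
  have hnt' : ¬ Tendsto (fun r : ℝ => r⁻¹ ^ (n + 1) * (prI μ).real (closedBall (app (z, s)) r))
      (𝓝[>] 0) (𝓝 0) := by
    intro hT
    apply hnt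
    have h2t : Tendsto (fun r : ℝ => 2 * r) (𝓝[>] 0) (𝓝[>] 0) := by
      refine tendsto_nhdsWithin_iff.2 ⟨?_, ?_⟩
      · have : Tendsto (fun r : ℝ => 2 * r) (𝓝 0) (𝓝 (2 * 0)) :=
          (continuous_const.mul continuous_id).tendsto 0
        rw [mul_zero] at this
        exact this.mono_left nhdsWithin_le_nhds
      · filter_upwards [self_mem_nhdsWithin] with r hr
        simp only [mem_Ioi] at hr ⊢
        linarith
    have hT2 := (hT.comp h2t).const_mul ((2 : ℝ) ^ (n + 1))
    rw [mul_zero] at hT2
    refine squeeze_zero' ?_ ?_ hT2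
    · filter_upwards [self_mem_nhdsWithin] with r hr
      simp only [mem_Ioi] at hr
      positivity
    · have hlt : ∀ᶠ r : ℝ in 𝓝[>] 0, r < 1 / 2 :=
        nhdsWithin_le_nhds (Iio_mem_nhds (by norm_num))
      filter_upwards [self_mem_nhdsWithin, hlt] with r hr hr2
      simp only [mem_Ioi] at hr
      have hl := PrdD_low (μ := μ) z hsI (r := 2 * r) (by linarith) (by linarith)
      rw [show 2 * r / 2 = r by ring] at hl
      simp only [Function.comp_apply]
      calc r⁻¹ ^ n * μ.real (closedBall z r)
          = 2 ^ (n + 1) * ((2 * r)⁻¹ ^ (n + 1) * (μ.real (closedBall z r) * r)) := by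
            have e1 : (2 : ℝ) ^ (n + 1) * (2 : ℝ)⁻¹ ^ (n + 1) = 1 := by
              rw [← mul_pow, mul_inv_cancel₀ (by norm_num), one_pow]
            have e2 : r⁻¹ * r = 1 := inv_mul_cancel₀ hr.ne'
            calc r⁻¹ ^ n * μ.real (closedBall z r)
                = ((2 : ℝ) ^ (n + 1) * (2 : ℝ)⁻¹ ^ (n + 1)) * (r⁻¹ ^ n * (r⁻¹ * r)) *
                    μ.real (closedBall z r) := by rw [e1, e2]; ring
              _ = _ := by rw [mul_inv, mul_pow, pow_succ r⁻¹]; ring
        _ ≤ _ := by gcongr
  obtain ⟨a, ha, hev⟩ := hs hnt'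
  refine ⟨a / 2, by positivity, ?_⟩
  filter_upwards [hev, self_mem_nhdsWithin] with r hr hr0
  simp only [mem_Ioi] at hr0
  have hu := PrdD_up (μ := μ) z s hr0
  have : a ≤ 2 * (r⁻¹ ^ n * μ.real (closedBall z r)) := by
    calc a ≤ _ := hr
      _ ≤ r⁻¹ ^ (n + 1) * (μ.real (closedBall z r) * (2 * r)) := by gcongr
      _ = _ := by
          rw [pow_succ]
          field_simp
  linarith

end Pool.Agent.H1.LD
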