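import Pool.Agent.H1.LD.Defs

/-!
One dimensional integrals.  line_kernel: there is c_n > 0 (c_n = ∫_ℝ (1+σ²)^{-(n+2)/2} dσ) with |∫_0^1 (a²+(s-s')²)^{-(n+2)/2} ds' - c_n a^{-(n+1)}| ≤ C δ^{-1/4} a^{-(n+3/4)} for a > 0, s in (0,1), δ = min s (1-s):
 the full line integral is c_n a^{-(n+1)} (σ = a τ); the missing part is ∫_{|σ|>δ} at most, ≤ 2∫_δ^∞ (a²+σ²)^{-(n+2)/2} dσ ≤ 2 a^{-(n+3/4)} ∫_δ^∞ σ^{-5/4} dσ = 8 a^{-(n+3/4)} δ^{-1/4} ((a²+σ²)^{(n+2)/2} ≥ a^{n+3/4} σ^{5/4}).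
 Stated with sqrt and natural powers: (sqrt (a²+σ²))⁻¹^(n+2), a⁻¹^(n+1), and a⁻¹^n * (a^{3/4})⁻¹ as a real power.
line_odd: ∫_0^1 (s-s') (a²+(s-s')²)^{-(n+2)/2} ds' = (1/n)[(a²+(1-s)²)^{-n/2} - (a²+s²)^{-n/2}] for n ≥ 1, absolute value ≤ (a²+δ²)^{-n/2} ≤ δ^{-1/4} a^{-(n-1/4)}.
-/

set_option autoImplicit false

open MeasureTheory Filter Topology Metric Set
open scoped RealInnerProductSpace ENNReal

namespace Pool.Agent.H1.LD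

open Pool.Agent.RZ

variable {d : ℕ}

private theorem PrdK_tail {g : ℝ → ℝ} (hg : Integrable g) {M : ℝ}
    (hb : ∀ σ, σ ≠ 0 → |g σ| ≤ M * |σ| ^ (-(5 / 4) : ℝ)) {s : ℝ} (hs : 0 < s) :
    |∫ σ in Ioi s, g σ| ≤ 4 * M * s ^ (-(1 / 4) : ℝ) := by
  have h1 : IntegrableOn (fun σ : ℝ => M * σ ^ (-(5 / 4) : ℝ)) (Ioi s) :=
    (integrableOn_Ioi_rpow_of_lt (by norm_num) hs).const_mul M
  calc |∫ σ in Ioi s, g σ| ≤ ∫ σ in Ioi s, |g σ| := abs_integral_le_integral_abs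
    _ ≤ ∫ σ in Ioi s, M * σ ^ (-(5 / 4) : ℝ) := by
        refine setIntegral_mono_on hg.abs.integrableOn h1 measurableSet_Ioi fun σ hσ => ?_
        have h0 : 0 < σ := lt_trans hs hσ
        have h2 := hb σ h0.ne'
        rwa [abs_of_pos h0] at h2
    _ = 4 * M * s ^ (-(1 / 4) : ℝ) := by
        rw [integral_const_mul, integral_Ioi_rpow_of_lt (by norm_num) hs]
        have e : (-(5 / 4) + 1 : ℝ) = -(1 / 4) := by norm_num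
        rw [e]
        ring

private theorem PrdK_gen {g : ℝ → ℝ} (hg : Integrable g) {M : ℝ} (hM : 0 ≤ M)
    (hb : ∀ σ, σ ≠ 0 → |g σ| ≤ M * |σ| ^ (-(5 / 4) : ℝ)) {s : ℝ} (hs : 0 < s) (hs1 : s < 1) :
    |(∫ s' in Icc (0 : ℝ) 1, g (s - s')) - ∫ σ, g σ| ≤
      8 * ((min s (1 - s)) ^ (-(1 / 4) : ℝ) * M) := by
  have e1 : (∫ s' in Icc (0 : ℝ) 1, g (s - s')) = ∫ σ in (s - 1)..s, g σ := by
    rw [integral_Icc_eq_integral_Ioc, ← intervalIntegral.integral_of_le zero_le_one,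
      intervalIntegral.integral_comp_sub_left g s, sub_zero]
  have e2 : (∫ σ, g σ) = (∫ σ in Iic (s - 1), g σ) + ((∫ σ in (s - 1)..s, g σ) +
      ∫ σ in Ioi s, g σ) := by
    rw [intervalIntegral.integral_interval_add_Ioi hg.integrableOn hg.integrableOn,
      intervalIntegral.integral_Iic_add_Ioi hg.integrableOn hg.integrableOn]
  have hm : (0 : ℝ) < min s (1 - s) := lt_min hs (by linarith)
  have t1 := PrdK_tail hg hb hs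
  have t2 := PrdK_tail (g := fun σ => g (-σ)) hg.comp_neg (M := M)
    (fun σ hσ => by simpa using hb (-σ) (neg_ne_zero.2 hσ)) (s := 1 - s) (by linarith)
  rw [integral_comp_neg_Ioi, neg_sub] at t2
  have m1 : s ^ (-(1 / 4) : ℝ) ≤ (min s (1 - s)) ^ (-(1 / 4) : ℝ) :=
    Real.rpow_le_rpow_of_nonpos hm (min_le_left _ _) (by norm_num)
  have m2 : (1 - s) ^ (-(1 / 4) : ℝ) ≤ (min s (1 - s)) ^ (-(1 / 4) : ℝ) :=
    Real.rpow_le_rpow_of_nonpos hm (min_le_right _ _) (by norm_num)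
  have m1' := mul_le_mul_of_nonneg_left m1 hM
  have m2' := mul_le_mul_of_nonneg_left m2 hM
  rw [e1, e2]
  rw [abs_le] at t1 t2 ⊢
  constructor <;> nlinarith

private theorem PrdK_int (n : ℕ) : Integrable (fun σ : ℝ => (Real.sqrt (1 + σ ^ 2))⁻¹ ^ (n + 2)) := by
  refine integrable_inv_one_add_sq.mono' (by fun_prop) (Eventually.of_forall fun σ => ?_)
  rw [Real.norm_of_nonneg (by positivity), pow_add]
  have h1 : (1 : ℝ) ≤ Real.sqrt (1 + σ ^ 2) := by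
    rw [Real.one_le_sqrt]
    nlinarith [sq_nonneg σ]
  have h2 : (Real.sqrt (1 + σ ^ 2))⁻¹ ≤ 1 := inv_le_one_of_one_le₀ h1
  have h3 : (Real.sqrt (1 + σ ^ 2))⁻¹ ^ n ≤ 1 := pow_le_one₀ (by positivity) h2
  have h4 : (Real.sqrt (1 + σ ^ 2))⁻¹ ^ 2 = (1 + σ ^ 2)⁻¹ := by
    rw [inv_pow, Real.sq_sqrt (by positivity)]
  rw [h4]
  exact mul_le_of_le_one_left (by positivity) h3

private theorem PrdK_sc {a : ℝ} (ha : 0 < a) (σ : ℝ) :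
    Real.sqrt (a ^ 2 + σ ^ 2) = a * Real.sqrt (1 + (σ / a) ^ 2) := by
  have h : a ^ 2 + σ ^ 2 = a ^ 2 * (1 + (σ / a) ^ 2) := by
    field_simp
  rw [h, Real.sqrt_mul (by positivity), Real.sqrt_sq ha.le]

private theorem PrdK_int2 (n : ℕ) {a : ℝ} (ha : 0 < a) :
    Integrable (fun σ : ℝ => (Real.sqrt (a ^ 2 + σ ^ 2))⁻¹ ^ (n + 2)) ∧
    ∫ σ : ℝ, (Real.sqrt (a ^ 2 + σ ^ 2))⁻¹ ^ (n + 2) =
      (∫ σ : ℝ, (Real.sqrt (1 + σ ^ 2))⁻¹ ^ (n + 2)) * a⁻¹ ^ (n + 1) := by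
  have e : (fun σ : ℝ => (Real.sqrt (a ^ 2 + σ ^ 2))⁻¹ ^ (n + 2)) = fun σ =>
      a⁻¹ ^ (n + 2) * (Real.sqrt (1 + (σ / a) ^ 2))⁻¹ ^ (n + 2) := by
    funext σ
    rw [PrdK_sc ha, mul_inv, mul_pow]
  rw [e]
  refine ⟨((PrdK_int n).comp_div ha.ne').const_mul _, ?_⟩
  rw [integral_const_mul, Measure.integral_comp_div
    (fun σ : ℝ => (Real.sqrt (1 + σ ^ 2))⁻¹ ^ (n + 2)) a, abs_of_pos ha, smul_eq_mul]
  rw [pow_succ a⁻¹ (n + 1)]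
  field_simp

private theorem PrdK_le {a : ℝ} (ha : 0 < a) {σ : ℝ} (hσ : σ ≠ 0) (m : ℕ) {p : ℝ} (hp : 0 ≤ p)
    (hm : (m : ℝ) = p + 5 / 4) :
    (Real.sqrt (a ^ 2 + σ ^ 2))⁻¹ ^ m ≤ a ^ (-p) * |σ| ^ (-(5 / 4) : ℝ) := by
  have hR : 0 < Real.sqrt (a ^ 2 + σ ^ 2) := Real.sqrt_pos.2 (by positivity)
  have h1 : a ≤ Real.sqrt (a ^ 2 + σ ^ 2) := Real.le_sqrt_of_sq_le (by nlinarith [sq_nonneg σ])
  have h2 : |σ| ≤ Real.sqrt (a ^ 2 + σ ^ 2) :=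
    Real.le_sqrt_of_sq_le (by rw [sq_abs]; nlinarith [sq_nonneg a])
  have e : (Real.sqrt (a ^ 2 + σ ^ 2))⁻¹ ^ m = Real.sqrt (a ^ 2 + σ ^ 2) ^ (-p) *
      Real.sqrt (a ^ 2 + σ ^ 2) ^ (-(5 / 4) : ℝ) := by
    rw [← Real.rpow_add hR, inv_pow, ← Real.rpow_natCast, hm, ← Real.rpow_neg hR.le]
    congr 1
    ring
  rw [e]
  exact mul_le_mul (Real.rpow_le_rpow_of_nonpos ha h1 (by linarith))
    (Real.rpow_le_rpow_of_nonpos (abs_pos.2 hσ) h2 (by norm_num)) (by positivity) (by positivity)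

theorem line_kernel (n : ℕ) : ∃ c C : ℝ, 0 < c ∧ 0 < C ∧ ∀ a : ℝ, 0 < a → ∀ s : ℝ, 0 < s → s < 1 →
    |(∫ s' in Icc (0 : ℝ) 1, (Real.sqrt (a ^ 2 + (s - s') ^ 2))⁻¹ ^ (n + 2)) - c * a⁻¹ ^ (n + 1)| ≤
      C * ((min s (1 - s)) ^ (-(1 / 4) : ℝ) * a ^ (-(n + 3 / 4) : ℝ)) := by
  refine ⟨∫ σ : ℝ, (Real.sqrt (1 + σ ^ 2))⁻¹ ^ (n + 2), 8, ?_, by norm_num,
    fun a ha s hs hs1 => ?_⟩
  · rw [integral_pos_iff_support_of_nonneg (fun σ => by positivity) (PrdK_int n)]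
    have : Function.support (fun σ : ℝ => (Real.sqrt (1 + σ ^ 2))⁻¹ ^ (n + 2)) = univ := by
      refine eq_univ_of_forall fun σ => ?_
      have : 0 < Real.sqrt (1 + σ ^ 2) := Real.sqrt_pos.2 (by positivity)
      rw [Function.mem_support]
      positivity
    rw [this]
    simp
  · obtain ⟨i1, i2⟩ := PrdK_int2 n ha
    have := PrdK_gen i1 (M := a ^ (-(n + 3 / 4) : ℝ)) (by positivity) (fun σ hσ => by
      rw [abs_of_nonneg (by positivity)]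
      exact PrdK_le ha hσ (n + 2) (by positivity) (by push_cast; ring)) hs hs1
    rw [i2] at this
    exact this

theorem line_odd (n : ℕ) (hn : 1 ≤ n) : ∃ C : ℝ, 0 < C ∧ ∀ a : ℝ, 0 < a → ∀ s : ℝ, 0 < s →
    s < 1 →
    |∫ s' in Icc (0 : ℝ) 1, (s - s') * (Real.sqrt (a ^ 2 + (s - s') ^ 2))⁻¹ ^ (n + 2)| ≤
      C * ((min s (1 - s)) ^ (-(1 / 4) : ℝ) * a ^ (-(n - 1 / 4) : ℝ)) := by
  refine ⟨8, by norm_num, fun a ha s hs hs1 => ?_⟩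
  have hn' : (1 : ℝ) ≤ n := by exact_mod_cast hn
  obtain ⟨m, rfl⟩ : ∃ m, n = m + 1 := ⟨n - 1, by omega⟩
  have hb : ∀ σ : ℝ, |σ * (Real.sqrt (a ^ 2 + σ ^ 2))⁻¹ ^ (m + 1 + 2)| ≤
      (Real.sqrt (a ^ 2 + σ ^ 2))⁻¹ ^ (m + 2) := by
    intro σ
    have hR : 0 < Real.sqrt (a ^ 2 + σ ^ 2) := Real.sqrt_pos.2 (by positivity)
    have h2 : |σ| ≤ Real.sqrt (a ^ 2 + σ ^ 2) :=
      Real.le_sqrt_of_sq_le (by rw [sq_abs]; nlinarith [sq_nonneg a])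
    rw [abs_mul, abs_of_nonneg (by positivity : (0 : ℝ) ≤ (Real.sqrt (a ^ 2 + σ ^ 2))⁻¹ ^ (m + 1 + 2))]
    calc _ ≤ Real.sqrt (a ^ 2 + σ ^ 2) * (Real.sqrt (a ^ 2 + σ ^ 2))⁻¹ ^ (m + 1 + 2) := by gcongr
      _ = _ := by
        rw [show m + 1 + 2 = (m + 2) + 1 by ring]
        generalize Real.sqrt (a ^ 2 + σ ^ 2) = R at hR
        rw [pow_succ R⁻¹ (m + 2)]
        field_simp
  have hi : Integrable (fun σ : ℝ => σ * (Real.sqrt (a ^ 2 + σ ^ 2))⁻¹ ^ (m + 1 + 2)) :=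
    (PrdK_int2 m ha).1.mono' (by fun_prop) (Eventually.of_forall hb)
  have h0 : ∫ σ : ℝ, σ * (Real.sqrt (a ^ 2 + σ ^ 2))⁻¹ ^ (m + 1 + 2) = 0 := by
    have h := integral_neg_eq_self (fun σ : ℝ => σ * (Real.sqrt (a ^ 2 + σ ^ 2))⁻¹ ^ (m + 1 + 2))
      volume
    simp only [neg_sq, neg_mul] at h
    rw [integral_neg] at h
    linarith
  have h1 := PrdK_gen hi (M := a ^ (-((m + 1 : ℕ) - 1 / 4) : ℝ)) (by positivity) (fun σ hσ =>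
      (hb σ).trans (PrdK_le ha hσ (m + 2) (by linarith) (by push_cast; ring))) hs hs1
  rw [h0, sub_zero] at h1
  exact h1

end Pool.Agent.H1.LD
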