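import Pool.Agent.H1.LD.PrdA
import Pool.Agent.H1.LD.PrdK

/-!
prI_energy.  x = app (x̄,s), y = app (ȳ,s'), a² = ‖x̄-ȳ‖²+ε² > 0.  kr (n+1) ε (x-y) = (sqrt(a²+(s-s')²))⁻¹^(n+2) (app_norm).  ⟪e,x-y⟫ = ⟪e',x̄-ȳ⟫ + c(s-s') (app_inner, ‖e'‖ ≤ 1, |c| ≤ 1).  Fubini (bounded integrand for ε > 0):
 ∫ ⟪e,x-y⟫ kr dprI(y) = ∫ [⟪e',x̄-ȳ⟫ ∫_0^1 (..)^{-(n+2)/2} ds' + c ∫_0^1 (s-s')(..) ds'] dμ(ȳ) = c_n ∫⟪e',x̄-ȳ⟫ kr n ε (x̄-ȳ) dμ + R,  a⁻¹^(n+1) = kr n ε (x̄-ȳ),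
 |R| ≤ C δ^{-1/4} ∫ (‖x̄-ȳ‖ a^{-(n+3/4)} + a^{-(n-1/4)}) dμ(ȳ) ≤ 2C δ^{-1/4} ∫ ‖x̄-ȳ‖^{-(n-1/4)} dμ(ȳ) ≤ C' δ^{-1/4}, uniformly in x̄: growth n and finite measure (∫_{|x̄-ȳ|≤1} ‖·‖^{-(n-1/4)} ≤ ∑_j 2^{(j+1)(n-1/4)} C₀ 2^{-jn}; the rest ≤ μ(univ)).
 Square, integrate over s in (0,1) (∫ δ^{-1/2} ds < ∞) and x̄: ≤ 2c_n² B + 2C'² μ(univ) ∫δ^{-1/2}.
-/

set_option autoImplicit false

open MeasureTheory Filter Topology Metric Set
open scoped RealInnerProductSpace ENNReal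

namespace Pool.Agent.H1.LD

open Pool.Agent.RZ

variable {d : ℕ}

private theorem PrdE_root_pos {ε : ℝ} (hε : 0 < ε) (v : X d) : 0 < Real.sqrt (‖v‖ ^ 2 + ε ^ 2) :=
  Real.sqrt_pos.mpr (by positivity)

private theorem PrdE_le_root {ε : ℝ} (v : X d) : ‖v‖ ≤ Real.sqrt (‖v‖ ^ 2 + ε ^ 2) :=
  Real.le_sqrt_of_sq_le (by nlinarith [sq_nonneg ε])

private theorem PrdE_eps_le {ε : ℝ} (v : X d) : ε ≤ Real.sqrt (‖v‖ ^ 2 + ε ^ 2) :=
  Real.le_sqrt_of_sq_le (by nlinarith [sq_nonneg ‖v‖])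

private theorem PrdE_pot_cont {ε : ℝ} (hε : 0 < ε) (p : ℝ) (x : X d) :
    Continuous (fun y : X d => (Real.sqrt (‖x - y‖ ^ 2 + ε ^ 2)) ^ p) := by
  refine Continuous.rpow_const ?_ fun y => Or.inl (PrdE_root_pos hε _).ne'
  exact Real.continuous_sqrt.comp
    (((continuous_const.sub continuous_id).norm.pow 2).add continuous_const)

private theorem PrdE_pot_bd {ε : ℝ} (hε : 0 < ε) {p : ℝ} (hp : p ≤ 0) (x y : X d) :
    (Real.sqrt (‖x - y‖ ^ 2 + ε ^ 2)) ^ p ≤ ε ^ p :=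
  Real.rpow_le_rpow_of_nonpos hε (PrdE_eps_le _) hp

private theorem PrdE_pot_int {μ : Measure (X d)} [IsFiniteMeasure μ] {ε : ℝ} (hε : 0 < ε)
    {p : ℝ} (hp : p ≤ 0) (x : X d) :
    Integrable (fun y : X d => (Real.sqrt (‖x - y‖ ^ 2 + ε ^ 2)) ^ p) μ :=
  Integrable.of_bound (PrdE_pot_cont hε p x).aestronglyMeasurable (ε ^ p)
    (ae_of_all _ fun y => by
      rw [Real.norm_of_nonneg (Real.rpow_nonneg (Real.sqrt_nonneg _) _)]
      exact PrdE_pot_bd hε hp x y)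

/-- the potential of order `n - 1/4` is bounded -/
private theorem PrdE_pot {n : ℕ} (hn : 1 ≤ n) {μ : Measure (X d)} [IsFiniteMeasure μ] {C₀ : ℝ}
    (hC₀ : 0 ≤ C₀) (hg : Gr n C₀ μ) : ∃ M : ℝ, 0 ≤ M ∧ ∀ ε : ℝ, 0 < ε → ∀ x : X d,
      ∫ y, (Real.sqrt (‖x - y‖ ^ 2 + ε ^ 2)) ^ (-(n - 1 / 4) : ℝ) ∂μ ≤ M := by
  have hn' : (1 : ℝ) ≤ n := by exact_mod_cast hn
  have hp : (-(n - 1 / 4) : ℝ) ≤ 0 := by linarith
  set K : ℝ := C₀ * (16 : ℝ) ^ ((n : ℝ) - 1 / 4) with hK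
  have hK0 : 0 ≤ K := by positivity
  refine ⟨2 * K + μ.real univ, by positivity, fun ε hε x => ?_⟩
  have hnn : ∀ y : X d, 0 ≤ (Real.sqrt (‖x - y‖ ^ 2 + ε ^ 2)) ^ (-(n - 1 / 4) : ℝ) := fun y =>
    Real.rpow_nonneg (Real.sqrt_nonneg _) _
  rw [integral_eq_lintegral_of_nonneg_ae (ae_of_all _ hnn)
    (PrdE_pot_cont hε _ x).aestronglyMeasurable]
  refine ENNReal.toReal_le_of_le_ofReal (by positivity) ?_
  set F : X d → ℝ≥0∞ := fun y => if Real.sqrt (‖x - y‖ ^ 2 + ε ^ 2) ≤ 1 then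
    ENNReal.ofReal ((Real.sqrt (‖x - y‖ ^ 2 + ε ^ 2)) ^ (-(n - 1 / 4) : ℝ)) else 0 with hF
  have hgeom : ∫⁻ y in (univ : Set (X d)), F y ∂μ ≤ ENNReal.ofReal (2 * K) := by
    refine Gr1b_geom hg MeasurableSet.univ F x (fun j => (1 / 16 : ℝ) ^ j)
      (fun j => ((1 / 16 : ℝ) ^ (j + 1)) ^ (-(n - 1 / 4) : ℝ)) hK0 (fun j => by positivity)
      (fun j => by positivity) ?_ ?_
    · intro y _ hy
      have hle : Real.sqrt (‖x - y‖ ^ 2 + ε ^ 2) ≤ 1 := by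
        by_contra hcon
        apply hy
        rw [hF]
        simp only
        rw [if_neg hcon]
      obtain ⟨j, hj1, hj2⟩ := exists_nat_pow_near_of_lt_one
        (x := Real.sqrt (‖x - y‖ ^ 2 + ε ^ 2)) (y := (1 / 16 : ℝ))
        (PrdE_root_pos hε _) hle (by norm_num) (by norm_num)
      refine ⟨j, ?_, ?_⟩
      · rw [norm_sub_rev]
        exact (PrdE_le_root (ε := ε) (x - y)).trans hj2
      · rw [hF]
        simp only
        rw [if_pos hle]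
        refine ENNReal.ofReal_le_ofReal ?_
        exact Real.rpow_le_rpow_of_nonpos (by positivity) hj1.le hp
    · intro j
      have h16 : (0 : ℝ) < 16 := by norm_num
      have e1 : ((1 / 16 : ℝ) ^ (j + 1)) ^ (-(n - 1 / 4) : ℝ) =
          (16 : ℝ) ^ (((j : ℝ) + 1) * ((n : ℝ) - 1 / 4)) := by
        rw [one_div, inv_pow, Real.inv_rpow (by positivity), Real.rpow_neg (by positivity),
          inv_inv, ← Real.rpow_natCast, ← Real.rpow_mul h16.le]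
        push_cast
        ring_nf
      have e2 : ((1 / 16 : ℝ) ^ j) ^ n = (16 : ℝ) ^ (-((j : ℝ) * n)) := by
        rw [one_div, inv_pow, inv_pow, ← pow_mul, Real.rpow_neg h16.le, ← Real.rpow_natCast]
        push_cast
        rfl
      have e3 : (1 / 2 : ℝ) ^ j = (16 : ℝ) ^ (-((j : ℝ) / 4)) := by
        have h2 : (16 : ℝ) ^ ((1 : ℝ) / 4) = 2 := by
          rw [show (16 : ℝ) = 2 ^ (4 : ℝ) by norm_num, ← Real.rpow_mul (by norm_num)]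
          norm_num
        rw [Real.rpow_neg h16.le, show (j : ℝ) / 4 = (1 / 4) * j by ring,
          Real.rpow_mul h16.le, h2, Real.rpow_natCast, one_div, inv_pow]
      rw [e1, e2, e3, hK]
      refine le_of_eq ?_
      rw [show (16 : ℝ) ^ (((j : ℝ) + 1) * ((n : ℝ) - 1 / 4)) * (C₀ * (16 : ℝ) ^ (-((j : ℝ) * n)))
        = C₀ * ((16 : ℝ) ^ (((j : ℝ) + 1) * ((n : ℝ) - 1 / 4)) * (16 : ℝ) ^ (-((j : ℝ) * n)))
        by ring, mul_assoc, ← Real.rpow_add h16, ← Real.rpow_add h16]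
      congr 2
      ring
  rw [Measure.restrict_univ] at hgeom
  calc ∫⁻ y, ENNReal.ofReal ((Real.sqrt (‖x - y‖ ^ 2 + ε ^ 2)) ^ (-(n - 1 / 4) : ℝ)) ∂μ
      ≤ ∫⁻ y, (F y + 1) ∂μ := by
        refine lintegral_mono fun y => ?_
        by_cases hle : Real.sqrt (‖x - y‖ ^ 2 + ε ^ 2) ≤ 1
        · rw [hF]
          simp only
          rw [if_pos hle]
          exact le_self_add
        · have h1 : (Real.sqrt (‖x - y‖ ^ 2 + ε ^ 2)) ^ (-(n - 1 / 4) : ℝ) ≤ 1 :=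
            Real.rpow_le_one_of_one_le_of_nonpos (not_le.mp hle).le hp
          calc ENNReal.ofReal ((Real.sqrt (‖x - y‖ ^ 2 + ε ^ 2)) ^ (-(n - 1 / 4) : ℝ))
              ≤ ENNReal.ofReal 1 := ENNReal.ofReal_le_ofReal h1
            _ = 1 := ENNReal.ofReal_one
            _ ≤ F y + 1 := le_add_self
    _ = (∫⁻ y, F y ∂μ) + μ univ := by
        rw [lintegral_add_right _ measurable_const, lintegral_one]
    _ ≤ ENNReal.ofReal (2 * K) + ENNReal.ofReal (μ.real univ) := by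
        refine add_le_add hgeom (le_of_eq ?_)
        rw [ofReal_measureReal]
    _ = ENNReal.ofReal (2 * K + μ.real univ) := by
        rw [ENNReal.ofReal_add (by positivity) (by positivity)]

private theorem PrdE_emb : MeasurableEmbedding (app : X d × ℝ → X (d + 1)) := by
  refine app_continuous.measurableEmbedding fun p q hpq => ?_
  have h := app_norm p q
  rw [hpq, sub_self, norm_zero] at h
  have h1 : ‖p.1 - q.1‖ ^ 2 = 0 := by nlinarith [sq_nonneg ‖p.1 - q.1‖, sq_nonneg (p.2 - q.2)]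
  have h2 : (p.2 - q.2) ^ 2 = 0 := by nlinarith [sq_nonneg ‖p.1 - q.1‖, sq_nonneg (p.2 - q.2)]
  have h3 : p.1 = q.1 := sub_eq_zero.mp (norm_eq_zero.mp (pow_eq_zero_iff two_ne_zero |>.mp h1))
  have h4 : p.2 = q.2 := sub_eq_zero.mp (pow_eq_zero_iff two_ne_zero |>.mp h2)
  exact Prod.ext h3 h4

private theorem PrdE_map (μ : Measure (X d)) (f : X (d + 1) → ℝ) :
    ∫ x, f x ∂(prI μ) = ∫ p, f (app p) ∂(μ.prod (volume.restrict (Icc (0 : ℝ) 1))) := by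
  unfold prI
  exact PrdE_emb.integral_map f

private theorem PrdE_kcont {m : ℕ} (n : ℕ) {ε : ℝ} (hε : 0 < ε) (e : X m) :
    Continuous (fun z : X m => ⟪e, z⟫ * kr n ε z) :=
  (continuous_const.inner continuous_id).mul (kr_continuous n hε)

private theorem PrdE_kbd {m : ℕ} (n : ℕ) {ε : ℝ} (hε : 0 < ε) {e : X m} (he : ‖e‖ ≤ 1) (z : X m) :
    ‖⟪e, z⟫ * kr n ε z‖ ≤ ε⁻¹ ^ n := by
  rw [norm_mul, Real.norm_eq_abs, Real.norm_of_nonneg (kr_nonneg n ε z)]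
  have h1 : |⟪e, z⟫| ≤ ‖z‖ := (abs_real_inner_le_norm e z).trans
    (mul_le_of_le_one_left (norm_nonneg _) he)
  exact (mul_le_mul_of_nonneg_right h1 (kr_nonneg n ε z)).trans (norm_mul_kr_le_eps n hε z)

/-- the inner integral -/
private theorem PrdE_inner {n : ℕ} (hn : 1 ≤ n) {μ : Measure (X d)} [IsFiniteMeasure μ] {C₀ : ℝ}
    (hC₀ : 0 ≤ C₀) (hg : Gr n C₀ μ) : ∃ c M : ℝ, 0 < c ∧ 0 ≤ M ∧ ∀ ε : ℝ, 0 < ε →
      ∀ e : X (d + 1), ‖e‖ ≤ 1 → ∃ e' : X d, ‖e'‖ ≤ 1 ∧ ∀ p : X d × ℝ, 0 < p.2 → p.2 < 1 →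
        |(∫ y, ⟪e, app p - y⟫ * kr (n + 1) ε (app p - y) ∂(prI μ)) -
          c * ∫ y, ⟪e', p.1 - y⟫ * kr n ε (p.1 - y) ∂μ| ≤
            M * (min p.2 (1 - p.2)) ^ (-(1 / 4) : ℝ) := by
  obtain ⟨c, C1, hc, hC1, hker⟩ := line_kernel n
  obtain ⟨C2, hC2, hodd⟩ := line_odd n hn
  obtain ⟨M, hM, hpot⟩ := PrdE_pot hn hC₀ hg
  have hn' : (1 : ℝ) ≤ n := by exact_mod_cast hn
  refine ⟨c, (C1 + C2) * M, hc, by positivity, fun ε hε e he => ?_⟩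
  obtain ⟨e', b, hnorm, hinner⟩ := app_inner e
  have he1 : ‖e‖ ^ 2 ≤ 1 := pow_le_one₀ (norm_nonneg _) he
  have he' : ‖e'‖ ≤ 1 := by
    by_contra hcon
    nlinarith [sq_nonneg b, not_le.mp hcon]
  have hb : |b| ≤ 1 := by
    rw [← sq_le_one_iff_abs_le_one]
    nlinarith [sq_nonneg ‖e'‖]
  refine ⟨e', he', fun p hp0 hp1 => ?_⟩
  set δ := min p.2 (1 - p.2) with hδ
  have hδ0 : 0 < δ := lt_min hp0 (by linarith)
  set lam : Measure ℝ := volume.restrict (Icc (0 : ℝ) 1) with hlam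
  -- the integrand on the product
  have hcont : Continuous (fun q : X d × ℝ => ⟪e, app p - app q⟫ *
      kr (n + 1) ε (app p - app q)) :=
    (PrdE_kcont (n + 1) hε e).comp (continuous_const.sub app_continuous)
  have hint : Integrable (fun q : X d × ℝ => ⟪e, app p - app q⟫ *
      kr (n + 1) ε (app p - app q)) (μ.prod lam) :=
    Integrable.of_bound hcont.aestronglyMeasurable (ε⁻¹ ^ (n + 1))
      (ae_of_all _ fun q => PrdE_kbd (n + 1) hε he _)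
  rw [PrdE_map, integral_prod _ hint]
  have hint2 : Integrable (fun y : X d => ∫ s', ⟪e, app p - app (y, s')⟫ *
      kr (n + 1) ε (app p - app (y, s')) ∂lam) μ := hint.integral_prod_left
  have hkint : Integrable (fun y : X d => ⟪e', p.1 - y⟫ * kr n ε (p.1 - y)) μ :=
    Integrable.of_bound ((PrdE_kcont n hε e').comp
      (continuous_const.sub continuous_id)).aestronglyMeasurable (ε⁻¹ ^ n)
      (ae_of_all _ fun y => PrdE_kbd n hε he' _)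
  rw [← integral_const_mul, ← integral_sub hint2 (hkint.const_mul c), ← Real.norm_eq_abs]
  have hp34 : (-(n - 1 / 4) : ℝ) ≤ 0 := by linarith
  have hbound : ∀ y : X d, ‖(∫ s', ⟪e, app p - app (y, s')⟫ *
      kr (n + 1) ε (app p - app (y, s')) ∂lam) - c * (⟪e', p.1 - y⟫ * kr n ε (p.1 - y))‖ ≤
      ((C1 + C2) * δ ^ (-(1 / 4) : ℝ)) *
        (Real.sqrt (‖p.1 - y‖ ^ 2 + ε ^ 2)) ^ (-(n - 1 / 4) : ℝ) := by
    intro y
    set a := Real.sqrt (‖p.1 - y‖ ^ 2 + ε ^ 2) with ha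
    have ha0 : 0 < a := PrdE_root_pos hε _
    have ha2 : a ^ 2 = ‖p.1 - y‖ ^ 2 + ε ^ 2 := Real.sq_sqrt (by positivity)
    have hkr : ∀ s' : ℝ, ⟪e, app p - app (y, s')⟫ * kr (n + 1) ε (app p - app (y, s')) =
        ⟪e', p.1 - y⟫ * (Real.sqrt (a ^ 2 + (p.2 - s') ^ 2))⁻¹ ^ (n + 2) +
          b * ((p.2 - s') * (Real.sqrt (a ^ 2 + (p.2 - s') ^ 2))⁻¹ ^ (n + 2)) := by
      intro s'
      rw [hinner p (y, s'), K1_kr, app_norm p (y, s')]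
      simp only
      rw [ha2, show ‖p.1 - y‖ ^ 2 + (p.2 - s') ^ 2 + ε ^ 2 =
        ‖p.1 - y‖ ^ 2 + ε ^ 2 + (p.2 - s') ^ 2 by ring]
      ring
    have hr0 : ∀ s' : ℝ, Real.sqrt (a ^ 2 + (p.2 - s') ^ 2) ≠ 0 := fun s' =>
      (Real.sqrt_pos.mpr (by positivity)).ne'
    have hc1 : Continuous (fun s' : ℝ => (Real.sqrt (a ^ 2 + (p.2 - s') ^ 2))⁻¹ ^ (n + 2)) := by
      refine Continuous.pow (Continuous.inv₀ ?_ hr0) _
      fun_prop
    have hc2 : Continuous (fun s' : ℝ =>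
        (p.2 - s') * (Real.sqrt (a ^ 2 + (p.2 - s') ^ 2))⁻¹ ^ (n + 2)) :=
      (continuous_const.sub continuous_id).mul hc1
    have hi1 : Integrable (fun s' : ℝ => (Real.sqrt (a ^ 2 + (p.2 - s') ^ 2))⁻¹ ^ (n + 2)) lam :=
      hc1.continuousOn.integrableOn_compact isCompact_Icc
    have hi2 : Integrable (fun s' : ℝ =>
        (p.2 - s') * (Real.sqrt (a ^ 2 + (p.2 - s') ^ 2))⁻¹ ^ (n + 2)) lam :=
      hc2.continuousOn.integrableOn_compact isCompact_Icc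
    have hsum : (∫ s', ⟪e, app p - app (y, s')⟫ * kr (n + 1) ε (app p - app (y, s')) ∂lam) =
        ⟪e', p.1 - y⟫ * (∫ s', (Real.sqrt (a ^ 2 + (p.2 - s') ^ 2))⁻¹ ^ (n + 2) ∂lam) +
          b * ∫ s', (p.2 - s') * (Real.sqrt (a ^ 2 + (p.2 - s') ^ 2))⁻¹ ^ (n + 2) ∂lam := by
      rw [← integral_const_mul, ← integral_const_mul, ← integral_add (hi1.const_mul _)
        (hi2.const_mul _)]
      exact integral_congr_ae (ae_of_all _ fun s' => hkr s')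
    have hA := hker a ha0 p.2 hp0 hp1
    have hB := hodd a ha0 p.2 hp0 hp1
    rw [hsum, K1_kr, ← ha, Real.norm_eq_abs]
    have hsplit : ⟪e', p.1 - y⟫ * (∫ s', (Real.sqrt (a ^ 2 + (p.2 - s') ^ 2))⁻¹ ^ (n + 2) ∂lam) +
          b * (∫ s', (p.2 - s') * (Real.sqrt (a ^ 2 + (p.2 - s') ^ 2))⁻¹ ^ (n + 2) ∂lam) -
          c * (⟪e', p.1 - y⟫ * a⁻¹ ^ (n + 1)) =
        ⟪e', p.1 - y⟫ * ((∫ s', (Real.sqrt (a ^ 2 + (p.2 - s') ^ 2))⁻¹ ^ (n + 2) ∂lam) -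
          c * a⁻¹ ^ (n + 1)) +
        b * (∫ s', (p.2 - s') * (Real.sqrt (a ^ 2 + (p.2 - s') ^ 2))⁻¹ ^ (n + 2) ∂lam) := by
      ring
    rw [hsplit]
    have hin : |⟪e', p.1 - y⟫| ≤ a := ((abs_real_inner_le_norm e' _).trans
      (mul_le_of_le_one_left (norm_nonneg _) he')).trans (PrdE_le_root _)
    have hpa : a * a ^ (-(n + 3 / 4) : ℝ) = a ^ (-(n - 1 / 4) : ℝ) := by
      nth_rewrite 1 [← Real.rpow_one a]
      rw [← Real.rpow_add ha0]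
      congr 1
      ring
    refine (abs_add_le _ _).trans ?_
    rw [abs_mul, abs_mul]
    have t1 : |⟪e', p.1 - y⟫| * |(∫ s', (Real.sqrt (a ^ 2 + (p.2 - s') ^ 2))⁻¹ ^ (n + 2) ∂lam) -
          c * a⁻¹ ^ (n + 1)| ≤ a * (C1 * (δ ^ (-(1 / 4) : ℝ) * a ^ (-(n + 3 / 4) : ℝ))) :=
      mul_le_mul hin hA (abs_nonneg _) ha0.le
    have t2 : |b| * |∫ s', (p.2 - s') * (Real.sqrt (a ^ 2 + (p.2 - s') ^ 2))⁻¹ ^ (n + 2) ∂lam| ≤
        1 * (C2 * (δ ^ (-(1 / 4) : ℝ) * a ^ (-(n - 1 / 4) : ℝ))) :=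
      mul_le_mul hb hB (abs_nonneg _) zero_le_one
    refine (add_le_add t1 t2).trans (le_of_eq ?_)
    rw [show a * (C1 * (δ ^ (-(1 / 4) : ℝ) * a ^ (-(n + 3 / 4) : ℝ))) =
      C1 * δ ^ (-(1 / 4) : ℝ) * (a * a ^ (-(n + 3 / 4) : ℝ)) by ring, hpa]
    ring
  refine (norm_integral_le_of_norm_le ((PrdE_pot_int hε hp34 p.1).const_mul _)
    (ae_of_all _ hbound)).trans ?_
  rw [integral_const_mul]
  calc (C1 + C2) * δ ^ (-(1 / 4) : ℝ) *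
        ∫ y, (Real.sqrt (‖p.1 - y‖ ^ 2 + ε ^ 2)) ^ (-(n - 1 / 4) : ℝ) ∂μ
      ≤ (C1 + C2) * δ ^ (-(1 / 4) : ℝ) * M :=
        mul_le_mul_of_nonneg_left (hpot ε hε p.1) (by positivity)
    _ = (C1 + C2) * M * δ ^ (-(1 / 4) : ℝ) := by ring

private theorem PrdE_wint : Integrable (fun s : ℝ => s ^ (-(1 / 2) : ℝ) + (1 - s) ^ (-(1 / 2) : ℝ))
    (volume.restrict (Icc (0 : ℝ) 1)) := by
  have h1 : IntervalIntegrable (fun s : ℝ => s ^ (-(1 / 2) : ℝ)) volume 0 1 :=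
    intervalIntegral.intervalIntegrable_rpow' (by norm_num)
  have h2 : IntervalIntegrable (fun s : ℝ => (1 - s) ^ (-(1 / 2) : ℝ)) volume 0 1 := by
    have h3 := (h1.comp_sub_left 1).symm
    simpa using h3
  have h4 := h1.add h2
  rw [intervalIntegrable_iff_integrableOn_Icc_of_le zero_le_one] at h4
  exact h4

private theorem PrdE_min {s : ℝ} (h0 : 0 < s) (h1 : s < 1) :
    ((min s (1 - s)) ^ (-(1 / 4) : ℝ)) ^ 2 ≤ s ^ (-(1 / 2) : ℝ) + (1 - s) ^ (-(1 / 2) : ℝ) := by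
  have h2 : 0 < 1 - s := by linarith
  have key : ∀ t : ℝ, 0 < t → (t ^ (-(1 / 4) : ℝ)) ^ 2 = t ^ (-(1 / 2) : ℝ) := by
    intro t ht
    rw [← Real.rpow_natCast, ← Real.rpow_mul ht.le]
    norm_num
  have p1 : 0 ≤ s ^ (-(1 / 2) : ℝ) := Real.rpow_nonneg h0.le _
  have p2 : 0 ≤ (1 - s) ^ (-(1 / 2) : ℝ) := Real.rpow_nonneg h2.le _
  rcases le_total s (1 - s) with h | h
  · rw [min_eq_left h, key s h0]
    linarith
  · rw [min_eq_right h, key (1 - s) h2]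
    linarith

theorem prI_energy {n : ℕ} (hn : 1 ≤ n) {μ : Measure (X d)} [IsFiniteMeasure μ] {C₀ : ℝ}
    (hC₀ : 0 ≤ C₀) (hg : Gr n C₀ μ) (hE : En n μ) : En (n + 1) (prI μ) := by
  obtain ⟨B, hB⟩ := hE
  obtain ⟨c, M, hc, hM, hin⟩ := PrdE_inner hn hC₀ hg
  set lam : Measure ℝ := volume.restrict (Icc (0 : ℝ) 1) with hlam
  have hfin : IsFiniteMeasure lam := by
    rw [hlam]
    infer_instance
  refine ⟨2 * c ^ 2 * (lam.real univ * B) +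
    2 * M ^ 2 * (μ.real univ * ∫ s, (s ^ (-(1 / 2) : ℝ) + (1 - s) ^ (-(1 / 2) : ℝ)) ∂lam),
    fun ε hε e he => ?_⟩
  obtain ⟨e', he', hb⟩ := hin ε hε e he
  rw [PrdE_map]
  set G : X d → ℝ := fun x => ∫ y, ⟪e', x - y⟫ * kr n ε (x - y) ∂μ with hG
  have hGmeas : StronglyMeasurable G := by
    have h1 : Continuous (fun p : X d × X d => ⟪e', p.1 - p.2⟫ * kr n ε (p.1 - p.2)) :=
      (PrdE_kcont n hε e').comp (continuous_fst.sub continuous_snd)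
    exact h1.stronglyMeasurable.integral_prod_right'
  have hGbd : ∀ x, |G x| ≤ ε⁻¹ ^ n * μ.real univ := by
    intro x
    have h1 := norm_integral_le_of_norm_le_const (μ := μ)
      (ae_of_all _ fun y => PrdE_kbd n hε he' (x - y))
    rw [Real.norm_eq_abs] at h1
    exact h1
  have hG2 : Integrable (fun x => G x ^ 2) μ := by
    refine Integrable.of_bound (hGmeas.pow 2).aestronglyMeasurable
      ((ε⁻¹ ^ n * μ.real univ) ^ 2) (ae_of_all _ fun x => ?_)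
    rw [Real.norm_eq_abs, abs_pow]
    exact pow_le_pow_left₀ (abs_nonneg _) (hGbd x) 2
  have hg1 : Integrable (fun p : X d × ℝ => 2 * c ^ 2 * G p.1 ^ 2) (μ.prod lam) :=
    (hG2.comp_fst lam).const_mul _
  have hg2 : Integrable (fun p : X d × ℝ => 2 * M ^ 2 *
      (p.2 ^ (-(1 / 2) : ℝ) + (1 - p.2) ^ (-(1 / 2) : ℝ))) (μ.prod lam) :=
    (PrdE_wint.comp_snd μ).const_mul _
  have hae : ∀ᵐ p ∂(μ.prod lam), 0 < p.2 ∧ p.2 < 1 := by
    have h1 : ∀ᵐ s ∂lam, 0 < s ∧ s < 1 := by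
      rw [hlam, Measure.restrict_congr_set Ioo_ae_eq_Icc.symm]
      exact (ae_restrict_mem measurableSet_Ioo).mono fun s hs => hs
    exact Measure.quasiMeasurePreserving_snd.ae h1
  have hle : ∫ p, (∫ y, ⟪e, app p - y⟫ * kr (n + 1) ε (app p - y) ∂(prI μ)) ^ 2 ∂(μ.prod lam) ≤
      ∫ p, (2 * c ^ 2 * G p.1 ^ 2 + 2 * M ^ 2 *
        (p.2 ^ (-(1 / 2) : ℝ) + (1 - p.2) ^ (-(1 / 2) : ℝ))) ∂(μ.prod lam) := by
    refine integral_mono_of_nonneg (ae_of_all _ fun p => sq_nonneg _) (hg1.add hg2) ?_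
    filter_upwards [hae] with p hp
    have h1 := hb p hp.1 hp.2
    have h2 := PrdE_min hp.1 hp.2
    have h3 : 0 ≤ (min p.2 (1 - p.2)) ^ (-(1 / 4) : ℝ) :=
      Real.rpow_nonneg (le_min hp.1.le (by linarith [hp.2])) _
    set J := ∫ y, ⟪e, app p - y⟫ * kr (n + 1) ε (app p - y) ∂(prI μ) with hJ
    set w := (min p.2 (1 - p.2)) ^ (-(1 / 4) : ℝ) with hw
    have h4 : |J - c * G p.1| ≤ M * w := h1
    have h5 : (J - c * G p.1) ^ 2 ≤ (M * w) ^ 2 := by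
      rw [← sq_abs (J - c * G p.1)]
      exact pow_le_pow_left₀ (abs_nonneg _) h4 2
    have h6 : J ^ 2 ≤ 2 * (c * G p.1) ^ 2 + 2 * (J - c * G p.1) ^ 2 := by
      nlinarith [sq_nonneg (J - 2 * (c * G p.1))]
    calc J ^ 2 ≤ 2 * (c * G p.1) ^ 2 + 2 * (J - c * G p.1) ^ 2 := h6
      _ ≤ 2 * (c * G p.1) ^ 2 + 2 * (M * w) ^ 2 := by linarith
      _ = 2 * c ^ 2 * G p.1 ^ 2 + 2 * M ^ 2 * w ^ 2 := by ring
      _ ≤ 2 * c ^ 2 * G p.1 ^ 2 + 2 * M ^ 2 *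
          (p.2 ^ (-(1 / 2) : ℝ) + (1 - p.2) ^ (-(1 / 2) : ℝ)) := by
          have := mul_le_mul_of_nonneg_left h2 (show 0 ≤ 2 * M ^ 2 by positivity)
          linarith
  refine hle.trans ?_
  rw [integral_add hg1 hg2, integral_const_mul, integral_const_mul,
    integral_fun_fst (fun x => G x ^ 2),
    integral_fun_snd (fun s : ℝ => s ^ (-(1 / 2) : ℝ) + (1 - s) ^ (-(1 / 2) : ℝ))]
  simp only [smul_eq_mul]
  have hBe : ∫ x, G x ^ 2 ∂μ ≤ B := hB ε hε e' he'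
  have h7 : lam.real univ * ∫ x, G x ^ 2 ∂μ ≤ lam.real univ * B :=
    mul_le_mul_of_nonneg_left hBe measureReal_nonneg
  have h8 := mul_le_mul_of_nonneg_left h7 (show 0 ≤ 2 * c ^ 2 by positivity)
  linarith

end Pool.Agent.H1.LD
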