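import Pool.Agent.H1.LD.CoT
import Pool.Agent.H1.LD.Pad
import Pool.Agent.H1.LD.Fin1

/-!
Assembly.
-/

set_option autoImplicit false

open MeasureTheory Filter Topology Metric Set
open scoped RealInnerProductSpace ENNReal

namespace Pool.Agent.H1.LD

open Pool.Agent.RZ

variable {d : ℕ}

theorem dich_codim {n : ℕ} (hn : 1 ≤ n) (hd : d ≤ n + 3) {μ : Measure (X d)}
    [IsFiniteMeasure μ] {A : ℝ} (hA : μ (closedBall 0 A)ᶜ = 0) {C₀ : ℝ} (hC₀ : 0 ≤ C₀)
    (hg : Gr n C₀ μ) (hE : En n μ) : Dich n μ := by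
  have hpm : Measurable (pad (n + 3) : X d → X (n + 3)) := (pad_continuous (n + 3)).measurable
  have hfin : IsFiniteMeasure (μ.map (pad (n + 3))) := by
    refine ⟨?_⟩
    rw [Measure.map_apply hpm MeasurableSet.univ, preimage_univ]
    exact measure_lt_top _ _
  have hA' : (μ.map (pad (n + 3))) (closedBall 0 A)ᶜ = 0 := by
    rw [Measure.map_apply hpm measurableSet_closedBall.compl]
    refine measure_mono_null ?_ hA
    intro x hx
    simp only [mem_preimage, mem_compl_iff, mem_closedBall, dist_zero_right] at hx ⊢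
    rwa [pad_norm hd] at hx
  exact pad_dich hd (dich_co hn rfl hA' (by positivity) (pad_growth hd hC₀ hg) (pad_energy hd hE))

theorem main_all {n : ℕ} (hn : 1 ≤ n) (hnd : n < d) (h3 : n ≤ 3 ∨ d ≤ n + 3) {E : Set (X d)}
    (hE : IsCompact E) (hfin : Measure.hausdorffMeasure (n : ℝ) E < ⊤) {B : NNReal}
    (hb : Bdd n ((Measure.hausdorffMeasure (n : ℝ)).restrict E) B) :
    ∃ g : ℕ → X n → X d, (∀ i, ∃ K, LipschitzWith K (g i)) ∧
      Measure.hausdorffMeasure (n : ℝ) (E \ ⋃ i, Set.range (g i)) = 0 := by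
  obtain ⟨g, hg1, hg2⟩ := Pool.Agent.RZ.main hn hnd.le hE hfin hb
  refine ⟨g, hg1, ?_⟩
  have hlow := low_of_dich hn hE hfin (fun G hG hGE C hC hgr => by
    have hGfin : Measure.hausdorffMeasure (n : ℝ) G < ⊤ := lt_of_le_of_lt (measure_mono hGE) hfin
    have hfm : IsFiniteMeasure ((Measure.hausdorffMeasure (n : ℝ) : Measure (X d)).restrict G) :=
      ⟨by rwa [Measure.restrict_apply_univ]⟩
    have hb' : Bdd n ((Measure.hausdorffMeasure (n : ℝ)).restrict G) B := by
      have h1 := hb.restrict hG.measurableSet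
      rwa [Measure.restrict_restrict hG.measurableSet, inter_eq_self_of_subset_left hGE] at h1
    have hnull : ((Measure.hausdorffMeasure (n : ℝ) : Measure (X d)).restrict G) Gᶜ = 0 := by
      rw [Measure.restrict_apply hG.measurableSet.compl, compl_inter_self, measure_empty]
    have hen := En_of_Bdd hn hG hnull hb' (by linarith) hgr
    rcases h3 with h3 | h3
    · exact dich_low hn h3 hnd (by linarith) hgr hen
    · obtain ⟨A, hA⟩ := hG.isBounded.subset_closedBall (0 : X d)
      exact dich_codim hn h3 (measure_mono_null (compl_subset_compl.2 hA) hnull)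
        (by linarith) hgr hen)
  refine measure_mono_null ?_ (measure_union_null hlow hg2)
  rintro x ⟨hx, hxg⟩
  by_cases hm : 0 < liminf (fun r : ℝ =>
      Measure.hausdorffMeasure (n : ℝ) (E ∩ closedBall x r) / ENNReal.ofReal (r ^ n)) (𝓝[>] 0)
  · exact Or.inr ⟨⟨hx, hm⟩, hxg⟩
  · exact Or.inl ⟨hx, fun h => hm h.2⟩

end Pool.Agent.H1.LD
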