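import Pool.Agent.H1.LD.Gau1

/-!
Second and third moments of the Gaussian on X d.
ga_second: by bilinearity and the orthonormal basis it is enough to treat coordinates: for i ≠ j the reflection of coordinate i is measure
preserving and changes the sign; for i = j use the product structure (or integration by parts: the derivative of exp(-b|w|^2) ⟪w,c⟫ in the direction a
has integral 0: integral of ⟪a,c⟫ exp - 2b ⟪w,a⟫⟪w,c⟫ exp; Mathlib: integral_mul_fderiv_eq_neg_fderiv_mul_of_integrable or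
integral_bilinear_hasLineDerivAt_right_eq_neg_left_of_integrable, or integrate the derivative of s ↦ ∫ ga b (w + s a) ⟪w + s a, c⟫ dw, which is constant by translation invariance).
ga_norm_sq: sum of ga_second over an orthonormal basis (‖w‖^2 = ∑ ⟪w, e i⟫^2; ∑ ‖e i‖^2 = d).
ga_third: expand ⟪u+w,e⟫ ‖u+w‖^2 = (⟪u,e⟫+⟪w,e⟫)(‖u‖^2 + 2⟪w,u⟫ + ‖w‖^2); odd terms vanish (w ↦ -w); the even ones are ⟪u,e⟫‖u‖^2, ⟪u,e⟫‖w‖^2 (ga_norm_sq), 2⟪w,e⟫⟪w,u⟫ (ga_second).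
-/

set_option autoImplicit false

open MeasureTheory Filter Topology Metric Set
open scoped RealInnerProductSpace ENNReal

namespace Pool.Agent.H1.LD

open Pool.Agent.RZ

variable {d : ℕ}

private theorem gau2_int {b : ℝ} (hb : 0 < b) (m : ℕ) (C : ℝ) {F : X d → ℝ} (hF : Continuous F)
    (h : ∀ w, |F w| ≤ C * (1 + ‖w‖) ^ m) : Integrable (fun w : X d => ga b w * F w) := by
  refine ((ga_integrable hb m).const_mul C).mono'
    ((ga_continuous b).mul hF).aestronglyMeasurable (Eventually.of_forall fun w => ?_)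
  rw [Real.norm_eq_abs, abs_mul, abs_of_nonneg (ga_nonneg b w)]
  calc ga b w * |F w| ≤ ga b w * (C * (1 + ‖w‖) ^ m) :=
        mul_le_mul_of_nonneg_left (h w) (ga_nonneg b w)
    _ = C * ((1 + ‖w‖) ^ m * ga b w) := by ring

private theorem gau2_inner (w a : X d) : |⟪w, a⟫| ≤ ‖a‖ * (1 + ‖w‖) := by
  have h1 := abs_real_inner_le_norm w a
  have h2 := norm_nonneg a
  nlinarith

private theorem gau2_one {b : ℝ} (hb : 0 < b) (a : X d) :
    Integrable (fun w : X d => ga b w * ⟪w, a⟫) := by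
  refine gau2_int hb 1 ‖a‖ (by fun_prop) fun w => ?_
  rw [pow_one]
  exact gau2_inner w a

private theorem gau2_two {b : ℝ} (hb : 0 < b) (a c : X d) :
    Integrable (fun w : X d => ga b w * (⟪w, a⟫ * ⟪w, c⟫)) := by
  refine gau2_int hb 2 (‖a‖ * ‖c‖) (by fun_prop) fun w => ?_
  rw [abs_mul]
  calc |⟪w, a⟫| * |⟪w, c⟫| ≤ (‖a‖ * (1 + ‖w‖)) * (‖c‖ * (1 + ‖w‖)) :=
        mul_le_mul (gau2_inner w a) (gau2_inner w c) (abs_nonneg _) (by positivity)
    _ = ‖a‖ * ‖c‖ * (1 + ‖w‖) ^ 2 := by ring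

private theorem gau2_zero {b : ℝ} (hb : 0 < b) : Integrable (fun w : X d => ga b w) := by
  have h := ga_integrable (d := d) hb 0
  simpa using h

private theorem gau2_sq {b : ℝ} (hb : 0 < b) : Integrable (fun w : X d => ga b w * ‖w‖ ^ 2) := by
  refine gau2_int hb 2 1 (by fun_prop) fun w => ?_
  rw [abs_of_nonneg (by positivity), one_mul]
  exact pow_le_pow_left₀ (norm_nonneg w) (by linarith) 2

private theorem gau2_three {b : ℝ} (hb : 0 < b) (e : X d) :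
    Integrable (fun w : X d => ga b w * (⟪w, e⟫ * ‖w‖ ^ 2)) := by
  refine gau2_int hb 3 ‖e‖ (by fun_prop) fun w => ?_
  rw [abs_mul, abs_of_nonneg (by positivity : (0 : ℝ) ≤ ‖w‖ ^ 2)]
  have h1 : ‖w‖ ^ 2 ≤ (1 + ‖w‖) ^ 2 := pow_le_pow_left₀ (norm_nonneg w) (by linarith) 2
  calc |⟪w, e⟫| * ‖w‖ ^ 2 ≤ (‖e‖ * (1 + ‖w‖)) * (1 + ‖w‖) ^ 2 :=
        mul_le_mul (gau2_inner w e) h1 (by positivity) (by positivity)
    _ = ‖e‖ * (1 + ‖w‖) ^ 3 := by ring

private theorem gau2_deriv (b : ℝ) (w a : X d) :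
    HasLineDerivAt ℝ (ga b : X d → ℝ) (ga b w * (-(2 * b) * ⟪w, a⟫)) w a := by
  unfold HasLineDerivAt
  have h1 : HasDerivAt (fun t : ℝ => w + t • a) a 0 := by
    have h2 := ((hasDerivAt_id (0 : ℝ)).smul_const a).const_add w
    simpa using h2
  have h2 : HasDerivAt (fun t : ℝ => ‖w + t • a‖ ^ 2) (2 * ⟪w + (0 : ℝ) • a, a⟫) 0 := h1.norm_sq
  have h3 : HasDerivAt (fun t : ℝ => -(b * ‖w + t • a‖ ^ 2))
      (-(b * (2 * ⟪w + (0 : ℝ) • a, a⟫))) 0 := (h2.const_mul b).neg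
  have h4 := h3.exp
  have e : ga b w * (-(2 * b) * ⟪w, a⟫) = Real.exp (-(b * ‖w + (0 : ℝ) • a‖ ^ 2)) *
      -(b * (2 * ⟪w + (0 : ℝ) • a, a⟫)) := by
    rw [zero_smul, add_zero]
    unfold ga
    ring
  rw [e]
  exact h4

theorem ga_second {b : ℝ} (hb : 0 < b) (a c : X d) :
    ∫ w : X d, ga b w * (⟪w, a⟫ * ⟪w, c⟫) = gc d b / (2 * b) * ⟪a, c⟫ := by
  have h := integral_bilinear_hasLineDerivAt_right_eq_neg_left_of_integrable
    (μ := (volume : Measure (X d))) (f := fun w : X d => ga b w)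
    (f' := fun w => ga b w * (-(2 * b) * ⟪w, a⟫)) (g := fun w => ⟪w, c⟫)
    (g' := fun _ => ⟪a, c⟫) (v := a) (B := ContinuousLinearMap.mul ℝ ℝ) ?_ ?_ ?_ ?_ ?_
  · simp only [ContinuousLinearMap.mul_apply'] at h
    have h1 : ∫ w : X d, ga b w * ⟪a, c⟫ = gc d b * ⟪a, c⟫ := by
      rw [integral_mul_const]
      rfl
    have h2 : ∫ w : X d, ga b w * (-(2 * b) * ⟪w, a⟫) * ⟪w, c⟫ =
        -(2 * b) * ∫ w : X d, ga b w * (⟪w, a⟫ * ⟪w, c⟫) := by
      rw [← integral_const_mul]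
      refine integral_congr_ae (Eventually.of_forall fun w => ?_)
      simp only
      ring
    rw [h1, h2] at h
    rw [div_mul_eq_mul_div, h]
    field_simp
  · simp only [ContinuousLinearMap.mul_apply']
    have h1 := (gau2_two hb a c).const_mul (-(2 * b))
    refine h1.congr (Eventually.of_forall fun w => ?_)
    simp only
    ring
  · simp only [ContinuousLinearMap.mul_apply']
    exact (gau2_zero hb).mul_const _
  · simp only [ContinuousLinearMap.mul_apply']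
    exact gau2_one hb c
  · intro w _
    exact gau2_deriv b w a
  · intro w _
    unfold HasLineDerivAt
    have h1 : HasDerivAt (fun t : ℝ => ⟪w, c⟫ + t * ⟪a, c⟫) ⟪a, c⟫ 0 := by
      have h2 := ((hasDerivAt_id (0 : ℝ)).mul_const ⟪a, c⟫).const_add ⟪w, c⟫
      simpa using h2
    refine h1.congr_of_eventuallyEq (Eventually.of_forall fun t => ?_)
    simp only
    rw [inner_add_left, real_inner_smul_left]

theorem ga_norm_sq {b : ℝ} (hb : 0 < b) :
    ∫ w : X d, ga b w * ‖w‖ ^ 2 = gc d b / (2 * b) * d := by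
  have h1 : ∀ w : X d, ga b w * ‖w‖ ^ 2 = ∑ i : Fin d,
      ga b w * (⟪w, EuclideanSpace.basisFun (Fin d) ℝ i⟫ *
        ⟪w, EuclideanSpace.basisFun (Fin d) ℝ i⟫) := by
    intro w
    rw [← Finset.mul_sum]
    congr 1
    rw [← (EuclideanSpace.basisFun (Fin d) ℝ).sum_sq_norm_inner_left w]
    refine Finset.sum_congr rfl fun i _ => ?_
    rw [Real.norm_eq_abs, sq_abs, sq]
  rw [integral_congr_ae (Eventually.of_forall h1),
    integral_finsetSum _ fun i _ => gau2_two hb _ _]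
  have h2 : ∀ i : Fin d, ∫ w : X d, ga b w * (⟪w, EuclideanSpace.basisFun (Fin d) ℝ i⟫ *
      ⟪w, EuclideanSpace.basisFun (Fin d) ℝ i⟫) = gc d b / (2 * b) := by
    intro i
    rw [ga_second hb, real_inner_self_eq_norm_sq,
      (EuclideanSpace.basisFun (Fin d) ℝ).norm_eq_one i]
    ring
  rw [Finset.sum_congr rfl fun i _ => h2 i, Finset.sum_const, Finset.card_univ,
    Fintype.card_fin, nsmul_eq_mul, mul_comm]

/-- Gaussian moments of order three -/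
theorem ga_third {b : ℝ} (hb : 0 < b) (u e : X d) :
    ∫ w : X d, ga b w * (⟪u + w, e⟫ * ‖u + w‖ ^ 2) =
      gc d b * (⟪u, e⟫ * ‖u‖ ^ 2 + (d + 2) / (2 * b) * ⟪u, e⟫) := by
  have hodd : ∫ w : X d, ga b w * (⟪w, e⟫ * ‖w‖ ^ 2) = 0 := by
    have h1 := integral_neg_eq_self (fun w : X d => ga b w * (⟪w, e⟫ * ‖w‖ ^ 2)) volume
    have h2 : ∫ w : X d, ga b (-w) * (⟪-w, e⟫ * ‖-w‖ ^ 2) =
        -∫ w : X d, ga b w * (⟪w, e⟫ * ‖w‖ ^ 2) := by
      rw [← integral_neg]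
      refine integral_congr_ae (Eventually.of_forall fun w => ?_)
      simp only
      rw [ga_neg, inner_neg_left, norm_neg]
      ring
    rw [h2] at h1
    linarith
  have i0 : Integrable (fun w : X d => ⟪u, e⟫ * ‖u‖ ^ 2 * ga b w) := (gau2_zero hb).const_mul _
  have i1 : Integrable (fun w : X d => ⟪u, e⟫ * (ga b w * ‖w‖ ^ 2)) := (gau2_sq hb).const_mul _
  have i2 : Integrable (fun w : X d => 2 * (ga b w * (⟪w, e⟫ * ⟪w, u⟫))) :=
    (gau2_two hb e u).const_mul _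
  have i3 : Integrable (fun w : X d => 2 * ⟪u, e⟫ * (ga b w * ⟪w, u⟫)) :=
    (gau2_one hb u).const_mul _
  have i4 : Integrable (fun w : X d => ‖u‖ ^ 2 * (ga b w * ⟪w, e⟫)) :=
    (gau2_one hb e).const_mul _
  have i5 : Integrable (fun w : X d => ga b w * (⟪w, e⟫ * ‖w‖ ^ 2)) := gau2_three hb e
  have j4 : Integrable (fun w : X d => ‖u‖ ^ 2 * (ga b w * ⟪w, e⟫) +
      ga b w * (⟪w, e⟫ * ‖w‖ ^ 2)) := i4.add i5
  have j3 : Integrable (fun w : X d => 2 * ⟪u, e⟫ * (ga b w * ⟪w, u⟫) +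
      (‖u‖ ^ 2 * (ga b w * ⟪w, e⟫) + ga b w * (⟪w, e⟫ * ‖w‖ ^ 2))) := i3.add j4
  have j2 : Integrable (fun w : X d => 2 * (ga b w * (⟪w, e⟫ * ⟪w, u⟫)) +
      (2 * ⟪u, e⟫ * (ga b w * ⟪w, u⟫) +
      (‖u‖ ^ 2 * (ga b w * ⟪w, e⟫) + ga b w * (⟪w, e⟫ * ‖w‖ ^ 2)))) := i2.add j3
  have j1 : Integrable (fun w : X d => ⟪u, e⟫ * (ga b w * ‖w‖ ^ 2) +
      (2 * (ga b w * (⟪w, e⟫ * ⟪w, u⟫)) + (2 * ⟪u, e⟫ * (ga b w * ⟪w, u⟫) +
      (‖u‖ ^ 2 * (ga b w * ⟪w, e⟫) + ga b w * (⟪w, e⟫ * ‖w‖ ^ 2))))) := i1.add j2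
  have h1 : ∀ w : X d, ga b w * (⟪u + w, e⟫ * ‖u + w‖ ^ 2) =
      ⟪u, e⟫ * ‖u‖ ^ 2 * ga b w + (⟪u, e⟫ * (ga b w * ‖w‖ ^ 2) +
      (2 * (ga b w * (⟪w, e⟫ * ⟪w, u⟫)) + (2 * ⟪u, e⟫ * (ga b w * ⟪w, u⟫) +
      (‖u‖ ^ 2 * (ga b w * ⟪w, e⟫) + ga b w * (⟪w, e⟫ * ‖w‖ ^ 2))))) := by
    intro w
    rw [inner_add_left, norm_add_sq_real, real_inner_comm w u]
    ring
  rw [integral_congr_ae (Eventually.of_forall h1),
    integral_add i0 j1, integral_add i1 j2, integral_add i2 j3, integral_add i3 j4,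
    integral_add i4 i5, hodd, integral_const_mul,
    integral_const_mul, integral_const_mul, integral_const_mul, integral_const_mul,
    ga_norm_sq hb, ga_second hb, ga_odd, ga_odd, real_inner_comm u e]
  have h2 : ∫ w : X d, ga b w = gc d b := rfl
  rw [h2]
  ring

end Pool.Agent.H1.LD
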