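import Pool.Agent.H1.LD.Gau0

/-!
Gaussians: domination, integrability, weights.
poly_ga: s ↦ (1+s)^m exp(-(b-b') s^2) is bounded on [0, ∞) (b' < b; b, b' may be any reals).
ga_integrable: poly_ga + integrability of exp(-b|w|^2) on X d (Mathlib: GaussianFourier.integrable_cexp_neg_mul_sq_norm_add,
integrable_exp_neg_mul_sq_norm or the like; or the product over coordinates).   gc_pos: integral of a positive continuous integrable function.
ga_odd: the integrand is odd (integral_neg_eq_self / measure preserving w ↦ -w), no integrability needed.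
ga_two: |x-z|^2 ≤ 2|x-y|^2 + 2|y-z|^2.    peetre: 1+|x-z| ≤ 1+|x-y|+|y-z| ≤ (1+|x-y|)(1+|y-z|).
-/

set_option autoImplicit false

open MeasureTheory Filter Topology Metric Set
open scoped RealInnerProductSpace ENNReal

namespace Pool.Agent.H1.LD

open Pool.Agent.RZ

variable {d : ℕ}

/-- polynomials are absorbed by Gaussians -/
theorem poly_ga (d m : ℕ) {b b' : ℝ} (h : b' < b) : ∃ C : ℝ, 0 < C ∧ ∀ v : X d,
    (1 + ‖v‖) ^ m * ga b v ≤ C * ga b' v := by
  have hc : 0 < b - b' := sub_pos.2 h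
  refine ⟨Real.exp ((m : ℝ) ^ 2 / (4 * (b - b'))), Real.exp_pos _, fun v => ?_⟩
  have h1 : (1 + ‖v‖) ^ m ≤ Real.exp (m * ‖v‖) := by
    have h2 : (1 + ‖v‖) ≤ Real.exp ‖v‖ := by
      have := Real.add_one_le_exp ‖v‖
      linarith
    calc (1 + ‖v‖) ^ m ≤ (Real.exp ‖v‖) ^ m :=
          pow_le_pow_left₀ (by positivity) h2 m
      _ = Real.exp (m * ‖v‖) := by rw [← Real.exp_nat_mul]
  have h3 : (m : ℝ) * ‖v‖ ≤ (b - b') * ‖v‖ ^ 2 + (m : ℝ) ^ 2 / (4 * (b - b')) := by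
    have h4 : 0 ≤ (2 * (b - b') * ‖v‖ - m) ^ 2 / (4 * (b - b')) := by positivity
    have h5 : (2 * (b - b') * ‖v‖ - m) ^ 2 / (4 * (b - b')) =
        (b - b') * ‖v‖ ^ 2 - m * ‖v‖ + (m : ℝ) ^ 2 / (4 * (b - b')) := by
      field_simp
      ring
    linarith
  unfold ga
  calc (1 + ‖v‖) ^ m * Real.exp (-(b * ‖v‖ ^ 2))
      ≤ Real.exp (m * ‖v‖) * Real.exp (-(b * ‖v‖ ^ 2)) :=
        mul_le_mul_of_nonneg_right h1 (Real.exp_pos _).le
    _ = Real.exp (m * ‖v‖ + -(b * ‖v‖ ^ 2)) := by rw [Real.exp_add]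
    _ ≤ Real.exp ((m : ℝ) ^ 2 / (4 * (b - b')) + -(b' * ‖v‖ ^ 2)) := by
        apply Real.exp_le_exp.2
        nlinarith [h3]
    _ = _ := by rw [Real.exp_add]

theorem ga_integrable {b : ℝ} (hb : 0 < b) (m : ℕ) :
    Integrable (fun w : X d => (1 + ‖w‖) ^ m * ga b w) := by
  obtain ⟨C, hC, hb2⟩ := poly_ga d m (show b / 2 < b by linarith)
  have h0 : Integrable (fun w : X d => ga (b / 2) w) := by
    have h1 := GaussianFourier.integrable_cexp_neg_mul_sq_norm_add (V := X d)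
      (b := ((b / 2 : ℝ) : ℂ)) (by simpa using (by linarith : 0 < b / 2)) 0 0
    have h2 := h1.norm
    refine h2.congr (Filter.Eventually.of_forall fun v => ?_)
    simp only [ga]
    rw [Complex.norm_exp]
    congr 1
    simp only [inner_zero_left, Complex.ofReal_zero, mul_zero, add_zero]
    rw [show -((b / 2 : ℝ) : ℂ) * (‖v‖ : ℂ) ^ 2 = ((-(b / 2 * ‖v‖ ^ 2) : ℝ) : ℂ) by
      push_cast; ring]
    exact Complex.ofReal_re _
  refine (h0.const_mul C).mono' ?_ (Filter.Eventually.of_forall fun v => ?_)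
  · exact (((continuous_const.add continuous_norm).pow m).mul
      (ga_continuous b)).aestronglyMeasurable
  · rw [Real.norm_of_nonneg (mul_nonneg (by positivity) (ga_nonneg b v))]
    exact hb2 v

theorem gc_pos {b : ℝ} (hb : 0 < b) : 0 < gc d b := by
  unfold gc
  have h1 := ga_integrable (d := d) hb 0
  simp only [pow_zero, one_mul] at h1
  exact integral_exp_pos h1

theorem ga_odd {b : ℝ} (a : X d) : ∫ w : X d, ga b w * ⟪w, a⟫ = 0 := by
  have h1 := integral_neg_eq_self (fun w : X d => ga b w * ⟪w, a⟫) volume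
  simp only [ga_neg, inner_neg_left, mul_neg, integral_neg] at h1
  linarith

/-- two Gaussians with different centres -/
theorem ga_two {b : ℝ} (hb : 0 ≤ b) (x y z : X d) : ga b (y - z) ≤ ga (b / 2) (x - z) *
    Real.exp (b * ‖x - y‖ ^ 2) := by
  unfold ga
  rw [← Real.exp_add]
  apply Real.exp_le_exp.2
  have h1 : ‖x - z‖ ≤ ‖x - y‖ + ‖y - z‖ := norm_sub_le_norm_sub_add_norm_sub x y z
  have h2 : ‖x - z‖ ^ 2 ≤ 2 * ‖x - y‖ ^ 2 + 2 * ‖y - z‖ ^ 2 := by
    have h3 : ‖x - z‖ ^ 2 ≤ (‖x - y‖ + ‖y - z‖) ^ 2 :=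
      pow_le_pow_left₀ (norm_nonneg _) h1 2
    nlinarith [sq_nonneg (‖x - y‖ - ‖y - z‖)]
  have h4 := mul_le_mul_of_nonneg_left h2 (show 0 ≤ b / 2 by linarith)
  nlinarith [h4]

/-- polynomial weights -/
theorem peetre (K : ℕ) (x y z : X d) :
    (1 + ‖x - z‖) ^ K ≤ (1 + ‖x - y‖) ^ K * (1 + ‖y - z‖) ^ K := by
  rw [← mul_pow]
  apply pow_le_pow_left₀ (by positivity)
  have h1 : ‖x - z‖ ≤ ‖x - y‖ + ‖y - z‖ := norm_sub_le_norm_sub_add_norm_sub x y z
  nlinarith [norm_nonneg (x - y), norm_nonneg (y - z),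
    mul_nonneg (norm_nonneg (x - y)) (norm_nonneg (y - z))]

end Pool.Agent.H1.LD
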