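import Pool.Agent.H1.LD.En0

/-!
Mollification of a measure by averages over small balls: definitions.
-/

set_option autoImplicit false

open MeasureTheory Filter Topology Metric Set
open scoped RealInnerProductSpace ENNReal

namespace Pool.Agent.H1.LD

open Pool.Agent.RZ

variable {d : ℕ}

/-- the normalised Lebesgue measure of the unit ball -/
noncomputable def Pb (d : ℕ) : Measure (X d) :=
  (volume (closedBall (0 : X d) 1))⁻¹ • volume.restrict (closedBall (0 : X d) 1)

/-- the mollified measure -/
noncomputable def mol (μ : Measure (X d)) (ε : ℝ) : Measure (X d) :=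
  (μ.prod (Pb d)).map fun p => p.1 + ε • p.2

end Pool.Agent.H1.LD
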