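import Pool.Agent.H1.LD.MolA

/-!
avg_ker.  K(x) = ‖x‖⁻⁴ x.  Far case ‖a‖ ≥ 4ε: for ‖b‖ ≤ 2, ‖K(a+εb) - K(a)‖ ≤ C ε ‖a‖⁻⁴ (elementary: |K(x)-K(y)| ≤ C|x-y|(|x|⁻⁴+|y|⁻⁴) or mean value inequality), ‖K(a) - kr 3 ε a • a‖ = ‖a‖ (‖a‖⁻⁴ - (‖a‖²+ε²)⁻²) ≤ 2ε²‖a‖⁻⁵ ≤ ε‖a‖⁻⁴, and
 kr 3 ε a = (‖a‖²+ε²)⁻² ≥ c‖a‖⁻⁴.  Near case ‖a‖ < 4ε: ‖∫ K(a+ε(w-w')) dPb(w')‖ ≤ ε⁻³ sup_q ∫‖q+w'‖⁻³ dPb ≤ Cε⁻³ (avg_loc, w' ↦ -w'), ‖kr a‖ ≤ ε⁻³, ε kr 3 ε a ≥ ε (17ε²)⁻².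
-/

set_option autoImplicit false

open MeasureTheory Filter Topology Metric Set
open scoped RealInnerProductSpace ENNReal

namespace Pool.Agent.H1.LD

open Pool.Agent.RZ

variable {d : ℕ}

/-- the kernel -/
private noncomputable def MolC_K (x : X d) : X d := ‖x‖⁻¹ ^ 4 • x

private lemma MolC_K_meas : Measurable (MolC_K (d := d)) := by
  unfold MolC_K
  exact ((measurable_norm.inv).pow_const 4).smul measurable_id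

private lemma MolC_K_norm (x : X d) : ‖MolC_K x‖ = ‖x‖⁻¹ ^ 3 := by
  unfold MolC_K
  rw [norm_smul, norm_pow, norm_inv, norm_norm]
  rcases eq_or_ne ‖x‖ 0 with h | h
  · rw [h]; simp
  · field_simp

private lemma MolC_K_enorm (x : X d) : ‖MolC_K x‖ₑ ≤ ‖x‖ₑ⁻¹ ^ 3 := by
  rcases eq_or_ne x 0 with h | h
  · subst h; simp
  · have h0 : 0 < ‖x‖ := norm_pos_iff.2 h
    rw [← ofReal_norm, MolC_K_norm, ← ofReal_norm,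
      ← ENNReal.ofReal_inv_of_pos h0, ENNReal.ofReal_pow (inv_nonneg.2 h0.le)]

private lemma MolC_kr (ε : ℝ) (a : X d) : kr 3 ε a = (‖a‖ ^ 2 + ε ^ 2)⁻¹ ^ 2 := by
  unfold kr
  have h : (0 : ℝ) ≤ ‖a‖ ^ 2 + ε ^ 2 := by positivity
  rw [show (3 + 1) = 2 * 2 by norm_num, pow_mul, inv_pow, Real.sq_sqrt h]

/-- the difference of kernels -/
private lemma MolC_diff {x y : X d} (hy : 0 < ‖y‖) (h1 : ‖y‖ / 2 ≤ ‖x‖) (h2 : ‖x‖ ≤ 3 / 2 * ‖y‖) :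
    ‖MolC_K x - MolC_K y‖ ≤ 146 * ‖y‖⁻¹ ^ 4 * ‖x - y‖ := by
  have hx : 0 < ‖x‖ := by linarith [half_pos hy]
  have e : MolC_K x - MolC_K y = ‖x‖⁻¹ ^ 4 • (x - y) + (‖x‖⁻¹ ^ 4 - ‖y‖⁻¹ ^ 4) • y := by
    unfold MolC_K
    rw [smul_sub, sub_smul]; abel
  have hi : ‖x‖⁻¹ ≤ 2 * ‖y‖⁻¹ := by
    have := inv_anti₀ (half_pos hy) h1
    rwa [inv_div, div_eq_mul_inv] at this
  have hi4 : ‖x‖⁻¹ ^ 4 ≤ 16 * ‖y‖⁻¹ ^ 4 := by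
    calc ‖x‖⁻¹ ^ 4 ≤ (2 * ‖y‖⁻¹) ^ 4 := pow_le_pow_left₀ (by positivity) hi 4
      _ = 16 * ‖y‖⁻¹ ^ 4 := by ring
  have hab : |‖y‖ - ‖x‖| ≤ ‖x - y‖ := by
    rw [abs_sub_comm]; exact abs_norm_sub_norm_le x y
  have e2 : ‖x‖⁻¹ ^ 4 - ‖y‖⁻¹ ^ 4 =
      (‖x‖⁻¹ ^ 4 * ‖y‖⁻¹ ^ 4) * ((‖y‖ - ‖x‖) * ((‖y‖ + ‖x‖) * (‖y‖ ^ 2 + ‖x‖ ^ 2))) := by
    field_simp
    ring
  have h3 : |‖x‖⁻¹ ^ 4 - ‖y‖⁻¹ ^ 4| ≤ 130 * ‖y‖⁻¹ ^ 4 * ‖y‖⁻¹ * ‖x - y‖ := by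
    rw [e2, abs_mul (‖x‖⁻¹ ^ 4 * ‖y‖⁻¹ ^ 4), abs_mul (‖y‖ - ‖x‖),
      abs_of_nonneg (by positivity : 0 ≤ ‖x‖⁻¹ ^ 4 * ‖y‖⁻¹ ^ 4),
      abs_of_nonneg (by positivity : 0 ≤ (‖y‖ + ‖x‖) * (‖y‖ ^ 2 + ‖x‖ ^ 2))]
    have h4 : (‖y‖ + ‖x‖) * (‖y‖ ^ 2 + ‖x‖ ^ 2) ≤ 65 / 8 * ‖y‖ ^ 3 := by
      have a1 : ‖y‖ + ‖x‖ ≤ 5 / 2 * ‖y‖ := by linarith
      have a2 : ‖x‖ ^ 2 ≤ (3 / 2 * ‖y‖) ^ 2 := pow_le_pow_left₀ hx.le h2 2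
      have a3 : ‖y‖ ^ 2 + ‖x‖ ^ 2 ≤ 13 / 4 * ‖y‖ ^ 2 := by nlinarith
      calc (‖y‖ + ‖x‖) * (‖y‖ ^ 2 + ‖x‖ ^ 2) ≤ (5 / 2 * ‖y‖) * (13 / 4 * ‖y‖ ^ 2) :=
            mul_le_mul a1 a3 (by positivity) (by positivity)
        _ = 65 / 8 * ‖y‖ ^ 3 := by ring
    calc ‖x‖⁻¹ ^ 4 * ‖y‖⁻¹ ^ 4 * (|‖y‖ - ‖x‖| * ((‖y‖ + ‖x‖) * (‖y‖ ^ 2 + ‖x‖ ^ 2)))
        ≤ (16 * ‖y‖⁻¹ ^ 4) * ‖y‖⁻¹ ^ 4 * (‖x - y‖ * (65 / 8 * ‖y‖ ^ 3)) := by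
          gcongr
      _ = 130 * ‖y‖⁻¹ ^ 4 * ‖y‖⁻¹ * ‖x - y‖ := by
          field_simp
          ring
  rw [e]
  calc ‖‖x‖⁻¹ ^ 4 • (x - y) + (‖x‖⁻¹ ^ 4 - ‖y‖⁻¹ ^ 4) • y‖
      ≤ ‖x‖⁻¹ ^ 4 * ‖x - y‖ + |‖x‖⁻¹ ^ 4 - ‖y‖⁻¹ ^ 4| * ‖y‖ := by
        refine (norm_add_le _ _).trans (add_le_add ?_ ?_)
        · rw [norm_smul, norm_pow, norm_inv, norm_norm]
        · rw [norm_smul, Real.norm_eq_abs]
    _ ≤ (16 * ‖y‖⁻¹ ^ 4) * ‖x - y‖ + (130 * ‖y‖⁻¹ ^ 4 * ‖y‖⁻¹ * ‖x - y‖) * ‖y‖ := by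
        gcongr
    _ = 146 * ‖y‖⁻¹ ^ 4 * ‖x - y‖ := by
        field_simp
        ring

private lemma MolC_ball : ∀ᵐ w ∂(Pb d), w ∈ closedBall (0 : X d) 1 := by
  unfold Pb
  exact Measure.ae_smul_measure (ae_restrict_mem measurableSet_closedBall) _

/-- comparison of the averaged Riesz kernel with the regularised one -/
theorem avg_ker (hd : 4 ≤ d) : ∃ C : ℝ, 0 < C ∧ ∀ (ε : ℝ), 0 < ε → ∀ a : X d,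
    ∀ w ∈ closedBall (0 : X d) 1,
    ‖(∫ w', ‖a + ε • (w - w')‖⁻¹ ^ 4 • (a + ε • (w - w')) ∂(Pb d)) - kr 3 ε a • a‖ ≤
      C * (ε * kr 3 ε a) := by
  obtain ⟨C₁, hC₁, hloc⟩ := avg_loc (d := d) hd
  have := Pb_prob d
  refine ⟨289 * (C₁ + 1) + 600, by positivity, fun ε hε a w hw => ?_⟩
  have hkr : kr 3 ε a = (‖a‖ ^ 2 + ε ^ 2)⁻¹ ^ 2 := MolC_kr ε a
  have hw1 : ‖w‖ ≤ 1 := by simpa using hw
  have hk0 : 0 < kr 3 ε a := by rw [hkr]; positivity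
  change ‖(∫ w', MolC_K (a + ε • (w - w')) ∂(Pb d)) - kr 3 ε a • a‖ ≤ _
  rcases lt_or_ge ‖a‖ (4 * ε) with hn | hf
  · -- near case
    have n1 : ‖∫ w', MolC_K (a + ε • (w - w')) ∂(Pb d)‖ ≤ ε⁻¹ ^ 3 * C₁ := by
      have l1 : ∫⁻ w', ‖MolC_K (a + ε • (w - w'))‖ₑ ∂(Pb d) ≤ ENNReal.ofReal (ε⁻¹ ^ 3 * C₁) := by
        calc ∫⁻ w', ‖MolC_K (a + ε • (w - w'))‖ₑ ∂(Pb d)
            ≤ ∫⁻ w', ENNReal.ofReal (ε⁻¹ ^ 3) * ‖-(ε⁻¹ • a + w) + w'‖ₑ⁻¹ ^ 3 ∂(Pb d) := by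
              refine lintegral_mono fun w' => (MolC_K_enorm _).trans (le_of_eq ?_)
              have : a + ε • (w - w') = ε • (-(-(ε⁻¹ • a + w) + w')) := by
                rw [neg_add, neg_neg, smul_add, smul_add, smul_sub, smul_neg, smul_smul,
                  mul_inv_cancel₀ hε.ne', one_smul]
                abel
              rw [this, enorm_smul, enorm_neg, Real.enorm_eq_ofReal hε.le,
                ENNReal.mul_inv (Or.inl (by simpa using hε)) (Or.inl ENNReal.ofReal_ne_top),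
                mul_pow, ← ENNReal.ofReal_inv_of_pos hε,
                ← ENNReal.ofReal_pow (inv_nonneg.2 hε.le)]
          _ = ENNReal.ofReal (ε⁻¹ ^ 3) * ∫⁻ w', ‖-(ε⁻¹ • a + w) + w'‖ₑ⁻¹ ^ 3 ∂(Pb d) :=
              lintegral_const_mul' _ _ ENNReal.ofReal_ne_top
          _ ≤ ENNReal.ofReal (ε⁻¹ ^ 3) * ENNReal.ofReal C₁ := by gcongr; exact hloc _
          _ = ENNReal.ofReal (ε⁻¹ ^ 3 * C₁) := (ENNReal.ofReal_mul (by positivity)).symm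
      have l2 := (enorm_integral_le_lintegral_enorm
        (fun w' => MolC_K (a + ε • (w - w'))) (μ := Pb d)).trans l1
      rw [← ofReal_norm] at l2
      exact (ENNReal.ofReal_le_ofReal_iff (by positivity)).1 l2
    have n2 : ‖kr 3 ε a • a‖ ≤ ε⁻¹ ^ 3 := by
      rw [norm_smul, Real.norm_eq_abs, abs_of_pos hk0, hkr, inv_pow, inv_pow]
      rw [inv_mul_le_iff₀ (by positivity), ← div_eq_mul_inv, le_div_iff₀ (by positivity)]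
      have ha := norm_nonneg a
      nlinarith [sq_nonneg (‖a‖ - ε), mul_nonneg ha hε.le, mul_nonneg (mul_nonneg ha hε.le) hε.le,
        pow_pos hε 3, pow_pos hε 4, mul_nonneg ha (pow_pos hε 3).le,
        mul_nonneg (mul_nonneg ha ha) (pow_pos hε 2).le, mul_nonneg (sq_nonneg (‖a‖ - ε)) (sq_nonneg ε), sq_nonneg (‖a‖ ^ 2)]
    have n3 : ε⁻¹ ^ 3 ≤ 289 * (ε * kr 3 ε a) := by
      rw [hkr, inv_pow, inv_pow]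
      rw [inv_le_iff_one_le_mul₀ (by positivity)]
      have h1 : ‖a‖ ^ 2 + ε ^ 2 ≤ 17 * ε ^ 2 := by
        have := pow_le_pow_left₀ (norm_nonneg a) hn.le 2
        nlinarith
      have h2 : (‖a‖ ^ 2 + ε ^ 2) ^ 2 ≤ (17 * ε ^ 2) ^ 2 := pow_le_pow_left₀ (by positivity) h1 2
      have h3 : 1 ≤ 289 * ε ^ 4 * ((‖a‖ ^ 2 + ε ^ 2) ^ 2)⁻¹ := by
        rw [← div_eq_mul_inv, le_div_iff₀ (by positivity)]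
        nlinarith
      calc (1 : ℝ) ≤ 289 * ε ^ 4 * ((‖a‖ ^ 2 + ε ^ 2) ^ 2)⁻¹ := h3
        _ = 289 * (ε * ((‖a‖ ^ 2 + ε ^ 2) ^ 2)⁻¹) * ε ^ 3 := by ring
    calc ‖(∫ w', MolC_K (a + ε • (w - w')) ∂(Pb d)) - kr 3 ε a • a‖
        ≤ ε⁻¹ ^ 3 * C₁ + ε⁻¹ ^ 3 := (norm_sub_le _ _).trans (add_le_add n1 n2)
      _ = (C₁ + 1) * ε⁻¹ ^ 3 := by ring
      _ ≤ (C₁ + 1) * (289 * (ε * kr 3 ε a)) := by gcongr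
      _ ≤ (289 * (C₁ + 1) + 600) * (ε * kr 3 ε a) := by nlinarith [mul_pos hε hk0]
  · -- far case
    have ha : 0 < ‖a‖ := by linarith
    have hb : ∀ w' ∈ closedBall (0 : X d) 1, ‖ε • (w - w')‖ ≤ 2 * ε := by
      intro w' hw'
      have hw2 : ‖w'‖ ≤ 1 := by simpa using hw'
      rw [norm_smul, Real.norm_eq_abs, abs_of_pos hε]
      nlinarith [norm_sub_le w w']
    have hd1 : ∀ w' ∈ closedBall (0 : X d) 1,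
        ‖MolC_K (a + ε • (w - w')) - MolC_K a‖ ≤ 292 * ε * ‖a‖⁻¹ ^ 4 := by
      intro w' hw'
      have hb1 := hb w' hw'
      have t1 : ‖a‖ - ‖ε • (w - w')‖ ≤ ‖a + ε • (w - w')‖ := by
        have := norm_sub_norm_le a (-(ε • (w - w')))
        rwa [norm_neg, sub_neg_eq_add] at this
      have t2 : ‖a + ε • (w - w')‖ ≤ ‖a‖ + ‖ε • (w - w')‖ := norm_add_le _ _
      refine (MolC_diff ha (by linarith) (by linarith)).trans ?_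
      rw [add_sub_cancel_left]
      calc 146 * ‖a‖⁻¹ ^ 4 * ‖ε • (w - w')‖ ≤ 146 * ‖a‖⁻¹ ^ 4 * (2 * ε) := by gcongr
        _ = 292 * ε * ‖a‖⁻¹ ^ 4 := by ring
    have hint : Integrable (fun w' => MolC_K (a + ε • (w - w')) - MolC_K a) (Pb d) := by
      refine Integrable.of_bound (C := 292 * ε * ‖a‖⁻¹ ^ 4) ?_ ?_
      · refine ((MolC_K_meas.comp ?_).sub_const _).aestronglyMeasurable
        fun_prop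
      · filter_upwards [MolC_ball] with w' hw' using hd1 w' hw'
    have hint2 : Integrable (fun w' => MolC_K (a + ε • (w - w'))) (Pb d) := by
      have := hint.add (integrable_const (MolC_K a))
      refine this.congr (Eventually.of_forall fun w' => ?_)
      simp
    have f1 : ‖(∫ w', MolC_K (a + ε • (w - w')) ∂(Pb d)) - MolC_K a‖ ≤ 292 * ε * ‖a‖⁻¹ ^ 4 := by
      have e1 : (∫ w', MolC_K (a + ε • (w - w')) ∂(Pb d)) - MolC_K a =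
          ∫ w', (MolC_K (a + ε • (w - w')) - MolC_K a) ∂(Pb d) := by
        rw [integral_sub hint2 (integrable_const _), integral_const]
        simp
      rw [e1]
      have := norm_integral_le_of_norm_le_const (μ := Pb d)
        (f := fun w' => MolC_K (a + ε • (w - w')) - MolC_K a) (C := 292 * ε * ‖a‖⁻¹ ^ 4)
        (by filter_upwards [MolC_ball] with w' hw' using hd1 w' hw')
      simpa using this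
    have hk1 : kr 3 ε a ≤ ‖a‖⁻¹ ^ 4 := by
      rw [hkr, inv_pow, inv_pow]
      refine inv_anti₀ (by positivity) ?_
      nlinarith [sq_nonneg ε, sq_nonneg ‖a‖, mul_nonneg (sq_nonneg ε) (sq_nonneg ‖a‖),
        sq_nonneg (ε ^ 2)]
    have hk2 : ‖a‖⁻¹ ^ 4 ≤ 2 * kr 3 ε a := by
      rw [hkr, inv_pow, inv_pow, ← div_eq_mul_inv, inv_eq_one_div,
        div_le_div_iff₀ (by positivity) (by positivity)]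
      have h1 : 16 * ε ^ 2 ≤ ‖a‖ ^ 2 := by
        have := pow_le_pow_left₀ (by positivity) hf 2
        nlinarith
      have h2 : ‖a‖ ^ 2 + ε ^ 2 ≤ 17 / 16 * ‖a‖ ^ 2 := by linarith
      have h3 := pow_le_pow_left₀ (by positivity) h2 2
      nlinarith [pow_pos ha 4]
    have f2 : ‖MolC_K a - kr 3 ε a • a‖ ≤ ε * ‖a‖⁻¹ ^ 4 := by
      unfold MolC_K
      rw [← sub_smul, norm_smul, Real.norm_eq_abs, abs_of_nonneg (by linarith), hkr]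
      have e : ‖a‖⁻¹ ^ 4 - (‖a‖ ^ 2 + ε ^ 2)⁻¹ ^ 2 =
          (ε ^ 2 * (2 * ‖a‖ ^ 2 + ε ^ 2)) * (‖a‖⁻¹ ^ 4 * (‖a‖ ^ 2 + ε ^ 2)⁻¹ ^ 2) := by
        field_simp
        ring
      rw [e]
      have h5 : (‖a‖ ^ 2 + ε ^ 2)⁻¹ ^ 2 ≤ ‖a‖⁻¹ ^ 4 := by rw [← hkr]; exact hk1
      have h6 : ε ^ 2 * (2 * ‖a‖ ^ 2 + ε ^ 2) * ‖a‖⁻¹ ^ 4 * ‖a‖ ≤ ε := by
        have h7 : 4 * ε ≤ ‖a‖ := hf
        have : ε ^ 2 * (2 * ‖a‖ ^ 2 + ε ^ 2) * ‖a‖ ≤ ε * ‖a‖ ^ 4 := by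
          have p1 : ε * (2 * ‖a‖ ^ 2 + ε ^ 2) ≤ ‖a‖ ^ 3 := by
            have : ε ^ 2 ≤ ‖a‖ ^ 2 := pow_le_pow_left₀ hε.le (by linarith) 2
            nlinarith [sq_nonneg ‖a‖, mul_nonneg (sub_nonneg.2 h7) (sq_nonneg ‖a‖)]
          calc ε ^ 2 * (2 * ‖a‖ ^ 2 + ε ^ 2) * ‖a‖ = ε * ‖a‖ * (ε * (2 * ‖a‖ ^ 2 + ε ^ 2)) := by ring
            _ ≤ ε * ‖a‖ * ‖a‖ ^ 3 := by gcongr
            _ = ε * ‖a‖ ^ 4 := by ring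
        calc ε ^ 2 * (2 * ‖a‖ ^ 2 + ε ^ 2) * ‖a‖⁻¹ ^ 4 * ‖a‖
            = (ε ^ 2 * (2 * ‖a‖ ^ 2 + ε ^ 2) * ‖a‖) * ‖a‖⁻¹ ^ 4 := by ring
          _ ≤ (ε * ‖a‖ ^ 4) * ‖a‖⁻¹ ^ 4 := by gcongr
          _ = ε := by field_simp
      calc ε ^ 2 * (2 * ‖a‖ ^ 2 + ε ^ 2) * (‖a‖⁻¹ ^ 4 * (‖a‖ ^ 2 + ε ^ 2)⁻¹ ^ 2) * ‖a‖
          ≤ ε ^ 2 * (2 * ‖a‖ ^ 2 + ε ^ 2) * (‖a‖⁻¹ ^ 4 * ‖a‖⁻¹ ^ 4) * ‖a‖ := by gcongr
        _ = (ε ^ 2 * (2 * ‖a‖ ^ 2 + ε ^ 2) * ‖a‖⁻¹ ^ 4 * ‖a‖) * ‖a‖⁻¹ ^ 4 := by ring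
        _ ≤ ε * ‖a‖⁻¹ ^ 4 := by gcongr
    calc ‖(∫ w', MolC_K (a + ε • (w - w')) ∂(Pb d)) - kr 3 ε a • a‖
        ≤ 292 * ε * ‖a‖⁻¹ ^ 4 + ε * ‖a‖⁻¹ ^ 4 := by
          have := norm_add_le ((∫ w', MolC_K (a + ε • (w - w')) ∂(Pb d)) - MolC_K a)
            (MolC_K a - kr 3 ε a • a)
          rw [sub_add_sub_cancel] at this
          exact this.trans (add_le_add f1 f2)
      _ = 293 * ε * ‖a‖⁻¹ ^ 4 := by ring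
      _ ≤ 293 * ε * (2 * kr 3 ε a) := by gcongr
      _ ≤ (289 * (C₁ + 1) + 600) * (ε * kr 3 ε a) := by nlinarith [mul_pos hε hk0]

end Pool.Agent.H1.LD
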