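import Pool.Agent.H1.LD.EnD
import Pool.Agent.H1.LD.Dic

/-!
Products with an interval: definitions.
-/

set_option autoImplicit false

open MeasureTheory Filter Topology Metric Set
open scoped RealInnerProductSpace ENNReal

namespace Pool.Agent.H1.LD

open Pool.Agent.RZ

variable {d : ℕ}

/-- the point with the new first coordinate `s` -/
noncomputable def app (p : X d × ℝ) : X (d + 1) :=
  (WithLp.equiv 2 (Fin (d + 1) → ℝ)).symm (Fin.cons p.2 p.1)

/-- the product of a measure with Lebesgue measure on the unit interval -/
noncomputable def prI (μ : Measure (X d)) : Measure (X (d + 1)) :=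
  (μ.prod (volume.restrict (Icc (0 : ℝ) 1))).map app

end Pool.Agent.H1.LD
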