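import Pool.Agent.H1.LD.Prd

/-!
app_norm: EuclideanSpace.norm_sq_eq (or real_norm_sq_eq), Fin.sum_univ_succ.  app_continuous: coordinates.  app_inner: for e in X (d+1), ⟪e, app p - app q⟫ = ⟪tail e, p.1-q.1⟫ + e 0 * (p.2-q.2).
prI_growth: closedBall x r pulls back into {|y - x̄| ≤ r, |s - s̄| ≤ r} (every x in X (d+1) is app (x̄, s̄)): measure ≤ C₀ r^n * 2r.
-/

set_option autoImplicit false

open MeasureTheory Filter Topology Metric Set
open scoped RealInnerProductSpace ENNReal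

namespace Pool.Agent.H1.LD

open Pool.Agent.RZ

variable {d : ℕ}

private theorem PrdA_zero (p : X d × ℝ) : app p 0 = p.2 := rfl

private theorem PrdA_succ (p : X d × ℝ) (i : Fin d) : app p i.succ = p.1 i := rfl

theorem app_norm (p q : X d × ℝ) : ‖app p - app q‖ ^ 2 = ‖p.1 - q.1‖ ^ 2 + (p.2 - q.2) ^ 2 := by
  rw [EuclideanSpace.norm_sq_eq, EuclideanSpace.norm_sq_eq, Fin.sum_univ_succ]
  simp only [PiLp.sub_apply, PrdA_zero, PrdA_succ, Real.norm_eq_abs, sq_abs]
  ring

theorem app_continuous : Continuous (app : X d × ℝ → X (d + 1)) := by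
  have h : Continuous (fun p : X d × ℝ => (Fin.cons p.2 p.1 : Fin (d + 1) → ℝ)) := by
    refine continuous_pi fun i => ?_
    refine Fin.cases ?_ (fun j => ?_) i
    · exact continuous_snd
    · show Continuous (fun p : X d × ℝ => p.1 j)
      fun_prop
  exact (PiLp.continuous_toLp 2 (fun _ : Fin (d + 1) => ℝ)).comp h

theorem app_surjective (x : X (d + 1)) : ∃ p : X d × ℝ, app p = x := by
  refine ⟨(WithLp.toLp 2 (fun i : Fin d => x i.succ), x 0), ?_⟩
  ext i
  refine Fin.cases ?_ (fun j => ?_) i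
  · exact PrdA_zero _
  · exact PrdA_succ _ _

/-- linear functionals in product coordinates -/
theorem app_inner (e : X (d + 1)) : ∃ (e' : X d) (c : ℝ), ‖e'‖ ^ 2 + c ^ 2 = ‖e‖ ^ 2 ∧
    ∀ p q : X d × ℝ, ⟪e, app p - app q⟫ = ⟪e', p.1 - q.1⟫ + c * (p.2 - q.2) := by
  refine ⟨WithLp.toLp 2 (fun i : Fin d => e i.succ), e 0, ?_, fun p q => ?_⟩
  · rw [EuclideanSpace.norm_sq_eq, EuclideanSpace.norm_sq_eq, Fin.sum_univ_succ]
    simp only [Real.norm_eq_abs, sq_abs]
    ring
  · rw [PiLp.inner_apply, PiLp.inner_apply, Fin.sum_univ_succ]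
    simp only [PiLp.sub_apply, PrdA_zero, PrdA_succ, RCLike.inner_apply, conj_trivial]
    ring

theorem prI_finite (μ : Measure (X d)) [IsFiniteMeasure μ] : IsFiniteMeasure (prI μ) := by
  have : IsFiniteMeasure (volume.restrict (Icc (0 : ℝ) 1)) := by
    refine ⟨?_⟩
    rw [Measure.restrict_apply_univ, Real.volume_Icc]
    exact ENNReal.ofReal_lt_top
  unfold prI
  exact Measure.isFiniteMeasure_map _ _

theorem prI_growth {n : ℕ} {μ : Measure (X d)} [IsFiniteMeasure μ] {C₀ : ℝ} (hC₀ : 0 ≤ C₀)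
    (hg : Gr n C₀ μ) : Gr (n + 1) (2 * C₀) (prI μ) := by
  have : IsFiniteMeasure (volume.restrict (Icc (0 : ℝ) 1)) := by
    refine ⟨?_⟩
    rw [Measure.restrict_apply_univ, Real.volume_Icc]
    exact ENNReal.ofReal_lt_top
  intro x r hr
  obtain ⟨q, rfl⟩ := app_surjective x
  unfold prI
  rw [Measure.map_apply app_continuous.measurable isClosed_closedBall.measurableSet]
  have hsub : app ⁻¹' closedBall (app q) r ⊆ closedBall q.1 r ×ˢ closedBall q.2 r := by
    intro p hp
    rw [mem_preimage, mem_closedBall, dist_eq_norm] at hp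
    have h1 := app_norm p q
    have h2 : ‖app p - app q‖ ^ 2 ≤ r ^ 2 := pow_le_pow_left₀ (norm_nonneg _) hp 2
    rw [mem_prod, mem_closedBall, mem_closedBall, dist_eq_norm, Real.dist_eq]
    constructor
    · refine abs_le_of_sq_le_sq' ?_ hr.le |>.2
      nlinarith [sq_nonneg (p.2 - q.2)]
    · refine abs_le_of_sq_le_sq ?_ hr.le
      nlinarith [sq_nonneg ‖p.1 - q.1‖]
  calc (μ.prod (volume.restrict (Icc (0 : ℝ) 1))) (app ⁻¹' closedBall (app q) r)
      ≤ (μ.prod (volume.restrict (Icc (0 : ℝ) 1))) (closedBall q.1 r ×ˢ closedBall q.2 r) := measure_mono hsub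
    _ = μ (closedBall q.1 r) * (volume.restrict (Icc (0 : ℝ) 1)) (closedBall q.2 r) := Measure.prod_prod _ _
    _ ≤ ENNReal.ofReal (C₀ * r ^ n) * ENNReal.ofReal (2 * r) := by
        refine mul_le_mul' (hg q.1 r hr) ?_
        refine (Measure.restrict_apply_le _ _).trans ?_
        rw [Real.volume_closedBall]
    _ = ENNReal.ofReal (2 * C₀ * r ^ (n + 1)) := by
        rw [← ENNReal.ofReal_mul (by positivity)]
        congr 1
        ring

end Pool.Agent.H1.LD
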