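import Pool.Agent.H1.LD.Gau
import Pool.Agent.RZ.Bl1

/-!
The square function for dimension three: definitions.
-/

set_option autoImplicit false

open MeasureTheory Filter Topology Metric Set
open scoped RealInnerProductSpace ENNReal

namespace Pool.Agent.H1.LD

open Pool.Agent.RZ

variable {d : ℕ}

/-- `∫ (x - z) |x - z|^{-4} E_z [exp (-β |x - Y|^2)] dμ(x)`, with the Euler operator `E_z` -/
noncomputable def Kz (μ : Measure (X d)) (z : X d) (β : ℝ) (Y : X d) : X d :=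
  ∫ x, (‖x - z‖⁻¹ ^ 4 * (-(2 * β) * ⟪x - z, x - Y⟫) * ga β (x - Y)) • (x - z) ∂μ

/-- the square function -/
noncomputable def Qz (μ : Measure (X d)) (z : X d) (t : ℝ) : ℝ≥0∞ :=
  ENNReal.ofReal ((t ^ d * gc d 4)⁻¹) * ∫⁻ Y, ‖Kz μ z (2 / t ^ 2) Y‖ₑ ^ 2

end Pool.Agent.H1.LD
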