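import Pool.Agent.H1.LD.EigA

/-!
Dt_eq.  Write g = ga (1/2)(x-y), g' = ga (1/2)(x'-y), v = x-y, v' = x'-y, p = ⟪v,v'⟫, ψ = ga b (y-z₀), θ = th ν (1/2) y, U = Uv ν (1/2) y.
For fixed y: ∫∫ g g' (…): θ^2 = ∬ g g', |U|^2 = ∬ g g' p, θ M2 = ∬ g g'|v|^2, ⟪U,M3⟫ = ∬ g g' p |v|^2, ⟪v,Hv ν y v⟫ = ∫ g'(p^2 - |v|^2) dν(x') (Hv_inner), and
 ∫_x Tx = ∫_x∫_y = ∫_y∫_x (Fubini, everything is bounded and ν is finite: |y-z₀| ga b (y-z₀) bounded since b > 0)
        = ∫_y ψ [ (n+1)|U|^2 - ⟪M3,U⟫ + 2b⟪y-z₀,NU⟫ - (∬ g g' p^2 - θ M2) ].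
 Ef = 2θ M2 - nθ^2 - ∬ g g' p^2.
So ψ Ef - [..] + 2bψ⟪y-z₀,NU⟫ = ψ (θ M2 - nθ^2 + ⟪U,M3⟫ - (n+1)|U|^2), which is the integrand of Dt.
-/

set_option autoImplicit false

open MeasureTheory Filter Topology Metric Set
open scoped RealInnerProductSpace ENNReal

namespace Pool.Agent.H1.LD

open Pool.Agent.RZ

variable {d : ℕ}

/-- the second moment form applied to the first moment -/
noncomputable def NU (ν : Measure (X d)) (y : X d) : X d :=
  ∫ x, (ga (1 / 2) (x - y) * ⟪x - y, Uv ν (1 / 2) y⟫) • (x - y) ∂ν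

private theorem Sid_bd (d m : ℕ) {b : ℝ} (hb : 0 < b) : ∃ C : ℝ, 0 < C ∧ ∀ v : X d, ∀ k ≤ m,
    ga b v * ‖v‖ ^ k ≤ C := by
  obtain ⟨C, hC, h⟩ := poly_ga d m (b := b) (b' := 0) hb
  refine ⟨C, hC, fun v k hk => ?_⟩
  have h0 : ga 0 v = 1 := by simp [ga]
  have h1 := h v
  rw [h0, mul_one] at h1
  have hv := norm_nonneg v
  have h2 : ‖v‖ ^ k ≤ (1 + ‖v‖) ^ m :=
    (pow_le_pow_left₀ hv (by linarith) k).trans (pow_le_pow_right₀ (by linarith) hk)
  calc ga b v * ‖v‖ ^ k ≤ ga b v * (1 + ‖v‖) ^ m := mul_le_mul_of_nonneg_left h2 (ga_nonneg _ _)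
    _ = (1 + ‖v‖) ^ m * ga b v := mul_comm _ _
    _ ≤ C := h1

private theorem Sid_int1 {E : Type*} [NormedAddCommGroup E] [NormedSpace ℝ E] (ν : Measure (X d))
    [IsFiniteMeasure ν] {f : X d → E} (hc : Continuous f) {C : ℝ} (hC : ∀ x, ‖f x‖ ≤ C) :
    Integrable f ν :=
  Integrable.of_bound hc.aestronglyMeasurable C (ae_of_all _ hC)

private theorem Sid_int2 (ν : Measure (X d)) [IsFiniteMeasure ν] {h : X d → X d → ℝ}
    (hc : Continuous fun p : X d × X d => h p.1 p.2) {C : ℝ} (hC : ∀ x y, |h x y| ≤ C) :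
    Integrable (Function.uncurry h) (ν.prod ν) :=
  Integrable.of_bound hc.aestronglyMeasurable C (ae_of_all _ fun p => hC p.1 p.2)

private theorem Sid_U (ν : Measure (X d)) [IsFiniteMeasure ν] :
    ∃ C : ℝ, 0 ≤ C ∧ ∀ y, ‖Uv ν (1 / 2) y‖ ≤ C := by
  obtain ⟨C, hC, h⟩ := Sid_bd d 1 (b := 1 / 2) (by norm_num)
  refine ⟨C * ν.real univ, by positivity, fun y => ?_⟩
  apply norm_integral_le_of_norm_le_const
  filter_upwards with x
  rw [norm_smul, Real.norm_eq_abs, abs_of_nonneg (ga_nonneg _ _)]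
  simpa using h (x - y) 1 le_rfl

private theorem Sid_H (ν : Measure (X d)) [IsFiniteMeasure ν] :
    ∃ C : ℝ, 0 ≤ C ∧ ∀ y a, ‖Hv ν y a‖ ≤ C * ‖a‖ := by
  obtain ⟨C, hC, h⟩ := Sid_bd d 2 (b := 1 / 2) (by norm_num)
  refine ⟨2 * C * ν.real univ, by positivity, fun y a => ?_⟩
  have h1 : ‖Hv ν y a‖ ≤ (2 * C * ‖a‖) * ν.real univ := by
    apply norm_integral_le_of_norm_le_const
    filter_upwards with x
    rw [norm_smul, Real.norm_eq_abs, abs_of_nonneg (ga_nonneg _ _)]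
    have h2 : ‖⟪x - y, a⟫ • (x - y) - a‖ ≤ (‖x - y‖ ^ 2 + 1) * ‖a‖ := by
      refine (norm_sub_le _ _).trans ?_
      rw [norm_smul, Real.norm_eq_abs]
      have h3 := abs_real_inner_le_norm (x - y) a
      have h4 := mul_le_mul_of_nonneg_right h3 (norm_nonneg (x - y))
      nlinarith
    have h5 := h (x - y) 2 le_rfl
    have h6 := h (x - y) 0 (by norm_num)
    rw [pow_zero, mul_one] at h6
    have h7 := mul_le_mul_of_nonneg_left h2 (ga_nonneg (1 / 2) (x - y))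
    have h8 : ga (1 / 2) (x - y) * ((‖x - y‖ ^ 2 + 1) * ‖a‖) ≤ 2 * C * ‖a‖ := by
      have h9 : ga (1 / 2) (x - y) * (‖x - y‖ ^ 2 + 1) ≤ 2 * C := by linarith
      calc ga (1 / 2) (x - y) * ((‖x - y‖ ^ 2 + 1) * ‖a‖)
          = ga (1 / 2) (x - y) * (‖x - y‖ ^ 2 + 1) * ‖a‖ := by ring
        _ ≤ 2 * C * ‖a‖ := mul_le_mul_of_nonneg_right h9 (norm_nonneg _)
    exact h7.trans h8
  calc ‖Hv ν y a‖ ≤ (2 * C * ‖a‖) * ν.real univ := h1
    _ = 2 * C * ν.real univ * ‖a‖ := by ring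

/-- the diagonal of the Hessian, integrated -/
private noncomputable def SidE (ν : Measure (X d)) (y : X d) : ℝ :=
  ∫ x, ga (1 / 2) (x - y) * ⟪x - y, Hv ν y (x - y)⟫ ∂ν

private theorem Sid_cg (y : X d) : Continuous fun x : X d => ga (1 / 2) (x - y) :=
  (ga_continuous _).comp (continuous_id.sub continuous_const)

private theorem Sid_cv (y : X d) : Continuous fun x : X d => x - y := continuous_id.sub continuous_const

private theorem Sid_ig (ν : Measure (X d)) [IsFiniteMeasure ν] (y : X d) :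
    Integrable (fun x => ga (1 / 2) (x - y)) ν := by
  obtain ⟨C, hC, h⟩ := Sid_bd d 0 (b := 1 / 2) (by norm_num)
  refine Sid_int1 ν (Sid_cg y) (C := C) fun x => ?_
  rw [Real.norm_eq_abs, abs_of_nonneg (ga_nonneg _ _)]
  simpa using h (x - y) 0 le_rfl

private theorem Sid_ig2 (ν : Measure (X d)) [IsFiniteMeasure ν] (y : X d) :
    Integrable (fun x => ga (1 / 2) (x - y) * ‖x - y‖ ^ 2) ν := by
  obtain ⟨C, hC, h⟩ := Sid_bd d 2 (b := 1 / 2) (by norm_num)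
  have c2 : Continuous fun x : X d => ga (1 / 2) (x - y) * ‖x - y‖ ^ 2 :=
    (Sid_cg y).mul ((Sid_cv y).norm.pow 2)
  refine Sid_int1 ν c2 (C := C) fun x => ?_
  rw [Real.norm_eq_abs, abs_of_nonneg (mul_nonneg (ga_nonneg _ _) (sq_nonneg _))]
  exact h (x - y) 2 le_rfl

private theorem Sid_igi (ν : Measure (X d)) [IsFiniteMeasure ν] (y a : X d) :
    Integrable (fun x => ga (1 / 2) (x - y) * ⟪a, x - y⟫ ^ 2) ν := by
  obtain ⟨C, hC, h⟩ := Sid_bd d 2 (b := 1 / 2) (by norm_num)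
  have c1 : Continuous fun x : X d => ⟪a, x - y⟫ := Continuous.inner continuous_const (Sid_cv y)
  have c2 : Continuous fun x : X d => ga (1 / 2) (x - y) * ⟪a, x - y⟫ ^ 2 :=
    (Sid_cg y).mul (c1.pow 2)
  refine Sid_int1 ν c2 (C := ‖a‖ ^ 2 * C) fun x => ?_
  rw [Real.norm_eq_abs, abs_of_nonneg (mul_nonneg (ga_nonneg _ _) (sq_nonneg _))]
  have h1 := abs_real_inner_le_norm a (x - y)
  have h2 : ⟪a, x - y⟫ ^ 2 ≤ (‖a‖ * ‖x - y‖) ^ 2 := by
    rw [← sq_abs]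
    exact pow_le_pow_left₀ (abs_nonneg _) h1 2
  calc ga (1 / 2) (x - y) * ⟪a, x - y⟫ ^ 2 ≤ ga (1 / 2) (x - y) * (‖a‖ * ‖x - y‖) ^ 2 :=
        mul_le_mul_of_nonneg_left h2 (ga_nonneg _ _)
    _ = ‖a‖ ^ 2 * (ga (1 / 2) (x - y) * ‖x - y‖ ^ 2) := by ring
    _ ≤ ‖a‖ ^ 2 * C := mul_le_mul_of_nonneg_left (h (x - y) 2 le_rfl) (by positivity)

private theorem Sid_cH1 (ν : Measure (X d)) [IsFiniteMeasure ν] (y : X d) :
    Continuous fun x : X d => Hv ν y (x - y) := by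
  have h1 : Continuous fun x : X d => ((y, x - y) : X d × X d) :=
    continuous_const.prodMk (continuous_id.sub continuous_const)
  have h2 : Continuous fun p : X d × X d => Hv ν p.1 p.2 := Hv_continuous ν
  generalize Hv ν = H at h2 ⊢
  exact h2.comp h1

private theorem Sid_cH2 (ν : Measure (X d)) [IsFiniteMeasure ν] :
    Continuous fun p : X d × X d => Hv ν p.2 (p.1 - p.2) := by
  have h1 : Continuous fun p : X d × X d => ((p.2, p.1 - p.2) : X d × X d) :=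
    continuous_snd.prodMk (continuous_fst.sub continuous_snd)
  have h2 : Continuous fun p : X d × X d => Hv ν p.1 p.2 := Hv_continuous ν
  generalize Hv ν = H at h2 ⊢
  exact h2.comp h1

private theorem Sid_iH (ν : Measure (X d)) [IsFiniteMeasure ν] (y : X d) :
    Integrable (fun x => ga (1 / 2) (x - y) * ⟪x - y, Hv ν y (x - y)⟫) ν := by
  obtain ⟨C, hC, h⟩ := Sid_bd d 2 (b := 1 / 2) (by norm_num)
  obtain ⟨K, hK, hH⟩ := Sid_H ν
  have cH : Continuous fun x : X d => Hv ν y (x - y) := Sid_cH1 ν y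
  have c2 : Continuous fun x : X d => ga (1 / 2) (x - y) * ⟪x - y, Hv ν y (x - y)⟫ :=
    (Sid_cg y).mul (Continuous.inner (Sid_cv y) cH)
  refine Sid_int1 ν c2 (C := K * C) fun x => ?_
  rw [norm_mul, Real.norm_eq_abs, abs_of_nonneg (ga_nonneg _ _), Real.norm_eq_abs]
  have h1 := abs_real_inner_le_norm (x - y) (Hv ν y (x - y))
  have h2 := mul_le_mul_of_nonneg_left (hH y (x - y)) (norm_nonneg (x - y))
  have h3 : |⟪x - y, Hv ν y (x - y)⟫| ≤ K * ‖x - y‖ ^ 2 := by nlinarith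
  calc ga (1 / 2) (x - y) * |⟪x - y, Hv ν y (x - y)⟫| ≤ ga (1 / 2) (x - y) * (K * ‖x - y‖ ^ 2) :=
        mul_le_mul_of_nonneg_left h3 (ga_nonneg _ _)
    _ = K * (ga (1 / 2) (x - y) * ‖x - y‖ ^ 2) := by ring
    _ ≤ K * C := mul_le_mul_of_nonneg_left (h (x - y) 2 le_rfl) hK

private theorem Sid_Ef (n : ℕ) (ν : Measure (X d)) [IsFiniteMeasure ν] (y : X d) :
    Ef n ν y = th ν (1 / 2) y * M2 ν y - n * th ν (1 / 2) y ^ 2 - SidE ν y := by
  have h1 : ∀ x, ∫ x', (‖x - y‖ ^ 2 + ‖x' - y‖ ^ 2 - n - ⟪x - y, x' - y⟫ ^ 2) *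
      (ga (1 / 2) (x - y) * ga (1 / 2) (x' - y)) ∂ν =
      M2 ν y * ga (1 / 2) (x - y) - n * th ν (1 / 2) y * ga (1 / 2) (x - y)
        - ga (1 / 2) (x - y) * ⟪x - y, Hv ν y (x - y)⟫ := by
    intro x
    have hH : ⟪x - y, Hv ν y (x - y)⟫ =
        ∫ x', (ga (1 / 2) (x' - y) * ⟪x - y, x' - y⟫ ^ 2 - ‖x - y‖ ^ 2 * ga (1 / 2) (x' - y)) ∂ν := by
      rw [real_inner_comm, Hv_inner]
      apply integral_congr_ae
      filter_upwards with x'
      rw [real_inner_self_eq_norm_sq, real_inner_comm (x' - y) (x - y)]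
      ring
    rw [integral_sub (Sid_igi ν y (x - y)) ((Sid_ig ν y).const_mul _), integral_const_mul] at hH
    have h2 : (fun x' => (‖x - y‖ ^ 2 + ‖x' - y‖ ^ 2 - n - ⟪x - y, x' - y⟫ ^ 2) *
        (ga (1 / 2) (x - y) * ga (1 / 2) (x' - y))) =
        fun x' => ga (1 / 2) (x - y) * (((‖x - y‖ ^ 2 - n) * ga (1 / 2) (x' - y)
          + ga (1 / 2) (x' - y) * ‖x' - y‖ ^ 2) - ga (1 / 2) (x' - y) * ⟪x - y, x' - y⟫ ^ 2) := by
      funext x'
      ring
    have i1 : Integrable (fun x' => (‖x - y‖ ^ 2 - n) * ga (1 / 2) (x' - y)) ν :=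
      (Sid_ig ν y).const_mul _
    have i2 : Integrable (fun x' => (‖x - y‖ ^ 2 - n) * ga (1 / 2) (x' - y)
        + ga (1 / 2) (x' - y) * ‖x' - y‖ ^ 2) ν := i1.add (Sid_ig2 ν y)
    rw [h2, integral_const_mul, integral_sub i2 (Sid_igi ν y (x - y)), integral_add i1 (Sid_ig2 ν y),
      integral_const_mul]
    have e1 : ∫ x', ga (1 / 2) (x' - y) ∂ν = th ν (1 / 2) y := rfl
    have e2 : ∫ x', ga (1 / 2) (x' - y) * ‖x' - y‖ ^ 2 ∂ν = M2 ν y := rfl
    rw [e1] at hH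
    rw [e1, e2]
    have e3 : ∫ x', ga (1 / 2) (x' - y) * ⟪x - y, x' - y⟫ ^ 2 ∂ν =
        ⟪x - y, Hv ν y (x - y)⟫ + ‖x - y‖ ^ 2 * th ν (1 / 2) y := by linarith
    rw [e3]
    ring
  have h2 : Ef n ν y = ∫ x, (M2 ν y * ga (1 / 2) (x - y) - n * th ν (1 / 2) y * ga (1 / 2) (x - y)
        - ga (1 / 2) (x - y) * ⟪x - y, Hv ν y (x - y)⟫) ∂ν := integral_congr_ae (ae_of_all _ h1)
  have i1 : Integrable (fun x => M2 ν y * ga (1 / 2) (x - y)) ν := (Sid_ig ν y).const_mul _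
  have i2 : Integrable (fun x => n * th ν (1 / 2) y * ga (1 / 2) (x - y)) ν :=
    (Sid_ig ν y).const_mul _
  have i3 : Integrable (fun x => M2 ν y * ga (1 / 2) (x - y)
      - n * th ν (1 / 2) y * ga (1 / 2) (x - y)) ν := i1.sub i2
  rw [h2, integral_sub i3 (Sid_iH ν y), integral_sub i1 i2, integral_const_mul, integral_const_mul]
  have e1 : ∫ x', ga (1 / 2) (x' - y) ∂ν = th ν (1 / 2) y := rfl
  rw [e1]
  unfold SidE
  ring

private theorem Sid_M3 (ν : Measure (X d)) [IsFiniteMeasure ν] (y a : X d) :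
    ⟪a, M3 ν y⟫ = ∫ x, ga (1 / 2) (x - y) * ‖x - y‖ ^ 2 * ⟪x - y, a⟫ ∂ν := by
  obtain ⟨C, hC, h⟩ := Sid_bd d 3 (b := 1 / 2) (by norm_num)
  have hi : Integrable (fun x => (ga (1 / 2) (x - y) * ‖x - y‖ ^ 2) • (x - y)) ν := by
    have c2 : Continuous fun x : X d => (ga (1 / 2) (x - y) * ‖x - y‖ ^ 2) • (x - y) :=
      ((Sid_cg y).mul ((Sid_cv y).norm.pow 2)).smul (Sid_cv y)
    refine Sid_int1 ν c2 (C := C) fun x => ?_
    rw [norm_smul, Real.norm_eq_abs, abs_of_nonneg (mul_nonneg (ga_nonneg _ _) (sq_nonneg _))]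
    have := h (x - y) 3 le_rfl
    calc ga (1 / 2) (x - y) * ‖x - y‖ ^ 2 * ‖x - y‖ = ga (1 / 2) (x - y) * ‖x - y‖ ^ 3 := by ring
      _ ≤ C := this
  unfold M3
  rw [← integral_inner hi]
  apply integral_congr_ae
  filter_upwards with x
  rw [real_inner_smul_right, real_inner_comm]

private theorem Sid_NU (ν : Measure (X d)) [IsFiniteMeasure ν] (y a : X d) :
    ⟪a, NU ν y⟫ = ∫ x, ga (1 / 2) (x - y) * ⟪x - y, Uv ν (1 / 2) y⟫ * ⟪x - y, a⟫ ∂ν := by
  obtain ⟨C, hC, h⟩ := Sid_bd d 2 (b := 1 / 2) (by norm_num)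
  have hi : Integrable (fun x => (ga (1 / 2) (x - y) * ⟪x - y, Uv ν (1 / 2) y⟫) • (x - y)) ν := by
    have c1 : Continuous fun x : X d => ⟪x - y, Uv ν (1 / 2) y⟫ :=
      Continuous.inner (Sid_cv y) continuous_const
    have c2 : Continuous fun x : X d => (ga (1 / 2) (x - y) * ⟪x - y, Uv ν (1 / 2) y⟫) • (x - y) :=
      ((Sid_cg y).mul c1).smul (Sid_cv y)
    refine Sid_int1 ν c2 (C := ‖Uv ν (1 / 2) y‖ * C) fun x => ?_
    rw [norm_smul, norm_mul, Real.norm_eq_abs, abs_of_nonneg (ga_nonneg _ _), Real.norm_eq_abs]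
    have h1 := abs_real_inner_le_norm (x - y) (Uv ν (1 / 2) y)
    have h2 := h (x - y) 2 le_rfl
    have h3 : ga (1 / 2) (x - y) * |⟪x - y, Uv ν (1 / 2) y⟫| * ‖x - y‖ ≤
        ga (1 / 2) (x - y) * (‖x - y‖ * ‖Uv ν (1 / 2) y‖) * ‖x - y‖ :=
      mul_le_mul_of_nonneg_right (mul_le_mul_of_nonneg_left h1 (ga_nonneg _ _)) (norm_nonneg _)
    calc ga (1 / 2) (x - y) * |⟪x - y, Uv ν (1 / 2) y⟫| * ‖x - y‖
        ≤ ga (1 / 2) (x - y) * (‖x - y‖ * ‖Uv ν (1 / 2) y‖) * ‖x - y‖ := h3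
      _ = ‖Uv ν (1 / 2) y‖ * (ga (1 / 2) (x - y) * ‖x - y‖ ^ 2) := by ring
      _ ≤ ‖Uv ν (1 / 2) y‖ * C := mul_le_mul_of_nonneg_left h2 (norm_nonneg _)
  unfold NU
  rw [← integral_inner hi]
  apply integral_congr_ae
  filter_upwards with x
  rw [real_inner_smul_right, real_inner_comm (x - y) a]

/-- the double integral kernels -/
private theorem Sid_prod (ν : Measure (X d)) [IsFiniteMeasure ν] {b : ℝ} (hb : 0 < b) (z₀ : X d) :
    Integrable (Function.uncurry fun x y => ga (1 / 2) (x - y) * (ga b (y - z₀) *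
      ⟪x - y, Uv ν (1 / 2) y⟫)) (ν.prod ν) ∧
    Integrable (Function.uncurry fun x y => ga (1 / 2) (x - y) * (ga b (y - z₀) *
      (‖x - y‖ ^ 2 * ⟪x - y, Uv ν (1 / 2) y⟫))) (ν.prod ν) ∧
    Integrable (Function.uncurry fun x y => ga (1 / 2) (x - y) * (ga b (y - z₀) *
      (⟪x - y, y - z₀⟫ * ⟪x - y, Uv ν (1 / 2) y⟫))) (ν.prod ν) ∧
    Integrable (Function.uncurry fun x y => ga (1 / 2) (x - y) * (ga b (y - z₀) *
      ⟪x - y, Hv ν y (x - y)⟫)) (ν.prod ν) ∧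
    Integrable (Function.uncurry fun x y => ga (1 / 2) (x - y) * (ga b (y - z₀) *
      (‖x - y‖ ^ 2 * th ν (1 / 2) y))) (ν.prod ν) := by
  obtain ⟨C, hC, h⟩ := Sid_bd d 3 (b := 1 / 2) (by norm_num)
  obtain ⟨D, hD, hψ⟩ := Sid_bd d 1 (b := b) hb
  obtain ⟨K, hK, hH⟩ := Sid_H ν
  obtain ⟨L, hL, hU⟩ := Sid_U ν
  have cv : Continuous fun p : X d × X d => p.1 - p.2 := continuous_fst.sub continuous_snd
  have cw : Continuous fun p : X d × X d => p.2 - z₀ := continuous_snd.sub continuous_const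
  have cg : Continuous fun p : X d × X d => ga (1 / 2) (p.1 - p.2) := (ga_continuous _).comp cv
  have cψ : Continuous fun p : X d × X d => ga b (p.2 - z₀) := (ga_continuous _).comp cw
  have cU : Continuous fun p : X d × X d => Uv ν (1 / 2) p.2 :=
    (Uv_continuous ν (by norm_num)).comp continuous_snd
  have cT : Continuous fun p : X d × X d => th ν (1 / 2) p.2 :=
    (th_continuous ν (by norm_num)).comp continuous_snd
  have cH : Continuous fun p : X d × X d => Hv ν p.2 (p.1 - p.2) := Sid_cH2 ν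
  -- general bound
  have key : ∀ (x y : X d) (r s : ℝ) (k l : ℕ), k ≤ 3 → l ≤ 1 → 0 ≤ s →
      |r| ≤ s * (‖x - y‖ ^ k * ‖y - z₀‖ ^ l) →
      |ga (1 / 2) (x - y) * (ga b (y - z₀) * r)| ≤ s * (C * D) := by
    intro x y r s k l hk hl hs hr
    have h1 := h (x - y) k hk
    have h2 := hψ (y - z₀) l hl
    have h3 := ga_nonneg (1 / 2) (x - y)
    have h4 := ga_nonneg b (y - z₀)
    rw [abs_mul, abs_mul, abs_of_nonneg h3, abs_of_nonneg h4]
    calc ga (1 / 2) (x - y) * (ga b (y - z₀) * |r|)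
        ≤ ga (1 / 2) (x - y) * (ga b (y - z₀) * (s * (‖x - y‖ ^ k * ‖y - z₀‖ ^ l))) := by gcongr
      _ = s * ((ga (1 / 2) (x - y) * ‖x - y‖ ^ k) * (ga b (y - z₀) * ‖y - z₀‖ ^ l)) := by ring
      _ ≤ s * (C * D) := by
          apply mul_le_mul_of_nonneg_left _ hs
          exact mul_le_mul h1 h2 (by positivity) hC.le
  have hvU : ∀ x y : X d, |⟪x - y, Uv ν (1 / 2) y⟫| ≤ L * ‖x - y‖ := by
    intro x y
    have h1 := abs_real_inner_le_norm (x - y) (Uv ν (1 / 2) y)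
    have h2 := mul_le_mul_of_nonneg_left (hU y) (norm_nonneg (x - y))
    linarith [mul_comm L ‖x - y‖]
  have k1 : Continuous fun p : X d × X d => ⟪p.1 - p.2, Uv ν (1 / 2) p.2⟫ := Continuous.inner cv cU
  have k2 : Continuous fun p : X d × X d => ‖p.1 - p.2‖ ^ 2 := cv.norm.pow 2
  have k3 : Continuous fun p : X d × X d => ⟪p.1 - p.2, p.2 - z₀⟫ := Continuous.inner cv cw
  have k4 : Continuous fun p : X d × X d => ⟪p.1 - p.2, Hv ν p.2 (p.1 - p.2)⟫ :=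
    Continuous.inner cv cH
  have m1 : Continuous fun p : X d × X d => ga (1 / 2) (p.1 - p.2) * (ga b (p.2 - z₀) *
      ⟪p.1 - p.2, Uv ν (1 / 2) p.2⟫) := cg.mul (cψ.mul k1)
  have m2 : Continuous fun p : X d × X d => ga (1 / 2) (p.1 - p.2) * (ga b (p.2 - z₀) *
      (‖p.1 - p.2‖ ^ 2 * ⟪p.1 - p.2, Uv ν (1 / 2) p.2⟫)) := cg.mul (cψ.mul (k2.mul k1))
  have m3 : Continuous fun p : X d × X d => ga (1 / 2) (p.1 - p.2) * (ga b (p.2 - z₀) *
      (⟪p.1 - p.2, p.2 - z₀⟫ * ⟪p.1 - p.2, Uv ν (1 / 2) p.2⟫)) := cg.mul (cψ.mul (k3.mul k1))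
  have m4 : Continuous fun p : X d × X d => ga (1 / 2) (p.1 - p.2) * (ga b (p.2 - z₀) *
      ⟪p.1 - p.2, Hv ν p.2 (p.1 - p.2)⟫) := cg.mul (cψ.mul k4)
  have m5 : Continuous fun p : X d × X d => ga (1 / 2) (p.1 - p.2) * (ga b (p.2 - z₀) *
      (‖p.1 - p.2‖ ^ 2 * th ν (1 / 2) p.2)) := cg.mul (cψ.mul (k2.mul cT))
  refine ⟨?_, ?_, ?_, ?_, ?_⟩
  · refine Sid_int2 ν m1 (C := L * (C * D)) fun x y => ?_
    refine key x y _ L 1 0 (by norm_num) (by norm_num) hL ?_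
    simpa using hvU x y
  · refine Sid_int2 ν m2 (C := L * (C * D)) fun x y => ?_
    refine key x y _ L 3 0 (by norm_num) (by norm_num) hL ?_
    rw [abs_mul, abs_of_nonneg (by positivity : (0 : ℝ) ≤ ‖x - y‖ ^ 2), pow_zero, mul_one]
    calc ‖x - y‖ ^ 2 * |⟪x - y, Uv ν (1 / 2) y⟫| ≤ ‖x - y‖ ^ 2 * (L * ‖x - y‖) :=
          mul_le_mul_of_nonneg_left (hvU x y) (by positivity)
      _ = L * ‖x - y‖ ^ 3 := by ring
  · refine Sid_int2 ν m3 (C := L * (C * D)) fun x y => ?_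
    refine key x y _ L 2 1 (by norm_num) (by norm_num) hL ?_
    rw [abs_mul]
    calc |⟪x - y, y - z₀⟫| * |⟪x - y, Uv ν (1 / 2) y⟫| ≤ (‖x - y‖ * ‖y - z₀‖) * (L * ‖x - y‖) :=
          mul_le_mul (abs_real_inner_le_norm _ _) (hvU x y) (abs_nonneg _) (by positivity)
      _ = L * (‖x - y‖ ^ 2 * ‖y - z₀‖ ^ 1) := by ring
  · refine Sid_int2 ν m4 (C := K * (C * D)) fun x y => ?_
    refine key x y _ K 2 0 (by norm_num) (by norm_num) hK ?_
    rw [pow_zero, mul_one]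
    have h1 := abs_real_inner_le_norm (x - y) (Hv ν y (x - y))
    have h2 := mul_le_mul_of_nonneg_left (hH y (x - y)) (norm_nonneg (x - y))
    nlinarith
  · refine Sid_int2 ν m5 (C := C * ν.real univ * (C * D)) fun x y => ?_
    refine key x y _ (C * ν.real univ) 2 0 (by norm_num) (by norm_num) (by positivity) ?_
    have h1 : |th ν (1 / 2) y| ≤ C * ν.real univ := by
      rw [← Real.norm_eq_abs]
      apply norm_integral_le_of_norm_le_const
      filter_upwards with x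
      rw [Real.norm_eq_abs, abs_of_nonneg (ga_nonneg _ _)]
      simpa using h (x - y) 0 (by norm_num)
    rw [abs_mul, abs_of_nonneg (by positivity : (0 : ℝ) ≤ ‖x - y‖ ^ 2), pow_zero, mul_one]
    calc ‖x - y‖ ^ 2 * |th ν (1 / 2) y| ≤ ‖x - y‖ ^ 2 * (C * ν.real univ) :=
          mul_le_mul_of_nonneg_left h1 (by positivity)
      _ = C * ν.real univ * ‖x - y‖ ^ 2 := by ring

theorem Dt_eq (n : ℕ) (ν : Measure (X d)) [IsFiniteMeasure ν] {b : ℝ} (hb : 0 < b) (z₀ : X d) :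
    Dt n ν b z₀ = ∫ y, ga b (y - z₀) * Ef n ν y ∂ν - ∫ x, Tx n ν b z₀ x ∂ν
      + 2 * b * ∫ y, ga b (y - z₀) * ⟪y - z₀, NU ν y⟫ ∂ν := by
  obtain ⟨hA, hB, hD, hE, hT⟩ := Sid_prod ν hb z₀
  -- the kernel of `Tx`
  set F : X d → X d → ℝ := fun x y => ga (1 / 2) (x - y) * (ga b (y - z₀) *
    ((n + 1 - ‖x - y‖ ^ 2 + 2 * b * ⟪x - y, y - z₀⟫) * ⟪x - y, Uv ν (1 / 2) y⟫
      - ⟪x - y, Hv ν y (x - y)⟫)) with hFdef
  have hFeq : Function.uncurry F = fun p : X d × X d =>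
      (((n + 1 : ℝ) * Function.uncurry (fun x y => ga (1 / 2) (x - y) * (ga b (y - z₀) *
        ⟪x - y, Uv ν (1 / 2) y⟫)) p - Function.uncurry (fun x y => ga (1 / 2) (x - y) * (ga b (y - z₀) *
      (‖x - y‖ ^ 2 * ⟪x - y, Uv ν (1 / 2) y⟫))) p) +
      2 * b * Function.uncurry (fun x y => ga (1 / 2) (x - y) * (ga b (y - z₀) *
      (⟪x - y, y - z₀⟫ * ⟪x - y, Uv ν (1 / 2) y⟫))) p) -
      Function.uncurry (fun x y => ga (1 / 2) (x - y) * (ga b (y - z₀) *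
      ⟪x - y, Hv ν y (x - y)⟫)) p := by
    funext p
    simp only [Function.uncurry, hFdef]
    ring
  have hF : Integrable (Function.uncurry F) (ν.prod ν) := by
    rw [hFeq]
    exact (((hA.const_mul _).sub hB).add (hD.const_mul _)).sub hE
  have hswap : ∫ x, Tx n ν b z₀ x ∂ν = ∫ y, ∫ x, F x y ∂ν ∂ν := by
    have h1 : ∫ x, Tx n ν b z₀ x ∂ν = ∫ x, ∫ y, F x y ∂ν ∂ν := rfl
    rw [h1]
    exact integral_integral_swap hF
  -- the integrals over `x`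
  have hA' : ∀ y, ∫ x, ga (1 / 2) (x - y) * (ga b (y - z₀) * ⟪x - y, Uv ν (1 / 2) y⟫) ∂ν =
      ga b (y - z₀) * ‖Uv ν (1 / 2) y‖ ^ 2 := by
    intro y
    rw [← real_inner_self_eq_norm_sq, Uv_inner ν (by norm_num), ← integral_const_mul]
    apply integral_congr_ae
    filter_upwards with x
    ring
  have hB' : ∀ y, ∫ x, ga (1 / 2) (x - y) * (ga b (y - z₀) *
      (‖x - y‖ ^ 2 * ⟪x - y, Uv ν (1 / 2) y⟫)) ∂ν = ga b (y - z₀) * ⟪Uv ν (1 / 2) y, M3 ν y⟫ := by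
    intro y
    rw [Sid_M3, ← integral_const_mul]
    apply integral_congr_ae
    filter_upwards with x
    ring
  have hD' : ∀ y, ∫ x, ga (1 / 2) (x - y) * (ga b (y - z₀) *
      (⟪x - y, y - z₀⟫ * ⟪x - y, Uv ν (1 / 2) y⟫)) ∂ν = ga b (y - z₀) * ⟪y - z₀, NU ν y⟫ := by
    intro y
    rw [Sid_NU, ← integral_const_mul]
    apply integral_congr_ae
    filter_upwards with x
    ring
  have hE' : ∀ y, ∫ x, ga (1 / 2) (x - y) * (ga b (y - z₀) *
      ⟪x - y, Hv ν y (x - y)⟫) ∂ν = ga b (y - z₀) * SidE ν y := by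
    intro y
    unfold SidE
    rw [← integral_const_mul]
    apply integral_congr_ae
    filter_upwards with x
    ring
  have hT' : ∀ y, ∫ x, ga (1 / 2) (x - y) * (ga b (y - z₀) *
      (‖x - y‖ ^ 2 * th ν (1 / 2) y)) ∂ν = ga b (y - z₀) * (th ν (1 / 2) y * M2 ν y) := by
    intro y
    have h1 : ga b (y - z₀) * (th ν (1 / 2) y * M2 ν y) =
        (ga b (y - z₀) * th ν (1 / 2) y) * ∫ x, ga (1 / 2) (x - y) * ‖x - y‖ ^ 2 ∂ν := by
      unfold M2
      ring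
    rw [h1, ← integral_const_mul]
    apply integral_congr_ae
    filter_upwards with x
    ring
  -- integrability over `y`
  have iA : Integrable (fun y => ga b (y - z₀) * ‖Uv ν (1 / 2) y‖ ^ 2) ν := by
    have := hA.integral_prod_right
    refine this.congr (ae_of_all _ fun y => ?_)
    exact hA' y
  have iB : Integrable (fun y => ga b (y - z₀) * ⟪Uv ν (1 / 2) y, M3 ν y⟫) ν := by
    have := hB.integral_prod_right
    refine this.congr (ae_of_all _ fun y => ?_)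
    exact hB' y
  have iD : Integrable (fun y => ga b (y - z₀) * ⟪y - z₀, NU ν y⟫) ν := by
    have := hD.integral_prod_right
    refine this.congr (ae_of_all _ fun y => ?_)
    exact hD' y
  have iE : Integrable (fun y => ga b (y - z₀) * SidE ν y) ν := by
    have := hE.integral_prod_right
    refine this.congr (ae_of_all _ fun y => ?_)
    exact hE' y
  have iT : Integrable (fun y => ga b (y - z₀) * (th ν (1 / 2) y * M2 ν y)) ν := by
    have := hT.integral_prod_right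
    refine this.congr (ae_of_all _ fun y => ?_)
    exact hT' y
  have iN : Integrable (fun y => ga b (y - z₀) * th ν (1 / 2) y ^ 2) ν := by
    obtain ⟨C, hC, h⟩ := Sid_bd d 0 (b := 1 / 2) (by norm_num)
    have h1 : ∀ y, |th ν (1 / 2) y| ≤ C * ν.real univ := by
      intro y
      rw [← Real.norm_eq_abs]
      apply norm_integral_le_of_norm_le_const
      filter_upwards with x
      rw [Real.norm_eq_abs, abs_of_nonneg (ga_nonneg _ _)]
      simpa using h (x - y) 0 (by norm_num)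
    have c1 : Continuous fun y : X d => ga b (y - z₀) :=
      (ga_continuous b).comp (continuous_id.sub continuous_const)
    have c2 : Continuous fun y : X d => ga b (y - z₀) * th ν (1 / 2) y ^ 2 :=
      c1.mul ((th_continuous ν (by norm_num)).pow 2)
    refine Sid_int1 ν c2 (C := (C * ν.real univ) ^ 2) fun y => ?_
    rw [Real.norm_eq_abs, abs_of_nonneg (mul_nonneg (ga_nonneg _ _) (sq_nonneg _))]
    have h2 : th ν (1 / 2) y ^ 2 ≤ (C * ν.real univ) ^ 2 := by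
      rw [← sq_abs]
      exact pow_le_pow_left₀ (abs_nonneg _) (h1 y) 2
    calc ga b (y - z₀) * th ν (1 / 2) y ^ 2 ≤ 1 * th ν (1 / 2) y ^ 2 :=
          mul_le_mul_of_nonneg_right (ga_le_one hb.le _) (by positivity)
      _ ≤ (C * ν.real univ) ^ 2 := by rwa [one_mul]
  have iEf : Integrable (fun y => ga b (y - z₀) * Ef n ν y) ν := by
    have h1 := (iT.sub (iN.const_mul (n : ℝ))).sub iE
    refine h1.congr (ae_of_all _ fun y => ?_)
    simp only [Pi.sub_apply]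
    rw [Sid_Ef]
    ring
  -- the inner integral
  have hFy : ∀ᵐ y ∂ν, ∫ x, F x y ∂ν = (((n + 1 : ℝ) * (ga b (y - z₀) * ‖Uv ν (1 / 2) y‖ ^ 2)
      - ga b (y - z₀) * ⟪Uv ν (1 / 2) y, M3 ν y⟫) + 2 * b * (ga b (y - z₀) * ⟪y - z₀, NU ν y⟫))
      - ga b (y - z₀) * SidE ν y := by
    filter_upwards [hA.prod_left_ae, hB.prod_left_ae, hD.prod_left_ae, hE.prod_left_ae] with y yA yB yD yE
    rw [← hA' y, ← hB' y, ← hD' y, ← hE' y, ← integral_const_mul, ← integral_const_mul]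
    have yA' := yA.const_mul (n + 1 : ℝ)
    have yD' := yD.const_mul (2 * b)
    simp only [Function.uncurry_apply_pair] at yA' yB yD' yE
    have j1 : Integrable (fun x => (n + 1 : ℝ) * (ga (1 / 2) (x - y) * (ga b (y - z₀) *
        ⟪x - y, Uv ν (1 / 2) y⟫)) - ga (1 / 2) (x - y) * (ga b (y - z₀) *
        (‖x - y‖ ^ 2 * ⟪x - y, Uv ν (1 / 2) y⟫))) ν := yA'.sub yB
    have j2 : Integrable (fun x => (n + 1 : ℝ) * (ga (1 / 2) (x - y) * (ga b (y - z₀) *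
        ⟪x - y, Uv ν (1 / 2) y⟫)) - ga (1 / 2) (x - y) * (ga b (y - z₀) *
        (‖x - y‖ ^ 2 * ⟪x - y, Uv ν (1 / 2) y⟫)) + 2 * b * (ga (1 / 2) (x - y) * (ga b (y - z₀) *
      (⟪x - y, y - z₀⟫ * ⟪x - y, Uv ν (1 / 2) y⟫)))) ν := j1.add yD'
    rw [← integral_sub yA' yB, ← integral_add j1 yD', ← integral_sub j2 yE]
    apply integral_congr_ae
    filter_upwards with x
    simp only [hFdef]
    ring
  rw [hswap, integral_congr_ae hFy, ← integral_const_mul]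
  have iFy : Integrable (fun y => (((n + 1 : ℝ) * (ga b (y - z₀) * ‖Uv ν (1 / 2) y‖ ^ 2)
      - ga b (y - z₀) * ⟪Uv ν (1 / 2) y, M3 ν y⟫) + 2 * b * (ga b (y - z₀) * ⟪y - z₀, NU ν y⟫))
      - ga b (y - z₀) * SidE ν y) ν :=
    (((iA.const_mul (n + 1 : ℝ)).sub iB).add (iD.const_mul (2 * b))).sub iE
  have iG : Integrable (fun y => ga b (y - z₀) * Ef n ν y -
      ((((n + 1 : ℝ) * (ga b (y - z₀) * ‖Uv ν (1 / 2) y‖ ^ 2)
      - ga b (y - z₀) * ⟪Uv ν (1 / 2) y, M3 ν y⟫) + 2 * b * (ga b (y - z₀) * ⟪y - z₀, NU ν y⟫))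
      - ga b (y - z₀) * SidE ν y)) ν := iEf.sub iFy
  rw [← integral_sub iEf iFy, ← integral_add iG (iD.const_mul (2 * b))]
  unfold Dt
  apply integral_congr_ae
  filter_upwards with y
  rw [Sid_Ef]
  ring

end Pool.Agent.H1.LD
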