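import Pool.Agent.H1.LD.Dif
import Pool.Agent.H1.LD.Bnd
import Pool.Agent.H1.LD.Cov
import Pool.Agent.H1.LD.Gro

/-!
same_scale.  For a.e. y in S: |th y^2 + ‖U y‖^2 - th z₀^2| ≤ |th y - th z₀|(th y + th z₀) + ‖U y‖^2 ≤ 2C(C₀) C (1+|y-z₀|)^K (sqrt(D z₀)+sqrt(D y)) + C Yf y (th_diff, th_growth, U_bound).
 ∫ ga (1/2)(y-z₀)(1+|y-z₀|)^K sqrt(D z₀) ≤ C(C₀) sqrt(D z₀)  (mom_growth);
 ∫ ga (1/2)(1+..)^K sqrt(D y) ≤ C ∫ ga (1/4)(y-z₀) sqrt(D y) ≤ C sqrt(∫ ga (1/4)) sqrt(∫ ga (1/4) D) ≤ C' sqrt(Wm ν D (1/24) z₀);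
 ∫ ga (1/2) Yf ≤ ∫ ga (1/12) Yf ≤ C Wm ν D (1/24) z₀   (Y_int with b = 1/2).
-/

set_option autoImplicit false

open MeasureTheory Filter Topology Metric Set
open scoped RealInnerProductSpace ENNReal

namespace Pool.Agent.H1.LD

open Pool.Agent.RZ

variable {d : ℕ}

private theorem StaB_gaD {n K : ℕ} {ν : Measure (X d)} {S : Set (X d)} {D : X d → ℝ} (h : Sd n K ν S D)
    {b : ℝ} (hb : 0 ≤ b) (z₀ : X d) : Integrable (fun y => ga b (y - z₀) * D y) ν := by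
  refine h.int.mono' ?_ (Eventually.of_forall fun y => ?_)
  · exact (((ga_continuous b).comp (continuous_id.sub continuous_const)).measurable.mul h.meas).aestronglyMeasurable
  · rw [Real.norm_eq_abs, abs_mul, abs_of_nonneg (ga_nonneg _ _), abs_of_nonneg (h.nn y)]
    exact mul_le_of_le_one_left (h.nn y) (ga_le_one hb _)

private theorem StaB_sqrt {n K : ℕ} {ν : Measure (X d)} {S : Set (X d)} {D : X d → ℝ} (h : Sd n K ν S D)
    (z₀ : X d) {Cq : ℝ} (hq : ∫ y, ga (1 / 4) (y - z₀) ∂ν ≤ Cq) :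
    Integrable (fun y => ga (1 / 4) (y - z₀) * Real.sqrt (D y)) ν ∧
      ∫ y, ga (1 / 4) (y - z₀) * Real.sqrt (D y) ∂ν ≤ (Cq + 1) / 2 * Real.sqrt (Wm ν D (1 / 24) z₀) := by
  have := h.fin
  have hcont : Measurable (fun y : X d => ga (1 / 4) (y - z₀)) :=
    ((ga_continuous (1 / 4)).comp (continuous_id.sub continuous_const)).measurable
  have i0 : Integrable (fun y : X d => ga (1 / 4) (y - z₀)) ν := by
    refine (integrable_const (1 : ℝ)).mono' hcont.aestronglyMeasurable (Eventually.of_forall fun y => ?_)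
    rw [Real.norm_eq_abs, abs_of_nonneg (ga_nonneg _ _)]
    exact ga_le_one (by norm_num) _
  have i1 := StaB_gaD h (show (0 : ℝ) ≤ 1 / 4 by norm_num) z₀
  have i2 := StaB_gaD h (show (0 : ℝ) ≤ 1 / 24 by norm_num) z₀
  have hpt : ∀ s : ℝ, 0 < s → ∀ y, ga (1 / 4) (y - z₀) * Real.sqrt (D y) ≤
      s / 2 * ga (1 / 4) (y - z₀) + 1 / (2 * s) * (ga (1 / 4) (y - z₀) * D y) := by
    intro s hs y
    have h1 : Real.sqrt (D y) ≤ s / 2 + 1 / (2 * s) * D y := by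
      have h2 : Real.sqrt (D y) ^ 2 = D y := Real.sq_sqrt (h.nn y)
      have h3 : 0 ≤ (Real.sqrt (D y) - s) ^ 2 / (2 * s) := by positivity
      have h4 : (Real.sqrt (D y) - s) ^ 2 / (2 * s) = 1 / (2 * s) * D y + s / 2 - Real.sqrt (D y) := by
        rw [sub_sq, h2]
        field_simp
        ring
      linarith
    have h2 := mul_le_mul_of_nonneg_left h1 (ga_nonneg (1 / 4) (y - z₀))
    linarith
  have i3 : Integrable (fun y => ga (1 / 4) (y - z₀) * Real.sqrt (D y)) ν := by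
    refine ((i0.const_mul (1 / 2)).add (i1.const_mul (1 / (2 * 1)))).mono' ?_ (Eventually.of_forall fun y => ?_)
    · exact (hcont.mul h.meas.sqrt).aestronglyMeasurable
    · rw [Real.norm_eq_abs, abs_of_nonneg (mul_nonneg (ga_nonneg _ _) (Real.sqrt_nonneg _))]
      exact hpt 1 one_pos y
  refine ⟨i3, ?_⟩
  have hW : ∫ y, ga (1 / 4) (y - z₀) * D y ∂ν ≤ Wm ν D (1 / 24) z₀ := by
    unfold Wm
    refine integral_mono i1 i2 fun y => ?_
    exact mul_le_mul_of_nonneg_right (ga_anti (by norm_num) _) (h.nn y)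
  have hW0 : 0 ≤ Wm ν D (1 / 24) z₀ := by
    unfold Wm
    exact integral_nonneg fun y => mul_nonneg (ga_nonneg _ _) (h.nn y)
  have hs : ∀ s : ℝ, 0 < s → ∫ y, ga (1 / 4) (y - z₀) * Real.sqrt (D y) ∂ν ≤
      s / 2 * Cq + 1 / (2 * s) * Wm ν D (1 / 24) z₀ := by
    intro s hs
    have h1 : ∫ y, ga (1 / 4) (y - z₀) * Real.sqrt (D y) ∂ν ≤
        ∫ y, (s / 2 * ga (1 / 4) (y - z₀) + 1 / (2 * s) * (ga (1 / 4) (y - z₀) * D y)) ∂ν :=
      integral_mono i3 ((i0.const_mul _).add (i1.const_mul _)) (hpt s hs)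
    rw [integral_add (i0.const_mul _) (i1.const_mul _), integral_const_mul, integral_const_mul] at h1
    have h2 := mul_le_mul_of_nonneg_left hq (show 0 ≤ s / 2 by positivity)
    have h3 := mul_le_mul_of_nonneg_left hW (show 0 ≤ 1 / (2 * s) by positivity)
    linarith
  rcases hW0.lt_or_eq with hpos | hzero
  · have h1 := hs (Real.sqrt (Wm ν D (1 / 24) z₀)) (Real.sqrt_pos.2 hpos)
    have h2 : 1 / (2 * Real.sqrt (Wm ν D (1 / 24) z₀)) * Wm ν D (1 / 24) z₀ =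
        Real.sqrt (Wm ν D (1 / 24) z₀) / 2 := by
      have h3 := Real.sq_sqrt hpos.le
      have h4 := Real.sqrt_pos.2 hpos
      rw [div_mul_eq_mul_div, one_mul, div_eq_div_iff (by positivity) (by norm_num)]
      nlinarith
    rw [h2] at h1
    linarith
  · rw [← hzero, Real.sqrt_zero, mul_zero]
    have hCq : 0 ≤ Cq := (integral_nonneg fun y => ga_nonneg _ _).trans hq
    refine le_of_forall_pos_le_add fun ε hε => ?_
    have h1 := hs (2 * ε / (Cq + 1)) (by positivity)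
    rw [← hzero, mul_zero, add_zero] at h1
    have h2 : 2 * ε / (Cq + 1) / 2 * Cq ≤ ε := by
      rw [div_div, div_mul_eq_mul_div, div_le_iff₀ (by positivity)]
      nlinarith
    linarith

/-- the density and the energy density at comparable scales -/
theorem same_scale (d n K : ℕ) (C₀ : ℝ) (hC₀ : 0 ≤ C₀) : ∃ C : ℝ, 0 < C ∧ ∀ (ν : Measure (X d))
    (S : Set (X d)) (D : X d → ℝ), Gr n C₀ ν → Sd n K ν S D → ∀ z₀ ∈ S,
      ∫ y, ga (1 / 2) (y - z₀) * |th ν (1 / 2) y ^ 2 + ‖Uv ν (1 / 2) y‖ ^ 2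
        - th ν (1 / 2) z₀ ^ 2| ∂ν ≤
      C * (Real.sqrt (D z₀) + Real.sqrt (Wm ν D (1 / 24) z₀) + Wm ν D (1 / 24) z₀) := by
  obtain ⟨Cd, hCd, hd⟩ := th_diff d n K
  obtain ⟨CU, hCU, hU⟩ := U_bound d n K
  obtain ⟨CY, hCY, hY⟩ := Y_int d
  obtain ⟨Ct, hCt, ht⟩ := th_growth d n (show (0 : ℝ) < 1 / 2 by norm_num) C₀ hC₀
  obtain ⟨Cm, hCm, hm⟩ := mom_growth d n K (show (0 : ℝ) < 1 / 2 by norm_num) C₀ hC₀
  obtain ⟨Cq, hCq, hq⟩ := mom_growth d n 0 (show (0 : ℝ) < 1 / 4 by norm_num) C₀ hC₀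
  obtain ⟨Cp, hCp, hp⟩ := poly_ga d K (show (1 / 4 : ℝ) < 1 / 2 by norm_num)
  refine ⟨2 * Ct * Cd * Cm + 2 * Ct * Cd * Cp * ((Cq + 1) / 2) + CU * CY, by positivity, ?_⟩
  intro ν S D hGr hSd z₀ hz₀
  have := hSd.fin
  obtain ⟨im, hm'⟩ := hm ν hGr z₀
  have hq' : ∫ y, ga (1 / 4) (y - z₀) ∂ν ≤ Cq := by
    have h1 := (hq ν hGr z₀).2
    simp only [pow_zero, one_mul] at h1
    exact h1
  obtain ⟨is, hs⟩ := StaB_sqrt hSd z₀ hq'
  obtain ⟨iY, hY'⟩ := hY n K ν S D hSd (1 / 2) (by norm_num) le_rfl z₀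
  rw [show (1 / 2 / 6 : ℝ) = 1 / 12 by norm_num, show (1 / 2 / 12 : ℝ) = 1 / 24 by norm_num] at hY'
  rw [show (1 / 2 / 6 : ℝ) = 1 / 12 by norm_num] at iY
  have hW0 : 0 ≤ Wm ν D (1 / 24) z₀ := by
    unfold Wm
    exact integral_nonneg fun y => mul_nonneg (ga_nonneg _ _) (hSd.nn y)
  have hpt : ∀ y ∈ S, ga (1 / 2) (y - z₀) * |th ν (1 / 2) y ^ 2 + ‖Uv ν (1 / 2) y‖ ^ 2
      - th ν (1 / 2) z₀ ^ 2| ≤ (2 * Ct * Cd * Real.sqrt (D z₀)) * ((1 + ‖y - z₀‖) ^ K * ga (1 / 2) (y - z₀)) +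
        (2 * Ct * Cd * Cp) * (ga (1 / 4) (y - z₀) * Real.sqrt (D y)) + CU * (ga (1 / 12) (y - z₀) * Yf ν D y) := by
    intro y hy
    have h1 := hd ν S D hSd z₀ hz₀ y hy
    have h2 := hU ν S D hSd y hy
    have h3 := ht ν hGr y
    have h4 := ht ν hGr z₀
    have h5 : 0 ≤ th ν (1 / 2) y := integral_nonneg fun _ => ga_nonneg _ _
    have h6 : 0 ≤ th ν (1 / 2) z₀ := integral_nonneg fun _ => ga_nonneg _ _
    have h7 : |th ν (1 / 2) y ^ 2 + ‖Uv ν (1 / 2) y‖ ^ 2 - th ν (1 / 2) z₀ ^ 2| ≤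
        |th ν (1 / 2) y - th ν (1 / 2) z₀| * (2 * Ct) + CU * Yf ν D y := by
      have h8 : th ν (1 / 2) y ^ 2 + ‖Uv ν (1 / 2) y‖ ^ 2 - th ν (1 / 2) z₀ ^ 2 =
          (th ν (1 / 2) y - th ν (1 / 2) z₀) * (th ν (1 / 2) y + th ν (1 / 2) z₀) + ‖Uv ν (1 / 2) y‖ ^ 2 := by ring
      rw [h8]
      refine (abs_add_le _ _).trans ?_
      rw [abs_mul, abs_of_nonneg (add_nonneg h5 h6), abs_of_nonneg (sq_nonneg ‖Uv ν (1 / 2) y‖)]
      have h9 : |th ν (1 / 2) y - th ν (1 / 2) z₀| * (th ν (1 / 2) y + th ν (1 / 2) z₀) ≤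
          |th ν (1 / 2) y - th ν (1 / 2) z₀| * (2 * Ct) :=
        mul_le_mul_of_nonneg_left (by linarith) (abs_nonneg _)
      linarith
    have hg0 := ga_nonneg (1 / 2) (y - z₀)
    have hYf0 := Yf_nonneg hSd y
    have h10 : ga (1 / 2) (y - z₀) * (CU * Yf ν D y) ≤ CU * (ga (1 / 12) (y - z₀) * Yf ν D y) := by
      have h11 : ga (1 / 2) (y - z₀) ≤ ga (1 / 12) (y - z₀) := ga_anti (by norm_num) _
      have h12 := mul_le_mul_of_nonneg_right h11 (mul_nonneg hCU.le hYf0)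
      linarith
    have h13 := hp (y - z₀)
    have hP0 : 0 ≤ (1 + ‖y - z₀‖) ^ K := by positivity
    calc ga (1 / 2) (y - z₀) * |th ν (1 / 2) y ^ 2 + ‖Uv ν (1 / 2) y‖ ^ 2 - th ν (1 / 2) z₀ ^ 2|
        ≤ ga (1 / 2) (y - z₀) * (|th ν (1 / 2) y - th ν (1 / 2) z₀| * (2 * Ct) + CU * Yf ν D y) :=
          mul_le_mul_of_nonneg_left h7 hg0
      _ ≤ ga (1 / 2) (y - z₀) * ((Cd * (1 + ‖y - z₀‖) ^ K * (Real.sqrt (D z₀) + Real.sqrt (D y))) * (2 * Ct) + CU * Yf ν D y) := by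
          refine mul_le_mul_of_nonneg_left ?_ hg0
          have h14 := mul_le_mul_of_nonneg_right h1 (show 0 ≤ 2 * Ct by positivity)
          linarith
      _ = (2 * Ct * Cd * Real.sqrt (D z₀)) * ((1 + ‖y - z₀‖) ^ K * ga (1 / 2) (y - z₀)) +
          (2 * Ct * Cd * Real.sqrt (D y)) * ((1 + ‖y - z₀‖) ^ K * ga (1 / 2) (y - z₀)) +
          ga (1 / 2) (y - z₀) * (CU * Yf ν D y) := by ring
      _ ≤ (2 * Ct * Cd * Real.sqrt (D z₀)) * ((1 + ‖y - z₀‖) ^ K * ga (1 / 2) (y - z₀)) +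
          (2 * Ct * Cd * Real.sqrt (D y)) * (Cp * ga (1 / 4) (y - z₀)) +
          CU * (ga (1 / 12) (y - z₀) * Yf ν D y) := by
          have h15 : (2 * Ct * Cd * Real.sqrt (D y)) * ((1 + ‖y - z₀‖) ^ K * ga (1 / 2) (y - z₀)) ≤
              (2 * Ct * Cd * Real.sqrt (D y)) * (Cp * ga (1 / 4) (y - z₀)) :=
            mul_le_mul_of_nonneg_left h13 (by positivity)
          linarith
      _ = _ := by ring
  have i1 : Integrable (fun y => (2 * Ct * Cd * Real.sqrt (D z₀)) * ((1 + ‖y - z₀‖) ^ K * ga (1 / 2) (y - z₀))) ν :=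
    im.const_mul _
  have i2 : Integrable (fun y => (2 * Ct * Cd * Cp) * (ga (1 / 4) (y - z₀) * Real.sqrt (D y))) ν := is.const_mul _
  have i3 : Integrable (fun y => CU * (ga (1 / 12) (y - z₀) * Yf ν D y)) ν := iY.const_mul _
  have i4 : Integrable (fun y => (2 * Ct * Cd * Real.sqrt (D z₀)) * ((1 + ‖y - z₀‖) ^ K * ga (1 / 2) (y - z₀)) +
        (2 * Ct * Cd * Cp) * (ga (1 / 4) (y - z₀) * Real.sqrt (D y))) ν := i1.add i2
  have hmono := integral_mono_of_nonneg (μ := ν)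
    (f := fun y => ga (1 / 2) (y - z₀) * |th ν (1 / 2) y ^ 2 + ‖Uv ν (1 / 2) y‖ ^ 2 - th ν (1 / 2) z₀ ^ 2|)
    (Eventually.of_forall fun y => mul_nonneg (ga_nonneg _ _) (abs_nonneg _)) (i4.add i3)
    (hSd.ae.mono fun y hy => hpt y hy)
  refine hmono.trans ?_
  have hsum : ∫ y, ((fun y => (2 * Ct * Cd * Real.sqrt (D z₀)) * ((1 + ‖y - z₀‖) ^ K * ga (1 / 2) (y - z₀)) +
        (2 * Ct * Cd * Cp) * (ga (1 / 4) (y - z₀) * Real.sqrt (D y))) +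
        (fun y => CU * (ga (1 / 12) (y - z₀) * Yf ν D y))) y ∂ν =
      (2 * Ct * Cd * Real.sqrt (D z₀)) * ∫ y, (1 + ‖y - z₀‖) ^ K * ga (1 / 2) (y - z₀) ∂ν +
      (2 * Ct * Cd * Cp) * ∫ y, ga (1 / 4) (y - z₀) * Real.sqrt (D y) ∂ν +
      CU * ∫ y, ga (1 / 12) (y - z₀) * Yf ν D y ∂ν := by
    rw [integral_add' i4 i3, integral_add i1 i2, integral_const_mul, integral_const_mul, integral_const_mul]
  rw [hsum]
  have hsq0 : 0 ≤ Real.sqrt (D z₀) := Real.sqrt_nonneg _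
  have hsq1 : 0 ≤ Real.sqrt (Wm ν D (1 / 24) z₀) := Real.sqrt_nonneg _
  have j1 := mul_le_mul_of_nonneg_left hm' (show 0 ≤ 2 * Ct * Cd * Real.sqrt (D z₀) by positivity)
  have j2 := mul_le_mul_of_nonneg_left hs (show 0 ≤ 2 * Ct * Cd * Cp by positivity)
  have j3 := mul_le_mul_of_nonneg_left hY' hCU.le
  have k1 : 0 ≤ (2 * Ct * Cd * Cm) * (Real.sqrt (Wm ν D (1 / 24) z₀) + Wm ν D (1 / 24) z₀) := by positivity
  have k2 : 0 ≤ (2 * Ct * Cd * Cp * ((Cq + 1) / 2)) * (Real.sqrt (D z₀) + Wm ν D (1 / 24) z₀) := by positivity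
  have k3 : 0 ≤ (CU * CY) * (Real.sqrt (D z₀) + Real.sqrt (Wm ν D (1 / 24) z₀)) := by positivity
  nlinarith

end Pool.Agent.H1.LD
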