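import Pool.Agent.H1.LD.T3
import Pool.Agent.H1.LD.Sid
import Pool.Agent.H1.LD.Gro

/-!
Dt_bound.  Dt_eq; first term: |∫ ψ Ef| ≤ C ∫ ga b (y-z₀) Yf ≤ C ∫ ga (b/6) Yf ≤ C Wm (E_bound for a.e. y, Y_int).  Second term: Tx_int.
Third: |2b∫ ga b (y-z₀)⟪y-z₀,NU⟫|: 2b|y-z₀| ga b (y-z₀) ≤ 2 sqrt b ga (b/2)(y-z₀) (b s e^{-b s^2/2} ≤ sqrt b); ‖NU ν y‖ ≤ ‖U y‖ ∫ ga |x-y|^2 dν ≤ C(C₀) ‖U y‖ (mom_growth); ‖U y‖ ≤ C sqrt(Yf y) (U_bound).
Cauchy-Schwarz: ∫ ga (b/2) sqrt(Yf) ≤ sqrt(∫ ga (b/2)) sqrt(∫ ga (b/2) Yf) ≤ sqrt(th ν (b/12) z₀) sqrt(C Wm(b/12)).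
-/

set_option autoImplicit false

open MeasureTheory Filter Topology Metric Set
open scoped RealInnerProductSpace ENNReal

namespace Pool.Agent.H1.LD

open Pool.Agent.RZ

variable {d : ℕ}

/-- Cauchy-Schwarz for the weight `g` -/
private theorem staA_cs {ν : Measure (X d)} {g s : X d → ℝ} (hg0 : ∀ y, 0 ≤ g y)
    (hs0 : ∀ y, 0 ≤ s y) (hgm : Measurable g) (hsm : Measurable s) (hg : Integrable g ν)
    (hgs : Integrable (fun y => g y * s y) ν) :
    Integrable (fun y => g y * Real.sqrt (s y)) ν ∧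
      ∫ y, g y * Real.sqrt (s y) ∂ν ≤ Real.sqrt (∫ y, g y ∂ν) * Real.sqrt (∫ y, g y * s y ∂ν) := by
  have hint : Integrable (fun y => g y * Real.sqrt (s y)) ν := by
    refine Integrable.mono' (hg.add hgs) (hgm.mul hsm.sqrt).aestronglyMeasurable ?_
    refine Eventually.of_forall fun y => ?_
    rw [Real.norm_of_nonneg (mul_nonneg (hg0 y) (Real.sqrt_nonneg _)), Pi.add_apply]
    have h1 : Real.sqrt (s y) ≤ 1 + s y := by
      have h2 := Real.sq_sqrt (hs0 y)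
      nlinarith [sq_nonneg (Real.sqrt (s y) - 1), hs0 y, Real.sqrt_nonneg (s y)]
    calc g y * Real.sqrt (s y) ≤ g y * (1 + s y) := mul_le_mul_of_nonneg_left h1 (hg0 y)
      _ = g y + g y * s y := by ring
  refine ⟨hint, ?_⟩
  set A := ∫ y, g y ∂ν with hA
  set B := ∫ y, g y * s y ∂ν with hB
  set T := ∫ y, g y * Real.sqrt (s y) ∂ν with hT
  have hA0 : 0 ≤ A := integral_nonneg hg0
  have hB0 : 0 ≤ B := integral_nonneg fun y => mul_nonneg (hg0 y) (hs0 y)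
  have hq : ∀ x : ℝ, 0 ≤ A * (x * x) + (-2 * T) * x + B := by
    intro x
    have h1 : ∫ y, g y * (x - Real.sqrt (s y)) ^ 2 ∂ν
        = A * (x * x) + (-2 * T) * x + B := by
      have h2 : (fun y => g y * (x - Real.sqrt (s y)) ^ 2)
          = fun y => ((x * x) * g y + (-2 * x) * (g y * Real.sqrt (s y))) + g y * s y := by
        funext y
        have h3 := Real.sq_sqrt (hs0 y)
        calc g y * (x - Real.sqrt (s y)) ^ 2
            = ((x * x) * g y + (-2 * x) * (g y * Real.sqrt (s y)))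
              + g y * (Real.sqrt (s y)) ^ 2 := by ring
          _ = _ := by rw [h3]
      have i1 : Integrable (fun y => (x * x) * g y) ν := hg.const_mul _
      have i2 : Integrable (fun y => (-2 * x) * (g y * Real.sqrt (s y))) ν := hint.const_mul _
      have i3 : Integrable (fun y => (x * x) * g y + (-2 * x) * (g y * Real.sqrt (s y))) ν :=
        i1.add i2
      rw [h2, integral_add i3 hgs, integral_add i1 i2, integral_const_mul,
        integral_const_mul, ← hA, ← hB, ← hT]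
      ring
    rw [← h1]
    exact integral_nonneg fun y => mul_nonneg (hg0 y) (sq_nonneg _)
  have hd := discrim_le_zero hq
  unfold discrim at hd
  have hT2 : T ^ 2 ≤ A * B := by nlinarith
  rw [← Real.sqrt_mul hA0]
  exact Real.le_sqrt_of_sq_le hT2

/-- `b |v| ga b v ≤ sqrt b ga (b / 2) v` -/
private theorem staA_ga {b : ℝ} (hb : 0 < b) (v : X d) :
    b * ‖v‖ * ga b v ≤ Real.sqrt b * ga (b / 2) v := by
  have hs : Real.sqrt b * Real.sqrt b = b := Real.mul_self_sqrt hb.le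
  have h1 : Real.sqrt b * ‖v‖ ≤ Real.exp (b / 2 * ‖v‖ ^ 2) := by
    have h2 := Real.add_one_le_exp (b / 2 * ‖v‖ ^ 2)
    have h3 : (Real.sqrt b * ‖v‖) ^ 2 = b * ‖v‖ ^ 2 := by
      rw [mul_pow, Real.sq_sqrt hb.le]
    nlinarith [sq_nonneg (Real.sqrt b * ‖v‖ - 1)]
  have h4 : Real.exp (b / 2 * ‖v‖ ^ 2) * ga b v = ga (b / 2) v := by
    unfold ga
    rw [← Real.exp_add]
    congr 1
    ring
  have h5 : b * ‖v‖ * ga b v = (Real.sqrt b * Real.sqrt b) * ‖v‖ * ga b v := by rw [hs]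
  calc b * ‖v‖ * ga b v = Real.sqrt b * (Real.sqrt b * ‖v‖ * ga b v) := by
        rw [h5]
        ring
    _ ≤ Real.sqrt b * (Real.exp (b / 2 * ‖v‖ ^ 2) * ga b v) :=
        mul_le_mul_of_nonneg_left (mul_le_mul_of_nonneg_right h1 (ga_nonneg _ _))
          (Real.sqrt_nonneg _)
    _ = Real.sqrt b * ga (b / 2) v := by rw [h4]

/-- the bound for `NU` -/
private theorem staA_NU {ν : Measure (X d)} {M : ℝ} {y : X d}
    (hi : Integrable (fun x => (1 + ‖x - y‖) ^ 2 * ga (1 / 2) (x - y)) ν)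
    (hM : ∫ x, (1 + ‖x - y‖) ^ 2 * ga (1 / 2) (x - y) ∂ν ≤ M) :
    ‖NU ν y‖ ≤ M * ‖Uv ν (1 / 2) y‖ := by
  unfold NU
  have h1 : ‖∫ x, (ga (1 / 2) (x - y) * ⟪x - y, Uv ν (1 / 2) y⟫) • (x - y) ∂ν‖
      ≤ ∫ x, ‖Uv ν (1 / 2) y‖ * ((1 + ‖x - y‖) ^ 2 * ga (1 / 2) (x - y)) ∂ν := by
    refine norm_integral_le_of_norm_le (hi.const_mul _) (Eventually.of_forall fun x => ?_)
    rw [norm_smul, norm_mul, Real.norm_of_nonneg (ga_nonneg _ _)]
    have h2 : ‖(⟪x - y, Uv ν (1 / 2) y⟫ : ℝ)‖ ≤ ‖x - y‖ * ‖Uv ν (1 / 2) y‖ :=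
      norm_inner_le_norm _ _
    have hg := ga_nonneg (1 / 2) (x - y)
    have hn := norm_nonneg (x - y)
    have hU := norm_nonneg (Uv ν (1 / 2) y)
    calc ga (1 / 2) (x - y) * ‖(⟪x - y, Uv ν (1 / 2) y⟫ : ℝ)‖ * ‖x - y‖
        ≤ ga (1 / 2) (x - y) * (‖x - y‖ * ‖Uv ν (1 / 2) y‖) * ‖x - y‖ :=
          mul_le_mul_of_nonneg_right (mul_le_mul_of_nonneg_left h2 hg) hn
      _ = ‖Uv ν (1 / 2) y‖ * (‖x - y‖ ^ 2 * ga (1 / 2) (x - y)) := by ring
      _ ≤ ‖Uv ν (1 / 2) y‖ * ((1 + ‖x - y‖) ^ 2 * ga (1 / 2) (x - y)) := by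
          refine mul_le_mul_of_nonneg_left (mul_le_mul_of_nonneg_right ?_ hg) hU
          nlinarith
  refine h1.trans ?_
  rw [integral_const_mul, mul_comm]
  exact mul_le_mul_of_nonneg_right hM (norm_nonneg _)

theorem Dt_bound (d n K : ℕ) (C₀ : ℝ) (hC₀ : 0 ≤ C₀) : ∃ C : ℝ, 0 < C ∧ ∀ (ν : Measure (X d))
    (S : Set (X d)) (D : X d → ℝ), Gr n C₀ ν → Sd n K ν S D → ∀ b : ℝ, 0 < b → b ≤ 1 / 2 →
      ∀ z₀ : X d, |Dt n ν b z₀| ≤ C * (Wm ν D (b / 12) z₀ +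
        Real.sqrt b * (Real.sqrt (th ν (b / 12) z₀) * Real.sqrt (Wm ν D (b / 12) z₀))) := by
  obtain ⟨CE, hCE, hE⟩ := E_bound d n K
  obtain ⟨CU, hCU, hU⟩ := U_bound d n K
  obtain ⟨CY, hCY, hY⟩ := Y_int d
  obtain ⟨CT, hCT, hT⟩ := Tx_int d n K
  obtain ⟨CM, hCM, hM⟩ := mom_growth d n 2 (b := 1 / 2) (by norm_num) C₀ hC₀
  refine ⟨CE * CY + CT + 2 * (CM * (Real.sqrt CU * Real.sqrt CY)) + 1, by positivity, ?_⟩
  intro ν S D hGr hS b hb hb2 z₀
  have := hS.fin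
  obtain ⟨hYi, hYb⟩ := hY n K ν S D hS b hb hb2 z₀
  have hY0 : ∀ y, 0 ≤ Yf ν D y := Yf_nonneg hS
  have hYm : Measurable (Yf ν D) := Yf_measurable hS
  set W := Wm ν D (b / 12) z₀ with hW
  have hW0 : 0 ≤ W := integral_nonneg fun y => mul_nonneg (ga_nonneg _ _) (hS.nn y)
  -- first term
  have h1 : |∫ y, ga b (y - z₀) * Ef n ν y ∂ν| ≤ CE * (CY * W) := by
    have h2 : ‖∫ y, ga b (y - z₀) * Ef n ν y ∂ν‖
        ≤ ∫ y, CE * (ga (b / 6) (y - z₀) * Yf ν D y) ∂ν := by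
      refine norm_integral_le_of_norm_le (hYi.const_mul CE) ?_
      filter_upwards [hS.ae] with y hy
      rw [norm_mul, Real.norm_of_nonneg (ga_nonneg _ _), Real.norm_eq_abs]
      calc ga b (y - z₀) * |Ef n ν y| ≤ ga (b / 6) (y - z₀) * (CE * Yf ν D y) :=
            mul_le_mul (ga_anti (by linarith) _) (hE ν S D hS y hy) (abs_nonneg _)
              (ga_nonneg _ _)
        _ = CE * (ga (b / 6) (y - z₀) * Yf ν D y) := by ring
    rw [Real.norm_eq_abs, integral_const_mul] at h2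
    exact h2.trans (mul_le_mul_of_nonneg_left hYb hCE.le)
  -- second term
  have h2 : |∫ x, Tx n ν b z₀ x ∂ν| ≤ CT * W := hT ν S D hS b hb hb2 z₀
  -- Cauchy-Schwarz
  have hgm : Measurable fun y : X d => ga (b / 2) (y - z₀) :=
    ((ga_continuous (b / 2)).comp (continuous_id.sub continuous_const)).measurable
  have hgi : ∀ c : ℝ, 0 < c → Integrable (fun y : X d => ga c (y - z₀)) ν := by
    intro c hc
    have := poly_int ν hc 0 z₀
    simpa using this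
  have hgY : Integrable (fun y => ga (b / 2) (y - z₀) * Yf ν D y) ν := by
    refine Integrable.mono' hYi (hgm.mul hYm).aestronglyMeasurable
      (Eventually.of_forall fun y => ?_)
    rw [Real.norm_of_nonneg (mul_nonneg (ga_nonneg _ _) (hY0 y))]
    exact mul_le_mul_of_nonneg_right (ga_anti (by linarith) _) (hY0 y)
  obtain ⟨hci, hcs⟩ := staA_cs (ν := ν) (g := fun y => ga (b / 2) (y - z₀)) (s := Yf ν D)
    (fun y => ga_nonneg _ _) hY0 hgm hYm (hgi (b / 2) (by linarith)) hgY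
  have hA : ∫ y, ga (b / 2) (y - z₀) ∂ν ≤ th ν (b / 12) z₀ :=
    integral_mono (hgi _ (by linarith)) (hgi _ (by linarith)) fun y => ga_anti (by linarith) _
  have hB : ∫ y, ga (b / 2) (y - z₀) * Yf ν D y ∂ν ≤ CY * W := by
    refine le_trans (integral_mono hgY hYi fun y => ?_) hYb
    exact mul_le_mul_of_nonneg_right (ga_anti (by linarith) _) (hY0 y)
  have hcs2 : ∫ y, ga (b / 2) (y - z₀) * Real.sqrt (Yf ν D y) ∂ν
      ≤ Real.sqrt (th ν (b / 12) z₀) * (Real.sqrt CY * Real.sqrt W) := by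
    refine hcs.trans ?_
    rw [← Real.sqrt_mul hCY.le]
    exact mul_le_mul (Real.sqrt_le_sqrt hA) (Real.sqrt_le_sqrt hB) (Real.sqrt_nonneg _)
      (Real.sqrt_nonneg _)
  -- third term
  have h3 : |2 * b * ∫ y, ga b (y - z₀) * ⟪y - z₀, NU ν y⟫ ∂ν|
      ≤ 2 * (Real.sqrt b * (CM * Real.sqrt CU)) *
        (Real.sqrt (th ν (b / 12) z₀) * (Real.sqrt CY * Real.sqrt W)) := by
    have h4 : ‖∫ y, 2 * b * (ga b (y - z₀) * ⟪y - z₀, NU ν y⟫) ∂ν‖
        ≤ ∫ y, 2 * (Real.sqrt b * (CM * Real.sqrt CU)) *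
          (ga (b / 2) (y - z₀) * Real.sqrt (Yf ν D y)) ∂ν := by
      refine norm_integral_le_of_norm_le (hci.const_mul _) ?_
      filter_upwards [hS.ae] with y hy
      obtain ⟨hMi, hMb⟩ := hM ν hGr y
      have h5 : ‖NU ν y‖ ≤ CM * ‖Uv ν (1 / 2) y‖ := staA_NU hMi hMb
      have h6 : ‖Uv ν (1 / 2) y‖ ≤ Real.sqrt CU * Real.sqrt (Yf ν D y) := by
        rw [← Real.sqrt_mul hCU.le]
        exact Real.le_sqrt_of_sq_le (hU ν S D hS y hy)
      have h7 : ‖(⟪y - z₀, NU ν y⟫ : ℝ)‖ ≤ ‖y - z₀‖ * ‖NU ν y‖ := norm_inner_le_norm _ _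
      have h8 := staA_ga hb (y - z₀)
      have hg := ga_nonneg b (y - z₀)
      rw [norm_mul, norm_mul, norm_mul, Real.norm_of_nonneg hg,
        Real.norm_of_nonneg (by norm_num : (0 : ℝ) ≤ 2), Real.norm_of_nonneg hb.le]
      calc 2 * b * (ga b (y - z₀) * ‖(⟪y - z₀, NU ν y⟫ : ℝ)‖)
          ≤ 2 * b * (ga b (y - z₀) * (‖y - z₀‖ *
              (CM * (Real.sqrt CU * Real.sqrt (Yf ν D y))))) := by
            refine mul_le_mul_of_nonneg_left (mul_le_mul_of_nonneg_left (h7.trans ?_) hg)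
              (by positivity)
            exact mul_le_mul_of_nonneg_left
              (h5.trans (mul_le_mul_of_nonneg_left h6 hCM.le)) (norm_nonneg _)
        _ = 2 * (b * ‖y - z₀‖ * ga b (y - z₀)) *
              (CM * Real.sqrt CU * Real.sqrt (Yf ν D y)) := by ring
        _ ≤ 2 * (Real.sqrt b * ga (b / 2) (y - z₀)) *
              (CM * Real.sqrt CU * Real.sqrt (Yf ν D y)) := by
            refine mul_le_mul_of_nonneg_right (mul_le_mul_of_nonneg_left h8 (by norm_num)) ?_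
            positivity
        _ = _ := by ring
    rw [integral_const_mul, integral_const_mul, Real.norm_eq_abs] at h4
    refine h4.trans (mul_le_mul_of_nonneg_left hcs2 ?_)
    positivity
  rw [Dt_eq n ν hb z₀]
  set R := Real.sqrt b * (Real.sqrt (th ν (b / 12) z₀) * Real.sqrt W) with hR
  have hR0 : 0 ≤ R := by positivity
  have h3' : |2 * b * ∫ y, ga b (y - z₀) * ⟪y - z₀, NU ν y⟫ ∂ν|
      ≤ 2 * (CM * (Real.sqrt CU * Real.sqrt CY)) * R := by
    refine h3.trans_eq ?_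
    rw [hR]
    ring
  have habs : |∫ y, ga b (y - z₀) * Ef n ν y ∂ν - ∫ x, Tx n ν b z₀ x ∂ν
      + 2 * b * ∫ y, ga b (y - z₀) * ⟪y - z₀, NU ν y⟫ ∂ν|
      ≤ CE * (CY * W) + CT * W + 2 * (CM * (Real.sqrt CU * Real.sqrt CY)) * R := by
    refine (abs_add_le _ _).trans (add_le_add ((abs_sub _ _).trans (add_le_add h1 h2)) h3')
  refine habs.trans ?_
  have e1 : 0 ≤ CE * CY * R := by positivity
  have e2 : 0 ≤ CT * R := by positivity
  have e3 : 0 ≤ 2 * (CM * (Real.sqrt CU * Real.sqrt CY)) * W := by positivity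
  nlinarith

end Pool.Agent.H1.LD
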