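import Pool.Agent.H1.LD.Gau

/-!
L_wide.  b' = 4b/(4-b) as in SupJ (read that header).  With l(X) = ⟪((4+b')X - b'y)/4 - z, e⟫ (so that l(m+w) = ⟪x-z,e⟫ + ((4+b')/4)⟪w,e⟫ for m = (4x+b'y)/(4+b')) one has
   ∫ l(X) (n - 8⟪x-z, x-X⟫) ga 4 (x-X) ga b' (X-y) dX = gc(4+b') (n + 1 - 2b⟪x-z,x-y⟫) ⟪x-z,e⟫ ga b (x-y):
after ga_square the integrand is (⟪u,e⟫ + ((4+b')/4)⟪w,e⟫)(n - 2b⟪u,x-y⟫ + 8⟪u,w⟫), u = x-z; odd terms vanish, the product of the two linear terms gives by ga_second (b = 4+b')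
 ((4+b')/4) * 8 * ⟪u,e⟫/(2(4+b')) = ⟪u,e⟫.
Fubini as in SupJ, then gc(4+b') Lf n ν b z y e = ∫ l(X) ga b' (X-y) Jf n ν 4 z X dX, |l(X)| ≤ C‖e‖(1+|X-y|)(1+|y-z|), and
∫ (1+|X-y|)(1+|X-z|)^K ga b'(X-y) dX ≤ C (1+|y-z|)^K.
-/

set_option autoImplicit false

open MeasureTheory Filter Topology Metric Set
open scoped RealInnerProductSpace ENNReal

namespace Pool.Agent.H1.LD

open Pool.Agent.RZ

variable {d : ℕ}

/-- the scalar formula -/
private theorem SupL_scalar (n : ℕ) {b b' : ℝ} (hb' : 0 < b') (hbb : 4 * b' / (4 + b') = b)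
    (x y z e : X d) :
    ∫ w : X d, (((n - 8 * ⟪x - z, x - w⟫) * ga 4 (x - w)) * ga b' (w - y)) *
        ⟪(w - z) + (b' / 4) • (w - y), e⟫ =
      gc d (4 + b') * (((n + 1 - 2 * b * ⟪x - z, x - y⟫) * ⟪x - z, e⟫) * ga b (x - y)) := by
  have h4 : (0 : ℝ) < 4 + b' := by linarith
  have h1 := ga_square (E := ℝ) (show (0 : ℝ) < 4 by norm_num) hb' x y
    (fun w : X d => ((n - 8 * ⟪x - z, x - w⟫) * ⟪(w - z) + (b' / 4) • (w - y), e⟫ : ℝ))
  simp only [smul_eq_mul] at h1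
  have e1 : ∀ w : X d, x - ((4 + b')⁻¹ • ((4 : ℝ) • x + b' • y) + w) =
      (b / 4) • (x - y) - w := by
    intro w
    have e2 : b / 4 = b' / (4 + b') := by rw [← hbb]; field_simp
    have e3 : x = ((4 + b')⁻¹ * (4 + b')) • x := by
      rw [inv_mul_cancel₀ h4.ne', one_smul]
    rw [e2]
    nth_rw 1 [e3]
    rw [smul_add, smul_smul, smul_smul, div_eq_inv_mul, smul_sub, mul_add, add_smul]
    abel
  have e5 : ∀ w : X d, ((4 + b')⁻¹ • ((4 : ℝ) • x + b' • y) + w - z) +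
      (b' / 4) • ((4 + b')⁻¹ • ((4 : ℝ) • x + b' • y) + w - y) =
      (x - z) + ((4 + b') / 4) • w := by
    intro w
    have e6 : ((4 + b')⁻¹ • ((4 : ℝ) • x + b' • y) + w - z) +
        (b' / 4) • ((4 + b')⁻¹ • ((4 : ℝ) • x + b' • y) + w - y) =
        ((1 + b' / 4) * ((4 + b')⁻¹ * 4)) • x + ((1 + b' / 4) * ((4 + b')⁻¹ * b') - b' / 4) • y
          - z + (1 + b' / 4) • w := by module
    have e7 : (1 + b' / 4) * ((4 + b')⁻¹ * 4) = 1 := by field_simp
    have e8 : (1 + b' / 4) * ((4 + b')⁻¹ * b') - b' / 4 = 0 := by field_simp; ring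
    have e9 : 1 + b' / 4 = (4 + b') / 4 := by ring
    rw [e6, e7, e8, e9, one_smul, zero_smul]
    abel
  have h2 : ∀ w : X d, ga (4 + b') w * ((n - 8 * ⟪x - z,
      x - ((4 + b')⁻¹ • ((4 : ℝ) • x + b' • y) + w)⟫) *
        ⟪((4 + b')⁻¹ • ((4 : ℝ) • x + b' • y) + w - z) +
      (b' / 4) • ((4 + b')⁻¹ • ((4 : ℝ) • x + b' • y) + w - y), e⟫) =
      ((n - 2 * b * ⟪x - z, x - y⟫) * ⟪x - z, e⟫) * ga (4 + b') w +
        ((8 * ⟪x - z, e⟫) * (ga (4 + b') w * ⟪w, x - z⟫) +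
        (((4 + b') / 4 * (n - 2 * b * ⟪x - z, x - y⟫)) * (ga (4 + b') w * ⟪w, e⟫) +
        (8 * ((4 + b') / 4)) * (ga (4 + b') w * (⟪w, x - z⟫ * ⟪w, e⟫)))) := by
    intro w
    rw [e1 w, e5 w, inner_sub_right, inner_smul_right, real_inner_comm w (x - z), inner_add_left,
      real_inner_smul_left]
    ring
  have i0 : Integrable (fun w : X d => ga (4 + b') w) := by
    have := ga_integrable (d := d) h4 0
    simpa using this
  have i1 : ∀ a : X d, Integrable (fun w : X d => ga (4 + b') w * ⟪w, a⟫) := by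
    intro a
    refine ((ga_integrable (d := d) h4 1).const_mul ‖a‖).mono' ?_
      (Filter.Eventually.of_forall fun w => ?_)
    · exact ((ga_continuous (4 + b')).mul
        (continuous_id.inner continuous_const)).aestronglyMeasurable
    · rw [norm_mul, Real.norm_of_nonneg (ga_nonneg (4 + b') w)]
      have h3 : ‖⟪w, a⟫‖ ≤ ‖w‖ * ‖a‖ := norm_inner_le_norm w a
      have h5 : ‖w‖ * ‖a‖ ≤ (1 + ‖w‖) * ‖a‖ :=
        mul_le_mul_of_nonneg_right (by linarith [norm_nonneg w]) (norm_nonneg _)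
      have h6 := mul_le_mul_of_nonneg_left (h3.trans h5) (ga_nonneg (4 + b') w)
      calc ga (4 + b') w * ‖⟪w, a⟫‖ ≤ ga (4 + b') w * ((1 + ‖w‖) * ‖a‖) := h6
        _ = ‖a‖ * ((1 + ‖w‖) ^ 1 * ga (4 + b') w) := by ring
  have i2 : Integrable (fun w : X d => ga (4 + b') w * (⟪w, x - z⟫ * ⟪w, e⟫)) := by
    refine ((ga_integrable (d := d) h4 2).const_mul (‖x - z‖ * ‖e‖)).mono' ?_
      (Filter.Eventually.of_forall fun w => ?_)
    · exact ((ga_continuous (4 + b')).mul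
        ((continuous_id.inner continuous_const).mul
          (continuous_id.inner continuous_const))).aestronglyMeasurable
    · rw [norm_mul, norm_mul, Real.norm_of_nonneg (ga_nonneg (4 + b') w)]
      have h3 : ‖⟪w, x - z⟫‖ ≤ (1 + ‖w‖) * ‖x - z‖ := (norm_inner_le_norm w (x - z)).trans
        (mul_le_mul_of_nonneg_right (by linarith [norm_nonneg w]) (norm_nonneg _))
      have h5 : ‖⟪w, e⟫‖ ≤ (1 + ‖w‖) * ‖e‖ := (norm_inner_le_norm w e).trans
        (mul_le_mul_of_nonneg_right (by linarith [norm_nonneg w]) (norm_nonneg _))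
      have h6 := mul_le_mul_of_nonneg_left (mul_le_mul h3 h5 (norm_nonneg _) (by positivity))
        (ga_nonneg (4 + b') w)
      calc ga (4 + b') w * (‖⟪w, x - z⟫‖ * ‖⟪w, e⟫‖) ≤
          ga (4 + b') w * (((1 + ‖w‖) * ‖x - z‖) * ((1 + ‖w‖) * ‖e‖)) := h6
        _ = ‖x - z‖ * ‖e‖ * ((1 + ‖w‖) ^ 2 * ga (4 + b') w) := by ring
  have h7 : ∫ w : X d, ga (4 + b') w * ((n - 8 * ⟪x - z,
      x - ((4 + b')⁻¹ • ((4 : ℝ) • x + b' • y) + w)⟫) *
        ⟪((4 + b')⁻¹ • ((4 : ℝ) • x + b' • y) + w - z) +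
      (b' / 4) • ((4 + b')⁻¹ • ((4 : ℝ) • x + b' • y) + w - y), e⟫) =
      ((n + 1 - 2 * b * ⟪x - z, x - y⟫) * ⟪x - z, e⟫) * gc d (4 + b') := by
    have k3 : Integrable (fun w : X d => (8 * ((4 + b') / 4)) * (ga (4 + b') w *
        (⟪w, x - z⟫ * ⟪w, e⟫))) := i2.const_mul _
    have k2 : Integrable (fun w : X d =>
        ((4 + b') / 4 * (n - 2 * b * ⟪x - z, x - y⟫)) * (ga (4 + b') w * ⟪w, e⟫)) :=
      (i1 e).const_mul _
    have k1 : Integrable (fun w : X d =>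
        (8 * ⟪x - z, e⟫) * (ga (4 + b') w * ⟪w, x - z⟫)) := (i1 (x - z)).const_mul _
    have k0 : Integrable (fun w : X d =>
        ((n - 2 * b * ⟪x - z, x - y⟫) * ⟪x - z, e⟫) * ga (4 + b') w) := i0.const_mul _
    have k4 : Integrable (fun w : X d =>
        ((4 + b') / 4 * (n - 2 * b * ⟪x - z, x - y⟫)) * (ga (4 + b') w * ⟪w, e⟫) +
        (8 * ((4 + b') / 4)) * (ga (4 + b') w * (⟪w, x - z⟫ * ⟪w, e⟫))) := k2.add k3
    have k5 : Integrable (fun w : X d =>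
        (8 * ⟪x - z, e⟫) * (ga (4 + b') w * ⟪w, x - z⟫) +
        (((4 + b') / 4 * (n - 2 * b * ⟪x - z, x - y⟫)) * (ga (4 + b') w * ⟪w, e⟫) +
        (8 * ((4 + b') / 4)) * (ga (4 + b') w * (⟪w, x - z⟫ * ⟪w, e⟫)))) := k1.add k4
    rw [integral_congr_ae (Filter.Eventually.of_forall h2),
      integral_add k0 k5, integral_add k1 k4, integral_add k2 k3,
      integral_const_mul, integral_const_mul, integral_const_mul, integral_const_mul,
      ga_odd, ga_odd, ga_second h4]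
    have h8 : ∫ w : X d, ga (4 + b') w = gc d (4 + b') := rfl
    rw [h8]
    field_simp
    ring
  rw [h7, hbb] at h1
  calc ∫ w : X d, (((n - 8 * ⟪x - z, x - w⟫) * ga 4 (x - w)) * ga b' (w - y)) *
        ⟪(w - z) + (b' / 4) • (w - y), e⟫
      = ∫ w : X d, ga 4 (x - w) * ga b' (w - y) * ((n - 8 * ⟪x - z, x - w⟫) *
        ⟪(w - z) + (b' / 4) • (w - y), e⟫) := by
        refine integral_congr_ae (Filter.Eventually.of_forall fun w => ?_)
        simp only
        ring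
    _ = _ := by rw [h1]; ring

/-- the linear factor -/
private theorem SupL_lin {b' : ℝ} (hb' : 0 < b') (hb4 : b' ≤ 4) (w y z e : X d) :
    |⟪(w - z) + (b' / 4) • (w - y), e⟫| ≤ 2 * ‖e‖ * ((1 + ‖w - y‖) * (1 + ‖y - z‖)) := by
  have h1 := abs_real_inner_le_norm ((w - z) + (b' / 4) • (w - y)) e
  have h2 : ‖(w - z) + (b' / 4) • (w - y)‖ ≤ ‖w - z‖ + ‖w - y‖ := by
    refine (norm_add_le _ _).trans ?_
    rw [norm_smul, Real.norm_of_nonneg (by positivity : (0 : ℝ) ≤ b' / 4)]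
    have h3 : b' / 4 * ‖w - y‖ ≤ 1 * ‖w - y‖ :=
      mul_le_mul_of_nonneg_right (by linarith) (norm_nonneg _)
    linarith
  have h3 : ‖w - z‖ ≤ ‖w - y‖ + ‖y - z‖ := norm_sub_le_norm_sub_add_norm_sub w y z
  have h4 : ‖(w - z) + (b' / 4) • (w - y)‖ ≤ 2 * ((1 + ‖w - y‖) * (1 + ‖y - z‖)) := by
    nlinarith [norm_nonneg (w - y), norm_nonneg (y - z),
      mul_nonneg (norm_nonneg (w - y)) (norm_nonneg (y - z))]
  calc |⟪(w - z) + (b' / 4) • (w - y), e⟫| ≤ ‖(w - z) + (b' / 4) • (w - y)‖ * ‖e‖ := h1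
    _ ≤ (2 * ((1 + ‖w - y‖) * (1 + ‖y - z‖))) * ‖e‖ :=
        mul_le_mul_of_nonneg_right h4 (norm_nonneg _)
    _ = _ := by ring

/-- Fubini -/
private theorem SupL_fubini (n : ℕ) (ν : Measure (X d)) [IsFiniteMeasure ν] {b b' : ℝ}
    (hb' : 0 < b') (hb4 : b' ≤ 4) (hbb : 4 * b' / (4 + b') = b) (z y e : X d) :
    gc d (4 + b') * Lf n ν b z y e = ∫ w : X d, ga b' (w - y) * Jf n ν 4 z w *
      ⟪(w - z) + (b' / 4) • (w - y), e⟫ := by
  obtain ⟨C, hC, hp⟩ := poly_ga d 2 (show (0 : ℝ) < 4 by norm_num)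
  have hint : Integrable (Function.uncurry fun (x w : X d) =>
      (((n - 8 * ⟪x - z, x - w⟫) * ga 4 (x - w)) * ga b' (w - y)) *
        ⟪(w - z) + (b' / 4) • (w - y), e⟫) (ν.prod volume) := by
    have i1 : Integrable (fun w : X d => (1 + ‖w - y‖) ^ 2 * ga b' (w - y)) :=
      (ga_integrable (d := d) hb' 2).comp_sub_right y
    have i2 : Integrable (fun w : X d => ((n + 8) * C * (1 + ‖y - z‖) * (2 * ‖e‖ * (1 + ‖y - z‖))) *
        ((1 + ‖w - y‖) ^ 2 * ga b' (w - y))) := i1.const_mul _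
    have i3 := i2.comp_snd ν
    refine i3.mono' ?_ (Filter.Eventually.of_forall fun p => ?_)
    · refine Continuous.aestronglyMeasurable ?_
      have c1 : Continuous fun p : X d × X d => (n - 8 * ⟪p.1 - z, p.1 - p.2⟫ : ℝ) := by
        fun_prop
      have c2 : Continuous fun p : X d × X d =>
          (⟪(p.2 - z) + (b' / 4) • (p.2 - y), e⟫ : ℝ) := by
        fun_prop
      exact ((c1.mul ((ga_continuous 4).comp (continuous_fst.sub continuous_snd))).mul
        ((ga_continuous b').comp (continuous_snd.sub continuous_const))).mul c2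
    · obtain ⟨x, w⟩ := p
      simp only [Function.uncurry]
      rw [norm_mul, norm_mul, norm_mul, Real.norm_of_nonneg (ga_nonneg 4 (x - w)),
        Real.norm_of_nonneg (ga_nonneg b' (w - y))]
      have h1 : ‖(n - 8 * ⟪x - z, x - w⟫ : ℝ)‖ ≤ (n + 8) * ((1 + ‖x - w‖) ^ 2 *
          (1 + ‖w - z‖)) := by
        have h2 : |⟪x - z, x - w⟫| ≤ ‖x - z‖ * ‖x - w‖ := abs_real_inner_le_norm _ _
        have h3 : ‖x - z‖ ≤ ‖x - w‖ + ‖w - z‖ := norm_sub_le_norm_sub_add_norm_sub x w z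
        have h4 : ‖x - z‖ * ‖x - w‖ ≤ (1 + ‖x - w‖) ^ 2 * (1 + ‖w - z‖) := by
          have h5 := mul_le_mul_of_nonneg_right h3 (norm_nonneg (x - w))
          nlinarith [norm_nonneg (x - w), norm_nonneg (w - z),
            mul_nonneg (norm_nonneg (x - w)) (norm_nonneg (w - z)),
            mul_nonneg (mul_nonneg (norm_nonneg (x - w)) (norm_nonneg (x - w)))
              (norm_nonneg (w - z)), mul_nonneg (norm_nonneg (x - w)) (norm_nonneg (x - w))]
        have h6 : (1 : ℝ) ≤ (1 + ‖x - w‖) ^ 2 * (1 + ‖w - z‖) := by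
          have h7 : (1 : ℝ) ≤ (1 + ‖x - w‖) ^ 2 := one_le_pow₀ (by linarith [norm_nonneg (x - w)])
          have h8 : (1 : ℝ) ≤ 1 + ‖w - z‖ := by linarith [norm_nonneg (w - z)]
          nlinarith
        have h9 : ‖(n - 8 * ⟪x - z, x - w⟫ : ℝ)‖ ≤ n + 8 * |⟪x - z, x - w⟫| := by
          rw [Real.norm_eq_abs]
          refine (abs_sub _ _).trans ?_
          rw [abs_mul, abs_of_nonneg (Nat.cast_nonneg n : (0 : ℝ) ≤ n),
            abs_of_nonneg (by norm_num : (0 : ℝ) ≤ 8)]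
        have h10 : (n : ℝ) ≤ n * ((1 + ‖x - w‖) ^ 2 * (1 + ‖w - z‖)) :=
          le_mul_of_one_le_right (Nat.cast_nonneg n) h6
        calc ‖(n - 8 * ⟪x - z, x - w⟫ : ℝ)‖ ≤ n + 8 * |⟪x - z, x - w⟫| := h9
          _ ≤ n * ((1 + ‖x - w‖) ^ 2 * (1 + ‖w - z‖)) +
              8 * ((1 + ‖x - w‖) ^ 2 * (1 + ‖w - z‖)) := by
            linarith [h2.trans h4]
          _ = _ := by ring
      have h11 : (1 + ‖x - w‖) ^ 2 * ga 4 (x - w) ≤ C := by
        have := hp (x - w)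
        simpa [ga] using this
      have h12 : (1 + ‖w - z‖) ≤ (1 + ‖w - y‖) * (1 + ‖y - z‖) := by
        simpa using peetre 1 w y z
      have h13 := SupL_lin hb' hb4 w y z e
      rw [← Real.norm_eq_abs] at h13
      calc ‖(n - 8 * ⟪x - z, x - w⟫ : ℝ)‖ * ga 4 (x - w) * ga b' (w - y) *
            ‖⟪(w - z) + (b' / 4) • (w - y), e⟫‖
          ≤ (n + 8) * ((1 + ‖x - w‖) ^ 2 * (1 + ‖w - z‖)) * ga 4 (x - w) * ga b' (w - y) *
            (2 * ‖e‖ * ((1 + ‖w - y‖) * (1 + ‖y - z‖))) := by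
            have := ga_nonneg 4 (x - w)
            have := ga_nonneg b' (w - y)
            gcongr
        _ = (n + 8) * ((1 + ‖x - w‖) ^ 2 * ga 4 (x - w)) * (1 + ‖w - z‖) * ga b' (w - y) *
            (2 * ‖e‖ * ((1 + ‖w - y‖) * (1 + ‖y - z‖))) := by
            ring
        _ ≤ (n + 8) * C * ((1 + ‖w - y‖) * (1 + ‖y - z‖)) * ga b' (w - y) *
            (2 * ‖e‖ * ((1 + ‖w - y‖) * (1 + ‖y - z‖))) := by
            have := ga_nonneg b' (w - y)
            gcongr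
        _ = _ := by ring
  have h1 := integral_integral_swap hint
  have h2 : ∀ x : X d, ∫ w : X d, (((n - 8 * ⟪x - z, x - w⟫) * ga 4 (x - w)) * ga b' (w - y)) *
        ⟪(w - z) + (b' / 4) • (w - y), e⟫ =
      gc d (4 + b') * (((n + 1 - 2 * b * ⟪x - z, x - y⟫) * ⟪x - z, e⟫) * ga b (x - y)) :=
    fun x => SupL_scalar n hb' hbb x y z e
  rw [integral_congr_ae (Filter.Eventually.of_forall h2), integral_const_mul] at h1
  rw [Lf, h1]
  refine integral_congr_ae (Filter.Eventually.of_forall fun w => ?_)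
  simp only
  rw [integral_mul_const, integral_mul_const, Jf]
  congr 1
  rw [mul_comm]
  congr 1
  refine integral_congr_ae (Filter.Eventually.of_forall fun x => ?_)
  simp only
  norm_num

theorem L_wide (d n K : ℕ) : ∃ C : ℝ, 0 < C ∧ ∀ (ν : Measure (X d)) (S : Set (X d)) (D : X d → ℝ),
    Sd n K ν S D → ∀ b : ℝ, 1 / 16 ≤ b → b ≤ 2 → ∀ z ∈ S, ∀ y e,
      |Lf n ν b z y e| ≤ C * ‖e‖ * (1 + ‖y - z‖) ^ (K + 1) * Real.sqrt (D z) := by
  have h16 : (0 : ℝ) < 1 / 16 := by norm_num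
  have iK := ga_integrable (d := d) h16 (K + 1)
  set I : ℝ := ∫ w : X d, (1 + ‖w‖) ^ (K + 1) * ga (1 / 16) w with hI
  have hI0 : 0 ≤ I := integral_nonneg fun w => mul_nonneg (by positivity) (ga_nonneg _ _)
  have hg8 : 0 < gc d 8 := gc_pos (by norm_num)
  refine ⟨2 * (I + 1) / gc d 8, by positivity, ?_⟩
  intro ν S D hS b hb1 hb2 z hz y e
  have := hS.fin
  have hb4 : 0 < 4 - b := by linarith
  have hb0 : 0 < b := by linarith
  set b' : ℝ := 4 * b / (4 - b) with hb'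
  have hb'0 : 0 < b' := by positivity
  have hbb' : b ≤ b' := by
    rw [hb', le_div_iff₀ hb4]
    nlinarith
  have hb'4 : b' ≤ 4 := by
    rw [hb', div_le_iff₀ hb4]
    nlinarith
  have hbb : 4 * b' / (4 + b') = b := by
    have h4 : (4 : ℝ) + b' ≠ 0 := by positivity
    rw [div_eq_iff h4, hb']
    field_simp
    ring
  have h1 := SupL_fubini n ν hb'0 hb'4 hbb z y e
  have h2 : |gc d (4 + b') * Lf n ν b z y e| ≤
      Real.sqrt (D z) * (2 * ‖e‖) * (1 + ‖y - z‖) ^ (K + 1) * I := by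
    rw [h1, ← Real.norm_eq_abs]
    have i2 : Integrable (fun w : X d => Real.sqrt (D z) * (2 * ‖e‖) * (1 + ‖y - z‖) ^ (K + 1) *
        ((1 + ‖w - y‖) ^ (K + 1) * ga (1 / 16) (w - y))) := (iK.comp_sub_right y).const_mul _
    have h3 := norm_integral_le_of_norm_le i2
      (f := fun w : X d => ga b' (w - y) * Jf n ν 4 z w * ⟪(w - z) + (b' / 4) • (w - y), e⟫)
      (Filter.Eventually.of_forall fun w => ?_)
    · rw [integral_const_mul] at h3
      have h4 := integral_sub_right_eq_self (μ := volume)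
        (fun w : X d => (1 + ‖w‖) ^ (K + 1) * ga (1 / 16) w) y
      rw [h4] at h3
      exact h3
    · rw [norm_mul, norm_mul, Real.norm_of_nonneg (ga_nonneg b' (w - y)), Real.norm_eq_abs,
        Real.norm_eq_abs]
      have h5 := hS.j z hz w
      have h6 := peetre K w y z
      have h7 : ga b' (w - y) ≤ ga (1 / 16) (w - y) := ga_anti (by linarith) _
      have h8 := SupL_lin hb'0 hb'4 w y z e
      have hs := Real.sqrt_nonneg (D z)
      calc ga b' (w - y) * |Jf n ν 4 z w| * |⟪(w - z) + (b' / 4) • (w - y), e⟫|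
          ≤ ga (1 / 16) (w - y) * ((1 + ‖w - z‖) ^ K * Real.sqrt (D z)) *
            (2 * ‖e‖ * ((1 + ‖w - y‖) * (1 + ‖y - z‖))) := by
            have := ga_nonneg (1 / 16) (w - y)
            gcongr
        _ ≤ ga (1 / 16) (w - y) * (((1 + ‖w - y‖) ^ K * (1 + ‖y - z‖) ^ K) *
              Real.sqrt (D z)) * (2 * ‖e‖ * ((1 + ‖w - y‖) * (1 + ‖y - z‖))) := by
            have := ga_nonneg (1 / 16) (w - y)
            gcongr
        _ = _ := by ring
  have h8 : gc d 8 ≤ gc d (4 + b') := by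
    have j1 : Integrable (fun w : X d => ga 8 w) := by
      have := ga_integrable (d := d) (show (0 : ℝ) < 8 by norm_num) 0
      simpa using this
    have j2 : Integrable (fun w : X d => ga (4 + b') w) := by
      have := ga_integrable (d := d) (show (0 : ℝ) < 4 + b' by positivity) 0
      simpa using this
    exact integral_mono j1 j2 fun w => ga_anti (by linarith) w
  rw [abs_mul, abs_of_pos (hg8.trans_le h8)] at h2
  have hs := Real.sqrt_nonneg (D z)
  have h9 : gc d 8 * |Lf n ν b z y e| ≤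
      Real.sqrt (D z) * (2 * ‖e‖) * (1 + ‖y - z‖) ^ (K + 1) * (I + 1) := by
    calc gc d 8 * |Lf n ν b z y e| ≤ gc d (4 + b') * |Lf n ν b z y e| :=
          mul_le_mul_of_nonneg_right h8 (abs_nonneg _)
      _ ≤ Real.sqrt (D z) * (2 * ‖e‖) * (1 + ‖y - z‖) ^ (K + 1) * I := h2
      _ ≤ _ := by gcongr; linarith
  calc |Lf n ν b z y e| = (gc d 8 * |Lf n ν b z y e|) / gc d 8 := by field_simp
    _ ≤ (Real.sqrt (D z) * (2 * ‖e‖) * (1 + ‖y - z‖) ^ (K + 1) * (I + 1)) / gc d 8 := by gcongr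
    _ = _ := by ring

end Pool.Agent.H1.LD
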