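import Pool.Agent.H1.LD.Gau

/-!
J_wide.  Put b' = 4b/(4-b) > 0 (b ≤ 2), so 4b'/(4+b') = b and 8b'/(4+b') = 2b.  For fixed x, z, y (u = x - z) the formula
   ∫ (n - 8⟪x-z, x-X⟫) ga 4 (x-X) ga b' (X-y) dX = gc(4+b') (n - 2b⟪x-z,x-y⟫) ga b (x-y)
holds: ga_square with b₁ = 4, b₂ = b', centres x and y: X = m + w, m = (4x+b'y)/(4+b'), x - X = (b'/(4+b'))(x-y) - w, the term linear in w is odd.
Fubini (ν finite; |x-z| may be unbounded in x, but |x-z| ≤ |x-X| + |X-z| and (1+|x-X|)^2 ga 4 (x-X) is bounded, so the double integrand is bounded by C(1+|X-z|) ga b' (X-y), integrable for ν × dX):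
   gc(4+b') Jf n ν b z y = ∫ ga b' (X-y) Jf n ν 4 z X dX.
Hence |gc(4+b') Jf n ν b z y| ≤ sqrt(D z) ∫ ga b' (X-y) (1+|X-z|)^K dX ≤ sqrt(D z) (1+|y-z|)^K ∫ (1+|w|)^K ga b' w dw (peetre).
Uniformity in b in [1/16, 2]: b' ≥ b ≥ 1/16 and gc(4+b') ≥ gc 8 (b' ≤ 4), ga b' ≤ ga (1/16).  C depends only on d, n, K.
-/

set_option autoImplicit false

open MeasureTheory Filter Topology Metric Set
open scoped RealInnerProductSpace ENNReal

namespace Pool.Agent.H1.LD

open Pool.Agent.RZ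

variable {d : ℕ}

/-- the scalar formula -/
private theorem SupJ_scalar (n : ℕ) {b b' : ℝ} (hb' : 0 < b') (hbb : 4 * b' / (4 + b') = b)
    (x y z : X d) :
    ∫ w : X d, ((n - 8 * ⟪x - z, x - w⟫) * ga 4 (x - w)) * ga b' (w - y) =
      gc d (4 + b') * ((n - 2 * b * ⟪x - z, x - y⟫) * ga b (x - y)) := by
  have h4 : (0 : ℝ) < 4 + b' := by linarith
  have h1 := ga_square (E := ℝ) (show (0 : ℝ) < 4 by norm_num) hb' x y
    (fun w : X d => (n - 8 * ⟪x - z, x - w⟫ : ℝ))
  simp only [smul_eq_mul] at h1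
  have e1 : ∀ w : X d, x - ((4 + b')⁻¹ • ((4 : ℝ) • x + b' • y) + w) =
      (b / 4) • (x - y) - w := by
    intro w
    have e2 : b / 4 = b' / (4 + b') := by rw [← hbb]; field_simp
    have e3 : x = ((4 + b')⁻¹ * (4 + b')) • x := by
      rw [inv_mul_cancel₀ h4.ne', one_smul]
    rw [e2]
    nth_rw 1 [e3]
    rw [smul_add, smul_smul, smul_smul, div_eq_inv_mul, smul_sub, mul_add, add_smul]
    abel
  have h2 : ∀ w : X d, ga (4 + b') w * (n - 8 * ⟪x - z,
      x - ((4 + b')⁻¹ • ((4 : ℝ) • x + b' • y) + w)⟫) =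
      (n - 2 * b * ⟪x - z, x - y⟫) * ga (4 + b') w + 8 * (ga (4 + b') w * ⟪w, x - z⟫) := by
    intro w
    rw [e1 w, inner_sub_right, inner_smul_right, real_inner_comm w (x - z)]
    ring
  have i0 : Integrable (fun w : X d => ga (4 + b') w) := by
    have := ga_integrable (d := d) h4 0
    simpa using this
  have i1 : Integrable (fun w : X d => ga (4 + b') w * ⟪w, x - z⟫) := by
    refine ((ga_integrable (d := d) h4 1).const_mul ‖x - z‖).mono' ?_
      (Filter.Eventually.of_forall fun w => ?_)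
    · exact ((ga_continuous (4 + b')).mul
        (continuous_id.inner continuous_const)).aestronglyMeasurable
    · rw [norm_mul, Real.norm_of_nonneg (ga_nonneg (4 + b') w)]
      have h3 : ‖⟪w, x - z⟫‖ ≤ ‖w‖ * ‖x - z‖ := norm_inner_le_norm w (x - z)
      have h5 : ‖w‖ * ‖x - z‖ ≤ (1 + ‖w‖) * ‖x - z‖ :=
        mul_le_mul_of_nonneg_right (by linarith [norm_nonneg w]) (norm_nonneg _)
      have h6 := mul_le_mul_of_nonneg_left (h3.trans h5) (ga_nonneg (4 + b') w)
      calc ga (4 + b') w * ‖⟪w, x - z⟫‖ ≤ ga (4 + b') w * ((1 + ‖w‖) * ‖x - z‖) := h6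
        _ = ‖x - z‖ * ((1 + ‖w‖) ^ 1 * ga (4 + b') w) := by ring
  have h7 : ∫ w : X d, ga (4 + b') w * (n - 8 * ⟪x - z,
      x - ((4 + b')⁻¹ • ((4 : ℝ) • x + b' • y) + w)⟫) =
      (n - 2 * b * ⟪x - z, x - y⟫) * gc d (4 + b') := by
    rw [integral_congr_ae (Filter.Eventually.of_forall h2),
      integral_add (i0.const_mul _) (i1.const_mul _), integral_const_mul, integral_const_mul,
      ga_odd]
    simp [gc]
  rw [h7, hbb] at h1
  calc ∫ w : X d, ((n - 8 * ⟪x - z, x - w⟫) * ga 4 (x - w)) * ga b' (w - y)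
      = ∫ w : X d, ga 4 (x - w) * ga b' (w - y) * (n - 8 * ⟪x - z, x - w⟫) := by
        refine integral_congr_ae (Filter.Eventually.of_forall fun w => ?_)
        simp only
        ring
    _ = _ := by rw [h1]; ring

/-- Fubini -/
private theorem SupJ_fubini (n : ℕ) (ν : Measure (X d)) [IsFiniteMeasure ν] {b b' : ℝ}
    (hb' : 0 < b') (hbb : 4 * b' / (4 + b') = b) (z y : X d) :
    gc d (4 + b') * Jf n ν b z y = ∫ w : X d, ga b' (w - y) * Jf n ν 4 z w := by
  obtain ⟨C, hC, hp⟩ := poly_ga d 2 (show (0 : ℝ) < 4 by norm_num)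
  have hint : Integrable (Function.uncurry fun (x w : X d) =>
      ((n - 8 * ⟪x - z, x - w⟫) * ga 4 (x - w)) * ga b' (w - y)) (ν.prod volume) := by
    have i1 : Integrable (fun w : X d => (1 + ‖w - y‖) ^ 1 * ga b' (w - y)) :=
      (ga_integrable (d := d) hb' 1).comp_sub_right y
    have i2 : Integrable (fun w : X d => ((n + 8) * C * (1 + ‖y - z‖)) *
        ((1 + ‖w - y‖) ^ 1 * ga b' (w - y))) := i1.const_mul _
    have i3 := i2.comp_snd ν
    refine i3.mono' ?_ (Filter.Eventually.of_forall fun p => ?_)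
    · refine Continuous.aestronglyMeasurable ?_
      have c1 : Continuous fun p : X d × X d => (n - 8 * ⟪p.1 - z, p.1 - p.2⟫ : ℝ) := by
        fun_prop
      exact (c1.mul ((ga_continuous 4).comp (continuous_fst.sub continuous_snd))).mul
        ((ga_continuous b').comp (continuous_snd.sub continuous_const))
    · obtain ⟨x, w⟩ := p
      simp only [Function.uncurry]
      rw [norm_mul, norm_mul, Real.norm_of_nonneg (ga_nonneg 4 (x - w)),
        Real.norm_of_nonneg (ga_nonneg b' (w - y))]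
      have h1 : ‖(n - 8 * ⟪x - z, x - w⟫ : ℝ)‖ ≤ (n + 8) * ((1 + ‖x - w‖) ^ 2 *
          (1 + ‖w - z‖)) := by
        have h2 : |⟪x - z, x - w⟫| ≤ ‖x - z‖ * ‖x - w‖ := abs_real_inner_le_norm _ _
        have h3 : ‖x - z‖ ≤ ‖x - w‖ + ‖w - z‖ := norm_sub_le_norm_sub_add_norm_sub x w z
        have h4 : ‖x - z‖ * ‖x - w‖ ≤ (1 + ‖x - w‖) ^ 2 * (1 + ‖w - z‖) := by
          have h5 := mul_le_mul_of_nonneg_right h3 (norm_nonneg (x - w))
          nlinarith [norm_nonneg (x - w), norm_nonneg (w - z),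
            mul_nonneg (norm_nonneg (x - w)) (norm_nonneg (w - z)),
            mul_nonneg (mul_nonneg (norm_nonneg (x - w)) (norm_nonneg (x - w)))
              (norm_nonneg (w - z)), mul_nonneg (norm_nonneg (x - w)) (norm_nonneg (x - w))]
        have h6 : (1 : ℝ) ≤ (1 + ‖x - w‖) ^ 2 * (1 + ‖w - z‖) := by
          have h7 : (1 : ℝ) ≤ (1 + ‖x - w‖) ^ 2 := one_le_pow₀ (by linarith [norm_nonneg (x - w)])
          have h8 : (1 : ℝ) ≤ 1 + ‖w - z‖ := by linarith [norm_nonneg (w - z)]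
          nlinarith
        have h9 : ‖(n - 8 * ⟪x - z, x - w⟫ : ℝ)‖ ≤ n + 8 * |⟪x - z, x - w⟫| := by
          rw [Real.norm_eq_abs]
          refine (abs_sub _ _).trans ?_
          rw [abs_mul, abs_of_nonneg (Nat.cast_nonneg n : (0 : ℝ) ≤ n),
            abs_of_nonneg (by norm_num : (0 : ℝ) ≤ 8)]
        have h10 : (n : ℝ) ≤ n * ((1 + ‖x - w‖) ^ 2 * (1 + ‖w - z‖)) :=
          le_mul_of_one_le_right (Nat.cast_nonneg n) h6
        calc ‖(n - 8 * ⟪x - z, x - w⟫ : ℝ)‖ ≤ n + 8 * |⟪x - z, x - w⟫| := h9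
          _ ≤ n * ((1 + ‖x - w‖) ^ 2 * (1 + ‖w - z‖)) +
              8 * ((1 + ‖x - w‖) ^ 2 * (1 + ‖w - z‖)) := by
            linarith [h2.trans h4]
          _ = _ := by ring
      have h11 : (1 + ‖x - w‖) ^ 2 * ga 4 (x - w) ≤ C := by
        have := hp (x - w)
        simpa [ga] using this
      have h12 : (1 + ‖w - z‖) ≤ (1 + ‖w - y‖) * (1 + ‖y - z‖) := by
        simpa using peetre 1 w y z
      calc ‖(n - 8 * ⟪x - z, x - w⟫ : ℝ)‖ * ga 4 (x - w) * ga b' (w - y)
          ≤ (n + 8) * ((1 + ‖x - w‖) ^ 2 * (1 + ‖w - z‖)) * ga 4 (x - w) * ga b' (w - y) := by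
            have := ga_nonneg 4 (x - w)
            have := ga_nonneg b' (w - y)
            gcongr
        _ = (n + 8) * ((1 + ‖x - w‖) ^ 2 * ga 4 (x - w)) * (1 + ‖w - z‖) * ga b' (w - y) := by
            ring
        _ ≤ (n + 8) * C * ((1 + ‖w - y‖) * (1 + ‖y - z‖)) * ga b' (w - y) := by
            have := ga_nonneg b' (w - y)
            gcongr
        _ = _ := by ring
  have h1 := integral_integral_swap hint
  have h2 : ∀ x : X d, ∫ w : X d, ((n - 8 * ⟪x - z, x - w⟫) * ga 4 (x - w)) * ga b' (w - y) =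
      gc d (4 + b') * ((n - 2 * b * ⟪x - z, x - y⟫) * ga b (x - y)) :=
    fun x => SupJ_scalar n hb' hbb x y z
  rw [integral_congr_ae (Filter.Eventually.of_forall h2), integral_const_mul] at h1
  rw [Jf, h1]
  refine integral_congr_ae (Filter.Eventually.of_forall fun w => ?_)
  simp only
  rw [integral_mul_const, mul_comm, Jf]
  congr 1
  refine integral_congr_ae (Filter.Eventually.of_forall fun x => ?_)
  simp only
  norm_num

theorem J_wide (d n K : ℕ) : ∃ C : ℝ, 0 < C ∧ ∀ (ν : Measure (X d)) (S : Set (X d)) (D : X d → ℝ),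
    Sd n K ν S D → ∀ b : ℝ, 1 / 16 ≤ b → b ≤ 2 → ∀ z ∈ S, ∀ y,
      |Jf n ν b z y| ≤ C * (1 + ‖y - z‖) ^ K * Real.sqrt (D z) := by
  have h16 : (0 : ℝ) < 1 / 16 := by norm_num
  have iK := ga_integrable (d := d) h16 K
  set I : ℝ := ∫ w : X d, (1 + ‖w‖) ^ K * ga (1 / 16) w with hI
  have hI0 : 0 ≤ I := integral_nonneg fun w => mul_nonneg (by positivity) (ga_nonneg _ _)
  have hg8 : 0 < gc d 8 := gc_pos (by norm_num)
  refine ⟨(I + 1) / gc d 8, by positivity, ?_⟩
  intro ν S D hS b hb1 hb2 z hz y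
  have := hS.fin
  have hb4 : 0 < 4 - b := by linarith
  have hb0 : 0 < b := by linarith
  set b' : ℝ := 4 * b / (4 - b) with hb'
  have hb'0 : 0 < b' := by positivity
  have hbb' : b ≤ b' := by
    rw [hb', le_div_iff₀ hb4]
    nlinarith
  have hb'4 : b' ≤ 4 := by
    rw [hb', div_le_iff₀ hb4]
    nlinarith
  have hbb : 4 * b' / (4 + b') = b := by
    have h4 : (4 : ℝ) + b' ≠ 0 := by positivity
    rw [div_eq_iff h4, hb']
    field_simp
    ring
  have h1 := SupJ_fubini n ν hb'0 hbb z y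
  have h2 : |gc d (4 + b') * Jf n ν b z y| ≤
      Real.sqrt (D z) * (1 + ‖y - z‖) ^ K * I := by
    rw [h1, ← Real.norm_eq_abs]
    have i2 : Integrable (fun w : X d => Real.sqrt (D z) * (1 + ‖y - z‖) ^ K *
        ((1 + ‖w - y‖) ^ K * ga (1 / 16) (w - y))) := (iK.comp_sub_right y).const_mul _
    have h3 := norm_integral_le_of_norm_le i2
      (f := fun w : X d => ga b' (w - y) * Jf n ν 4 z w)
      (Filter.Eventually.of_forall fun w => ?_)
    · rw [integral_const_mul] at h3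
      have h4 := integral_sub_right_eq_self (μ := volume)
        (fun w : X d => (1 + ‖w‖) ^ K * ga (1 / 16) w) y
      rw [h4] at h3
      exact h3
    · rw [norm_mul, Real.norm_of_nonneg (ga_nonneg b' (w - y)), Real.norm_eq_abs]
      have h5 := hS.j z hz w
      have h6 := peetre K w y z
      have h7 : ga b' (w - y) ≤ ga (1 / 16) (w - y) := ga_anti (by linarith) _
      have hs := Real.sqrt_nonneg (D z)
      calc ga b' (w - y) * |Jf n ν 4 z w|
          ≤ ga (1 / 16) (w - y) * ((1 + ‖w - z‖) ^ K * Real.sqrt (D z)) := by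
            have := ga_nonneg (1 / 16) (w - y)
            gcongr
        _ ≤ ga (1 / 16) (w - y) * (((1 + ‖w - y‖) ^ K * (1 + ‖y - z‖) ^ K) *
              Real.sqrt (D z)) := by
            have := ga_nonneg (1 / 16) (w - y)
            gcongr
        _ = _ := by ring
  have h8 : gc d 8 ≤ gc d (4 + b') := by
    have j1 : Integrable (fun w : X d => ga 8 w) := by
      have := ga_integrable (d := d) (show (0 : ℝ) < 8 by norm_num) 0
      simpa using this
    have j2 : Integrable (fun w : X d => ga (4 + b') w) := by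
      have := ga_integrable (d := d) (show (0 : ℝ) < 4 + b' by positivity) 0
      simpa using this
    exact integral_mono j1 j2 fun w => ga_anti (by linarith) w
  rw [abs_mul, abs_of_pos (hg8.trans_le h8)] at h2
  have hs := Real.sqrt_nonneg (D z)
  have h9 : gc d 8 * |Jf n ν b z y| ≤ Real.sqrt (D z) * (1 + ‖y - z‖) ^ K * (I + 1) := by
    calc gc d 8 * |Jf n ν b z y| ≤ gc d (4 + b') * |Jf n ν b z y| :=
          mul_le_mul_of_nonneg_right h8 (abs_nonneg _)
      _ ≤ Real.sqrt (D z) * (1 + ‖y - z‖) ^ K * I := h2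
      _ ≤ _ := by gcongr; linarith
  calc |Jf n ν b z y| = (gc d 8 * |Jf n ν b z y|) / gc d 8 := by field_simp
    _ ≤ (Real.sqrt (D z) * (1 + ‖y - z‖) ^ K * (I + 1)) / gc d 8 := by gcongr
    _ = _ := by ring

end Pool.Agent.H1.LD
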