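import Pool.Agent.H1.LD.Tk

/-!
T_bad.  |⟪e,Uv ν 1 w⟫| ≤ ‖Uv ν 1 w‖ ≤ ∫ |p-w| ga 1 (p-w) dν(p) ≤ C ∫ ga (1/2)(p-w) dν(p).  Tonelli and ga_square (f = 1): ∫_w ga (1/10)(w-x) ga (1/2)(p-w) dw = gc(3/5) ga (1/12)(p-x) ≤ gc(3/5) ga (1/16)(p-x).
So ∫_w |⟪e,Uv ν 1 w⟫| ga (1/10)(w-x) dw ≤ C th ν (1/16) x ≤ C A sqrt(D x); Te_bound; sqrt(D)^2 = D.
-/

set_option autoImplicit false

open MeasureTheory Filter Topology Metric Set
open scoped RealInnerProductSpace ENNReal

namespace Pool.Agent.H1.LD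

open Pool.Agent.RZ

variable {d : ℕ}

/-- the narrow first moment is bounded by the density -/
private theorem T0_Uv (d : ℕ) : ∃ C : ℝ, 0 < C ∧ ∀ (ν : Measure (X d)), IsFiniteMeasure ν →
    ∀ w : X d, ‖Uv ν 1 w‖ ≤ C * th ν (1 / 2) w := by
  obtain ⟨C, hC, h⟩ := poly_ga d 1 (b := 1) (b' := 1 / 2) (by norm_num)
  refine ⟨C, hC, ?_⟩
  intro ν hν w
  have hi : Integrable (fun x : X d => C * ga (1 / 2) (x - w)) ν := by
    have h0 := (poly_int ν (b := 1 / 2) (by norm_num) 0 w).const_mul C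
    simpa using h0
  unfold Uv th
  rw [← integral_const_mul]
  refine norm_integral_le_of_norm_le hi (ae_of_all _ fun x => ?_)
  rw [norm_smul, Real.norm_eq_abs, abs_of_nonneg (ga_nonneg _ _)]
  refine le_trans ?_ (h (x - w))
  rw [pow_one, mul_comm]
  exact mul_le_mul_of_nonneg_right (by linarith) (ga_nonneg _ _)

/-- joint integrability of the product of the two Gaussians -/
private theorem T0_int (ν : Measure (X d)) [IsFiniteMeasure ν] (x : X d) :
    Integrable (Function.uncurry fun (w p : X d) => ga (1 / 2) (p - w) * ga (1 / 10) (w - x))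
      ((volume : Measure (X d)).prod ν) := by
  have h0 : Integrable (fun w : X d => ga (1 / 10) (w - x)) := by
    have h1 : Integrable (fun w : X d => ga (1 / 10) w) := by
      simpa using ga_integrable (d := d) (b := 1 / 10) (by norm_num) 0
    exact h1.comp_sub_right x
  have h2 : Integrable (fun q : X d × X d => ga (1 / 10) (q.1 - x))
      ((volume : Measure (X d)).prod ν) := h0.comp_fst ν
  refine h2.mono' ?_ (ae_of_all _ fun q => ?_)
  · apply Continuous.aestronglyMeasurable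
    exact ((ga_continuous _).comp (continuous_snd.sub continuous_fst)).mul
      ((ga_continuous _).comp (continuous_fst.sub continuous_const))
  · show ‖ga (1 / 2) (q.2 - q.1) * ga (1 / 10) (q.1 - x)‖ ≤ _
    rw [Real.norm_eq_abs, abs_of_nonneg (mul_nonneg (ga_nonneg _ _) (ga_nonneg _ _))]
    exact mul_le_of_le_one_left (ga_nonneg _ _) (ga_le_one (by norm_num) _)

/-- the average of the density -/
private theorem T0_avg (ν : Measure (X d)) [IsFiniteMeasure ν] (x : X d) :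
    ∫ w, th ν (1 / 2) w * ga (1 / 10) (w - x) ≤ gc d (1 / 2 + 1 / 10) * th ν (1 / 16) x := by
  have h1 : ∫ w, th ν (1 / 2) w * ga (1 / 10) (w - x) =
      ∫ w, ∫ p, ga (1 / 2) (p - w) * ga (1 / 10) (w - x) ∂ν := by
    refine integral_congr_ae (ae_of_all _ fun w => ?_)
    show (∫ p, ga (1 / 2) (p - w) ∂ν) * ga (1 / 10) (w - x) = _
    rw [← integral_mul_const]
  rw [h1, integral_integral_swap (T0_int ν x)]
  have h2 : ∀ p : X d, ∫ w, ga (1 / 2) (p - w) * ga (1 / 10) (w - x) =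
      gc d (1 / 2 + 1 / 10) * ga (1 / 12) (p - x) := by
    intro p
    have h3 := ga_square (d := d) (b₁ := 1 / 2) (b₂ := 1 / 10) (by norm_num) (by norm_num) p x
      (fun _ => (1 : ℝ))
    simp only [smul_eq_mul, mul_one] at h3
    rw [h3, mul_comm]
    unfold gc
    congr 2
    norm_num
  simp only [h2]
  rw [integral_const_mul]
  refine mul_le_mul_of_nonneg_left ?_ (gc_pos (by norm_num)).le
  unfold th
  have hi : ∀ b : ℝ, 0 < b → Integrable (fun p : X d => ga b (p - x)) ν := by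
    intro b hb
    simpa using poly_int ν hb 0 x
  refine integral_mono (hi _ (by norm_num)) (hi _ (by norm_num)) fun p => ?_
  exact ga_anti (by norm_num) _

theorem T_bad (d n K : ℕ) (A : ℝ) (hA : 0 ≤ A) : ∃ C : ℝ, 0 < C ∧ ∀ (ν : Measure (X d))
    (S : Set (X d)) (D : X d → ℝ), Sd n K ν S D → ∀ b : ℝ, 0 < b → b ≤ 1 / 2 → ∀ z₀ : X d,
      ∀ x ∈ S, ∀ e : X d, ‖e‖ ≤ 1 → th ν (1 / 16) x ≤ A * Real.sqrt (D x) →
      |Te n ν b z₀ x e| ≤ C * (ga (b / 6) (x - z₀) * D x) := by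
  obtain ⟨C0, hC0, h0⟩ := Te_bound d n K
  obtain ⟨C1, hC1, h1⟩ := T0_Uv d
  have hg : 0 < gc d (1 / 2 + 1 / 10) := gc_pos (by norm_num)
  refine ⟨C0 * (C1 * (gc d (1 / 2 + 1 / 10) * (A + 1))), by positivity, ?_⟩
  intro ν S D hS b hb hb2 z₀ x hx e he hth
  have := hS.fin
  have hT := h0 ν S D hS b hb hb2 z₀ x hx e he
  have hI : ∫ w, |⟪e, Uv ν 1 w⟫| * ga (1 / 10) (w - x) ≤
      C1 * (gc d (1 / 2 + 1 / 10) * th ν (1 / 16) x) := by
    have ha : ∫ w, |⟪e, Uv ν 1 w⟫| * ga (1 / 10) (w - x) ≤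
        ∫ w, C1 * (th ν (1 / 2) w * ga (1 / 10) (w - x)) := by
      refine integral_mono_of_nonneg (ae_of_all _ fun w => ?_) ?_ (ae_of_all _ fun w => ?_)
      · exact mul_nonneg (abs_nonneg _) (ga_nonneg _ _)
      · have hj := (T0_int ν x).integral_prod_left
        refine (hj.const_mul C1).congr (ae_of_all _ fun w => ?_)
        show C1 * (∫ p, ga (1 / 2) (p - w) * ga (1 / 10) (w - x) ∂ν) =
          C1 * ((∫ p, ga (1 / 2) (p - w) ∂ν) * ga (1 / 10) (w - x))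
        rw [integral_mul_const]
      · show |⟪e, Uv ν 1 w⟫| * ga (1 / 10) (w - x) ≤ C1 * (th ν (1 / 2) w * ga (1 / 10) (w - x))
        rw [← mul_assoc]
        refine mul_le_mul_of_nonneg_right ?_ (ga_nonneg _ _)
        calc |⟪e, Uv ν 1 w⟫| ≤ ‖e‖ * ‖Uv ν 1 w‖ := abs_real_inner_le_norm _ _
          _ ≤ 1 * ‖Uv ν 1 w‖ := mul_le_mul_of_nonneg_right he (norm_nonneg _)
          _ = ‖Uv ν 1 w‖ := one_mul _
          _ ≤ C1 * th ν (1 / 2) w := h1 ν inferInstance w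
    rw [integral_const_mul] at ha
    exact ha.trans (mul_le_mul_of_nonneg_left (T0_avg ν x) hC1.le)
  have hs : Real.sqrt (D x) * Real.sqrt (D x) = D x := Real.mul_self_sqrt (hS.nn x)
  have hs0 : 0 ≤ Real.sqrt (D x) := Real.sqrt_nonneg _
  have hga := ga_nonneg (b / 6) (x - z₀)
  have hth2 : th ν (1 / 16) x ≤ (A + 1) * Real.sqrt (D x) := by nlinarith
  calc |Te n ν b z₀ x e| ≤ C0 * ga (b / 6) (x - z₀) * Real.sqrt (D x) *
        ∫ w, |⟪e, Uv ν 1 w⟫| * ga (1 / 10) (w - x) := hT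
    _ ≤ C0 * ga (b / 6) (x - z₀) * Real.sqrt (D x) *
        (C1 * (gc d (1 / 2 + 1 / 10) * ((A + 1) * Real.sqrt (D x)))) := by
      refine mul_le_mul_of_nonneg_left (hI.trans ?_) (by positivity)
      exact mul_le_mul_of_nonneg_left (mul_le_mul_of_nonneg_left hth2 hg.le) hC1.le
    _ = C0 * (C1 * (gc d (1 / 2 + 1 / 10) * (A + 1))) * (ga (b / 6) (x - z₀) *
        (Real.sqrt (D x) * Real.sqrt (D x))) := by ring
    _ = C0 * (C1 * (gc d (1 / 2 + 1 / 10) * (A + 1))) * (ga (b / 6) (x - z₀) * D x) := by rw [hs]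

end Pool.Agent.H1.LD
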