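import Pool.Agent.H1.LD.Tk
import Pool.Agent.H1.LD.CovB
import Pool.Agent.H1.LD.Bnd

/-!
U_ell: apply the hypothesis with a = Uv ν 1 w: θ⟪e,a⟫^2 ≤ 2 ∫ ga (1/2)(y-x)⟪y-x,a⟫^2 dν(y); for a.e. y in S, U_diff (b = 1, points y and x, at w): |⟪y-x,a⟫| ≤ C((1+|w-y|)^K sqrt(D y) + (1+|w-x|)^K sqrt(D x));
 square, (1+|w-y|)^(2K) ≤ (1+|w-x|)^(2K)(1+|x-y|)^(2K) (peetre), (1+|y-x|)^(2K) ga (1/2) ≤ C ga (1/4): θ⟪e,a⟫^2 ≤ C (1+|w-x|)^(2K) (Db ν D x + D x θ).  Divide by θ (if θ = 0 then ν = 0 by th_pos and Uv = 0).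
T_ell: Te_bound, |⟪e,Uv ν 1 w⟫| ≤ C (1+|w-x|)^K sqrt(Yf), ∫ (1+|w-x|)^K ga (1/10)(w-x) dw = const, sqrt(D x) ≤ sqrt(Yf) (D_le_Yf).
-/

set_option autoImplicit false

open MeasureTheory Filter Topology Metric Set
open scoped RealInnerProductSpace ENNReal

namespace Pool.Agent.H1.LD

open Pool.Agent.RZ

variable {d : ℕ}

theorem U_ell (d n K : ℕ) : ∃ C : ℝ, 0 < C ∧ ∀ (ν : Measure (X d)) (S : Set (X d))
    (D : X d → ℝ), Sd n K ν S D → ∀ x ∈ S, ∀ e : X d,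
      (∀ a : X d, th ν (1 / 2) x * ⟪e, a⟫ ^ 2 ≤ 2 * ∫ y, ga (1 / 2) (y - x) * ⟪y - x, a⟫ ^ 2 ∂ν) →
      ∀ w : X d, ⟪e, Uv ν 1 w⟫ ^ 2 ≤ C * (1 + ‖w - x‖) ^ (2 * K) * Yf ν D x := by
  obtain ⟨C₁, hC₁, hU⟩ := U_diff d n K
  obtain ⟨C₂, hC₂, hP⟩ := poly_ga d (2 * K) (b := 1 / 2) (b' := 1 / 4) (by norm_num)
  refine ⟨4 * C₁ ^ 2 * (C₂ + 1), by positivity, ?_⟩
  intro ν S D h x hx e he w
  have := h.fin
  by_cases hν : ν = 0
  · have h0 : Uv ν 1 w = 0 := by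
      unfold Uv
      rw [hν, integral_zero_measure]
    rw [h0, inner_zero_right]
    have hY := Yf_nonneg h x
    have h1 : (0 : ℝ) ^ 2 = 0 := by norm_num
    rw [h1]
    positivity
  have hθ : 0 < th ν (1 / 2) x := th_pos hν (by norm_num) x
  set θ : ℝ := th ν (1 / 2) x with hθd
  set W : ℝ := (1 + ‖w - x‖) ^ (2 * K) with hW
  have hW0 : 0 ≤ W := by positivity
  set a : X d := Uv ν 1 w with ha
  have hDi : Integrable (fun y => ga (1 / 4) (y - x) * D y) ν := by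
    refine h.int.bdd_mul (c := 1) ?_ ?_
    · exact ((ga_continuous (1 / 4)).comp (continuous_id.sub continuous_const)).aestronglyMeasurable
    · refine Eventually.of_forall fun y => ?_
      rw [Real.norm_of_nonneg (ga_nonneg _ _)]
      exact ga_le_one (by norm_num) _
  have hgi : Integrable (fun y => ga (1 / 2) (y - x)) ν := by
    refine Integrable.of_bound (C := 1) ?_ ?_
    · exact ((ga_continuous (1 / 2)).comp (continuous_id.sub continuous_const)).aestronglyMeasurable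
    · refine Eventually.of_forall fun y => ?_
      rw [Real.norm_of_nonneg (ga_nonneg _ _)]
      exact ga_le_one (by norm_num) _
  have hth : ∫ y, ga (1 / 2) (y - x) ∂ν = θ := rfl
  have hpt : ∀ᵐ y ∂ν, ga (1 / 2) (y - x) * ⟪y - x, a⟫ ^ 2 ≤
      2 * C₁ ^ 2 * W * (C₂ * (ga (1 / 4) (y - x) * D y) + D x * ga (1 / 2) (y - x)) := by
    filter_upwards [h.ae] with y hy
    have h1 := hU ν S D h 1 (by norm_num) (by norm_num) y hy x hx w
    rw [← ha] at h1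
    have hDy := h.nn y
    have hDx := h.nn x
    have h2 : ⟪y - x, a⟫ ^ 2 ≤ (C₁ * ((1 + ‖w - y‖) ^ K * Real.sqrt (D y) +
        (1 + ‖w - x‖) ^ K * Real.sqrt (D x))) ^ 2 := by
      rw [← sq_abs]
      exact pow_le_pow_left₀ (abs_nonneg _) h1 2
    have h3 : (C₁ * ((1 + ‖w - y‖) ^ K * Real.sqrt (D y) +
        (1 + ‖w - x‖) ^ K * Real.sqrt (D x))) ^ 2 ≤
        2 * C₁ ^ 2 * ((1 + ‖w - y‖) ^ (2 * K) * D y + W * D x) := by
      have e1 : ((1 + ‖w - y‖) ^ K * Real.sqrt (D y)) ^ 2 = (1 + ‖w - y‖) ^ (2 * K) * D y := by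
        rw [mul_pow, Real.sq_sqrt hDy, ← pow_mul, mul_comm K 2]
      have e2 : ((1 + ‖w - x‖) ^ K * Real.sqrt (D x)) ^ 2 = W * D x := by
        rw [mul_pow, Real.sq_sqrt hDx, ← pow_mul, mul_comm K 2]
      have e3 := sq_nonneg ((1 + ‖w - y‖) ^ K * Real.sqrt (D y) - (1 + ‖w - x‖) ^ K * Real.sqrt (D x))
      have e4 : ((1 + ‖w - y‖) ^ K * Real.sqrt (D y) + (1 + ‖w - x‖) ^ K * Real.sqrt (D x)) ^ 2 ≤
          2 * ((1 + ‖w - y‖) ^ (2 * K) * D y + W * D x) := by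
        nlinarith
      rw [mul_pow]
      calc C₁ ^ 2 * ((1 + ‖w - y‖) ^ K * Real.sqrt (D y) + (1 + ‖w - x‖) ^ K * Real.sqrt (D x)) ^ 2
          ≤ C₁ ^ 2 * (2 * ((1 + ‖w - y‖) ^ (2 * K) * D y + W * D x)) :=
            mul_le_mul_of_nonneg_left e4 (by positivity)
        _ = _ := by ring
    have h4 : (1 + ‖w - y‖) ^ (2 * K) ≤ W * (1 + ‖y - x‖) ^ (2 * K) := by
      have := peetre (2 * K) w x y
      rwa [norm_sub_rev x y] at this
    have h5 := hP (y - x)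
    have hg : 0 ≤ ga (1 / 2) (y - x) := ga_nonneg _ _
    have h6 : ga (1 / 2) (y - x) * ((1 + ‖w - y‖) ^ (2 * K) * D y) ≤
        W * (C₂ * (ga (1 / 4) (y - x) * D y)) := by
      calc ga (1 / 2) (y - x) * ((1 + ‖w - y‖) ^ (2 * K) * D y)
          ≤ ga (1 / 2) (y - x) * ((W * (1 + ‖y - x‖) ^ (2 * K)) * D y) :=
            mul_le_mul_of_nonneg_left (mul_le_mul_of_nonneg_right h4 hDy) hg
        _ = W * (((1 + ‖y - x‖) ^ (2 * K) * ga (1 / 2) (y - x)) * D y) := by ring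
        _ ≤ W * ((C₂ * ga (1 / 4) (y - x)) * D y) :=
            mul_le_mul_of_nonneg_left (mul_le_mul_of_nonneg_right h5 hDy) hW0
        _ = _ := by ring
    calc ga (1 / 2) (y - x) * ⟪y - x, a⟫ ^ 2
        ≤ ga (1 / 2) (y - x) * (2 * C₁ ^ 2 * ((1 + ‖w - y‖) ^ (2 * K) * D y + W * D x)) :=
          mul_le_mul_of_nonneg_left (h2.trans h3) hg
      _ = 2 * C₁ ^ 2 * (ga (1 / 2) (y - x) * ((1 + ‖w - y‖) ^ (2 * K) * D y) +
            W * (D x * ga (1 / 2) (y - x))) := by ring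
      _ ≤ 2 * C₁ ^ 2 * (W * (C₂ * (ga (1 / 4) (y - x) * D y)) + W * (D x * ga (1 / 2) (y - x))) :=
          mul_le_mul_of_nonneg_left (by linarith) (by positivity)
      _ = _ := by ring
  have hint : ∫ y, ga (1 / 2) (y - x) * ⟪y - x, a⟫ ^ 2 ∂ν ≤
      2 * C₁ ^ 2 * W * (C₂ * Db ν D x + D x * θ) := by
    have hri : Integrable (fun y => 2 * C₁ ^ 2 * W * (C₂ * (ga (1 / 4) (y - x) * D y) +
        D x * ga (1 / 2) (y - x))) ν :=
      ((hDi.const_mul C₂).add (hgi.const_mul (D x))).const_mul _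
    calc ∫ y, ga (1 / 2) (y - x) * ⟪y - x, a⟫ ^ 2 ∂ν
        ≤ ∫ y, 2 * C₁ ^ 2 * W * (C₂ * (ga (1 / 4) (y - x) * D y) + D x * ga (1 / 2) (y - x)) ∂ν := by
          refine integral_mono_of_nonneg (Eventually.of_forall fun y => ?_) hri hpt
          exact mul_nonneg (ga_nonneg _ _) (sq_nonneg _)
      _ = _ := by
          rw [integral_const_mul, integral_add (hDi.const_mul C₂) (hgi.const_mul (D x)),
            integral_const_mul, integral_const_mul, hth]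
          rfl
  have hDb : 0 ≤ Db ν D x := by
    unfold Db
    exact integral_nonneg fun y => mul_nonneg (ga_nonneg _ _) (h.nn y)
  have hDx := h.nn x
  have h7 : θ * ⟪e, a⟫ ^ 2 ≤ 4 * C₁ ^ 2 * W * (C₂ * Db ν D x + D x * θ) := by
    have := he a
    linarith
  have hY : θ * Yf ν D x = Db ν D x + θ * D x := by
    unfold Yf
    rw [← hθd]
    field_simp
  have h8 : C₂ * Db ν D x + D x * θ ≤ (C₂ + 1) * (θ * Yf ν D x) := by
    rw [hY]
    nlinarith [mul_nonneg hC₂.le (mul_nonneg hθ.le hDx)]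
  have h9 : θ * ⟪e, a⟫ ^ 2 ≤ θ * (4 * C₁ ^ 2 * (C₂ + 1) * W * Yf ν D x) := by
    calc θ * ⟪e, a⟫ ^ 2 ≤ 4 * C₁ ^ 2 * W * (C₂ * Db ν D x + D x * θ) := h7
      _ ≤ 4 * C₁ ^ 2 * W * ((C₂ + 1) * (θ * Yf ν D x)) :=
          mul_le_mul_of_nonneg_left h8 (by positivity)
      _ = _ := by ring
  exact le_of_mul_le_mul_left h9 hθ

theorem T_ell (d n K : ℕ) : ∃ C : ℝ, 0 < C ∧ ∀ (ν : Measure (X d)) (S : Set (X d))
    (D : X d → ℝ), Sd n K ν S D → ∀ b : ℝ, 0 < b → b ≤ 1 / 2 → ∀ z₀ : X d, ∀ x ∈ S,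
      ∀ e : X d, ‖e‖ ≤ 1 →
      (∀ a : X d, th ν (1 / 2) x * ⟪e, a⟫ ^ 2 ≤ 2 * ∫ y, ga (1 / 2) (y - x) * ⟪y - x, a⟫ ^ 2 ∂ν) →
      |Te n ν b z₀ x e| ≤ C * (ga (b / 6) (x - z₀) * Yf ν D x) := by
  obtain ⟨C₁, hC₁, hE⟩ := U_ell d n K
  obtain ⟨C₂, hC₂, hT⟩ := Te_bound d n K
  set M : ℝ := ∫ w : X d, (1 + ‖w‖) ^ K * ga (1 / 10) w with hM
  have hM0 : 0 ≤ M := integral_nonneg fun w => mul_nonneg (by positivity) (ga_nonneg _ _)
  refine ⟨C₂ * (Real.sqrt C₁ * M) + 1, by positivity, ?_⟩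
  intro ν S D h b hb0 hb1 z₀ x hx e he hell
  have hY := Yf_nonneg h x
  have hDx := h.nn x
  have hDY := D_le_Yf h x
  have h1 := hT ν S D h b hb0 hb1 z₀ x hx e he
  have hint0 : Integrable (fun w : X d => (1 + ‖w‖) ^ K * ga (1 / 10) w) :=
    ga_integrable (by norm_num) K
  have hint : Integrable (fun w : X d => (Real.sqrt C₁ * Real.sqrt (Yf ν D x)) *
      ((1 + ‖w - x‖) ^ K * ga (1 / 10) (w - x))) :=
    (hint0.comp_sub_right x).const_mul _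
  have h2 : ∫ w, |⟪e, Uv ν 1 w⟫| * ga (1 / 10) (w - x) ≤ (Real.sqrt C₁ * Real.sqrt (Yf ν D x)) * M := by
    calc ∫ w, |⟪e, Uv ν 1 w⟫| * ga (1 / 10) (w - x)
        ≤ ∫ w, (Real.sqrt C₁ * Real.sqrt (Yf ν D x)) * ((1 + ‖w - x‖) ^ K * ga (1 / 10) (w - x)) := by
          refine integral_mono_of_nonneg (Eventually.of_forall fun w => ?_) hint
            (Eventually.of_forall fun w => ?_)
          · exact mul_nonneg (abs_nonneg _) (ga_nonneg _ _)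
          · have h3 := hE ν S D h x hx e hell w
            have h4 : |⟪e, Uv ν 1 w⟫| ≤ Real.sqrt C₁ * (1 + ‖w - x‖) ^ K * Real.sqrt (Yf ν D x) := by
              rw [← Real.sqrt_sq_eq_abs]
              have h5 : Real.sqrt C₁ * (1 + ‖w - x‖) ^ K * Real.sqrt (Yf ν D x) =
                  Real.sqrt (C₁ * (1 + ‖w - x‖) ^ (2 * K) * Yf ν D x) := by
                rw [Real.sqrt_mul (by positivity), Real.sqrt_mul hC₁.le]
                congr 2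
                rw [mul_comm 2 K, pow_mul, Real.sqrt_sq (by positivity)]
              rw [h5]
              exact Real.sqrt_le_sqrt h3
            calc |⟪e, Uv ν 1 w⟫| * ga (1 / 10) (w - x)
                ≤ (Real.sqrt C₁ * (1 + ‖w - x‖) ^ K * Real.sqrt (Yf ν D x)) * ga (1 / 10) (w - x) :=
                  mul_le_mul_of_nonneg_right h4 (ga_nonneg _ _)
              _ = _ := by ring
      _ = _ := by
          rw [integral_const_mul, integral_sub_right_eq_self (fun w : X d => (1 + ‖w‖) ^ K * ga (1 / 10) w) x]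
  have hg : 0 ≤ ga (b / 6) (x - z₀) := ga_nonneg _ _
  have h6 : Real.sqrt (D x) * Real.sqrt (Yf ν D x) ≤ Yf ν D x := by
    calc Real.sqrt (D x) * Real.sqrt (Yf ν D x) ≤ Real.sqrt (Yf ν D x) * Real.sqrt (Yf ν D x) :=
          mul_le_mul_of_nonneg_right (Real.sqrt_le_sqrt hDY) (Real.sqrt_nonneg _)
      _ = _ := Real.mul_self_sqrt hY
  calc |Te n ν b z₀ x e|
      ≤ C₂ * ga (b / 6) (x - z₀) * Real.sqrt (D x) * ∫ w, |⟪e, Uv ν 1 w⟫| * ga (1 / 10) (w - x) := h1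
    _ ≤ C₂ * ga (b / 6) (x - z₀) * Real.sqrt (D x) * ((Real.sqrt C₁ * Real.sqrt (Yf ν D x)) * M) :=
        mul_le_mul_of_nonneg_left h2 (by positivity)
    _ = C₂ * (Real.sqrt C₁ * M) * ga (b / 6) (x - z₀) * (Real.sqrt (D x) * Real.sqrt (Yf ν D x)) := by ring
    _ ≤ C₂ * (Real.sqrt C₁ * M) * ga (b / 6) (x - z₀) * Yf ν D x :=
        mul_le_mul_of_nonneg_left h6 (by positivity)
    _ = (C₂ * (Real.sqrt C₁ * M)) * (ga (b / 6) (x - z₀) * Yf ν D x) := by ring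
    _ ≤ (C₂ * (Real.sqrt C₁ * M) + 1) * (ga (b / 6) (x - z₀) * Yf ν D x) :=
        mul_le_mul_of_nonneg_right (by linarith) (mul_nonneg hg hY)

end Pool.Agent.H1.LD
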