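import Pool.Agent.H1.LD.CovB
import Pool.Agent.H1.LD.Bnd

/-!
T_hess (direct bound, no cancellation).  v = x - y, θ = th ν (1/2) x > 0.  For a.e. y in S:
 |⟪v,e⟫| ≤ (2/θ)‖Hv ν x v‖ ≤ (C/θ)(1+|v|)^K (sqrt(D x)+sqrt(D y))        (H_diff at the point x, points x and y)
 |⟪e,Uv ν (1/2) y⟫| ≤ C sqrt(Yf y)  (U_bound),   |⟪e,Hv ν y v⟫| ≤ C(1+|v|)^K (sqrt(D x)+sqrt(D y))   (H_diff at the point y)
 2b|y-z₀| ga b (y-z₀) ≤ 2 ga (b/2)(y-z₀)   (2b s exp(-b s^2/2) ≤ 2 sqrt b ≤ 2),   ga b ≤ ga (b/2).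
So the integrand of Te is ≤ (C/θ) ga (1/2)(v)(1+|v|)^(2K+2) ga (b/2)(y-z₀)(sqrt(D x)+sqrt(D y))(sqrt(Yf y)+sqrt(D x)+sqrt(D y)) ≤ (C/θ) ga (3/8)(v) ga (b/2)(y-z₀)(D x + Yf y)   (D y ≤ Yf y, poly_ga).
The Yf part is C * Zf.  The D x part: ga_two (b/2, x := x, y := y, z := z₀): ga (b/2)(y-z₀) ≤ ga (b/4)(x-z₀) exp((b/2)|v|^2), b/2 ≤ 1/4, ga (3/8)(v)exp(|v|^2/4) = ga (1/8)(v) ≤ ga (1/16)(v): it is ≤ (C/θ) D x ga (b/4)(x-z₀) th ν (1/16) x ≤ C A D x ga (b/6)(x-z₀).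
(Integrability of y ↦ ga (3/8)(x-y) ga (b/2)(y-z₀) Yf y: Y_int, as ga (b/2) ≤ ga (b/6).  norm_integral_le_of_norm_le.)
-/

set_option autoImplicit false

open MeasureTheory Filter Topology Metric Set
open scoped RealInnerProductSpace ENNReal

namespace Pool.Agent.H1.LD

open Pool.Agent.RZ

variable {d : ℕ}

private theorem T2_gb {b t : ℝ} (hb : 0 < b) (hb2 : b ≤ 1 / 2) :
    b * t * Real.exp (-(b * t ^ 2)) ≤ Real.exp (-(b / 2 * t ^ 2)) := by
  have h1 : b * t ≤ Real.exp (b / 2 * t ^ 2) := by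
    have h2 := Real.add_one_le_exp (b / 2 * t ^ 2)
    nlinarith [sq_nonneg (t - 1)]
  calc b * t * Real.exp (-(b * t ^ 2))
      ≤ Real.exp (b / 2 * t ^ 2) * Real.exp (-(b * t ^ 2)) :=
        mul_le_mul_of_nonneg_right h1 (Real.exp_pos _).le
    _ = Real.exp (-(b / 2 * t ^ 2)) := by rw [← Real.exp_add]; congr 1; ring

private theorem T2_ga {b : ℝ} (hb : 0 < b) (hb2 : b ≤ 1 / 2) (w : X d) :
    b * ‖w‖ * ga b w ≤ ga (b / 2) w := by
  unfold ga
  exact T2_gb hb hb2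

/-- the pointwise bound: real numbers only -/
private theorem T2_alg {N b s t g g' u h p a q r θ CH CU P G G' : ℝ} {K : ℕ}
    (hN : 1 ≤ N) (hs : 0 ≤ s) (hg' : 0 ≤ g')
    (hgg : g ≤ g') (hbt : b * t * g ≤ g') (hu0 : 0 ≤ u) (hu : u ≤ CU * r)
    (hh : h ≤ CH * ((1 + s) ^ K * (a + q)))
    (hp0 : 0 ≤ p) (hp : θ * p ≤ 2 * (CH * ((1 + s) ^ K * (a + q)))) (ha : 0 ≤ a) (hq : 0 ≤ q)
    (hqr : q ≤ r) (hθ : 0 < θ) (hCH : 0 ≤ CH) (hCU : 0 ≤ CU) (hG : 0 ≤ G)
    (hG' : (1 + s) ^ (2 * K + 2) * G ≤ P * G') (hh0 : 0 ≤ h) :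
    G * (g * (((N + s ^ 2 + 2 * b * (s * t)) * u + h) * p)) ≤
      (8 * CH * (N * CU + CH) * P / θ) * (G' * (g' * (a ^ 2 + r ^ 2))) := by
  have hr : 0 ≤ r := hq.trans hqr
  have hs1 : (1 : ℝ) ≤ 1 + s := by linarith
  have hK1 : (1 : ℝ) ≤ (1 + s) ^ K := one_le_pow₀ hs1
  have hK0 : (0 : ℝ) ≤ (1 + s) ^ K := by positivity
  have e1 : g * (N + s ^ 2 + 2 * b * (s * t)) ≤ g' * (N * (1 + s) ^ 2) := by
    have h1 : g * (N + s ^ 2) ≤ g' * (N + s ^ 2) := by
      apply mul_le_mul_of_nonneg_right hgg; positivity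
    have h2 : g * (2 * b * (s * t)) ≤ g' * (2 * s) := by
      calc g * (2 * b * (s * t)) = (2 * s) * (b * t * g) := by ring
        _ ≤ (2 * s) * g' := mul_le_mul_of_nonneg_left hbt (by positivity)
        _ = g' * (2 * s) := by ring
    have h3 : N + s ^ 2 + 2 * s ≤ N * (1 + s) ^ 2 := by
      nlinarith [mul_nonneg (sub_nonneg.2 hN) hs, mul_nonneg (sub_nonneg.2 hN) (sq_nonneg s)]
    calc g * (N + s ^ 2 + 2 * b * (s * t)) = g * (N + s ^ 2) + g * (2 * b * (s * t)) := by ring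
      _ ≤ g' * (N + s ^ 2) + g' * (2 * s) := add_le_add h1 h2
      _ = g' * (N + s ^ 2 + 2 * s) := by ring
      _ ≤ g' * (N * (1 + s) ^ 2) := mul_le_mul_of_nonneg_left h3 hg'
  have e2 : g * ((N + s ^ 2 + 2 * b * (s * t)) * u + h) ≤
      g' * ((1 + s) ^ (K + 2) * ((N * CU + CH) * (r + (a + q)))) := by
    have h1 : g * (N + s ^ 2 + 2 * b * (s * t)) * u ≤ g' * (N * (1 + s) ^ 2) * (CU * r) := by
      apply mul_le_mul e1 hu hu0; positivity
    have h2 : g * h ≤ g' * (CH * ((1 + s) ^ K * (a + q))) := by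
      apply mul_le_mul hgg hh hh0 hg'
    have h3 : g' * (N * (1 + s) ^ 2) * (CU * r) ≤
        g' * ((1 + s) ^ (K + 2) * ((N * CU) * (r + (a + q)))) := by
      have h4 : (1 + s) ^ 2 ≤ (1 + s) ^ (K + 2) := pow_le_pow_right₀ hs1 (by omega)
      calc g' * (N * (1 + s) ^ 2) * (CU * r) = g' * ((1 + s) ^ 2 * ((N * CU) * r)) := by ring
        _ ≤ g' * ((1 + s) ^ (K + 2) * ((N * CU) * (r + (a + q)))) := by
          apply mul_le_mul_of_nonneg_left _ hg'
          apply mul_le_mul h4 _ (by positivity) (by positivity)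
          apply mul_le_mul_of_nonneg_left _ (by positivity)
          linarith
    have h5 : g' * (CH * ((1 + s) ^ K * (a + q))) ≤
        g' * ((1 + s) ^ (K + 2) * (CH * (r + (a + q)))) := by
      have h4 : (1 + s) ^ K ≤ (1 + s) ^ (K + 2) := pow_le_pow_right₀ hs1 (by omega)
      calc g' * (CH * ((1 + s) ^ K * (a + q))) = g' * ((1 + s) ^ K * (CH * (a + q))) := by ring
        _ ≤ g' * ((1 + s) ^ (K + 2) * (CH * (r + (a + q)))) := by
          apply mul_le_mul_of_nonneg_left _ hg'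
          apply mul_le_mul h4 _ (by positivity) (by positivity)
          apply mul_le_mul_of_nonneg_left _ (by positivity)
          linarith
    calc g * ((N + s ^ 2 + 2 * b * (s * t)) * u + h)
        = g * (N + s ^ 2 + 2 * b * (s * t)) * u + g * h := by ring
      _ ≤ g' * ((1 + s) ^ (K + 2) * ((N * CU) * (r + (a + q)))) +
          g' * ((1 + s) ^ (K + 2) * (CH * (r + (a + q)))) :=
        add_le_add (h1.trans h3) (h2.trans h5)
      _ = _ := by ring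
  have e3 : p ≤ 2 * CH / θ * ((1 + s) ^ K * (a + q)) := by
    have h1 : p = θ * p / θ := by field_simp
    rw [h1]
    calc θ * p / θ ≤ 2 * (CH * ((1 + s) ^ K * (a + q))) / θ :=
          div_le_div_of_nonneg_right hp hθ.le
      _ = _ := by ring
  have e4 : (r + (a + q)) * (a + q) ≤ 4 * (a ^ 2 + r ^ 2) := by
    have h1 : (r + (a + q)) * (a + q) ≤ (r + (a + r)) * (a + r) := by
      apply mul_le_mul <;> linarith
    nlinarith [sq_nonneg (a - r)]
  have e5 : g * ((N + s ^ 2 + 2 * b * (s * t)) * u + h) * p ≤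
      (8 * CH * (N * CU + CH) / θ) * ((1 + s) ^ (2 * K + 2) * (g' * (a ^ 2 + r ^ 2))) := by
    calc g * ((N + s ^ 2 + 2 * b * (s * t)) * u + h) * p
        ≤ (g' * ((1 + s) ^ (K + 2) * ((N * CU + CH) * (r + (a + q))))) *
            (2 * CH / θ * ((1 + s) ^ K * (a + q))) := by
          apply mul_le_mul e2 e3 hp0; positivity
      _ = (2 * CH * (N * CU + CH) / θ) * ((1 + s) ^ (2 * K + 2) * g') *
            ((r + (a + q)) * (a + q)) := by
          rw [show (2 * K + 2) = (K + 2) + K by ring, pow_add (1 + s) (K + 2) K]; ring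
      _ ≤ (2 * CH * (N * CU + CH) / θ) * ((1 + s) ^ (2 * K + 2) * g') *
            (4 * (a ^ 2 + r ^ 2)) := by
          apply mul_le_mul_of_nonneg_left e4; positivity
      _ = _ := by ring
  calc G * (g * (((N + s ^ 2 + 2 * b * (s * t)) * u + h) * p))
      = G * (g * ((N + s ^ 2 + 2 * b * (s * t)) * u + h) * p) := by ring
    _ ≤ G * ((8 * CH * (N * CU + CH) / θ) *
          ((1 + s) ^ (2 * K + 2) * (g' * (a ^ 2 + r ^ 2)))) :=
        mul_le_mul_of_nonneg_left e5 hG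
    _ = (8 * CH * (N * CU + CH) / θ) * (g' * (a ^ 2 + r ^ 2)) *
          ((1 + s) ^ (2 * K + 2) * G) := by ring
    _ ≤ (8 * CH * (N * CU + CH) / θ) * (g' * (a ^ 2 + r ^ 2)) * (P * G') := by
        apply mul_le_mul_of_nonneg_left hG'; positivity
    _ = _ := by ring

theorem T_hess (d n K : ℕ) (A : ℝ) (hA : 0 ≤ A) : ∃ C : ℝ, 0 < C ∧ ∀ (ν : Measure (X d))
    (S : Set (X d)) (D : X d → ℝ), Sd n K ν S D → ∀ b : ℝ, 0 < b → b ≤ 1 / 2 → ∀ z₀ : X d,
      ∀ x ∈ S, ∀ e : X d, ‖e‖ ≤ 1 → 0 < th ν (1 / 2) x →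
      th ν (1 / 16) x ≤ A * th ν (1 / 2) x →
      (∀ v : X d, th ν (1 / 2) x * |⟪v, e⟫| ≤ 2 * ‖Hv ν x v‖) →
      |Te n ν b z₀ x e| ≤ C * (ga (b / 6) (x - z₀) * D x + Zf ν D b z₀ x) := by
  obtain ⟨CH, hCH, hH⟩ := H_diff d n K
  obtain ⟨CV, hCV, hV⟩ := U_bound d n K
  obtain ⟨P, hP, hPoly⟩ := poly_ga d (2 * K + 2) (show (3 / 8 : ℝ) < 1 / 2 by norm_num)
  set CU : ℝ := Real.sqrt CV with hCU
  have hCU0 : 0 ≤ CU := Real.sqrt_nonneg _
  set N : ℝ := (n : ℝ) + 1 with hNdef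
  have hN1 : (1 : ℝ) ≤ N := by rw [hNdef]; have := Nat.cast_nonneg (α := ℝ) n; linarith
  set M : ℝ := 8 * CH * (N * CU + CH) * P with hM
  have hM0 : 0 < M := by
    have : 0 < N * CU + CH := by positivity
    rw [hM]; positivity
  refine ⟨M * (A + 1), by positivity, ?_⟩
  intro ν S D hS b hb hb2 z₀ x hx e he hθ hwide hdir
  have := hS.fin
  set θ : ℝ := th ν (1 / 2) x with hθdef
  have hYm : Measurable (Yf ν D) := Yf_measurable hS
  have hY0 : ∀ y, 0 ≤ Yf ν D y := fun y => Yf_nonneg hS y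
  have hDx : 0 ≤ D x := hS.nn x
  -- measurability of the Gaussians
  have m1 : Measurable (fun y : X d => ga (3 / 8) (x - y)) :=
    ((ga_continuous (3 / 8)).comp (continuous_const.sub continuous_id)).measurable
  have m2 : Measurable (fun y : X d => ga (b / 2) (y - z₀)) :=
    ((ga_continuous (b / 2)).comp (continuous_id.sub continuous_const)).measurable
  -- integrability
  have i1 : Integrable (fun y => ga (3 / 8) (x - y) * (ga (b / 2) (y - z₀) * Yf ν D y)) ν := by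
    obtain ⟨C3, hC3, h3⟩ := Y_int d
    refine (h3 n K ν S D hS b hb hb2 z₀).1.mono' (m1.mul (m2.mul hYm)).aestronglyMeasurable ?_
    refine Eventually.of_forall fun y => ?_
    rw [Real.norm_of_nonneg (mul_nonneg (ga_nonneg _ _) (mul_nonneg (ga_nonneg _ _) (hY0 y)))]
    calc ga (3 / 8) (x - y) * (ga (b / 2) (y - z₀) * Yf ν D y)
        ≤ 1 * (ga (b / 6) (y - z₀) * Yf ν D y) := by
          apply mul_le_mul (ga_le_one (by norm_num) _) _
            (mul_nonneg (ga_nonneg _ _) (hY0 y)) zero_le_one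
          exact mul_le_mul_of_nonneg_right (ga_anti (by linarith) _) (hY0 y)
      _ = _ := one_mul _
  have i2 : Integrable (fun y => ga (3 / 8) (x - y) * ga (b / 2) (y - z₀)) ν := by
    refine (integrable_const (1 : ℝ)).mono' (m1.mul m2).aestronglyMeasurable ?_
    refine Eventually.of_forall fun y => ?_
    rw [Real.norm_of_nonneg (mul_nonneg (ga_nonneg _ _) (ga_nonneg _ _))]
    calc ga (3 / 8) (x - y) * ga (b / 2) (y - z₀) ≤ 1 * 1 :=
          mul_le_mul (ga_le_one (by norm_num) _) (ga_le_one (by linarith) _)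
            (ga_nonneg _ _) zero_le_one
      _ = 1 := one_mul _
  -- the first integral
  have k1 : ∫ y, ga (3 / 8) (x - y) * ga (b / 2) (y - z₀) ∂ν ≤
      ga (b / 6) (x - z₀) * (A * θ) := by
    have i3 : Integrable (fun y => ga (1 / 16) (y - x)) ν := by
      have := poly_int ν (show (0 : ℝ) < 1 / 16 by norm_num) 0 x
      simpa using this
    have h1 : ∫ y, ga (3 / 8) (x - y) * ga (b / 2) (y - z₀) ∂ν ≤
        ∫ y, ga (b / 4) (x - z₀) * ga (1 / 16) (y - x) ∂ν := by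
      apply integral_mono i2 (i3.const_mul _)
      intro y
      have t1 := ga_two (show (0 : ℝ) ≤ b / 2 by linarith) x y z₀
      rw [show b / 2 / 2 = b / 4 by ring] at t1
      have t2 : ga (3 / 8) (x - y) * Real.exp (b / 2 * ‖x - y‖ ^ 2) ≤ ga (1 / 16) (y - x) := by
        rw [ga_comm (1 / 16) y x]
        unfold ga
        rw [← Real.exp_add]
        apply Real.exp_le_exp.2
        have : b / 2 * ‖x - y‖ ^ 2 ≤ 1 / 4 * ‖x - y‖ ^ 2 :=
          mul_le_mul_of_nonneg_right (by linarith) (by positivity)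
        nlinarith [sq_nonneg ‖x - y‖]
      calc ga (3 / 8) (x - y) * ga (b / 2) (y - z₀)
          ≤ ga (3 / 8) (x - y) * (ga (b / 4) (x - z₀) * Real.exp (b / 2 * ‖x - y‖ ^ 2)) :=
            mul_le_mul_of_nonneg_left t1 (ga_nonneg _ _)
        _ = ga (b / 4) (x - z₀) * (ga (3 / 8) (x - y) * Real.exp (b / 2 * ‖x - y‖ ^ 2)) := by
            ring
        _ ≤ ga (b / 4) (x - z₀) * ga (1 / 16) (y - x) :=
            mul_le_mul_of_nonneg_left t2 (ga_nonneg _ _)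
    refine h1.trans ?_
    rw [integral_const_mul]
    have h2 : ∫ y, ga (1 / 16) (y - x) ∂ν = th ν (1 / 16) x := rfl
    rw [h2]
    apply mul_le_mul (ga_anti (by linarith) _) hwide (th_nonneg _ _ _) (ga_nonneg _ _)
  -- the pointwise bound
  have pw : ∀ᵐ y ∂ν, ‖ga (1 / 2) (x - y) * (ga b (y - z₀) *
      (((n + 1 - ‖x - y‖ ^ 2 + 2 * b * ⟪x - y, y - z₀⟫) * ⟪e, Uv ν (1 / 2) y⟫
      - ⟪e, Hv ν y (x - y)⟫) * ⟪x - y, e⟫))‖ ≤
      (M / θ) * (ga (3 / 8) (x - y) * (ga (b / 2) (y - z₀) * (D x + Yf ν D y))) := by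
    filter_upwards [hS.ae] with y hy
    have hsym : ‖y - x‖ = ‖x - y‖ := norm_sub_rev _ _
    have hs1 : (1 : ℝ) ≤ 1 + ‖x - y‖ := by have := norm_nonneg (x - y); linarith
    have hK1 : (1 : ℝ) ≤ (1 + ‖x - y‖) ^ K := one_le_pow₀ hs1
    have hH1 : ‖Hv ν y (x - y)‖ ≤
        CH * ((1 + ‖x - y‖) ^ K * (Real.sqrt (D x) + Real.sqrt (D y))) := by
      refine (hH ν S D hS x hx y hy y).trans ?_
      rw [hsym, sub_self, norm_zero, add_zero, one_pow]
      apply mul_le_mul_of_nonneg_left _ hCH.le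
      have := mul_le_mul_of_nonneg_right hK1 (Real.sqrt_nonneg (D y))
      rw [mul_add]
      linarith
    have hH2 : ‖Hv ν x (x - y)‖ ≤
        CH * ((1 + ‖x - y‖) ^ K * (Real.sqrt (D x) + Real.sqrt (D y))) := by
      refine (hH ν S D hS x hx y hy x).trans ?_
      rw [sub_self, norm_zero, add_zero, one_pow]
      apply mul_le_mul_of_nonneg_left _ hCH.le
      have := mul_le_mul_of_nonneg_right hK1 (Real.sqrt_nonneg (D x))
      rw [mul_add]
      linarith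
    have hU : ‖Uv ν (1 / 2) y‖ ≤ CU * Real.sqrt (Yf ν D y) := by
      rw [hCU, ← Real.sqrt_mul hCV.le]
      exact Real.le_sqrt_of_sq_le (hV ν S D hS y hy)
    have hqr : Real.sqrt (D y) ≤ Real.sqrt (Yf ν D y) := Real.sqrt_le_sqrt (D_le_Yf hS y)
    have key := T2_alg (N := N) (b := b) (s := ‖x - y‖) (t := ‖y - z₀‖) (g := ga b (y - z₀))
      (g' := ga (b / 2) (y - z₀)) (u := ‖Uv ν (1 / 2) y‖) (h := ‖Hv ν y (x - y)‖)
      (p := |⟪x - y, e⟫|) (a := Real.sqrt (D x)) (q := Real.sqrt (D y))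
      (r := Real.sqrt (Yf ν D y)) (θ := θ) (CH := CH) (CU := CU) (P := P)
      (G := ga (1 / 2) (x - y)) (G' := ga (3 / 8) (x - y)) (K := K)
      hN1 (norm_nonneg _) (ga_nonneg _ _)
      (ga_anti (by linarith) _) (T2_ga hb hb2 _) (norm_nonneg _) hU hH1 (abs_nonneg _)
      ((hdir (x - y)).trans (by linarith [hH2])) (Real.sqrt_nonneg _) (Real.sqrt_nonneg _)
      hqr hθ hCH.le hCU0 (ga_nonneg _ _) (hPoly (x - y)) (norm_nonneg _)
    rw [Real.sq_sqrt hDx, Real.sq_sqrt (hY0 y)] at key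
    refine le_trans ?_ key
    rw [norm_mul, norm_mul, norm_mul, Real.norm_of_nonneg (ga_nonneg _ _),
      Real.norm_of_nonneg (ga_nonneg _ _), Real.norm_eq_abs, Real.norm_eq_abs]
    apply mul_le_mul_of_nonneg_left _ (ga_nonneg _ _)
    apply mul_le_mul_of_nonneg_left _ (ga_nonneg _ _)
    apply mul_le_mul_of_nonneg_right _ (abs_nonneg _)
    have a1 : |⟪e, Uv ν (1 / 2) y⟫| ≤ ‖Uv ν (1 / 2) y‖ := by
      refine (abs_real_inner_le_norm _ _).trans ?_
      calc ‖e‖ * ‖Uv ν (1 / 2) y‖ ≤ 1 * ‖Uv ν (1 / 2) y‖ :=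
            mul_le_mul_of_nonneg_right he (norm_nonneg _)
        _ = _ := one_mul _
    have a2 : |⟪e, Hv ν y (x - y)⟫| ≤ ‖Hv ν y (x - y)‖ := by
      refine (abs_real_inner_le_norm _ _).trans ?_
      calc ‖e‖ * ‖Hv ν y (x - y)‖ ≤ 1 * ‖Hv ν y (x - y)‖ :=
            mul_le_mul_of_nonneg_right he (norm_nonneg _)
        _ = _ := one_mul _
    have a3 : |(n : ℝ) + 1 - ‖x - y‖ ^ 2 + 2 * b * ⟪x - y, y - z₀⟫| ≤
        N + ‖x - y‖ ^ 2 + 2 * b * (‖x - y‖ * ‖y - z₀‖) := by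
      have c1 := abs_real_inner_le_norm (x - y) (y - z₀)
      have c2 := abs_le.1 c1
      have c3 : 0 ≤ ‖x - y‖ ^ 2 := by positivity
      have c4 : 2 * b * ⟪x - y, y - z₀⟫ ≤ 2 * b * (‖x - y‖ * ‖y - z₀‖) :=
        mul_le_mul_of_nonneg_left c2.2 (by positivity)
      have c5 : 2 * b * (-(‖x - y‖ * ‖y - z₀‖)) ≤ 2 * b * ⟪x - y, y - z₀⟫ :=
        mul_le_mul_of_nonneg_left c2.1 (by positivity)
      rw [abs_le]
      constructor <;> rw [hNdef] <;> nlinarith [Nat.cast_nonneg (α := ℝ) n]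
    calc |((n : ℝ) + 1 - ‖x - y‖ ^ 2 + 2 * b * ⟪x - y, y - z₀⟫) * ⟪e, Uv ν (1 / 2) y⟫
          - ⟪e, Hv ν y (x - y)⟫|
        ≤ |((n : ℝ) + 1 - ‖x - y‖ ^ 2 + 2 * b * ⟪x - y, y - z₀⟫) * ⟪e, Uv ν (1 / 2) y⟫|
          + |⟪e, Hv ν y (x - y)⟫| := abs_sub _ _
      _ ≤ (N + ‖x - y‖ ^ 2 + 2 * b * (‖x - y‖ * ‖y - z₀‖)) * ‖Uv ν (1 / 2) y‖
          + ‖Hv ν y (x - y)‖ := by
          apply add_le_add _ a2
          rw [abs_mul]
          apply mul_le_mul a3 a1 (abs_nonneg _)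
          have := norm_nonneg (x - y)
          have := norm_nonneg (y - z₀)
          positivity
  -- conclusion
  have ib : Integrable (fun y => (M / θ) * (ga (3 / 8) (x - y) *
      (ga (b / 2) (y - z₀) * (D x + Yf ν D y)))) ν := by
    have := ((i2.const_mul (D x)).add i1).const_mul (M / θ)
    refine this.congr (Eventually.of_forall fun y => ?_)
    simp only [Pi.add_apply]
    ring
  have fin := norm_integral_le_of_norm_le ib pw
  have hTe : Te n ν b z₀ x e = ∫ y, ga (1 / 2) (x - y) * (ga b (y - z₀) *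
      (((n + 1 - ‖x - y‖ ^ 2 + 2 * b * ⟪x - y, y - z₀⟫) * ⟪e, Uv ν (1 / 2) y⟫
      - ⟪e, Hv ν y (x - y)⟫) * ⟪x - y, e⟫)) ∂ν := rfl
  rw [← hTe, Real.norm_eq_abs] at fin
  refine fin.trans ?_
  have hsplit : ∫ y, (M / θ) * (ga (3 / 8) (x - y) *
      (ga (b / 2) (y - z₀) * (D x + Yf ν D y))) ∂ν =
      (M / θ) * (D x * ∫ y, ga (3 / 8) (x - y) * ga (b / 2) (y - z₀) ∂ν +
        ∫ y, ga (3 / 8) (x - y) * (ga (b / 2) (y - z₀) * Yf ν D y) ∂ν) := by
    rw [integral_const_mul, ← integral_const_mul (D x), ← integral_add (i2.const_mul (D x)) i1]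
    congr 1
    apply integral_congr_ae
    refine Eventually.of_forall fun y => ?_
    simp only []
    ring
  rw [hsplit]
  have hZ : Zf ν D b z₀ x =
      (∫ y, ga (3 / 8) (x - y) * (ga (b / 2) (y - z₀) * Yf ν D y) ∂ν) / θ := rfl
  have hZ0 : 0 ≤ Zf ν D b z₀ x := by
    rw [hZ]
    apply div_nonneg _ hθ.le
    exact integral_nonneg fun y => mul_nonneg (ga_nonneg _ _) (mul_nonneg (ga_nonneg _ _) (hY0 y))
  have hg6 : 0 ≤ ga (b / 6) (x - z₀) := ga_nonneg _ _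
  calc (M / θ) * (D x * ∫ y, ga (3 / 8) (x - y) * ga (b / 2) (y - z₀) ∂ν +
        ∫ y, ga (3 / 8) (x - y) * (ga (b / 2) (y - z₀) * Yf ν D y) ∂ν)
      ≤ (M / θ) * (D x * (ga (b / 6) (x - z₀) * (A * θ)) +
        ∫ y, ga (3 / 8) (x - y) * (ga (b / 2) (y - z₀) * Yf ν D y) ∂ν) := by
        apply mul_le_mul_of_nonneg_left _ (by positivity)
        exact add_le_add (mul_le_mul_of_nonneg_left k1 hDx) le_rfl
    _ = M * (A * (ga (b / 6) (x - z₀) * D x) + Zf ν D b z₀ x) := by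
        rw [hZ]; field_simp
    _ ≤ M * ((A + 1) * (ga (b / 6) (x - z₀) * D x + Zf ν D b z₀ x)) := by
        apply mul_le_mul_of_nonneg_left _ hM0.le
        have := mul_nonneg hg6 hDx
        nlinarith [mul_nonneg hA hZ0]
    _ = _ := by ring

end Pool.Agent.H1.LD
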