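import Pool.Agent.H1.LD.T3A
import Pool.Agent.H1.LD.T0
import Pool.Agent.H1.LD.T1
import Pool.Agent.H1.LD.T2
import Pool.Agent.H1.LD.CovC
import Pool.Agent.H1.LD.Eig
import Pool.Agent.H1.LD.Wid

/-!
Tx_bound: ν = 0 trivial (all integrals are 0).  θ = th ν (1/2) x > 0, C1 constant of th_wide, (e,h) from exists_Egb ν x, Tx = ∑ Te (e i) (Tx_sum).
 If th ν (1/16) x > 2 C1 θ then th ν (1/16) x ≤ 2 C1 sqrt(D x): T_bad with A = 2 C1 for every i, D ≤ Yf, Zf ≥ 0.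
 Else for each i: if h i ≥ -θ/2 then for all a: θ⟪e i,a⟫^2 ≤ 2(θ+h i)⟪e i,a⟫^2 ≤ 2 ∑_j (θ+h j)⟪e j,a⟫^2 = 2 ∫ ga ⟪y-x,a⟫^2 (Egb.quad, Egb.nn): T_ell.
   If h i < -θ/2: θ|⟪v,e i⟫| ≤ 2|h i||⟪v,e i⟫| = 2|⟪Hv ν x v,e i⟫| ≤ 2‖Hv ν x v‖ (Egb.app): T_hess with A = 2 C1.
Tx_int: norm_integral_le_of_norm_le with the bound of Tx_bound (holds for a.e. x), then Y_int and Z_int.
-/

set_option autoImplicit false

open MeasureTheory Filter Topology Metric Set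
open scoped RealInnerProductSpace ENNReal

namespace Pool.Agent.H1.LD

open Pool.Agent.RZ

variable {d : ℕ}

private theorem T3_Zf_nonneg {n K : ℕ} {ν : Measure (X d)} {S : Set (X d)} {D : X d → ℝ}
    (h : Sd n K ν S D) (b : ℝ) (z₀ x : X d) : 0 ≤ Zf ν D b z₀ x := by
  unfold Zf
  refine div_nonneg ?_ (th_nonneg _ _ _)
  refine integral_nonneg fun y => ?_
  exact mul_nonneg (ga_nonneg _ _) (mul_nonneg (ga_nonneg _ _) (Yf_nonneg h y))

theorem Tx_bound (d n K : ℕ) : ∃ C : ℝ, 0 < C ∧ ∀ (ν : Measure (X d))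
    (S : Set (X d)) (D : X d → ℝ), Sd n K ν S D → ∀ b : ℝ, 0 < b → b ≤ 1 / 2 → ∀ z₀ : X d,
      ∀ x ∈ S, |Tx n ν b z₀ x| ≤ C * (ga (b / 6) (x - z₀) * Yf ν D x + Zf ν D b z₀ x) := by
  obtain ⟨C1, hC1, hw⟩ := th_wide d n K
  have hC10 : 0 < C1 := by linarith
  obtain ⟨Cb, hCb, hbad⟩ := T_bad d n K (2 * C1) (by linarith)
  obtain ⟨Ce, hCe, hell⟩ := T_ell d n K
  obtain ⟨Ch, hCh, hhess⟩ := T_hess d n K (2 * C1) (by linarith)
  have hC : 0 < Cb + Ce + Ch := by linarith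
  refine ⟨(d : ℝ) * (Cb + Ce + Ch) + 1, by positivity, ?_⟩
  intro ν S D h b hb hb2 z₀ x hx
  have := h.fin
  have hY : 0 ≤ Yf ν D x := Yf_nonneg h x
  have hZ : 0 ≤ Zf ν D b z₀ x := T3_Zf_nonneg h b z₀ x
  have hG : 0 ≤ ga (b / 6) (x - z₀) := ga_nonneg _ _
  have hR : 0 ≤ ga (b / 6) (x - z₀) * Yf ν D x + Zf ν D b z₀ x :=
    add_nonneg (mul_nonneg hG hY) hZ
  by_cases hν : ν = 0
  · have h0 : Tx n ν b z₀ x = 0 := by
      unfold Tx
      rw [hν, integral_zero_measure]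
    rw [h0, abs_zero]
    exact mul_nonneg (by positivity) hR
  have hθ : 0 < th ν (1 / 2) x := th_pos hν (by norm_num) x
  obtain ⟨e, hh, E⟩ := exists_Egb ν x
  rw [Tx_sum n ν hb z₀ x e]
  have he : ∀ i, ‖e i‖ ≤ 1 := fun i => le_of_eq (e.orthonormal.1 i)
  have key : ∀ i, |Te n ν b z₀ x (e i)| ≤
      (Cb + Ce + Ch) * (ga (b / 6) (x - z₀) * Yf ν D x + Zf ν D b z₀ x) := by
    intro i
    have hDY : D x ≤ Yf ν D x := D_le_Yf h x
    have hD0 : 0 ≤ D x := h.nn x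
    have hGD : 0 ≤ ga (b / 6) (x - z₀) * D x := mul_nonneg hG hD0
    have hGDY : ga (b / 6) (x - z₀) * D x ≤ ga (b / 6) (x - z₀) * Yf ν D x :=
      mul_le_mul_of_nonneg_left hDY hG
    have hGY : 0 ≤ ga (b / 6) (x - z₀) * Yf ν D x := mul_nonneg hG hY
    rcases le_or_gt (th ν (1 / 16) x) (2 * C1 * th ν (1 / 2) x) with hc | hc
    · rcases le_or_gt (-(th ν (1 / 2) x / 2)) (hh i) with hi | hi
      · -- elliptic direction
        have h1 := hell ν S D h b hb hb2 z₀ x hx (e i) (he i) (by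
          intro a
          rw [E.quad a]
          have h2 : (th ν (1 / 2) x + hh i) * ⟪e i, a⟫ ^ 2 ≤
              ∑ j, (th ν (1 / 2) x + hh j) * ⟪e j, a⟫ ^ 2 :=
            Finset.single_le_sum (f := fun j => (th ν (1 / 2) x + hh j) * ⟪e j, a⟫ ^ 2)
              (fun j _ => mul_nonneg (E.nn j) (sq_nonneg _)) (Finset.mem_univ i)
          have h3 : th ν (1 / 2) x * ⟪e i, a⟫ ^ 2 ≤ 2 * ((th ν (1 / 2) x + hh i) * ⟪e i, a⟫ ^ 2) := by
            have h4 : th ν (1 / 2) x ≤ 2 * (th ν (1 / 2) x + hh i) := by linarith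
            calc th ν (1 / 2) x * ⟪e i, a⟫ ^ 2
                ≤ (2 * (th ν (1 / 2) x + hh i)) * ⟪e i, a⟫ ^ 2 :=
                  mul_le_mul_of_nonneg_right h4 (sq_nonneg _)
              _ = 2 * ((th ν (1 / 2) x + hh i) * ⟪e i, a⟫ ^ 2) := by ring
          linarith)
        refine h1.trans ?_
        calc Ce * (ga (b / 6) (x - z₀) * Yf ν D x)
            ≤ (Cb + Ce + Ch) * (ga (b / 6) (x - z₀) * Yf ν D x) :=
              mul_le_mul_of_nonneg_right (by linarith) hGY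
          _ ≤ _ := mul_le_mul_of_nonneg_left (by linarith) hC.le
      · -- degenerate direction
        have h1 := hhess ν S D h b hb hb2 z₀ x hx (e i) (he i) hθ hc (by
          intro v
          have h2 : |⟪Hv ν x v, e i⟫| ≤ ‖Hv ν x v‖ := by
            calc |⟪Hv ν x v, e i⟫| ≤ ‖Hv ν x v‖ * ‖e i‖ := abs_real_inner_le_norm _ _
              _ ≤ ‖Hv ν x v‖ * 1 := mul_le_mul_of_nonneg_left (he i) (norm_nonneg _)
              _ = ‖Hv ν x v‖ := mul_one _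
          rw [E.app v i, abs_mul] at h2
          have h3 : th ν (1 / 2) x ≤ 2 * |hh i| := by
            rw [abs_of_neg (by linarith)]
            linarith
          calc th ν (1 / 2) x * |⟪v, e i⟫| ≤ (2 * |hh i|) * |⟪v, e i⟫| :=
                mul_le_mul_of_nonneg_right h3 (abs_nonneg _)
            _ = 2 * (|hh i| * |⟪v, e i⟫|) := by ring
            _ ≤ 2 * ‖Hv ν x v‖ := by linarith)
        refine h1.trans ?_
        have h5 : ga (b / 6) (x - z₀) * D x + Zf ν D b z₀ x ≤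
            ga (b / 6) (x - z₀) * Yf ν D x + Zf ν D b z₀ x := by linarith
        calc Ch * (ga (b / 6) (x - z₀) * D x + Zf ν D b z₀ x)
            ≤ Ch * (ga (b / 6) (x - z₀) * Yf ν D x + Zf ν D b z₀ x) :=
              mul_le_mul_of_nonneg_left h5 hCh.le
          _ ≤ _ := mul_le_mul_of_nonneg_right (by linarith) hR
    · -- bad point
      have h1 := hw ν S D h x hx
      have h2 : th ν (1 / 16) x ≤ 2 * C1 * Real.sqrt (D x) := by
        nlinarith [h1, hc]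
      have h3 := hbad ν S D h b hb hb2 z₀ x hx (e i) (he i) h2
      refine h3.trans ?_
      calc Cb * (ga (b / 6) (x - z₀) * D x)
          ≤ Cb * (ga (b / 6) (x - z₀) * Yf ν D x + Zf ν D b z₀ x) :=
            mul_le_mul_of_nonneg_left (by linarith) hCb.le
        _ ≤ _ := mul_le_mul_of_nonneg_right (by linarith) hR
  calc |∑ i, Te n ν b z₀ x (e i)| ≤ ∑ i, |Te n ν b z₀ x (e i)| := Finset.abs_sum_le_sum_abs _ _
    _ ≤ ∑ _i : Fin d, (Cb + Ce + Ch) * (ga (b / 6) (x - z₀) * Yf ν D x + Zf ν D b z₀ x) :=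
        Finset.sum_le_sum fun i _ => key i
    _ = (d : ℝ) * (Cb + Ce + Ch) * (ga (b / 6) (x - z₀) * Yf ν D x + Zf ν D b z₀ x) := by
        rw [Finset.sum_const, Finset.card_univ, Fintype.card_fin, nsmul_eq_mul]
        ring
    _ ≤ _ := mul_le_mul_of_nonneg_right (by linarith) hR

theorem Tx_int (d n K : ℕ) : ∃ C : ℝ, 0 < C ∧ ∀ (ν : Measure (X d))
    (S : Set (X d)) (D : X d → ℝ), Sd n K ν S D → ∀ b : ℝ, 0 < b → b ≤ 1 / 2 → ∀ z₀ : X d,
      |∫ x, Tx n ν b z₀ x ∂ν| ≤ C * Wm ν D (b / 12) z₀ := by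
  obtain ⟨C, hC, hT⟩ := Tx_bound d n K
  obtain ⟨CY, hCY, hYi⟩ := Y_int d
  obtain ⟨CZ, hCZ, hZi⟩ := Z_int d
  refine ⟨C * (CY + CZ), by positivity, ?_⟩
  intro ν S D h b hb hb2 z₀
  obtain ⟨y1, y2⟩ := hYi n K ν S D h b hb hb2 z₀
  obtain ⟨z1, z2⟩ := hZi n K ν S D h b hb hb2 z₀
  have hint : Integrable (fun x => C * (ga (b / 6) (x - z₀) * Yf ν D x + Zf ν D b z₀ x)) ν :=
    (y1.add z1).const_mul C
  have h1 : ‖∫ x, Tx n ν b z₀ x ∂ν‖ ≤
      ∫ x, C * (ga (b / 6) (x - z₀) * Yf ν D x + Zf ν D b z₀ x) ∂ν := by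
    refine norm_integral_le_of_norm_le hint ?_
    filter_upwards [h.ae] with x hx
    rw [Real.norm_eq_abs]
    exact hT ν S D h b hb hb2 z₀ x hx
  rw [Real.norm_eq_abs] at h1
  refine h1.trans ?_
  rw [integral_const_mul, integral_add y1 z1]
  have h2 : (∫ x, ga (b / 6) (x - z₀) * Yf ν D x ∂ν) + ∫ x, Zf ν D b z₀ x ∂ν ≤
      (CY + CZ) * Wm ν D (b / 12) z₀ := by
    have : (CY + CZ) * Wm ν D (b / 12) z₀ = CY * Wm ν D (b / 12) z₀ + CZ * Wm ν D (b / 12) z₀ := by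
      ring
    rw [this]
    exact add_le_add y2 z2
  calc C * ((∫ x, ga (b / 6) (x - z₀) * Yf ν D x ∂ν) + ∫ x, Zf ν D b z₀ x ∂ν)
      ≤ C * ((CY + CZ) * Wm ν D (b / 12) z₀) := mul_le_mul_of_nonneg_left h2 hC.le
    _ = C * (CY + CZ) * Wm ν D (b / 12) z₀ := by ring

end Pool.Agent.H1.LD
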