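import Pool.Agent.H1.LD.EigA

/-!
Tx_sum: ⟪v,U⟫ = ∑ ⟪v,e i⟫⟪e i,U⟫ and ⟪v,Hv v⟫ = ∑ ⟪v,e i⟫⟪e i,Hv v⟫ (OrthonormalBasis.sum_inner_mul_inner), pull the finite sum out of the integral: the integrands are continuous in y and bounded (Uv, Hv/(1+|v|)
bounded for finite ν, Gaussian factors; |y-z₀| ga b (y-z₀) bounded as b > 0), so integrable for the finite measure.
-/

set_option autoImplicit false

open MeasureTheory Filter Topology Metric Set
open scoped RealInnerProductSpace ENNReal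

namespace Pool.Agent.H1.LD

open Pool.Agent.RZ

variable {d : ℕ}

private theorem T3A_poly (d m : ℕ) {b : ℝ} (hb : 0 < b) : ∃ C : ℝ, 0 < C ∧ ∀ v : X d,
    (1 + ‖v‖) ^ m * ga b v ≤ C := by
  obtain ⟨C, hC, h⟩ := poly_ga d m hb
  refine ⟨C, hC, fun v => ?_⟩
  have h1 := h v
  have h2 : ga 0 v = 1 := by
    unfold ga
    rw [zero_mul, neg_zero, Real.exp_zero]
  rwa [h2, mul_one] at h1

private theorem T3A_U (ν : Measure (X d)) [IsFiniteMeasure ν] : ∃ C : ℝ, 0 ≤ C ∧ ∀ y : X d,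
    ‖Uv ν (1 / 2) y‖ ≤ C := by
  obtain ⟨C, hC, h⟩ := T3A_poly d 1 (b := 1 / 2) (by norm_num)
  refine ⟨C * ν.real univ, by positivity, fun y => ?_⟩
  unfold Uv
  refine norm_integral_le_of_norm_le_const (Eventually.of_forall fun x => ?_)
  rw [norm_smul, Real.norm_of_nonneg (ga_nonneg _ _)]
  calc ga (1 / 2) (x - y) * ‖x - y‖ ≤ ga (1 / 2) (x - y) * (1 + ‖x - y‖) :=
        mul_le_mul_of_nonneg_left (by linarith) (ga_nonneg _ _)
    _ = (1 + ‖x - y‖) ^ 1 * ga (1 / 2) (x - y) := by ring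
    _ ≤ C := h _

private theorem T3A_H (ν : Measure (X d)) [IsFiniteMeasure ν] : ∃ C : ℝ, 0 ≤ C ∧ ∀ y a : X d,
    ‖Hv ν y a‖ ≤ C * ‖a‖ := by
  obtain ⟨C, hC, h⟩ := T3A_poly d 2 (b := 1 / 2) (by norm_num)
  refine ⟨C * ν.real univ, by positivity, fun y a => ?_⟩
  unfold Hv
  have h1 : ∀ x : X d, ‖ga (1 / 2) (x - y) • (⟪x - y, a⟫ • (x - y) - a)‖ ≤ C * ‖a‖ := by
    intro x
    rw [norm_smul, Real.norm_of_nonneg (ga_nonneg _ _)]
    have h2 : ‖⟪x - y, a⟫ • (x - y) - a‖ ≤ (1 + ‖x - y‖) ^ 2 * ‖a‖ := by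
      calc ‖⟪x - y, a⟫ • (x - y) - a‖ ≤ ‖⟪x - y, a⟫ • (x - y)‖ + ‖a‖ := norm_sub_le _ _
        _ = |⟪x - y, a⟫| * ‖x - y‖ + ‖a‖ := by rw [norm_smul, Real.norm_eq_abs]
        _ ≤ (‖x - y‖ * ‖a‖) * ‖x - y‖ + ‖a‖ := by
            have := mul_le_mul_of_nonneg_right (abs_real_inner_le_norm (x - y) a)
              (norm_nonneg (x - y))
            linarith
        _ ≤ (1 + ‖x - y‖) ^ 2 * ‖a‖ := by
            have h3 : 0 ≤ ‖x - y‖ * ‖a‖ := by positivity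
            nlinarith
    calc ga (1 / 2) (x - y) * ‖⟪x - y, a⟫ • (x - y) - a‖
        ≤ ga (1 / 2) (x - y) * ((1 + ‖x - y‖) ^ 2 * ‖a‖) :=
          mul_le_mul_of_nonneg_left h2 (ga_nonneg _ _)
      _ = ((1 + ‖x - y‖) ^ 2 * ga (1 / 2) (x - y)) * ‖a‖ := by ring
      _ ≤ C * ‖a‖ := mul_le_mul_of_nonneg_right (h _) (norm_nonneg _)
  have h4 := norm_integral_le_of_norm_le_const (μ := ν) (Eventually.of_forall h1)
  calc ‖∫ x, ga (1 / 2) (x - y) • (⟪x - y, a⟫ • (x - y) - a) ∂ν‖ ≤ C * ‖a‖ * ν.real univ := h4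
    _ = C * ν.real univ * ‖a‖ := by ring

private theorem T3A_real {n b V W E CU CH C3 C4 g1 g2 s1 s2 s3 s4 : ℝ} (hn : 0 ≤ n) (hb : 0 < b)
    (hV : 0 ≤ V) (hW : 0 ≤ W) (hE : 0 ≤ E) (hCU : 0 ≤ CU) (hCH : 0 ≤ CH) (hC3 : 0 ≤ C3)
    (hg1 : 0 ≤ g1) (hg2 : 0 ≤ g2) (h1 : |s1| ≤ V * W) (h2 : |s2| ≤ E * CU)
    (h3 : |s3| ≤ E * (CH * V)) (h4 : |s4| ≤ V * E) (hc3 : (1 + V) ^ 3 * g1 ≤ C3)
    (hc4 : (1 + W) ^ 1 * g2 ≤ C4) :
    |g1 * (g2 * (((n + 1 - V ^ 2 + 2 * b * s1) * s2 - s3) * s4))|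
      ≤ ((n + 2 + 2 * b) * CU + CH) * E ^ 2 * (C3 * C4) := by
  have hP : (0 : ℝ) ≤ (1 + V) ^ 2 * (1 + W) := by positivity
  have hV2 : V ≤ (1 + V) ^ 2 := by nlinarith
  have hVW : V ≤ (1 + V) ^ 2 * (1 + W) := by
    calc V ≤ (1 + V) ^ 2 := hV2
      _ = (1 + V) ^ 2 * 1 := by ring
      _ ≤ (1 + V) ^ 2 * (1 + W) := mul_le_mul_of_nonneg_left (by linarith) (by positivity)
  have e1 : |n + 1 - V ^ 2 + 2 * b * s1| ≤ (n + 2 + 2 * b) * ((1 + V) ^ 2 * (1 + W)) := by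
    have h6 : |2 * b * s1| ≤ 2 * b * (V * W) := by
      rw [abs_mul, abs_of_pos (by linarith : 0 < 2 * b)]
      exact mul_le_mul_of_nonneg_left h1 (by linarith)
    have h7 : |n + 1 - V ^ 2| ≤ n + 1 + V ^ 2 := by
      rw [abs_le]
      constructor <;> nlinarith [sq_nonneg V]
    have h8 : (1 : ℝ) ≤ (1 + V) ^ 2 * (1 + W) := by
      have : (1 : ℝ) ≤ (1 + V) ^ 2 := by nlinarith
      calc (1 : ℝ) ≤ (1 + V) ^ 2 := this
        _ = (1 + V) ^ 2 * 1 := by ring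
        _ ≤ (1 + V) ^ 2 * (1 + W) := mul_le_mul_of_nonneg_left (by linarith) (by positivity)
    have h9 : V ^ 2 ≤ (1 + V) ^ 2 * (1 + W) := by
      calc V ^ 2 ≤ (1 + V) ^ 2 * 1 := by nlinarith
        _ ≤ (1 + V) ^ 2 * (1 + W) := mul_le_mul_of_nonneg_left (by linarith) (by positivity)
    have h10 : V * W ≤ (1 + V) ^ 2 * (1 + W) := by
      calc V * W ≤ (1 + V) ^ 2 * W := mul_le_mul_of_nonneg_right hV2 hW
        _ ≤ (1 + V) ^ 2 * (1 + W) := mul_le_mul_of_nonneg_left (by linarith) (by positivity)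
    have h11 := mul_le_mul_of_nonneg_left h8 (by linarith : (0 : ℝ) ≤ n + 1)
    have h12 := mul_le_mul_of_nonneg_left h10 (by linarith : (0 : ℝ) ≤ 2 * b)
    have h13 : |n + 1 - V ^ 2 + 2 * b * s1| ≤ |n + 1 - V ^ 2| + |2 * b * s1| := abs_add_le _ _
    linarith
  have e5 : |(n + 1 - V ^ 2 + 2 * b * s1) * s2 - s3|
      ≤ ((n + 2 + 2 * b) * CU + CH) * E * ((1 + V) ^ 2 * (1 + W)) := by
    have h5 : |(n + 1 - V ^ 2 + 2 * b * s1) * s2|
        ≤ ((n + 2 + 2 * b) * ((1 + V) ^ 2 * (1 + W))) * (E * CU) := by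
      rw [abs_mul]
      exact mul_le_mul e1 h2 (abs_nonneg _) (by positivity)
    have h8 := mul_le_mul_of_nonneg_left hVW (mul_nonneg hCH hE)
    have h9 : |(n + 1 - V ^ 2 + 2 * b * s1) * s2 - s3|
        ≤ |(n + 1 - V ^ 2 + 2 * b * s1) * s2| + |s3| := abs_sub _ _
    linarith
  rw [abs_mul, abs_of_nonneg hg1, abs_mul, abs_of_nonneg hg2, abs_mul]
  have hM : 0 ≤ ((n + 2 + 2 * b) * CU + CH) * E ^ 2 := by positivity
  have e6 : |(n + 1 - V ^ 2 + 2 * b * s1) * s2 - s3| * |s4|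
      ≤ (((n + 2 + 2 * b) * CU + CH) * E * ((1 + V) ^ 2 * (1 + W))) * ((1 + V) * E) :=
    mul_le_mul e5 (h4.trans (mul_le_mul_of_nonneg_right (by linarith) hE)) (abs_nonneg _)
      (by positivity)
  have e7 := mul_le_mul_of_nonneg_left (mul_le_mul_of_nonneg_left e6 hg2) hg1
  have e8 : ((1 + V) ^ 3 * g1) * ((1 + W) ^ 1 * g2) ≤ C3 * C4 :=
    mul_le_mul hc3 hc4 (by positivity) hC3
  have e9 := mul_le_mul_of_nonneg_left e8 hM
  calc g1 * (g2 * (|(n + 1 - V ^ 2 + 2 * b * s1) * s2 - s3| * |s4|))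
      ≤ g1 * (g2 * ((((n + 2 + 2 * b) * CU + CH) * E * ((1 + V) ^ 2 * (1 + W))) * ((1 + V) * E))) :=
        e7
    _ = ((n + 2 + 2 * b) * CU + CH) * E ^ 2 * (((1 + V) ^ 3 * g1) * ((1 + W) ^ 1 * g2)) := by ring
    _ ≤ _ := e9

private theorem T3A_contH (ν : Measure (X d)) [IsFiniteMeasure ν] (x : X d) :
    Continuous (fun y : X d => Hv ν y (x - y)) := by
  have hpair : Continuous (fun y : X d => ((y, x - y) : X d × X d)) := by fun_prop
  have h := Hv_continuous ν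
  have h2 := h.comp hpair
  have h3 : ((fun p : X d × X d => Hv ν p.1 p.2) ∘ (fun y : X d => ((y, x - y) : X d × X d)))
      = (fun y : X d => Hv ν y (x - y)) := by
    funext y
    rw [Function.comp_apply]
  rw [h3] at h2
  exact h2

private theorem T3A_cont (n : ℕ) (ν : Measure (X d)) [IsFiniteMeasure ν] (b : ℝ)
    (z₀ x e : X d) : Continuous (fun y : X d => ga (1 / 2) (x - y) * (ga b (y - z₀) *
    (((n + 1 - ‖x - y‖ ^ 2 + 2 * b * ⟪x - y, y - z₀⟫) * ⟪e, Uv ν (1 / 2) y⟫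
      - ⟪e, Hv ν y (x - y)⟫) * ⟪x - y, e⟫))) := by
  have hUc : Continuous (Uv ν (1 / 2)) := Uv_continuous ν (by norm_num)
  have hxy : Continuous (fun y : X d => x - y) := continuous_const.sub continuous_id
  have hyz : Continuous (fun y : X d => y - z₀) := continuous_id.sub continuous_const
  have hHc : Continuous (fun y : X d => Hv ν y (x - y)) := T3A_contH ν x
  have hg1 : Continuous (fun y : X d => ga (1 / 2) (x - y)) := (ga_continuous (1 / 2)).comp hxy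
  have hg2 : Continuous (fun y : X d => ga b (y - z₀)) := (ga_continuous b).comp hyz
  have h1 : Continuous (fun y : X d => ⟪e, Uv ν (1 / 2) y⟫) := continuous_const.inner hUc
  have h2 : Continuous (fun y : X d => ⟪e, Hv ν y (x - y)⟫) := continuous_const.inner hHc
  have h3 : Continuous (fun y : X d => ⟪x - y, e⟫) := hxy.inner continuous_const
  have h4 : Continuous (fun y : X d => ⟪x - y, y - z₀⟫) := hxy.inner hyz
  have h5 : Continuous (fun y : X d => ‖x - y‖ ^ 2) := hxy.norm.pow 2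
  have h6 : Continuous (fun y : X d => (n : ℝ) + 1 - ‖x - y‖ ^ 2 + 2 * b * ⟪x - y, y - z₀⟫) :=
    (continuous_const.sub h5).add (continuous_const.mul h4)
  exact hg1.mul (hg2.mul (((h6.mul h1).sub h2).mul h3))

private theorem T3A_int (n : ℕ) (ν : Measure (X d)) [IsFiniteMeasure ν] {b : ℝ} (hb : 0 < b)
    (z₀ x e : X d) : Integrable (fun y : X d => ga (1 / 2) (x - y) * (ga b (y - z₀) *
    (((n + 1 - ‖x - y‖ ^ 2 + 2 * b * ⟪x - y, y - z₀⟫) * ⟪e, Uv ν (1 / 2) y⟫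
      - ⟪e, Hv ν y (x - y)⟫) * ⟪x - y, e⟫))) ν := by
  obtain ⟨CU, hCU, hU⟩ := T3A_U ν
  obtain ⟨CH, hCH, hH⟩ := T3A_H ν
  obtain ⟨C3, hC3, h3⟩ := T3A_poly d 3 (b := 1 / 2) (by norm_num)
  obtain ⟨C4, hC4, h4⟩ := T3A_poly d 1 hb
  refine Integrable.of_bound (T3A_cont n ν b z₀ x e).aestronglyMeasurable
    (((n + 2 + 2 * b) * CU + CH) * ‖e‖ ^ 2 * (C3 * C4)) (Eventually.of_forall fun y => ?_)
  rw [Real.norm_eq_abs]
  exact T3A_real (Nat.cast_nonneg n) hb (norm_nonneg (x - y)) (norm_nonneg (y - z₀))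
    (norm_nonneg e) hCU hCH hC3.le (ga_nonneg _ _) (ga_nonneg _ _) (abs_real_inner_le_norm _ _)
    ((abs_real_inner_le_norm _ _).trans (mul_le_mul_of_nonneg_left (hU y) (norm_nonneg e)))
    ((abs_real_inner_le_norm _ _).trans (mul_le_mul_of_nonneg_left (hH y (x - y)) (norm_nonneg e)))
    (abs_real_inner_le_norm _ _) (h3 _) (h4 _)

theorem Tx_sum (n : ℕ) (ν : Measure (X d)) [IsFiniteMeasure ν] {b : ℝ} (hb : 0 < b) (z₀ x : X d)
    (e : OrthonormalBasis (Fin d) ℝ (X d)) : Tx n ν b z₀ x = ∑ i, Te n ν b z₀ x (e i) := by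
  unfold Tx Te
  rw [← integral_finsetSum _ (fun i _ => T3A_int n ν hb z₀ x (e i))]
  congr 1
  funext y
  have h1 : ∀ u : X d, ∑ i, ⟪x - y, e i⟫ * ⟪e i, u⟫ = ⟪x - y, u⟫ := fun u =>
    e.sum_inner_mul_inner (x - y) u
  rw [← h1 (Uv ν (1 / 2) y), ← h1 (Hv ν y (x - y))]
  simp only [Finset.mul_sum, ← Finset.sum_sub_distrib]
  refine Finset.sum_congr rfl fun i _ => ?_
  ring

end Pool.Agent.H1.LD
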