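import Pool.Agent.H1.LD.Dif
import Pool.Agent.H1.LD.Wid
import Pool.Agent.H1.LD.EigA

/-!
Te_bound.  c0 = gc d 2.  By ga_first_repr / ga_hess_repr (v = p - y, Fubini over ν(dp) dw) for every y
   ⟪e, Uv ν (1/2) y⟫ = (2/c0) ∫_w ga 1 (w-y) ⟪e, Uv ν 1 w⟫ dw,    ⟪e, Hv ν y a⟫ = (4/c0) ∫_w ga 1 (w-y) ⟪w-y, a⟫ ⟪e, Uv ν 1 w⟫ dw.
Insert both in Te (a = x - y) and use Fubini in (y, w) (Uv ν 1 is bounded, everything Gaussian, ν finite):
   Te n ν b z₀ x e = (2/c0) ∫_w ⟪e, Uv ν 1 w⟫ I(w) dw,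
   I(w) = ∫_y ga (1/2)(x-y) ga b (y-z₀) ga 1 (w-y) ⟪x-y,e⟫ (n + 1 - |x-y|^2 + 2b⟪x-y,y-z₀⟫ - 2⟪w-y,x-y⟫) dν(y).
Complete the square in y: (1/2)|y-x|^2 + b|y-z₀|^2 + |y-w|^2 = α|y-q|^2 + β with α = b + 3/2 in (3/2, 2], q = (x/2 + b z₀ + w)/α, and the bracket is n + 1 - 2α⟪y-x, y-q⟫
(since 2α(y-q) = (y-x) + 2b(y-z₀) + 2(y-w)).  So I(w) = -exp(-β) Lf n ν α x q e, and L_wide gives |I(w)| ≤ C exp(-β)(1+|q-x|)^(K+1) sqrt(D x).
With a1 = z₀-x, a2 = w-x: β = min over u of b|u-a1|^2+|u|^2/2+|u-a2|^2 ≥ (b/3)|a1|^2 + |a2|^2/5   (b|u-a1|^2 + |u|^2/4 ≥ (b/4)/(b+1/4)|a1|^2 ≥ (b/3)|a1|^2 as b ≤ 1/2;  |u-a2|^2+|u|^2/4 ≥ |a2|^2/5),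
|q-x| ≤ b|a1|+|a2| ≤ sqrt(b)|a1| + |a2|, so (1+|q-x|)^(K+1) ≤ C exp((b/6)|a1|^2 + |a2|^2/10), hence |I(w)| ≤ C ga (b/6)(x-z₀) ga (1/10)(w-x) sqrt(D x).
-/

set_option autoImplicit false

open MeasureTheory Filter Topology Metric Set
open scoped RealInnerProductSpace ENNReal

namespace Pool.Agent.H1.LD

open Pool.Agent.RZ

variable {d : ℕ}

private theorem tk_int (a : X d) {b : ℝ} (hb : 0 < b) :
    Integrable (fun w : X d => ga b (w - a)) := by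
  have h := ga_integrable (d := d) hb 0
  simp only [pow_zero, one_mul] at h
  exact h.comp_sub_right a

private theorem tk_fub_int (ν : Measure (X d)) [IsFiniteMeasure ν] {f : X d → X d → ℝ}
    (hf : Continuous (Function.uncurry f)) {C b : ℝ} (hb : 0 < b) (y : X d)
    (hC : ∀ w p, |f w p| ≤ C * ga b (w - y)) :
    Integrable (Function.uncurry f) ((volume : Measure (X d)).prod ν) := by
  have h1 : Integrable (fun z : X d × X d => C * ga b (z.1 - y))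
      ((volume : Measure (X d)).prod ν) :=
    ((tk_int y hb).const_mul C).comp_fst ν
  refine h1.mono' hf.aestronglyMeasurable (ae_of_all _ fun z => ?_)
  rw [Real.norm_eq_abs]
  exact hC z.1 z.2

private theorem tk_fub (ν : Measure (X d)) [IsFiniteMeasure ν] {f : X d → X d → ℝ}
    (hf : Continuous (Function.uncurry f)) {C b : ℝ} (hb : 0 < b) (y : X d)
    (hC : ∀ w p, |f w p| ≤ C * ga b (w - y)) :
    ∫ w, ∫ p, f w p ∂ν = ∫ p, (∫ w, f w p) ∂ν :=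
  integral_integral_swap (tk_fub_int ν hf hb y hC)

private theorem tk_ga1 (d : ℕ) : ∃ C : ℝ, 0 < C ∧ ∀ v e : X d, ‖e‖ ≤ 1 →
    |ga 1 v * ⟪v, e⟫| ≤ C := by
  obtain ⟨C, hC, h⟩ := poly_ga d 1 (b := 1) (b' := 0) (by norm_num)
  refine ⟨C, hC, fun v e he => ?_⟩
  have h1 := h v
  have h2 : ga 0 v = 1 := by unfold ga; simp
  rw [h2, mul_one, pow_one] at h1
  have h3 : |⟪v, e⟫| ≤ 1 + ‖v‖ := by
    refine (abs_real_inner_le_norm v e).trans ?_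
    have := mul_le_mul_of_nonneg_left he (norm_nonneg v)
    linarith
  rw [abs_mul, abs_of_nonneg (ga_nonneg _ _), mul_comm]
  exact (mul_le_mul_of_nonneg_right h3 (ga_nonneg _ _)).trans h1

/-- the narrow first moment is bounded -/
private theorem tk_u_bdd (ν : Measure (X d)) [IsFiniteMeasure ν] (e : X d) (he : ‖e‖ ≤ 1) :
    ∃ M : ℝ, 0 ≤ M ∧ ∀ w, |⟪e, Uv ν 1 w⟫| ≤ M := by
  obtain ⟨C, hC, h⟩ := tk_ga1 d
  refine ⟨C * ν.real univ, by positivity, fun w => ?_⟩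
  rw [real_inner_comm, Uv_inner ν one_pos w e, ← Real.norm_eq_abs]
  refine norm_integral_le_of_norm_le_const (ae_of_all _ fun p => ?_)
  rw [Real.norm_eq_abs]
  exact h (p - w) e he

private theorem tk_u_cont (ν : Measure (X d)) [IsFiniteMeasure ν] (e : X d) :
    Continuous fun w => ⟪e, Uv ν 1 w⟫ :=
  continuous_const.inner (Uv_continuous ν one_pos)

private theorem tk_ga_cont {Z : Type*} [TopologicalSpace Z] {b : ℝ} {f : Z → X d}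
    (hf : Continuous f) : Continuous fun z => ga b (f z) :=
  (ga_continuous b).comp hf

/-- the first moment as a Gaussian average -/
private theorem tk_first (ν : Measure (X d)) [IsFiniteMeasure ν] (e : X d) (he : ‖e‖ ≤ 1)
    (y : X d) :
    ∫ w, ga 1 (w - y) * ⟪e, Uv ν 1 w⟫ = gc d 2 / 2 * ⟪e, Uv ν (1 / 2) y⟫ := by
  obtain ⟨C, hC, h⟩ := tk_ga1 d
  have e1 : ∀ w, ga 1 (w - y) * ⟪e, Uv ν 1 w⟫
      = ∫ p, ga 1 (w - y) * (ga 1 (p - w) * ⟪p - w, e⟫) ∂ν := by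
    intro w
    rw [integral_const_mul, real_inner_comm, Uv_inner ν one_pos w e]
  rw [integral_congr_ae (ae_of_all _ e1), tk_fub ν (C := C) (b := 1) ?_ one_pos y ?_]
  · rw [real_inner_comm, Uv_inner ν (by norm_num : (0 : ℝ) < 1 / 2) y e, ← integral_const_mul]
    refine integral_congr_ae (ae_of_all _ fun p => ?_)
    beta_reduce
    rw [← ga_first_repr (p - y) e,
      ← integral_sub_right_eq_self (fun w => ga 1 (p - y - w) * ga 1 w * ⟪p - y - w, e⟫) y]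
    refine integral_congr_ae (ae_of_all _ fun w => ?_)
    beta_reduce
    rw [show p - y - (w - y) = p - w by abel]
    ring
  · refine Continuous.mul (tk_ga_cont (by fun_prop)) (Continuous.mul (tk_ga_cont (by fun_prop)) ?_)
    exact Continuous.inner (by fun_prop) continuous_const
  · intro w p
    rw [abs_mul, abs_of_nonneg (ga_nonneg _ _), mul_comm]
    exact mul_le_mul_of_nonneg_right (h (p - w) e he) (ga_nonneg _ _)

private theorem tk_inner_ga (d : ℕ) : ∃ C : ℝ, 0 < C ∧ ∀ v a : X d,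
    |ga 1 v * ⟪v, a⟫| ≤ C * ‖a‖ * ga (1 / 2) v := by
  obtain ⟨C, hC, h⟩ := poly_ga d 1 (b := 1) (b' := 1 / 2) (by norm_num)
  refine ⟨C, hC, fun v a => ?_⟩
  have h1 := h v
  rw [pow_one] at h1
  have h3 : |⟪v, a⟫| ≤ (1 + ‖v‖) * ‖a‖ := by
    refine (abs_real_inner_le_norm v a).trans ?_
    have := norm_nonneg a
    nlinarith
  rw [abs_mul, abs_of_nonneg (ga_nonneg _ _), mul_comm]
  calc |⟪v, a⟫| * ga 1 v ≤ (1 + ‖v‖) * ‖a‖ * ga 1 v :=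
        mul_le_mul_of_nonneg_right h3 (ga_nonneg _ _)
    _ = ‖a‖ * ((1 + ‖v‖) * ga 1 v) := by ring
    _ ≤ ‖a‖ * (C * ga (1 / 2) v) := mul_le_mul_of_nonneg_left h1 (norm_nonneg a)
    _ = C * ‖a‖ * ga (1 / 2) v := by ring

/-- the Hessian as a Gaussian average -/
private theorem tk_hess (ν : Measure (X d)) [IsFiniteMeasure ν] (e : X d) (he : ‖e‖ ≤ 1)
    (y a : X d) :
    ∫ w, (ga 1 (w - y) * ⟪w - y, a⟫) * ⟪e, Uv ν 1 w⟫ = gc d 2 / 4 * ⟪e, Hv ν y a⟫ := by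
  obtain ⟨C, hC, h⟩ := tk_ga1 d
  obtain ⟨C', hC', h'⟩ := tk_inner_ga d
  have e1 : ∀ w, (ga 1 (w - y) * ⟪w - y, a⟫) * ⟪e, Uv ν 1 w⟫
      = ∫ p, (ga 1 (w - y) * ⟪w - y, a⟫) * (ga 1 (p - w) * ⟪p - w, e⟫) ∂ν := by
    intro w
    rw [integral_const_mul, ← real_inner_comm e, Uv_inner ν one_pos w e]
  rw [integral_congr_ae (ae_of_all _ e1),
    tk_fub ν (C := C' * ‖a‖ * C) (b := 1 / 2) ?_ (by norm_num) y ?_]
  · rw [real_inner_comm, Hv_inner ν y a e, ← integral_const_mul]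
    refine integral_congr_ae (ae_of_all _ fun p => ?_)
    beta_reduce
    rw [← ga_hess_repr (p - y) a e,
      ← integral_sub_right_eq_self
        (fun w => ga 1 (p - y - w) * ga 1 w * (⟪p - y - w, e⟫ * ⟪w, a⟫)) y]
    refine integral_congr_ae (ae_of_all _ fun w => ?_)
    beta_reduce
    rw [show p - y - (w - y) = p - w by abel]
    ring
  · refine Continuous.mul (Continuous.mul (tk_ga_cont (by fun_prop)) ?_)
      (Continuous.mul (tk_ga_cont (by fun_prop)) ?_)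
    · exact Continuous.inner (by fun_prop) continuous_const
    · exact Continuous.inner (by fun_prop) continuous_const
  · intro w p
    rw [abs_mul]
    calc |ga 1 (w - y) * ⟪w - y, a⟫| * |ga 1 (p - w) * ⟪p - w, e⟫|
        ≤ (C' * ‖a‖ * ga (1 / 2) (w - y)) * C :=
          mul_le_mul (h' _ _) (h _ _ he) (abs_nonneg _)
            (mul_nonneg (by positivity) (ga_nonneg _ _))
      _ = C' * ‖a‖ * C * ga (1 / 2) (w - y) := by ring

/-- the double integrand -/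
private noncomputable def tkG (n : ℕ) (ν : Measure (X d)) (b : ℝ) (z₀ x e w y : X d) : ℝ :=
  (ga (1 / 2) (x - y) * ga b (y - z₀)) * (ga 1 (w - y) *
    ((n + 1 - ‖x - y‖ ^ 2 + 2 * b * ⟪x - y, y - z₀⟫ - 2 * ⟪w - y, x - y⟫) * ⟪x - y, e⟫))
    * ⟪e, Uv ν 1 w⟫

private theorem tkG_cont (n : ℕ) (ν : Measure (X d)) [IsFiniteMeasure ν] (b : ℝ) (z₀ x e : X d) :
    Continuous (Function.uncurry fun w y => tkG n ν b z₀ x e w y) := by
  unfold tkG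
  have c1 : Continuous fun z : X d × X d => ga (1 / 2) (x - z.2) := tk_ga_cont (by fun_prop)
  have c2 : Continuous fun z : X d × X d => ga b (z.2 - z₀) := tk_ga_cont (by fun_prop)
  have c3 : Continuous fun z : X d × X d => ga 1 (z.1 - z.2) := tk_ga_cont (by fun_prop)
  have c4 : Continuous fun z : X d × X d => ⟪x - z.2, z.2 - z₀⟫ :=
    Continuous.inner (by fun_prop) (by fun_prop)
  have c5 : Continuous fun z : X d × X d => ⟪z.1 - z.2, x - z.2⟫ :=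
    Continuous.inner (by fun_prop) (by fun_prop)
  have c6 : Continuous fun z : X d × X d => ⟪x - z.2, e⟫ :=
    Continuous.inner (by fun_prop) (by fun_prop)
  have c7 : Continuous fun z : X d × X d => ⟪e, Uv ν 1 z.1⟫ :=
    (tk_u_cont ν e).comp continuous_fst
  have c8 : Continuous fun z : X d × X d => ‖x - z.2‖ ^ 2 := by fun_prop
  exact ((c1.mul c2).mul (c3.mul ((((continuous_const.sub c8).add
    (continuous_const.mul c4)).sub (continuous_const.mul c5)).mul c6))).mul c7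

private theorem tk_two (x y w : X d) :
    ga (1 / 4) (x - y) * ga (1 / 4) (w - y) ≤ ga (1 / 8) (w - x) := by
  unfold ga
  rw [← Real.exp_add]
  apply Real.exp_le_exp.2
  have h1 : ‖w - x‖ ≤ ‖w - y‖ + ‖x - y‖ := by
    have := norm_sub_le (w - y) (x - y)
    rwa [sub_sub_sub_cancel_right] at this
  have h2 := norm_nonneg (w - x)
  have h3 := norm_nonneg (w - y)
  have h4 := norm_nonneg (x - y)
  have h5 : ‖w - x‖ ^ 2 ≤ (‖w - y‖ + ‖x - y‖) ^ 2 := pow_le_pow_left₀ h2 h1 2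
  nlinarith [sq_nonneg (‖w - y‖ - ‖x - y‖)]

private theorem tkG_bound (n : ℕ) (ν : Measure (X d)) [IsFiniteMeasure ν] {b : ℝ} (hb : 0 < b)
    (hb2 : b ≤ 1 / 2) (z₀ x e : X d) (he : ‖e‖ ≤ 1) :
    ∃ C : ℝ, ∀ w y, |tkG n ν b z₀ x e w y| ≤ C * ga (1 / 8) (w - x) := by
  obtain ⟨C1, hC1, h1⟩ := poly_ga d 3 (b := 1 / 2) (b' := 1 / 4) (by norm_num)
  obtain ⟨C2, hC2, h2⟩ := poly_ga d 1 (b := 1) (b' := 1 / 4) (by norm_num)
  obtain ⟨M, hM, hu⟩ := tk_u_bdd ν e he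
  refine ⟨(n + 5) * (1 + ‖x - z₀‖) * C1 * C2 * M, fun w y => ?_⟩
  have hs := norm_nonneg (x - y)
  have ht := norm_nonneg (w - y)
  have hR := norm_nonneg (x - z₀)
  have a1 : ‖y - z₀‖ ≤ ‖x - y‖ + ‖x - z₀‖ := by
    have := norm_sub_le (x - z₀) (x - y)
    rw [sub_sub_sub_cancel_left] at this
    linarith
  have a2 : |⟪x - y, y - z₀⟫| ≤ ‖x - y‖ * (‖x - y‖ + ‖x - z₀‖) :=
    (abs_real_inner_le_norm _ _).trans (mul_le_mul_of_nonneg_left a1 hs)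
  have a3 : |⟪w - y, x - y⟫| ≤ ‖w - y‖ * ‖x - y‖ := abs_real_inner_le_norm _ _
  have a4 : |⟪x - y, e⟫| ≤ 1 + ‖x - y‖ := by
    refine (abs_real_inner_le_norm _ _).trans ?_
    nlinarith
  have a5 : |(n : ℝ) + 1 - ‖x - y‖ ^ 2 + 2 * b * ⟪x - y, y - z₀⟫ - 2 * ⟪w - y, x - y⟫|
      ≤ (n + 5) * (1 + ‖x - z₀‖) * ((1 + ‖x - y‖) ^ 2 * (1 + ‖w - y‖)) := by
    have b1 : |2 * b * ⟪x - y, y - z₀⟫| ≤ ‖x - y‖ * (‖x - y‖ + ‖x - z₀‖) := by
      rw [abs_mul, abs_of_nonneg (by positivity : (0 : ℝ) ≤ 2 * b)]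
      have := abs_nonneg ⟪x - y, y - z₀⟫
      nlinarith
    have b2 : |2 * ⟪w - y, x - y⟫| ≤ 2 * (‖w - y‖ * ‖x - y‖) := by
      rw [abs_mul, abs_of_nonneg (by norm_num : (0 : ℝ) ≤ 2)]
      linarith
    have b3 : |(n : ℝ) + 1 - ‖x - y‖ ^ 2 + 2 * b * ⟪x - y, y - z₀⟫ - 2 * ⟪w - y, x - y⟫|
        ≤ (n + 1) + ‖x - y‖ ^ 2 + ‖x - y‖ * (‖x - y‖ + ‖x - z₀‖) + 2 * (‖w - y‖ * ‖x - y‖) := by
      rw [abs_le] at b1 b2 ⊢
      have b4 : (0 : ℝ) ≤ n := Nat.cast_nonneg n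
      have b5 : 0 ≤ ‖x - y‖ ^ 2 := sq_nonneg _
      constructor <;> linarith [b1.1, b1.2, b2.1, b2.2]
    refine b3.trans ?_
    obtain ⟨s, hs'⟩ : ∃ s, s = ‖x - y‖ := ⟨_, rfl⟩
    obtain ⟨t, ht'⟩ : ∃ t, t = ‖w - y‖ := ⟨_, rfl⟩
    obtain ⟨R, hR'⟩ : ∃ R, R = ‖x - z₀‖ := ⟨_, rfl⟩
    rw [← hs', ← ht', ← hR']
    rw [← hs'] at hs
    rw [← ht'] at ht
    rw [← hR'] at hR
    have b4 : (0 : ℝ) ≤ n := Nat.cast_nonneg n
    have c1 : 1 ≤ (1 + R) * ((1 + s) ^ 2 * (1 + t)) := by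
      have := mul_nonneg hR hs
      have d1 : 1 ≤ 1 + R := by linarith
      have d2 : 1 ≤ (1 + s) ^ 2 := one_le_pow₀ (by linarith)
      have d3 : 1 ≤ 1 + t := by linarith
      calc (1 : ℝ) = 1 * (1 * 1) := by norm_num
        _ ≤ (1 + R) * ((1 + s) ^ 2 * (1 + t)) := by gcongr
    have c2 : s ^ 2 + s * (s + R) + 2 * (t * s) ≤ 4 * ((1 + R) * ((1 + s) ^ 2 * (1 + t))) := by
      have : (1 + R) * ((1 + s) ^ 2 * (1 + t)) =
        1 + 2 * s + s ^ 2 + t + 2 * (s * t) + s ^ 2 * t + R + 2 * (s * R) + R * s ^ 2 + R * t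
          + 2 * (R * s * t) + R * s ^ 2 * t := by ring
      rw [this]
      have q1 : 0 ≤ s * t := by positivity
      have q2 : 0 ≤ s ^ 2 * t := by positivity
      have q3 : 0 ≤ s * R := by positivity
      have q4 : 0 ≤ R * s ^ 2 := by positivity
      have q5 : 0 ≤ R * t := by positivity
      have q6 : 0 ≤ R * s * t := by positivity
      have q7 : 0 ≤ R * s ^ 2 * t := by positivity
      have q8 : 0 ≤ s ^ 2 := by positivity
      nlinarith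
    nlinarith
  have a6 : 0 ≤ ga (1 / 2) (x - y) := ga_nonneg _ _
  have a7 : 0 ≤ ga b (y - z₀) := ga_nonneg _ _
  have a8 : ga b (y - z₀) ≤ 1 := ga_le_one hb.le _
  have a9 : 0 ≤ ga 1 (w - y) := ga_nonneg _ _
  have g1 := h1 (x - y)
  have g2 := h2 (w - y)
  rw [pow_one] at g2
  unfold tkG
  rw [abs_mul, abs_mul, abs_mul, abs_mul, abs_mul, abs_of_nonneg a6, abs_of_nonneg a7,
    abs_of_nonneg a9]
  calc ga (1 / 2) (x - y) * ga b (y - z₀) * (ga 1 (w - y) *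
        (|(n : ℝ) + 1 - ‖x - y‖ ^ 2 + 2 * b * ⟪x - y, y - z₀⟫ - 2 * ⟪w - y, x - y⟫|
          * |⟪x - y, e⟫|)) * |⟪e, Uv ν 1 w⟫|
      ≤ ga (1 / 2) (x - y) * 1 * (ga 1 (w - y) *
        ((n + 5) * (1 + ‖x - z₀‖) * ((1 + ‖x - y‖) ^ 2 * (1 + ‖w - y‖)) * (1 + ‖x - y‖))) * M := by
        gcongr
        exact hu w
    _ = (n + 5) * (1 + ‖x - z₀‖) * M * (((1 + ‖x - y‖) ^ 3 * ga (1 / 2) (x - y)) *
        ((1 + ‖w - y‖) * ga 1 (w - y))) := by ring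
    _ ≤ (n + 5) * (1 + ‖x - z₀‖) * M * ((C1 * ga (1 / 4) (x - y)) *
        (C2 * ga (1 / 4) (w - y))) := by
        have q1 : 0 ≤ C1 * ga (1 / 4) (x - y) := mul_nonneg hC1.le (ga_nonneg _ _)
        gcongr
    _ = (n + 5) * (1 + ‖x - z₀‖) * C1 * C2 * M * (ga (1 / 4) (x - y) * ga (1 / 4) (w - y)) := by
        ring
    _ ≤ (n + 5) * (1 + ‖x - z₀‖) * C1 * C2 * M * ga (1 / 8) (w - x) := by
        gcongr
        exact tk_two x y w

private theorem tk_int1 (ν : Measure (X d)) [IsFiniteMeasure ν] (e : X d) (he : ‖e‖ ≤ 1)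
    (y : X d) : Integrable fun w => ga 1 (w - y) * ⟪e, Uv ν 1 w⟫ := by
  obtain ⟨M, hM, hu⟩ := tk_u_bdd ν e he
  refine ((tk_int y one_pos).mul_const M).mono'
    ((tk_ga_cont (by fun_prop)).mul (tk_u_cont ν e)).aestronglyMeasurable
    (ae_of_all _ fun w => ?_)
  rw [Real.norm_eq_abs, abs_mul, abs_of_nonneg (ga_nonneg _ _)]
  exact mul_le_mul_of_nonneg_left (hu w) (ga_nonneg _ _)

private theorem tk_int2 (ν : Measure (X d)) [IsFiniteMeasure ν] (e : X d) (he : ‖e‖ ≤ 1)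
    (y a : X d) : Integrable fun w => (ga 1 (w - y) * ⟪w - y, a⟫) * ⟪e, Uv ν 1 w⟫ := by
  obtain ⟨M, hM, hu⟩ := tk_u_bdd ν e he
  obtain ⟨C', hC', h'⟩ := tk_inner_ga d
  have c1 : Continuous fun w : X d => ⟪w - y, a⟫ := Continuous.inner (by fun_prop) (by fun_prop)
  refine (((tk_int y (by norm_num : (0 : ℝ) < 1 / 2)).const_mul (C' * ‖a‖)).mul_const M).mono'
    (((tk_ga_cont (by fun_prop)).mul c1).mul (tk_u_cont ν e)).aestronglyMeasurable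
    (ae_of_all _ fun w => ?_)
  rw [Real.norm_eq_abs, abs_mul]
  exact mul_le_mul (h' _ _) (hu w) (abs_nonneg _) (mul_nonneg (by positivity) (ga_nonneg _ _))

/-- the inner integral over `w` -/
private theorem tkG_w (n : ℕ) (ν : Measure (X d)) [IsFiniteMeasure ν] (b : ℝ) (z₀ x e : X d)
    (he : ‖e‖ ≤ 1) (y : X d) :
    ga (1 / 2) (x - y) * (ga b (y - z₀) *
      (((n + 1 - ‖x - y‖ ^ 2 + 2 * b * ⟪x - y, y - z₀⟫) * ⟪e, Uv ν (1 / 2) y⟫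
        - ⟪e, Hv ν y (x - y)⟫) * ⟪x - y, e⟫))
      = 2 / gc d 2 * ∫ w, tkG n ν b z₀ x e w y := by
  have hc : gc d 2 ≠ 0 := (gc_pos (by norm_num : (0 : ℝ) < 2)).ne'
  have e1 : ∀ w, tkG n ν b z₀ x e w y =
      (ga (1 / 2) (x - y) * ga b (y - z₀) * ⟪x - y, e⟫
        * (n + 1 - ‖x - y‖ ^ 2 + 2 * b * ⟪x - y, y - z₀⟫)) * (ga 1 (w - y) * ⟪e, Uv ν 1 w⟫)
      - (2 * (ga (1 / 2) (x - y) * ga b (y - z₀) * ⟪x - y, e⟫))
        * ((ga 1 (w - y) * ⟪w - y, x - y⟫) * ⟪e, Uv ν 1 w⟫) := by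
    intro w
    unfold tkG
    ring
  rw [integral_congr_ae (ae_of_all _ e1),
    integral_sub ((tk_int1 ν e he y).const_mul _) ((tk_int2 ν e he y (x - y)).const_mul _),
    integral_const_mul, integral_const_mul, tk_first ν e he y, tk_hess ν e he y (x - y)]
  field_simp
  ring

private noncomputable def tkq (b : ℝ) (z₀ x w : X d) : X d :=
  (b + 3 / 2)⁻¹ • ((1 / 2 : ℝ) • x + b • z₀ + w)

private noncomputable def tkβ (b : ℝ) (z₀ x w : X d) : ℝ :=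
  1 / 2 * ‖x - tkq b z₀ x w‖ ^ 2 + b * ‖tkq b z₀ x w - z₀‖ ^ 2 + ‖w - tkq b z₀ x w‖ ^ 2

private theorem tk_q_eq {b : ℝ} (hb : 0 < b) (z₀ x w : X d) :
    (b + 3 / 2) • tkq b z₀ x w = (1 / 2 : ℝ) • x + b • z₀ + w := by
  unfold tkq
  rw [smul_smul, mul_inv_cancel₀ (by positivity), one_smul]

/-- `2 α (y - q) = (y - x) + 2b (y - z₀) + 2 (y - w)` -/
private theorem tk_q_lin {b : ℝ} (hb : 0 < b) (z₀ x w y : X d) :
    (2 * (b + 3 / 2)) • (y - tkq b z₀ x w) = (y - x) + (2 * b) • (y - z₀) + (2 : ℝ) • (y - w) := by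
  have h := tk_q_eq hb z₀ x w
  rw [smul_sub, mul_smul 2 (b + 3 / 2) (tkq b z₀ x w), h]
  module

private theorem tk_square {b : ℝ} (hb : 0 < b) (z₀ x w y : X d) :
    1 / 2 * ‖x - y‖ ^ 2 + b * ‖y - z₀‖ ^ 2 + ‖w - y‖ ^ 2
      = (b + 3 / 2) * ‖y - tkq b z₀ x w‖ ^ 2 + tkβ b z₀ x w := by
  obtain ⟨q, hq⟩ : ∃ q, q = tkq b z₀ x w := ⟨_, rfl⟩
  have h := tk_q_lin hb z₀ x w q
  unfold tkβ
  rw [← hq] at h ⊢
  rw [sub_self, smul_zero] at h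
  have h2 : ⟪y - q, (q - x) + (2 * b) • (q - z₀) + (2 : ℝ) • (q - w)⟫ = 0 := by
    rw [← h, inner_zero_right]
  rw [inner_add_right, inner_add_right, inner_smul_right, inner_smul_right] at h2
  have e1 : ‖x - y‖ ^ 2 = ‖x - q‖ ^ 2 + 2 * ⟪y - q, q - x⟫ + ‖y - q‖ ^ 2 := by
    have : x - y = -((q - x) + (y - q)) := by abel
    rw [this, norm_neg, norm_add_sq_real, norm_sub_rev q x, real_inner_comm]
  have e2 : ‖y - z₀‖ ^ 2 = ‖q - z₀‖ ^ 2 + 2 * ⟪y - q, q - z₀⟫ + ‖y - q‖ ^ 2 := by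
    have : y - z₀ = (q - z₀) + (y - q) := by abel
    rw [this, norm_add_sq_real, real_inner_comm]
  have e3 : ‖w - y‖ ^ 2 = ‖w - q‖ ^ 2 + 2 * ⟪y - q, q - w⟫ + ‖y - q‖ ^ 2 := by
    have : w - y = -((q - w) + (y - q)) := by abel
    rw [this, norm_neg, norm_add_sq_real, norm_sub_rev q w, real_inner_comm]
  rw [e1, e2, e3]
  linear_combination h2

private theorem tk_ga_prod {b : ℝ} (hb : 0 < b) (z₀ x w y : X d) :
    (ga (1 / 2) (x - y) * ga b (y - z₀)) * ga 1 (w - y)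
      = Real.exp (-(tkβ b z₀ x w)) * ga (b + 3 / 2) (y - tkq b z₀ x w) := by
  unfold ga
  rw [← Real.exp_add, ← Real.exp_add, ← Real.exp_add]
  congr 1
  have := tk_square hb z₀ x w y
  linarith

private theorem tk_bracket {b : ℝ} (hb : 0 < b) (n : ℕ) (z₀ x w y : X d) :
    (n : ℝ) + 1 - ‖x - y‖ ^ 2 + 2 * b * ⟪x - y, y - z₀⟫ - 2 * ⟪w - y, x - y⟫
      = n + 1 - 2 * (b + 3 / 2) * ⟪y - x, y - tkq b z₀ x w⟫ := by
  have h : ⟪y - x, (2 * (b + 3 / 2)) • (y - tkq b z₀ x w)⟫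
      = ⟪y - x, (y - x) + (2 * b) • (y - z₀) + (2 : ℝ) • (y - w)⟫ := by
    rw [tk_q_lin hb z₀ x w y]
  rw [inner_smul_right, inner_add_right, inner_add_right, inner_smul_right, inner_smul_right,
    real_inner_self_eq_norm_sq, norm_sub_rev y x] at h
  have h2 : ⟪x - y, y - z₀⟫ = -⟪y - x, y - z₀⟫ := by
    rw [← neg_sub y x, inner_neg_left]
  have h3 : ⟪w - y, x - y⟫ = ⟪y - x, y - w⟫ := by
    rw [← neg_sub y x, ← neg_sub y w, inner_neg_neg, real_inner_comm]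
  rw [h2, h3]
  linarith

/-- the inner integral over `y` -/
private theorem tkG_y {b : ℝ} (hb : 0 < b) (n : ℕ) (ν : Measure (X d)) (z₀ x e w : X d) :
    ∫ y, tkG n ν b z₀ x e w y ∂ν = -(Real.exp (-(tkβ b z₀ x w))
      * Lf n ν (b + 3 / 2) x (tkq b z₀ x w) e * ⟪e, Uv ν 1 w⟫) := by
  unfold Lf
  rw [← integral_const_mul, ← integral_mul_const, ← integral_neg]
  refine integral_congr_ae (ae_of_all _ fun y => ?_)
  beta_reduce
  unfold tkG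
  rw [tk_bracket hb n z₀ x w y]
  have h1 : ⟪x - y, e⟫ = -⟪y - x, e⟫ := by rw [← neg_sub y x, inner_neg_left]
  have h2 := tk_ga_prod hb z₀ x w y
  rw [h1]
  linear_combination (-(((n : ℝ) + 1 - 2 * (b + 3 / 2) * ⟪y - x, y - tkq b z₀ x w⟫)
    * ⟪y - x, e⟫ * ⟪e, Uv ν 1 w⟫)) * h2

private theorem tk_q_x {b : ℝ} (hb : 0 < b) (z₀ x w : X d) :
    tkq b z₀ x w - x = (b + 3 / 2)⁻¹ • (b • (z₀ - x) + (w - x)) := by
  have h := tk_q_eq hb z₀ x w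
  have h2 : (b + 3 / 2) • (tkq b z₀ x w - x) = b • (z₀ - x) + (w - x) := by
    rw [smul_sub, h]
    module
  rw [← h2, smul_smul, inv_mul_cancel₀ (by positivity), one_smul]

/-- lower bound for the exponent -/
private theorem tk_beta {b : ℝ} (hb : 0 < b) (hb2 : b ≤ 1 / 2) (z₀ x w : X d) :
    b / 3 * ‖x - z₀‖ ^ 2 + 1 / 5 * ‖w - x‖ ^ 2 ≤ tkβ b z₀ x w := by
  unfold tkβ
  obtain ⟨q, hq⟩ : ∃ q, q = tkq b z₀ x w := ⟨_, rfl⟩
  rw [← hq]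
  have h1 : ‖x - z₀‖ ≤ ‖q - z₀‖ + ‖x - q‖ := by
    have : x - z₀ = (q - z₀) + (x - q) := by abel
    rw [this]; exact norm_add_le _ _
  have h2 : ‖w - x‖ ≤ ‖w - q‖ + ‖x - q‖ := by
    have : w - x = (w - q) - (x - q) := by abel
    rw [this]; exact norm_sub_le _ _
  have p1 := norm_nonneg (x - z₀)
  have p2 := norm_nonneg (w - x)
  have h3 := pow_le_pow_left₀ p1 h1 2
  have h4 := pow_le_pow_left₀ p2 h2 2
  obtain ⟨s, hs⟩ : ∃ s, s = ‖q - z₀‖ := ⟨_, rfl⟩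
  obtain ⟨t, ht⟩ : ∃ t, t = ‖x - q‖ := ⟨_, rfl⟩
  obtain ⟨r, hr⟩ : ∃ r, r = ‖w - q‖ := ⟨_, rfl⟩
  rw [← hs, ← ht] at h3
  rw [← hr, ← ht] at h4
  rw [← hs, ← ht, ← hr]
  have h5 : b / 3 * (s + t) ^ 2 ≤ b * s ^ 2 + 1 / 4 * t ^ 2 := by
    nlinarith [mul_nonneg hb.le (sq_nonneg (2 * s - t)), sq_nonneg t,
      mul_nonneg (sub_nonneg.2 hb2) (sq_nonneg t)]
  have h6 : 1 / 5 * (r + t) ^ 2 ≤ r ^ 2 + 1 / 4 * t ^ 2 := by
    nlinarith [sq_nonneg (4 * r - t)]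
  have h7 : b / 3 * ‖x - z₀‖ ^ 2 ≤ b / 3 * (s + t) ^ 2 :=
    mul_le_mul_of_nonneg_left h3 (by positivity)
  linarith

/-- the weight -/
private theorem tk_weight (d m : ℕ) : ∃ C : ℝ, 0 < C ∧ ∀ b : ℝ, 0 < b → b ≤ 1 / 2 →
    ∀ z₀ x w : X d, Real.exp (-(tkβ b z₀ x w)) * (1 + ‖tkq b z₀ x w - x‖) ^ m
      ≤ C * (ga (b / 6) (x - z₀) * ga (1 / 10) (w - x)) := by
  obtain ⟨C1, hC1, h1⟩ := poly_ga d m (b := 1 / 3) (b' := 1 / 6) (by norm_num)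
  obtain ⟨C2, hC2, h2⟩ := poly_ga d m (b := 1 / 5) (b' := 1 / 10) (by norm_num)
  refine ⟨C1 * C2, by positivity, fun b hb hb2 z₀ x w => ?_⟩
  have hsb : 0 ≤ Real.sqrt b := Real.sqrt_nonneg b
  have hsq : Real.sqrt b ^ 2 = b := Real.sq_sqrt hb.le
  have k1 : ‖tkq b z₀ x w - x‖ ≤ ‖Real.sqrt b • (x - z₀)‖ + ‖w - x‖ := by
    rw [tk_q_x hb, norm_smul, norm_smul, Real.norm_of_nonneg hsb, norm_inv,
      Real.norm_of_nonneg (by positivity : (0 : ℝ) ≤ b + 3 / 2)]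
    have c1 : ‖b • (z₀ - x) + (w - x)‖ ≤ b * ‖x - z₀‖ + ‖w - x‖ := by
      refine (norm_add_le _ _).trans ?_
      rw [norm_smul, Real.norm_of_nonneg hb.le, norm_sub_rev z₀ x]
    have c2 : b ≤ Real.sqrt b := by
      apply Real.le_sqrt_of_sq_le
      nlinarith
    have c3 : (b + 3 / 2)⁻¹ ≤ 1 := inv_le_one_of_one_le₀ (by linarith)
    calc (b + 3 / 2)⁻¹ * ‖b • (z₀ - x) + (w - x)‖ ≤ 1 * (b * ‖x - z₀‖ + ‖w - x‖) :=
          mul_le_mul c3 c1 (norm_nonneg _) zero_le_one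
      _ ≤ Real.sqrt b * ‖x - z₀‖ + ‖w - x‖ := by
          rw [one_mul]
          have := mul_le_mul_of_nonneg_right c2 (norm_nonneg (x - z₀))
          linarith
  have k2 : (1 + ‖tkq b z₀ x w - x‖) ^ m
      ≤ (1 + ‖Real.sqrt b • (x - z₀)‖) ^ m * (1 + ‖w - x‖) ^ m := by
    rw [← mul_pow]
    refine pow_le_pow_left₀ (by positivity) ?_ m
    have := mul_nonneg (norm_nonneg (Real.sqrt b • (x - z₀))) (norm_nonneg (w - x))
    nlinarith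
  have k3 : Real.exp (-(tkβ b z₀ x w)) ≤ ga (1 / 3) (Real.sqrt b • (x - z₀)) * ga (1 / 5) (w - x) := by
    unfold ga
    rw [← Real.exp_add]
    apply Real.exp_le_exp.2
    rw [norm_smul, mul_pow, Real.norm_of_nonneg hsb, hsq]
    have := tk_beta hb hb2 z₀ x w
    linarith
  have k4 := h1 (Real.sqrt b • (x - z₀))
  have k5 := h2 (w - x)
  have k6 : ga (1 / 6) (Real.sqrt b • (x - z₀)) = ga (b / 6) (x - z₀) := by
    unfold ga
    rw [norm_smul, mul_pow, Real.norm_of_nonneg hsb, hsq]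
    congr 1
    ring
  rw [k6] at k4
  calc Real.exp (-(tkβ b z₀ x w)) * (1 + ‖tkq b z₀ x w - x‖) ^ m
      ≤ (ga (1 / 3) (Real.sqrt b • (x - z₀)) * ga (1 / 5) (w - x)) *
        ((1 + ‖Real.sqrt b • (x - z₀)‖) ^ m * (1 + ‖w - x‖) ^ m) :=
        mul_le_mul k3 k2 (by positivity) (mul_nonneg (ga_nonneg _ _) (ga_nonneg _ _))
    _ = ((1 + ‖Real.sqrt b • (x - z₀)‖) ^ m * ga (1 / 3) (Real.sqrt b • (x - z₀))) *
        ((1 + ‖w - x‖) ^ m * ga (1 / 5) (w - x)) := by ring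
    _ ≤ (C1 * ga (b / 6) (x - z₀)) * (C2 * ga (1 / 10) (w - x)) :=
        mul_le_mul k4 k5 (mul_nonneg (by positivity) (ga_nonneg _ _))
          (mul_nonneg hC1.le (ga_nonneg _ _))
    _ = C1 * C2 * (ga (b / 6) (x - z₀) * ga (1 / 10) (w - x)) := by ring

/-- `Te` is a Gaussian superposition (in `w`) of homogeneity defects -/
theorem Te_bound (d n K : ℕ) : ∃ C : ℝ, 0 < C ∧ ∀ (ν : Measure (X d)) (S : Set (X d))
    (D : X d → ℝ), Sd n K ν S D → ∀ b : ℝ, 0 < b → b ≤ 1 / 2 → ∀ z₀ : X d, ∀ x ∈ S,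
      ∀ e : X d, ‖e‖ ≤ 1 →
      |Te n ν b z₀ x e| ≤ C * ga (b / 6) (x - z₀) * Real.sqrt (D x) *
        ∫ w, |⟪e, Uv ν 1 w⟫| * ga (1 / 10) (w - x) := by
  obtain ⟨C1, hC1, hL⟩ := L_wide d n K
  obtain ⟨C2, hC2, hW⟩ := tk_weight d (K + 1)
  have hc : 0 < gc d 2 := gc_pos (by norm_num : (0 : ℝ) < 2)
  refine ⟨2 / gc d 2 * (C1 * C2), by positivity, ?_⟩
  intro ν S D hS b hb hb2 z₀ x hx e he
  have hfin : IsFiniteMeasure ν := hS.fin
  obtain ⟨M, hM, hu⟩ := tk_u_bdd ν e he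
  obtain ⟨C, hC⟩ := tkG_bound n ν hb hb2 z₀ x e he
  have e1 : Te n ν b z₀ x e = 2 / gc d 2 * ∫ w, ∫ y, tkG n ν b z₀ x e w y ∂ν := by
    rw [tk_fub ν (tkG_cont n ν b z₀ x e) (by norm_num : (0 : ℝ) < 1 / 8) x hC,
      ← integral_const_mul]
    unfold Te
    exact integral_congr_ae (ae_of_all _ fun y => tkG_w n ν b z₀ x e he y)
  have hg : Integrable fun w => |⟪e, Uv ν 1 w⟫| * ga (1 / 10) (w - x) := by
    refine ((tk_int x (by norm_num : (0 : ℝ) < 1 / 10)).const_mul M).mono'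
      ((tk_u_cont ν e).abs.mul (tk_ga_cont (by fun_prop))).aestronglyMeasurable
      (ae_of_all _ fun w => ?_)
    rw [Real.norm_eq_abs, abs_mul, abs_abs, abs_of_nonneg (ga_nonneg _ _)]
    exact mul_le_mul_of_nonneg_right (hu w) (ga_nonneg _ _)
  have h2 : ‖∫ w, ∫ y, tkG n ν b z₀ x e w y ∂ν‖ ≤ ∫ w, (C1 * C2 * ga (b / 6) (x - z₀)
      * Real.sqrt (D x)) * (|⟪e, Uv ν 1 w⟫| * ga (1 / 10) (w - x)) := by
    refine norm_integral_le_of_norm_le (hg.const_mul _) (ae_of_all _ fun w => ?_)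
    rw [tkG_y hb n ν z₀ x e w, norm_neg, norm_mul, norm_mul, Real.norm_eq_abs, Real.norm_eq_abs,
      Real.norm_eq_abs, abs_of_pos (Real.exp_pos _)]
    have h3 := hL ν S D hS (b + 3 / 2) (by linarith) (by linarith) x hx (tkq b z₀ x w) e
    have h4 := hW b hb hb2 z₀ x w
    have h5 : 0 ≤ Real.sqrt (D x) := Real.sqrt_nonneg _
    calc Real.exp (-(tkβ b z₀ x w)) * |Lf n ν (b + 3 / 2) x (tkq b z₀ x w) e|
          * |⟪e, Uv ν 1 w⟫|
        ≤ Real.exp (-(tkβ b z₀ x w)) * (C1 * 1 * (1 + ‖tkq b z₀ x w - x‖) ^ (K + 1)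
          * Real.sqrt (D x)) * |⟪e, Uv ν 1 w⟫| := by
          gcongr
          refine h3.trans ?_
          gcongr
      _ = C1 * Real.sqrt (D x) * |⟪e, Uv ν 1 w⟫| * (Real.exp (-(tkβ b z₀ x w))
          * (1 + ‖tkq b z₀ x w - x‖) ^ (K + 1)) := by ring
      _ ≤ C1 * Real.sqrt (D x) * |⟪e, Uv ν 1 w⟫|
          * (C2 * (ga (b / 6) (x - z₀) * ga (1 / 10) (w - x))) := by
          gcongr
      _ = (C1 * C2 * ga (b / 6) (x - z₀) * Real.sqrt (D x))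
          * (|⟪e, Uv ν 1 w⟫| * ga (1 / 10) (w - x)) := by ring
  rw [integral_const_mul, Real.norm_eq_abs] at h2
  rw [e1, abs_mul, abs_of_pos (by positivity : 0 < 2 / gc d 2)]
  calc 2 / gc d 2 * |∫ w, ∫ y, tkG n ν b z₀ x e w y ∂ν|
      ≤ 2 / gc d 2 * ((C1 * C2 * ga (b / 6) (x - z₀) * Real.sqrt (D x)) *
        ∫ w, |⟪e, Uv ν 1 w⟫| * ga (1 / 10) (w - x)) :=
        mul_le_mul_of_nonneg_left h2 (by positivity)
    _ = 2 / gc d 2 * (C1 * C2) * ga (b / 6) (x - z₀) * Real.sqrt (D x) *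
        ∫ w, |⟪e, Uv ν 1 w⟫| * ga (1 / 10) (w - x) := by ring

end Pool.Agent.H1.LD
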