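import Pool.Agent.H1.LD.Dic

/-!
upper_dens.  μ = H^n restricted to G (compact, H^n(G) < ∞; n ≥ 1 so points have measure 0).  If r⁻¹^n μ.real(closedBall z r) → 0 then for some k: μ(closedBall z r) ≤ (1/2) r^n for all 0 < r ≤ 1/(k+1).  Let A_k be the set of such z in G; show μ(A_k) = 0.
 H^n(A_k) = lim over δ of inf over countable covers by sets U_i with diam ≤ δ of ∑ diam(U_i)^n (Measure.hausdorffMeasure_apply or mkMetric; for n ≥ 1).  Take a cover with δ = 1/(k+1) and ∑ diam^n ≤ H^n(A_k) + η.  If U_i meets A_k at x_i, U_i ∩ A_k ⊆ closedBall x_i (diam U_i),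
 so μ(A_k) ≤ ∑ μ(closedBall x_i (diam U_i)) ≤ (1/2)∑ diam(U_i)^n (if diam U_i = 0 the set is a point, measure 0).  As A_k ⊆ G, H^n(A_k) = μ(A_k) (restrict_apply', G measurable), finite: μ(A_k) ≤ (μ(A_k)+η)/2 for all η.
-/

set_option autoImplicit false

open MeasureTheory Filter Topology Metric Set
open scoped RealInnerProductSpace ENNReal

namespace Pool.Agent.H1.LD

open Pool.Agent.RZ

variable {d : ℕ}

/-- the exceptional set at scale `δ` is a null set -/
private theorem Upd_null {n : ℕ} (hn : 1 ≤ n) {G : Set (X d)} (hGm : MeasurableSet G)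
    (hfin : Measure.hausdorffMeasure (n : ℝ) G < ⊤) {δ : ℝ} (hδ : 0 < δ) :
    (Measure.hausdorffMeasure (n : ℝ) : Measure (X d)) {z : X d | z ∈ G ∧ ∀ r : ℝ, 0 < r → r ≤ δ →
      ((Measure.hausdorffMeasure (n : ℝ)).restrict G) (closedBall z r)
        ≤ ENNReal.ofReal (r ^ n) / 2} = 0 := by
  set H : Measure (X d) := Measure.hausdorffMeasure (n : ℝ) with hH
  set A : Set (X d) := {z : X d | z ∈ G ∧ ∀ r : ℝ, 0 < r → r ≤ δ →
      (H.restrict G) (closedBall z r) ≤ ENNReal.ofReal (r ^ n) / 2} with hA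
  have hAG : A ⊆ G := fun z hz => hz.1
  have hMfin : H A < ⊤ := (measure_mono hAG).trans_lt hfin
  have hn0 : (0 : ℝ) < n := by
    have : 0 < n := hn
    exact_mod_cast this
  have hres : ∀ B : Set (X d), B ⊆ A → H B = (H.restrict G) B := by
    intro B hB
    rw [Measure.restrict_apply' hGm, inter_eq_left.2 (hB.trans hAG)]
  -- the covering estimate
  have key : ∀ η : ℝ≥0∞, 0 < η → H A ≤ (H A + η) / 2 := by
    intro η hη
    have hap := Measure.hausdorffMeasure_apply (n : ℝ) A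
    have hle : (⨅ (t : ℕ → Set (X d)) (_ : A ⊆ ⋃ i, t i) (_ : ∀ i, ediam (t i) ≤ ENNReal.ofReal δ),
        ∑' i, ⨆ _ : (t i).Nonempty, ediam (t i) ^ (n : ℝ)) ≤ H A := by
      rw [hH, hap]
      exact le_iSup₂_of_le (ENNReal.ofReal δ) (ENNReal.ofReal_pos.2 hδ) le_rfl
    have hlt : (⨅ (t : ℕ → Set (X d)) (_ : A ⊆ ⋃ i, t i) (_ : ∀ i, ediam (t i) ≤ ENNReal.ofReal δ),
        ∑' i, ⨆ _ : (t i).Nonempty, ediam (t i) ^ (n : ℝ)) < H A + η :=
      hle.trans_lt (ENNReal.lt_add_right hMfin.ne hη.ne')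
    simp only [iInf_lt_iff] at hlt
    obtain ⟨t, ht, hd, hs⟩ := hlt
    have h1 : H A ≤ ∑' i, (H.restrict G) (A ∩ t i) := by
      have h2 : A ⊆ ⋃ i, (A ∩ t i) := by
        rw [← inter_iUnion]
        exact subset_inter (Subset.refl _) ht
      calc H A = (H.restrict G) A := hres A (Subset.refl _)
        _ ≤ (H.restrict G) (⋃ i, (A ∩ t i)) := measure_mono h2
        _ ≤ _ := measure_iUnion_le _
    have h3 : ∀ i, (H.restrict G) (A ∩ t i) ≤ (⨆ _ : (t i).Nonempty, ediam (t i) ^ (n : ℝ)) / 2 := by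
      intro i
      rcases (A ∩ t i).eq_empty_or_nonempty with he | ⟨x, hxA, hxt⟩
      · rw [he]; simp
      have hne : (t i).Nonempty := ⟨x, hxt⟩
      rw [ciSup_pos hne]
      rcases eq_or_ne (ediam (t i)) 0 with h0 | h0
      · have hsub : (t i).Subsingleton := ediam_eq_zero_iff.1 h0
        have hx : A ∩ t i ⊆ {x} := fun y hy => hsub hy.2 hxt
        have hz : (H.restrict G) {x} = 0 := by
          have : NullSingletonClass H := Measure.nullSingletonClass_hausdorff (X d) hn0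
          refine le_antisymm ((Measure.restrict_apply_le _ _).trans ?_) (zero_le)
          rw [measure_singleton]
        exact (measure_mono hx).trans (by rw [hz]; exact zero_le)
      · have htop : ediam (t i) ≠ ⊤ := ((hd i).trans_lt ENNReal.ofReal_lt_top).ne
        set ρ : ℝ := (ediam (t i)).toReal with hρ
        have hρ0 : 0 < ρ := ENNReal.toReal_pos h0 htop
        have hρδ : ρ ≤ δ := ENNReal.toReal_le_of_le_ofReal hδ.le (hd i)
        have hsub : A ∩ t i ⊆ closedBall x ρ := by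
          intro y hy
          rw [mem_closedBall, dist_edist]
          exact ENNReal.toReal_mono htop (edist_le_ediam_of_mem hy.2 hxt)
        refine (measure_mono hsub).trans ((hxA.2 ρ hρ0 hρδ).trans ?_)
        have he : ENNReal.ofReal (ρ ^ n) = ediam (t i) ^ (n : ℝ) := by
          rw [ENNReal.rpow_natCast, ENNReal.ofReal_pow hρ0.le, hρ, ENNReal.ofReal_toReal htop]
        rw [he]
    calc H A ≤ ∑' i, (H.restrict G) (A ∩ t i) := h1
      _ ≤ ∑' i, (⨆ _ : (t i).Nonempty, ediam (t i) ^ (n : ℝ)) / 2 := ENNReal.tsum_le_tsum h3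
      _ = (∑' i, ⨆ _ : (t i).Nonempty, ediam (t i) ^ (n : ℝ)) / 2 := by
          simp only [div_eq_mul_inv, ENNReal.tsum_mul_right]
      _ ≤ (H A + η) / 2 := by gcongr
  have key2 : H A ≤ H A / 2 := by
    refine ENNReal.le_of_forall_pos_le_add ?_
    intro ε hε _
    have := key (2 * (ε : ℝ≥0∞)) (by positivity)
    refine this.trans (le_of_eq ?_)
    rw [ENNReal.add_div, mul_comm, ENNReal.mul_div_cancel_right (by norm_num) (by norm_num)]
  by_contra hne
  exact absurd key2 (not_le.2 (ENNReal.half_lt_self hne hMfin.ne))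

theorem upper_dens {n : ℕ} (hn : 1 ≤ n) {G : Set (X d)} (hG : IsCompact G)
    (hfin : Measure.hausdorffMeasure (n : ℝ) G < ⊤) :
    ∀ᵐ z ∂((Measure.hausdorffMeasure (n : ℝ)).restrict G),
      ¬ Tendsto (fun r : ℝ => r⁻¹ ^ n *
        ((Measure.hausdorffMeasure (n : ℝ)).restrict G).real (closedBall z r)) (𝓝[>] 0) (𝓝 0) := by
  have hGm : MeasurableSet G := hG.measurableSet
  set H : Measure (X d) := Measure.hausdorffMeasure (n : ℝ) with hH
  set μ : Measure (X d) := H.restrict G with hμ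
  have hμfin : ∀ B : Set (X d), μ B ≠ ⊤ := by
    intro B
    have : μ B ≤ H G := by
      calc μ B ≤ μ univ := measure_mono (subset_univ _)
        _ = H G := by rw [hμ, Measure.restrict_apply_univ]
    exact (this.trans_lt hfin).ne
  have hnull : ∀ᵐ z ∂μ, ∀ k : ℕ, z ∉ {z : X d | z ∈ G ∧ ∀ r : ℝ, 0 < r → r ≤ 1 / ((k : ℝ) + 1) →
      μ (closedBall z r) ≤ ENNReal.ofReal (r ^ n) / 2} := by
    rw [ae_all_iff]
    intro k
    have hk : (0 : ℝ) < 1 / ((k : ℝ) + 1) := by positivity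
    have h1 := Upd_null hn hGm hfin hk
    have h2 : μ {z : X d | z ∈ G ∧ ∀ r : ℝ, 0 < r → r ≤ 1 / ((k : ℝ) + 1) →
      μ (closedBall z r) ≤ ENNReal.ofReal (r ^ n) / 2} = 0 :=
      le_antisymm ((Measure.restrict_apply_le _ _).trans h1.le) zero_le
    exact measure_eq_zero_iff_ae_notMem.1 h2
  have hmem : ∀ᵐ z ∂μ, z ∈ G := by
    rw [hμ]
    exact ae_restrict_mem hGm
  filter_upwards [hnull, hmem] with z hz hzG ht
  have h1 : ∀ᶠ r : ℝ in 𝓝[>] 0, r⁻¹ ^ n * μ.real (closedBall z r) < 1 / 2 :=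
    ht.eventually (gt_mem_nhds (by norm_num))
  rw [eventually_nhdsWithin_iff, Metric.eventually_nhds_iff] at h1
  obtain ⟨ε, hε, h2⟩ := h1
  obtain ⟨k, hk⟩ := exists_nat_one_div_lt hε
  refine hz k ⟨hzG, fun r hr hrk => ?_⟩
  have hrε : r < ε := hrk.trans_lt hk
  have h3 := h2 (y := r) (by rw [Real.dist_eq, sub_zero, abs_of_pos hr]; exact hrε) hr
  have hrn : 0 < r ^ n := pow_pos hr n
  have h4 : μ.real (closedBall z r) ≤ r ^ n / 2 := by
    rw [inv_pow, inv_mul_lt_iff₀ hrn] at h3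
    linarith
  have h5 : μ (closedBall z r) = ENNReal.ofReal (μ.real (closedBall z r)) := by
    rw [Measure.real, ENNReal.ofReal_toReal (hμfin _)]
  rw [h5]
  have h6 : ENNReal.ofReal (r ^ n) / 2 = ENNReal.ofReal (r ^ n / 2) := by
    rw [ENNReal.ofReal_div_of_pos (by norm_num)]
    norm_num
  rw [h6]
  exact ENNReal.ofReal_le_ofReal h4

end Pool.Agent.H1.LD
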